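import Pool.Agent.MP_66cee2_co.D.SpecA
import Pool.Agent.MP_66cee2_co.XI.Edge
import Pool.Agent.MP_66cee2_co.XI.Aff1
import Pool.Agent.MP_66cee2_co.XI.Clo
import Pool.Agent.MP_66cee2_co.XI.One
import Pool.Agent.MP_66cee2_co.XI.Rem
import Pool.Agent.MP_66cee2_co.XI.Two
import Pool.Agent.MP_66cee2_co.XI.Aff2
import Pool.Agent.MP_66cee2_co.XI.Path
import Pool.Agent.MP_66cee2_co.XI.Spr
import Pool.Agent.MP_66cee2_co.XI.Pin
import Pool.Agent.MP_66cee2_co.XI.End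
import Pool.Agent.MP_66cee2_co.XI.PosI
import Pool.Agent.MP_66cee2_co.XI.Sig
import Pool.Agent.MP_66cee2_co.XI.Den
import Pool.Agent.MP_66cee2_co.XI.Par
import Pool.Agent.MP_66cee2_co.XI.Coef
import Pool.Agent.MP_66cee2_co.XI.Null
import Pool.Agent.MP_66cee2_co.XI.Dec
import Pool.Agent.MP_66cee2_co.XJ.Up
import Pool.Agent.MP_66cee2_co.XJ.Sig

/-
Either the isometric pieces contain a fork, or no unit pair is isometric.
-/

namespace Pool.Agent.MP_66cee2_co.D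

open MeasureTheory Set Filter Metric Topology Pool.Agent.MP_66cee2_co.X
  Pool.Agent.MP_66cee2_co.XI

namespace CaseBx

theorem den_anti {d : ℕ} {Z : Set (E d)} {r r' : ℝ} (h : r' ≤ r) {x : E d} (hx : x ∈ Den Z r) :
    x ∈ Den Z r' := ⟨hx.1, fun τ h0 h1 => hx.2 τ h0 (h1.trans h)⟩

theorem pair_null {d : ℕ} (hd : 2 ≤ d) {A : Set (E d)} (hA : MeasurableSet A)
    (h : ∀ x ∈ A, ∀ x₁ ∈ A, ∀ x₂ ∈ A, ‖x₁ - x‖ = 1 → ‖x₂ - x‖ = 1 → x₁ ≠ x₂ →
      x₁ - x = -(x₂ - x)) : AllPair fun x y => ¬ (x ∈ A ∧ y ∈ A) := by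
  classical
  have hm : Measurable fun y : E d => A.indicator (fun _ => (1 : ℝ)) y :=
    measurable_const.indicator hA
  have e : ∀ x y : E d, ((fun _ : Unit => A.indicator (fun _ => (1 : ℝ)) x) ⬝ᵥ
      (fun _ : Unit => A.indicator (fun _ => (1 : ℝ)) y) = 0) ↔ ¬ (x ∈ A ∧ y ∈ A) := by
    intro x y
    by_cases hx : x ∈ A <;> by_cases hy : y ∈ A <;> simp [dotProduct, hx, hy]
  have key : AePair fun x y : E d => ¬ (x ∈ A ∧ y ∈ A) := by
    refine Eventually.of_forall fun x => ?_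
    have hu := X.sSig.unit d (by omega)
    by_cases hw : ∃ w : E d, ‖w‖ = 1 ∧ x + w ∈ A
    · obtain ⟨w, w1, wA⟩ := hw
      have p : ∀ v : E d, ∀ᵐ ω ∂sig d, ω ≠ v := fun v => by
        rw [ae_iff]
        simpa using X.sSig.point d hd v
      filter_upwards [hu, p w, p (-w)] with ω h1 h2 h3 ⟨hx, hy⟩
      have := h x hx _ hy _ wA (by simpa using h1) (by simpa using w1) (by simpa using h2)
      exact h3 (by simpa using this)
    · filter_upwards [hu] with ω h1 ⟨_, hy⟩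
      exact hw ⟨ω, h1, hy⟩
  have := X.sUp X.sSig d Unit (fun y _ => A.indicator (fun _ => (1 : ℝ)) y)
    (fun y _ => A.indicator (fun _ => (1 : ℝ)) y) (fun _ => hm) (fun _ => hm)
    (key.mono fun x hx => hx.mono fun ω hω => (e _ _).2 hω)
  exact fun w hw => (this w hw).mono fun x hx => (e _ _).1 hx

theorem posI : SPosI :=
  have hRem := sRem sNull
  sPosI sNull sClo (sEdge hRem sCoef (XI.sSig sNull))
    (sAff2 sNull (sAff1 sNull (sTwo sOne) sDec)) (sPath sDec) (sPar hRem sDen)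

theorem endI : SEnd :=
  have hSig := XI.sSig sNull
  sEnd hSig (sPin hSig) (sSpr hSig sDec)

end CaseBx

open CaseBx

theorem sCaseB : SJt → SCaseB := by
  intro hJ d n P u hd hP hu
  have hU : UF u := XI.JetField.uf hu
  have cl : ∀ D K j, IsClosed (Pc u D K j (Cl2 j)) := fun D K j => by
    have := isClosed_pc sClo u D K j 3 0
    rwa [cl_three] at this
  by_cases h : ∀ (D j : ℕ) (r : ℝ), 1 ≤ j → 0 < r →
      ∀ x ∈ Den (Pc u D (4 * D + 1) j (Cl2 j)) r, ∀ x₁ ∈ Den (Pc u D (4 * D + 1) j (Cl2 j)) r,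
      ∀ x₂ ∈ Den (Pc u D (4 * D + 1) j (Cl2 j)) r, ‖x₁ - x‖ = 1 → ‖x₂ - x‖ = 1 → x₁ ≠ x₂ →
      x₁ - x = -(x₂ - x)
  · refine Or.inr fun w hw => ?_
    have a1 : ∀ᵐ x : E d, ∀ D j k : ℕ, 1 ≤ j →
        ¬ (x ∈ Den (Pc u D (4 * D + 1) j (Cl2 j)) (1 / ((k : ℝ) + 1)) ∧
          x + w ∈ Den (Pc u D (4 * D + 1) j (Cl2 j)) (1 / ((k : ℝ) + 1))) := by
      simp only [ae_all_iff]
      intro D j k hj
      exact pair_null hd ((sDen d _).1 (cl D _ j) _).measurableSet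
        (h D j _ hj Nat.one_div_pos_of_nat) w hw
    have a2 : ∀ᵐ x : E d, ∀ D j : ℕ, x ∈ Pc u D (4 * D + 1) j (Cl2 j) →
        ∃ r > 0, x ∈ Den (Pc u D (4 * D + 1) j (Cl2 j)) r := by
      simp only [ae_all_iff]
      intro D j
      exact (sDen d _).2 (cl D _ j).measurableSet
    have a3 := (measurePreserving_add_right volume w).quasiMeasurePreserving.ae a2
    filter_upwards [a1, a2, a3] with x h1 h2 h3 ⟨i1, i2⟩
    have hj := (hJ d n u hd hU).2.2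
    obtain ⟨D, e1, e2⟩ := ((hj x i1).and (hj _ i2)).exists
    obtain ⟨j, ⟨f1, f2⟩, j1⟩ :=
      (((e1 (4 * D + 1)).and (e2 (4 * D + 1))).and (eventually_ge_atTop 1)).exists
    obtain ⟨r, r0, g1⟩ := h2 D j f1
    obtain ⟨r', r0', g2⟩ := h3 D j f2
    obtain ⟨k, hk⟩ := exists_nat_one_div_lt (lt_min r0 r0')
    exact h1 D j k j1 ⟨den_anti (hk.le.trans (min_le_left _ _)) g1,
      den_anti (hk.le.trans (min_le_right _ _)) g2⟩
  · push Not at h
    obtain ⟨D, j, r, j1, r0, x, hx, x₁, h1, x₂, h2, n1, n2, n3, n4⟩ := h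
    obtain ⟨T, c, hT⟩ := posI d n u hd hU D _ j r le_rfl j1 r0 x hx x₁ h1 x₂ h2 n1 n2 n3 n4
    refine Or.inl ⟨aff T c, fun x y => ?_, endI d n hd P u hP hu T c hT⟩
    simp only [aff, add_sub_add_right_eq_sub, ← map_sub, LinearIsometry.norm_map]

end Pool.Agent.MP_66cee2_co.D
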