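import Pool.Agent.MP_66cee2_co.D.SpecA
import Pool.Agent.MP_66cee2_co.XI.Clo

/-
The pieces of the flat field are closed and monotone.
-/

namespace Pool.Agent.MP_66cee2_co.D

open MeasureTheory Set Filter Metric Topology Pool.Agent.MP_66cee2_co.X
  Pool.Agent.MP_66cee2_co.XI Pool.Agent.MP_66cee2_co.XI.CloA

namespace PvCx

variable {d n : ℕ}

theorem closed (u : E d → Ix n → ℝ) (D K j : ℕ) (z : E d) (a : Ix n) :
    IsClosed (Pc u D K j (Ph j z a)) := by
  let Y : Type := E d × (Ix n → mons d D → Icc (-1 : ℝ) 1)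
  have hF : ∀ b, CloA.Fam D fun y : Y => mkP D (y.2 b) := fun b => ⟨fun y => deg_mkP _, fun α => by
    simp only [coeff_mkP]
    split_ifs
    · exact continuous_subtype_val.comp ((continuous_apply _).comp
        ((continuous_apply b).comp continuous_snd))
    · exact continuous_const⟩
  have hc : ∀ b, Continuous fun y : Y => ev (mkP D (y.2 b)) z :=
    fun b => (hF b).cev continuous_const
  have hP : IsClosed {y : Y | Ph j z a fun b => mkP D (y.2 b)} := by
    refine closed_and ?_ (isClosed_le continuous_const (continuous_const.mul ((hc a).pow 2)))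
    simp only [lz_eq, evv]
    exact isClosed_le continuous_const (by fun_prop)
  have hT : IsClosed {y : Y | ‖y.1‖ ≤ j ∧ (∀ τ : ℝ, 0 < τ → j * τ ≤ 1 →
      Thin (badS u (fun b => mkP D (y.2 b)) (j * τ ^ K)) y.1 τ) ∧
      Ph j z a fun b => mkP D (y.2 b)} :=
    closed_and (isClosed_le (by fun_prop) continuous_const) (closed_and
      (closed_all fun τ => closed_all fun _ => closed_all fun _ =>
        closed_thin hF (by fun_prop) u _ τ) hP)
  convert isClosedMap_fst_of_compactSpace _ hT using 1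
  ext x
  constructor
  · rintro ⟨h1, Q, hQ, h2⟩
    choose e he using fun b => exists_mkP (hQ.deg b) (hQ.cf b)
    obtain rfl : (fun b => mkP D (e b)) = Q := funext he
    exact ⟨(x, e), ⟨h1, hQ.thin, h2⟩, rfl⟩
  · rintro ⟨y, ⟨h1, h2, h3⟩, rfl⟩
    refine ⟨h1, _, ⟨fun b => deg_mkP _, fun b α => ?_, h2⟩, h3⟩
    rw [coeff_mkP]
    split_ifs
    · exact abs_le.2 (y.2 b _).2
    · simp

theorem adm (u : E d → Ix n → ℝ) (D D' K K' j j' : ℕ) (x : E d) (Q : Ix n → MP d) (hD : D ≤ D')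
    (hK : K' ≤ K) (h1 : 1 ≤ j) (hj : j ≤ j') (h : Adm u D K j x Q) : Adm u D' K' j' x Q := by
  refine ⟨fun b => (h.deg b).trans hD, h.cf, fun τ h0 hτ => ?_⟩
  have e1 : (1 : ℝ) ≤ j := by exact_mod_cast h1
  have e2 : (j : ℝ) ≤ j' := by exact_mod_cast hj
  have e3 : (j : ℝ) * τ ≤ 1 := (mul_le_mul_of_nonneg_right e2 h0.le).trans hτ
  have e4 : τ ≤ 1 := by nlinarith
  have e5 : (j : ℝ) * τ ^ K ≤ j' * τ ^ K' :=
    mul_le_mul e2 (pow_le_pow_of_le_one h0.le e4 hK) (by positivity) (by linarith)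
  refine (measure_mono (inter_subset_inter_left _ ?_)).trans (h.thin τ h0 e3)
  rintro y ⟨b, c, hy⟩
  exact ⟨b, c, e5.trans_lt hy⟩

theorem up {s t x : ℝ} (hs : 0 ≤ s) (hst : s ≤ t) (h : 1 ≤ s * x) : 1 ≤ t * x := by
  have : 0 ≤ x := by
    by_contra hx
    nlinarith [mul_nonneg hs (neg_nonneg.2 (not_le.1 hx).le)]
  nlinarith [mul_le_mul_of_nonneg_right hst this]

end PvCx

theorem sPvC : SPvC := fun _ _ u =>
  ⟨PvCx.closed u, PvCx.adm u, fun j _ _ _ _ hj h =>
    ⟨PvCx.up (Nat.cast_nonneg j) (by exact_mod_cast hj) h.1,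
      PvCx.up (Nat.cast_nonneg j) (by exact_mod_cast hj) h.2⟩⟩

end Pool.Agent.MP_66cee2_co.D
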