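import Pool.Agent.MP_66cee2_co.D.SpecA
import Pool.Agent.MP_66cee2_co.XI.Cls
import Pool.Agent.MP_66cee2_co.XI.Rem
import Pool.Agent.MP_66cee2_co.XI.Null
import Pool.Agent.MP_66cee2_co.XI.Den
import Pool.Agent.MP_66cee2_co.XJ.App

/-
The flat field: gluing the fields of countably many families of pieces.
-/

namespace Pool.Agent.MP_66cee2_co.D

open MeasureTheory Set Filter Metric Topology Matrix Pool.Agent.MP_66cee2_co.X
  Pool.Agent.MP_66cee2_co.XI
open scoped ENNReal RealInnerProductSpace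

namespace Vfx

/-- a measurable choice of an index among countably many measurable sets. -/
theorem sel {α ι : Type} [MeasurableSpace α] [Countable ι] [Nonempty ι] (S : ι → Set α)
    (hS : ∀ i, MeasurableSet (S i)) :
    ∃ g : α → ι, (∀ i, MeasurableSet {x | g x = i}) ∧ ∀ x, (∃ i, x ∈ S i) → x ∈ S (g x) := by
  classical
  obtain ⟨e, he⟩ := exists_surjective_nat ι
  have h : ∀ x, ∃ k : ℕ, x ∈ S (e k) ∪ (⋃ i, S i)ᶜ := by
    intro x
    by_cases hx : x ∈ ⋃ i, S i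
    · obtain ⟨i, hi⟩ := mem_iUnion.1 hx
      obtain ⟨k, rfl⟩ := he i
      exact ⟨k, Or.inl hi⟩
    · exact ⟨0, Or.inr hx⟩
  have hm : Measurable fun x => Nat.find (h x) :=
    measurable_find h fun k => (hS _).union (MeasurableSet.iUnion hS).compl
  refine ⟨fun x => e (Nat.find (h x)), fun i => ?_, fun x hx => ?_⟩
  · exact hm (show MeasurableSet {k : ℕ | e k = i} from trivial)
  · rcases Nat.find_spec (h x) with h1 | h1
    · exact h1
    · exact absurd (mem_iUnion.2 hx) h1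

theorem glue {α β ι : Type} [MeasurableSpace α] [MeasurableSpace β] [Countable ι] {g : α → ι}
    (hg : ∀ i, MeasurableSet {x | g x = i}) {W : ι → α → β} (hW : ∀ i, Measurable (W i)) :
    Measurable fun x => W (g x) x := by
  intro t ht
  have : (fun x => W (g x) x) ⁻¹' t = ⋃ i, {x | g x = i} ∩ W i ⁻¹' t := by
    ext x
    simp only [mem_preimage, mem_iUnion, mem_inter_iff, mem_ofPred_eq]
    exact ⟨fun h => ⟨_, rfl, h⟩, fun ⟨i, hi, h⟩ => hi ▸ h⟩
  rw [this]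
  exact MeasurableSet.iUnion fun i => (hg i).inter (hW i ht)

variable {d n : ℕ}

theorem lz_sm (c : ℝ) (v : Ix n → ℝ) : lz (c • v) (c • v) = c ^ 2 * lz v v := by
  simp only [lz_eq, Pi.smul_apply, smul_eq_mul, mul_add, Finset.mul_sum]
  congr 1
  · congr 1
    · exact Finset.sum_congr rfl fun i _ => by ring
    · ring
  · ring

theorem pos_nv {j : ℕ} {z : E d} {a : Ix n} {R : Ix n → MP d} (h : Ph j z a R) :
    0 < lz (nv a (evv R z)) (nv a (evv R z)) := by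
  have h1 : 0 < lz (evv R z) (evv R z) := by
    by_contra hc
    have := mul_nonpos_of_nonneg_of_nonpos (Nat.cast_nonneg (α := ℝ) j) (not_lt.1 hc)
    linarith [h.1]
  have h2 : evv R z a ≠ 0 := by
    intro h0
    have := h.2
    rw [show ev (R a) z = 0 from h0] at this
    norm_num at this
  rw [nv, lz_sm]
  have := inv_ne_zero h2
  positivity

theorem par_cancel {R Q : Ix n → MP d} {c : ℝ} (hc : c ≠ 0) (h : ParP R fun a => c • Q a) :
    ParP R Q := by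
  intro z a b
  have := h z a b
  simp only [ev, MvPolynomial.smul_eval] at this ⊢
  apply mul_left_cancel₀ hc
  linarith

end Vfx

open Vfx in
theorem sVf (hJ : SJt) (hC : SPvC) (hH : SPvH) (hE : SPvE) (hV : SVone) : SVf := by
  intro d n P u hd hu
  have hU : UF u := ⟨hu.meas, hu.unit, hu.orth⟩
  obtain ⟨hcl, hmono, -⟩ := hC d n u
  obtain ⟨hest, hpar⟩ := hH d n u hU
  choose W hWm hW using fun i : ℕ × (Fin d → ℚ) × Ix n => hV d n u i.1 (qp i.2.1) i.2.2 hU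
  obtain ⟨g, hg, hgS⟩ := sel (fun i : ℕ × (Fin d → ℚ) × Ix n =>
      ⋂ K : ℕ, ⋃ j : ℕ, ⋃ _ : 1 ≤ j, Pc u i.1 K j (Ph j (qp i.2.1) i.2.2))
    fun i => MeasurableSet.iInter fun K => MeasurableSet.iUnion fun j =>
      MeasurableSet.iUnion fun _ => (hcl _ _ _ _ _).measurableSet
  have hae : ∀ᵐ x, ∃ Q, Jt u x Q := sCls (sRem sNull) sDen d n P u hu
  have hin : ∀ x Q, Jt u x Q → ∀ K, ∃ j, 1 ≤ j ∧
      x ∈ Pc u (g x).1 K j (Ph j (qp (g x).2.1) (g x).2.2) := by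
    intro x Q hQ K
    obtain ⟨D, z, a, h⟩ := (hE d n).1 u x Q hd hU hQ
    have := hgS x ⟨(D, z, a), mem_iInter.2 fun K => by
      obtain ⟨j, hj, hx⟩ := h K
      exact mem_iUnion₂.2 ⟨j, hj, hx⟩⟩
    obtain ⟨j, hj, hx⟩ := mem_iUnion₂.1 (mem_iInter.1 this K)
    exact ⟨j, hj, hx⟩
  refine ⟨fun x => W (g x) x, glue hg hWm, ?_, ?_⟩
  · filter_upwards [hae] with x ⟨Q, hQ⟩
    obtain ⟨D', hD1, hD2⟩ : ∃ D', (g x).1 ≤ D' ∧ ∀ a, (Q a).totalDegree ≤ D' :=
      ⟨max (g x).1 (Finset.univ.sup fun a => (Q a).totalDegree), le_max_left _ _, fun a =>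
        le_max_of_le_right (Finset.le_sup (f := fun a => (Q a).totalDegree) (Finset.mem_univ a))⟩
    obtain ⟨j, hj, hx, R, hR, hP⟩ := hin x Q hQ (2 * D' + 1)
    have hVx := hW (g x) (2 * D' + 1) j x R (by omega) hj hx hR hP
    obtain ⟨c, hc, hA⟩ := (hJ d n u hd hU).1 x Q hQ.1
    obtain ⟨j', hA', hj'⟩ := ((hA D' hD2 (2 * D' + 1)).and (eventually_ge_atTop j)).exists
    have hR' := hmono _ D' _ (2 * D' + 1) j j' x R hD1 le_rfl hj hj' hR
    have hp := hpar D' (2 * D' + 1) j' x R _ le_rfl (hj.trans hj')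
      (hx.trans (Nat.cast_le.2 hj')) hR' hA'
    refine ⟨?_, Q, R, qp (g x).2.1, (evv R (qp (g x).2.1) (g x).2.2)⁻¹, hQ,
      par_cancel hc.ne' hp, hVx⟩
    rw [hVx]
    exact pos_nv hP
  · have hd : ∀ᵐ x : E d, ∀ (i : ℕ × (Fin d → ℚ) × Ix n) (K j : ℕ),
        x ∈ {y | g y = i} ∩ Pc u i.1 K j (Ph j (qp i.2.1) i.2.2) →
          Small fun _ => {η | x + η ∉ {y | g y = i} ∩ Pc u i.1 K j (Ph j (qp i.2.1) i.2.2)} :=
      ae_all_iff.2 fun i => ae_all_iff.2 fun K => ae_all_iff.2 fun j =>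
        app_dens d _ ((hg i).inter (hcl _ _ _ _ _).measurableSet)
    filter_upwards [hae, hd] with x ⟨Q₀, hQ⟩ hx K
    obtain ⟨j, hj, hxP⟩ := hin x Q₀ hQ (2 * (g x).1 + (K + 1))
    obtain ⟨C, r, hC0, hr, hb⟩ := hest (g x).1 (K + 1) j (qp (g x).2.1) (g x).2.2 (by omega) hj
    refine ⟨C, small_iff.2 ((small_iff.1 (hx (g x) _ j ⟨rfl, hxP⟩)).mono ?_)⟩
    filter_upwards [ev_pos, ev_lt hr, ev_lt one_pos] with τ h0 h1 h2 η hη hbad hmem
    obtain ⟨hxn, Q, hQa, hQp⟩ := hxP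
    obtain ⟨hgy, hyn, Q', hQa', hQp'⟩ := hmem
    have hgy' : g (x + η) = g x := hgy
    rw [one_mul, mem_ball_zero_iff] at hη
    have e1 := hW (g x) _ j x Q (by omega) hj hxn hQa hQp
    have e2 := hW (g x) _ j (x + η) Q' (by omega) hj hyn hQa' hQp'
    have hn : ‖x - (x + η)‖ = ‖η‖ := by rw [sub_add_cancel_left, norm_neg]
    have h3 := hb _ le_rfl x (x + η) Q Q' hQa hQa' hxn (by rw [hn]; linarith) hQp hQp'
    rw [hn, ← e1, ← e2, norm_sub_rev] at h3
    have h4 : ‖η‖ ^ (K + 1) ≤ τ ^ K :=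
      (pow_le_pow_left₀ (norm_nonneg _) hη.le _).trans
        (pow_le_pow_of_le_one h0.le h2.le (Nat.le_succ K))
    have h5 : C * τ ^ K < ‖W (g (x + η)) (x + η) - W (g x) x‖ := hbad
    rw [hgy'] at h5
    nlinarith [mul_le_mul_of_nonneg_left h4 hC0]

end Pool.Agent.MP_66cee2_co.D
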