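import Pool.Agent.MP_66cee2_co.D.SpecA

/-
The measurable field on one family of pieces.
-/

namespace Pool.Agent.MP_66cee2_co.D

open MeasureTheory Set Filter Metric Topology Matrix Pool.Agent.MP_66cee2_co.X
  Pool.Agent.MP_66cee2_co.XI

namespace Vonex

/-- a map that is continuous on countably many closed sets and zero elsewhere is measurable. -/
theorem meas_of_pieces {A B : Type} [TopologicalSpace A] [MeasurableSpace A]
    [OpensMeasurableSpace A] [TopologicalSpace B] [MeasurableSpace B] [BorelSpace B] [Zero B]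
    (S : ℕ → Set A) (hS : ∀ j, IsClosed (S j)) (V : A → B) (hc : ∀ j, ContinuousOn V (S j))
    (h0 : ∀ x, x ∉ ⋃ j, S j → V x = 0) : Measurable V := by
  refine measurable_of_isClosed fun t ht => ?_
  have e : V ⁻¹' t = (⋃ j, S j ∩ V ⁻¹' t) ∪ ((⋃ j, S j)ᶜ ∩ {_x | (0 : B) ∈ t}) := by
    ext x
    constructor
    · intro hx
      by_cases h : x ∈ ⋃ j, S j
      · obtain ⟨j, hj⟩ := mem_iUnion.1 h
        exact Or.inl (mem_iUnion.2 ⟨j, hj, hx⟩)
      · refine Or.inr ⟨h, ?_⟩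
        have h1 : V x ∈ t := hx
        rw [h0 x h] at h1
        exact h1
    · rintro (h | ⟨h, h1⟩)
      · obtain ⟨j, hj⟩ := mem_iUnion.1 h
        exact hj.2
      · have h2 : (0 : B) ∈ t := h1
        show V x ∈ t
        rw [h0 x h]
        exact h2
  rw [e]
  refine MeasurableSet.union (MeasurableSet.iUnion fun j => ?_) ?_
  · exact ((hc j).preimage_isClosed_of_isClosed (hS j) ht).measurableSet
  · exact (MeasurableSet.iUnion fun j => (hS j).measurableSet).compl.inter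
      (MeasurableSet.const _)

/-- a local Lipschitz estimate gives continuity on the set. -/
theorem contOn_of_est {A B : Type} [NormedAddCommGroup A] [NormedAddCommGroup B] (S : Set A)
    (V : A → B) (C r : ℝ) (hC : 0 ≤ C) (hr : 0 < r)
    (h : ∀ x ∈ S, ∀ y ∈ S, ‖x - y‖ ≤ r → ‖V x - V y‖ ≤ C * ‖x - y‖) : ContinuousOn V S := by
  rw [Metric.continuousOn_iff]
  intro y hy ε hε
  have hC1 : 0 < C + 1 := by linarith
  refine ⟨min r (ε / (C + 1)), lt_min hr (div_pos hε hC1), fun x hx hxy => ?_⟩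
  rw [dist_eq_norm] at hxy ⊢
  have h1 : ‖x - y‖ ≤ r := (lt_of_lt_of_le hxy (min_le_left _ _)).le
  have h2 : ‖x - y‖ < ε / (C + 1) := lt_of_lt_of_le hxy (min_le_right _ _)
  have h3 := h x hx y hy h1
  rw [lt_div_iff₀ hC1] at h2
  have h4 := norm_nonneg (x - y)
  nlinarith

variable {d n : ℕ}

/-- admissible jets at a point, at some level. -/
def G (u : E d → Ix n → ℝ) (D : ℕ) (z : E d) (a : Ix n) (x : E d) (Q : Ix n → MP d) : Prop :=
  ∃ j : ℕ, 1 ≤ j ∧ ‖x‖ ≤ j ∧ Adm u D (2 * D + 1) j x Q ∧ Ph j z a Q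

theorem uniq (hC : SPvC) (hH : SPvH) {u : E d → Ix n → ℝ} (hu : UF u) {D : ℕ} {z : E d}
    {a : Ix n} {x : E d} {Q Q' : Ix n → MP d} (h : G u D z a x Q) (h' : G u D z a x Q') :
    nv a (evv Q z) = nv a (evv Q' z) := by
  obtain ⟨j, hj, hx, hA, hP⟩ := h
  obtain ⟨j', hj', -, hA', hP'⟩ := h'
  obtain ⟨-, hm, hp⟩ := hC d n u
  have h1 : 1 ≤ max j j' := le_trans hj (le_max_left _ _)
  obtain ⟨C, r, -, hr, hE⟩ := (hH d n u hu).1 D 1 (max j j') z a le_rfl h1
  have hx' : ‖x‖ ≤ ((max j j' : ℕ) : ℝ) :=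
    le_trans hx (Nat.cast_le.2 (le_max_left _ _))
  have h2 := hE (2 * D + 1) le_rfl x x Q Q'
    (hm _ _ _ _ _ _ x Q le_rfl le_rfl hj (le_max_left _ _) hA)
    (hm _ _ _ _ _ _ x Q' le_rfl le_rfl hj' (le_max_right _ _) hA') hx'
    (by rw [sub_self, norm_zero]; exact hr.le)
    (hp _ _ z a Q (le_max_left _ _) hP) (hp _ _ z a Q' (le_max_right _ _) hP')
  rw [sub_self x, norm_zero, pow_one, mul_zero] at h2
  exact sub_eq_zero.1 (norm_le_zero_iff.1 h2)

open Classical in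
/-- the field. -/
noncomputable def W (u : E d → Ix n → ℝ) (D : ℕ) (z : E d) (a : Ix n) (x : E d) : Ix n → ℝ :=
  if h : ∃ Q, G u D z a x Q then nv a (evv h.choose z) else 0

theorem W_eq (hC : SPvC) (hH : SPvH) {u : E d → Ix n → ℝ} (hu : UF u) {D : ℕ} {z : E d}
    {a : Ix n} {x : E d} {Q : Ix n → MP d} (h : G u D z a x Q) :
    W u D z a x = nv a (evv Q z) := by
  have h1 : ∃ Q, G u D z a x Q := ⟨Q, h⟩
  unfold W
  rw [dif_pos h1]
  exact uniq hC hH hu h1.choose_spec h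

theorem W_zero {u : E d → Ix n → ℝ} {D : ℕ} {z : E d} {a : Ix n} {x : E d}
    (h : ¬ ∃ Q, G u D z a x Q) : W u D z a x = 0 := by
  unfold W
  rw [dif_neg h]

end Vonex

open Vonex in
/-- the field on one family of pieces. -/
theorem sVone : SPvC → SPvH → SVone := by
  intro hC hH d n u D z a hu
  refine ⟨W u D z a, ?_, ?_⟩
  · refine meas_of_pieces (fun j => Pc u D (2 * D + 1) (j + 1) (Ph (j + 1) z a))
      (fun j => (hC d n u).1 D (2 * D + 1) (j + 1) z a) _ (fun j => ?_) (fun x hx => ?_)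
    · have h1 : 1 ≤ j + 1 := Nat.le_add_left 1 j
      obtain ⟨C, r, hC0, hr, hE⟩ := (hH d n u hu).1 D 1 (j + 1) z a le_rfl h1
      refine contOn_of_est _ _ C r hC0 hr ?_
      rintro x ⟨hx, Q, hA, hP⟩ y ⟨hy, Q', hA', hP'⟩ hxy
      have h2 := hE (2 * D + 1) le_rfl x y Q Q' hA hA' hx hxy hP hP'
      rw [pow_one] at h2
      rw [W_eq hC hH hu ⟨j + 1, h1, hx, hA, hP⟩, W_eq hC hH hu ⟨j + 1, h1, hy, hA', hP'⟩]
      exact h2
    · refine W_zero ?_
      rintro ⟨Q, j, hj, hx1, hA, hP⟩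
      obtain ⟨k, rfl⟩ : ∃ k, j = k + 1 := ⟨j - 1, by omega⟩
      exact hx (mem_iUnion.2 ⟨k, hx1, Q, hA, hP⟩)
  · intro K j x Q hK hj hx hA hP
    exact W_eq hC hH hu
      ⟨j, hj, hx, (hC d n u).2.1 _ _ _ _ _ _ x Q le_rfl hK hj le_rfl hA, hP⟩

end Pool.Agent.MP_66cee2_co.D
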