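import Pool.Agent.MP_66cee2_co.D.SpecX
import Pool.Agent.MP_66cee2_co.XT.AVG
import Pool.Agent.MP_66cee2_co.XT.CHI

/-! Double means, and the weight that makes the rank one field square integrable. -/

namespace Pool.Agent.MP_66cee2_co.D.TX

open MeasureTheory Filter Topology
open Pool.Agent.MP_66cee2_co.XT (Eu av)

theorem rowAVG : RowAVG := by
  intro m pt hpt φ ψ u ε hψ hφ hg hε
  obtain ⟨B, hB⟩ := hφ
  obtain ⟨δ, hδ, hd⟩ := Metric.continuous_iff.mp hψ u (ε / 2) (by positivity)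
  obtain ⟨N, hN⟩ := hpt.near (δ / 3) (by positivity)
  have hB0 : 0 ≤ B := (abs_nonneg _).trans (hB 0)
  have hD : 0 ≤ B + |ψ u| := by positivity
  obtain ⟨M, hM⟩ := exists_nat_ge (m * (B + |ψ u|) / (ε / 2))
  refine ⟨max N M, fun j j' hj hj' v => ?_⟩
  refine XT.AVGA.av_close _ _ _ _ fun i hi => ?_
  have h1 := XT.AVGA.av_bad j' m (fun i' => φ (pt j' i' (v + u) - pt j i v)) (ψ u) (ε / 2)
    (B + |ψ u|) (fun i' => Gen (pt j' i' (v + u) - pt j i v)) (by positivity) hD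
    (hpt.gen j i j' v (v + u)) (fun i' hi' hG => by
      rw [hg _ hG]
      refine (hd _ ?_).le
      have a1 := hN j' ((le_max_left _ _).trans hj') i' hi' (v + u)
      have a2 := hN j ((le_max_left _ _).trans hj) i hi v
      rw [dist_eq_norm, em_sub]
      have e : em (pt j' i' (v + u)) - em (pt j i v) - u =
          (em (pt j' i' (v + u)) - (v + u)) - (em (pt j i v) - v) := by abel
      rw [e]
      have := norm_sub_le (em (pt j' i' (v + u)) - (v + u)) (em (pt j i v) - v)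
      linarith)
    (fun i' => by
      have := abs_sub (φ (pt j' i' (v + u) - pt j i v)) (ψ u)
      have := hB (pt j' i' (v + u) - pt j i v)
      linarith)
  refine h1.trans ?_
  have h0 : (0 : ℝ) < (j' : ℝ) + 1 := by positivity
  have h2 : (M : ℝ) ≤ (j' : ℝ) := by exact_mod_cast (le_max_right _ _).trans hj'
  have h3 : m * (B + |ψ u|) / ((j' : ℝ) + 1) ≤ ε / 2 := by
    rw [div_le_iff₀ h0]
    rw [div_le_iff₀ (by positivity : (0 : ℝ) < ε / 2)] at hM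
    nlinarith
  linarith

theorem rowCHI : RowCHI := by
  intro m n C ε O₁ O₂ ν ι _ F hS hF
  obtain ⟨t, t0, t1, ti⟩ := XT.CHIA.shell ν (fun w : Om m n => ‖w.1‖) (by fun_prop) hS.fin
  have hB : ∀ k : ℕ, ∃ B : ℝ, ∀ u ∈ Metric.closedBall (0 : Eu n) (C + 2 * k), ‖F u‖ ≤ B :=
    fun k => (isCompact_closedBall _ _).exists_bound_of_continuousOn hF.continuousOn
  choose B hB using hB
  let c : ℕ → ℝ := fun k => t k / (1 + B k ^ 2)
  have c0 : ∀ k, 0 < c k := fun k => div_pos (t0 k) (by positivity)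
  have hχ : Measurable fun a : Eu m => c ⌈‖a‖⌉₊ :=
    (measurable_from_top (f := c)).comp measurable_norm.nat_ceil
  refine ⟨fun a => c ⌈‖a‖⌉₊, hχ, fun R => ?_, fun a b => ?_⟩
  · obtain ⟨k, -, hk⟩ := (Finset.range (⌈R⌉₊ + 1)).exists_min_image c ⟨0, by simp⟩
    exact ⟨c k, c0 k, fun a ha =>
      hk _ (Finset.mem_range.2 (Nat.lt_succ_of_le (Nat.ceil_mono ha)))⟩
  · have hm := measurable_ev (measurable_xi hχ hF a b) 0
    rw [memLp_two_iff_integrable_sq hm.aestronglyMeasurable]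
    refine ti.mono' (hm.pow_const 2).aestronglyMeasurable (hS.ae.mono fun w hw => ?_)
    have h1 := hw.2.1 0
    rw [em_zero, ps_zero] at h1
    have h2 : ‖F (w.2.2 0)‖ ≤ B ⌈‖w.1‖⌉₊ := hB _ _ (by
      rw [mem_closedBall_zero_iff]
      linarith [Nat.le_ceil ‖w.1‖])
    have h3 : ∀ e, |F (w.2.2 0) e| ≤ B ⌈‖w.1‖⌉₊ := fun e => (norm_le_pi_norm _ e).trans h2
    have h4 : |ev (xi (fun a : Eu m => c ⌈‖a‖⌉₊) F a b) (0 : Fin m → ℚ) w| ≤ t ⌈‖w.1‖⌉₊ := by
      simp only [ev, xi, em_zero, ps_zero]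
      rw [abs_mul, abs_mul, abs_of_pos (c0 _)]
      have h5 : |F (w.2.2 0) a| * |F (w.2.2 0) b| ≤ 1 + B ⌈‖w.1‖⌉₊ ^ 2 := by
        have := mul_le_mul (h3 a) (h3 b) (abs_nonneg _) ((abs_nonneg _).trans (h3 a))
        nlinarith
      calc _ ≤ c ⌈‖w.1‖⌉₊ * (1 + B ⌈‖w.1‖⌉₊ ^ 2) := mul_le_mul_of_nonneg_left h5 (c0 _).le
        _ = _ := div_mul_cancel₀ _ (by positivity)
    rw [Real.norm_eq_abs, abs_pow]
    have h6 := abs_nonneg (ev (xi (fun a : Eu m => c ⌈‖a‖⌉₊) F a b) (0 : Fin m → ℚ) w)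
    nlinarith [t1 ⌈‖w.1‖⌉₊]

end Pool.Agent.MP_66cee2_co.D.TX
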