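import Pool.Agent.MP_66cee2_co.D.SpecX
import Pool.Agent.MP_66cee2_co.XT.CAU

/-! The averaged fields are Cauchy, and asymptotically orthogonal at unit distance. -/

namespace Pool.Agent.MP_66cee2_co.D.TX

open MeasureTheory Filter Topology Matrix
open Pool.Agent.MP_66cee2_co.XT (Eu Lift MS AllIso Bd Mean av)
open Pool.Agent.MP_66cee2_co.XT.CAUA

theorem rowCAU : RowCORR → RowSPH → RowAVG → RowCAU := by
  intro hC hS hA d n C ε O₁ O₂ ν ι _ J g F χ pt hd hν hL hW hP
  have hx := fun a b => measurable_xi (χ := χ) hW.meas hL.cont a b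
  have h := fun a b c e => hC d n C ε O₁ O₂ ν hν _ _ (hx a b) (hx c e) (hW.mem a b) (hW.mem c e)
  have hm : ∀ a b (z : Fin d → ℚ), MemLp (ev (xi χ F a b) z) 2 ν := fun a b => (h a b a b).1
  choose φ ψ hψ hB hg hi using fun a b c e => (h a b c e).2
  have hPJ : ∀ a b j v, MemLp (fun w => PJ χ F pt j v w a b) 2 ν := fun a b j v =>
    mem_av (fun i => hm a b (pt j i v)) j
  have key : ∀ a b c e u η, 0 < η → ∃ N, ∀ j j', N ≤ j → N ≤ j' → ∀ v,
      |∫ w, PJ χ F pt j v w a b * PJ χ F pt j' (v + u) w c e ∂ν - ψ a b c e u| ≤ η := by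
    intro a b c e u η hη
    obtain ⟨N, hN⟩ := hA d pt hP _ _ u η (hψ a b c e) (hB a b c e) (hg a b c e) hη
    refine ⟨N, fun j j' hj hj' v => ?_⟩
    have := int_av (fun i => hm a b (pt j i v)) (fun i => hm c e (pt j' i (v + u))) j j'
    simp only [hi] at this
    exact this ▸ hN j j' hj hj' v
  refine ⟨hPJ, fun a b η hη => ?_, fun v u hu => ?_⟩
  · obtain ⟨N, hN⟩ := key a b a b 0 (η / 4) (by positivity)
    simp only [add_zero] at hN
    exact ⟨N, fun j j' hj hj' v => sq_le (hPJ a b j v) (hPJ a b j' v) (hN j j hj hj v)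
      (hN j j' hj hj' v) (hN j' j' hj' hj' v)⟩
  have h0 : ∑ t : ι × ι × ι × ι,
      J t.2.2.2 t.2.2.1 * J t.2.1 t.1 * ψ t.1 t.2.2.2 t.2.2.1 t.2.1 u = 0 := by
    have hc : IsClosed {x | ∑ t : ι × ι × ι × ι,
        J t.2.2.2 t.2.2.1 * J t.2.1 t.1 * ψ t.1 t.2.2.2 t.2.2.1 t.2.1 x = 0} :=
      isClosed_eq (continuous_finsetSum _ fun t _ => continuous_const.mul (hψ _ _ _ _))
        continuous_const
    refine hc.closure_subset (Metric.mem_closure_iff.2 fun δ hδ => ?_)
    obtain ⟨z, hz, h1, h2⟩ := hS d hd (δ / 2) (by positivity) u hu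
    refine ⟨em z, ?_, by rw [dist_comm, dist_eq_norm]; linarith⟩
    have e : ∀ a b c e, ψ a b c e (em z) =
        ∫ w, ev (xi χ F a b) (0 : Fin d → ℚ) w * ev (xi χ F c e) z w ∂ν := fun a b c e => by
      rw [hi, sub_zero, hg _ _ _ _ z hz]
    simp only [Set.mem_ofPred_eq, e]
    rw [← int_sum J (fun a b => hm a b 0) fun a b => hm a b z]
    refine integral_eq_zero_of_ae (hν.ae.mono fun w hw => sum_zero J ?_ _ _)
    rw [hL.ip, hw.2.2.1 0 z (by rw [em_zero, zero_sub, norm_neg, h1])]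
    norm_num
  simp only [trace_eq]
  rw [← h0]
  refine Tendsto.congr (fun j => (int_sum J (fun a b => hPJ a b j v)
    fun a b => hPJ a b j (v + u)).symm) (tendsto_finsetSum _ fun t _ => Tendsto.const_mul _ ?_)
  refine Metric.tendsto_atTop.2 fun η hη => ?_
  obtain ⟨N, hN⟩ := key _ _ _ _ u (η / 2) (by positivity)
  exact ⟨N, fun j hj => (hN j j hj hj v).trans_lt (by linarith)⟩

end Pool.Agent.MP_66cee2_co.D.TX
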