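import Pool.Agent.MP_66cee2_co.D.SpecX

/-! The chain of means is a positive functional that lives on the linear isometric frames. -/

namespace Pool.Agent.MP_66cee2_co.D.TX

open Pool.Agent.MP_66cee2_co.XT (Eu Bd Mean)

namespace XChx

variable {d : ℕ}

theorem co_single (k q : Fin d) :
    ((Pi.single k (1 : KR) : Fin d → KR) q : ℝ) = if q = k then 1 else 0 := by
  by_cases h : q = k
  · subst h; simp
  · simp [h]

theorem sum_single (q : Fin d) (x : Eu d) :
    ∑ k, ((Pi.single k (1 : KR) : Fin d → KR) q : ℝ) * x k = x q := by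
  simp only [co_single, ite_mul, one_mul, zero_mul]
  simp

theorem rot_id (x : Eu d) : rot (mat (id : Fr d)) x = x := by
  ext q
  exact sum_single q x

theorem lin_id : Lin (id : Fr d) :=
  ⟨fun _ _ => rfl, fun v => (rot_id _).symm, fun x => by rw [rot_id]⟩

theorem rot_comp {A : Fr d} (hA : Lin A) (B : Fr d) (x : Eu d) :
    rot (mat (A ∘ B)) x = rot (mat A) (rot (mat B) x) := by
  ext p
  have h : ∀ k, mat (A ∘ B) p k = ∑ q, mat A p q * mat B q k := fun k =>
    congrArg (fun y : Eu d => y p) (hA.eq (B (Pi.single k 1)))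
  simp only [rot_apply, h, Finset.sum_mul, Finset.mul_sum, mul_assoc]
  exact Finset.sum_comm

theorem lin_comp {A B : Fr d} (hA : Lin A) (hB : Lin B) : Lin (A ∘ B) :=
  ⟨fun v v' => by simp only [Function.comp_apply, hB.add, hA.add],
    fun v => by rw [rot_comp hA, ← hB.eq, ← hA.eq]; rfl,
    fun x => by rw [rot_comp hA, hA.iso, hB.iso]⟩

theorem co_Rt (i j : Fin d) (c : U1) (v : Fin d → KR) (q : Fin d) :
    (Rt i j c v q : ℝ) = if q = i then (c.a : ℝ) * (v i : ℝ) - (c.b : ℝ) * (v j : ℝ)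
      else if q = j then (c.b : ℝ) * (v i : ℝ) + (c.a : ℝ) * (v j : ℝ) else (v q : ℝ) := by
  unfold Rt
  split_ifs <;> simp

theorem rot_Rt (i j : Fin d) (c : U1) (x : Eu d) (q : Fin d) :
    rot (mat (Rt i j c)) x q = if q = i then (c.a : ℝ) * x i - (c.b : ℝ) * x j
      else if q = j then (c.b : ℝ) * x i + (c.a : ℝ) * x j else x q := by
  simp only [rot_apply, mat, co_Rt]
  split_ifs
  · simp only [sub_mul, mul_assoc, Finset.sum_sub_distrib, ← Finset.mul_sum, sum_single]
  · simp only [add_mul, mul_assoc, Finset.sum_add_distrib, ← Finset.mul_sum, sum_single]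
  · exact sum_single q x

theorem lin_Rt {i j : Fin d} (hij : i ≠ j) (c : U1) : Lin (Rt i j c) := by
  refine ⟨fun v v' => ?_, fun v => ?_, fun x => ?_⟩
  · funext k
    simp only [Rt, Pi.add_apply]
    split_ifs <;> ring
  · ext q
    rw [rot_Rt, eK_apply, co_Rt]
    rfl
  · have hc : (c.a : ℝ) ^ 2 + (c.b : ℝ) ^ 2 = 1 := by exact_mod_cast congrArg Subtype.val c.h
    have h : ∑ k, (rot (mat (Rt i j c)) x k ^ 2 - x k ^ 2) = 0 := by
      rw [Fintype.sum_eq_add i j hij fun k hk => by rw [rot_Rt, if_neg hk.1, if_neg hk.2, sub_self]]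
      rw [rot_Rt, rot_Rt, if_pos rfl, if_neg hij.symm, if_pos rfl]
      linear_combination (x i ^ 2 + x j ^ 2) * hc
    rw [Finset.sum_sub_distrib, sub_eq_zero] at h
    rw [EuclideanSpace.norm_eq, EuclideanSpace.norm_eq]
    simp only [Real.norm_eq_abs, sq_abs]
    rw [h]

theorem lin_Rj (j : ℕ) (c : U1) : Lin (Rj j c : Fr d) := by
  by_cases h : j + 1 < d
  · have e : (Rj j c : Fr d) = Rt ⟨j, by omega⟩ ⟨j + 1, h⟩ c := by
      funext v
      simp only [Rj, dif_pos h]
    rw [e]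
    exact lin_Rt (fun k => by simpa using congrArg Fin.val k) c
  · have e : (Rj j c : Fr d) = id := by
      funext v
      simp only [Rj, dif_neg h, id]
    rw [e]
    exact lin_id

theorem abs_ch {M : (U1 → ℝ) → ℝ} (hM : Mean M) (j : ℕ) :
    ∀ (F : Fr d → ℝ) (B : ℝ), (∀ A, |F A| ≤ B) → |Ch M j F| ≤ B := by
  induction j with
  | zero => exact fun F B h => h id
  | succ j ih =>
    intro F B h
    have hb : ∀ c, |Ch M j fun A => F (A ∘ Rj j c)| ≤ B := fun c => ih _ B fun A => h _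
    have hk : ∀ t : ℝ, Bd fun _ : U1 => t := fun t => ⟨|t|, fun _ => le_rfl⟩
    have h1 := hM.mono _ _ ⟨B, hb⟩ (hk B) fun c => (abs_le.1 (hb c)).2
    have h2 := hM.mono _ _ (hk (-B)) ⟨B, hb⟩ fun c => (abs_le.1 (hb c)).1
    rw [hM.const] at h1 h2
    exact abs_le.2 ⟨h2, h1⟩

theorem bd_comp {F : Fr d → ℝ} (h : Bd F) (B : Fr d) : Bd fun A : Fr d => F (A ∘ B) :=
  h.imp fun _ k _ => k _

theorem bd_ch {M : (U1 → ℝ) → ℝ} (hM : Mean M) (j : ℕ) {F : Fr d → ℝ} (h : Bd F) :
    Bd fun c : U1 => Ch M j fun A => F (A ∘ Rj j c) :=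
  h.imp fun B k _ => abs_ch hM j _ B fun _ => k _

end XChx

open XChx in
theorem rowCH : RowCH := by
  intro d M hM j
  induction j with
  | zero =>
    exact ⟨fun F G h => h id lin_id, fun _ _ _ _ => rfl, fun _ _ _ => rfl,
      fun _ _ _ h => h id lin_id⟩
  | succ j ih =>
    obtain ⟨h1, h2, h3, h4⟩ := ih
    refine ⟨fun F G h => ?_, fun F G hF hG => ?_, fun t F hF => ?_, fun t F hF h => ?_⟩
    · exact congrArg M (funext fun c => h1 _ _ fun A hA => h _ (lin_comp hA (lin_Rj j c)))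
    · refine Eq.trans (congrArg M (funext fun c => h2 _ _ (bd_comp hF _) (bd_comp hG _))) ?_
      exact hM.add _ _ (bd_ch hM j hF) (bd_ch hM j hG)
    · refine Eq.trans (congrArg M (funext fun c => h3 t _ (bd_comp hF _))) ?_
      exact hM.smul t _ (bd_ch hM j hF)
    · have k := hM.mono (fun _ => t) _ ⟨|t|, fun _ => le_rfl⟩ (bd_ch hM j hF) fun c =>
        h4 t _ (bd_comp hF _) fun A hA => h _ (lin_comp hA (lin_Rj j c))
      rw [hM.const] at k
      exact k

end Pool.Agent.MP_66cee2_co.D.TX
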