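import Pool.Agent.MP_66cee2_co.D.SpecX

/-! Row COR1: the correlation of a square integrable function with itself. -/

namespace Pool.Agent.MP_66cee2_co.D.TX

open MeasureTheory Filter Topology
open Pool.Agent.MP_66cee2_co.XT (Eu)

namespace XCor1x

variable {d n : ℕ}

theorem dense_gen : Dense {x : Eu d | ∃ z, Gen z ∧ x = em z} := by
  have h1 : Dense {t : ℝ | ∃ q : ℚ, q ≠ 0 ∧ t = q} := by
    refine dense_iff_exists_between.2 fun a b hab => ?_
    obtain ⟨q, a1, a2⟩ := exists_rat_btwn hab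
    obtain ⟨q', b1, b2⟩ := exists_rat_btwn a2
    by_cases h : q = 0
    · refine ⟨q', ⟨q', ?_, rfl⟩, a1.trans b1, b2⟩
      rintro rfl
      subst h
      exact lt_irrefl _ b1
    · exact ⟨q, ⟨q, h, rfl⟩, a1, a2⟩
  have h2 := dense_pi (Set.univ : Set (Fin d)) fun (i : Fin d) _ => h1
  have h3 : Function.Surjective (WithLp.toLp 2 : (Fin d → ℝ) → Eu d) := fun x => ⟨x.ofLp, rfl⟩
  refine (h3.denseRange.dense_image (PiLp.continuous_toLp 2 _) h2).mono ?_
  rintro _ ⟨x, hx, rfl⟩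
  choose z hz hz' using fun i => hx i (Set.mem_univ i)
  exact ⟨z, hz, by ext i; exact hz' i⟩

theorem limit (φ : (Fin d → ℚ) → ℝ) (h : ∀ ε : ℝ, 0 < ε → ∃ ψ : Eu d → ℝ, Continuous ψ ∧
    ∀ z, Gen z → |φ z - ψ (em z)| ≤ ε) :
    ∃ ψ : Eu d → ℝ, Continuous ψ ∧ ∀ z, Gen z → φ z = ψ (em z) := by
  choose ψ hc hψ using fun k : ℕ => h (1 / ((k : ℝ) + 1)) (by positivity)
  have h0 : Tendsto (fun k : ℕ => 1 / ((k : ℝ) + 1)) atTop (𝓝 0) :=
    tendsto_one_div_add_atTop_nhds_zero_nat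
  have h1 : ∀ k l x, |ψ k x - ψ l x| ≤ 1 / ((k : ℝ) + 1) + 1 / ((l : ℝ) + 1) := by
    intro k l x
    refine dense_gen.induction (P := fun x => |ψ k x - ψ l x| ≤ _) ?_
      (isClosed_le ((hc k).sub (hc l)).abs continuous_const) x
    rintro _ ⟨z, hz, rfl⟩
    have a1 := abs_le.1 (hψ k z hz)
    have a2 := abs_le.1 (hψ l z hz)
    rw [abs_le]
    constructor <;> linarith [a1.1, a1.2, a2.1, a2.2]
  have h2 : ∀ x, ∃ L, Tendsto (fun k => ψ k x) atTop (𝓝 L) := by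
    intro x
    refine cauchySeq_tendsto_of_complete (cauchySeq_of_le_tendsto_0
      (fun N : ℕ => 1 / ((N : ℝ) + 1) + 1 / ((N : ℝ) + 1)) (fun k l N hk hl => ?_)
      (by simpa using h0.add h0))
    rw [Real.dist_eq]
    have a1 : (N : ℝ) ≤ k := by exact_mod_cast hk
    have a2 : (N : ℝ) ≤ l := by exact_mod_cast hl
    refine (h1 k l x).trans (add_le_add ?_ ?_) <;> gcongr
  choose L hL using h2
  have h3 : ∀ k x, |ψ k x - L x| ≤ 1 / ((k : ℝ) + 1) := by
    intro k x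
    have a1 := ((hL x).const_sub (ψ k x)).abs
    have a2 := h0.const_add (1 / ((k : ℝ) + 1))
    simpa using le_of_tendsto_of_tendsto' a1 a2 fun l => h1 k l x
  refine ⟨L, ?_, fun z hz => ?_⟩
  · refine TendstoUniformly.continuous (F := ψ) (p := atTop) ?_
      (Eventually.of_forall hc).frequently
    rw [Metric.tendstoUniformly_iff]
    intro ε hε
    filter_upwards [h0.eventually (gt_mem_nhds hε)] with k hk x
    rw [dist_comm, Real.dist_eq]
    exact (h3 k x).trans_lt hk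
  · have a1 : Tendsto (fun k => |φ z - ψ k (em z)|) atTop (𝓝 |φ z - L (em z)|) :=
      ((hL _).const_sub _).abs
    have a2 := le_of_tendsto_of_tendsto' a1 h0 fun k => hψ k z hz
    exact sub_eq_zero.1 (abs_nonpos_iff.1 a2)

variable {ν : Measure (Om d n)}

/-- the position and the value at the origin. -/
noncomputable def pj (w : Om d n) : Eu d × Eu n := (ps w (em 0), w.2.2 0)

theorem pj_cont : Continuous (pj : Om d n → Eu d × Eu n) := by
  unfold pj ps rot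
  fun_prop

theorem approx (hf : ∀ R : ℝ, ν {w | ‖w.1‖ ≤ R} ≠ ⊤) {ξ : Eu d × Eu n → ℝ} (hξ : Measurable ξ)
    (h : MemLp (ev ξ (0 : Fin d → ℚ)) 2 ν) {η : ℝ} (hη : 0 < η) :
    ∃ g : Eu d × Eu n → ℝ, Continuous g ∧ HasCompactSupport g ∧
      MemLp (ev g (0 : Fin d → ℚ)) 2 ν ∧ ∫ w, ev (ξ - g) 0 w * ev (ξ - g) 0 w ∂ν ≤ η := by
  have hm : Measurable (pj : Om d n → Eu d × Eu n) := pj_cont.measurable
  haveI : IsFiniteMeasureOnCompacts (ν.map pj) := ⟨fun K hK => by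
    obtain ⟨R, hR⟩ := hK.isBounded.exists_norm_le
    rw [Measure.map_apply hm hK.measurableSet]
    refine (measure_mono fun w hw => ?_).trans_lt (hf R).lt_top
    have := (norm_fst_le (pj w)).trans (hR _ hw)
    simpa [pj, em_zero, ps_zero] using this⟩
  have e2 : ENNReal.ofReal (2 : ℝ) = 2 := by simp
  have h1 : MemLp ξ (ENNReal.ofReal (2 : ℝ)) (ν.map pj) := by
    rw [e2]
    exact (memLp_map_measure_iff hξ.aestronglyMeasurable hm.aemeasurable).2 h
  obtain ⟨g, g1, g2, g3, g4⟩ := h1.exists_hasCompactSupport_integral_rpow_sub_le two_pos hη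
  rw [e2] at g4
  refine ⟨g, g3, g1, (memLp_map_measure_iff g3.aestronglyMeasurable hm.aemeasurable).1 g4, ?_⟩
  have hx : Measurable fun x => ‖ξ x - g x‖ ^ (2 : ℝ) :=
    (hξ.sub g3.measurable).norm.pow_const _
  rw [integral_map hm.aemeasurable hx.aestronglyMeasurable] at g2
  refine le_trans (le_of_eq (integral_congr_ae (Eventually.of_forall fun w => ?_))) g2
  simp only [Real.norm_eq_abs, Real.rpow_two, sq_abs]
  rw [sq]
  rfl

variable (hi : ∀ a l, Un l → MeasurePreserving (mv a l : Om d n → Om d n) ν ν)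
include hi

theorem mem {ξ : Eu d × Eu n → ℝ} (h : MemLp (ev ξ (0 : Fin d → ℚ)) 2 ν) (z : Fin d → ℚ) :
    MemLp (ev ξ z) 2 ν := by
  have e : ev ξ z = ev ξ (0 : Fin d → ℚ) ∘ (mv z 1 : Om d n → Om d n) := by
    funext w
    simp [ev_mv]
  rw [e]
  exact h.comp_measurePreserving (hi z 1 un_one)

theorem sq_eq {ξ : Eu d × Eu n → ℝ} (h : MemLp (ev ξ (0 : Fin d → ℚ)) 2 ν) (z : Fin d → ℚ) :
    ∫ w, ev ξ z w * ev ξ z w ∂ν = ∫ w, ev ξ 0 w * ev ξ 0 w ∂ν := by
  have H := hi z 1 un_one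
  have := integral_map (μ := ν) H.aemeasurable (f := fun w => ev ξ 0 w * ev ξ 0 w)
    (by rw [H.map_eq]; exact (h.integrable_mul h).aestronglyMeasurable)
  rw [H.map_eq] at this
  simpa [ev_mv] using this.symm

omit hi in
theorem pt (a b u v t : ℝ) (ht : 0 < t) : |a * b - (a - u) * (b - v)| ≤
    t * (a * a) + t * (b * b) + ((t⁻¹ + 1) * (u * u) + (t⁻¹ + 1) * (v * v)) := by
  have k : ∀ x y : ℝ, |x * y| ≤ t * (x * x) + t⁻¹ * (y * y) := by
    intro x y
    have e : t * (x * x) + t⁻¹ * (y * y) = t⁻¹ * ((t * x) ^ 2 + y ^ 2) := by field_simp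
    have e' : x * y = t⁻¹ * (t * x * y) := by field_simp
    rw [e, e', abs_mul, abs_of_pos (inv_pos.2 ht)]
    refine mul_le_mul_of_nonneg_left ?_ (inv_pos.2 ht).le
    rw [abs_le]
    constructor <;> nlinarith [sq_nonneg (t * x + y), sq_nonneg (t * x - y), sq_nonneg (t * x),
      sq_nonneg y]
  have k1 := abs_le.1 (k a v)
  have k2 := abs_le.1 (k b u)
  rw [abs_le]
  constructor <;> nlinarith [k1.1, k1.2, k2.1, k2.2, sq_nonneg (u + v), sq_nonneg (u - v),
    sq_nonneg u, sq_nonneg v]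

theorem close {ξ g : Eu d × Eu n → ℝ} (h : MemLp (ev ξ (0 : Fin d → ℚ)) 2 ν)
    (h' : MemLp (ev g (0 : Fin d → ℚ)) 2 ν) (z : Fin d → ℚ) {t : ℝ} (ht : 0 < t) :
    |∫ w, ev ξ 0 w * ev ξ z w ∂ν - ∫ w, ev g 0 w * ev g z w ∂ν| ≤
      2 * t * ∫ w, ev ξ 0 w * ev ξ 0 w ∂ν +
        2 * (t⁻¹ + 1) * ∫ w, ev (ξ - g) 0 w * ev (ξ - g) 0 w ∂ν := by
  have hd : MemLp (ev (ξ - g) (0 : Fin d → ℚ)) 2 ν := h.sub h'
  have i1 : Integrable (fun w => ev ξ 0 w * ev ξ z w) ν := h.integrable_mul (mem hi h z)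
  have i2 : Integrable (fun w => ev g 0 w * ev g z w) ν := h'.integrable_mul (mem hi h' z)
  have j1 : Integrable (fun w => t * (ev ξ 0 w * ev ξ 0 w)) ν := (h.integrable_mul h).const_mul t
  have j2 : Integrable (fun w => t * (ev ξ z w * ev ξ z w)) ν :=
    ((mem hi h z).integrable_mul (mem hi h z)).const_mul t
  have j3 : Integrable (fun w => (t⁻¹ + 1) * (ev (ξ - g) 0 w * ev (ξ - g) 0 w)) ν :=
    (hd.integrable_mul hd).const_mul _
  have j4 : Integrable (fun w => (t⁻¹ + 1) * (ev (ξ - g) z w * ev (ξ - g) z w)) ν :=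
    ((mem hi hd z).integrable_mul (mem hi hd z)).const_mul _
  have j5 : Integrable (fun w => t * (ev ξ 0 w * ev ξ 0 w) + t * (ev ξ z w * ev ξ z w)) ν :=
    j1.add j2
  have j6 : Integrable (fun w => (t⁻¹ + 1) * (ev (ξ - g) 0 w * ev (ξ - g) 0 w) +
      (t⁻¹ + 1) * (ev (ξ - g) z w * ev (ξ - g) z w)) ν := j3.add j4
  rw [← integral_sub i1 i2, ← Real.norm_eq_abs]
  refine (norm_integral_le_of_norm_le (j5.add j6) (Eventually.of_forall fun w => ?_)).trans
    (le_of_eq ?_)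
  · have := pt (ev ξ 0 w) (ev ξ z w) (ev (ξ - g) 0 w) (ev (ξ - g) z w) t ht
    have e : ∀ y, ev ξ y w - ev (ξ - g) y w = ev g y w := fun y => by simp [ev]
    rw [e, e] at this
    exact this
  · simp only [Pi.add_apply]
    rw [integral_add j5 j6, integral_add j1 j2, integral_add j3 j4]
    simp only [integral_const_mul]
    rw [sq_eq hi h z, sq_eq hi hd z]
    ring

end XCor1x

open XCor1x in
theorem rowCOR1 : RowCOR1 := by
  intro d n C ε O₁ O₂ ν hS ξ hξ h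
  refine limit _ fun e he => ?_
  set A := ∫ w, ev ξ 0 w * ev ξ 0 w ∂ν with hA
  have hA0 : 0 ≤ A := integral_nonneg fun w => mul_self_nonneg _
  set t := e / (4 * (A + 1)) with ht
  have ht0 : 0 < t := by positivity
  obtain ⟨g, g1, g2, g3, g4⟩ := approx hS.fin hξ h (η := e / (4 * (t⁻¹ + 1))) (by positivity)
  obtain ⟨ψ, c, hψ⟩ := hS.cor g g1 g2
  refine ⟨ψ, c, fun z hz => ?_⟩
  rw [← hψ z hz]
  refine (close hS.inv h g3 z ht0).trans ?_
  have a1 : t * (4 * (A + 1)) = e := by rw [ht]; field_simp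
  have a2 : 2 * (t⁻¹ + 1) * (e / (4 * (t⁻¹ + 1))) = e / 2 := by field_simp; ring
  have a3 := mul_le_mul_of_nonneg_left g4 (show 0 ≤ 2 * (t⁻¹ + 1) by positivity)
  rw [← hA]
  nlinarith

end Pool.Agent.MP_66cee2_co.D.TX
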