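import Pool.Agent.MP_66cee2_co.D.SpecX

/-! Row CORR: correlation functions of an invariant measure on configurations. -/

namespace Pool.Agent.MP_66cee2_co.D.TX

open MeasureTheory Filter Topology
open Pool.Agent.MP_66cee2_co.XT (Eu Bd)

namespace XCorrx

variable {d n : ℕ} {ν : Measure (Om d n)}

/-- The correlation function. -/
noncomputable def cor (ν : Measure (Om d n)) (ξ ξ' : Eu d × Eu n → ℝ) (z : Fin d → ℚ) : ℝ :=
  ∫ w, ev ξ 0 w * ev ξ' z w ∂ν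

variable (hi : ∀ a l, Un l → MeasurePreserving (mv a l : Om d n → Om d n) ν ν)
  {ξ ξ' : Eu d × Eu n → ℝ}
include hi

theorem mem (h : MemLp (ev ξ (0 : Fin d → ℚ)) 2 ν) (z : Fin d → ℚ) : MemLp (ev ξ z) 2 ν := by
  have e : ev ξ z = ev ξ (0 : Fin d → ℚ) ∘ (mv z 1 : Om d n → Om d n) := by
    funext w
    simp [ev_mv]
  rw [e]
  exact h.comp_measurePreserving (hi z 1 un_one)

variable (h : MemLp (ev ξ (0 : Fin d → ℚ)) 2 ν) (h' : MemLp (ev ξ' (0 : Fin d → ℚ)) 2 ν)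
include h h'

theorem intg (y y' : Fin d → ℚ) : Integrable (fun w => ev ξ y w * ev ξ' y' w) ν :=
  (mem hi h y).integrable_mul (mem hi h' y')

theorem shift (a y y' : Fin d → ℚ) (l : ℚ) (hl : Un l) :
    ∫ w, ev ξ (a + l • y) w * ev ξ' (a + l • y') w ∂ν = ∫ w, ev ξ y w * ev ξ' y' w ∂ν := by
  have H := hi a l hl
  have := integral_map (μ := ν) H.aemeasurable (f := fun w => ev ξ y w * ev ξ' y' w)
    (by rw [H.map_eq]; exact (intg hi h h' y y').aestronglyMeasurable)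
  rw [H.map_eq] at this
  simpa only [ev_mv] using this.symm

theorem cor_eq (y y' : Fin d → ℚ) : ∫ w, ev ξ y w * ev ξ' y' w ∂ν = cor ν ξ ξ' (y' - y) := by
  have := shift hi h h' y 0 (y' - y) 1 un_one
  simpa [cor] using this

theorem cor_neg (z : Fin d → ℚ) : cor ν ξ ξ' (-z) = cor ν ξ ξ' z := by
  have := shift hi h h' 0 0 z (-1) un_neg_one
  simpa [cor] using this

theorem cor_symm (z : Fin d → ℚ) : cor ν ξ' ξ z = cor ν ξ ξ' z := by
  rw [← cor_neg hi h h', ← zero_sub, ← cor_eq hi h h', cor]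
  simp only [mul_comm]

theorem cor_bd : Bd (cor ν ξ ξ') := by
  refine ⟨cor ν ξ ξ 0 + cor ν ξ' ξ' 0, fun z => ?_⟩
  have e1 := cor_eq hi h' h' z z
  rw [sub_self] at e1
  rw [← e1, cor, cor, ← integral_add (intg hi h h 0 0) (intg hi h' h' z z), ← Real.norm_eq_abs]
  refine norm_integral_le_of_norm_le ((intg hi h h 0 0).add (intg hi h' h' z z))
    (Eventually.of_forall fun w => ?_)
  rw [Real.norm_eq_abs, abs_le]
  constructor <;> nlinarith [sq_nonneg (ev ξ 0 w + ev ξ' z w), sq_nonneg (ev ξ 0 w - ev ξ' z w),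
    sq_nonneg (ev ξ 0 w), sq_nonneg (ev ξ' z w)]

theorem cor_add (z : Fin d → ℚ) : cor ν (ξ + ξ') (ξ + ξ') z =
    cor ν ξ ξ z + cor ν ξ' ξ' z + 2 * cor ν ξ ξ' z := by
  have e : cor ν (ξ + ξ') (ξ + ξ') z = ∫ w, (ev ξ 0 w * ev ξ z w + ev ξ' 0 w * ev ξ' z w) +
      (ev ξ 0 w * ev ξ' z w + ev ξ' 0 w * ev ξ z w) ∂ν := by
    refine integral_congr_ae (Eventually.of_forall fun w => ?_)
    simp only [ev, Pi.add_apply]
    ring
  have i1 : Integrable (fun w => ev ξ 0 w * ev ξ z w + ev ξ' 0 w * ev ξ' z w) ν :=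
    (intg hi h h 0 z).add (intg hi h' h' 0 z)
  have i2 : Integrable (fun w => ev ξ 0 w * ev ξ' z w + ev ξ' 0 w * ev ξ z w) ν :=
    (intg hi h h' 0 z).add (intg hi h' h 0 z)
  rw [e, integral_add i1 i2, integral_add (intg hi h h 0 z) (intg hi h' h' 0 z),
    integral_add (intg hi h h' 0 z) (intg hi h' h 0 z), two_mul]
  have e2 : ∫ w, ev ξ' 0 w * ev ξ z w ∂ν = cor ν ξ ξ' z := cor_symm hi h h' z
  rw [e2]
  rfl

end XCorrx

open XCorrx in
theorem rowCORR : RowCOR1 → RowCORR := by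
  intro hR d n C ε O₁ O₂ ν hS ξ ξ' m m' h h'
  have hi := hS.inv
  obtain ⟨ψ1, c1, e1⟩ := hR d n C ε O₁ O₂ ν hS ξ m h
  obtain ⟨ψ2, c2, e2⟩ := hR d n C ε O₁ O₂ ν hS ξ' m' h'
  obtain ⟨ψ3, c3, e3⟩ := hR d n C ε O₁ O₂ ν hS (ξ + ξ') (m.add m') (h.add h')
  refine ⟨mem hi h, cor ν ξ ξ', fun v => (ψ3 v - ψ1 v - ψ2 v) / 2, by fun_prop, cor_bd hi h h',
    fun z hz => ?_, cor_eq hi h h'⟩
  have := cor_add hi h h' z
  have f1 : cor ν ξ ξ z = ψ1 (em z) := e1 z hz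
  have f2 : cor ν ξ' ξ' z = ψ2 (em z) := e2 z hz
  have f3 : cor ν (ξ + ξ') (ξ + ξ') z = ψ3 (em z) := e3 z hz
  rw [f1, f2, f3] at this
  linarith

end Pool.Agent.MP_66cee2_co.D.TX
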