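import Pool.Agent.MP_66cee2_co.D.SpecX
import Pool.Agent.MP_66cee2_co.XR.Herg

/-! Extension of a positive definite function from the rational points. -/

namespace Pool.Agent.MP_66cee2_co.D.TX

open scoped ComplexOrder

namespace XExtx

variable {G : Type} [AddCommGroup G] {g : G → ℝ}

theorem three (h : PDr g) (p : Fin 3 → G) (c : Fin 3 → ℂ) :
    0 ≤ ∑ a, ∑ b, (starRingEnd ℂ) (c a) * c b * (g (p b - p a) : ℂ) :=
  X.herg_pd h Finset.univ p c

theorem even (h : PDr g) (v : G) : g (-v) = g v := by
  have := (Complex.le_def.1 (three h ![0, v, 0] ![1, Complex.I, 0])).2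
  simp [Fin.sum_univ_three] at this
  linarith

theorem quad (h : PDr g) (u v : G) (t : ℝ) :
    0 ≤ g 0 * (t * t) + 2 * (g u - g v) * t + 2 * (g 0 - g (u - v)) := by
  have := (Complex.le_def.1 (three h ![0, u, v] ![(t : ℂ), 1, -1])).1
  have e : g (v - u) = g (u - v) := by rw [← even h, neg_sub]
  simp [Fin.sum_univ_three, even h, e] at this
  linarith

theorem key (h : PDr g) (u v : G) : (g u - g v) ^ 2 ≤ 2 * g 0 * (g 0 - g (u - v)) := by
  have := discrim_le_zero (quad h u v)
  rw [discrim] at this
  nlinarith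

theorem nonneg (h : PDr g) : 0 ≤ g 0 := by
  have := quad h 0 0 1
  simpa using this

end XExtx

open XExtx

theorem rowEXT : RowEXT := by
  intro d g hg hm
  classical
  have h0 := nonneg hg
  have huc : UniformContinuous fun z : Fin d → ℚ => g (qK z) := by
    rw [Metric.uniformContinuous_iff]
    intro ε hε
    obtain ⟨η, hη, hηd⟩ : ∃ η : ℝ, 0 < η ∧ d * η < ε := by
      refine ⟨ε / (d + 1), by positivity, ?_⟩
      rw [← mul_div_assoc, div_lt_iff₀ (by positivity)]
      nlinarith
    have hε' : 0 < η ^ 2 / (2 * g 0 + 1) := by positivity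
    choose δ hδ hδ' using fun i => hm i _ hε'
    obtain ⟨δ₀, hδ₀, hle⟩ : ∃ δ₀ : ℝ, 0 < δ₀ ∧ ∀ i, δ₀ ≤ δ i := by
      rcases isEmpty_or_nonempty (Fin d) with he | he
      · exact ⟨1, one_pos, fun i => he.elim i⟩
      · obtain ⟨i, hi⟩ := Finite.exists_min δ
        exact ⟨δ i, hδ i, hi⟩
    have step : ∀ (u : Fin d → KR) (i : Fin d) (q : ℚ), |(q : ℝ)| < δ₀ →
        |g (u + Pi.single i (q : KR)) - g u| ≤ η := by
      intro u i q hq
      have h1 := key hg (u + Pi.single i (q : KR)) u
      rw [add_sub_cancel_left] at h1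
      have h2 := hδ' i q (hq.trans_le (hle i))
      rw [le_div_iff₀ (by positivity)] at h2
      have h3 : 2 * g 0 * (g 0 - g (Pi.single i (q : KR))) ≤ η ^ 2 := by
        rcases le_total 0 (g 0 - g (Pi.single i (q : KR))) with h4 | h4
        · nlinarith
        · nlinarith [mul_nonneg h0 (neg_nonneg.2 h4), sq_nonneg η]
      exact abs_le_of_sq_le_sq' (h1.trans h3) hη.le |> abs_le.2
    refine ⟨δ₀, hδ₀, fun {z z'} hz => ?_⟩
    have hc : ∀ i, |((z i - z' i : ℚ) : ℝ)| < δ₀ := fun i => by
      have := (dist_le_pi_dist z z' i).trans_lt hz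
      rw [← Rat.dist_cast, Real.dist_eq] at this
      push_cast
      exact this
    have ind : ∀ s : Finset (Fin d),
        |g (qK z' + ∑ i ∈ s, Pi.single i ((z i - z' i : ℚ) : KR)) - g (qK z')| ≤ s.card * η := by
      intro s
      induction s using Finset.induction_on with
      | empty => simp
      | insert i s hi ih =>
        rw [Finset.sum_insert hi, Finset.card_insert_of_notMem hi, add_comm (Pi.single i _),
          ← add_assoc]
        have := step (qK z' + ∑ i ∈ s, Pi.single i ((z i - z' i : ℚ) : KR)) i _ (hc i)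
        push_cast at this ih ⊢
        rw [abs_le] at this ih ⊢
        constructor <;> linarith [this.1, this.2, ih.1, ih.2]
    have fin := ind Finset.univ
    have e : qK z' + ∑ i, Pi.single i ((z i - z' i : ℚ) : KR) = qK z := by
      rw [Finset.univ_sum_single fun i => ((z i - z' i : ℚ) : KR)]
      funext i
      simp [qK]
    rw [e, Finset.card_univ, Fintype.card_fin] at fin
    rw [Real.dist_eq]
    exact fin.trans_lt hηd
  let e : (Fin d → ℚ) → Fin d → ℝ := fun z i => (z i : ℝ)
  have hiso : Isometry e := Isometry.of_dist_eq fun z z' => by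
    simp only [dist_pi_def, e]
    rfl
  have hden : DenseRange e := DenseRange.piMap fun _ => Rat.denseRange_cast
  have hui := hiso.isUniformInducing
  refine ⟨fun x => (hui.isDenseInducing hden).extend (fun z => g (qK z)) x.ofLp, ?_, fun z => ?_⟩
  · exact (uniformContinuous_uniformly_extend hui hden huc).continuous.comp (by fun_prop)
  · exact (uniformly_extend_of_ind hui hden huc z).symm

end Pool.Agent.MP_66cee2_co.D.TX
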