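import Pool.Agent.MP_66cee2_co.D.SpecX
import Pool.Agent.MP_66cee2_co.XT.FUN

/-! A positive functional on the configurations that is invariant under the translations. -/

namespace Pool.Agent.MP_66cee2_co.D.TX

open Pool.Agent.MP_66cee2_co.XT (Eu Bd Mean RowMEAN)
open Pool.Agent.MP_66cee2_co.XT.FUNA (mean_ge mean_abs)

namespace XFunx

theorem lin_zero {d : ℕ} {A : Fr d} (hA : Lin A) : A (qK 0) = 0 := by
  have e : (qK 0 : Fin d → KR) = 0 := by
    funext k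
    simp [qK]
  have h := hA.add 0 0
  rw [add_zero] at h
  rw [e]
  exact left_eq_add.1 h

end XFunx

open XFunx in
theorem rowFUN1 : RowMEAN → RowCH → RowPH → RowPDC → RowRPD → RowFUN1 := by
  intro hM hCH hPH hPD hR d n f C ε O₁ O₂ hd h1 h2 h3
  obtain ⟨M₁, k1⟩ := hM (Fin d → KR)
  obtain ⟨M₂, k2⟩ := hM U1
  obtain ⟨c1, c2, c3, c4⟩ := hCH d M₂ k2 (d - 1)
  obtain ⟨fin, ⟨R₀, near⟩, p1, p2, p3⟩ := hPH d n f
  have mem := p3 C ε O₁ O₂ h1 h2 h3
  have b1 : ∀ {φ : Om d n → ℝ}, Cl φ → ∀ A, Bd fun a => Ph f φ a A := fun h A =>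
    (fin _ h).imp fun D hD a => (hD a A).2
  have b2 : ∀ {φ : Om d n → ℝ}, Cl φ → Bd fun A : Fr d => M₁ fun a => Ph f φ a A := fun h =>
    (fin _ h).imp fun D hD A => mean_abs k1 fun a => (hD a _).2
  have fs : ∀ {φ : Om d n → ℝ}, Cl φ → ∀ (a : Fin d → KR) (A : Fr d),
      (Function.support fun r : Fin d → ℤ =>
        φ (W f ((fun k => (r k : KR)) + a) A)).Finite := fun h a A =>
    (fin _ h).elim fun D hD => (hD a A).1
  refine ⟨fun φ => Ch M₂ (d - 1) fun A => M₁ fun a => Ph f φ a A,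
    ⟨fun φ ψ hφ hψ => ?_, fun c φ hφ => ?_, fun φ hφ h0 => ?_, fun φ ψ h => ?_,
      ⟨R₀, fun φ hφ h0 h => ?_⟩, fun ξ hξ hs => ?_⟩, fun φ a' l hφ hl => ?_⟩
  · rw [← c2 _ _ (b2 hφ) (b2 hψ)]
    refine c1 _ _ fun A _ => ?_
    rw [← k1.add _ _ (b1 hφ _) (b1 hψ _)]
    exact congrArg M₁ (funext fun a => finsum_add_distrib (fs hφ a _) (fs hψ a _))
  · rw [← c3 _ _ (b2 hφ)]
    refine c1 _ _ fun A _ => ?_
    rw [← k1.smul _ _ (b1 hφ _)]
    exact congrArg M₁ (funext fun a => (mul_finsum _ c).symm)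
  · exact c4 _ _ (b2 hφ) fun A _ => mean_ge k1 (b1 hφ _) fun a => finsum_nonneg fun r => h0 _
  · exact c1 _ _ fun A hA => congrArg M₁ (funext fun a =>
      finsum_congr fun r => h _ (mem _ A hA))
  · refine c4 _ _ (b2 hφ) fun A hA => mean_ge k1 (b1 hφ _) fun a => ?_
    obtain ⟨r, hr⟩ := near a
    exact (h _ (mem _ A hA) hr).trans
      (single_le_finsum (f := fun r : Fin d → ℤ => φ (W f ((fun k => (r k : KR)) + a) A)) r
        (fs hφ a _) fun r => h0 _)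
  · obtain ⟨ψ, hψ, e⟩ := hR d M₂ _ hd k2 (hPD d M₁ (fun a => ξ (eK a, f (eK a))) k1
      (hξ.imp fun B hB a => hB _) (hs.imp fun R hR a ha => hR _ ha))
    refine ⟨ψ, hψ, fun z hz => ?_⟩
    rw [← e z hz]
    refine c1 _ _ fun A hA => congrArg M₁ (funext fun a => finsum_congr fun r => ?_)
    have q : ∀ (b : Fin d → KR) (y : Fin d → ℚ), ev ξ y (W f b A) =
        ξ (eK (b + A (qK y)), f (eK (b + A (qK y)))) := fun b y => by
      rw [ev, p1 b A y hA]
      rfl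
    beta_reduce
    rw [q, q, lin_zero hA, add_zero]
  · subst hl
    refine c1 _ _ fun A hA => ?_
    rw [← k1.inv _ (A (qK a')) (b1 hφ _)]
    refine congrArg M₁ (funext fun a => finsum_congr fun r => ?_)
    beta_reduce
    rw [p2 _ A a' hA, add_assoc]

end Pool.Agent.MP_66cee2_co.D.TX
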