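import Pool.Agent.MP_66cee2_co.D.SpecX
import Pool.Agent.MP_66cee2_co.XT.CORR
import Pool.Agent.MP_66cee2_co.XT.FUN

/-! Means of positive definite functions over rotations. -/

namespace Pool.Agent.MP_66cee2_co.D.TX

open Pool.Agent.MP_66cee2_co.XT (Bd Mean)
open scoped ComplexConjugate ComplexOrder

namespace XMpdx

section pd

variable {G : Type} [AddCommGroup G] {g : G → ℝ}

theorem quad (h : PDr g) (S : Finset G) (r : G → ℝ) :
    0 ≤ ∑ a ∈ S, ∑ b ∈ S, r a * r b * g (b - a) := by
  have := h S fun a => (r a : ℂ)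
  simp only [Complex.conj_ofReal] at this
  exact_mod_cast this

theorem zero_le (h : PDr g) : 0 ≤ g 0 := by simpa using quad h {0} fun _ => 1

theorem neg_eq (h : PDr g) (v : G) : g (-v) = g v := by
  classical
  by_cases hv : v = 0
  · rw [hv, neg_zero]
  have := h {0, v} fun a => if a = 0 then 1 else Complex.I
  rw [Finset.sum_pair (Ne.symm hv), Finset.sum_pair (Ne.symm hv), Finset.sum_pair (Ne.symm hv),
    Complex.nonneg_iff] at this
  have e := this.2
  simp [hv] at e
  linarith

theorem abs_le (h : PDr g) (v : G) : |g v| ≤ g 0 := by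
  classical
  by_cases hv : v = 0
  · rw [hv, abs_of_nonneg (zero_le h)]
  have k : ∀ s : ℝ, 0 ≤ g 0 + s * g v + (s * g v + s * s * g 0) := fun s => by
    have := quad h {0, v} fun a => if a = 0 then 1 else s
    rw [Finset.sum_pair (Ne.symm hv), Finset.sum_pair (Ne.symm hv),
      Finset.sum_pair (Ne.symm hv)] at this
    simpa [hv, neg_eq h] using this
  have a := k 1
  have b := k (-1)
  exact _root_.abs_le.2 ⟨by linarith, by linarith⟩

end pd

section mean

variable {G : Type} [AddCommGroup G] {M : (G → ℝ) → ℝ}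

theorem bd_sum {ι : Type} (S : Finset ι) (F : ι → G → ℝ) (h : ∀ a, Bd (F a)) :
    Bd fun x => ∑ a ∈ S, F a x := by
  choose B hB using h
  exact ⟨∑ a ∈ S, B a, fun x => (Finset.abs_sum_le_sum_abs _ _).trans
    (Finset.sum_le_sum fun a _ => hB a x)⟩

theorem mean_sum (hM : Mean M) {ι : Type} (S : Finset ι) (F : ι → G → ℝ) (h : ∀ a, Bd (F a)) :
    M (fun x => ∑ a ∈ S, F a x) = ∑ a ∈ S, M (F a) := by
  classical
  induction S using Finset.induction_on with
  | empty => simpa using hM.const 0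
  | insert a S ha ih =>
    simp only [Finset.sum_insert ha]
    rw [hM.add _ _ (h a) (bd_sum S F h), ih]

theorem bd_mul (c : ℝ) {φ : G → ℝ} (h : Bd φ) : Bd fun x => c * φ x := by
  obtain ⟨B, hB⟩ := h
  exact ⟨|c| * B, fun x => by rw [abs_mul]; exact mul_le_mul_of_nonneg_left (hB x) (abs_nonneg c)⟩

end mean

variable {d : ℕ} {i j : Fin d}

theorem rt_add (hij : i ≠ j) (c c' : U1) (v : Fin d → KR) :
    Rt i j (c + c') v = Rt i j c (Rt i j c' v) := by
  funext k
  simp only [Rt, add_a, add_b, if_true, if_neg hij.symm]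
  split_ifs <;> ring

theorem rt_zero (v : Fin d → KR) : Rt i j 0 v = v := by
  funext k
  simp only [Rt, zero_a, zero_b]
  split_ifs with h1 h2
  · rw [h1]; ring
  · rw [h2]; ring
  · rfl

theorem rt_sub (c : U1) (v v' : Fin d → KR) : Rt i j c (v - v') = Rt i j c v - Rt i j c v' := by
  funext k
  simp only [Rt, Pi.sub_apply]
  split_ifs <;> ring

theorem rt_inv (hij : i ≠ j) (c : U1) (v : Fin d → KR) : Rt i j (-c) (Rt i j c v) = v := by
  rw [← rt_add hij, neg_add_cancel, rt_zero]

/-- Rational points of the circle. -/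
noncomputable def pt (t : ℕ) : U1 :=
  ⟨((((1 - t ^ 2) / (1 + t ^ 2) : ℚ)) : KR), (((2 * t / (1 + t ^ 2) : ℚ)) : KR), by
    have : ((1 - t ^ 2) / (1 + t ^ 2) : ℚ) ^ 2 + (2 * t / (1 + t ^ 2) : ℚ) ^ 2 = 1 := by
      field_simp; ring
    exact_mod_cast this⟩

theorem pt_inj : Function.Injective pt := fun s t h => by
  have e : ((((1 - s ^ 2) / (1 + s ^ 2) : ℚ)) : KR) = (((1 - t ^ 2) / (1 + t ^ 2) : ℚ) : KR) :=
    congrArg U1.a h
  have e' : ((1 - s ^ 2) / (1 + s ^ 2) : ℚ) = (1 - t ^ 2) / (1 + t ^ 2) := by exact_mod_cast e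
  rw [div_eq_div_iff (by positivity) (by positivity)] at e'
  have e2 : (s : ℚ) ^ 2 = (t : ℚ) ^ 2 := by linarith
  have e3 : s ^ 2 = t ^ 2 := by exact_mod_cast e2
  exact Nat.pow_left_injective (by norm_num) e3

end XMpdx

open XMpdx

theorem rowMPD : RowMPD := by
  classical
  intro M hM
  refine ⟨fun d i j g hij hg => ⟨abs_le hg, ?_, fun c' v => ?_⟩,
    fun d i j c c' v hij => rt_add hij c c' v, fun w B hw h => ?_⟩
  · have hb : ∀ v, Bd fun c => g (Rt i j c v) := fun v => ⟨g 0, fun c => abs_le hg _⟩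
    refine XT.CORRA.pd_of_real _ (fun a b => ?_) fun S r => ?_
    · congr 1
      funext c
      rw [rt_sub, rt_sub, ← neg_sub, neg_eq hg]
    · have e : ∑ a ∈ S, ∑ b ∈ S, r a * r b * (M fun c => g (Rt i j c (b - a))) =
          M fun c => ∑ a ∈ S, ∑ b ∈ S, r a * r b * g (Rt i j c (b - a)) := by
        rw [mean_sum hM S _ fun a => bd_sum S _ fun b => bd_mul _ (hb _)]
        refine Finset.sum_congr rfl fun a _ => ?_
        rw [mean_sum hM S _ fun b => bd_mul _ (hb _)]
        exact Finset.sum_congr rfl fun b _ => (hM.smul _ _ (hb _)).symm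
      rw [e]
      refine XT.FUNA.mean_ge hM (bd_sum S _ fun a => bd_sum S _ fun b => bd_mul _ (hb _))
        fun c => ?_
      have hi : Function.Injective (Rt i j c) := Function.LeftInverse.injective (rt_inv hij c)
      have := quad hg (S.image (Rt i j c)) fun x => r (Rt i j (-c) x)
      simp only [Finset.sum_image hi.injOn, rt_inv hij, ← rt_sub] at this
      exact this
  · simp only [← rt_add hij]
    exact hM.inv (fun c => g (Rt i j c v)) c' ⟨g 0, fun c => abs_le hg _⟩
  · obtain ⟨C, hC⟩ := hw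
    have ha : ∀ c : U1, Bd fun x => |w (x + c)| := fun c => ⟨C, fun x => by
      rw [abs_abs]; exact hC _⟩
    have ha0 : Bd fun x => |w x| := ⟨C, fun x => by rw [abs_abs]; exact hC _⟩
    have k : ∀ N : ℕ, (N : ℝ) * M (fun x => |w x|) ≤ B := fun N => by
      have e := mean_sum hM ((Finset.range N).image pt) (fun c x => |w (x + c)|) ha
      have e2 : ∀ c, M (fun x => |w (x + c)|) = M fun x => |w x| := fun c =>
        hM.inv (fun x => |w x|) c ha0
      simp only [e2, Finset.sum_const, Finset.card_image_of_injective _ pt_inj, Finset.card_range,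
        nsmul_eq_mul] at e
      rw [← e, ← hM.const B]
      refine hM.mono _ _ (bd_sum _ _ ha) ⟨|B|, fun _ => le_rfl⟩ fun x => ?_
      simp only [add_comm x]
      refine h x _ fun c hc => ?_
      obtain ⟨t, -, rfl⟩ := Finset.mem_image.1 hc
      exact ⟨⟨_, rfl⟩, ⟨_, rfl⟩⟩
    have z : M (fun x => |w x|) ≤ 0 := by
      by_contra hn
      obtain ⟨N, hN⟩ := exists_nat_gt (B / M fun x => |w x|)
      rw [div_lt_iff₀ (not_le.1 hn)] at hN
      exact absurd (k N) (not_le.2 hN)
    have u := hM.mono w _ ⟨C, hC⟩ ha0 fun x => le_abs_self _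
    have l := hM.mono (fun x => -1 * w x) _ (bd_mul _ ⟨C, hC⟩) ha0 fun x => by
      rw [neg_one_mul]; exact neg_le_abs _
    rw [hM.smul _ _ ⟨C, hC⟩] at l
    linarith

end Pool.Agent.MP_66cee2_co.D.TX
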