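import Pool.Agent.MP_66cee2_co.D.SpecX
import Pool.Agent.MP_66cee2_co.XT.CORR
import Pool.Agent.MP_66cee2_co.XT.FUN

/-! Row PDC: the correlation over the translations is positive definite. -/

namespace Pool.Agent.MP_66cee2_co.D.TX

open Pool.Agent.MP_66cee2_co.XT (Bd Mean)

namespace XPdcx

variable {d : ℕ}

/-- integer parts -/
noncomputable def fl (a : Fin d → KR) : Fin d → ℤ := fun j => ⌊(a j : ℝ)⌋

/-- a box of lattice points -/
noncomputable def bx (d N : ℕ) : Finset (Fin d → ℤ) :=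
  Fintype.piFinset fun _ => Finset.Icc (-(N : ℤ)) N

theorem mem_bx {r : Fin d → ℤ} {a : Fin d → KR} {R : ℝ}
    (h : ‖eK ((fun k => (r k : KR)) + a)‖ ≤ R) : r + fl a ∈ bx d (⌈R⌉₊ + 1) := by
  refine Fintype.mem_piFinset.2 fun j => ?_
  have h1 := (PiLp.norm_apply_le (eK ((fun k => (r k : KR)) + a)) j).trans h
  have e : eK ((fun k => (r k : KR)) + a) j = (r j : ℝ) + (a j : ℝ) := by simp
  rw [e, Real.norm_eq_abs] at h1
  exact XT.FUNA.int_bd h1

theorem fin {θ : (Fin d → KR) → ℝ} (hb : Bd θ) (hs : ∃ R : ℝ, ∀ a, R < ‖eK a‖ → θ a = 0) :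
    ∃ D : ℝ, ∀ a : Fin d → KR,
      (Function.support fun r : Fin d → ℤ => θ ((fun k => (r k : KR)) + a)).Finite ∧
        |∑ᶠ r : Fin d → ℤ, θ ((fun k => (r k : KR)) + a)| ≤ D := by
  classical
  obtain ⟨B, hB⟩ := hb
  obtain ⟨R, h⟩ := hs
  refine ⟨(bx d (⌈R⌉₊ + 1)).card * B, fun a => ?_⟩
  have hs : (Function.support fun r : Fin d → ℤ => θ ((fun k => (r k : KR)) + a)) ⊆
      ((bx d (⌈R⌉₊ + 1)).image fun u => u - fl a : Finset _) := by
    intro r hr
    refine Finset.mem_coe.2 (Finset.mem_image.2 ⟨r + fl a, mem_bx ?_, add_sub_cancel_right _ _⟩)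
    exact not_lt.1 fun h1 => hr (h _ h1)
  refine ⟨(Finset.finite_toSet _).subset hs, ?_⟩
  rw [finsum_eq_sum_of_support_subset _ hs]
  refine (Finset.abs_sum_le_sum_abs _ _).trans
    ((Finset.sum_le_card_nsmul _ _ B fun r _ => hB _).trans ?_)
  rw [nsmul_eq_mul]
  exact mul_le_mul_of_nonneg_right (Nat.cast_le.2 Finset.card_image_le)
    ((abs_nonneg _).trans (hB a))

theorem mean_sum {G I : Type} [AddCommGroup G] {M : (G → ℝ) → ℝ} (hM : Mean M) (s : Finset I)
    (F : I → G → ℝ) (h : ∀ i, Bd (F i)) :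
    Bd (fun a => ∑ i ∈ s, F i a) ∧ M (fun a => ∑ i ∈ s, F i a) = ∑ i ∈ s, M (F i) := by
  classical
  induction s using Finset.induction_on with
  | empty => exact ⟨⟨0, fun _ => by simp⟩, by simpa using hM.const 0⟩
  | insert i s hi ih =>
    simp only [Finset.sum_insert hi]
    obtain ⟨B, hB⟩ := h i
    obtain ⟨B', hB'⟩ := ih.1
    exact ⟨⟨B + B', fun a => (abs_add_le _ _).trans (add_le_add (hB a) (hB' a))⟩,
      by rw [hM.add _ _ (h i) ih.1, ih.2]⟩

theorem bd_smul {G : Type} {F : G → ℝ} (h : Bd F) (c : ℝ) : Bd fun a => c * F a := by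
  obtain ⟨B, hB⟩ := h
  exact ⟨|c| * B, fun a => by
    rw [abs_mul]
    exact mul_le_mul_of_nonneg_left (hB a) (abs_nonneg c)⟩

/-- the sum over the lattice of a product of two translates -/
noncomputable def Q (η : (Fin d → KR) → ℝ) (x y a : Fin d → KR) : ℝ :=
  ∑ᶠ r : Fin d → ℤ, η ((fun k => (r k : KR)) + a + x) * η ((fun k => (r k : KR)) + a + y)

theorem finQ {η : (Fin d → KR) → ℝ} (hb : Bd η) (hs : ∃ R : ℝ, ∀ a, R < ‖eK a‖ → η a = 0)
    (x y : Fin d → KR) : ∃ D : ℝ, ∀ a : Fin d → KR,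
      (Function.support fun r : Fin d → ℤ =>
        η ((fun k => (r k : KR)) + a + x) * η ((fun k => (r k : KR)) + a + y)).Finite ∧
        |Q η x y a| ≤ D := by
  obtain ⟨B, hB⟩ := hb
  obtain ⟨R, hR⟩ := hs
  refine fin (θ := fun b => η (b + x) * η (b + y)) ⟨B * B, fun b => ?_⟩
    ⟨R + ‖eK x‖, fun b h => ?_⟩
  · rw [abs_mul]
    exact mul_le_mul (hB _) (hB _) (abs_nonneg _) ((abs_nonneg _).trans (hB b))
  · have h1 : ‖eK b‖ ≤ ‖eK (b + x)‖ + ‖eK x‖ := by
      have h2 := norm_sub_le (eK b + eK x) (eK x)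
      rwa [add_sub_cancel_right, ← eK_add] at h2
    rw [hR (b + x) (by linarith), zero_mul]

end XPdcx

open XPdcx in
theorem rowPDC : RowPDC := by
  intro d M η hM hb hs
  have bQ : ∀ x y, Bd (Q η x y) := fun x y => (finQ hb hs x y).imp fun D hD a => (hD a).2
  have key : ∀ x y : Fin d → KR, (M fun a => ∑ᶠ r : Fin d → ℤ,
      η ((fun k => (r k : KR)) + a) * η ((fun k => (r k : KR)) + a + (y - x))) = M (Q η x y) := by
    intro x y
    rw [← hM.inv (Q η x y) (-x) (bQ x y)]
    refine congrArg M (funext fun a => finsum_congr fun r => ?_)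
    have e1 : (fun k => (r k : KR)) + (a + -x) + x = (fun k => (r k : KR)) + a := by abel
    have e2 : (fun k => (r k : KR)) + (a + -x) + y = (fun k => (r k : KR)) + a + (y - x) := by
      abel
    rw [e1, e2]
  refine XT.CORRA.pd_of_real _ (fun x y => ?_) fun S c => ?_
  · rw [key, key]
    exact congrArg M (funext fun a => finsum_congr fun r => mul_comm _ _)
  · have h1 : ∀ x, Bd (fun a => ∑ y ∈ S, c x * c y * Q η x y a) ∧
        M (fun a => ∑ y ∈ S, c x * c y * Q η x y a) =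
          ∑ y ∈ S, M fun a => c x * c y * Q η x y a := fun x =>
      mean_sum hM S (fun y a => c x * c y * Q η x y a) fun y => bd_smul (bQ x y) _
    have h2 := mean_sum hM S (fun x a => ∑ y ∈ S, c x * c y * Q η x y a) fun x => (h1 x).1
    have h3 : ∑ x ∈ S, ∑ y ∈ S, c x * c y * M (Q η x y) =
        M fun a => ∑ x ∈ S, ∑ y ∈ S, c x * c y * Q η x y a := by
      rw [h2.2]
      refine Finset.sum_congr rfl fun x _ => ?_
      rw [(h1 x).2]
      exact Finset.sum_congr rfl fun y _ => (hM.smul _ _ (bQ x y)).symm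
    simp only [key]
    rw [h3]
    refine XT.FUNA.mean_ge hM h2.1 fun a => ?_
    classical
    have fs : ∀ x y, (Function.support fun r : Fin d → ℤ =>
        η ((fun k => (r k : KR)) + a + x) * η ((fun k => (r k : KR)) + a + y)).Finite :=
      fun x y => (finQ hb hs x y).elim fun D hD => (hD a).1
    set T : Finset (Fin d → ℤ) := S.biUnion fun x => S.biUnion fun y => (fs x y).toFinset with hT
    have h4 : ∀ x ∈ S, ∀ y ∈ S, Q η x y a = ∑ r ∈ T,
        η ((fun k => (r k : KR)) + a + x) * η ((fun k => (r k : KR)) + a + y) := by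
      intro x hx y hy
      refine finsum_eq_sum_of_support_subset _ fun r hr => ?_
      exact Finset.mem_coe.2 (Finset.mem_biUnion.2 ⟨x, hx, Finset.mem_biUnion.2
        ⟨y, hy, (fs x y).mem_toFinset.2 hr⟩⟩)
    have h5 : ∑ x ∈ S, ∑ y ∈ S, c x * c y * Q η x y a =
        ∑ r ∈ T, (∑ x ∈ S, c x * η ((fun k => (r k : KR)) + a + x)) *
          ∑ y ∈ S, c y * η ((fun k => (r k : KR)) + a + y) := by
      simp only [Finset.sum_mul_sum]
      rw [Finset.sum_comm (s := T)]
      refine Finset.sum_congr rfl fun x hx => ?_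
      rw [Finset.sum_comm (s := T)]
      refine Finset.sum_congr rfl fun y hy => ?_
      rw [h4 x hx y hy, Finset.mul_sum]
      exact Finset.sum_congr rfl fun r _ => by ring
    rw [h5]
    exact Finset.sum_nonneg fun r _ => mul_self_nonneg _

end Pool.Agent.MP_66cee2_co.D.TX
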