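import Pool.Agent.MP_66cee2_co.D.SpecX

/-! Families of rational points in general position; generic rational points of the sphere. -/

namespace Pool.Agent.MP_66cee2_co.D.TX

open Filter Topology
open Pool.Agent.MP_66cee2_co.XT (Eu)

noncomputable section

namespace XPtsx

theorem fl (j : ℕ) (x : ℝ) :
    |(⌊((j : ℝ) + 1) * x⌋ : ℝ) / ((j : ℝ) + 1) - x| ≤ 1 / ((j : ℝ) + 1) := by
  have h : (0 : ℝ) < j + 1 := by positivity
  rw [div_sub' h.ne', abs_div, abs_of_pos h]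
  gcongr
  rw [abs_le]
  constructor <;>
    linarith [Int.floor_le (((j : ℝ) + 1) * x), Int.lt_floor_add_one (((j : ℝ) + 1) * x)]

/-- The number with the given integer part, shifted by `i / (j + 1) ^ 2`. -/
def pp (j i : ℕ) (a : ℤ) : ℚ := a / (j + 1) + i / (j + 1) ^ 2

/-- The integer part. -/
def fz (j : ℕ) (x : ℝ) : ℤ := ⌊((j : ℝ) + 1) * x⌋

theorem near {j i : ℕ} (h : i ≤ j) (x : ℝ) :
    ‖(pp j i (fz j x) : ℝ) - x‖ ≤ 3 / ((j : ℝ) + 1) := by
  have h1 := abs_le.1 (fl j x)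
  have h3 : (i : ℝ) / (j + 1) ^ 2 ≤ 1 / ((j : ℝ) + 1) := by
    have : (i : ℝ) ≤ j := by exact_mod_cast h
    rw [div_le_div_iff₀ (by positivity) (by positivity)]
    nlinarith [(Nat.cast_nonneg j : (0 : ℝ) ≤ j)]
  have h4 : 0 ≤ (i : ℝ) / (j + 1) ^ 2 := by positivity
  have h5 : 3 / ((j : ℝ) + 1) = 3 * (1 / ((j : ℝ) + 1)) := by ring
  have h6 : 0 ≤ 1 / ((j : ℝ) + 1) := by positivity
  rw [h5, Real.norm_eq_abs, abs_le]
  simp only [pp, fz]
  push_cast
  constructor <;> linarith [h1.1, h1.2]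

variable {d : ℕ}

/-- The reflection of a basis vector in the hyperplane orthogonal to `t`. -/
def Z (k : Fin d) (t : Eu d) : Eu d :=
  EuclideanSpace.single k 1 - (2 * t k / ‖t‖ ^ 2 : ℝ) • t

theorem nsq (k : Fin d) (s : ℝ) (y : Eu d) :
    ‖EuclideanSpace.single k s - y‖ ^ 2 = s ^ 2 - 2 * (s * y k) + ‖y‖ ^ 2 := by
  rw [norm_sub_sq_real, EuclideanSpace.inner_single_left]
  simp

theorem norm_Z (k : Fin d) (t : Eu d) (ht : t ≠ 0) : ‖Z k t‖ = 1 := by
  have h : ‖t‖ ≠ 0 := norm_ne_zero_iff.mpr ht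
  have h1 : ‖Z k t‖ ^ 2 = 1 := by
    rw [Z, nsq, norm_smul, mul_pow, Real.norm_eq_abs, sq_abs]
    simp only [PiLp.smul_apply, smul_eq_mul]
    field_simp
    ring
  exact (pow_eq_one_iff_of_nonneg (norm_nonneg _) two_ne_zero).mp h1

theorem cont_Z (k : Fin d) (t : Eu d) (ht : t ≠ 0) : ContinuousAt (Z k) t := by
  have h : ‖t‖ ^ 2 ≠ 0 := pow_ne_zero _ (norm_ne_zero_iff.mpr ht)
  have h1 : ContinuousAt (fun t : Eu d => (2 * t k / ‖t‖ ^ 2 : ℝ)) t :=
    ContinuousAt.div (f := fun t : Eu d => 2 * t k) (g := fun t : Eu d => ‖t‖ ^ 2)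
      (by fun_prop) (by fun_prop) h
  exact continuousAt_const.sub (h1.smul continuousAt_id)

theorem surj (hd : 2 ≤ d) (u : Eu d) (hu : ‖u‖ = 1) : ∃ k t, t ≠ 0 ∧ Z k t = u := by
  obtain ⟨k, h⟩ : ∃ k : Fin d, EuclideanSpace.single k (1 : ℝ) ≠ u := by
    by_contra h
    push Not at h
    have h1 := congrArg (fun v : Eu d => v ⟨0, by omega⟩)
      ((h ⟨0, by omega⟩).trans (h ⟨1, by omega⟩).symm)
    simp at h1
  have h0 := sub_ne_zero.mpr h
  refine ⟨k, _, h0, ?_⟩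
  have h1 : ‖EuclideanSpace.single k (1 : ℝ) - u‖ ^ 2 ≠ 0 :=
    pow_ne_zero _ (norm_ne_zero_iff.mpr h0)
  have h2 : 2 * ((EuclideanSpace.single k (1 : ℝ) - u) k) =
      ‖EuclideanSpace.single k (1 : ℝ) - u‖ ^ 2 := by
    rw [nsq, hu]
    simp
    ring
  rw [Z, h2, div_self h1, one_smul, sub_sub_cancel]

theorem dense1 : Dense {t : Eu d | ∀ j, ∃ a : ℚ, a ≠ 0 ∧ t j = a} := by
  have h1 : Dense (Set.range ((↑) : ℚ → ℝ) \ {0}) :=
    Dense.sdiff_singleton Rat.denseRange_cast 0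
  have h2 := dense_pi (Set.univ : Set (Fin d)) fun _ _ => h1
  let f : (Fin d → ℝ) → Eu d := fun x => WithLp.toLp 2 x
  have hf : Continuous f := by fun_prop
  have hs : Function.Surjective f := fun t => ⟨fun j => t j, rfl⟩
  refine (hs.denseRange.dense_image hf h2).mono ?_
  rintro _ ⟨x, hx, rfl⟩ j
  obtain ⟨⟨a, ha⟩, ha0⟩ := hx j trivial
  refine ⟨a, fun h => ha0 ?_, ha.symm⟩
  simp [← ha, h]

theorem dense2 (k : Fin d) : Dense {t : Eu d | ‖t‖ ^ 2 ≠ 2 * t k ^ 2} := by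
  intro t
  by_cases h : ‖t‖ ^ 2 = 2 * t k ^ 2
  swap
  · exact subset_closure h
  refine Metric.mem_closure_iff.2 fun ε hε => ?_
  obtain ⟨s, hs0, hs1, hs2⟩ : ∃ s : ℝ, 0 < s ∧ s < ε ∧ s ≠ 2 * t k := by
    by_cases h1 : ε / 2 = 2 * t k
    · exact ⟨ε / 4, by linarith, by linarith, by linarith [h1] |> fun (h : ε / 4 < 2 * t k) => h.ne⟩
    · exact ⟨ε / 2, by linarith, by linarith, h1⟩
  refine ⟨t - EuclideanSpace.single k s, fun h1 => ?_, ?_⟩
  · rw [norm_sub_rev, nsq, h] at h1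
    simp only [PiLp.sub_apply, EuclideanSpace.single_apply, if_true] at h1
    have h2 : s * (s - 2 * t k) = 0 := by linear_combination -h1
    rcases mul_eq_zero.1 h2 with h3 | h3
    · exact hs0.ne' h3
    · exact hs2 (sub_eq_zero.1 h3)
  · rw [dist_eq_norm, sub_sub_cancel]
    simpa [abs_of_pos hs0] using hs1

theorem dense (k : Fin d) :
    Dense ({t : Eu d | ∀ j, ∃ a : ℚ, a ≠ 0 ∧ t j = a} ∩ {t | ‖t‖ ^ 2 ≠ 2 * t k ^ 2}) :=
  dense1.inter_of_isOpen_right (dense2 k) (isOpen_ne_fun (by fun_prop) (by fun_prop))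

end XPtsx

open XPtsx in
theorem rowPTS : RowPTS := by
  intro m
  refine ⟨fun j i v k => pp j i (fz j (v k)), fun ε hε => ?_,
    fun j i z => ?_, fun j i j' v v' => ?_⟩
  · obtain ⟨N, hN⟩ := exists_nat_ge (3 * (m + 1) / ε)
    refine ⟨N, fun j hj i hi v => ?_⟩
    have h1 : (N : ℝ) ≤ j := by exact_mod_cast hj
    have h2 : ((m : ℝ) + 1) * (3 / ((j : ℝ) + 1)) ≤ ε := by
      rw [div_le_iff₀ hε] at hN
      rw [← mul_div_assoc, div_le_iff₀ (by positivity)]
      nlinarith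
    rw [EuclideanSpace.norm_eq, Real.sqrt_le_left hε.le]
    refine (Finset.sum_le_card_nsmul _ _ ((3 / ((j : ℝ) + 1)) ^ 2) fun k _ =>
      pow_le_pow_left₀ (norm_nonneg _) (near hi (v k)) 2).trans
      (le_trans ?_ (pow_le_pow_left₀ (by positivity) h2 2))
    rw [mul_pow, Finset.card_fin, nsmul_eq_mul]
    gcongr
    nlinarith [(Nat.cast_nonneg m : (0 : ℝ) ≤ m)]
  · have : Measurable fun (v : Eu m) k => fz j (v k) := by
      unfold fz
      fun_prop
    exact this (Set.to_countable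
      {a : Fin m → ℤ | (fun k => pp j i (a k)) = z}).measurableSet
  · have : ∀ i' : ℕ, ∃ k : Option (Fin m), ¬ Gen ((fun k => pp j' i' (fz j' (v' k))) -
        fun k => pp j i (fz j (v k))) →
        ∃ k', k = some k' ∧ pp j' i' (fz j' (v' k')) = pp j i (fz j (v k')) := by
      intro i'
      by_cases h : ∃ k', pp j' i' (fz j' (v' k')) = pp j i (fz j (v k'))
      · obtain ⟨k, hk⟩ := h
        exact ⟨some k, fun _ => ⟨k, rfl, hk⟩⟩
      · exact ⟨none, fun h' => absurd (fun k e => h ⟨k, sub_eq_zero.1 e⟩) h'⟩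
    choose κ hκ using this
    refine (Set.ncard_le_ncard_of_injOn κ (t := Set.range some) (fun a ha => ?_)
      (fun a ha b hb e => ?_) (Set.toFinite _)).trans ?_
    · obtain ⟨k, h, -⟩ := hκ a ha.2
      exact ⟨k, h.symm⟩
    · obtain ⟨k, h, h1⟩ := hκ a ha.2
      obtain ⟨k', h', h2⟩ := hκ b hb.2
      obtain rfl : k = k' := Option.some.inj (h.symm.trans (e.trans h'))
      have := h1.trans h2.symm
      simp only [pp, add_right_inj] at this
      exact_mod_cast (div_left_inj' (by positivity)).1 this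
    · rw [Set.ncard_range_of_injective (Option.some_injective _)]
      simp

open XPtsx in
theorem rowSPH : RowSPH := by
  intro m hm δ hδ u hu
  obtain ⟨k, t0, ht0, rfl⟩ := surj hm u hu
  obtain ⟨t, ⟨ht, ht2⟩, hd⟩ := (dense k).inter_nhds_nonempty
    ((cont_Z k t0 ht0).preimage_mem_nhds (Metric.closedBall_mem_nhds _ hδ))
  choose a ha0 ha using ht
  have htne : t ≠ 0 := fun h => by
    have := ha k
    rw [h] at this
    exact ha0 k (by simpa using this.symm)
  have hn0 : ‖t‖ ^ 2 ≠ 0 := pow_ne_zero _ (norm_ne_zero_iff.mpr htne)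
  have hn : ‖t‖ ^ 2 = ((∑ j, a j ^ 2 : ℚ) : ℝ) := by
    rw [EuclideanSpace.norm_sq_eq]
    push_cast
    refine Finset.sum_congr rfl fun j _ => ?_
    rw [Real.norm_eq_abs, sq_abs, ha]
  obtain ⟨c, hc⟩ : ∃ c : ℚ, 2 * t k / ‖t‖ ^ 2 = c :=
    ⟨2 * a k / ∑ j, a j ^ 2, by rw [hn, ha]; push_cast; rfl⟩
  have hc0 : c ≠ 0 := by
    rintro rfl
    rw [ha, Rat.cast_zero, div_eq_zero_iff] at hc
    rcases hc with h | h
    · exact ha0 k (by simpa using h)
    · exact hn0 h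
  have he : em (fun j => (if j = k then 1 else 0) - c * a j) = Z k t := by
    ext j
    rw [Z, hc]
    by_cases h : j = k <;> simp [h, ha]
  refine ⟨fun j => (if j = k then 1 else 0) - c * a j, fun j h => ?_, ?_, ?_⟩
  · by_cases hj : j = k
    · subst hj
      have h1 : (1 : ℝ) - c * a j = 0 := by
        simp only [if_true] at h
        exact_mod_cast h
      rw [← hc, ← ha] at h1
      apply ht2
      field_simp at h1
      linarith
    · have h1 : c = 0 ∨ a j = 0 := by simpa [hj] using h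
      exact h1.elim hc0 (ha0 j)
  · rw [he, norm_Z k t htne]
  · rw [he, ← dist_eq_norm]
    exact hd

end

end Pool.Agent.MP_66cee2_co.D.TX
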