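import Pool.Agent.MP_66cee2_co.D.SpecX
import Pool.Agent.MP_66cee2_co.XT.PW

/-! Row XPw: pointwise facts about limits of the averaged fields. -/

namespace Pool.Agent.MP_66cee2_co.D.TX

open MeasureTheory Filter Topology Matrix
open Pool.Agent.MP_66cee2_co.XT (Eu Lift av)
open Pool.Agent.MP_66cee2_co.XT.PWA (Q Q_psd Q_dot Q_trace Q_pair psd_lim pair_lim)

noncomputable section

namespace XPwx

variable {ι : Type} {d n : ℕ}

theorem PJ_eq (χ : Eu d → ℝ) (F : Eu n → ι → ℝ) (pt : ℕ → ℕ → Eu d → Fin d → ℚ) (j : ℕ)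
    (v : Eu d) (w : Om d n) :
    PJ χ F pt j v w = Q (Finset.range (j + 1))
      (fun i => χ (ps w (em (pt j i v))) / ((j : ℝ) + 1)) fun i => F (w.2.2 (pt j i v)) := by
  ext a b
  simp only [PJ, Q, av, ev, xi, Matrix.of_apply, Matrix.sum_apply, Matrix.smul_apply,
    vecMulVec_apply, smul_eq_mul, Finset.sum_div]
  refine Finset.sum_congr rfl fun i _ => ?_
  ring

theorem near_ev {pt : ℕ → ℕ → Eu d → Fin d → ℚ} (hp : Pts pt) {σ : ℕ → ℕ}
    (hσ : Tendsto σ atTop atTop) {δ : ℝ} (hδ : 0 < δ) :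
    ∀ᶠ k in atTop, ∀ i ∈ Finset.range (σ k + 1), ∀ v, ‖em (pt (σ k) i v) - v‖ ≤ δ := by
  obtain ⟨N, hN⟩ := hp.near δ hδ
  filter_upwards [hσ.eventually_ge_atTop N] with k hk i hi v
  exact hN _ hk i (Nat.lt_succ_iff.mp (Finset.mem_range.mp hi)) v

theorem mem_ev {pt : ℕ → ℕ → Eu d → Fin d → ℚ} (hp : Pts pt) {σ : ℕ → ℕ}
    (hσ : Tendsto σ atTop atTop) {w : Om d n} (hw : ∀ v, ‖rot w.2.1 v‖ = ‖v‖) {O : Set (Eu d)}
    (hO : IsOpen O) {v : Eu d} (hv : ps w v ∈ O) :
    ∀ᶠ k in atTop, ∀ i ∈ Finset.range (σ k + 1), ps w (em (pt (σ k) i v)) ∈ O := by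
  obtain ⟨r, hr, hsub⟩ := Metric.isOpen_iff.mp hO _ hv
  filter_upwards [near_ev hp hσ (half_pos hr)] with k hk i hi
  refine hsub ?_
  rw [Metric.mem_ball, dist_eq_norm, ps_sub, hw]
  exact (hk i hi v).trans_lt (half_lt_self hr)

end XPwx

open XPwx in
theorem rowPW : RowPW := by
  intro d n C ε O₁ O₂ ν ι _ J g F χ pt σ hL hW hp hσ hO₁ hO₂
  have hχ : ∀ a, 0 ≤ χ a := fun a => by
    obtain ⟨κ, hκ, h⟩ := hW.low ‖a‖
    exact hκ.le.trans (h a le_rfl)
  have hc : ∀ (j : ℕ) (a : Eu d), 0 ≤ χ a / ((j : ℝ) + 1) := fun j a =>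
    div_nonneg (hχ a) (by positivity)
  have hpsd : ∀ (j : ℕ) (v : Eu d) (w : Om d n), (PJ χ F pt j v w).PosSemidef := by
    intro j v w
    rw [PJ_eq]
    exact Q_psd _ _ _ fun i => hc j _
  have cq : Continuous fun M : Matrix ι ι ℝ => M *ᵥ g :=
    continuous_id.matrix_mulVec continuous_const
  have cd : Continuous fun M : Matrix ι ι ℝ => g ⬝ᵥ M *ᵥ g := continuous_const.dotProduct cq
  have ct : Continuous fun M : Matrix ι ι ℝ => (M * J).trace :=
    (continuous_id.matrix_mul continuous_const).matrix_trace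
  refine ⟨hpsd, fun w hw v P hP => ?_⟩
  have hP1 : Tendsto (fun k => PJ χ F pt (σ k) v w) atTop (𝓝 P) :=
    tendsto_pi_nhds.2 fun a => tendsto_pi_nhds.2 fun b => hP a b
  have hd := (cd.tendsto P).comp hP1
  refine ⟨⟨psd_lim (fun k => hpsd _ _ _) hP1, ?_, ?_⟩, fun v' P' hP' hv hv' => ?_⟩
  · refine tendsto_nhds_unique ((ct.tendsto P).comp hP1) (hd.congr fun k => ?_)
    simp only [Function.comp_apply]
    rw [PJ_eq, Q_dot _ _ _ _ fun i => hL.one _, Q_trace _ _ _ _ fun i => ?_]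
    rw [hL.ip]
    simp
  · obtain ⟨κ, hκ, h⟩ := hW.low (‖ps w v‖ + 1)
    refine hκ.trans_le (ge_of_tendsto hd ?_)
    filter_upwards [near_ev hp hσ one_pos] with k hk
    simp only [Function.comp_apply]
    rw [PJ_eq, Q_dot _ _ _ _ fun i => hL.one _, ← Finset.sum_div, le_div_iff₀ (by positivity)]
    have h1 : ∀ i ∈ Finset.range (σ k + 1), κ ≤ χ (ps w (em (pt (σ k) i v))) := by
      intro i hi
      refine h _ ?_
      have h2 : ‖ps w (em (pt (σ k) i v)) - ps w v‖ ≤ 1 := by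
        rw [ps_sub, hw.1]
        exact hk i hi v
      have h3 := norm_sub_norm_le (ps w (em (pt (σ k) i v))) (ps w v)
      linarith
    have h4 := Finset.card_nsmul_le_sum _ _ _ h1
    rw [Finset.card_range, nsmul_eq_mul] at h4
    push_cast at h4
    linarith
  · have hP2 : Tendsto (fun k => PJ χ F pt (σ k) v' w) atTop (𝓝 P') :=
      tendsto_pi_nhds.2 fun a => tendsto_pi_nhds.2 fun b => hP' a b
    have hd' := (cd.tendsto P').comp hP2
    have hB := pair_lim J g hP1 hP2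
    have key : ∀ η : ℝ, 0 < η → ∀ᶠ k in atTop, ∀ i ∈ Finset.range (σ k + 1),
        ∀ i' ∈ Finset.range (σ k + 1),
          ‖w.2.2 (pt (σ k) i v) - w.2.2 (pt (σ k) i' v')‖ ≤ ‖v - v'‖ + 2 * η - ε := by
      intro η hη
      filter_upwards [near_ev hp hσ hη, mem_ev hp hσ hw.1 hO₁ hv, mem_ev hp hσ hw.1 hO₂ hv']
        with k hk h1 h2 i hi i' hi'
      refine (hw.2.2.2 _ _ (h1 i hi) (h2 i' hi')).trans ?_
      have e : em (pt (σ k) i v) - em (pt (σ k) i' v') =
          (v - v') + ((em (pt (σ k) i v) - v) - (em (pt (σ k) i' v') - v')) := by abel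
      have h3 := norm_add_le (v - v') ((em (pt (σ k) i v) - v) - (em (pt (σ k) i' v') - v'))
      have h4 := norm_sub_le (em (pt (σ k) i v) - v) (em (pt (σ k) i' v') - v')
      have h5 := hk i hi v
      have h6 := hk i' hi' v'
      rw [e]
      linarith
    have main : ∀ η : ℝ, 0 < η → 0 ≤ ‖v - v'‖ + 2 * η - ε ∧
        (g ⬝ᵥ P *ᵥ g) * (g ⬝ᵥ P' *ᵥ g) * (1 - (‖v - v'‖ + 2 * η - ε) ^ 2) ≤
          (P *ᵥ g) ⬝ᵥ J *ᵥ (P' *ᵥ g) := by
      intro η hη
      constructor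
      · obtain ⟨k, hk⟩ := (key η hη).exists
        have h0 : 0 ∈ Finset.range (σ k + 1) := Finset.mem_range.mpr (Nat.succ_pos _)
        exact (norm_nonneg _).trans (hk 0 h0 0 h0)
      · refine le_of_tendsto_of_tendsto ((hd.mul hd').mul_const _) hB ?_
        filter_upwards [key η hη] with k hk
        simp only [Function.comp_apply]
        rw [PJ_eq, PJ_eq]
        refine Q_pair _ _ _ _ _ _ g J _ (fun i => hc _ _) (fun i => hc _ _)
          (fun i => hL.one _) (fun i => hL.one _) fun i hi i' hi' => ?_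
        rw [hL.ip]
        exact sub_le_sub_left (pow_le_pow_left₀ (norm_nonneg _) (hk i hi i' hi') 2) 1
    constructor
    · refine le_of_forall_pos_le_add fun η hη => ?_
      have := (main (η / 2) (half_pos hη)).1
      linarith
    · have c3 : Continuous fun η : ℝ =>
          (g ⬝ᵥ P *ᵥ g) * (g ⬝ᵥ P' *ᵥ g) * (1 - (‖v - v'‖ + 2 * η - ε) ^ 2) := by fun_prop
      have h1 := (c3.tendsto 0).mono_left (nhdsWithin_le_nhds (s := Set.Ioi 0))
      rw [mul_zero, add_zero] at h1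
      refine le_of_tendsto h1 ?_
      filter_upwards [self_mem_nhdsWithin] with η hη
      exact (main η hη).2

end

end Pool.Agent.MP_66cee2_co.D.TX
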