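import Pool.Agent.MP_66cee2_co.D.SpecX

/-! The chain of means of a positive definite function is continuous at generic points. -/

namespace Pool.Agent.MP_66cee2_co.D.TX

open Pool.Agent.MP_66cee2_co.XT (Eu Bd Mean)

namespace XRpdx

variable {d : ℕ}

theorem Rt_other (i j k : Fin d) (c : U1) (v : Fin d → KR) (hi : k ≠ i) (hj : k ≠ j) :
    Rt i j c v k = v k := by
  simp only [Rt, hi, hj, if_false]

theorem Rt_fix (i j : Fin d) (c : U1) (v : Fin d → KR) (hi : v i = 0) (hj : v j = 0) :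
    Rt i j c v = v := by
  funext k
  by_cases h1 : k = i
  · simp only [Rt, h1, hi, hj, if_true, mul_zero, sub_zero]
  · by_cases h2 : k = j
    · subst h2
      simp only [Rt, h1, hi, hj, if_true, if_false, mul_zero, add_zero]
    · exact Rt_other i j k c v h1 h2

theorem mod_of_le {g h : (Fin d → KR) → ℝ} {i : Fin d} (hle : ∀ s, g 0 - g s ≤ h 0 - h s)
    (hm : Mod h i) : Mod g i := fun ε hε => by
  obtain ⟨δ, hδ, H⟩ := hm ε hε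
  exact ⟨δ, hδ, fun q hq => (hle _).trans (H q hq)⟩

theorem mod_mean {M : (U1 → ℝ) → ℝ} (hM : Mean M) {g : (Fin d → KR) → ℝ} {i j k : Fin d}
    (hi : k ≠ i) (hj : k ≠ j) (hm : Mod g k) : Mod (fun v => M fun c => g (Rt i j c v)) k := by
  intro ε hε
  obtain ⟨δ, hδ, H⟩ := hm ε hε
  refine ⟨δ, hδ, fun q hq => ?_⟩
  have e0 : (fun c => g (Rt i j c 0)) = fun _ => g 0 :=
    funext fun c => by rw [Rt_fix i j c 0 rfl rfl]
  have e1 : (fun c => g (Rt i j c (Pi.single k (q : KR)))) = fun _ => g (Pi.single k (q : KR)) :=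
    funext fun c => by
      rw [Rt_fix i j c _ (Pi.single_eq_of_ne hi.symm _) (Pi.single_eq_of_ne hj.symm _)]
  show M (fun c => g (Rt i j c 0)) - M (fun c => g (Rt i j c (Pi.single k (q : KR)))) ≤ ε
  rw [e0, e1, hM.const, hM.const]
  exact H q hq

theorem ch_succ (M : (U1 → ℝ) → ℝ) (φ : (Fin d → KR) → ℝ) (j : ℕ) (hj : j + 1 < d)
    (v : Fin d → KR) :
    Ch M (j + 1) (fun A => φ (A v)) =
      M fun c => Ch M j fun A => φ (A (Rt ⟨j, by omega⟩ ⟨j + 1, hj⟩ c v)) := by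
  have e : ∀ c, Rj j c v = Rt ⟨j, by omega⟩ ⟨j + 1, hj⟩ c v := fun c => dif_pos hj
  show M (fun c => Ch M j fun A => φ (A (Rj j c v))) = _
  simp only [e]

/-- The state of the induction. -/
def St (M : (U1 → ℝ) → ℝ) (φ : (Fin d → KR) → ℝ) (j : ℕ) (hj : j + 1 < d) : Prop :=
  ∃ h : (Fin d → KR) → ℝ, PDr h ∧ (∀ c v, h (Rt ⟨j, by omega⟩ ⟨j + 1, hj⟩ c v) = h v) ∧
    (∀ i : Fin d, i.val < j → Mod h i) ∧
    ∀ v, (∀ i : Fin d, i.val < j → IsQ (v i) ∧ v i ≠ 0) → Ch M (j + 1) (fun A => φ (A v)) = h v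

theorem st_zero (h2 : RowMPD) {M : (U1 → ℝ) → ℝ} (hM : Mean M) {φ : (Fin d → KR) → ℝ}
    (hφ : PDr φ) (hj : 0 + 1 < d) : St M φ 0 hj := by
  have hne : (⟨0, by omega⟩ : Fin d) ≠ ⟨0 + 1, hj⟩ := fun h => by
    have := congrArg Fin.val h
    simp only at this
    omega
  obtain ⟨-, a2, a3⟩ := (h2 M hM).1 d _ _ φ hne hφ
  refine ⟨_, a2, a3, fun i hi => absurd hi (Nat.not_lt_zero _), fun v _ => ?_⟩
  rw [ch_succ M φ 0 hj v]
  rfl

theorem st_succ (h1 : RowSTEP) (h2 : RowMPD) {M : (U1 → ℝ) → ℝ} (hM : Mean M)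
    {φ : (Fin d → KR) → ℝ} {j : ℕ} (hj : j + 1 < d) (hj' : j + 1 + 1 < d) (ih : St M φ j hj) :
    St M φ (j + 1) hj' := by
  obtain ⟨h, b1, b2, b3, b4⟩ := ih
  have ne : ∀ (a b : ℕ) (ha : a < d) (hb : b < d), a ≠ b → (⟨a, ha⟩ : Fin d) ≠ ⟨b, hb⟩ :=
    fun a b ha hb hab h => hab (congrArg Fin.val h)
  have hj0 : j < d := by omega
  have n01 := ne j (j + 1) hj0 hj (by omega)
  have n12 := ne (j + 1) (j + 1 + 1) hj hj' (by omega)
  have n02 := ne j (j + 1 + 1) hj0 hj' (by omega)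
  obtain ⟨g, g1, g2, g3, -, -, g6⟩ := h1 d _ _ h n01 b1 b2
  obtain ⟨a1, a2, a3⟩ := (h2 M hM).1 d _ _ g n12 g1
  have c1 := ((h2 M hM).1 d _ _ h n12 b1).1
  have low : ∀ i : Fin d, i.val < j + 1 → i ≠ ⟨j + 1, hj⟩ ∧ i ≠ ⟨j + 1 + 1, hj'⟩ := fun i hi =>
    ⟨ne i.val _ i.isLt hj (by omega), ne i.val _ i.isLt hj' (by omega)⟩
  refine ⟨_, a2, a3, fun i hi => mod_mean hM (low i hi).1 (low i hi).2 ?_, fun v hv => ?_⟩
  · rcases Nat.lt_succ_iff_lt_or_eq.1 hi with h' | h'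
    · exact mod_of_le g2 (b3 i h')
    · have e : i = ⟨j, hj0⟩ := Fin.ext h'
      rw [e]
      exact g3
  · rw [ch_succ M φ (j + 1) hj' v]
    have e1 : (fun c => Ch M (j + 1) fun A => φ (A (Rt ⟨j + 1, hj⟩ ⟨j + 1 + 1, hj'⟩ c v))) =
        fun c => g (Rt ⟨j + 1, hj⟩ ⟨j + 1 + 1, hj'⟩ c v) +
          (h (Rt ⟨j + 1, hj⟩ ⟨j + 1 + 1, hj'⟩ c v) - g (Rt ⟨j + 1, hj⟩ ⟨j + 1 + 1, hj'⟩ c v)) := by
      funext c
      rw [b4 _ fun i hi => ?_]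
      · ring
      · rw [Rt_other _ _ i c v (low i (by omega)).1 (low i (by omega)).2]
        exact hv i (by omega)
    have bw : Bd fun c => h (Rt ⟨j + 1, hj⟩ ⟨j + 1 + 1, hj'⟩ c v) -
        g (Rt ⟨j + 1, hj⟩ ⟨j + 1 + 1, hj'⟩ c v) :=
      ⟨h 0 + g 0, fun c => (abs_sub _ _).trans (add_le_add (c1 _) (a1 _))⟩
    have e2 : M (fun c => h (Rt ⟨j + 1, hj⟩ ⟨j + 1 + 1, hj'⟩ c v) -
        g (Rt ⟨j + 1, hj⟩ ⟨j + 1 + 1, hj'⟩ c v)) = 0 := by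
      refine (h2 M hM).2.2 _ (2 * h 0) bw fun c₀ S hS => ?_
      have e3 : Rt ⟨j + 1, hj⟩ ⟨j + 1 + 1, hj'⟩ c₀ v ⟨j, hj0⟩ = v ⟨j, hj0⟩ :=
        Rt_other _ _ _ c₀ v n01 n02
      have hv0 := hv ⟨j, hj0⟩ (Nat.lt_succ_self j)
      have := g6 ⟨j + 1 + 1, hj'⟩ n02.symm n12.symm (Rt ⟨j + 1, hj⟩ ⟨j + 1 + 1, hj'⟩ c₀ v)
        (by rw [e3]; exact hv0.1) (by rw [e3]; exact hv0.2) S hS
      refine le_trans (le_of_eq (Finset.sum_congr rfl fun c _ => ?_)) this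
      rw [(h2 M hM).2.1 d _ _ c c₀ v n12]
    rw [e1, hM.add _ _ ⟨g 0, fun c => a1 _⟩ bw, e2, add_zero]

theorem st_all (h1 : RowSTEP) (h2 : RowMPD) {M : (U1 → ℝ) → ℝ} (hM : Mean M)
    {φ : (Fin d → KR) → ℝ} (hφ : PDr φ) (j : ℕ) : ∀ hj : j + 1 < d, St M φ j hj := by
  induction j with
  | zero => exact st_zero h2 hM hφ
  | succ j ih => exact fun hj => st_succ h1 h2 hM (by omega) hj (ih _)

end XRpdx

theorem rowRPD : RowSTEP → RowMPD → RowEXT → RowRPD := by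
  intro h1 h2 h3 d M φ hd hM hφ
  obtain ⟨j, rfl⟩ : ∃ j, d = j + 2 := ⟨d - 2, by omega⟩
  have hj : j + 1 < j + 2 := by omega
  have hj0 : j < j + 2 := by omega
  obtain ⟨h, b1, b2, b3, b4⟩ := XRpdx.st_all h1 h2 hM hφ j hj
  have n01 : (⟨j, hj0⟩ : Fin (j + 2)) ≠ ⟨j + 1, hj⟩ := fun h => by
    have := congrArg Fin.val h
    simp only at this
    omega
  obtain ⟨g, g1, g2, g3, g4, g5, -⟩ := h1 _ _ _ h n01 b1 b2
  have hm : ∀ i, Mod g i := by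
    intro i
    have hi := i.isLt
    rcases (by omega : i.val < j ∨ i.val = j ∨ i.val = j + 1) with h' | h' | h'
    · exact XRpdx.mod_of_le g2 (b3 i h')
    · have e : i = ⟨j, hj0⟩ := Fin.ext h'
      rw [e]
      exact g3
    · have e : i = ⟨j + 1, hj⟩ := Fin.ext h'
      rw [e]
      exact g4
  obtain ⟨ψ, hψ, H⟩ := h3 _ g g1 hm
  refine ⟨ψ, hψ, fun z hz => ?_⟩
  have hq : ∀ i, IsQ (qK z i) ∧ qK z i ≠ 0 := fun i =>
    ⟨⟨z i, rfl⟩, Rat.cast_ne_zero.2 (hz i)⟩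
  rw [← H z, g5 _ (hq _).1 (hq _).1 (hq _).2]
  exact b4 _ fun i _ => hq i

end Pool.Agent.MP_66cee2_co.D.TX
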