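import Pool.Agent.MP_66cee2_co.D.SpecX

/-! The average of a functional over the two signs. -/

namespace Pool.Agent.MP_66cee2_co.D.TX

open Pool.Agent.MP_66cee2_co.XT (Eu Bd)

namespace XSgnx

variable {d n : ℕ}

theorem mv_mv (a b : Fin d → ℚ) (l k : ℚ) (w : Om d n) :
    mv a l (mv b k w) = mv (b + k • a) (k * l) w := by
  refine Prod.ext (ps_mv b a k w) (Prod.ext ?_ ?_)
  · funext i j
    simp only [mv]
    push_cast
    ring
  · funext z
    simp only [mv, smul_add, smul_smul, add_assoc]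

theorem fst_sg (w : Om d n) : (mv 0 (-1) w).1 = w.1 := by
  simp only [mv, em_zero, ps_zero]

theorem cl_sg {φ : Om d n → ℝ} (h : Cl φ) : Cl fun w => φ (mv 0 (-1) w) := by
  obtain ⟨B, R, h⟩ := h
  exact ⟨B, R, fun w => ⟨(h _).1, fun hw => (h _).2 (by rwa [fst_sg])⟩⟩

theorem mv_a (a : Fin d → ℚ) (w : Om d n) : mv a 1 (mv 0 (-1) w) = mv 0 (-1) (mv (-a) 1 w) := by
  rw [mv_mv, mv_mv]
  simp

theorem mv_b (a : Fin d → ℚ) (w : Om d n) : mv a (-1) w = mv 0 (-1) (mv a 1 w) := by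
  rw [mv_mv]
  simp

theorem mv_c (a : Fin d → ℚ) (w : Om d n) : mv a (-1) (mv 0 (-1) w) = mv (-a) 1 w := by
  rw [mv_mv]
  simp

end XSgnx

open XSgnx

theorem rowSGN : RowXS → RowSGN := by
  intro hX d n C ε O₁ O₂ Λ h1 h2 hF hI
  have hS : ∀ w : Om d n, w ∈ XS C ε O₁ O₂ → mv 0 (-1) w ∈ XS C ε O₁ O₂ := fun w hw =>
    (((hX d n C ε O₁ O₂ h1 h2).2.2 0 (-1) un_neg_one).2 w hw).1
  refine ⟨fun φ => (Λ φ + Λ fun w => φ (mv 0 (-1) w)) / 2, ⟨?_, ?_, ?_, ?_, ?_, ?_⟩, ?_⟩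
  · intro φ ψ hφ hψ
    have e1 := hF.add φ ψ hφ hψ
    have e2 := hF.add _ _ (cl_sg hφ) (cl_sg hψ)
    simp only at e2 ⊢
    rw [e1, e2]
    ring
  · intro c φ hφ
    have e1 := hF.smul c φ hφ
    have e2 := hF.smul c _ (cl_sg hφ)
    simp only at e2 ⊢
    rw [e1, e2]
    ring
  · intro φ hφ h0
    have e1 := hF.pos φ hφ h0
    have e2 := hF.pos _ (cl_sg hφ) fun w => h0 _
    linarith
  · intro φ ψ h
    have e1 := hF.congr φ ψ h
    have e2 := hF.congr (fun w => φ (mv 0 (-1) w)) (fun w => ψ (mv 0 (-1) w))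
      fun w hw => h _ (hS w hw)
    rw [e1, e2]
  · obtain ⟨R, hR⟩ := hF.ne
    refine ⟨R, fun φ hφ h0 h => ?_⟩
    have e1 := hR φ hφ h0 h
    have e2 := hR _ (cl_sg hφ) (fun w => h0 _) fun w hw hr => h _ (hS w hw) (by rwa [fst_sg])
    linarith
  · intro ξ hξ hR
    obtain ⟨ψ, hψ, h⟩ := hF.cor ξ hξ hR
    refine ⟨fun v => (ψ v + ψ (-v)) / 2, by fun_prop, fun z hz => ?_⟩
    have e1 := h z hz
    have e2 := h (-z) fun k => neg_ne_zero.2 (hz k)
    have e3 : em (-z) = -em z := by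
      ext j
      simp
    simp only [ev_mv, smul_zero, add_zero, zero_add, neg_smul, one_smul]
    rw [e1, e2, e3]
  · rintro φ a l hφ (rfl | rfl)
    · have e1 := hI φ a 1 hφ rfl
      have e2 := hI _ (-a) 1 (cl_sg hφ) rfl
      simp only [mv_a]
      rw [e1, e2]
    · have e1 := hI φ (-a) 1 hφ rfl
      have e2 := hI _ a 1 (cl_sg hφ) rfl
      simp only [mv_c]
      rw [e1, ← e2, add_comm]
      simp only [← mv_b]

end Pool.Agent.MP_66cee2_co.D.TX
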