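import Pool.Agent.MP_66cee2_co.XR.All

/-
One step of the chain of means: positive definite functions invariant under the rotations of one
plane split into a part that is continuous along the plane and a part that dies in the next mean.
-/

namespace Pool.Agent.MP_66cee2_co.D.H84

open MeasureTheory Set Filter Complex Pool.Agent.MP_66cee2_co.X
open scoped ENNReal NNReal ComplexConjugate ComplexOrder

variable {A : Type} [AddCommGroup A]

/-- the Gaussian rationals inside the algebraic numbers. -/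
noncomputable abbrev inc : kk →+* KK := Subfield.inclusion kk_le_KK

/-- the restriction of a character to a line over the Gaussian rationals. -/
noncomputable def lnk (ι : KK →+ A) (l : KK) (x : A → T) : kk → T := fun u => x (ι (l * inc u))

/-- the characters that are continuous on the line through `l`. -/
def Eg (ι : KK →+ A) (l : KK) : Set (A → T) := lnk ι l ⁻¹' Xc

/-- the action of a rotation on functions. -/
def rt (R : KK → A →+ A) (c : KK) (x : A → T) : A → T := fun v => x (R c v)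

theorem meas_lnk (ι : KK →+ A) (l : KK) : Measurable (lnk ι l) :=
  measurable_pi_lambda _ fun _ => measurable_pi_apply _

theorem meas_rt (R : KK → A →+ A) (c : KK) : Measurable (rt R c) :=
  measurable_pi_lambda _ fun _ => measurable_pi_apply _

theorem meas_Eg (ι : KK →+ A) (l : KK) : MeasurableSet (Eg ι l) :=
  meas_lnk ι l measurableSet_Xc

theorem char_lnk (ι : KK →+ A) (l : KK) {x : A → T} (h : IsChar x) : IsChar (lnk ι l x) :=
  fun a b => by simp only [lnk, map_add, mul_add, h _ _]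

theorem norm_inc (u : kk) : ‖((inc u : KK) : ℂ)‖ = ‖(u : ℂ)‖ := rfl

theorem Xc_act (l : kk) {x : kk → T} (h : x ∈ Xc) : act l x ∈ Xc := by
  obtain ⟨y, hy⟩ := h
  exact ⟨y * l, fun z => (hy (l * z)).trans (ee_mul y l z)⟩

theorem Xc_add {x x' : kk → T} (h : x ∈ Xc) (h' : x' ∈ Xc) : x + x' ∈ Xc := by
  obtain ⟨y, hy⟩ := mem_Xc.1 h
  obtain ⟨y', hy'⟩ := mem_Xc.1 h'
  exact mem_Xc.2 ⟨y + y', fun z => by rw [Pi.add_apply, hy, hy', ee_add_left]⟩

theorem lnk_mul (ι : KK →+ A) (l : KK) (u : kk) (x : A → T) :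
    lnk ι (inc u * l) x = act u (lnk ι l x) := by
  funext z
  simp only [lnk, act, map_mul]
  rw [mul_comm (inc u) l, mul_assoc]

theorem lnk_rt {ι : KK →+ A} {R : KK → A →+ A}
    (hR : ∀ c z : KK, ‖(c : ℂ)‖ = 1 → R c (ι z) = ι (c * z)) (l : KK) (u : kk)
    (hu : ‖(u : ℂ)‖ = 1) (x : A → T) : lnk ι l (rt R (inc u) x) = act u (lnk ι l x) := by
  funext z
  simp only [lnk, act, rt, map_mul]
  rw [hR _ _ hu, mul_left_comm]

theorem Eg_rt {ι : KK →+ A} {R : KK → A →+ A}
    (hR : ∀ c z : KK, ‖(c : ℂ)‖ = 1 → R c (ι z) = ι (c * z)) (l : KK) (u : kk)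
    (hu : ‖(u : ℂ)‖ = 1) (x : A → T) : rt R (inc u) x ∈ Eg ι l ↔ x ∈ Eg ι l := by
  have h0 : u ≠ 0 := by rintro rfl; simp at hu
  simp only [Eg, mem_preimage, lnk_rt hR l u hu, rpd_Xc_act h0]

theorem pd_int [Countable A] (ν : Measure (A → T)) [IsFiniteMeasure ν] (hc : ∀ᵐ x ∂ν, IsChar x) :
    PD fun v => ∫ x, ch (x v) ∂ν := by
  intro S c
  have ii : ∀ v, Integrable (fun x : A → T => ch (x v)) ν := fun v =>
    Integrable.of_bound (rpd_meas_ch v).aestronglyMeasurable 1
      (.of_forall fun x => (norm_ch _).le)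
  have e : ∑ a ∈ S, ∑ b ∈ S, conj (c a) * c b * ∫ x, ch (x (b - a)) ∂ν =
      ∫ x, ∑ a ∈ S, ∑ b ∈ S, conj (c a) * c b * ch (x (b - a)) ∂ν := by
    rw [integral_finsetSum _ fun a _ => integrable_finsetSum _ fun b _ => (ii _).const_mul _]
    refine Finset.sum_congr rfl fun a _ => ?_
    rw [integral_finsetSum _ fun b _ => (ii _).const_mul _]
    exact Finset.sum_congr rfl fun b _ => (integral_const_mul _ _).symm
  have e2 : ∫ x, ∑ a ∈ S, ∑ b ∈ S, conj (c a) * c b * ch (x (b - a)) ∂ν =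
      ∫ x, ((normSq (∑ b ∈ S, c b * ch (x b)) : ℝ) : ℂ) ∂ν := by
    refine integral_congr_ae (hc.mono fun x hx => ?_)
    change _ = ((normSq (∑ b ∈ S, c b * ch (x b)) : ℝ) : ℂ)
    rw [normSq_eq_conj_mul_self, map_sum, Finset.sum_mul_sum]
    refine Finset.sum_congr rfl fun a _ => Finset.sum_congr rfl fun b _ => ?_
    rw [hx.map_sub, sub_eq_add_neg, ch_add, herg_ch_neg, map_mul]
    ring
  rw [e, e2, integral_complex_ofReal]
  exact Complex.zero_le_real.2 (integral_nonneg fun x => normSq_nonneg _)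

section key

variable [Countable A] {ι : KK →+ A} {R : KK → A →+ A}
  (hR : ∀ c z : KK, ‖(c : ℂ)‖ = 1 → R c (ι z) = ι (c * z))
  (μ : Measure (A → T)) [IsFiniteMeasure μ] (hc : ∀ᵐ x ∂μ, IsChar x)
  (hi : ∀ c : KK, ‖(c : ℂ)‖ = 1 → MeasurePreserving (rt R c) μ μ)
include hR hc hi

omit [Countable A] in
theorem light (l : KK) : μ (lnk ι l ⁻¹' (X0 ∩ Xcᶜ)) = 0 := by
  let p : (A → T) → KK → T := fun x z => x (ι (l * z))
  have hp : Measurable p := measurable_pi_lambda _ fun _ => measurable_pi_apply _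
  have hc' : ∀ᵐ x ∂μ.map p, IsChar x :=
    (ae_map_iff hp.aemeasurable measurableSet_isChar).2
      (hc.mono fun x h a b => by simp only [p, map_add, mul_add, h _ _])
  have hi' : Inv (μ.map p) := by
    intro c hc1
    refine ⟨measurable_act c, ?_⟩
    rw [Measure.map_map (measurable_act c) hp]
    have e2 : act c ∘ p = p ∘ rt R c := by
      funext x z
      simp only [Function.comp_apply, act, p, rt]
      rw [hR _ _ hc1, mul_left_comm]
    rw [e2, ← Measure.map_map hp (meas_rt R c), (hi c hc1).map_eq]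
  have h := sLightAll _ hc' hi'
  have hm : MeasurableSet {x : KK → T | res x ∈ X0 ∧ res x ∉ Xc} :=
    measurable_res (sQ.1.inter measurableSet_Xc.compl)
  rw [Measure.map_apply hp hm] at h
  exact h

omit [Countable A] in
theorem keyW (l : KK) (f : (A → T) → ℝ≥0) (hf : Measurable f) (hb : ∀ x, f x ≤ 2)
    (hinv : ∀ u : kk, ‖(u : ℂ)‖ = 1 → ∀ x, f (rt R (inc u) x) = f x)
    (h0 : ∀ x ∈ Eg ι l, f x = 0) : ∫ x, f x • ch (x (ι l)) ∂μ = 0 := by
  have hfe : Measurable fun x => (f x : ℝ≥0∞) := hf.coe_nnreal_ennreal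
  set ν := μ.withDensity fun x => (f x : ℝ≥0∞) with hν
  have hfin : IsFiniteMeasure ν :=
    isFiniteMeasure_withDensity (ne_top_of_le_ne_top
      (b := ∫⁻ _, (2 : ℝ≥0∞) ∂μ) (by simp [ENNReal.mul_eq_top])
      (lintegral_mono fun x => ENNReal.coe_le_coe.2 (hb x)))
  have hac : ν ≪ μ := withDensity_absolutelyContinuous μ _
  have hc' : ∀ᵐ x ∂ν.map (lnk ι l), IsChar x :=
    (ae_map_iff (meas_lnk ι l).aemeasurable measurableSet_isChar).2
      (Filter.Eventually.mono (hac.ae_le hc : ∀ᵐ x ∂ν, IsChar x) fun x h => char_lnk ι l h)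
  have hi' : Inv (ν.map (lnk ι l)) := by
    intro u hu
    have e1 : ν.map (rt R (inc u)) = ν := by
      ext s hs
      rw [Measure.map_apply (meas_rt _ _) hs, hν, withDensity_apply _ hs,
        withDensity_apply _ (meas_rt _ _ hs),
        ← (hi (inc u) hu).setLIntegral_comp_preimage hs hfe]
      simp only [hinv u hu]
    refine ⟨measurable_act u, ?_⟩
    rw [Measure.map_map (measurable_act u) (meas_lnk ι l)]
    have e2 : act u ∘ lnk ι l = lnk ι l ∘ rt R (inc u) := by
      funext x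
      exact (lnk_rt hR l u hu x).symm
    rw [e2, ← Measure.map_map (meas_lnk ι l) (meas_rt R _), e1]
  have hE : ν (Eg ι l) = 0 := by
    rw [hν, withDensity_apply _ (meas_Eg ι l)]
    refine (setLIntegral_congr_fun (meas_Eg ι l) (g := fun _ => 0) fun x hx => ?_).trans (by simp)
    simp [h0 x hx]
  have hX : ν.map (lnk ι l) X0 = 0 := by
    rw [Measure.map_apply (meas_lnk ι l) sQ.1]
    refine measure_mono_null (t := Eg ι l ∪ lnk ι l ⁻¹' (X0 ∩ Xcᶜ)) (fun x hx => ?_)
      (measure_union_null hE (hac (light hR μ hc hi l)))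
    by_cases h : x ∈ Eg ι l
    · exact Or.inl h
    · exact Or.inr ⟨hx, h⟩
  have e := sHAll _ hc' hi' hX 1 one_ne_zero
  rw [integral_map (meas_lnk ι l).aemeasurable (rpd_meas_ch (1 : kk)).aestronglyMeasurable,
    hν, integral_withDensity_eq_integral_smul hf] at e
  simpa only [lnk, map_one, mul_one] using e

omit [Countable A] in
theorem keyR (l : KK) (B : Set (A → T)) (hB : MeasurableSet B)
    (hBi : ∀ u : kk, ‖(u : ℂ)‖ = 1 → ∀ x, rt R (inc u) x ∈ B ↔ x ∈ B)
    (hBE : ∀ x ∈ B, x ∉ Eg ι l) (g : (A → T) → ℝ) (hg : Measurable g) (hb : ∀ x, |g x| ≤ 1)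
    (hinv : ∀ u : kk, ‖(u : ℂ)‖ = 1 → ∀ x, g (rt R (inc u) x) = g x) :
    ∫ x in B, (g x : ℂ) * ch (x (ι l)) ∂μ = 0 := by
  classical
  have main : ∀ g : (A → T) → ℝ, Measurable g → (∀ x, |g x| ≤ 1) →
      (∀ u : kk, ‖(u : ℂ)‖ = 1 → ∀ x, g (rt R (inc u) x) = g x) →
      ∫ x in B, ((g x : ℂ) + 1) * ch (x (ι l)) ∂μ = 0 := by
    intro g hg hb hinv
    have e := keyW hR μ hc hi l (B.indicator fun x => (g x + 1).toNNReal)
      ((hg.add_const 1).real_toNNReal.indicator hB) (fun x => by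
        by_cases h : x ∈ B
        · rw [indicator_of_mem h, Real.toNNReal_le_iff_le_coe]
          have := (abs_le.1 (hb x)).2
          push_cast
          linarith
        · rw [indicator_of_notMem h]; exact zero_le_two)
      (fun u hu x => by simp only [indicator_apply, hBi u hu, hinv u hu])
      fun x hx => indicator_of_notMem (fun h => hBE x h hx) _
    rw [← integral_indicator hB, ← e]
    refine integral_congr_ae (.of_forall fun x => ?_)
    by_cases h : x ∈ B
    · have : 0 ≤ g x + 1 := by linarith [(abs_le.1 (hb x)).1]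
      simp only [indicator_of_mem h]
      rw [NNReal.smul_def, Real.coe_toNNReal _ this, Complex.real_smul]
      push_cast
      ring
    · simp only [indicator_of_notMem h, zero_smul]
  have e1 := main g hg hb hinv
  have e0 := main (fun _ => 0) measurable_const (by simp) (by simp)
  have i0 : Integrable (fun x : A → T => ch (x (ι l))) (μ.restrict B) :=
    Integrable.of_bound (rpd_meas_ch _).aestronglyMeasurable 1
      (.of_forall fun x => (norm_ch _).le)
  have i1 : Integrable (fun x : A → T => (g x : ℂ) * ch (x (ι l))) (μ.restrict B) :=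
    i0.bdd_mul (c := 1) (Complex.measurable_ofReal.comp hg).aestronglyMeasurable
      (.of_forall fun x => by simpa using hb x)
  simp only [add_mul, one_mul, ofReal_zero, zero_add] at e1 e0
  rwa [integral_add i1 i0, e0, add_zero] at e1

omit [Countable A] in
theorem keyC (l : KK) (B : Set (A → T)) (hB : MeasurableSet B)
    (hBi : ∀ u : kk, ‖(u : ℂ)‖ = 1 → ∀ x, rt R (inc u) x ∈ B ↔ x ∈ B)
    (hBE : ∀ x ∈ B, x ∉ Eg ι l) (r : A) (hr : ∀ c : KK, ‖(c : ℂ)‖ = 1 → R c r = r) :
    ∫ x in B, ch (x (ι l + r)) ∂μ = 0 := by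
  have b1 : ∀ x : A → T, |(ch (x r)).re| ≤ 1 := fun x =>
    (Complex.abs_re_le_norm _).trans (norm_ch _).le
  have b2 : ∀ x : A → T, |(ch (x r)).im| ≤ 1 := fun x =>
    (Complex.abs_im_le_norm _).trans (norm_ch _).le
  have m1 : Measurable fun x : A → T => (ch (x r)).re := Complex.measurable_re.comp (rpd_meas_ch r)
  have m2 : Measurable fun x : A → T => (ch (x r)).im := Complex.measurable_im.comp (rpd_meas_ch r)
  have e1 := keyR hR μ hc hi l B hB hBi hBE _ m1 b1 fun u hu x => by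
    simp only [rt, hr (inc u) hu]
  have e2 := keyR hR μ hc hi l B hB hBi hBE _ m2 b2 fun u hu x => by
    simp only [rt, hr (inc u) hu]
  have i0 : Integrable (fun x : A → T => ch (x (ι l))) (μ.restrict B) :=
    Integrable.of_bound (rpd_meas_ch _).aestronglyMeasurable 1
      (.of_forall fun x => (norm_ch _).le)
  have i1 : Integrable (fun x : A → T => (((ch (x r)).re : ℝ) : ℂ) * ch (x (ι l)))
      (μ.restrict B) :=
    i0.bdd_mul (c := 1) (Complex.measurable_ofReal.comp m1).aestronglyMeasurable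
      (.of_forall fun x => by simpa using b1 x)
  have i2 : Integrable (fun x : A → T => (((ch (x r)).im : ℝ) : ℂ) * ch (x (ι l)))
      (μ.restrict B) :=
    i0.bdd_mul (c := 1) (Complex.measurable_ofReal.comp m2).aestronglyMeasurable
      (.of_forall fun x => by simpa using b2 x)
  have e3 : ∫ x in B, ch (x (ι l + r)) ∂μ =
      ∫ x in B, (((ch (x r)).re : ℝ) : ℂ) * ch (x (ι l)) +
        I * ((((ch (x r)).im : ℝ) : ℂ) * ch (x (ι l))) ∂μ := by
    refine integral_congr_ae ((ae_restrict_of_ae hc).mono fun x hx => ?_)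
    change ch (x (ι l + r)) = _
    rw [hx, ch_add]
    conv_lhs => rw [← Complex.re_add_im (ch (x r))]
    ring
  rw [e3, integral_add i1 (i2.const_mul I), integral_const_mul, e1, e2, mul_zero, add_zero]

end key

theorem mem_one {ι : KK →+ A} {x : A → T} (hx : IsChar x) {l₁ l₂ l₃ : KK} {a b c : kk}
    (h : inc a * l₁ + inc b * l₂ + inc c * l₃ = 1) (h₁ : x ∈ Eg ι l₁) (h₂ : x ∈ Eg ι l₂)
    (h₃ : x ∈ Eg ι l₃) : x ∈ Eg ι 1 := by
  have e : lnk ι 1 x = act a (lnk ι l₁ x) + act b (lnk ι l₂ x) + act c (lnk ι l₃ x) := by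
    rw [← lnk_mul, ← lnk_mul, ← lnk_mul, ← h]
    funext z
    simp only [lnk, Pi.add_apply, add_mul, map_add, hx _ _]
  change lnk ι 1 x ∈ Xc
  rw [e]
  exact Xc_add (Xc_add (Xc_act a h₁) (Xc_act b h₂)) (Xc_act c h₃)

/-- the step. -/
theorem step [Countable A] (ι : KK →+ A) (R : KK → A →+ A)
    (hR : ∀ c z : KK, ‖(c : ℂ)‖ = 1 → R c (ι z) = ι (c * z)) (φ : A → ℂ) (hφ : PD φ)
    (hinv : ∀ c : KK, ‖(c : ℂ)‖ = 1 → ∀ v, φ (R c v) = φ v) :
    ∃ g w : A → ℂ, (∀ v, φ v = g v + w v) ∧ PD g ∧ PD w ∧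
      (∃ ψ : ℂ → ℂ, Continuous ψ ∧ ∀ u : kk, g (ι (inc u)) = ψ u) ∧
      (∀ (u : kk) (r : A), u ≠ 0 → (∀ c : KK, ‖(c : ℂ)‖ = 1 → R c r = r) →
        w (ι (inc u) + r) = 0) ∧
      ∀ (σ : Type) (s : Finset σ) (l : σ → KK) (r : σ → A),
        (∀ i ∈ s, ∀ c : KK, ‖(c : ℂ)‖ = 1 → R c (r i) = r i) →
        (∀ i ∈ s, ∀ j ∈ s, ∀ k ∈ s, i ≠ j → i ≠ k → j ≠ k →
          ∃ a b c : kk, inc a * l i + inc b * l j + inc c * l k = 1) →
        ∑ i ∈ s, ‖w (ι (l i) + r i)‖ ≤ 2 * (φ 0).re := by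
  classical
  obtain ⟨μ, hfin, hc, hμ⟩ := sHerg _ φ hφ
  have hi : ∀ c : KK, ‖(c : ℂ)‖ = 1 → MeasurePreserving (rt R c) μ μ := by
    intro c h1
    refine ⟨meas_rt _ _, sUniq _ _ _ ?_ hc fun a => ?_⟩
    · exact (ae_map_iff (meas_rt _ _).aemeasurable measurableSet_isChar).2
        (hc.mono fun x h a b => by simp only [rt, map_add, h _ _])
    · rw [integral_map (meas_rt _ _).aemeasurable (rpd_meas_ch a).aestronglyMeasurable, ← hμ,
        ← hinv c h1 a, hμ]
      rfl
  have ii : ∀ v, Integrable (fun x : A → T => ch (x v)) μ := fun v =>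
    Integrable.of_bound (rpd_meas_ch v).aestronglyMeasurable 1
      (.of_forall fun x => (norm_ch _).le)
  have hE := meas_Eg ι 1
  have hw : ∀ (l : KK) (r : A), (∀ c : KK, ‖(c : ℂ)‖ = 1 → R c r = r) →
      ‖∫ x in (Eg ι 1)ᶜ, ch (x (ι l + r)) ∂μ‖ ≤ μ.real ((Eg ι 1)ᶜ ∩ Eg ι l) := by
    intro l r hr
    have e0 := keyC hR μ hc hi l ((Eg ι 1)ᶜ \ Eg ι l) (hE.compl.diff (meas_Eg ι l))
      (fun u hu x => by simp only [Set.mem_sdiff, mem_compl_iff, Eg_rt hR _ u hu]) (fun x hx => hx.2)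
      r hr
    rw [← integral_inter_add_sdiff (meas_Eg ι l) (ii _).integrableOn, e0, add_zero]
    have := norm_setIntegral_le_of_norm_le_const (μ := μ) (s := (Eg ι 1)ᶜ ∩ Eg ι l)
      (f := fun x => ch (x (ι l + r))) (C := 1) (measure_lt_top _ _) fun x _ => (norm_ch _).le
    simpa using this
  refine ⟨fun v => ∫ x in Eg ι 1, ch (x v) ∂μ, fun v => ∫ x in (Eg ι 1)ᶜ, ch (x v) ∂μ,
    fun v => ?_, pd_int _ (ae_restrict_of_ae hc), pd_int _ (ae_restrict_of_ae hc), ?_,
    fun u r hu hr => ?_, fun σ s l r hr h3 => ?_⟩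
  · rw [hμ, integral_add_compl hE (ii v)]
  · refine ⟨fun z => ∫ x in Eg ι 1, ch (((Ysel (lnk ι 1 x) * z).re : ℝ) : T) ∂μ, ?_,
      fun u => ?_⟩
    · refine continuous_of_dominated (bound := fun _ => 1) (fun z => ?_) (fun z => ?_)
        (integrable_const _) (.of_forall fun x => ?_)
      · exact (continuous_ch.measurable.comp ((AddCircle.continuous_mk' 1).measurable.comp
          (Complex.measurable_re.comp
            ((measurable_Ysel.comp (meas_lnk ι 1)).mul_const z)))).aestronglyMeasurable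
      · exact .of_forall fun x => (norm_ch _).le
      · exact continuous_ch.comp ((AddCircle.continuous_mk' 1).comp (by fun_prop))
    · refine setIntegral_congr_fun hE fun x hx => ?_
      have := Ysel_spec (x := lnk ι 1 x) hx u
      simp only [lnk, one_mul] at this
      change ch (x (ι (inc u))) = _
      rw [this]
      rfl
  · have e : (Eg ι 1)ᶜ ∩ Eg ι (inc u) = ∅ := by
      ext x
      have := lnk_mul ι 1 u x
      rw [mul_one] at this
      simp only [Eg, mem_inter_iff, mem_compl_iff, mem_preimage, this, rpd_Xc_act hu,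
        not_and_self_iff, mem_empty_iff_false]
    have := hw (inc u) r hr
    rw [e, measureReal_empty] at this
    exact norm_le_zero_iff.1 this
  · refine (Finset.sum_le_sum fun i hi => hw (l i) (r i) (hr i hi)).trans ?_
    have hm : ∀ i, MeasurableSet ((Eg ι 1)ᶜ ∩ Eg ι (l i)) := fun i => hE.compl.inter (meas_Eg _ _)
    have e0 : (φ 0).re = μ.real univ := by
      rw [hμ, integral_congr_ae (g := fun _ => (1 : ℂ))
        (hc.mono fun x hx => by simp only [hx.map_zero, ch_zero])]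
      simp
    have e1 : ∑ i ∈ s, μ.real ((Eg ι 1)ᶜ ∩ Eg ι (l i)) =
        ∫ x, ∑ i ∈ s, ((Eg ι 1)ᶜ ∩ Eg ι (l i)).indicator (fun _ => (1 : ℝ)) x ∂μ := by
      rw [integral_finsetSum _ fun i _ => (integrable_const _).indicator (hm i)]
      exact Finset.sum_congr rfl fun i _ => by rw [integral_indicator (hm i)]; simp
    have e2 : 2 * μ.real univ = ∫ _, (2 : ℝ) ∂μ := by simp [mul_comm]
    rw [e0, e1, e2]
    refine integral_mono_ae
      (integrable_finsetSum _ fun i _ => (integrable_const _).indicator (hm i))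
      (integrable_const _) (hc.mono fun x hx => ?_)
    change ∑ i ∈ s, ((Eg ι 1)ᶜ ∩ Eg ι (l i)).indicator (fun _ => (1 : ℝ)) x ≤ 2
    simp only [indicator_apply]
    rw [Finset.sum_boole]
    have : (s.filter fun i => x ∈ (Eg ι 1)ᶜ ∩ Eg ι (l i)).card ≤ 2 := by
      by_contra hlt
      obtain ⟨i, j, k, h1, h2, h3', n1, n2, n3⟩ := Finset.two_lt_card_iff.1 (not_le.1 hlt)
      rw [Finset.mem_filter] at h1 h2 h3'
      obtain ⟨a, b, c, e⟩ := h3 i h1.1 j h2.1 k h3'.1 n1 n2 n3
      exact h1.2.1 (mem_one hx e h1.2.2 h2.2.2 h3'.2.2)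
    exact_mod_cast this

end Pool.Agent.MP_66cee2_co.D.H84
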