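import Pool.Agent.MP_66cee2_co.D.SpecX
import Pool.Agent.MP_66cee2_co.D.H84Step

/-! Row STEP: one step of the chain of means in coordinates. -/

namespace Pool.Agent.MP_66cee2_co.D.TX

open MeasureTheory Filter Topology Complex Pool.Agent.MP_66cee2_co.X
open scoped ComplexConjugate ComplexOrder

noncomputable section

namespace XStepx

theorem mem_KR {t : ℝ} : t ∈ KR ↔ (t : ℂ) ∈ KK := by
  change t ∈ algebraicClosure ℚ ℝ ↔ (t : ℂ) ∈ algebraicClosure ℚ ℂ
  rw [mem_algebraicClosure_iff, mem_algebraicClosure_iff]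
  exact (isAlgebraic_algebraMap_iff (R := ℚ) (S := ℝ) (A := ℂ) Complex.ofReal_injective).symm

theorem I_mem : (I : ℂ) ∈ KK := kk_le_KK ⟨⟨0, by simp⟩, 1, by simp⟩

theorem conj_mem {z : ℂ} (h : z ∈ KK) : conj z ∈ KK := by
  have h1 : IsAlgebraic ℚ z := mem_algebraicClosure_iff.1 h
  have h2 := h1.algHom ((starRingEnd ℂ).toRatAlgHom)
  exact mem_algebraicClosure_iff.2 h2

theorem re_mem (z : KK) : (z : ℂ).re ∈ KR := by
  rw [mem_KR, Complex.re_eq_add_conj]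
  exact div_mem (add_mem z.2 (conj_mem z.2)) (ofNat_mem _ 2)

theorem im_mem (z : KK) : (z : ℂ).im ∈ KR := by
  rw [mem_KR, Complex.im_eq_sub_conj]
  exact div_mem (sub_mem z.2 (conj_mem z.2)) (mul_mem (ofNat_mem _ 2) I_mem)

/-- real part. -/
def reK (z : KK) : KR := ⟨_, re_mem z⟩

/-- imaginary part. -/
def imK (z : KK) : KR := ⟨_, im_mem z⟩

/-- the number with given parts. -/
def cK (a b : KR) : KK :=
  ⟨(a : ℝ) + (b : ℝ) * I, add_mem (mem_KR.1 a.2) (mul_mem (mem_KR.1 b.2) I_mem)⟩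

theorem reK_cK (a b : KR) : reK (cK a b) = a := Subtype.ext (by simp [reK, cK])

theorem imK_cK (a b : KR) : imK (cK a b) = b := Subtype.ext (by simp [imK, cK])

theorem reK_add (z w : KK) : reK (z + w) = reK z + reK w := Subtype.ext (by simp [reK])

theorem imK_add (z w : KK) : imK (z + w) = imK z + imK w := Subtype.ext (by simp [imK])

theorem reK_mul (z w : KK) : reK (z * w) = reK z * reK w - imK z * imK w :=
  Subtype.ext (by simp [reK, imK])

theorem imK_mul (z w : KK) : imK (z * w) = imK z * reK w + reK z * imK w :=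
  Subtype.ext (by simp [reK, imK, add_comm])

theorem sq_one {c : KK} (h : ‖(c : ℂ)‖ = 1) : reK c ^ 2 + imK c ^ 2 = 1 := by
  have h1 := Complex.sq_norm (c : ℂ)
  rw [h, normSq_apply] at h1
  refine Subtype.ext ?_
  simp only [reK, imK, Subfield.coe_add, SubmonoidClass.coe_pow, Subfield.coe_one]
  linarith

variable {d : ℕ}

/-- the plane. -/
def io (i j : Fin d) : KK →+ (Fin d → KR) :=
  AddMonoidHom.mk' (fun z k => if k = i then reK z else if k = j then imK z else 0) fun z w => by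
    funext k
    simp only [Pi.add_apply, reK_add, imK_add]
    split_ifs <;> simp

/-- the rotations. -/
def Ro (i j : Fin d) (c : KK) : (Fin d → KR) →+ (Fin d → KR) :=
  AddMonoidHom.mk' (fun v k => if k = i then reK c * v i - imK c * v j else
    if k = j then imK c * v i + reK c * v j else v k) fun z w => by
    funext k
    simp only [Pi.add_apply]
    split_ifs <;> ring

/-- the rest. -/
def rs (i j : Fin d) (v : Fin d → KR) : Fin d → KR :=
  fun k => if k = i then 0 else if k = j then 0 else v k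

theorem io_apply (i j : Fin d) (z : KK) (k : Fin d) :
    io i j z k = if k = i then reK z else if k = j then imK z else 0 := rfl

theorem Ro_apply (i j : Fin d) (c : KK) (v : Fin d → KR) (k : Fin d) :
    Ro i j c v k = if k = i then reK c * v i - imK c * v j else
      if k = j then imK c * v i + reK c * v j else v k := rfl

theorem Ro_io {i j : Fin d} (h : i ≠ j) (c z : KK) : Ro i j c (io i j z) = io i j (c * z) := by
  funext k
  simp only [Ro_apply, io_apply, if_true, if_neg h.symm, reK_mul, imK_mul]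
  split_ifs <;> rfl

theorem Ro_rs (i j : Fin d) (c : KK) (v : Fin d → KR) : Ro i j c (rs i j v) = rs i j v := by
  funext k
  simp only [Ro_apply, rs, if_true, ite_self, mul_zero, sub_zero, add_zero]
  split_ifs <;> rfl

theorem split (i j : Fin d) (v : Fin d → KR) : v = io i j (cK (v i) (v j)) + rs i j v := by
  funext k
  simp only [Pi.add_apply, io_apply, rs, reK_cK, imK_cK]
  split_ifs with h1 h2
  · rw [h1, add_zero]
  · rw [h2, add_zero]
  · rw [zero_add]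

theorem pd_conj {A : Type} [AddCommGroup A] [Countable A] {φ : A → ℂ} (h : PD φ) (v : A) :
    φ (-v) = conj (φ v) := by
  obtain ⟨μ, _, hc, hμ⟩ := sHerg _ φ h
  rw [hμ, hμ, ← integral_conj]
  exact integral_congr_ae (hc.mono fun x hx => by simp only [hx.map_neg, herg_ch_neg])

theorem pd_le {A : Type} [AddCommGroup A] [Countable A] {φ : A → ℂ} (h : PD φ) (v : A) :
    (φ v).re ≤ (φ 0).re := by
  obtain ⟨μ, _, hc, hμ⟩ := sHerg _ φ h
  have e0 : (φ 0).re = μ.real Set.univ := by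
    rw [hμ, integral_congr_ae (g := fun _ => (1 : ℂ))
      (hc.mono fun x hx => by simp only [hx.map_zero, ch_zero])]
    simp
  rw [e0, hμ]
  refine (Complex.re_le_norm _).trans ?_
  simpa using norm_integral_le_of_norm_le_const (μ := μ) (f := fun x : A → T => ch (x v)) (C := 1)
    (.of_forall fun x => (norm_ch _).le)

theorem pd_re {A : Type} [AddCommGroup A] [Countable A] {φ : A → ℂ} (h : PD φ) :
    PDr fun v => (φ v).re := by
  intro S c
  have h1 := h S c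
  have h2 := herg_pd h S (fun a => -a) c
  have e : ∑ a ∈ S, ∑ b ∈ S, conj (c a) * c b * (((φ (b - a)).re : ℝ) : ℂ) =
      ((2⁻¹ : ℝ) : ℂ) * (∑ a ∈ S, ∑ b ∈ S, conj (c a) * c b * φ (b - a) +
        ∑ a ∈ S, ∑ b ∈ S, conj (c a) * c b * φ (-b - -a)) := by
    rw [← Finset.sum_add_distrib, Finset.mul_sum]
    refine Finset.sum_congr rfl fun a _ => ?_
    rw [← Finset.sum_add_distrib, Finset.mul_sum]
    refine Finset.sum_congr rfl fun b _ => ?_
    rw [show -b - -a = -(b - a) by abel, pd_conj h, Complex.re_eq_add_conj]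
    push_cast
    ring
  rw [e]
  exact mul_nonneg (Complex.zero_le_real.2 (by norm_num)) (add_nonneg h1 h2)

/-- a Gaussian rational. -/
def gq (a b : ℚ) : kk := ⟨(a : ℂ) + (b : ℂ) * I, ⟨a, by simp⟩, b, by simp⟩

theorem inc_gq (a b : ℚ) : H84.inc (gq a b) = cK a b := Subtype.ext (by
  change (a : ℂ) + (b : ℂ) * I = (((a : KR) : ℝ) : ℂ) + (((b : KR) : ℝ) : ℂ) * I
  simp)

theorem det_ne {a₁ b₁ a₂ b₂ a₃ b₃ : ℚ} (h₁ : a₁ ^ 2 + b₁ ^ 2 = 1) (h₂ : a₂ ^ 2 + b₂ ^ 2 = 1)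
    (h₃ : a₃ ^ 2 + b₃ ^ 2 = 1) (n₁ : ¬(a₁ = a₂ ∧ b₁ = b₂)) (n₂ : ¬(a₁ = a₃ ∧ b₁ = b₃))
    (n₃ : ¬(a₂ = a₃ ∧ b₂ = b₃)) :
    (a₂ * b₃ - a₃ * b₂) + (a₃ * b₁ - a₁ * b₃) + (a₁ * b₂ - a₂ * b₁) ≠ 0 := by
  intro hD
  have ne : ∀ {x y x' y' : ℚ}, ¬(x = x' ∧ y = y') → (x' - x) ^ 2 + (y' - y) ^ 2 ≠ 0 := by
    intro x y x' y' h h0
    exact h ⟨by nlinarith [sq_nonneg (x' - x), sq_nonneg (y' - y)],
      by nlinarith [sq_nonneg (x' - x), sq_nonneg (y' - y)]⟩
  have p0 := ne n₁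
  have r0 := ne n₂
  set P := (a₂ - a₁) ^ 2 + (b₂ - b₁) ^ 2 with hP
  set Q := (a₃ - a₁) ^ 2 + (b₃ - b₁) ^ 2 with hQ
  have e1 : (a₃ - a₁) * P = (a₂ - a₁) * Q := by
    rw [hP, hQ]
    linear_combination (a₃ - a₁) * (h₂ - h₁) - (a₂ - a₁) * (h₃ - h₁) + 2 * b₁ * hD
  have e2 : (b₃ - b₁) * P = (b₂ - b₁) * Q := by
    rw [hP, hQ]
    linear_combination (b₃ - b₁) * (h₂ - h₁) - (b₂ - b₁) * (h₃ - h₁) - 2 * a₁ * hD
  have e3 : P * Q * (P - Q) = 0 := by
    have : Q * P ^ 2 = P * Q ^ 2 := by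
      calc Q * P ^ 2 = ((a₃ - a₁) * P) ^ 2 + ((b₃ - b₁) * P) ^ 2 := by rw [hQ]; ring
        _ = P * Q ^ 2 := by rw [e1, e2, hP]; ring
    linear_combination this
  have e4 : P = Q := sub_eq_zero.1 ((mul_eq_zero.1 e3).resolve_left (mul_ne_zero p0 r0))
  rw [← e4] at e1 e2
  exact n₃ ⟨by linarith [mul_right_cancel₀ p0 e1], by linarith [mul_right_cancel₀ p0 e2]⟩

theorem span_one {q : KR} (hq : IsQ q) (h0 : q ≠ 0) (s t : KR) {c₁ c₂ c₃ : U1}
    (h₁ : IsQ c₁.a ∧ IsQ c₁.b) (h₂ : IsQ c₂.a ∧ IsQ c₂.b) (h₃ : IsQ c₃.a ∧ IsQ c₃.b)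
    (n₁ : c₁ ≠ c₂) (n₂ : c₁ ≠ c₃) (n₃ : c₂ ≠ c₃) :
    ∃ a b c : kk, H84.inc a * cK q (c₁.a * s - c₁.b * t) + H84.inc b * cK q (c₂.a * s - c₂.b * t) +
      H84.inc c * cK q (c₃.a * s - c₃.b * t) = 1 := by
  obtain ⟨q, rfl⟩ := hq
  obtain ⟨⟨a₁, ea₁⟩, b₁, eb₁⟩ := h₁
  obtain ⟨⟨a₂, ea₂⟩, b₂, eb₂⟩ := h₂
  obtain ⟨⟨a₃, ea₃⟩, b₃, eb₃⟩ := h₃
  have k : ∀ {c : U1} {a b : ℚ}, c.a = a → c.b = b → a ^ 2 + b ^ 2 = 1 := fun {c a b} ha hb => by
    have := c.h
    rw [ha, hb] at this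
    exact_mod_cast this
  have hD := det_ne (k ea₁ eb₁) (k ea₂ eb₂) (k ea₃ eb₃)
    (fun h => n₁ (U1.ext (by rw [ea₁, ea₂, h.1]) (by rw [eb₁, eb₂, h.2])))
    (fun h => n₂ (U1.ext (by rw [ea₁, ea₃, h.1]) (by rw [eb₁, eb₃, h.2])))
    (fun h => n₃ (U1.ext (by rw [ea₂, ea₃, h.1]) (by rw [eb₂, eb₃, h.2])))
  have hq0 : q ≠ 0 := by rintro rfl; exact h0 (by simp)
  set D := (a₂ * b₃ - a₃ * b₂) + (a₃ * b₁ - a₁ * b₃) + (a₁ * b₂ - a₂ * b₁) with hDe
  refine ⟨gq ((a₂ * b₃ - a₃ * b₂) / (q * D)) 0, gq ((a₃ * b₁ - a₁ * b₃) / (q * D)) 0,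
    gq ((a₁ * b₂ - a₂ * b₁) / (q * D)) 0, Subtype.ext ?_⟩
  have hD' : ((D : ℚ) : ℂ) ≠ 0 := by exact_mod_cast hD
  have hq' : ((q : ℚ) : ℂ) ≠ 0 := by exact_mod_cast hq0
  have hDc : ((D : ℚ) : ℂ) = (a₂ * b₃ - a₃ * b₂) + (a₃ * b₁ - a₁ * b₃) + (a₁ * b₂ - a₂ * b₁) := by
    rw [hDe]; push_cast; ring
  rw [inc_gq, inc_gq, inc_gq, ea₁, ea₂, ea₃, eb₁, eb₂, eb₃]
  simp only [cK, Subfield.coe_add, Subfield.coe_mul, Subfield.coe_one, Subfield.coe_sub,
    SubfieldClass.coe_ratCast]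
  push_cast
  field_simp
  rw [hDc]
  ring

end XStepx

open XStepx in
theorem rowSTEP : RowSTEP := by
  intro d i j φ hij hφ hinv
  obtain ⟨g, w, e, pg, pw, ⟨ψ, cψ, eψ⟩, hz, hs⟩ :=
    H84.step (io i j) (Ro i j) (fun c z _ => Ro_io hij c z) (fun v => (φ v : ℂ)) hφ
      fun c hc v => congrArg (fun t : ℝ => (t : ℂ)) (hinv ⟨reK c, imK c, sq_one hc⟩ v)
  have er : ∀ v, φ v = (g v).re + (w v).re := fun v => by
    simpa using congrArg Complex.re (e v)
  have md : ∀ (k : Fin d) (u : ℚ → kk), (∀ q, ‖(u q : ℂ)‖ = |(q : ℝ)|) →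
      (∀ q, io i j (H84.inc (u q)) = Pi.single k (q : KR)) → Mod (fun v => (g v).re) k := by
    intro k u hu he ε hε
    obtain ⟨δ, hδ, h⟩ := Metric.continuous_iff.1 cψ 0 ε hε
    refine ⟨δ, hδ, fun q hq => ?_⟩
    have h1 := h (u q) (by rwa [dist_zero_right, hu])
    have h2 : g 0 = ψ 0 := by simpa using eψ 0
    change (g 0).re - (g (Pi.single k (q : KR))).re ≤ ε
    rw [← he, eψ, h2, ← Complex.sub_re]
    rw [dist_comm, dist_eq_norm] at h1
    exact (Complex.re_le_norm _).trans h1.le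
  refine ⟨fun v => (g v).re, pd_re pg, fun s => ?_, md i (fun q => gq q 0) (fun q => ?_) fun q => ?_,
    md j (fun q => gq 0 q) (fun q => ?_) fun q => ?_, fun v h1 h2 h0 => ?_,
    fun k hki hkj v h1 h0 S hS => ?_⟩
  · have := pd_le pw s
    rw [er, er]
    linarith
  · simp [gq]
  · funext k
    rw [inc_gq, io_apply, reK_cK, imK_cK, Pi.single_apply]
    split_ifs <;> simp
  · simp [gq]
  · funext k
    rw [inc_gq, io_apply, reK_cK, imK_cK, Pi.single_apply]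
    by_cases h : k = i
    · subst h; simp [hij]
    · simp [h]
  · obtain ⟨a, ha⟩ := h1
    obtain ⟨b, hb⟩ := h2
    have hu : gq a b ≠ 0 := fun h => by
      have h3 := congrArg (fun z => reK (H84.inc z)) h
      simp only [inc_gq, reK_cK, map_zero] at h3
      exact h0 (ha.trans (h3.trans (Subtype.ext (by simp [reK]))))
    have := hz (gq a b) (rs i j v) hu fun c _ => Ro_rs i j c v
    rw [inc_gq, ← ha, ← hb, ← split] at this
    change (g v).re = φ v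
    rw [er, this]
    simp
  · have ei : ∀ c, Rt j k c v i = v i := fun c => by simp [Rt, hij, hki.symm]
    have ej : ∀ c, Rt j k c v j = c.a * v j - c.b * v k := fun c => by simp [Rt]
    have := hs U1 S (fun c => cK (Rt j k c v i) (Rt j k c v j)) (fun c => rs i j (Rt j k c v))
      (fun c _ c' _ => Ro_rs i j c' _) fun c₁ m₁ c₂ m₂ c₃ m₃ n₁ n₂ n₃ => by
        simp only [ei, ej]
        exact span_one h1 h0 _ _ (hS _ m₁) (hS _ m₂) (hS _ m₃) n₁ n₂ n₃
    simp only [← split, Complex.ofReal_re] at this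
    refine le_trans (Finset.sum_le_sum fun c _ => ?_) this
    change |φ (Rt j k c v) - (g (Rt j k c v)).re| ≤ _
    rw [er, add_sub_cancel_left]
    exact Complex.abs_re_le_norm _

end

end Pool.Agent.MP_66cee2_co.D.TX
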