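import Pool.Agent.MP_66cee2_co.D.SpecX
import Pool.Agent.MP_66cee2_co.XT.T

/-! Assembly of the transfer in every dimension. -/

namespace Pool.Agent.MP_66cee2_co.D.TX

open MeasureTheory Filter Topology Matrix
open Pool.Agent.MP_66cee2_co.XT (Eu Lift MS AllIso Bd Mean av RowMEAN RowDEF RowLIM RowTR)

namespace XTx

variable {d n : ℕ} {ι : Type}

lemma meas_ev {ξ : Eu d × Eu n → ℝ} (hξ : Measurable ξ) {q : Eu d → Fin d → ℚ}
    (hq : ∀ z, MeasurableSet {v | q v = z}) :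
    Measurable fun p : Eu d × Om d n => ev ξ (q p.1) p.2 := by
  intro S hS
  have e : (fun p : Eu d × Om d n => ev ξ (q p.1) p.2) ⁻¹' S =
      ⋃ z, {v | q v = z} ×ˢ (ev ξ z ⁻¹' S) := by
    ext p
    simp
  rw [e]
  exact MeasurableSet.iUnion fun z => (hq z).prod (measurable_ev hξ z hS)

lemma meas_PJ {χ : Eu d → ℝ} {F : Eu n → ι → ℝ} {pt : ℕ → ℕ → Eu d → Fin d → ℚ}
    (hχ : Measurable χ) (hF : Continuous F) (hpt : Pts pt) (j : ℕ) (a b : ι) :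
    Measurable fun p : Eu d × Om d n => PJ χ F pt j p.1 p.2 a b := by
  simp only [PJ, av, of_apply]
  exact (Finset.measurable_sum _ fun i _ =>
    meas_ev (measurable_xi hχ hF a b) (hpt.meas j i)).div_const _

lemma sfin {C ε : ℝ} {O₁ O₂ : Set (Eu d)} {ν : Measure (Om d n)} (h : Sy C ε O₁ O₂ ν) :
    SigmaFinite ν := by
  refine ⟨⟨⟨fun k : ℕ => {w | ‖w.1‖ ≤ k}, fun _ => trivial, fun k => (h.fin k).lt_top, ?_⟩⟩⟩
  exact Set.eq_univ_of_forall fun w => Set.mem_iUnion.2 (exists_nat_ge ‖w.1‖)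

lemma rot_onto {A : Fin d → Fin d → ℝ} (hA : ∀ v, ‖rot A v‖ = ‖v‖) :
    Function.Surjective (rot A) := by
  let L : Eu d →ₗ[ℝ] Eu d := ⟨⟨rot A, rot_add A⟩, rot_smul A⟩
  have hi : Function.Injective L := by
    intro x y h
    have h1 : rot A x = rot A y := h
    have h2 := hA (x - y)
    rw [rot_sub, h1, sub_self, norm_zero] at h2
    exact sub_eq_zero.1 (norm_eq_zero.1 h2.symm)
  exact LinearMap.injective_iff_surjective.1 hi

lemma exists_pt {w : Om d n} (hw : ∀ v, ‖rot w.2.1 v‖ = ‖v‖)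
    {O : Set (Eu d)} (hO : IsOpen O) (hne : O.Nonempty) {p : Eu d → Prop} (hp : ∀ᵐ x, p x) :
    ∃ x, ps w x ∈ O ∧ p x := by
  obtain ⟨o, ho⟩ := hne
  have h1 : IsOpen {x | ps w x ∈ O} :=
    hO.preimage (continuous_ps.comp (continuous_const.prodMk continuous_id))
  obtain ⟨y, hy⟩ := rot_onto hw (o - w.1)
  refine (Measure.dense_of_ae hp).inter_open_nonempty _ h1 ⟨y, ?_⟩
  have h3 : ps w y = o := by
    rw [ps, hy, add_sub_cancel]
  show ps w y ∈ O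
  rwa [h3]

end XTx

open XTx in
theorem rowT : RowDEF → RowFUN1 → RowSGN → RowMEAS → RowPTS → RowCHI → RowLIM → RowCAU →
    RowPW → RowTR → RowT := by
  intro hDEF hFUN hSGN hMEAS hPTS hCHI hLIM hCAU hPW hTR d n ι _ J g F hm hL hM f hf
  by_contra hne
  obtain ⟨C, ε, U₁, U₂, hε, o1, o2, n1, n2, hb, hd⟩ := hDEF d n f hm hf hne
  obtain ⟨Λ₀, hΛ₀, hI₀⟩ := hFUN d n f C ε U₁ U₂ hm hf hb hd
  obtain ⟨Λ, hΛ, hI⟩ := hSGN d n C ε U₁ U₂ Λ₀ o1 o2 hΛ₀ hI₀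
  obtain ⟨ν, hν⟩ := hMEAS d n C ε _ _ Λ o1 o2 hΛ hI
  obtain ⟨pt, hpt⟩ := hPTS d
  obtain ⟨χ, hχ⟩ := hCHI d n C ε _ _ ν ι F hν hL.cont
  obtain ⟨c1, c2, c3⟩ := hCAU d n C ε _ _ ν ι J g F χ pt hm hν hL hχ hpt
  obtain ⟨σ, hσ, hlim⟩ := hLIM (Om d n) (Eu d) (ι × ι) ν
    (fun t j v w => PJ χ F pt j v w t.1 t.2) (fun t j v => c1 _ _ j v) fun t => c2 _ _
  obtain ⟨p1, p2⟩ := hPW d n C ε _ _ ν ι J g F χ pt σ hL hχ hpt hσ o1 o2
  have := sfin hν
  have hPJ := fun k => meas_PJ hχ.meas hL.cont hpt (σ k)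
  obtain ⟨P, hPm, hP⟩ := XT.TA.exists_lim (G := fun k => PJ χ F pt (σ k)) hPJ
  have hG : ∀ v, ∀ᵐ w ∂ν, ∀ a b,
      Tendsto (fun k => PJ χ F pt (σ k) v w a b) atTop (𝓝 (P v w a b)) := fun v => by
    filter_upwards [hlim v] with w hw a b
    exact hP v w a b (hw (a, b))
  have hO : ∀ v u : Eu d, ‖u‖ = 1 → ∀ᵐ w ∂ν, P v w * J * (P (v + u) w)ᵀ = 0 := fun v u hu => by
    have h0 := XT.TA.fatou (L := fun w => (P v w * J * P (v + u) w * J).trace)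
      (fun k => XT.TA.int_trace J (fun a b => c1 a b (σ k) v) fun a b => c1 a b (σ k) (v + u))
      (fun k w => (hTR ι J _ _ hL.sym (p1 _ _ w) (p1 _ _ w)).1)
      (by
        filter_upwards [hG v, hG (v + u)] with w h1 h2
        exact XT.TA.tendsto_trace J h1 h2)
      ((c3 v u hu).comp hσ)
    filter_upwards [h0, hG v, hG (v + u), hν.ae] with w h h1 h2 hw
    have q1 := (p2 w hw v _ h1).1.1
    have q2 := (p2 w hw (v + u) _ h2).1.1
    have q3 : (P (v + u) w)ᵀ = P (v + u) w := q2.1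
    rw [q3]
    exact (hTR ι J _ _ hL.sym q1 q2).2 h
  have me : Measurable fun x : Eu d => x := measurable_id
  have hG' := XT.TA.swap1 (G := fun k => PJ χ F pt (σ k)) (e := fun x => x) me hPJ hPm hG
  have hO' := XT.TA.swap2 (J := J) (e := fun x => x) (by omega) me hPm fun x z hz => hO x z hz
  have := ae_neBot.2 hν.ne
  obtain ⟨w, hw, hg, ho⟩ := (hν.ae.and (hG'.and hO')).exists
  obtain ⟨S, hS, hSS⟩ := hM (fun x => P x w)
    (fun a b => (hPm a b).comp (me.prodMk measurable_const))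
    (by
      filter_upwards [hg] with x hx
      exact (p2 w hw _ _ hx).1) ho
  obtain ⟨x, x1, x2, x3⟩ := exists_pt hw.1 o1 n1 (hS.and hg)
  obtain ⟨y, y1, y2, y3⟩ := exists_pt hw.1 o2 n2 (hS.and hg)
  obtain ⟨r1, r2⟩ := (p2 w hw _ _ x3).2 _ _ y3 x1 y1
  rw [hSS x x2 y y2] at r2
  have r3 := le_of_mul_le_mul_left r2 (mul_pos (p2 w hw _ _ x3).1.2.2 (p2 w hw _ _ y3).1.2.2)
  nlinarith

end Pool.Agent.MP_66cee2_co.D.TX
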