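import Pool.Agent.MP_66cee2_co.D.SpecX

/-! Row XS: the space of admissible configurations. -/

namespace Pool.Agent.MP_66cee2_co.D.TX

open Set Metric
open Pool.Agent.MP_66cee2_co.XT (Eu)

namespace XXsx

variable {d n : ℕ} {C ε : ℝ} {O₁ O₂ : Set (Eu d)}

theorem cps (v : Eu d) : Continuous fun w : Om d n => ps w v :=
  continuous_ps.comp (continuous_id.prodMk continuous_const)

theorem crot (v : Eu d) : Continuous fun w : Om d n => rot w.2.1 v := by
  unfold rot
  fun_prop

theorem closed (h1 : IsOpen O₁) (h2 : IsOpen O₂) : IsClosed (XS C ε O₁ O₂ : Set (Om d n)) := by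
  have c := @cps d n
  simp only [XS, ofPred_and, ofPred_forall]
  refine (isClosed_iInter fun v => isClosed_eq (crot v).norm continuous_const).inter
    ((isClosed_iInter fun z => isClosed_le (by fun_prop) (by fun_prop)).inter
      ((isClosed_iInter fun z => isClosed_iInter fun z' => isClosed_iInter fun _ =>
        isClosed_eq (by fun_prop) continuous_const).inter
        (isClosed_iInter fun z => isClosed_iInter fun z' => ?_)))
  exact isClosed_imp (h1.preimage (c _)) (isClosed_imp (h2.preimage (c _))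
    (isClosed_le (by fun_prop) continuous_const))

theorem entry {A : Fin d → Fin d → ℝ} (h : ∀ v, ‖rot A v‖ = ‖v‖) (i j : Fin d) :
    ‖A i j‖ ≤ 1 := by
  have h1 := PiLp.norm_apply_le (rot A (EuclideanSpace.single j 1)) i
  rw [h] at h1
  simpa [Pi.single_apply] using h1

theorem compact (h1 : IsOpen O₁) (h2 : IsOpen O₂) (R : ℝ) :
    IsCompact {w : Om d n | w ∈ XS C ε O₁ O₂ ∧ ‖w.1‖ ≤ R} := by
  refine ((isCompact_closedBall (0 : Eu d) R).prod
    ((isCompact_univ_pi fun _ : Fin d => isCompact_univ_pi fun _ : Fin d =>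
        isCompact_closedBall (0 : ℝ) 1).prod
      (isCompact_univ_pi fun z : Fin d → ℚ =>
        isCompact_closedBall (0 : Eu n) (C + 2 * (R + ‖em z‖))))).of_isClosed_subset
    ((closed h1 h2).inter (isClosed_le continuous_fst.norm continuous_const)) ?_
  rintro w ⟨⟨a, b, -⟩, c⟩
  refine ⟨mem_closedBall_zero_iff.2 c, fun i _ j _ => mem_closedBall_zero_iff.2 (entry a i j),
    fun z _ => mem_closedBall_zero_iff.2 ((b z).trans ?_)⟩
  have := norm_add_le w.1 (rot w.2.1 (em z))
  rw [a] at this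
  rw [ps]
  linarith

theorem norm_un {l : ℚ} (hl : Un l) (v : Eu d) : ‖(l : ℝ) • v‖ = ‖v‖ := by
  rcases hl with rfl | rfl <;> simp

theorem dist_mv (a : Fin d → ℚ) {l : ℚ} (hl : Un l) (z z' : Fin d → ℚ) :
    ‖em (a + l • z) - em (a + l • z')‖ = ‖em z - em z'‖ := by
  rw [em_add, em_add, add_sub_add_left_eq_sub, em_smul, em_smul, ← smul_sub, norm_un hl]

end XXsx

open XXsx in
theorem rowXS : RowXS := by
  intro d n C ε O₁ O₂ h1 h2
  refine ⟨closed h1 h2, compact h1 h2, fun a l hl => ⟨?_, fun w ⟨p, q, r, s⟩ =>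
    ⟨⟨fun v => ?_, fun z => ?_, fun z z' h => r _ _ ((dist_mv a hl z z').trans h),
      fun z z' h h' => ?_⟩, ?_⟩⟩⟩
  · exact (cps _).prodMk (Continuous.prodMk (by fun_prop) (by fun_prop))
  · show ‖rot (fun i j => w.2.1 i j * (l : ℝ)) v‖ = ‖v‖
    rw [rot_mul, p, norm_un hl]
  · rw [ps_mv]
    exact q _
  · rw [ps_mv] at h h'
    rw [← dist_mv a hl]
    exact s _ _ h h'
  · have := norm_sub_le (ps w (em a)) (rot w.2.1 (em a))
    rwa [p, show ps w (em a) - rot w.2.1 (em a) = w.1 from add_sub_cancel_right _ _]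
      at this

end Pool.Agent.MP_66cee2_co.D.TX
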