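import Pool.Agent.MP_66cee2_co.D.TrOf
import Pool.Agent.MP_66cee2_co.D.XAvg
import Pool.Agent.MP_66cee2_co.D.XCau
import Pool.Agent.MP_66cee2_co.D.XCh
import Pool.Agent.MP_66cee2_co.D.XCor1
import Pool.Agent.MP_66cee2_co.D.XCorr
import Pool.Agent.MP_66cee2_co.D.XExt
import Pool.Agent.MP_66cee2_co.D.XFun
import Pool.Agent.MP_66cee2_co.D.XMeas
import Pool.Agent.MP_66cee2_co.D.XMpd
import Pool.Agent.MP_66cee2_co.D.XPdc
import Pool.Agent.MP_66cee2_co.D.XPh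
import Pool.Agent.MP_66cee2_co.D.XPts
import Pool.Agent.MP_66cee2_co.D.XPw
import Pool.Agent.MP_66cee2_co.D.XRpd
import Pool.Agent.MP_66cee2_co.D.XSgn
import Pool.Agent.MP_66cee2_co.D.XStep
import Pool.Agent.MP_66cee2_co.D.XT
import Pool.Agent.MP_66cee2_co.D.XXs
import Pool.Agent.MP_66cee2_co.XT.DEF
import Pool.Agent.MP_66cee2_co.XT.LIM
import Pool.Agent.MP_66cee2_co.XT.MEAN
import Pool.Agent.MP_66cee2_co.XT.TR

/-
The transfer in every dimension, assembled.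
-/

namespace Pool.Agent.MP_66cee2_co.D

open TX

theorem rowTAll : TX.RowT :=
  rowT XT.rowDEF (rowFUN1 XT.rowMEAN rowCH rowPH rowPDC (rowRPD rowSTEP rowMPD rowEXT))
    (rowSGN rowXS) (rowMEAS rowXS) rowPTS rowCHI XT.rowLIM
    (rowCAU (rowCORR rowCOR1) rowSPH rowAVG) rowPW XT.rowTR

theorem sTrAll : STr := sTr_of rowTAll

end Pool.Agent.MP_66cee2_co.D
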