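import Pool.Agent.MP_66cee2_co.D.Defs
import Pool.Agent.MP_66cee2_co.XJ.All

/-
Maps into spaces of dimension at most `2 d - 2`: rational jets in dimension at least three.
-/

namespace Pool.Agent.MP_66cee2_co.D

open MeasureTheory Set Filter Pool.Agent.MP_66cee2_co.X

theorem sJ3_of (hG : SGal) (hJ : SJet) (hB : SBase) (hS : SStep) (hR : SRatA) (hU : SU) :
    SJ3 := by
  intro d n hd P hP
  obtain ⟨JA, JB, A, B, hG⟩ := hG d n P hP
  have h := main_tay hJ hB hS (by omega) hG
  refine hU d n P JA JB A B (by omega) hP hG fun j =>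
    hR d (Ix n) (Ix n) (fun x k => Jv (B x k)) JA (fun y => A y j) (by omega) (hG.dA j) ?_ ?_
  · filter_upwards [ae_all_iff.2 fun m => (h m).1 j] with y hy a
    exact main_jet hJ fun m => hy m a
  · filter_upwards [ae_all_iff.2 fun m => main_jv hJ (h m).2] with x hx k a
    exact main_jet hJ fun m => hx m k a

theorem sJ3 : SJ3 :=
  sJ3_of (sGal sSig (sUp sSig) sRows) (sJet sPoly)
    (sBase sApp sPoly (sTele sPoly) sCoreAll (sBaseA sSig sApp (sPair sSig)))
    (sStep sApp (sJet sPoly) (sTele sPoly) sCoreAll)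
    (sRatA sSig sApp (sJet sPoly) (sPick sSig) (sRatLoc sPoly2)) (sU sSig sApp (sJet sPoly))

end Pool.Agent.MP_66cee2_co.D
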