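import Pool.Agent.MP_66cee2_co.XI.Spec
import Pool.Agent.MP_66cee2_co.X.BasicJ
import Pool.Agent.MP_66cee2_co.XT.Spec

/-
Maps into spaces of dimension at most `2 d - 2`: the interfaces between the parts.
-/

namespace Pool.Agent.MP_66cee2_co.D

open MeasureTheory Set Filter Metric Topology Pool.Agent.MP_66cee2_co.X
open scoped ENNReal

/-- the measurable theorem. -/
def SMd (d n : ℕ) : Prop :=
  ∀ P : E d → Matrix (Ix n) (Ix n) ℝ, Field P → ∃ g : E d → E n, Iso g ∧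
    ∀ᵐ x, ∀ a b, P x a b = P x sI sI * lift (g x) a * lift (g x) b

/-- the transfer. -/
def STr : Prop := ∀ d n : ℕ, 3 ≤ d → SMd d n → XT.AllIso d n

/-- rational jets exist. -/
def SJ3 : Prop :=
  ∀ d n : ℕ, 3 ≤ d → ∀ P : E d → Matrix (Ix n) (Ix n) ℝ, Field P → ∃ u, JetField P u

/-- a flat field of positive vectors, orthogonal on almost every unit pair. -/
structure FlatF {d n : ℕ} (V : E d → Ix n → ℝ) : Prop where
  meas : Measurable V
  pos : ∀ᵐ x, 0 < lz (V x) (V x)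
  orth : AePair fun x y => lz (V x) (V y) = 0
  flat : ∀ᵐ x : E d, ∀ K : ℕ, ∃ C : ℝ, Small fun τ => {η | C * τ ^ K < ‖V (x + η) - V x‖}

/-- a dense family of open sets with positive labels, orthogonal on unit pairs. -/
structure Fam {d n : ℕ} (O : (Ix n → ℝ) → Set (E d)) : Prop where
  opn : ∀ v, IsOpen (O v)
  pos : ∀ v, (O v).Nonempty → 0 < lz v v
  dense : Dense (⋃ v, O v)
  orth : ∀ v v' y z, y ∈ O v → z ∈ O v' → ‖y - z‖ = 1 → lz v v' = 0

/-- flat fields give a family. -/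
def SFam : Prop :=
  ∀ (d n : ℕ) (V : E d → Ix n → ℝ), 3 ≤ d → FlatF V → ∃ O : (Ix n → ℝ) → Set (E d), Fam O

/-- the topological theorem. -/
def STT : Prop :=
  ∀ (d n : ℕ) (O : (Ix n → ℝ) → Set (E d)), 3 ≤ d → n + 2 ≤ 2 * d → ¬ Fam O

/-- the dichotomy. -/
def SDich : Prop :=
  ∀ (d n : ℕ) (P : E d → Matrix (Ix n) (Ix n) ℝ) (u : E d → Ix n → ℝ), 3 ≤ d → n + 2 ≤ 2 * d →
    Field P → JetField P u →
    (∃ g : E d → E n, Iso g ∧ ∀ᵐ x, ∀ a b, P x a b = P x sI sI * lift (g x) a * lift (g x) b) ∨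
      ∃ V : E d → Ix n → ℝ, FlatF V

theorem allIso_of (h1 : STr) (h2 : SJ3) (h3 : SDich) (h4 : SFam) (h5 : STT) (d n : ℕ)
    (hd : 3 ≤ d) (hn : n + 2 ≤ 2 * d) : XT.AllIso d n := by
  refine h1 d n hd fun P hP => ?_
  obtain ⟨u, hu⟩ := h2 d n hd P hP
  rcases h3 d n P u hd hn hP hu with h | ⟨V, hV⟩
  · exact h
  · obtain ⟨O, hO⟩ := h4 d n V hd hV
    exact absurd hO (h5 d n O hd hn)

end Pool.Agent.MP_66cee2_co.D
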