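import Pool.Agent.MP_66cee2_co.D.SpecT
import Pool.Agent.MP_66cee2_co.XI.Psd

/-
Row TAlg: one step of the count of orthogonal positive vectors.
-/

namespace Pool.Agent.MP_66cee2_co.D

open Pool.Agent.MP_66cee2_co.X

namespace TAlgx

variable {n : ℕ}

theorem l_sub (a b v : Ix n → ℝ) (c : ℝ) : lz (a - c • b) v = lz a v - c * lz b v := by
  unfold lz
  rw [sub_dotProduct, smul_dotProduct, smul_eq_mul]

theorem r_sub (a b v : Ix n → ℝ) (c : ℝ) : lz v (a - c • b) = lz v a - c * lz v b := by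
  rw [lz_comm, l_sub, lz_comm a, lz_comm b]

theorem sq_sub (a b : Ix n → ℝ) (c : ℝ) :
    lz (a - c • b) (a - c • b) = lz a a - 2 * c * lz a b + c ^ 2 * lz b b := by
  rw [l_sub, r_sub, r_sub, lz_comm b a]
  ring

/-- the orthogonal complement of a nonzero vector of nonpositive square is semidefinite. -/
theorem perp_nonneg {x w : Ix n → ℝ} (hx : x ≠ 0) (h0 : lz x x ≤ 0) (hw : lz w x = 0) :
    0 ≤ lz w w := by
  by_cases hs : x sI = 0
  · have hs' : x (Sum.inr true) = 0 := hs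
    rw [lz_eq, hs', zero_mul, mul_zero, add_zero, add_zero] at h0
    have h1 : ∑ i, x (Sum.inl i) * x (Sum.inl i) = 0 :=
      le_antisymm (by linarith) (Finset.sum_nonneg fun i _ => mul_self_nonneg _)
    have h2 : ∀ i, x (Sum.inl i) = 0 := fun i =>
      mul_self_eq_zero.1 ((Finset.sum_eq_zero_iff_of_nonneg fun i _ => mul_self_nonneg _).1 h1 i
        (Finset.mem_univ i))
    have h3 : x (Sum.inr false) ≠ 0 := by
      intro h
      apply hx
      funext a
      rcases a with i | b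
      · exact h2 i
      · cases b
        · exact h
        · exact hs'
    rw [lz_eq, hs', mul_zero, add_zero, Finset.sum_eq_zero fun i _ => by rw [h2 i, mul_zero],
      mul_zero, zero_add] at hw
    exact XI.PsdA.lz_nonneg ((mul_eq_zero.1 hw).resolve_right h3)
  · have h1 := XI.PsdA.lz_nonneg (a := w - (w sI / x sI) • x) (by
      rw [Pi.sub_apply, Pi.smul_apply, smul_eq_mul, div_mul_cancel₀ _ hs, sub_self])
    rw [sq_sub, hw, mul_zero, sub_zero] at h1
    nlinarith [mul_nonneg (sq_nonneg (w sI / x sI)) (neg_nonneg.2 h0)]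

/-- in a semidefinite subspace a vector of nonpositive square lies in the radical. -/
theorem rad {W : Submodule ℝ (Ix n → ℝ)} (hW : ∀ w ∈ W, 0 ≤ lz w w) {x : Ix n → ℝ} (hx : x ∈ W)
    (h0 : lz x x ≤ 0) : ∀ w ∈ W, lz w x = 0 := by
  intro w hw
  by_contra h
  have h1 := hW _ (W.sub_mem hw (W.smul_mem ((lz w w + 1) / (2 * lz w x)) hx))
  rw [sq_sub] at h1
  have h2 : 2 * ((lz w w + 1) / (2 * lz w x)) * lz w x = lz w w + 1 := by
    field_simp
  rw [h2] at h1
  nlinarith [mul_nonneg (sq_nonneg ((lz w w + 1) / (2 * lz w x))) (neg_nonneg.2 h0)]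

/-- a family of orthogonal positive vectors, orthogonal to `W`. -/
def Fr (N : ℕ) (W : Submodule ℝ (Ix n → ℝ)) : Prop :=
  ∃ u : Fin N → Ix n → ℝ, (∀ i, 0 < lz (u i) (u i)) ∧
    (∀ i j, i ≠ j → lz (u i) (u j) = 0) ∧ ∀ w ∈ W, ∀ i, lz w (u i) = 0

theorem app {N : ℕ} {W W' : Submodule ℝ (Ix n → ℝ)} (h : Fr N W) {p : Ix n → ℝ} (hp : p ∈ W)
    (h0 : 0 < lz p p) (hW : ∀ w ∈ W', w ∈ W ∧ lz w p = 0) : Fr (N + 1) W' := by
  obtain ⟨u, h1, h2, h3⟩ := h
  refine ⟨Fin.cons p u, fun i => ?_, fun i j hij => ?_, fun w hw i => ?_⟩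
  · refine Fin.cases ?_ (fun i => ?_) i
    · simpa using h0
    · simpa using h1 i
  · revert hij
    refine Fin.cases ?_ (fun i => ?_) i <;> refine Fin.cases ?_ (fun j => ?_) j <;> intro hij
    · exact absurd rfl hij
    · simpa using h3 p hp j
    · simpa using (lz_comm _ _).trans (h3 p hp i)
    · simpa using h2 i j fun e => hij (congrArg _ e)
  · refine Fin.cases ?_ (fun i => ?_) i
    · simpa using (hW w hw).2
    · simpa using h3 w (hW w hw).1 i

end TAlgx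

open TAlgx in
theorem sTAlg : STAlg := by
  intro n k W q q' hS hq hq' h0 h0' hE
  obtain ⟨N, u, u1, u2, u3, hN⟩ := hS
  have hF : Fr N W := ⟨u, u1, u2, u3⟩
  obtain ⟨mu, hmu⟩ : ∃ mu : ℝ, mu * lz q q = lz q q' :=
    ⟨lz q q' / lz q q, div_mul_cancel₀ _ h0.ne'⟩
  have hx : q' - mu • q ∈ W := W.sub_mem hq' (W.smul_mem mu hq)
  have hxq : lz (q' - mu • q) q = 0 := by rw [l_sub, hmu, lz_comm, sub_self]
  have hn : ∀ w ∈ nxt W q q', lz w (q' - mu • q) = 0 := fun w hw => by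
    rw [r_sub, hw.2.1, hw.2.2, mul_zero, sub_zero]
  have hr : ¬ ∀ w ∈ W, lz w (q' - mu • q) = 0 := by
    intro h
    have h1 : ∀ w ∈ W, lz w q' = mu * lz w q := fun w hw => by
      have := h w hw
      rwa [r_sub, sub_eq_zero] at this
    refine hE ⟨mu, fun e => ?_, h1⟩
    rw [h1 q' hq', e, zero_mul] at h0'
    exact lt_irrefl _ h0'
  have hF1 : Fr (N + 1) (nxt W q q) := app hF hq h0 fun w hw => ⟨hw.1, hw.2.1⟩
  rcases lt_or_ge 0 (lz (q' - mu • q) (q' - mu • q)) with hp | hp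
  · obtain ⟨v, v1, v2, v3⟩ : Fr (N + 1 + 1) (nxt W q q') :=
      app hF1 (p := q' - mu • q) ⟨hx, hxq, hxq⟩ hp fun w hw => ⟨⟨hw.1, hw.2.1, hw.2.1⟩, hn w hw⟩
    refine ⟨_, v, v1, v2, v3, ?_⟩
    rcases hN with hN | ⟨hN, hW⟩
    · exact Or.inl (by omega)
    · exact Or.inr ⟨by omega, fun w hw => hW w hw.1⟩
  · rcases hN with hN | ⟨-, hW⟩
    · obtain ⟨v, v1, v2, v3⟩ : Fr (N + 1) (nxt W q q') :=
        app hF hq h0 fun w hw => ⟨hw.1, hw.2.1⟩
      refine ⟨_, v, v1, v2, v3, Or.inr ⟨by omega, fun w hw => perp_nonneg (fun e => hr ?_) hp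
        (hn w hw)⟩⟩
      intro w _
      rw [e, lz_comm]
      exact zero_dotProduct _
    · exact absurd (rad hW hx hp) hr

end Pool.Agent.MP_66cee2_co.D
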