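import Pool.Agent.MP_66cee2_co.D.SpecT

/-
At most `n + 1` pairwise orthogonal positive vectors in the Lorentz space.
-/

namespace Pool.Agent.MP_66cee2_co.D

open Pool.Agent.MP_66cee2_co.X

namespace TCntx

theorem lz_sum_left {n : ℕ} {ι : Type} [Fintype ι] (c : ι → ℝ) (u : ι → Ix n → ℝ)
    (b : Ix n → ℝ) : lz (∑ i, c i • u i) b = ∑ i, c i * lz (u i) b := by
  simp only [lz, sum_dotProduct, smul_dotProduct, smul_eq_mul]

/-- pairwise orthogonal positive vectors are at most `n + 1`. -/
theorem card_le {n : ℕ} {ι : Type} [Fintype ι] (u : ι → Ix n → ℝ)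
    (hp : ∀ i, 0 < lz (u i) (u i)) (ho : ∀ i j, i ≠ j → lz (u i) (u j) = 0) :
    Fintype.card ι ≤ n + 1 := by
  classical
  let v : ι → Option (Fin n) → ℝ := fun i k =>
    k.elim (u i (Sum.inr true) + u i (Sum.inr false)) fun k => u i (Sum.inl k)
  have hli : LinearIndependent ℝ v := by
    rw [Fintype.linearIndependent_iff]
    intro c hc i
    obtain ⟨a, ha⟩ : ∃ a, a = ∑ i, c i • u i := ⟨_, rfl⟩
    have h1 : ∀ k, a (Sum.inl k) = 0 := fun k => by
      have := congrFun hc (some k)
      simpa [ha, v, Finset.sum_apply] using this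
    have h2 : a (Sum.inr true) + a (Sum.inr false) = 0 := by
      have := congrFun hc none
      simpa [ha, v, Finset.sum_apply, mul_add, Finset.sum_add_distrib] using this
    have h3 : lz a a ≤ 0 := by
      rw [lz_eq]
      simp only [h1, mul_zero, Finset.sum_const_zero, zero_add]
      have e : a (Sum.inr false) = -a (Sum.inr true) := by linarith
      rw [e]
      nlinarith [mul_self_nonneg (a (Sum.inr true))]
    have h5 : ∀ j, lz (u j) a = c j * lz (u j) (u j) := fun j => by
      rw [lz_comm, ha, lz_sum_left, Finset.sum_eq_single j]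
      · intro k _ hk
        rw [ho k j hk, mul_zero]
      · intro h
        exact absurd (Finset.mem_univ j) h
    have h4 : lz a a = ∑ j, c j * (c j * lz (u j) (u j)) := by
      conv_lhs => enter [1]; rw [ha]
      rw [lz_sum_left]
      exact Finset.sum_congr rfl fun j _ => by rw [h5]
    have h6 : ∀ j ∈ Finset.univ, 0 ≤ c j * (c j * lz (u j) (u j)) := fun j _ => by
      rw [← mul_assoc]
      exact mul_nonneg (mul_self_nonneg _) (hp j).le
    have h7 := (Finset.sum_eq_zero_iff_of_nonneg h6).1
      (le_antisymm (h4 ▸ h3) (Finset.sum_nonneg h6)) i (Finset.mem_univ i)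
    rcases mul_eq_zero.1 h7 with h | h
    · exact h
    · exact (mul_eq_zero.1 h).resolve_right (hp i).ne'
  have := hli.fintype_card_le_finrank
  simpa using this

end TCntx

theorem sTCnt : STCnt := by
  intro n k W w hS hw hpos
  obtain ⟨N, u, hp, ho, hW, hN⟩ := hS
  have h := TCntx.card_le (ι := Option (Fin N)) (fun i => i.elim w u) ?_ ?_
  · simp only [Fintype.card_option, Fintype.card_fin] at h
    omega
  · rintro (_ | i)
    · exact hpos
    · exact hp i
  · rintro (_ | i) (_ | j) hij
    · exact absurd rfl hij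
    · exact hW w hw j
    · exact (lz_comm _ _).trans (hW w hw i)
    · exact ho i j fun e => hij (congrArg some e)

end Pool.Agent.MP_66cee2_co.D
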