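import Pool.Agent.MP_66cee2_co.D.SpecA

/-
A vector of polynomials with values in a subspace of dimension at most `d` is orthogonal to all
values of its neighbours.
-/

namespace Pool.Agent.MP_66cee2_co.D

open MvPolynomial Pool.Agent.MP_66cee2_co.X Pool.Agent.MP_66cee2_co.XI
open scoped RealInnerProductSpace

namespace A2x

variable {d n : ℕ}

theorem pd_inl (k : Fin d) (p : MP d) :
    pderiv (Sum.inr k) (rename Sum.inl p : BP d) = 0 := by
  classical
  induction p using MvPolynomial.induction_on with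
  | C a => simp
  | add p q hp hq => simp [hp, hq]
  | mul_X p i hp => simp [hp]

theorem pd_inr (k : Fin d) (p : MP d) :
    pderiv (Sum.inr k) (rename Sum.inr p : BP d) = rename Sum.inr (pderiv k p) :=
  pderiv_rename Sum.inr_injective k p

theorem pd_two (k : Fin d) : pderiv (Sum.inr k) (2 : BP d) = 0 := by
  have h : (2 : BP d) = C 2 := (map_ofNat C 2).symm
  rw [h, pderiv_C]

theorem pd_Kp (k : Fin d) (Q Q' : Ix n → MP d) :
    pderiv (Sum.inr k) (Kp Q Q') = Kp Q fun a => pderiv k (Q' a) := by
  simp only [Kp, map_add, map_sum, pderiv_mul, pd_inl, pd_inr, pd_two, zero_mul, zero_add]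

theorem pd_sP (k : Fin d) (x y : E d) :
    ev2 (pderiv (Sum.inr k) (sP d)) x y = 2 * (x k - y k) := by
  classical
  have h1 : pderiv (Sum.inr k) (nx d) = 0 := by simp [nx]
  have h2 : pderiv (Sum.inr k) (xy d) = X (Sum.inl k) := by
    simp [xy, pderiv_X, Pi.single_apply]
  have h3 : pderiv (Sum.inr k) (ny d) = 2 * X (Sum.inr k) := by
    simp [ny, pderiv_X, Pi.single_apply]
  have e1 : ev2 (X (Sum.inl k) : BP d) x y = x k := by simp [ev2]
  have e2 : ev2 (X (Sum.inr k) : BP d) x y = y k := by simp [ev2]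
  rw [sP, map_sub, map_add, map_sub, pderiv_mul, h1, h2, h3, pd_two, pderiv_one]
  simp only [ev2_sub, ev2_add, ev2_mul, ev2_zero, ev2_two, e1, e2]
  ring

/-- the form against a fixed vector. -/
def fn (W : Submodule ℝ (Ix n → ℝ)) (b : Ix n → ℝ) : Module.Dual ℝ W where
  toFun a := lz a b
  map_add' a a' := by simp [lz, add_dotProduct]
  map_smul' c a := by simp [lz]

theorem dep (W : Submodule ℝ (Ix n → ℝ)) (hW : Module.finrank ℝ W ≤ d)
    (v : Option (Fin d) → Ix n → ℝ) :
    ∃ g : Option (Fin d) → ℝ, (∃ i, g i ≠ 0) ∧ ∀ a ∈ W, ∑ i, g i * lz a (v i) = 0 := by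
  have h : ¬ LinearIndependent ℝ fun i => fn W (v i) := fun h => by
    have := h.fintype_card_le_finrank
    rw [Subspace.dual_finrank_eq, Fintype.card_option, Fintype.card_fin] at this
    omega
  obtain ⟨g, hg, hi⟩ := Fintype.not_linearIndependent_iff.1 h
  refine ⟨g, hi, fun a ha => ?_⟩
  have := congrArg (fun f : Module.Dual ℝ W => f ⟨a, ha⟩) hg
  simpa [fn] using this

/-- substitution of the second point. -/
noncomputable def sb (y : E d) : BP d →ₐ[ℝ] MP d := aeval (Sum.elim X fun i => C (y i))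

theorem ev_sb (y x : E d) (F : BP d) : ev (sb y F) x = ev2 F x y := by
  induction F using MvPolynomial.induction_on with
  | C a => simp [sb, ev, ev2]
  | add p q hp hq => rw [map_add, ev2_add, ← hp, ← hq]; simp [ev]
  | mul_X p i hp =>
    rw [map_mul, ev2_mul, ← hp]
    cases i <;> simp [sb, ev, ev2]

theorem cancel (y : E d) (m : ℕ) (H : BP d) (h : ∀ x, ev2 (sP d ^ m * H) x y = 0) (x : E d) :
    ev2 H x y = 0 := by
  have h0 : sb y (sP d ^ m * H) = 0 := MvPolynomial.funext fun v => by
    have := h (WithLp.toLp 2 v)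
    rw [← ev_sb] at this
    simpa [ev] using this
  have h1 : sb y (sP d) ≠ 0 := fun e => by
    have := ev_sb y y (sP d)
    rw [e, ev2_sP] at this
    simp [ev] at this
  rw [map_mul, map_pow] at h0
  rcases mul_eq_zero.1 h0 with h0 | h0
  · exact absurd (pow_eq_zero_iff' .. |>.1 h0).1 h1
  · rw [← ev_sb, h0]; simp [ev]

theorem cont (F : BP d) (y : E d) : Continuous fun x => ev2 F x y := by
  induction F using MvPolynomial.induction_on with
  | C a => simpa [ev2] using continuous_const
  | add p q hp hq => simp only [ev2_add]; exact hp.add hq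
  | mul_X p i hp =>
    simp only [ev2_mul]
    refine hp.mul ?_
    cases i <;> simp only [ev2, eval_X, Sum.elim_inl, Sum.elim_inr] <;> fun_prop

theorem dens (f : E d → ℝ) (hf : Continuous f) (c : E d) (hc : c ≠ 0)
    (h : ∀ w : E d, ‖w‖ = 1 → ⟪c, w⟫ * f w = 0) (w : E d) (hw : ‖w‖ = 1) : f w = 0 := by
  by_cases h0 : ⟪c, w⟫ = 0
  swap
  · exact (mul_eq_zero.1 (h w hw)).resolve_left h0
  have hn : ∀ t : ℝ, w + t • c ≠ 0 := fun t e => by
    have := congrArg (fun v => ⟪v, w⟫) e
    simp [inner_add_left, inner_smul_left, h0, hw] at this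
  have hc2 : ⟪c, c⟫ ≠ 0 := by simpa using hc
  have hg : Continuous fun t : ℝ => f (‖w + t • c‖⁻¹ • (w + t • c)) := by
    have h1 : Continuous fun t : ℝ => w + t • c := by fun_prop
    exact hf.comp ((h1.norm.inv₀ fun t => norm_ne_zero_iff.2 (hn t)).smul h1)
  have hz : Set.EqOn (fun t : ℝ => f (‖w + t • c‖⁻¹ • (w + t • c))) (fun _ => 0) {0}ᶜ := by
    intro t ht
    have ht : t ≠ 0 := ht
    have h1 := h _ (norm_smul_inv_norm (𝕜 := ℝ) (hn t))
    refine (mul_eq_zero.1 h1).resolve_left ?_
    rw [inner_smul_right, inner_add_right, inner_smul_right, h0, zero_add]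
    exact mul_ne_zero (inv_ne_zero (by simpa using hn t)) (mul_ne_zero ht hc2)
  have := congrFun (Continuous.ext_on (dense_compl_singleton (0 : ℝ)) hg continuous_const hz) 0
  simpa [hw] using this

end A2x

open A2x in
theorem sA2 : SDiv → SA2 := by
  intro hD d n Q Q' W hW hQ hE
  rcases Nat.eq_zero_or_pos d with rfl | hd
  · have hb : W = ⊥ := Submodule.finrank_eq_zero.1 (Nat.le_zero.1 hW)
    intro z z'
    have : evv Q z = 0 := by simpa [hb] using hQ z
    simp [this, lz]
  by_contra hK
  have hK0 : Kp Q Q' ≠ 0 := fun e => hK fun z z' => by rw [← ev2_Kp, e, ev2_zero]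
  have hs : ¬ IsUnit (sP d) := fun hu => by
    obtain ⟨t, ht⟩ := hu.exists_right_inv
    have := congrArg (fun F => ev2 F 0 (EuclideanSpace.single ⟨0, hd⟩ 1)) ht
    simp [ev2_sP] at this
  obtain ⟨m, L, hL, hKL⟩ := WfDvdMonoid.max_power_factor' hK0 hs
  have hdv : sP d ∣ Kp Q Q' := hD d _ hd fun x w hw => by rw [ev2_Kp]; exact hE x w hw
  obtain _ | m := m
  · exact hL (by simpa [hKL] using hdv)
  refine hL (hD d L hd fun x w hw => ?_)
  obtain ⟨g, hg, hgv⟩ := dep W hW fun i => Option.elim i (evv Q' (x + w))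
    fun k => evv (fun a => pderiv k (Q' a)) (x + w)
  have e0 : ∀ (r : ℝ) (z y : E d), ev2 (C r) z y = r := fun r z y => by simp [ev2]
  have key := cancel (x + w) m (C (g none) * sP d * L + ∑ k, C (g (some k)) *
      (C ((m : ℝ) + 1) * pderiv (Sum.inr k) (sP d) * L + sP d * pderiv (Sum.inr k) L)) fun z => by
    have h1 := hgv _ (hQ z)
    rw [Fintype.sum_option] at h1
    simp only [Option.elim, ← ev2_Kp, ← pd_Kp] at h1
    rw [← h1, hKL]
    have hp : ∀ (F : BP d) (l : ℕ), ev2 (F ^ l) z (x + w) = ev2 F z (x + w) ^ l := fun F l => by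
      simp [ev2]
    have hn : ev2 ((m + 1 : ℕ) : BP d) z (x + w) = (m : ℝ) + 1 := by simp [ev2]
    simp only [pderiv_mul, pderiv_pow, Nat.add_sub_cancel, ev2_mul, ev2_add, ev2_sum, e0, hp, hn]
    rw [mul_add, Finset.mul_sum]
    refine congrArg₂ (· + ·) (by ring) (Finset.sum_congr rfl fun k _ => by ring)
  let c : E d := WithLp.toLp 2 fun k => g (some k)
  by_cases hc : c = 0
  · have hk : ∀ k, g (some k) = 0 := fun k => congrArg (fun v : E d => v k) hc
    have h0 : g none ≠ 0 := by
      obtain ⟨i, hi⟩ := hg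
      cases i with
      | none => exact hi
      | some k => exact absurd (hk k) hi
    refine cancel (x + w) 1 L (fun z => ?_) x
    have := key z
    simp only [hk, ev2_add, ev2_mul, ev2_sum, e0, zero_mul, Finset.sum_const_zero, add_zero,
      mul_assoc] at this
    rw [pow_one, ev2_mul]
    exact (mul_eq_zero.1 this).resolve_left h0
  · have := dens (fun v => ev2 L (x + w - v) (x + w)) ((cont L _).comp (by fun_prop)) c hc
      (fun v hv => by
        have h1 := key (x + w - v)
        have h2 : ev2 (sP d) (x + w - v) (x + w) = 0 := by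
          rw [ev2_sP, show x + w - v - (x + w) = -v by abel, norm_neg, hv]; ring
        simp only [ev2_add, ev2_mul, ev2_sum, e0, h2, pd_sP, mul_zero, zero_mul, add_zero,
          zero_add] at h1
        have h3 : ⟪c, v⟫ = ∑ k, g (some k) * v k := by
          simp [c, PiLp.inner_apply, mul_comm]
        have h4 : ((m : ℝ) + 1) * (-2) * (⟪c, v⟫ * ev2 L (x + w - v) (x + w)) = 0 := by
          rw [← h1, h3, Finset.sum_mul, Finset.mul_sum]
          refine Finset.sum_congr rfl fun k _ => ?_
          simp only [PiLp.sub_apply]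
          ring
        exact (mul_eq_zero.1 h4).resolve_left (mul_ne_zero (by positivity) (by norm_num))) w hw
    simpa using this

end Pool.Agent.MP_66cee2_co.D
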