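import Mathlib

/-
The rank lemma on the isotropic cone: abstract part.
-/

namespace Pool.Agent.MP_66cee2_co.D.A3x

open MvPolynomial Module

theorem cut {S V Γ : Type} [CommRing S] [Algebra ℂ S] [AddCommGroup V] [Module ℂ V]
    [FiniteDimensional ℂ V] (ρ : S →ₐ[ℂ] (Γ → ℂ))
    (dom : ∀ f g : S, ρ f ≠ 0 → ρ g ≠ 0 → ρ (f * g) ≠ 0)
    (l : V →ₗ[ℂ] S) (hl : ∀ c, c ≠ 0 → ρ (l c) ≠ 0) (B : V → S)
    (hB : ∀ (c c' : V) (p : Γ), ∃ r : Polynomial ℂ, ∀ t : ℂ, ρ (B (c + t • c')) p = r.eval t) :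
    ∀ (m : ℕ) (Y : Submodule ℂ V) (U : Submodule ℂ (Γ → ℂ)), FiniteDimensional ℂ U →
      finrank ℂ U ≤ m → m < finrank ℂ Y → (∀ c ∈ Y, ρ (l c * B c) ∈ U) →
      ∀ c ∈ Y, ρ (B c) = 0 := by
  have nz : ∀ Y : Submodule ℂ V, 0 < finrank ℂ Y → (∀ c ∈ Y, c ≠ 0 → ρ (B c) = 0) →
      ∀ c ∈ Y, ρ (B c) = 0 := by
    intro Y hY h c hc
    by_cases h0 : c = 0
    swap
    · exact h c hc h0
    have hb : Y ≠ ⊥ := by
      rintro rfl
      simp at hY
    obtain ⟨c', hc', h'⟩ := Submodule.exists_mem_ne_zero_of_ne_bot hb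
    funext p
    obtain ⟨r, hr⟩ := hB 0 c' p
    have hr0 : r = 0 := by
      refine Polynomial.eq_zero_of_infinite_isRoot r ?_
      refine (Set.Finite.infinite_compl (Set.finite_singleton (0 : ℂ))).mono fun t ht => ?_
      have ht0 : t ≠ 0 := ht
      have := h (t • c') (Y.smul_mem t hc') (smul_ne_zero ht0 h')
      show r.eval t = 0
      rw [← hr t, zero_add, this]
      rfl
    have := hr 0
    rw [hr0, zero_smul, add_zero] at this
    rw [h0, this]
    simp
  intro m
  induction m with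
  | zero =>
    intro Y U hU hm hY h
    refine nz Y hY fun c hc h0 => ?_
    by_contra hne
    have hb : U = ⊥ := Submodule.finrank_eq_zero.1 (Nat.le_zero.1 hm)
    have := h c hc
    rw [hb, Submodule.mem_bot] at this
    exact dom _ _ (hl c h0) hne this
  | succ m ih =>
    intro Y U hU hm hY h
    refine nz Y (by omega) fun c0 hc0 h0 => ?_
    by_contra hne
    obtain ⟨x0, hx0⟩ := Function.ne_iff.1 hne
    have hx0' : ρ (B c0) x0 ≠ 0 := hx0
    have hc1 : ∃ c1 ∈ Y, c1 ∉ Submodule.span ℂ {c0} := by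
      by_contra hcon
      push Not at hcon
      have h1 : finrank ℂ Y ≤ finrank ℂ (Submodule.span ℂ {c0}) := Submodule.finrank_mono hcon
      rw [finrank_span_singleton h0] at h1
      omega
    obtain ⟨c1, hc1, hns⟩ := hc1
    have h1 : c1 ≠ 0 := by
      rintro rfl
      exact hns (Submodule.zero_mem _)
    have hct : ∀ t : ℂ, c0 + t • c1 ≠ 0 := by
      intro t ht
      have ht0 : t ≠ 0 := by
        rintro rfl
        exact h0 (by simpa using ht)
      apply hns
      rw [Submodule.mem_span_singleton]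
      refine ⟨-t⁻¹, ?_⟩
      have e : c0 = -(t • c1) := eq_neg_of_add_eq_zero_left ht
      rw [e, smul_neg, neg_smul, neg_neg, smul_smul, inv_mul_cancel₀ ht0, one_smul]
    obtain ⟨r, hr⟩ := hB c0 c1 x0
    have hr0 : r ≠ 0 := by
      rintro rfl
      have := hr 0
      rw [zero_smul, add_zero] at this
      exact hx0' (by simpa using this)
    have hprod : ∀ T : Finset ℂ, ρ (∏ t ∈ T, l (c0 + t • c1)) ≠ 0 := by
      intro T
      induction T using Finset.induction_on with
      | empty =>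
        rw [Finset.prod_empty, map_one]
        intro h'
        simpa using congrFun h' x0
      | insert a T ha iT =>
        rw [Finset.prod_insert ha]
        exact dom _ _ (hl _ (hct a)) iT
    have hF := dom _ _ (dom _ _ (hl c0 h0) hne) (dom _ _ (hl c1 h1) (hprod r.roots.toFinset))
    obtain ⟨p, hp⟩ := Function.ne_iff.1 hF
    rw [map_mul, map_mul (f := ρ) (l c1), Pi.mul_apply, Pi.mul_apply, Pi.zero_apply] at hp
    have hf : ρ (l c0 * B c0) p ≠ 0 := left_ne_zero_of_mul hp
    have ha : ρ (l c1) p ≠ 0 := left_ne_zero_of_mul (right_ne_zero_of_mul hp)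
    have hg := right_ne_zero_of_mul (right_ne_zero_of_mul hp)
    rw [map_prod, Finset.prod_apply] at hg
    let e : (Γ → ℂ) →ₗ[ℂ] ℂ := LinearMap.proj p
    let φ : V →ₗ[ℂ] ℂ := e ∘ₗ ρ.toLinearMap ∘ₗ l
    have hφ : ∀ c, φ c = ρ (l c) p := fun c => rfl
    have hU' : finrank ℂ (U ⊓ LinearMap.ker e : Submodule ℂ (Γ → ℂ)) < finrank ℂ U := by
      refine Submodule.finrank_lt_finrank_of_lt (lt_of_le_of_ne inf_le_left fun h' => hf ?_)
      have := h c0 hc0
      rw [← h'] at this
      exact this.2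
    have hY' : m < finrank ℂ (Y ⊓ LinearMap.ker φ : Submodule ℂ V) := by
      have e1 := Submodule.finrank_sup_add_finrank_inf_eq Y (LinearMap.ker φ)
      have e2 := LinearMap.finrank_range_add_finrank_ker φ
      have e3 : finrank ℂ (LinearMap.range φ) ≤ 1 := by
        simpa using Submodule.finrank_le (LinearMap.range φ)
      have e4 := Submodule.finrank_le (Y ⊔ LinearMap.ker φ)
      omega
    have key := ih (Y ⊓ LinearMap.ker φ) (U ⊓ LinearMap.ker e)
      (Submodule.finiteDimensional_inf_left _ _) (by omega) hY' (fun c hc => ⟨h c hc.1, by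
        have h2 : ρ (l c) p = 0 := hc.2
        show ρ (l c * B c) p = 0
        rw [map_mul, Pi.mul_apply, h2, zero_mul]⟩)
    have hz : φ (c0 + (-(ρ (l c0) p) / ρ (l c1) p) • c1) = 0 := by
      rw [map_add, map_smul, hφ, hφ, smul_eq_mul]
      field_simp
      ring
    have hk := key _ ⟨Y.add_mem hc0 (Y.smul_mem _ hc1), hz⟩
    have hroot : (-(ρ (l c0) p) / ρ (l c1) p) ∈ r.roots.toFinset := by
      rw [Multiset.mem_toFinset, Polynomial.mem_roots hr0, Polynomial.IsRoot, ← hr, hk]
      rfl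
    exact Finset.prod_ne_zero_iff.1 hg _ hroot hz

/-- the sum of the squares of the variables. -/
noncomputable def qq (d : ℕ) : MvPolynomial (Fin d) ℂ := ∑ i, X i ^ 2

theorem prime_qq {d : ℕ} (hd : 3 ≤ d) : Prime (qq d) := by
  obtain ⟨n, rfl⟩ : ∃ n, d = n + 3 := ⟨d - 3, by omega⟩
  have e : finSuccEquiv ℂ (n + 2) (qq (n + 3)) =
      Polynomial.X ^ 2 + Polynomial.C (qq (n + 2)) := by
    rw [qq, Fin.sum_univ_succ, map_add, map_pow, finSuccEquiv_X_zero, map_sum, qq, map_sum]
    congr 1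
    refine Finset.sum_congr rfl fun i _ => ?_
    rw [map_pow, finSuccEquiv_X_succ, map_pow]
  have hm : (Polynomial.X ^ 2 + Polynomial.C (qq (n + 2))).Monic :=
    Polynomial.monic_X_pow_add_C _ two_ne_zero
  have hdeg : (Polynomial.X ^ 2 + Polynomial.C (qq (n + 2))).natDegree = 2 :=
    Polynomial.natDegree_X_pow_add_C
  have hi : Irreducible (Polynomial.X ^ 2 + Polynomial.C (qq (n + 2))) := by
    rw [hm.irreducible_iff_roots_eq_zero_of_degree_le_three (by omega) (by omega)]
    refine Multiset.eq_zero_of_forall_notMem fun s hs => ?_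
    rw [Polynomial.mem_roots hm.ne_zero, Polynomial.IsRoot] at hs
    simp only [Polynomial.eval_add, Polynomial.eval_pow, Polynomial.eval_X,
      Polynomial.eval_C] at hs
    let g : MvPolynomial (Fin (n + 2)) ℂ →ₐ[ℂ] Polynomial ℂ :=
      aeval (Fin.cons Polynomial.X (Fin.cons 1 0))
    have h1 : g s ^ 2 + (Polynomial.X ^ 2 + 1) = 0 := by
      have := congrArg g hs
      rw [map_add, map_pow, map_zero, qq, map_sum, Fin.sum_univ_succ, Fin.sum_univ_succ] at this
      simpa [g] using this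
    have h2 := congrArg (Polynomial.eval Complex.I) h1
    have h3 := congrArg (Polynomial.eval Complex.I) (congrArg Polynomial.derivative h1)
    simp at h2
    simp [Polynomial.derivative_pow, h2] at h3
  have := (MulEquiv.irreducible_iff (finSuccEquiv ℂ (n + 2)).toMulEquiv (x := qq (n + 3))).1
    (by rw [← e] at hi; exact hi)
  exact this.prime

theorem dvd_of_cone {d : ℕ} (hd : 3 ≤ d) (f : MvPolynomial (Fin d) ℂ)
    (h : ∀ x : Fin d → ℂ, ∑ i, x i ^ 2 = 0 → aeval x f = 0) : qq d ∣ f := by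
  have hp : (Ideal.span {qq d}).IsPrime :=
    (Ideal.span_singleton_prime (prime_qq hd).ne_zero).2 (prime_qq hd)
  rw [← Ideal.mem_span_singleton, ← hp.radical, ← vanishingIdeal_zeroLocus_eq_radical (K := ℂ),
    mem_vanishingIdeal_iff]
  intro x hx
  have := hx _ (Ideal.mem_span_singleton_self (qq d))
  refine h x ?_
  simpa [qq] using this

end Pool.Agent.MP_66cee2_co.D.A3x
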