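import Pool.Agent.MP_66cee2_co.D.SpecA
import Pool.Agent.MP_66cee2_co.D.A3k

/-
The rank lemma on the isotropic cone.
-/

namespace Pool.Agent.MP_66cee2_co.D

open MvPolynomial Module Pool.Agent.MP_66cee2_co.X

namespace A3x

theorem span_of_minor {α β : Type} (K : α → β → ℂ) (N : ℕ) (xs : Fin N → α) (ys : Fin N → β)
    (h0 : (Matrix.of fun a b => K (xs a) (ys b)).det ≠ 0)
    (h : ∀ (xs : Fin (N + 1) → α) (ys : Fin (N + 1) → β),
      (Matrix.of fun a b => K (xs a) (ys b)).det = 0) :
    ∃ U : Submodule ℂ (α → ℂ), FiniteDimensional ℂ U ∧ finrank ℂ U ≤ N ∧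
      ∀ y, (fun x => K x y) ∈ U := by
  refine ⟨Submodule.span ℂ (Set.range fun b x => K x (ys b)),
    FiniteDimensional.span_of_finite ℂ (Set.finite_range _), ?_, fun y => ?_⟩
  · simpa [Set.finrank] using finrank_range_le_card (R := ℂ) fun b x => K x (ys b)
  · let c : Fin (N + 1) → ℂ := fun j => (-1) ^ (j : ℕ) *
      (Matrix.of fun a b => K (xs a) ((Fin.cons y ys : Fin (N + 1) → β) (j.succAbove b))).det
    have hc0 : c 0 ≠ 0 := by simpa [c] using h0
    have key : ∀ x, c 0 * K x y + ∑ b : Fin N, c b.succ * K x (ys b) = 0 := by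
      intro x
      have := h (Fin.cons x xs) (Fin.cons y ys)
      rw [Matrix.det_succ_row_zero] at this
      have e : ∀ j : Fin (N + 1), (-1) ^ (j : ℕ) *
          (Matrix.of fun a b => K ((Fin.cons x xs : Fin (N + 1) → α) a)
            ((Fin.cons y ys : Fin (N + 1) → β) b)) 0 j *
          ((Matrix.of fun a b => K ((Fin.cons x xs : Fin (N + 1) → α) a)
            ((Fin.cons y ys : Fin (N + 1) → β) b)).submatrix Fin.succ j.succAbove).det =
          c j * K x ((Fin.cons y ys : Fin (N + 1) → β) j) := by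
        intro j
        have : (Matrix.of fun a b => K ((Fin.cons x xs : Fin (N + 1) → α) a)
            ((Fin.cons y ys : Fin (N + 1) → β) b)).submatrix Fin.succ j.succAbove =
            Matrix.of fun a b => K (xs a) ((Fin.cons y ys : Fin (N + 1) → β) (j.succAbove b)) := by
          ext a b
          simp
        rw [this]
        simp only [c, Matrix.of_apply, Fin.cons_zero]
        ring
      rw [Finset.sum_congr rfl fun j _ => e j, Fin.sum_univ_succ] at this
      simpa using this
    have e : (fun x => K x y) = ∑ b : Fin N, (-(c b.succ) / c 0) • fun x => K x (ys b) := by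
      funext x
      rw [Finset.sum_apply]
      simp only [Pi.smul_apply, smul_eq_mul]
      have e2 : ∑ b : Fin N, -(c b.succ) / c 0 * K x (ys b) =
          -(∑ b : Fin N, c b.succ * K x (ys b)) / c 0 := by
        rw [← Finset.sum_neg_distrib, Finset.sum_div]
        exact Finset.sum_congr rfl fun b _ => by ring
      rw [e2, eq_div_iff hc0]
      linear_combination key x
    rw [e]
    exact Submodule.sum_mem _ fun b _ => Submodule.smul_mem _ _ (Submodule.subset_span ⟨b, rfl⟩)

theorem span_of_minors {α β : Type} (K : α → β → ℂ) (N : ℕ)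
    (h : ∀ (xs : Fin (N + 1) → α) (ys : Fin (N + 1) → β),
      (Matrix.of fun a b => K (xs a) (ys b)).det = 0) :
    ∃ U : Submodule ℂ (α → ℂ), FiniteDimensional ℂ U ∧ finrank ℂ U ≤ N ∧
      ∀ y, (fun x => K x y) ∈ U := by
  induction N with
  | zero => exact span_of_minor K 0 Fin.elim0 Fin.elim0 (by simp) h
  | succ N ih =>
    by_cases h' : ∀ (xs : Fin (N + 1) → α) (ys : Fin (N + 1) → β),
        (Matrix.of fun a b => K (xs a) (ys b)).det = 0
    · obtain ⟨U, h1, h2, h3⟩ := ih h'
      exact ⟨U, h1, by omega, h3⟩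
    · push Not at h'
      obtain ⟨xs, ys, h0⟩ := h'
      exact span_of_minor K (N + 1) xs ys h0 h

variable {d : ℕ}

/-- substitution of the second point. -/
noncomputable def sb (y : Fin d → ℂ) : BP d →ₐ[ℝ] MvPolynomial (Fin d) ℂ :=
  aeval (Sum.elim X fun i => C (y i))

theorem sb_C (y : Fin d → ℂ) (a : ℝ) : sb y (C a) = C (a : ℂ) := by
  rw [sb, aeval_C]
  rfl

theorem sb_inl (y : Fin d → ℂ) (i : Fin d) : sb y (X (Sum.inl i)) = X i := by
  rw [sb, aeval_X]
  rfl

theorem sb_inr (y : Fin d → ℂ) (i : Fin d) : sb y (X (Sum.inr i)) = C (y i) := by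
  rw [sb, aeval_X]
  rfl

theorem sb_poly (F : BP d) : ∀ g : MvPolynomial (Fin d) ℂ →ₗ[ℂ] ℂ,
    ∃ P : MvPolynomial (Fin d) ℂ, ∀ y, g (sb y F) = eval y P := by
  induction F using MvPolynomial.induction_on with
  | C a => exact fun g => ⟨C (g (C (a : ℂ))), fun y => by rw [sb_C, eval_C]⟩
  | add p q hp hq =>
    intro g
    obtain ⟨P, hP⟩ := hp g
    obtain ⟨Q, hQ⟩ := hq g
    exact ⟨P + Q, fun y => by rw [map_add, map_add, map_add, hP, hQ]⟩
  | mul_X p s hp =>
    intro g
    cases s with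
    | inl i =>
      obtain ⟨P, hP⟩ := hp (g ∘ₗ LinearMap.mulRight ℂ (X i))
      exact ⟨P, fun y => by rw [map_mul, sb_inl, ← hP]; rfl⟩
    | inr i =>
      obtain ⟨P, hP⟩ := hp g
      refine ⟨P * X i, fun y => ?_⟩
      rw [map_mul, sb_inr, mul_comm, ← smul_eq_C_mul, map_smul, hP, map_mul, eval_X, smul_eq_mul,
        mul_comm]

theorem line_poly (P : MvPolynomial (Fin d) ℂ) (c c' : Fin d → ℂ) :
    ∃ r : Polynomial ℂ, ∀ t : ℂ, eval (c + t • c') P = r.eval t := by
  induction P using MvPolynomial.induction_on with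
  | C a => exact ⟨Polynomial.C a, fun t => by simp⟩
  | add p q hp hq =>
    obtain ⟨r, hr⟩ := hp
    obtain ⟨s, hs⟩ := hq
    exact ⟨r + s, fun t => by rw [map_add, hr, hs, Polynomial.eval_add]⟩
  | mul_X p i hp =>
    obtain ⟨r, hr⟩ := hp
    refine ⟨r * (Polynomial.C (c i) + Polynomial.C (c' i) * Polynomial.X), fun t => ?_⟩
    rw [map_mul, hr]
    simp [mul_comm t]

theorem zero_of_real (P : MvPolynomial (Fin d) ℂ)
    (h : ∀ y : E d, eval (fun i => (y i : ℂ)) P = 0) : P = 0 := by
  refine MvPolynomial.funext_set (fun _ => Set.range ((↑) : ℝ → ℂ))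
    (fun _ => Set.infinite_range_of_injective Complex.ofReal_injective) fun x hx => ?_
  choose y hy using fun i => hx i (Set.mem_univ i)
  have := h (WithLp.toLp 2 y)
  rw [map_zero, ← funext hy]
  exact this

theorem eval_sb (F : BP d) (x y : E d) :
    eval (fun i => (x i : ℂ)) (sb (fun i => (y i : ℂ)) F) = (ev2 F x y : ℂ) := by
  induction F using MvPolynomial.induction_on with
  | C a => simp [ev2]
  | add p q hp hq => rw [map_add, map_add, hp, hq, ev2_add, Complex.ofReal_add]
  | mul_X p s hp =>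
    rw [map_mul, map_mul, hp, ev2_mul, Complex.ofReal_mul]
    cases s with
    | inl i => simp [sb_inl, ev2]
    | inr i => simp [sb_inr, ev2]

/-- values at real points. -/
noncomputable def rl (d : ℕ) : MvPolynomial (Fin d) ℂ →ₗ[ℂ] (E d → ℂ) :=
  LinearMap.pi fun x => (aeval (R := ℂ) fun i => (x i : ℂ)).toLinearMap

theorem rl_apply (P : MvPolynomial (Fin d) ℂ) (x : E d) :
    rl d P x = eval (fun i => (x i : ℂ)) P := by
  simp [rl]

theorem small_span (N : ℕ) (F : BP d) (h : ∀ xs ys : Fin (N + 1) → E d,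
    (Matrix.of fun a b => ev2 F (xs a) (ys b)).det = 0) :
    ∃ U : Submodule ℂ (E d → ℂ), FiniteDimensional ℂ U ∧ finrank ℂ U ≤ N ∧
      ∀ y : Fin d → ℂ, rl d (sb y F) ∈ U := by
  obtain ⟨U, h1, h2, h3⟩ := span_of_minors (fun x y : E d => (ev2 F x y : ℂ)) N fun xs ys => by
    have := (Complex.ofRealHom.map_det (Matrix.of fun a b => ev2 F (xs a) (ys b))).symm
    rw [h xs ys, map_zero] at this
    exact this
  refine ⟨U, h1, h2, fun y => ?_⟩
  rw [← Submodule.Quotient.mk_eq_zero, ← forall_dual_apply_eq_zero_iff ℂ]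
  intro g
  obtain ⟨P, hP⟩ := sb_poly F (g ∘ₗ U.mkQ ∘ₗ rl d)
  have hP0 : P = 0 := zero_of_real P fun z => by
    rw [← hP]
    have e : rl d (sb (fun i => (z i : ℂ)) F) = fun x => (ev2 F x z : ℂ) :=
      funext fun x => by rw [rl_apply, eval_sb]
    have : U.mkQ (rl d (sb (fun i => (z i : ℂ)) F)) = 0 := by
      rw [e]
      exact (Submodule.Quotient.mk_eq_zero U).2 (h3 z)
    simp only [LinearMap.comp_apply, this, map_zero]
  have := hP y
  rw [hP0, map_zero] at this
  exact this

/-- the isotropic cone. -/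
abbrev Cn (d : ℕ) : Type := {x : Fin d → ℂ // ∑ i, x i ^ 2 = 0}

/-- values on the cone. -/
noncomputable def rh (d : ℕ) : MvPolynomial (Fin d) ℂ →ₐ[ℂ] (Cn d → ℂ) :=
  AlgHom.pi fun p => aeval p.1

theorem rh_apply (P : MvPolynomial (Fin d) ℂ) (p : Cn d) : rh d P p = aeval p.1 P := rfl

theorem rh_qq : rh d (qq d) = 0 := by
  funext p
  rw [rh_apply]
  simpa [qq] using p.2

theorem rh_eq_zero (hd : 3 ≤ d) (f : MvPolynomial (Fin d) ℂ) : rh d f = 0 ↔ qq d ∣ f := by
  constructor
  · exact fun h => dvd_of_cone hd f fun x hx => congrFun h ⟨x, hx⟩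
  · rintro ⟨g, rfl⟩
    rw [map_mul, rh_qq, zero_mul]

/-- linear forms. -/
noncomputable def lf (d : ℕ) : (Fin d → ℂ) →ₗ[ℂ] MvPolynomial (Fin d) ℂ :=
  Fintype.linearCombination ℂ fun i => X i

theorem rh_lf (hd : 3 ≤ d) (c : Fin d → ℂ) (hc : c ≠ 0) : rh d (lf d c) ≠ 0 := by
  intro h
  apply hc
  funext i
  obtain ⟨k, hk⟩ : ∃ k : Fin d, k ≠ i := by
    have : Nontrivial (Fin d) := Fin.nontrivial_iff_two_le.2 (by omega)
    exact exists_ne i
  have key : ∀ s : ℂ, s ^ 2 = -1 → c i + c k * s = 0 := by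
    intro s hs
    have h1 : ∑ j, (Pi.single i 1 + Pi.single k s : Fin d → ℂ) j ^ 2 = 0 := by
      have : (Pi.single i 1 + Pi.single k s : Fin d → ℂ) ⬝ᵥ (Pi.single i 1 + Pi.single k s) = 0 := by
        simp only [add_dotProduct, single_dotProduct, Pi.add_apply, Pi.single_eq_same,
          Pi.single_eq_of_ne hk, Pi.single_eq_of_ne hk.symm]
        linear_combination hs
      simpa only [dotProduct, sq] using this
    have h2 := congrFun h ⟨_, h1⟩
    rw [rh_apply, lf, Fintype.linearCombination_apply, map_sum] at h2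
    simp only [map_smul, aeval_X, smul_eq_mul, Pi.zero_apply] at h2
    have h3 : c ⬝ᵥ (Pi.single i 1 + Pi.single k s) = 0 := h2
    simpa [dotProduct_add] using h3
  have h1 := key Complex.I Complex.I_sq
  have h2 := key (-Complex.I) (by rw [neg_sq, Complex.I_sq])
  show c i = 0
  linear_combination (h1 + h2) / 2

theorem sb_Cc (A : ℤ → BP d) (j : ℤ) (y : Fin d → ℂ) :
    sb y (Cc A j) = qq d * sb y (A (j - 1)) - 2 * lf d y * sb y (A j) +
      C (∑ i, y i ^ 2) * sb y (A (j + 1)) := by
  have e1 : sb y (nx d) = qq d := by simp only [nx, qq, map_sum, map_pow, sb_inl]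
  have e2 : sb y (xy d) = lf d y := by
    simp only [xy, lf, map_sum, map_mul, sb_inl, sb_inr, Fintype.linearCombination_apply,
      smul_eq_C_mul]
    exact Finset.sum_congr rfl fun i _ => mul_comm _ _
  have e3 : sb y (ny d) = C (∑ i, y i ^ 2) := by simp only [ny, map_sum, map_pow, sb_inr]
  simp only [Cc, map_add, map_sub, map_mul, e1, e2, e3, map_ofNat]

theorem step (hd : 3 ≤ d) (A : ℤ → BP d) (hA : (Function.support A).Finite)
    (h : ∀ j, A j ≠ 0 → ∀ xs ys : Fin d → E d,
      (Matrix.of fun a b => ev2 (Cc A j) (xs a) (ys b)).det = 0) (e : ℕ)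
    (he : ∀ j y, qq d ^ e ∣ sb y (A j)) : ∀ j y, qq d ^ (e + 1) ∣ sb y (A j) := by
  have hq := prime_qq hd
  have hinj : Function.Injective (LinearMap.mulLeft ℂ (qq d ^ e)) := fun f g hfg =>
    mul_left_cancel₀ (pow_ne_zero e hq.ne_zero) hfg
  obtain ⟨G, hG⟩ := (LinearMap.mulLeft ℂ (qq d ^ e)).exists_leftInverse_of_injective
    (LinearMap.ker_eq_bot.2 hinj)
  have hb : ∀ j y, sb y (A j) = qq d ^ e * G (sb y (A j)) := by
    intro j y
    obtain ⟨g, hg⟩ := he j y
    have : G (qq d ^ e * g) = g := LinearMap.congr_fun hG g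
    rw [hg, this]
  have h0 : ∀ j, A j = 0 → ∀ y, rh d (G (sb y (A j))) = 0 := fun j hj y => by
    rw [hj, map_zero, map_zero, map_zero]
  have hs : ∀ j, (∀ y, rh d (G (sb y (A (j + 1)))) = 0) → ∀ y, rh d (G (sb y (A j))) = 0 := by
    intro j hj
    by_cases hz : A j = 0
    · exact h0 j hz
    obtain ⟨N, rfl⟩ : ∃ N, d = N + 1 := ⟨d - 1, by omega⟩
    obtain ⟨U, h1, h2, h3⟩ := small_span N (Cc A j) (h j hz)
    let μ := rl (N + 1) ∘ₗ LinearMap.mulLeft ℂ (qq (N + 1) ^ e)
    have hμ : Function.Injective μ := by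
      refine Function.Injective.comp (g := rl (N + 1)) ?_ hinj
      rw [injective_iff_map_eq_zero]
      exact fun P hP => zero_of_real P fun x => by rw [← rl_apply, hP]; rfl
    let f : U.comap μ →ₗ[ℂ] U := μ.restrict fun x hx => hx
    have hf : Function.Injective f := fun a b hab =>
      Subtype.ext (hμ (congrArg Subtype.val hab))
    have hfin : FiniteDimensional ℂ (U.comap μ) := FiniteDimensional.of_injective f hf
    have hle : finrank ℂ (U.comap μ) ≤ finrank ℂ U := LinearMap.finrank_le_finrank_of_injective hf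
    have hle2 := Submodule.finrank_map_le (rh (N + 1)).toLinearMap (U.comap μ)
    intro y
    refine cut (rh (N + 1)) (fun f g hf hg hfg => ?_) (lf (N + 1)) (rh_lf hd)
      (fun y => G (sb y (A j))) (fun c c' p => ?_) N ⊤
      ((U.comap μ).map (rh (N + 1)).toLinearMap) inferInstance (by omega) (by simp)
      (fun c _ => ?_) y trivial
    · rw [Ne, rh_eq_zero hd] at hf hg
      rw [rh_eq_zero hd] at hfg
      exact (hq.dvd_or_dvd hfg).elim hf hg
    · obtain ⟨P, hP⟩ := sb_poly (A j) (LinearMap.proj p ∘ₗ (rh (N + 1)).toLinearMap ∘ₗ G)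
      obtain ⟨r, hr⟩ := line_poly P c c'
      exact ⟨r, fun t => by rw [← hr, ← hP]; rfl⟩
    · let g := qq (N + 1) * G (sb c (A (j - 1))) - 2 * lf (N + 1) c * G (sb c (A j)) +
        C (∑ i, c i ^ 2) * G (sb c (A (j + 1)))
      have hg : g ∈ U.comap μ := by
        have e1 : qq (N + 1) ^ e * g = sb c (Cc A j) := by
          rw [sb_Cc]
          linear_combination (-qq (N + 1)) * hb (j - 1) c + 2 * lf (N + 1) c * hb j c -
            C (∑ i, c i ^ 2) * hb (j + 1) c
        show rl (N + 1) (qq (N + 1) ^ e * g) ∈ U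
        rw [e1]
        exact h3 c
      refine ⟨(-1 / 2 : ℂ) • g, Submodule.smul_mem _ _ hg, ?_⟩
      rw [map_smul]
      show (-1 / 2 : ℂ) • rh (N + 1) g = _
      simp only [g, map_add, map_sub, map_mul, rh_qq, hj c, map_ofNat]
      funext p
      simp only [Pi.smul_apply, Pi.add_apply, Pi.sub_apply, Pi.mul_apply,
        Pi.ofNat_apply, smul_eq_mul]
      ring
  obtain ⟨J, hJ⟩ := hA.bddAbove
  have hJ' : ∀ j, J < j → A j = 0 := fun j hj => by
    by_contra hne
    exact absurd (hJ hne) (not_le.2 hj)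
  have hall : ∀ j y, rh d (G (sb y (A j))) = 0 := by
    intro j
    by_cases hj : j ≤ J + 1
    · induction j, hj using Int.leInductionDown with
      | base => exact h0 _ (hJ' _ (by omega))
      | pred n _ ih => exact hs (n - 1) (by rwa [sub_add_cancel])
    · exact h0 _ (hJ' _ (by omega))
  intro j y
  rw [hb j y, pow_succ]
  exact mul_dvd_mul_left _ ((rh_eq_zero hd _).1 (hall j y))

end A3x

theorem sA3 : SA3 := by
  intro d A hd hA h
  have hall : ∀ e j y, A3x.qq d ^ e ∣ A3x.sb y (A j) := by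
    intro e
    induction e with
    | zero => exact fun j y => by simp
    | succ e ih => exact A3x.step hd A hA h e ih
  funext j
  refine eq_zero_of_ev2 fun x y => ?_
  have h0 : A3x.sb (fun i => (y i : ℂ)) (A j) = 0 := by
    by_contra hne
    obtain ⟨e, he⟩ := FiniteMultiplicity.of_prime_left (A3x.prime_qq hd) hne
    exact he (hall _ j _)
  have := A3x.eval_sb (A j) x y
  rw [h0, map_zero] at this
  exact_mod_cast this.symm

end Pool.Agent.MP_66cee2_co.D
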