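import Mathlib

/-
Division of a polynomial by a monic quadratic in one of the variables.
-/

namespace Pool.Agent.MP_66cee2_co.D.H58

open MvPolynomial Function

variable {σ : Type} [DecidableEq σ]

/-- the polynomial does not depend on the variable `i`. -/
def Ind (i : σ) (p : MvPolynomial σ ℝ) : Prop :=
  ∀ (v : σ → ℂ) (t : ℂ), aeval (update v i t) p = aeval v p

theorem exists_rem (i : σ) (b c : MvPolynomial σ ℝ) (hb : Ind i b) (hc : Ind i c)
    (K : MvPolynomial σ ℝ) :
    ∃ q r0 r1 : MvPolynomial σ ℝ, Ind i r0 ∧ Ind i r1 ∧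
      K = (X i ^ 2 + b * X i + c) * q + r0 + r1 * X i := by
  induction K using MvPolynomial.induction_on with
  | C a => exact ⟨0, C a, 0, fun v t => by simp, fun v t => by simp, by ring⟩
  | add p p' hp hp' =>
    obtain ⟨q, r0, r1, h0, h1, rfl⟩ := hp
    obtain ⟨q', r0', r1', h0', h1', rfl⟩ := hp'
    refine ⟨q + q', r0 + r0', r1 + r1', fun v t => ?_, fun v t => ?_, by ring⟩
    · rw [map_add, map_add, h0 v t, h0' v t]
    · rw [map_add, map_add, h1 v t, h1' v t]
  | mul_X p j hp =>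
    obtain ⟨q, r0, r1, h0, h1, rfl⟩ := hp
    by_cases hj : j = i
    · subst hj
      refine ⟨q * X j + r1, -(r1 * c), r0 - r1 * b, fun v t => ?_, fun v t => ?_, by ring⟩
      · rw [map_neg, map_neg, map_mul, map_mul, h1 v t, hc v t]
      · rw [map_sub, map_sub, map_mul, map_mul, h0 v t, h1 v t, hb v t]
    · refine ⟨q * X j, r0 * X j, r1 * X j, fun v t => ?_, fun v t => ?_, by ring⟩
      · rw [map_mul, map_mul, h0 v t, aeval_X, aeval_X, update_of_ne hj]
      · rw [map_mul, map_mul, h1 v t, aeval_X, aeval_X, update_of_ne hj]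

omit [DecidableEq σ] in
theorem aeval_ofReal (u : σ → ℝ) (p : MvPolynomial σ ℝ) :
    aeval (fun j => (u j : ℂ)) p = ((eval u p : ℝ) : ℂ) := by
  induction p using MvPolynomial.induction_on with
  | C a => simp
  | add p p' hp hp' => rw [map_add, map_add, hp, hp']; push_cast; ring
  | mul_X p j hp => rw [map_mul, map_mul, hp, aeval_X, eval_X]; push_cast; ring

omit [DecidableEq σ] in
/-- a polynomial that vanishes on a nonempty open set is zero. -/
theorem eq_zero_of_open [Finite σ] (p : MvPolynomial σ ℝ) {U : Set (σ → ℝ)} (hU : IsOpen U)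
    (hne : U.Nonempty) (h : ∀ u ∈ U, eval u p = 0) : p = 0 := by
  have := Fintype.ofFinite σ
  obtain ⟨u, hu⟩ := hne
  obtain ⟨ε, hε, hb⟩ := Metric.isOpen_iff.1 hU u hu
  refine MvPolynomial.funext_set (fun j => Set.Ioo (u j - ε) (u j + ε))
    (fun j => Set.Ioo_infinite (by linarith)) fun x hx => ?_
  rw [map_zero]
  refine h x (hb ?_)
  rw [Metric.mem_ball, dist_pi_lt_iff hε]
  intro j
  have hj := hx j (Set.mem_univ j)
  rw [Real.dist_eq, abs_lt]
  constructor <;> linarith [hj.1, hj.2]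

/-- two common roots over an open set of parameters give divisibility. -/
theorem dvd_of_roots [Finite σ] (i : σ) (b c K : MvPolynomial σ ℝ) (hb : Ind i b) (hc : Ind i c)
    {U : Set (σ → ℝ)} (hU : IsOpen U) (hne : U.Nonempty)
    (h : ∀ u ∈ U, ∃ t t' : ℂ, t ≠ t' ∧
      aeval (update (fun j => (u j : ℂ)) i t) (X i ^ 2 + b * X i + c) = 0 ∧
      aeval (update (fun j => (u j : ℂ)) i t') (X i ^ 2 + b * X i + c) = 0 ∧
      aeval (update (fun j => (u j : ℂ)) i t) K = 0 ∧
      aeval (update (fun j => (u j : ℂ)) i t') K = 0) :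
    (X i ^ 2 + b * X i + c) ∣ K := by
  obtain ⟨q, r0, r1, h0, h1, hK⟩ := exists_rem i b c hb hc K
  have key : ∀ u ∈ U, eval u r0 = 0 ∧ eval u r1 = 0 := by
    intro u hu
    obtain ⟨t, t', htt, hs, hs', hk, hk'⟩ := h u hu
    rw [hK, map_add, map_add, map_mul, hs, zero_mul, zero_add, map_mul, h0, h1, aeval_X,
      update_self, aeval_ofReal, aeval_ofReal] at hk
    rw [hK, map_add, map_add, map_mul, hs', zero_mul, zero_add, map_mul, h0, h1, aeval_X,
      update_self, aeval_ofReal, aeval_ofReal] at hk'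
    have e1 : ((eval u r1 : ℝ) : ℂ) * (t - t') = 0 := by linear_combination hk - hk'
    have e2 : ((eval u r1 : ℝ) : ℂ) = 0 :=
      (mul_eq_zero.1 e1).resolve_right (sub_ne_zero.2 htt)
    rw [e2, zero_mul, add_zero] at hk
    exact ⟨by exact_mod_cast hk, by exact_mod_cast e2⟩
  have z0 : r0 = 0 := eq_zero_of_open r0 hU hne fun u hu => (key u hu).1
  have z1 : r1 = 0 := eq_zero_of_open r1 hU hne fun u hu => (key u hu).2
  exact ⟨q, by rw [hK, z0, z1]; ring⟩

theorem Ind.sum {ι : Type} {i : σ} (s : Finset ι) (f : ι → MvPolynomial σ ℝ)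
    (h : ∀ k ∈ s, Ind i (f k)) : Ind i (∑ k ∈ s, f k) := fun v t => by
  rw [map_sum, map_sum]
  exact Finset.sum_congr rfl fun k hk => h k hk v t

theorem update_ofReal (u : σ → ℝ) (i : σ) (t : ℝ) :
    update (fun j => (u j : ℂ)) i (t : ℂ) = fun j => ((update u i t j : ℝ) : ℂ) := by
  funext j
  by_cases hj : j = i
  · subst hj; simp
  · simp [update_of_ne hj]

/-- a polynomial that vanishes on all unit pairs is a multiple of the quadric. -/
theorem sphere_dvd {d : ℕ} (hd : 1 ≤ d) (K : MvPolynomial (Fin d ⊕ Fin d) ℝ)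
    (h : ∀ x y : Fin d → ℝ, ∑ i, (x i - y i) ^ 2 = 1 → eval (Sum.elim x y) K = 0) :
    (1 - ∑ i, (X (Sum.inl i) - X (Sum.inr i)) ^ 2 : MvPolynomial (Fin d ⊕ Fin d) ℝ) ∣ K := by
  let i0 : Fin d := ⟨0, hd⟩
  let c : MvPolynomial (Fin d ⊕ Fin d) ℝ := X (Sum.inl i0) ^ 2 +
    ∑ i ∈ Finset.univ.erase i0, (X (Sum.inl i) - X (Sum.inr i)) ^ 2 - 1
  let b : MvPolynomial (Fin d ⊕ Fin d) ℝ := -(2 * X (Sum.inl i0))
  have hs : (X (Sum.inr i0) ^ 2 + b * X (Sum.inr i0) + c) =
      -(1 - ∑ i, (X (Sum.inl i) - X (Sum.inr i)) ^ 2 : MvPolynomial (Fin d ⊕ Fin d) ℝ) := by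
    rw [← Finset.add_sum_erase Finset.univ _ (Finset.mem_univ i0)]
    simp only [b, c]
    ring
  have hb : Ind (Sum.inr i0) b := fun v t => by
    simp [b, map_ofNat]
  have hc : Ind (Sum.inr i0) c := fun v t => by
    have := Ind.sum (i := (Sum.inr i0 : Fin d ⊕ Fin d)) (Finset.univ.erase i0)
      (fun i => ((X (Sum.inl i) - X (Sum.inr i)) ^ 2 : MvPolynomial (Fin d ⊕ Fin d) ℝ))
      (fun k hk v t => by
        have hk' : (Sum.inr k : Fin d ⊕ Fin d) ≠ Sum.inr i0 := by
          simpa using (Finset.mem_erase.1 hk).1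
        simp [update_of_ne hk']) v t
    simp only [c, map_sub, map_add, this]
    simp
  rw [← neg_dvd, ← hs]
  let g : (Fin d ⊕ Fin d → ℝ) → ℝ := fun u =>
    ∑ i ∈ Finset.univ.erase i0, (u (Sum.inl i) - u (Sum.inr i)) ^ 2
  have hg : Continuous g := by fun_prop
  refine dvd_of_roots (Sum.inr i0) b c K hb hc (U := {u | g u < 1})
    (isOpen_lt hg continuous_const) ⟨0, by simp [g]⟩ fun u hu => ?_
  have hu' : 0 < 1 - g u := sub_pos.2 hu
  have main : ∀ r : ℝ, r ^ 2 = 1 - g u →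
      ∑ i, (update u (Sum.inr i0) (u (Sum.inl i0) + r) (Sum.inl i) -
        update u (Sum.inr i0) (u (Sum.inl i0) + r) (Sum.inr i)) ^ 2 = 1 := by
    intro r hr
    rw [← Finset.add_sum_erase Finset.univ _ (Finset.mem_univ i0)]
    have e : ∑ i ∈ Finset.univ.erase i0,
        (update u (Sum.inr i0) (u (Sum.inl i0) + r) (Sum.inl i) -
          update u (Sum.inr i0) (u (Sum.inl i0) + r) (Sum.inr i)) ^ 2 = g u :=
      Finset.sum_congr rfl fun k hk => by
        have hk' : (Sum.inr k : Fin d ⊕ Fin d) ≠ Sum.inr i0 := by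
          simpa using (Finset.mem_erase.1 hk).1
        simp [update_of_ne hk']
    rw [e]
    simp only [update_self, ne_eq, reduceCtorEq, not_false_eq_true, update_of_ne]
    linear_combination hr
  have both : ∀ r : ℝ, r ^ 2 = 1 - g u →
      aeval (update (fun j => (u j : ℂ)) (Sum.inr i0) ((u (Sum.inl i0) + r : ℝ) : ℂ))
        (X (Sum.inr i0) ^ 2 + b * X (Sum.inr i0) + c) = 0 ∧
      aeval (update (fun j => (u j : ℂ)) (Sum.inr i0) ((u (Sum.inl i0) + r : ℝ) : ℂ)) K = 0 := by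
    intro r hr
    rw [update_ofReal, aeval_ofReal, aeval_ofReal, hs]
    constructor
    · have := main r hr
      simp only [map_neg, map_sub, map_one, map_sum, map_pow, eval_X, this]
      simp
    · have := h _ _ (main r hr)
      have e : (Sum.elim (fun i => update u (Sum.inr i0) (u (Sum.inl i0) + r) (Sum.inl i))
          fun i => update u (Sum.inr i0) (u (Sum.inl i0) + r) (Sum.inr i)) =
          update u (Sum.inr i0) (u (Sum.inl i0) + r) := by
        funext j
        cases j <;> rfl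
      rw [e] at this
      rw [this]; simp
  have hsq : √(1 - g u) ^ 2 = 1 - g u := Real.sq_sqrt hu'.le
  have hpos : 0 < √(1 - g u) := Real.sqrt_pos.2 hu'
  obtain ⟨a1, a2⟩ := both _ hsq
  obtain ⟨a3, a4⟩ := both (-√(1 - g u)) (by rw [neg_sq, hsq])
  refine ⟨_, _, fun e => ?_, a1, a3, a2, a4⟩
  have := Complex.ofReal_injective e
  linarith

/-- a polynomial that vanishes on the isotropic cone is a multiple of the sum of squares. -/
theorem cone_dvd {d : ℕ} (hd : 2 ≤ d) {τ : Type} [Finite τ] (K : MvPolynomial (Fin d ⊕ τ) ℝ)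
    (h : ∀ (x : Fin d → ℂ) (y : τ → ℝ), ∑ i, x i ^ 2 = 0 →
      aeval (Sum.elim x fun j => (y j : ℂ)) K = 0) :
    (∑ i, X (Sum.inl i) ^ 2 : MvPolynomial (Fin d ⊕ τ) ℝ) ∣ K := by
  classical
  let i0 : Fin d := ⟨0, by omega⟩
  let i1 : Fin d := ⟨1, by omega⟩
  have h10 : i1 ≠ i0 := by simp [i0, i1]
  let c : MvPolynomial (Fin d ⊕ τ) ℝ := ∑ i ∈ Finset.univ.erase i0, X (Sum.inl i) ^ 2
  have hs : (X (Sum.inl i0) ^ 2 + 0 * X (Sum.inl i0) + c) =
      (∑ i, X (Sum.inl i) ^ 2 : MvPolynomial (Fin d ⊕ τ) ℝ) := by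
    rw [← Finset.add_sum_erase Finset.univ _ (Finset.mem_univ i0)]
    simp only [c]
    ring
  have hne : ∀ k ∈ Finset.univ.erase i0, (Sum.inl k : Fin d ⊕ τ) ≠ Sum.inl i0 := fun k hk => by
    simpa using (Finset.mem_erase.1 hk).1
  have hc : Ind (Sum.inl i0) c :=
    Ind.sum _ _ fun k hk v t => by simp [update_of_ne (hne k hk)]
  rw [← hs]
  let g : (Fin d ⊕ τ → ℝ) → ℝ := fun u => ∑ i ∈ Finset.univ.erase i0, u (Sum.inl i) ^ 2
  have hg : Continuous g := by fun_prop
  refine dvd_of_roots (Sum.inl i0) 0 c K (fun v t => by simp) hc (U := {u | 0 < g u})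
    (isOpen_lt continuous_const hg) ⟨fun _ => 1, ?_⟩ fun u hu => ?_
  · show 0 < ∑ i ∈ Finset.univ.erase i0, (1 : ℝ) ^ 2
    exact Finset.sum_pos (fun _ _ => by norm_num) ⟨i1, by simp [h10]⟩
  have hu' : 0 < g u := hu
  have both : ∀ r : ℝ, r ^ 2 = g u →
      aeval (update (fun j => (u j : ℂ)) (Sum.inl i0) (r * Complex.I))
        (X (Sum.inl i0) ^ 2 + 0 * X (Sum.inl i0) + c) = 0 ∧
      aeval (update (fun j => (u j : ℂ)) (Sum.inl i0) (r * Complex.I)) K = 0 := by
    intro r hr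
    have main : ∑ i, update (fun j => (u j : ℂ)) (Sum.inl i0) (r * Complex.I) (Sum.inl i) ^ 2
        = 0 := by
      rw [← Finset.add_sum_erase Finset.univ _ (Finset.mem_univ i0)]
      have e : ∑ i ∈ Finset.univ.erase i0,
          update (fun j => (u j : ℂ)) (Sum.inl i0) (r * Complex.I) (Sum.inl i) ^ 2 =
            ((g u : ℝ) : ℂ) := by
        simp only [g]
        push_cast
        exact Finset.sum_congr rfl fun k hk => by rw [update_of_ne (hne k hk)]
      rw [e, update_self, ← hr, mul_pow, Complex.I_sq]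
      push_cast
      ring
    constructor
    · rw [hs]
      simpa only [map_sum, map_pow, aeval_X] using main
    · have := h _ (fun j => u (Sum.inr j)) main
      have e : (Sum.elim (fun i => update (fun j => (u j : ℂ)) (Sum.inl i0) (r * Complex.I)
          (Sum.inl i)) fun j => ((u (Sum.inr j) : ℝ) : ℂ)) =
          update (fun j => (u j : ℂ)) (Sum.inl i0) (r * Complex.I) := by
        funext j
        cases j <;> simp
      rwa [e] at this
  have hsq : √(g u) ^ 2 = g u := Real.sq_sqrt hu'.le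
  have hpos : 0 < √(g u) := Real.sqrt_pos.2 hu'
  obtain ⟨a1, a2⟩ := both _ hsq
  obtain ⟨a3, a4⟩ := both (-√(g u)) (by rw [neg_sq, hsq])
  refine ⟨_, _, fun e => ?_, a1, a3, a2, a4⟩
  have := Complex.ofReal_injective (mul_right_cancel₀ Complex.I_ne_zero e)
  linarith

end Pool.Agent.MP_66cee2_co.D.H58
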