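import Pool.Agent.MP_66cee2_co.XI.Kit
import Pool.Agent.MP_66cee2_co.D.H58Div

/-
The filtration lemma: polynomial vectors with positive tops on a clique are orthogonal.
-/

namespace Pool.Agent.MP_66cee2_co.D.H63

open Polynomial Pool.Agent.MP_66cee2_co.X Pool.Agent.MP_66cee2_co.XI

variable {d n : ℕ}

/-- polynomials in two points. -/
abbrev R2 (d : ℕ) : Type := MvPolynomial (Fin d ⊕ Fin d) ℝ

/-- the rank statement for a chain of polynomials. -/
def A3 (d : ℕ) : Prop :=
  ∀ A : ℕ → R2 d, A 0 = 0 → (∃ M, ∀ j, M < j → A j = 0) →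
    (∀ j, A (j + 1) ≠ 0 → ∀ x y : Fin d → Fin d → ℝ, Matrix.det (Matrix.of fun a b =>
      MvPolynomial.eval (Sum.elim (x a) (y b))
        ((∑ i, MvPolynomial.X (Sum.inl i) ^ 2) * A j -
          2 * (∑ i, MvPolynomial.X (Sum.inl i) * MvPolynomial.X (Sum.inr i)) * A (j + 1) +
          (∑ i, MvPolynomial.X (Sum.inr i) ^ 2) * A (j + 2))) = 0) → ∀ j, A j = 0

theorem det_zero (hn : n + 2 ≤ 2 * d) (F : Fin (d + 1) → Ix n → ℝ)
    (hp : ∀ k, 0 < lz (F k) (F k)) (ho : ∀ k l, k ≠ l → lz (F k) (F l) = 0) (i : Fin (d + 1))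
    (u v : Fin d → Ix n → ℝ) (hu : ∀ a k, k ≠ i → lz (u a) (F k) = 0)
    (hv : ∀ b, lz (F i) (v b) = 0) :
    Matrix.det (Matrix.of fun a b => lz (u a) (v b)) = 0 := by
  classical
  let u' : Fin d → Ix n → ℝ := fun a => u a - (lz (u a) (F i) / lz (F i) (F i)) • F i
  have hs : ∀ a z, lz (u' a) z = lz (u a) z - (lz (u a) (F i) / lz (F i) (F i)) * lz (F i) z := by
    intro a z
    simp only [u', lz, sub_dotProduct, smul_dotProduct, smul_eq_mul]
  have h1 : ∀ a k, lz (u' a) (F k) = 0 := by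
    intro a k
    rw [hs]
    by_cases hk : k = i
    · subst hk
      have := (hp k).ne'
      field_simp
      ring
    · rw [hu a k hk, ho i k (Ne.symm hk)]; ring
  have h2 : ∀ a b, lz (u' a) (v b) = lz (u a) (v b) := by
    intro a b; rw [hs, hv]; ring
  have hdep : ¬ LinearIndependent ℝ (Sum.elim u' F) := by
    intro h
    have := h.fintype_card_le_finrank
    simp at this
    omega
  rw [Fintype.not_linearIndependent_iff] at hdep
  obtain ⟨g, hg, s, hs0⟩ := hdep
  have hp2 : ∀ z, ∑ a, g (Sum.inl a) * lz (u' a) z + ∑ k, g (Sum.inr k) * lz (F k) z = 0 := by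
    intro z
    have := congrArg (fun t => lz t z) hg
    simpa [lz, Fintype.sum_sum_type, add_dotProduct, sum_dotProduct, smul_dotProduct] using this
  have hr : ∀ k, g (Sum.inr k) = 0 := by
    intro k
    have := hp2 (F k)
    rw [Finset.sum_eq_zero (fun a _ => by rw [h1, mul_zero]), zero_add,
      Finset.sum_eq_single k (fun l _ hl => by rw [ho l k hl, mul_zero]) (by simp)] at this
    exact (mul_eq_zero.1 this).resolve_right (hp k).ne'
  rw [← Matrix.exists_vecMul_eq_zero_iff]
  refine ⟨fun a => g (Sum.inl a), ?_, ?_⟩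
  · intro h0
    rcases s with a | k
    · exact hs0 (congrFun h0 a)
    · exact hs0 (hr k)
  · funext b
    have := hp2 (v b)
    simp only [hr, zero_mul, Finset.sum_const_zero, add_zero, h2] at this
    simpa [Matrix.vecMul, dotProduct] using this

/-- scaling of the first point by `S T` and of the second by `T`. -/
noncomputable def Phi : R2 d →ₐ[ℝ] (R2 d)[X][X] :=
  MvPolynomial.aeval (Sum.elim (fun i => C (C (MvPolynomial.X (Sum.inl i)) * X) * X)
    (fun i => C (C (MvPolynomial.X (Sum.inr i))) * X))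

/-- the same at two real points. -/
noncomputable def psi (x y : E d) : R2 d →ₐ[ℝ] ℝ[X][X] :=
  MvPolynomial.aeval (Sum.elim (fun i => C (C (x i) * X) * X) (fun i => C (C (y i)) * X))

/-- evaluation at two points. -/
noncomputable def e2 (x y : E d) : R2 d →+* ℝ :=
  MvPolynomial.eval (Sum.elim (fun i => x i) (fun i => y i))

theorem psi_eq (x y : E d) (p : R2 d) :
    psi x y p = (Phi p).map (mapRingHom (e2 x y)) := by
  induction p using MvPolynomial.induction_on with
  | C a => simp [psi, Phi, e2, Polynomial.algebraMap_apply]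
  | add p q hp hq => rw [map_add, map_add, Polynomial.map_add, hp, hq]
  | mul_X p j hp =>
    rw [map_mul, map_mul, Polynomial.map_mul, hp]
    congr 1
    rcases j with i | i <;> simp [psi, Phi, e2]

theorem Phi_eval (p : R2 d) : ((Phi p).eval 1).eval 1 = p := by
  induction p using MvPolynomial.induction_on with
  | C a => simp [Phi, Polynomial.algebraMap_apply]
  | add p q hp hq => rw [map_add, eval_add, eval_add, hp, hq]
  | mul_X p j hp =>
    rw [map_mul, eval_mul, eval_mul, hp]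
    congr 1
    rcases j with i | i <;> simp [Phi]

theorem psi_eval (x y : E d) (p : R2 d) : ((psi x y p).eval 1).eval 1 = e2 x y p := by
  induction p using MvPolynomial.induction_on with
  | C a => simp [psi, e2, Polynomial.algebraMap_apply]
  | add p q hp hq => rw [map_add, eval_add, eval_add, hp, hq, map_add]
  | mul_X p j hp =>
    rw [map_mul, eval_mul, eval_mul, hp, map_mul]
    congr 1
    rcases j with i | i <;> simp [psi, e2]

theorem psi_inl (x y : E d) (q : MP d) :
    psi x y (MvPolynomial.rename Sum.inl q) = ((ln q 0 x).map C).comp (C X * X) := by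
  induction q using MvPolynomial.induction_on with
  | C a => simp [psi, ln, Polynomial.algebraMap_apply]
  | add p q hp hq =>
    rw [map_add, map_add, hp, hq]
    simp [ln]
  | mul_X p j hp =>
    rw [map_mul, map_mul, hp]
    simp only [ln, map_mul, Polynomial.map_mul, mul_comp]
    congr 1
    simp [psi, mul_assoc]

theorem psi_inr (x y : E d) (q : MP d) :
    psi x y (MvPolynomial.rename Sum.inr q) = (ln q 0 y).map C := by
  induction q using MvPolynomial.induction_on with
  | C a => simp [psi, ln, Polynomial.algebraMap_apply]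
  | add p q hp hq =>
    rw [map_add, map_add, hp, hq]
    simp [ln]
  | mul_X p j hp =>
    rw [map_mul, map_mul, hp]
    simp only [ln, map_mul, Polynomial.map_mul]
    congr 1
    simp [psi]

theorem psi_prod (x y : E d) (q q' : MP d) (m a : ℕ) :
    ((psi x y (MvPolynomial.rename Sum.inl q * MvPolynomial.rename Sum.inr q')).coeff m).coeff a =
      if a ≤ m then co q x a * co q' y (m - a) else 0 := by
  rw [map_mul, psi_inl, psi_inr, coeff_mul, finsetSum_coeff]
  have : ∀ c ∈ Finset.HasAntidiagonal.antidiagonal m,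
      ((((ln q 0 x).map C).comp (C X * X)).coeff c.1 * ((ln q' 0 y).map C).coeff c.2).coeff a =
        if c = (a, m - a) then co q x a * co q' y (m - a) else 0 := by
    intro c hc
    have hc' := Finset.HasAntidiagonal.mem_antidiagonal.1 hc
    rw [comp_C_mul_X_coeff, coeff_map, coeff_map, coeff_mul_C, coeff_C_mul_X_pow]
    by_cases h : a = c.1
    · have : c = (a, m - a) := Prod.ext h.symm (by simp; omega)
      rw [if_pos h, if_pos this, this]; rfl
    · rw [if_neg h, if_neg (fun h' => h (by rw [h'])), zero_mul]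
  rw [Finset.sum_congr rfl this, Finset.sum_ite_eq']
  simp only [Finset.HasAntidiagonal.mem_antidiagonal]
  by_cases h : a ≤ m
  · rw [if_pos h, if_pos (by omega)]
  · rw [if_neg h, if_neg (by omega)]

/-- the kernel polynomial. -/
noncomputable def Kp (Q Q' : Ix n → MP d) : R2 d :=
  2 * ∑ i, MvPolynomial.rename Sum.inl (Q (Sum.inl i)) *
      MvPolynomial.rename Sum.inr (Q' (Sum.inl i)) +
    MvPolynomial.rename Sum.inl (Q (Sum.inr true)) *
      MvPolynomial.rename Sum.inr (Q' (Sum.inr false)) +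
    MvPolynomial.rename Sum.inl (Q (Sum.inr false)) *
      MvPolynomial.rename Sum.inr (Q' (Sum.inr true))

/-- the homogeneous part of degree `k` at `x`. -/
noncomputable def cv (Q : Ix n → MP d) (x : E d) (k : ℕ) : Ix n → ℝ := fun a => co (Q a) x k

theorem e2_Kp (Q Q' : Ix n → MP d) (x y : E d) :
    e2 x y (Kp Q Q') = lz (evv Q x) (evv Q' y) := by
  rw [lz_eq]
  simp [Kp, e2, evv, ev, MvPolynomial.eval_rename, Function.comp_def]

theorem psi_Kp (Q Q' : Ix n → MP d) (x y : E d) (m a : ℕ) :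
    ((psi x y (Kp Q Q')).coeff m).coeff a =
      if a ≤ m then lz (cv Q x a) (cv Q' y (m - a)) else 0 := by
  rw [lz_eq, Kp, two_mul]
  simp only [map_add, map_sum, coeff_add, finsetSum_coeff, psi_prod, cv]
  by_cases h : a ≤ m
  · simp only [if_pos h]; ring
  · simp [if_neg h]

/-- the quadratic factor. -/
noncomputable def qq (d : ℕ) : (R2 d)[X] :=
  C (∑ i, MvPolynomial.X (Sum.inl i) ^ 2) * X ^ 2 -
    C (2 * ∑ i, MvPolynomial.X (Sum.inl i) * MvPolynomial.X (Sum.inr i)) * X +
    C (∑ i, MvPolynomial.X (Sum.inr i) ^ 2)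

theorem Phi_s : Phi (1 - ∑ i, (MvPolynomial.X (Sum.inl i) - MvPolynomial.X (Sum.inr i)) ^ 2 :
    R2 d) = 1 - C (qq d) * X ^ 2 := by
  simp only [map_sub, map_one, map_sum, map_pow, Phi, MvPolynomial.aeval_X, Sum.elim_inl,
    Sum.elim_inr, qq, map_add, map_mul, map_ofNat, Finset.mul_sum, Finset.sum_mul, add_mul,
    ← Finset.sum_add_distrib, ← Finset.sum_sub_distrib]
  congr 1
  exact Finset.sum_congr rfl fun i _ => by ring

theorem pair (hd : 1 ≤ d) (Q Q' : Ix n → MP d) (hE : EdgeId Q Q')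
    (hne : ∃ x y a b, lz (cv Q x a) (cv Q' y b) ≠ 0) :
    ∃ (M : ℕ) (Λ : (R2 d)[X]), Λ ≠ 0 ∧
      (∀ x y a b, M < a + b → lz (cv Q x a) (cv Q' y b) = 0) ∧
      ∀ x y a, e2 x y ((qq d * Λ).coeff a) =
        -(if a ≤ M then lz (cv Q x a) (cv Q' y (M - a)) else 0) := by
  obtain ⟨L, hL⟩ := H58.sphere_dvd hd (Kp Q Q') fun x y h => by
    have h1 := e2_Kp Q Q' (WithLp.toLp 2 x) (WithLp.toLp 2 y)
    have h2 := hE (WithLp.toLp 2 x) (WithLp.toLp 2 y - WithLp.toLp 2 x) (by
      rw [EuclideanSpace.norm_eq]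
      simp only [PiLp.sub_apply, Real.norm_eq_abs, sq_abs]
      rw [Finset.sum_congr rfl fun i _ => show (y i - x i) ^ 2 = (x i - y i) ^ 2 by ring, h]
      simp)
    rw [add_sub_cancel] at h2
    rw [h2] at h1
    exact h1
  have hk : ∀ x y a b, lz (cv Q x a) (cv Q' y b) =
      e2 x y (((Phi (Kp Q Q')).coeff (a + b)).coeff a) := by
    intro x y a b
    have := psi_Kp Q Q' x y (a + b) a
    rw [if_pos (by omega), Nat.add_sub_cancel_left, psi_eq, coeff_map, coe_mapRingHom,
      coeff_map] at this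
    exact this.symm
  have hL0 : Phi L ≠ 0 := by
    intro h
    obtain ⟨x, y, a, b, hab⟩ := hne
    apply hab
    rw [hk, hL, map_mul, h]; simp
  have hK : Phi (Kp Q Q') = Phi L - C (qq d) * (X ^ 2 * Phi L) := by
    rw [hL, map_mul, Phi_s]; ring
  refine ⟨(Phi L).natDegree + 2, (Phi L).leadingCoeff, leadingCoeff_ne_zero.2 hL0, ?_, ?_⟩
  · intro x y a b hab
    rw [hk, hK, coeff_sub, coeff_C_mul, coeff_X_pow_mul', if_pos (by omega),
      coeff_eq_zero_of_natDegree_lt (p := Phi L) (n := a + b) (by omega),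
      coeff_eq_zero_of_natDegree_lt (p := Phi L) (n := a + b - 2) (by omega)]
    simp
  · intro x y a
    have := psi_Kp Q Q' x y ((Phi L).natDegree + 2) a
    rw [psi_eq, coeff_map, coe_mapRingHom, coeff_map, hK, coeff_sub, coeff_C_mul,
      coeff_X_pow_mul,
      coeff_eq_zero_of_natDegree_lt (p := Phi L) (n := (Phi L).natDegree + 2) (by omega),
      coeff_natDegree] at this
    rw [← this]
    simp

theorem qq_coeff (Λ : (R2 d)[X]) (a : ℕ) : (qq d * Λ).coeff a =
    (∑ i, MvPolynomial.X (Sum.inl i) ^ 2) * (X ^ 2 * Λ).coeff a -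
      2 * (∑ i, MvPolynomial.X (Sum.inl i) * MvPolynomial.X (Sum.inr i)) * (X ^ 1 * Λ).coeff a +
      (∑ i, MvPolynomial.X (Sum.inr i) ^ 2) * Λ.coeff a := by
  rw [qq, add_mul, sub_mul, mul_assoc, mul_assoc, coeff_add, coeff_sub, coeff_C_mul, coeff_C_mul,
    coeff_C_mul, pow_one]

theorem ex_pt {p : R2 d} (hp : p ≠ 0) : ∃ x y : E d, e2 x y p ≠ 0 := by
  by_contra h
  push Not at h
  apply hp
  refine MvPolynomial.funext fun z => ?_
  have := h (WithLp.toLp 2 fun i => z (Sum.inl i)) (WithLp.toLp 2 fun i => z (Sum.inr i))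
  rw [map_zero, ← this, e2]
  congr 2
  funext s
  rcases s with i | i <;> rfl

theorem sq_ne (hd : 1 ≤ d) (f : Fin d → Fin d ⊕ Fin d) :
    (∑ i, MvPolynomial.X (f i) ^ 2 : R2 d) ≠ 0 := by
  intro h
  have := congrArg (MvPolynomial.eval fun _ => (1 : ℝ)) h
  simp at this
  omega

theorem cv_zero {Q : Ix n → MP d} {D : ℕ} (h : ∀ a, (Q a).totalDegree ≤ D) (x : E d) {k : ℕ}
    (hk : D < k) : cv Q x k = 0 := funext fun a => degL_of_totalDegree (h a) x k hk

theorem a4 (hd : 3 ≤ d) (hn : n + 2 ≤ 2 * d) (h3 : A3 d) (Q : Fin (d + 1) → Ix n → MP d)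
    (D : Fin (d + 1) → ℕ) (w : Fin (d + 1) → E d) (hD : ∀ i a, (Q i a).totalDegree ≤ D i)
    (hp : ∀ i, 0 < lz (cv (Q i) (w i) (D i)) (cv (Q i) (w i) (D i)))
    (hE : ∀ i j, i ≠ j → EdgeId (Q i) (Q j)) :
    ∀ i j, i ≠ j → ∀ z z', lz (evv (Q i) z) (evv (Q j) z') = 0 := by
  classical
  have hle : ∀ i j x y a b, lz (cv (Q i) x a) (cv (Q j) y b) ≠ 0 → a ≤ D i ∧ b ≤ D j := by
    intro i j x y a b h
    constructor
    · by_contra h'
      exact h (by rw [cv_zero (hD i) x (not_le.1 h')]; simp [lz])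
    · by_contra h'
      exact h (by rw [lz_comm, cv_zero (hD j) y (not_le.1 h')]; simp [lz])
  suffices H : ∀ i j, i ≠ j → ∀ x y a b, lz (cv (Q i) x a) (cv (Q j) y b) = 0 by
    intro i j hij z z'
    rw [← e2_Kp, ← psi_eval]
    have : psi z z' (Kp (Q i) (Q j)) = 0 := by
      ext m a
      rw [psi_Kp, H i j hij]; simp
    rw [this]; simp
  by_contra hc
  push Not at hc
  have hex : ∃ t, ∃ i j, i ≠ j ∧ ∃ x y a b, lz (cv (Q i) x a) (cv (Q j) y b) ≠ 0 ∧
      a + b + t = D i + D j := by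
    obtain ⟨i, j, hij, x, y, a, b, h⟩ := hc
    have := hle i j x y a b h
    exact ⟨D i + D j - (a + b), i, j, hij, x, y, a, b, h, by omega⟩
  obtain ⟨i, j, hij, x₀, y₀, a₀, b₀, h₀, ht⟩ := Nat.find_spec hex
  set t := Nat.find hex with htdef
  have hmin : ∀ k l, k ≠ l → ∀ x y a b, D k + D l < a + b + t →
      lz (cv (Q k) x a) (cv (Q l) y b) = 0 := by
    intro k l hkl x y a b hlt
    by_contra h
    have h1 := hle k l x y a b h
    have h2 : t ≤ D k + D l - (a + b) :=
      Nat.find_min' hex ⟨k, l, hkl, x, y, a, b, h, by omega⟩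
    omega
  obtain ⟨M, Λ, hΛ, hM, hC⟩ := pair (by omega) (Q i) (Q j) (hE i j hij) ⟨x₀, y₀, a₀, b₀, h₀⟩
  have hnz : ∀ a, (qq d * Λ).coeff a ≠ 0 → a ≤ M ∧ a ≤ D i ∧ M - a ≤ D j ∧ M + t ≤ D i + D j := by
    intro a ha
    obtain ⟨x, y, hxy⟩ := ex_pt ha
    rw [hC] at hxy
    by_cases h : a ≤ M
    · rw [if_pos h, neg_ne_zero] at hxy
      have h1 := hle _ _ _ _ _ _ hxy
      refine ⟨h, h1.1, h1.2, ?_⟩
      by_contra h2
      exact hxy (hmin i j hij x y a (M - a) (by omega))
    · rw [if_neg h] at hxy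
      exact absurd neg_zero hxy
  have htop := hnz (Λ.natDegree + 2) (by
    rw [qq_coeff, coeff_X_pow_mul, coeff_X_pow_mul', if_pos (by omega),
      coeff_eq_zero_of_natDegree_lt (p := Λ) (n := Λ.natDegree + 2 - 1) (by omega),
      coeff_eq_zero_of_natDegree_lt (p := Λ) (n := Λ.natDegree + 2) (by omega)]
    simp only [mul_zero, sub_zero, add_zero]
    exact mul_ne_zero (sq_ne (by omega) Sum.inl) (leadingCoeff_ne_zero.2 hΛ))
  have hbot := hnz Λ.natTrailingDegree (by
    have hz : ∀ k, 1 ≤ k → (X ^ k * Λ).coeff Λ.natTrailingDegree = 0 := by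
      intro k hk
      rw [coeff_X_pow_mul']
      split_ifs with h
      · exact coeff_eq_zero_of_lt_natTrailingDegree (by omega)
      · rfl
    rw [qq_coeff, hz 2 (by omega), hz 1 le_rfl]
    simp only [mul_zero, sub_zero, zero_add]
    exact mul_ne_zero (sq_ne (by omega) Sum.inr) (trailingCoeff_nonzero_iff_nonzero.2 hΛ))
  have hM0 : a₀ + b₀ ≤ M := by
    by_contra h
    exact h₀ (hM _ _ _ _ (not_le.1 h))
  have hMt : M + t = D i + D j := by omega
  have hnt : Λ.natTrailingDegree ≤ Λ.natDegree := natTrailingDegree_le_natDegree Λ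
  have hall := h3 (fun k => (X ^ 1 * Λ).coeff k) (by simp)
    ⟨Λ.natDegree + 1, fun k hk => by
      rw [coeff_X_pow_mul', if_pos (by omega)]
      exact coeff_eq_zero_of_natDegree_lt (by omega)⟩ (fun k hk x y => by
      rw [coeff_X_pow_mul] at hk
      have hk1 : k ≤ Λ.natDegree := le_natDegree_of_ne_zero hk
      have hk2 : Λ.natTrailingDegree ≤ k := natTrailingDegree_le_of_ne_zero hk
      have hdet := det_zero hn (fun l => cv (Q l) (w l) (D l)) hp
        (fun k l hkl => hmin k l hkl _ _ _ _ (by omega)) i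
        (fun a => -cv (Q i) (WithLp.toLp 2 (x a)) (k + 1))
        (fun b => cv (Q j) (WithLp.toLp 2 (y b)) (M - (k + 1)))
        (fun a l hl => by
          have := hmin i l (Ne.symm hl) (WithLp.toLp 2 (x a)) (w l) (k + 1) (D l) (by omega)
          simp only [lz, neg_dotProduct] at this ⊢
          rw [this, neg_zero])
        (fun b => hmin i j hij _ _ _ _ (by omega))
      rw [← hdet]
      congr 1
      ext a b
      have h1 := hC (WithLp.toLp 2 (x a)) (WithLp.toLp 2 (y b)) (k + 1)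
      rw [if_pos (by omega), qq_coeff] at h1
      have e1 : (X ^ 2 * Λ).coeff (k + 1) = (X ^ 1 * Λ).coeff k := by
        rw [show (X ^ 2 * Λ : (R2 d)[X]) = X ^ 1 * (X ^ 1 * Λ) by ring, coeff_X_pow_mul]
      have e2' : Λ.coeff (k + 1) = (X ^ 1 * Λ).coeff (k + 2) := (coeff_X_pow_mul Λ 1 (k + 1)).symm
      rw [e1, e2'] at h1
      simp only [Matrix.of_apply]
      rw [show lz (-cv (Q i) (WithLp.toLp 2 (x a)) (k + 1))
          (cv (Q j) (WithLp.toLp 2 (y b)) (M - (k + 1))) =
        -lz (cv (Q i) (WithLp.toLp 2 (x a)) (k + 1))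
          (cv (Q j) (WithLp.toLp 2 (y b)) (M - (k + 1))) by simp only [lz, neg_dotProduct], ← h1]
      rfl)
  have := hall (Λ.natDegree + 1)
  simp only [coeff_X_pow_mul] at this
  exact leadingCoeff_ne_zero.2 hΛ this

end Pool.Agent.MP_66cee2_co.D.H63
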