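import Pool.Agent.MP_66cee2_co.D.SpecA
import Pool.Agent.MP_66cee2_co.D.H63A4

/-
The filtration lemma in the form of the specification.
-/

namespace Pool.Agent.MP_66cee2_co.D

open Pool.Agent.MP_66cee2_co.X Pool.Agent.MP_66cee2_co.XI

theorem a3_of (h : SA3) (d : ℕ) (hd : 3 ≤ d) : H63.A3 d := by
  rintro A h0 ⟨M, hM⟩ hA j
  have := h d (fun j => A j.toNat) hd
    ((Set.finite_Icc (0 : ℤ) M).subset fun j hj => by
      by_contra hc
      apply hj
      rw [Set.mem_Icc, not_and_or, not_le, not_le] at hc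
      rcases hc with hc | hc
      · show A j.toNat = 0
        rw [show j.toNat = 0 by omega, h0]
      · exact hM _ (by omega))
    (fun j hj xs ys => by
      have hj0 : j.toNat ≠ 0 := fun e => hj (by rw [e, h0])
      obtain ⟨k, hk⟩ : ∃ k : ℕ, j = k + 1 := ⟨j.toNat - 1, by omega⟩
      have e0 : j.toNat = k + 1 := by omega
      have e1 : (j - 1).toNat = k := by omega
      have e2 : (j + 1).toNat = k + 2 := by omega
      have := hA k (by rwa [e0] at hj) (fun a i => xs a i) (fun b i => ys b i)
      simp only [Cc, e0, e1, e2]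
      exact this)
  simpa using congrFun this (j : ℤ)

theorem sA4' (h3 : SA3) : SA4 := by
  intro d n Q D w hd hn hD hp hE k l hkl
  refine H63.a4 hd hn (a3_of h3 d hd) Q D w hD (fun i => ?_) hE k l hkl
  have : H63.cv (Q i) (w i) (D i) = evv (hc (D i) (Q i)) (w i) :=
    funext fun a => co_eq_ev _ _ _
  rw [this]
  exact hp i

theorem sA4 : SDrop → SRank → SA3 → SA4 := fun _ _ h3 => sA4' h3

end Pool.Agent.MP_66cee2_co.D
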