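import Pool.Agent.MP_66cee2_co.D.SpecA

/-
Two affine maps that send unit pairs to unit pairs.
-/

namespace Pool.Agent.MP_66cee2_co.D

open Pool.Agent.MP_66cee2_co.X Pool.Agent.MP_66cee2_co.XI
open scoped RealInnerProductSpace

namespace AffPx

theorem pm {n : ℕ} {a u : E n} (h1 : ‖a + u‖ = 1) (h2 : ‖a - u‖ = 1) :
    ⟪a, u⟫ = 0 ∧ ‖u‖ ^ 2 = 1 - ‖a‖ ^ 2 := by
  have e1 := norm_add_sq_real a u
  have e2 := norm_sub_sq_real a u
  rw [h1] at e1
  rw [h2] at e2
  constructor <;> linarith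

end AffPx

theorem sAffP : SAffP := by
  intro d n T T' c c' hd h
  have hT : T = T' := by
    have he : ‖(EuclideanSpace.single (⟨0, hd⟩ : Fin d) (1 : ℝ) : E d)‖ = 1 := by simp
    set e : E d := EuclideanSpace.single (⟨0, hd⟩ : Fin d) (1 : ℝ)
    refine LinearMap.ext fun z => ?_
    have h0 : ‖c - T' e - c'‖ = 1 := by
      have := h 0 e he
      rw [map_zero, zero_add, zero_add] at this
      rw [← this]
      exact congrArg _ (by abel)
    have h1 : ‖c - T' e - c' + (T z - T' z)‖ = 1 := by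
      have := h z e he
      rw [map_add] at this
      rw [← this]
      exact congrArg _ (by abel)
    have h2 : ‖c - T' e - c' - (T z - T' z)‖ = 1 := by
      have := h (-z) e he
      rw [map_add, map_neg, map_neg] at this
      rw [← this]
      exact congrArg _ (by abel)
    have h3 := (AffPx.pm h1 h2).2
    rw [h0] at h3
    have h4 : ‖T z - T' z‖ ^ 2 = 0 := by linarith
    exact sub_eq_zero.1 (norm_eq_zero.1 (pow_eq_zero_iff two_ne_zero |>.1 h4))
  subst hT
  have hu : ∀ v : E d, ‖v‖ = 1 → ⟪c - c', T v⟫ = 0 ∧ ‖T v‖ ^ 2 = 1 - ‖c - c'‖ ^ 2 := by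
    intro v hv
    refine AffPx.pm ?_ ?_
    · have := h 0 (-v) (by rw [norm_neg, hv])
      rw [map_zero, zero_add, zero_add, map_neg] at this
      rw [← this]
      exact congrArg _ (by abel)
    · have := h 0 v hv
      rw [map_zero, zero_add, zero_add] at this
      rw [← this]
      exact congrArg _ (by abel)
  have hs : ∀ v : E d, ⟪c - c', T v⟫ = 0 ∧ ‖T v‖ ^ 2 = (1 - ‖c - c'‖ ^ 2) * ‖v‖ ^ 2 := by
    intro v
    rcases eq_or_ne v 0 with rfl | hv
    · simp
    have hn : ‖v‖ ≠ 0 := norm_ne_zero_iff.2 hv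
    have h1 : ‖(‖v‖⁻¹ • v : E d)‖ = 1 := by
      rw [norm_smul, norm_inv, norm_norm, inv_mul_cancel₀ hn]
    obtain ⟨h2, h3⟩ := hu _ h1
    have h4 : T v = ‖v‖ • T (‖v‖⁻¹ • v) := by
      rw [map_smul, smul_smul, mul_inv_cancel₀ hn, one_smul]
    rw [h4, inner_smul_right, h2, mul_zero, norm_smul, norm_norm, mul_pow, h3]
    exact ⟨rfl, mul_comm _ _⟩
  exact ⟨rfl, fun v => (hs v).1, fun v => (hs v).2⟩

end Pool.Agent.MP_66cee2_co.D
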