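import Pool.Agent.MP_66cee2_co.D.SpecA
import Pool.Agent.MP_66cee2_co.XI.ExhI
import Pool.Agent.MP_66cee2_co.XI.Null

/-
A member of the general type in a clique with two such members is bounded or isometric.
-/

namespace Pool.Agent.MP_66cee2_co.D

open MeasureTheory Set Filter Metric Topology Pool.Agent.MP_66cee2_co.X
  Pool.Agent.MP_66cee2_co.XI

namespace BIx

variable {d n : ℕ}

theorem deg_drop {q : MP d} {m : ℕ} (h : q.totalDegree ≤ m + 1)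
    (h0 : MvPolynomial.homogeneousComponent (m + 1) q = 0) : q.totalDegree ≤ m := by
  by_contra hc
  have e : q.totalDegree = m + 1 := by omega
  have hq : q ≠ 0 := fun z => by rw [z] at e; simp at e
  exact ExhIA.top_ne hq (e ▸ h0)

theorem norm_cQ (Q : Ix n → MP d) (w : E d) (k : ℕ) :
    ‖cQ Q w k‖ ^ 2 = ∑ i, co (Q (Sum.inl i)) w k ^ 2 := by
  rw [EuclideanSpace.real_norm_sq_eq]; rfl

theorem level (hd : 1 ≤ d) {Q : Ix n → MP d} (hT : TyQ Q)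
    (hG : Q sI ≠ 0 → ∀ i, (Q (Sum.inl i)).totalDegree ≤ (Q sI).totalDegree + 1) :
    ∃ m : ℕ, (Q sI ≠ 0 → m = (Q sI).totalDegree) ∧ ∀ᵐ a : E d,
      (Q sI ≠ 0 → (Q sI).totalDegree ≤ m ∧ co (Q sI) (‖a‖⁻¹ • a) m ≠ 0 ∧
        ∀ i, (Q (Sum.inl i)).totalDegree ≤ m + 1) ∧
      (Q sI = 0 → cQ Q (‖a‖⁻¹ • a) m ≠ 0 ∧ ∀ i, (Q (Sum.inl i)).totalDegree ≤ m) := by
  rcases hT with ⟨h1, h2⟩ | ⟨h1, -⟩
  · obtain ⟨m, i₀, a1, a2⟩ := ExhIA.top_fam (p := fun i => Q (Sum.inl i)) h2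
    refine ⟨m, fun h => absurd h1 h, ?_⟩
    filter_upwards [ExhIA.ae_sum sNull hd (p := fun i => Q (Sum.inl i)) a2] with a ha
    refine ⟨fun h => absurd h1 h, fun _ => ⟨fun e => ?_, a1⟩⟩
    rw [← norm_cQ, e] at ha
    simp at ha
  · refine ⟨_, fun _ => rfl, ?_⟩
    filter_upwards [ExhIA.ae_co sNull hd (ExhIA.top_ne h1)] with a ha
    refine ⟨fun _ => ⟨le_rfl, fun e => ?_, hG h1⟩, fun h => absurd h h1⟩
    rw [e] at ha
    simp at ha

end BIx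

theorem sBI : SDegG → SSlope → SBI := by
  intro hD hS d n Q k l hd hn hC hkl hk hl
  have gc : ∀ j, Q j sI ≠ 0 → GC (Q j) := fun j hj => by
    rcases hC.ty j with h | h
    · exact absurd h.1 hj
    · exact h.2
  have hG : ∀ j, Q j sI ≠ 0 → ∀ i, (Q j (Sum.inl i)).totalDegree ≤ (Q j sI).totalDegree + 1 := by
    intro j hj
    by_cases e : j = k
    · subst e
      exact (hD d n (Q j) (Q l) hd hj hl (gc j hj) (gc l hl) (hC.edge j l hkl)).1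
    · exact (hD d n (Q j) (Q k) hd hj hk (gc j hj) (gc k hk) (hC.edge j k e)).1
  choose m hm hae using fun j => BIx.level hd (hC.ty j) (hG j)
  have hall := ae_all_iff.2 hae
  set M := (Q k sI).totalDegree with hM
  have hmk : m k = M := hm k hk
  set S : MP d := ∑ i, MvPolynomial.homogeneousComponent (M + 1) (Q k (Sum.inl i)) ^ 2 with hSd
  set H : MP d := (∑ i, MvPolynomial.X i ^ 2) *
    MvPolynomial.homogeneousComponent M (Q k sI) ^ 2 - S with hH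
  have eS : ∀ z, ev S z = ∑ i, co (Q k (Sum.inl i)) z (M + 1) ^ 2 := by
    intro z
    simp only [hSd, XI.ev_sum, XI.ev_pow, co_eq_ev]
  have eH : ∀ z, ev H z =
      ‖z‖ ^ 2 * co (Q k sI) z M ^ 2 - ∑ i, co (Q k (Sum.inl i)) z (M + 1) ^ 2 := by
    intro z
    rw [← eS]
    simp only [hH, XI.ev_sub, XI.ev_mul, XI.ev_sum, XI.ev_pow, XI.ev_X, co_eq_ev, EuclideanSpace.real_norm_sq_eq]
  by_cases h0 : H = 0
  · refine Or.inr ⟨hk, gc k hk, le_rfl, hG k hk, fun z => ?_⟩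
    have := eH z
    rw [h0, XI.ev_zero] at this
    linarith
  by_cases h1 : S = 0
  · refine Or.inl fun i => BIx.deg_drop (hG k hk i) (eq_zero_of_ev fun z => ?_)
    have := eS z
    rw [h1, XI.ev_zero, eq_comm,
      Finset.sum_eq_zero_iff_of_nonneg fun _ _ => sq_nonneg _] at this
    have := this i (Finset.mem_univ i)
    rwa [co_eq_ev, sq_eq_zero_iff] at this
  exfalso
  obtain ⟨a, ⟨a1, a2⟩, a3, a4⟩ := ((hall.and (ExhIA.ae_ne sNull hd)).and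
    ((ExhIA.ae_ev sNull h0).and (ExhIA.ae_ev sNull h1))).exists
  have hw : ‖‖a‖⁻¹ • a‖ = 1 := by
    rw [norm_smul, norm_inv, norm_norm, inv_mul_cancel₀ a2]
  have hb : ‖a‖⁻¹ * ‖a‖ = 1 := inv_mul_cancel₀ a2
  have hi : ‖a‖⁻¹ ≠ 0 := inv_ne_zero a2
  have e1 : ‖cQ (Q k) (‖a‖⁻¹ • a) (M + 1)‖ ^ 2 = (‖a‖⁻¹ ^ (M + 1)) ^ 2 * ev S a := by
    simp only [BIx.norm_cQ, eS, co_smul, mul_pow, ← Finset.mul_sum]
  have e2 : co (Q k sI) (‖a‖⁻¹ • a) M ^ 2 - ‖cQ (Q k) (‖a‖⁻¹ • a) (M + 1)‖ ^ 2 =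
      (‖a‖⁻¹ ^ (M + 1)) ^ 2 * ev H a := by
    simp only [BIx.norm_cQ, eH, co_smul, mul_pow, ← Finset.mul_sum]
    linear_combination (-((‖a‖⁻¹ ^ M) ^ 2 * co (Q k sI) a M ^ 2 * (‖a‖⁻¹ * ‖a‖ + 1))) * hb
  have key := hS d n Q m (‖a‖⁻¹ • a) k l hd hn hC hw hkl hk hl (fun j => (a1 j).1)
    (fun j => (a1 j).2)
  rw [hmk] at key
  rcases key with h | h
  · rw [h, norm_zero, zero_pow two_ne_zero] at e1
    exact mul_ne_zero (pow_ne_zero _ (pow_ne_zero _ hi)) a4 e1.symm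
  · rw [h, sub_self] at e2
    exact mul_ne_zero (pow_ne_zero _ (pow_ne_zero _ hi)) a3 e2.symm

end Pool.Agent.MP_66cee2_co.D
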