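import Pool.Agent.MP_66cee2_co.D.SpecA

/-
Maps into spaces of dimension at most `2 d - 2`: assembly of the clique lemma.
-/

namespace Pool.Agent.MP_66cee2_co.D

open Pool.Agent.MP_66cee2_co.X Pool.Agent.MP_66cee2_co.XI

namespace Clqx

variable {d n : ℕ} {Q : Fin (d + 1) → Ix n → MP d}

theorem gc (hQ : Clq Q) {j : Fin (d + 1)} (hj : Q j sI ≠ 0) : GC (Q j) := by
  rcases hQ.ty j with h | h
  · exact absurd h.1 hj
  · exact h.2

/-- if one member of the general type is bounded, all values are orthogonal. -/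
theorem ort_of_bdd (hG : SDegG) (hT : SDegT) (h4 : SA4) (hd : 3 ≤ d) (hn : n + 2 ≤ 2 * d)
    (hQ : Clq Q) {k : Fin (d + 1)} (hk : Q k sI ≠ 0)
    (hb : ∀ i, (Q k (Sum.inl i)).totalDegree ≤ (Q k sI).totalDegree) :
    ∀ k l, k ≠ l → Ort (Q k) (Q l) := by
  have h1 : 1 ≤ d := by omega
  have key : ∀ j, ∃ (e : ℕ) (w : E d), (∀ a, (Q j a).totalDegree ≤ e) ∧
      0 < lz (evv (hc e (Q j)) w) (evv (hc e (Q j)) w) := by
    intro j
    rcases hQ.ty j with ⟨h0, hi⟩ | ⟨h0, hg⟩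
    · have hjk : j ≠ k := fun e => hk (e ▸ h0)
      exact (hT d n (Q k) h1 hk (gc hQ hk) hb).2 (Q j) h0 hi (hQ.edge j k hjk)
    · have hbj : ∀ i, (Q j (Sum.inl i)).totalDegree ≤ (Q j sI).totalDegree := by
        by_cases e : k = j
        · exact e ▸ hb
        · exact (hG d n (Q k) (Q j) h1 hk h0 (gc hQ hk) hg (hQ.edge k j e)).2 hb
      obtain ⟨ha, w, hw⟩ := (hT d n (Q j) h1 h0 hg hbj).1
      exact ⟨_, w, ha, hw⟩
  choose D w hD hw using key
  exact h4 d n Q D w hd hn hD hw hQ.edge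

end Clqx

theorem sClq : SClq1 → SBI → SDegG → SDegT → SA4 → SClq := by
  intro h1 hB hG hT h4 d n Q hd hn hQ
  by_cases h : ∀ k l, Q k sI ≠ 0 → Q l sI ≠ 0 → k = l
  · exact Or.inr (h1 d n Q hd hn hQ h)
  · push Not at h
    obtain ⟨k, l, hk, hl, hkl⟩ := h
    rcases hB d n Q k l (by omega) (by omega) hQ hkl hk hl with hb | hi
    · exact Or.inr (Clqx.ort_of_bdd hG hT h4 hd hn hQ hk hb)
    · rcases hB d n Q l k (by omega) (by omega) hQ hkl.symm hl hk with hb | hi'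
      · exact Or.inr (Clqx.ort_of_bdd hG hT h4 hd hn hQ hl hb)
      · exact Or.inl ⟨k, l, hkl, hi, hi'⟩

end Pool.Agent.MP_66cee2_co.D
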