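import Pool.Agent.MP_66cee2_co.D.SpecA

/-
The count of dimensions in the conformal case.
-/

namespace Pool.Agent.MP_66cee2_co.D

open Pool.Agent.MP_66cee2_co.X
open scoped RealInnerProductSpace

namespace Confx

theorem count {d n : ℕ} (T : E d →ₗ[ℝ] E n) (u : Fin d → E n) (w g : Fin d → ℝ) (β τ : ℝ)
    (hτ : 0 < τ) (hβ : 0 ≤ β) (hw : ∀ i, 0 < w i) (hT : ∀ v, ‖T v‖ ^ 2 = τ * ‖v‖ ^ 2)
    (ho : ∀ i v, ⟪u i, T v⟫ = 0)
    (hG : ∀ i j, ⟪u i, u j⟫ = (if i = j then w i else 0) + β * g i * g j) : d + d ≤ n := by
  let Φ : (E d × (Fin d → ℝ)) →ₗ[ℝ] E n := T.coprod (Fintype.linearCombination ℝ u)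
  have hinj : Function.Injective Φ := by
    rw [injective_iff_map_eq_zero]
    rintro ⟨v, a⟩ h
    have h1 : T v + ∑ i, a i • u i = 0 := by
      simpa [Φ, Fintype.linearCombination_apply] using h
    have h2 : ⟪∑ i, a i • u i, T v⟫ = 0 := by
      rw [sum_inner]
      exact Finset.sum_eq_zero fun i _ => by rw [real_inner_smul_left, ho, mul_zero]
    have h3 : T v = 0 := by
      have := congrArg (fun z => ⟪z, T v⟫) h1
      simp only [inner_add_left, h2, add_zero, inner_zero_left] at this
      exact inner_self_eq_zero.1 this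
    have hv : v = 0 := by
      have := hT v
      rw [h3, norm_zero] at this
      have h4 : ‖v‖ ^ 2 = 0 := by
        rcases mul_eq_zero.1 (show τ * ‖v‖ ^ 2 = 0 by linarith) with h | h
        · exact absurd h hτ.ne'
        · exact h
      exact norm_eq_zero.1 (pow_eq_zero_iff two_ne_zero |>.1 h4)
    rw [h3, zero_add] at h1
    have h5 : ∑ i, a i ^ 2 * w i + β * (∑ i, a i * g i) ^ 2 = 0 := by
      have e : ⟪∑ i, a i • u i, ∑ i, a i • u i⟫ = (0 : ℝ) := by rw [h1, inner_zero_left]
      rw [← e, sum_inner, sq (∑ i, a i * g i), Finset.sum_mul_sum, Finset.mul_sum,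
        ← Finset.sum_add_distrib]
      refine Finset.sum_congr rfl fun i _ => ?_
      rw [inner_sum, Finset.mul_sum]
      have e2 : ∀ j, ⟪a i • u i, a j • u j⟫ =
          (if i = j then a i * a j * w i else 0) + β * (a i * g i * (a j * g j)) := fun j => by
        rw [real_inner_smul_left, real_inner_smul_right, hG]
        split_ifs <;> ring
      simp only [e2, Finset.sum_add_distrib, Finset.sum_ite_eq, Finset.mem_univ, if_true]
      ring
    have h6 : ∑ i, a i ^ 2 * w i = 0 := by
      have p1 : 0 ≤ ∑ i, a i ^ 2 * w i :=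
        Finset.sum_nonneg fun i _ => mul_nonneg (sq_nonneg _) (hw i).le
      have p2 : 0 ≤ β * (∑ i, a i * g i) ^ 2 := mul_nonneg hβ (sq_nonneg _)
      linarith
    have ha : a = 0 := funext fun i => by
      have := (Finset.sum_eq_zero_iff_of_nonneg
        fun i _ => mul_nonneg (sq_nonneg (a i)) (hw i).le).1 h6 i (Finset.mem_univ i)
      rcases mul_eq_zero.1 this with h | h
      · exact pow_eq_zero_iff two_ne_zero |>.1 h
      · exact absurd h (hw i).ne'
    rw [hv, ha]; rfl
  have := LinearMap.finrank_le_finrank_of_injective hinj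
  simpa [Module.finrank_prod] using this

end Confx

theorem sConf : SConf := by
  classical
  intro d n G T c ν τ k₀ hn h0 h1 hk hT hc hcc hν hνν
  have key := Confx.count T
    (fun i => if G (k₀.succAbove i) then c (k₀.succAbove i) - c k₀ else ν (k₀.succAbove i))
    (fun i => if G (k₀.succAbove i) then (1 - τ) / 2 else ‖ν (k₀.succAbove i)‖ ^ 2)
    (fun i => if G (k₀.succAbove i) then 1 else 0) ((1 - τ) / 2) τ h0 (by linarith)
    (fun i => by
      by_cases h : G (k₀.succAbove i)
      · simp only [h, if_true]; linarith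
      · simp only [h, if_false]
        exact pow_pos (norm_pos_iff.2 (hν _ h).1) 2) hT
    (fun i v => by
      by_cases h : G (k₀.succAbove i)
      · simp only [h, if_true]; exact hc _ _ h hk v
      · simp only [h, if_false]; exact (hν _ h).2.1 v)
    (fun i j => by
      by_cases hi : G (k₀.succAbove i) <;> by_cases hj : G (k₀.succAbove j)
      · simp only [hi, hj, if_true]
        have a1 := hcc _ _ hi hk (Fin.succAbove_ne k₀ i)
        have a2 := hcc _ _ hj hk (Fin.succAbove_ne k₀ j)
        by_cases hij : i = j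
        · subst hij
          rw [real_inner_self_eq_norm_sq, a1, if_pos rfl]; ring
        · have a3 := hcc _ _ hi hj fun e => hij (Fin.succAbove_right_injective e)
          rw [show c (k₀.succAbove i) - c (k₀.succAbove j) =
            (c (k₀.succAbove i) - c k₀) - (c (k₀.succAbove j) - c k₀) by abel,
            norm_sub_sq_real, a1, a2] at a3
          rw [if_neg hij]; linarith
      · have hij : i ≠ j := fun e => hj (e ▸ hi)
        simp only [hi, hj, if_true, if_false, if_neg hij]
        rw [real_inner_comm, (hν _ hj).2.2 _ _ hi hk]; ring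
      · have hij : i ≠ j := fun e => hi (e ▸ hj)
        simp only [hi, hj, if_true, if_false, if_neg hij]
        rw [(hν _ hi).2.2 _ _ hj hk]; ring
      · simp only [hi, hj, if_false]
        by_cases hij : i = j
        · subst hij
          rw [real_inner_self_eq_norm_sq, if_pos rfl]; ring
        · rw [hνν _ _ hi hj fun e => hij (Fin.succAbove_right_injective e), if_neg hij]; ring)
  omega

end Pool.Agent.MP_66cee2_co.D
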