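import Pool.Agent.MP_66cee2_co.D.SpecA
import Pool.Agent.MP_66cee2_co.XI.ExhI
import Pool.Agent.MP_66cee2_co.XI.One
import Pool.Agent.MP_66cee2_co.XI.Null

/-
Total degrees along an edge of two lifted vectors.
-/

namespace Pool.Agent.MP_66cee2_co.D

open MeasureTheory Set Filter Pool.Agent.MP_66cee2_co.X Pool.Agent.MP_66cee2_co.XI

namespace DegGx

variable {d n : ℕ}

/-- a unit direction on which three top coefficients survive. -/
theorem dir (hd : 1 ≤ d) {p q r : MP d} (hp : p ≠ 0) (hq : q ≠ 0) (hr : r ≠ 0) :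
    ∃ w : E d, ‖w‖ = 1 ∧ co p w p.totalDegree ≠ 0 ∧ co q w q.totalDegree ≠ 0 ∧
      co r w r.totalDegree ≠ 0 := by
  have h1 := ExhIA.ae_co sNull hd (ExhIA.top_ne hp)
  have h2 := ExhIA.ae_co sNull hd (ExhIA.top_ne hq)
  have h3 := ExhIA.ae_co sNull hd (ExhIA.top_ne hr)
  have h4 := ExhIA.ae_ne sNull hd
  obtain ⟨a, ⟨⟨a1, a2⟩, a3⟩, a4⟩ := (((h1.and h2).and h3).and h4).exists
  refine ⟨‖a‖⁻¹ • a, ?_, fun h => ?_, fun h => ?_, fun h => ?_⟩
  · rw [norm_smul, norm_inv, norm_norm, inv_mul_cancel₀ a4]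
  · rw [h] at a1
    simp at a1
  · rw [h] at a2
    simp at a2
  · rw [h] at a3
    simp at a3

theorem ln_ne {q : MP d} {w : E d} {k : ℕ} (h : co q w k ≠ 0) : ln q 0 w ≠ 0 := fun e =>
  h (by rw [co, e, Polynomial.coeff_zero])

theorem part1 {Q Q' : Ix n → MP d} (hd : 1 ≤ d) (h1 : Q sI ≠ 0) (h2 : Q' sI ≠ 0) (g1 : GC Q)
    (g2 : GC Q') (h : EdgeId Q Q') (i : Fin n) :
    (Q (Sum.inl i)).totalDegree ≤ (Q sI).totalDegree + 1 := by
  by_contra hc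
  have hlt := not_le.mp hc
  have hp : Q (Sum.inl i) ≠ 0 := fun e => by
    rw [e, MvPolynomial.totalDegree_zero] at hlt
    omega
  obtain ⟨w, hw, c1, c2, c3⟩ := dir hd h1 h2 hp
  have hs := (sOne n _ _ _ _ (nbr_of_edge h g1 g2 0 hw) (ln_ne c2) _
    (natDegree_ln le_rfl 0 w) c1).1 i
  exact c3 (Polynomial.coeff_eq_zero_of_natDegree_lt (lt_of_le_of_lt hs hlt))

end DegGx

theorem sDegG : SDegG := by
  intro d n Q Q' hd h1 h2 g1 g2 h
  refine ⟨DegGx.part1 hd h1 h2 g1 g2 h, fun hQ i => ?_⟩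
  by_contra hc
  have hlt := not_le.mp hc
  have hle := DegGx.part1 hd h2 h1 g2 g1 h.symm i
  have he : (Q' (Sum.inl i)).totalDegree = (Q' sI).totalDegree + 1 := by omega
  have hp : Q' (Sum.inl i) ≠ 0 := fun e => by
    rw [e, MvPolynomial.totalDegree_zero] at hlt
    omega
  obtain ⟨w, hw, c1, c2, c3⟩ := DegGx.dir hd h1 h2 hp
  have hs := ((sOne n _ _ _ _ (nbr_of_edge h g1 g2 0 hw) (DegGx.ln_ne c2) _
    (natDegree_ln le_rfl 0 w) c1).2 _ (natDegree_ln le_rfl 0 w) c2).1 i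
  have h0 : (ln (Q (Sum.inl i)) 0 w).coeff ((Q sI).totalDegree + 1) = 0 :=
    Polynomial.coeff_eq_zero_of_natDegree_lt
      (lt_of_le_of_lt (natDegree_ln (hQ i) 0 w) (Nat.lt_succ_self _))
  rw [he] at c3
  simp only [slp] at hs
  rw [h0, zero_div] at hs
  exact div_ne_zero c3 c2 hs.symm

end Pool.Agent.MP_66cee2_co.D
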