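import Pool.Agent.MP_66cee2_co.D.SpecA
import Pool.Agent.MP_66cee2_co.XI.ExhI

/-
Degrees and top components in the bounded case.
-/

namespace Pool.Agent.MP_66cee2_co.D

open Set Polynomial Pool.Agent.MP_66cee2_co.X Pool.Agent.MP_66cee2_co.XI

namespace DegTx

variable {d n : ℕ}

/-- the pairing along two parallel lines. -/
noncomputable def lzP (Q Q' : Ix n → MP d) (x w : E d) : ℝ[X] :=
  C 2 * ∑ i, ln (Q (Sum.inl i)) 0 w * ln (Q' (Sum.inl i)) x w +
    ln (Q (Sum.inr true)) 0 w * ln (Q' (Sum.inr false)) x w +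
    ln (Q (Sum.inr false)) 0 w * ln (Q' (Sum.inr true)) x w

theorem eval_lzP (Q Q' : Ix n → MP d) (x w : E d) (s : ℝ) :
    (lzP Q Q' x w).eval s = lz (evv Q (s • w)) (evv Q' (x + s • w)) := by
  rw [lz_eq]
  simp only [lzP, eval_add, eval_mul, eval_C, eval_finsetSum, eval_ln, zero_add, evv]

theorem top_mul {p q : MP d} {a b : ℕ} (hp : p.totalDegree ≤ a) (hq : q.totalDegree ≤ b)
    (x w : E d) : (ln p 0 w * ln q x w).coeff (a + b) = co p w a * co q w b := by
  rw [coeff_mul_add_eq_of_natDegree_le (natDegree_ln hp 0 w) (natDegree_ln hq x w),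
    coeff_ln_top hp, coeff_ln_top hq]

theorem high_mul {p q : MP d} {a b k : ℕ} (hp : p.totalDegree ≤ a) (hq : q.totalDegree ≤ b)
    (hk : a + b < k) (x w : E d) : (ln p 0 w * ln q x w).coeff k = 0 :=
  coeff_eq_zero_of_natDegree_lt (natDegree_mul_le.trans_lt
    ((Nat.add_le_add (natDegree_ln hp 0 w) (natDegree_ln hq x w)).trans_lt hk))

theorem exists_ne {q : MP d} (hq : q ≠ 0) : ∃ z, ev q z ≠ 0 := by
  by_contra h
  exact hq (eq_zero_of_ev fun z => not_not.1 fun k => h ⟨z, k⟩)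

theorem tops {p q : MP d} (hp : p ≠ 0) (hq : q ≠ 0)
    (h : ∀ w, co p w p.totalDegree * co q w q.totalDegree = 0) : False := by
  refine mul_ne_zero (ExhIA.top_ne hp) (ExhIA.top_ne hq) (eq_zero_of_ev fun w => ?_)
  rw [XI.ev_mul, ← co_eq_ev, ← co_eq_ev, h]

theorem lzP_gc {Q : Ix n → MP d} (h : GC Q) (w : E d) :
    lzP Q Q 0 w = ln (Q sI) 0 w * ln (Q sI) 0 w := by
  refine Polynomial.funext fun s => ?_
  rw [eval_lzP, zero_add, h, eval_mul, eval_ln_zero, sq]

theorem deg_gc {Q : Ix n → MP d} (hq : Q sI ≠ 0) (h : GC Q)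
    (hp : ∀ i, (Q (Sum.inl i)).totalDegree ≤ (Q sI).totalDegree) :
    (Q (Sum.inr false)).totalDegree ≤ (Q sI).totalDegree := by
  by_contra hk
  rw [not_le] at hk
  have ht : Q (Sum.inr false) ≠ 0 := fun e => by simp [e] at hk
  refine tops hq ht fun w => ?_
  have h1 := congrArg (fun r : ℝ[X] =>
    r.coeff ((Q sI).totalDegree + (Q (Sum.inr false)).totalDegree)) (lzP_gc h w)
  simp only [lzP, coeff_add, coeff_C_mul, finsetSum_coeff] at h1
  rw [Finset.sum_eq_zero fun i _ => high_mul (hp i) (hp i) (by omega) 0 w,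
    high_mul (p := Q sI) (q := Q sI) le_rfl le_rfl (by omega) 0 w,
    top_mul (p := Q sI) (q := Q (Sum.inr false)) le_rfl le_rfl, add_comm (Q sI).totalDegree,
    top_mul (p := Q (Sum.inr false)) (q := Q sI) le_rfl le_rfl] at h1
  linarith

theorem top_gc {Q : Ix n → MP d} {m : ℕ} (h : GC Q) (hm : ∀ a, (Q a).totalDegree ≤ m) (w : E d) :
    lz (evv (hc m Q) w) (evv (hc m Q) w) = co (Q sI) w m ^ 2 := by
  have h1 := congrArg (fun r : ℝ[X] => r.coeff (m + m)) (lzP_gc h w)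
  simp only [lzP, coeff_add, coeff_C_mul, finsetSum_coeff, top_mul (hm _) (hm _)] at h1
  rw [lz_eq, sq, ← h1]
  simp only [evv, hc, co_eq_ev]

theorem deg_edge {Q Q' : Ix n → MP d} {e : ℕ} (hq : Q sI ≠ 0)
    (hp : ∀ i, (Q (Sum.inl i)).totalDegree ≤ (Q sI).totalDegree) (h0 : Q' sI = 0)
    (he : ∀ i, (Q' (Sum.inl i)).totalDegree ≤ e) (h : EdgeId Q' Q) :
    (Q' (Sum.inr false)).totalDegree ≤ e := by
  by_contra hk
  rw [not_le] at hk
  have ht : Q' (Sum.inr false) ≠ 0 := fun e => by simp [e] at hk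
  have key : ∀ w : E d, ‖w‖ = 1 → co (Q' (Sum.inr false)) w (Q' (Sum.inr false)).totalDegree *
      co (Q sI) w (Q sI).totalDegree = 0 := by
    intro w hw
    have h2 : lzP Q' Q w w = 0 := Polynomial.funext fun s => by
      rw [eval_lzP, add_comm, h _ w hw, eval_zero]
    have h1 := congrArg (fun r : ℝ[X] =>
      r.coeff ((Q' (Sum.inr false)).totalDegree + (Q sI).totalDegree)) h2
    have h3 : ln (Q' (Sum.inr true)) 0 w = 0 := by
      rw [show Q' (Sum.inr true) = 0 from h0]; exact map_zero _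
    simp only [lzP, coeff_add, coeff_C_mul, finsetSum_coeff, h3, zero_mul, coeff_zero] at h1
    rw [Finset.sum_eq_zero fun i _ => high_mul (he i) (hp i) (by omega) w w,
      top_mul (p := Q' (Sum.inr false)) (q := Q sI) le_rfl le_rfl] at h1
    linarith
  refine tops ht hq fun w => ?_
  by_cases hw : w = 0
  · rw [hw, show (0 : E d) = (0 : ℝ) • (0 : E d) by simp, co_smul, zero_pow (by omega)]
    simp
  · have hn : ‖w‖ ≠ 0 := norm_ne_zero_iff.2 hw
    have h4 := key (‖w‖⁻¹ • w) (by rw [norm_smul, norm_inv, norm_norm, inv_mul_cancel₀ hn])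
    rw [co_smul, co_smul, mul_mul_mul_comm] at h4
    exact (mul_eq_zero.1 h4).resolve_left
      (mul_ne_zero (pow_ne_zero _ (inv_ne_zero hn)) (pow_ne_zero _ (inv_ne_zero hn)))

end DegTx

open DegTx in
theorem sDegT : SDegT := by
  intro d n Q _ hq hG hp
  have hm : ∀ a, (Q a).totalDegree ≤ (Q sI).totalDegree := by
    rintro (i | _ | _)
    exacts [hp i, deg_gc hq hG hp, le_rfl]
  refine ⟨⟨hm, ?_⟩, fun Q' h0 h1 hE => ?_⟩
  · obtain ⟨w, hw⟩ := exists_ne (ExhIA.top_ne hq)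
    refine ⟨w, ?_⟩
    rw [top_gc hG hm, co_eq_ev]
    positivity
  · obtain ⟨e, i₀, he, hi⟩ := ExhIA.top_fam (p := fun i => Q' (Sum.inl i)) h1
    obtain ⟨w, hw⟩ := exists_ne hi
    refine ⟨e, w, ?_, ?_⟩
    · rintro (i | _ | _)
      · exact he i
      · exact deg_edge hq hp h0 he hE
      · rw [show Q' (Sum.inr true) = 0 from h0]; simp
    · have h3 : evv (hc e Q') w (Sum.inr true) = 0 := by
        simp only [evv, hc, show Q' (Sum.inr true) = 0 from h0, map_zero, XI.ev_zero]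
      rw [lz_eq, h3, zero_mul, mul_zero, add_zero, add_zero]
      refine mul_pos two_pos (Finset.sum_pos' (fun i _ => mul_self_nonneg _)
        ⟨i₀, Finset.mem_univ _, mul_self_pos.2 hw⟩)

end Pool.Agent.MP_66cee2_co.D
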