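import Pool.Agent.MP_66cee2_co.D.SpecA
import Pool.Agent.MP_66cee2_co.XJ.Sig

/-
The dichotomy: an isometry, or a flat field of positive vectors.
-/

namespace Pool.Agent.MP_66cee2_co.D

open MeasureTheory Set Filter Metric Topology Matrix Pool.Agent.MP_66cee2_co.X
  Pool.Agent.MP_66cee2_co.XI
open scoped ENNReal RealInnerProductSpace

namespace Dichx

variable {d n : ℕ}

theorem lz_sm (a b : ℝ) (u v : Ix n → ℝ) : lz (a • u) (b • v) = a * b * lz u v := by
  simp only [lz_eq, Pi.smul_apply, smul_eq_mul, mul_add, Finset.mul_sum]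
  congr 1
  · congr 1
    · exact Finset.sum_congr rfl fun i _ => by ring
    · ring
  · ring

theorem ty_ne {Q : Ix n → MP d} (h : TyQ Q) : Q ≠ 0 := by
  rintro rfl
  rcases h with ⟨-, i, h⟩ | ⟨h, -⟩ <;> exact h rfl

theorem ae_of_all (hd : 1 ≤ d) {p : E d → E d → Prop}
    (hm : MeasurableSet {z : E d × E d | p z.1 z.2}) (h : AllPair p) : AePair p := by
  have h1 := Measure.ae_ae_of_ae_prod (allPair_prod hm h (sig d) (s := fun _ => 0)
    (w := fun w => w) measurable_const measurable_id)
  filter_upwards [h1] with x hx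
  filter_upwards [hx, X.sSig.unit d hd] with w hw hu
  simpa using hw hu

theorem meas_lz {V : E d → Ix n → ℝ} (hV : Measurable V) :
    MeasurableSet {z : E d × E d | lz (V z.1) (V z.2) = 0} := by
  refine measurableSet_eq_fun ?_ measurable_const
  have h : ∀ a, Measurable fun x => V x a := fun a => (measurable_pi_apply a).comp hV
  simp only [lz_eq]
  refine (((Finset.measurable_sum _ fun i _ => ?_).const_mul 2).add ?_).add ?_ <;>
    exact ((h _).comp measurable_fst).mul ((h _).comp measurable_snd)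

end Dichx

open Dichx in
theorem sDich : SCaseB → SOrtJ → SVf → SPvE → SDich := by
  intro hB hO hV hE d n P u hd hn hP hu
  rcases hB d n P u (by omega) hP hu with h | h
  · exact Or.inl h
  obtain ⟨V, mV, h1, h2⟩ := hV d n P u (by omega) hu
  refine Or.inr ⟨V, mV, h1.mono fun x hx => hx.1, ae_of_all (by omega) (meas_lz mV) ?_, h2⟩
  intro w hw
  filter_upwards [hO d n P u hd hn hu h w hw, h1,
    (measurePreserving_add_right volume w).quasiMeasurePreserving.ae h1] with x ho hx hy
  obtain ⟨-, Q, R, z, c, j, p, e⟩ := hx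
  obtain ⟨-, Q', R', z', c', j', p', e'⟩ := hy
  have o1 := (hE d n).2 R Q Q' p (ty_ne j.2) (ho Q Q' j j')
  have o2 := (hE d n).2 R' Q' R p' (ty_ne j'.2) o1.symm
  rw [e, e', lz_sm, o2.symm z z', mul_zero]

end Pool.Agent.MP_66cee2_co.D
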