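import Pool.Agent.MP_66cee2_co.D.SpecA
import Pool.Agent.MP_66cee2_co.XI.ExhI
import Pool.Agent.MP_66cee2_co.XI.Edge
import Pool.Agent.MP_66cee2_co.XI.Rem
import Pool.Agent.MP_66cee2_co.XI.Null
import Pool.Agent.MP_66cee2_co.XI.Coef
import Pool.Agent.MP_66cee2_co.XI.Sig

/-
Jets are admissible after scaling; unit pairs; the isometric pieces.
-/

namespace Pool.Agent.MP_66cee2_co.D

open MeasureTheory Set Filter Metric Topology Matrix Pool.Agent.MP_66cee2_co.X
  Pool.Agent.MP_66cee2_co.XI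
open scoped ENNReal RealInnerProductSpace

namespace Jtx

variable {d n : ℕ}

theorem scale {u : E d → Ix n → ℝ} {x : E d} {Q : Ix n → MP d} (hJ : JetAt u x Q) :
    ∃ c : ℝ, 0 < c ∧ JetAt u x (fun a => c • Q a) ∧
      ∀ a α, |MvPolynomial.coeff α (c • Q a)| ≤ 1 := by
  set A : ℝ := 1 + ∑ a, ∑ α ∈ (Q a).support, |MvPolynomial.coeff α (Q a)| with hA
  have h0 : 0 < A := by positivity
  have hb : ∀ a α, |MvPolynomial.coeff α (Q a)| ≤ A := by
    intro a α
    by_cases hα : α ∈ (Q a).support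
    · have a1 := Finset.single_le_sum (f := fun α => |MvPolynomial.coeff α (Q a)|)
        (fun _ _ => abs_nonneg _) hα
      have a2 := Finset.single_le_sum
        (f := fun a => ∑ α ∈ (Q a).support, |MvPolynomial.coeff α (Q a)|)
        (fun _ _ => Finset.sum_nonneg fun _ _ => abs_nonneg _) (Finset.mem_univ a)
      linarith
    · rw [MvPolynomial.notMem_support_iff.mp hα, abs_zero]
      exact h0.le
  have hi : 0 < A⁻¹ := inv_pos.mpr h0
  refine ⟨A⁻¹, hi, fun K => ?_, fun a α => ?_⟩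
  · obtain ⟨C, τ₀, h1, h2⟩ := hJ K
    refine ⟨A⁻¹ * C, τ₀, h1, fun τ t0 t1 => ExhIA.thin_mono (h2 τ t0 t1) ?_⟩
    rintro z ⟨a, b, h⟩
    refine ⟨a, b, ?_⟩
    rw [ev_smul, ev_smul, mul_assoc, mul_assoc, mul_assoc, ← mul_sub, abs_mul, abs_of_pos hi] at h
    exact lt_of_mul_lt_mul_left h hi.le
  · rw [MvPolynomial.coeff_smul, smul_eq_mul, abs_mul, abs_of_pos hi, inv_mul_le_iff₀ h0, mul_one]
    exact hb a α

theorem one {u : E d → Ix n → ℝ} {x : E d} {Q : Ix n → MP d} (hJ : JetAt u x Q) :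
    ∃ c : ℝ, 0 < c ∧ ∀ D, (∀ a, (Q a).totalDegree ≤ D) → ∀ K,
      ∀ᶠ j : ℕ in atTop, Adm u D K j x fun a => c • Q a := by
  obtain ⟨c, hc, h1, h2⟩ := scale hJ
  exact ⟨c, hc, fun D hD K => ExhIA.adm h1 h2
    (fun a => (MvPolynomial.totalDegree_smul_le c (Q a)).trans (hD a)) K⟩

theorem lz_sc (c c' : ℝ) (Q Q' : Ix n → MP d) (z z' : E d) :
    lz (evv (fun a => c • Q a) z) (evv (fun a => c' • Q' a) z') =
      c * c' * lz (evv Q z) (evv Q' z') := by
  rw [lz_eq, lz_eq]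
  simp only [evv, ev_smul]
  rw [Finset.sum_congr rfl fun i _ => mul_mul_mul_comm _ _ _ _, ← Finset.mul_sum]
  ring

theorem deg_le (Q : Ix n → MP d) (a : Ix n) :
    (Q a).totalDegree ≤ Finset.univ.sup fun b => (Q b).totalDegree :=
  Finset.le_sup (f := fun b => (Q b).totalDegree) (Finset.mem_univ a)

theorem iso_sc {Q : Ix n → MP d} {m : ℕ} (h : Iso2 Q m) (c : ℝ) : Iso2 (fun a => c • Q a) m := by
  obtain ⟨h1, h2, h3, h4⟩ := h
  refine ⟨fun z => ?_, (MvPolynomial.totalDegree_smul_le c _).trans h2,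
    fun i => (MvPolynomial.totalDegree_smul_le c _).trans (h3 i), fun z => ?_⟩
  · rw [lz_sc, h1 z, ev_smul]
    ring
  · simp only [co_smul_left, mul_pow, ← Finset.mul_sum]
    rw [h4 z]
    ring

end Jtx

theorem sJt : SJt := by
  intro d n u hd hu
  refine ⟨fun x Q hJ => Jtx.one hJ, fun x y Q Q' hQ hQ' hxy => ?_, ?_⟩
  · obtain ⟨c, hc, h1⟩ := Jtx.one hQ
    obtain ⟨c', hc', h2⟩ := Jtx.one hQ'
    set D : ℕ := max (Finset.univ.sup fun b => (Q b).totalDegree)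
      (Finset.univ.sup fun b => (Q' b).totalDegree) with hD
    have a1 := h1 D (fun a => (Jtx.deg_le Q a).trans (le_max_left _ _)) (4 * D + 1)
    have a2 := h2 D (fun a => (Jtx.deg_le Q' a).trans (le_max_right _ _)) (4 * D + 1)
    obtain ⟨j, b1, b2, b3⟩ := (a1.and (a2.and (eventually_ge_atTop 1))).exists
    have e := sEdge (sRem sNull) sCoef (sSig sNull) d n u hd hu D (4 * D + 1) j le_rfl b3
      x y _ _ b1 b2 hxy
    intro z w hw
    have := e z w hw
    rw [Jtx.lz_sc] at this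
    exact (mul_eq_zero.mp this).resolve_left (mul_pos hc hc').ne'
  · rintro x ⟨Q, ⟨hJ, -⟩, hq, hI⟩
    obtain ⟨c, hc, h1⟩ := Jtx.one hJ
    obtain ⟨α, a1, a2⟩ := ExhIA.top_coeff hq
    have hp : 0 < MvPolynomial.coeff α (c • Q sI) ^ 2 := by
      rw [MvPolynomial.coeff_smul, smul_eq_mul]
      exact sq_pos_of_ne_zero (mul_ne_zero hc.ne' a2)
    filter_upwards [eventually_ge_atTop (Finset.univ.sup fun b => (Q b).totalDegree)] with D hD K
    filter_upwards [h1 D (fun a => (Jtx.deg_le Q a).trans hD) K, ExhIA.ev_large ‖x‖,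
      ExhIA.ev_one_le hp] with j b1 b2 b3
    exact ⟨b2, _, b1, _, Jtx.iso_sc hI c, α, a1, b3⟩

end Pool.Agent.MP_66cee2_co.D
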