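import Pool.Agent.MP_66cee2_co.D.SpecA
import Pool.Agent.MP_66cee2_co.XI.One

/-
Row Lin: behaviour along parallel lines.
-/

namespace Pool.Agent.MP_66cee2_co.D

open Set Filter Topology Pool.Agent.MP_66cee2_co.X Pool.Agent.MP_66cee2_co.XI Polynomial

namespace Linx

variable {d n : ℕ}

/-- degree at most `k`, constant top coefficient, affine second coefficient. -/
def Sk (k : ℕ) (f : E d → ℝ[X]) : Prop :=
  (∀ z, (f z).natDegree ≤ k) ∧ (∀ z, (f z).coeff k = (f 0).coeff k) ∧
    ∃ l : E d →ₗ[ℝ] ℝ, ∀ z, (X * f z).coeff k = (X * f 0).coeff k + l z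

theorem Sk.succ {k : ℕ} {f : E d → ℝ[X]} (h : Sk k f) : Sk (k + 1) f := by
  obtain ⟨h1, h2, -⟩ := h
  refine ⟨fun z => (h1 z).trans (Nat.le_succ k), fun z => ?_, 0, fun z => ?_⟩
  · rw [coeff_eq_zero_of_natDegree_lt (Nat.lt_succ_of_le (h1 z)),
      coeff_eq_zero_of_natDegree_lt (Nat.lt_succ_of_le (h1 0))]
  · rw [coeff_X_mul, coeff_X_mul, h2 z]; simp

theorem Sk.mono {k l : ℕ} {f : E d → ℝ[X]} (h : Sk k f) (hl : k ≤ l) : Sk l f := by
  induction l, hl using Nat.le_induction with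
  | base => exact h
  | succ l _ ih => exact ih.succ

theorem sk_one : Sk 0 (fun _ : E d => (1 : ℝ[X])) :=
  ⟨fun _ => by simp, fun _ => rfl, 0, fun _ => by simp⟩

theorem sk_zero (k : ℕ) : Sk k (fun _ : E d => (0 : ℝ[X])) :=
  ⟨fun _ => by simp, fun _ => rfl, 0, fun _ => by simp⟩

theorem Sk.add {k : ℕ} {f g : E d → ℝ[X]} (h : Sk k f) (h' : Sk k g) :
    Sk k fun z => f z + g z := by
  obtain ⟨h1, h2, l, h3⟩ := h
  obtain ⟨g1, g2, l', g3⟩ := h'
  refine ⟨fun z => (natDegree_add_le _ _).trans (max_le (h1 z) (g1 z)), fun z => ?_, l + l',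
    fun z => ?_⟩
  · simp only [coeff_add, h2 z, g2 z]
  · simp only [mul_add, coeff_add, h3 z, g3 z, LinearMap.add_apply]; ring

theorem Sk.cmul {k : ℕ} {f : E d → ℝ[X]} (h : Sk k f) (c : ℝ) : Sk k fun z => C c * f z := by
  obtain ⟨h1, h2, l, h3⟩ := h
  refine ⟨fun z => (natDegree_C_mul_le _ _).trans (h1 z), fun z => ?_, c • l, fun z => ?_⟩
  · simp only [coeff_C_mul, h2 z]
  · simp only [mul_left_comm X (C c), coeff_C_mul, h3 z, LinearMap.smul_apply, smul_eq_mul]; ring

theorem Sk.lin {k : ℕ} {f : E d → ℝ[X]} (h : Sk k f) (w : E d) (i : Fin d) :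
    Sk (k + 1) fun z => f z * (C (z i) + C (w i) * X) := by
  obtain ⟨h1, h2, l, h3⟩ := h
  have e : ∀ z : E d, f z * (C (z i) + C (w i) * X) = C (z i) * f z + C (w i) * (X * f z) :=
    fun z => by ring
  refine ⟨fun z => natDegree_mul_le.trans (add_le_add (h1 z) (lin_deg _ _)), fun z => ?_,
    (f 0).coeff k • (EuclideanSpace.proj (𝕜 := ℝ) i : E d →L[ℝ] ℝ).toLinearMap + w i • l,
    fun z => ?_⟩
  · simp only [e, coeff_add, coeff_C_mul, coeff_X_mul, h2 z,
      coeff_eq_zero_of_natDegree_lt (Nat.lt_succ_of_le (h1 z)),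
      coeff_eq_zero_of_natDegree_lt (Nat.lt_succ_of_le (h1 0)), mul_zero]
  · rw [coeff_X_mul, coeff_X_mul]
    simp only [e, coeff_add, coeff_C_mul]
    simp only [h2 z, h3 z, LinearMap.add_apply, LinearMap.smul_apply,
      smul_eq_mul, ContinuousLinearMap.coe_coe, EuclideanSpace.coe_proj, PiLp.zero_apply]
    ring

theorem Sk.pow {k : ℕ} {f : E d → ℝ[X]} (h : Sk k f) (w : E d) (i : Fin d) (e : ℕ) :
    Sk (k + e) fun z => f z * (C (z i) + C (w i) * X) ^ e := by
  induction e with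
  | zero => simpa using h
  | succ e ih => simpa only [pow_succ, ← mul_assoc, ← add_assoc] using ih.lin w i

theorem sk_prod (w : E d) (α : Fin d → ℕ) (s : Finset (Fin d)) :
    Sk (∑ i ∈ s, α i) fun z : E d => ∏ i ∈ s, (C (z i) + C (w i) * X) ^ α i := by
  classical
  induction s using Finset.induction_on with
  | empty => simpa using sk_one
  | insert i s hi ih =>
    simp only [Finset.sum_insert hi, Finset.prod_insert hi]
    simpa only [add_comm (α i), mul_comm ((C _ + C (w i) * X : ℝ[X]) ^ α i)] using ih.pow w i (α i)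

theorem sk_sum {ι : Type} {k : ℕ} (s : Finset ι) (f : ι → E d → ℝ[X]) (h : ∀ a ∈ s, Sk k (f a)) :
    Sk k fun z => ∑ a ∈ s, f a z := by
  classical
  induction s using Finset.induction_on with
  | empty => simpa using sk_zero k
  | insert i s hi ih =>
    simp only [Finset.sum_insert hi]
    exact (h i (Finset.mem_insert_self _ _)).add (ih fun a ha => h a (Finset.mem_insert_of_mem ha))

theorem sk_ln {q : MP d} {m : ℕ} (h : q.totalDegree ≤ m) (w : E d) : Sk m fun z => ln q z w := by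
  simp only [ln_eq_sum]
  exact sk_sum _ _ fun α hα =>
    ((sk_prod w α Finset.univ).mono ((sum_le_totalDegree hα).trans h)).cmul _

theorem tend_vec {F : ℝ → E n} {c : E n} (h : ∀ i, Tendsto (fun s => F s i) atTop (𝓝 (c i))) :
    Tendsto F atTop (𝓝 c) :=
  ((PiLp.continuous_toLp 2 _).tendsto _).comp (tendsto_pi_nhds.2 h)

theorem top {p : MP d} {m : ℕ} (h : p.totalDegree ≤ m) (z w : E d) :
    Tendsto (fun s : ℝ => (s ^ m)⁻¹ * ev p (z + s • w)) atTop (𝓝 (co p w m)) := by
  have h1 := natDegree_ln h z w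
  have a := (OneA.asy (p := ln p z w) (q := X ^ m) (m := m) (h1.trans (Nat.le_succ m))
    (by simp) (by simp)).add_const (co p w m)
  have s0 : slp (ln p z w) (X ^ m) m = 0 := by
    rw [slp, coeff_eq_zero_of_natDegree_lt (Nat.lt_succ_of_le h1), zero_div]
  have o : ofs (ln p z w) (X ^ m) m = co p w m := by
    rw [ofs, s0, coeff_ln_top h]; simp
  rw [zero_add, s0, o] at a
  refine a.congr fun s => ?_
  rw [eval_ln, eval_pow, eval_X]
  ring

theorem one {p q : MP d} {m : ℕ} (w : E d) (hq : q.totalDegree ≤ m) (hp : p.totalDegree ≤ m + 1)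
    (h0 : co q w m ≠ 0) :
    ∃ (T : E d →ₗ[ℝ] ℝ) (c : ℝ), T w = (co q w m)⁻¹ * co p w (m + 1) ∧ ∀ z,
      Tendsto (fun s : ℝ => (ev q (z + s • w))⁻¹ * ev p (z + s • w) - s * T w) atTop
        (𝓝 (T z + c)) := by
  obtain ⟨-, -, l, hl⟩ := sk_ln hp w
  obtain ⟨-, -, l', hl'⟩ := sk_ln hq w
  simp only [coeff_X_mul] at hl
  set L : ℝ := (co q w m)⁻¹ * co p w (m + 1) with hL
  let T : E d →ₗ[ℝ] ℝ := (co q w m)⁻¹ • (l - L • l')
  let c : ℝ := (co q w m)⁻¹ * ((ln p 0 w).coeff m - L * (X * ln q 0 w).coeff m)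
  have key : ∀ z, Tendsto (fun s : ℝ => (ev q (z + s • w))⁻¹ * ev p (z + s • w) - s * L) atTop
      (𝓝 (T z + c)) := fun z => by
    have a := (OneA.asy (natDegree_ln hp z w) (natDegree_ln hq z w)
      (by rwa [coeff_ln_top hq])).add_const (T z + c)
    have s0 : slp (ln p z w) (ln q z w) m = L := by
      rw [slp, coeff_ln_top hp, coeff_ln_top hq, hL, div_eq_inv_mul]
    have o : ofs (ln p z w) (ln q z w) m = T z + c := by
      rw [ofs, s0, coeff_ln_top hq, hl z, hl' z, div_eq_inv_mul]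
      simp only [T, c, LinearMap.smul_apply, LinearMap.sub_apply, smul_eq_mul]
      ring
    rw [zero_add, s0, o] at a
    refine a.congr fun s => ?_
    rw [eval_ln, eval_ln]
    ring
  have hT : T w = L := by
    have a := ((key 0).comp (tendsto_atTop_add_const_right atTop (1 : ℝ) tendsto_id)).add_const L
    have b := tendsto_nhds_unique (key w) (a.congr fun s => by
      simp only [Function.comp_apply, id, zero_add]
      rw [show (s + 1) • w = w + s • w by rw [add_smul, one_smul, add_comm]]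
      ring)
    rw [map_zero] at b
    linarith
  exact ⟨T, c, hT, fun z => by rw [hT]; exact key z⟩

end Linx

open Linx in
theorem sLin : SLin := by
  intro d n Q w m
  refine ⟨fun h z => tend_vec fun i => ?_, fun hq hp h0 => ?_⟩
  · simpa only [pQ, cQ, PiLp.smul_apply, smul_eq_mul] using top (h i) z w
  · choose T c hT hl using fun i => one w hq (hp i) h0
    refine ⟨(WithLp.linearEquiv 2 ℝ (Fin n → ℝ)).symm.toLinearMap ∘ₗ LinearMap.pi T,
      WithLp.toLp 2 c, ?_, fun z => ⟨?_, tend_vec fun i => ?_⟩⟩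
    · ext i
      simpa [cQ] using hT i
    · have hne : ln (Q sI) z w ≠ 0 := fun e => h0 (by rw [← coeff_ln_top hq z, e, coeff_zero])
      filter_upwards [eventually_atTop_not_isRoot _ hne] with s hs
      rwa [IsRoot.def, eval_ln] at hs
    · simpa [pQ] using hl i z

end Pool.Agent.MP_66cee2_co.D
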