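import Pool.Agent.MP_66cee2_co.D.SpecA
import Pool.Agent.MP_66cee2_co.XI.Cls
import Pool.Agent.MP_66cee2_co.XI.Rem
import Pool.Agent.MP_66cee2_co.XI.Null
import Pool.Agent.MP_66cee2_co.XI.Den

/-
Without an edge of isometric type all jets at the ends of almost every unit pair are orthogonal.
-/

namespace Pool.Agent.MP_66cee2_co.D

open MeasureTheory Set Filter Metric Topology Pool.Agent.MP_66cee2_co.X
  Pool.Agent.MP_66cee2_co.XI

namespace OrtJx

theorem shift {d : ℕ} {p : E d → Prop} (h : ∀ᵐ x : E d, p x) (v : E d) :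
    ∀ᵐ x : E d, p (x + v) :=
  (measurePreserving_add_right (volume : Measure (E d)) v).quasiMeasurePreserving.ae h

end OrtJx

theorem sOrtJ : SJt → SClq → SSimp → SOrtJ := by
  intro hJ hC hS d n P u hd hn hu hI w hw
  obtain ⟨v, v0, vl, hv⟩ := hS d w hw
  have huf : UF u := ⟨hu.meas, hu.unit, hu.orth⟩
  have h1 : ∀ᵐ x : E d, ∀ k, ∃ Q, Jt u (x + v k) Q :=
    ae_all_iff.2 fun k => OrtJx.shift (p := fun x => ∃ Q, Jt u x Q)
      (sCls (sRem sNull) sDen d n P u hu) (v k)
  have h2 : ∀ᵐ x : E d, ∀ k l, k ≠ l → ¬ (IsoX u (x + v k) ∧ IsoX u (x + v l)) := by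
    refine ae_all_iff.2 fun k => ae_all_iff.2 fun l => ?_
    by_cases hkl : k = l
    · exact Eventually.of_forall fun x h => absurd hkl h
    · have := OrtJx.shift (hI (v l - v k) (hv l k (Ne.symm hkl))) (v k)
      filter_upwards [this] with x hx _
      rwa [show x + v k + (v l - v k) = x + v l by abel] at hx
  filter_upwards [h1, h2] with x hx hx2 Q Q' hQ hQ'
  choose R hR using hx
  have h0l : (0 : Fin (d + 1)) ≠ Fin.last d := by
    intro h
    have := congrArg Fin.val h
    simp at this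
    omega
  classical
  let S : Fin (d + 1) → Ix n → MP d := fun k =>
    if k = 0 then Q else if k = Fin.last d then Q' else R k
  have hSj : ∀ k, Jt u (x + v k) (S k) := by
    intro k
    by_cases h0 : k = 0
    · simp only [S, h0, if_true, v0, add_zero]; exact hQ
    · by_cases hl : k = Fin.last d
      · simp only [S, hl, h0l.symm, if_true, if_false, vl]; exact hQ'
      · simp only [S, h0, hl, if_false]; exact hR k
  have hcl : Clq S := ⟨fun k => (hSj k).2, fun k l hkl =>
    (hJ d n u (by omega) huf).2.1 _ _ _ _ (hSj k).1 (hSj l).1 (by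
      rw [add_sub_add_left_eq_sub]; exact hv k l hkl)⟩
  rcases hC d n S hd hn hcl with ⟨k, l, hkl, hk, hl⟩ | h
  · exact absurd ⟨⟨_, hSj k, hk⟩, ⟨_, hSj l, hl⟩⟩ (hx2 k l hkl)
  · have := h 0 (Fin.last d) h0l
    simpa only [S, if_true, h0l.symm, if_false] using this

end Pool.Agent.MP_66cee2_co.D
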