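import Pool.Agent.MP_66cee2_co.D.SpecA
import Pool.Agent.MP_66cee2_co.XI.Null

/-
Maps into spaces of dimension at most `2 d - 2`: exhaustion by pieces.
-/

namespace Pool.Agent.MP_66cee2_co.D

open MeasureTheory Set Filter Metric Topology Matrix Pool.Agent.MP_66cee2_co.X
  Pool.Agent.MP_66cee2_co.XI

namespace PvEx

variable {d n : ℕ}

theorem dense_qp : DenseRange (qp : (Fin d → ℚ) → E d) := by
  have h1 : DenseRange (Pi.map fun (_ : Fin d) (q : ℚ) => (q : ℝ)) :=
    DenseRange.piMap fun _ => Rat.denseRange_cast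
  have h2 : DenseRange (WithLp.toLp 2 : (Fin d → ℝ) → E d) :=
    (WithLp.toLp_surjective 2).denseRange
  exact h2.comp h1 (PiLp.continuous_toLp 2 _)

theorem exists_rat {q : MP d} (hq : q ≠ 0) : ∃ z : Fin d → ℚ, ev q (qp z) ≠ 0 := by
  have ho : IsOpen {z : E d | ev q z ≠ 0} := isOpen_ne_fun (XI.continuous_ev q) continuous_const
  have hn : {z : E d | ev q z ≠ 0}.Nonempty := by
    by_contra h
    exact hq (eq_zero_of_ev fun z => by_contra fun hz => h ⟨z, hz⟩)
  exact dense_qp.exists_mem_open ho hn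

theorem exists_pos {Q : Ix n → MP d} (h : TyQ Q) :
    ∃ a, Q a ≠ 0 ∧ ∀ z, ev (Q a) z ≠ 0 → 0 < lz (evv Q z) (evv Q z) := by
  rcases h with ⟨h0, i, hi⟩ | ⟨h0, hg⟩
  · refine ⟨Sum.inl i, hi, fun z hz => ?_⟩
    have e : evv Q z (Sum.inr true) = 0 := by simp [evv, h0]
    rw [lz_eq, e]
    have h1 : evv Q z (Sum.inl i) * evv Q z (Sum.inl i) ≤
        ∑ k, evv Q z (Sum.inl k) * evv Q z (Sum.inl k) :=
      Finset.single_le_sum (f := fun k => evv Q z (Sum.inl k) * evv Q z (Sum.inl k))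
        (fun k _ => mul_self_nonneg _) (Finset.mem_univ i)
    have h2 : 0 < evv Q z (Sum.inl i) * evv Q z (Sum.inl i) := mul_self_pos.2 hz
    linarith
  · exact ⟨sI, h0, fun z hz => by rw [hg z]; positivity⟩

theorem lz_smul_left (c : ℝ) (a v : Ix n → ℝ) : lz (c • a) v = c * lz a v := by
  simp [lz]

theorem ev_large {t : ℝ} (ht : 0 < t) : ∀ᶠ j : ℕ in atTop, 1 ≤ (j : ℝ) * t :=
  (tendsto_natCast_atTop_atTop.atTop_mul_const ht).eventually_ge_atTop 1

end PvEx

open PvEx in
theorem sPvE (hJ : SJt) : SPvE := by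
  intro d n
  refine ⟨fun u x Q hd hu hx => ?_, fun R Q Q' hp hQ ho z z' => ?_⟩
  · obtain ⟨a, ha, hpos⟩ := exists_pos hx.2
    obtain ⟨z, hz⟩ := exists_rat ha
    obtain ⟨c, hc, hA⟩ := (hJ d n u hd hu).1 x Q hx.1
    refine ⟨Finset.univ.sup fun b => (Q b).totalDegree, z, a, fun K => ?_⟩
    have e : evv (fun b => c • Q b) (qp z) = c • evv Q (qp z) := by
      funext b; simp [evv]
    have h1 : 0 < lz (evv (fun b => c • Q b) (qp z)) (evv (fun b => c • Q b) (qp z)) := by
      rw [e, lz_smul_left, lz_comm, lz_smul_left]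
      have := hpos _ hz
      positivity
    have h2 : 0 < ev (c • Q a) (qp z) ^ 2 := by
      rw [ev_smul]
      positivity
    have h3 : ∀ᶠ j : ℕ in atTop, ‖x‖ ≤ (j : ℝ) :=
      tendsto_natCast_atTop_atTop.eventually_ge_atTop _
    obtain ⟨j, k1, k2, k3, k4, k5⟩ := ((eventually_ge_atTop 1).and (h3.and
      ((hA _ (fun b => Finset.le_sup (f := fun b => (Q b).totalDegree) (Finset.mem_univ b)) K).and
        ((ev_large h1).and (ev_large h2))))).exists
    exact ⟨j, k1, k2, _, k3, k4, k5⟩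
  · obtain ⟨a, ha⟩ := Function.ne_iff.1 hQ
    have hc : Continuous fun y => lz (evv R y) (evv Q' z') := by
      simp only [lz_eq, evv]
      fun_prop
    refine congrFun (Continuous.ext_on (dense_ev_ne sNull ha) hc continuous_const
      fun y hy => ?_) z
    have e : ev (Q a) y • evv R y = ev (R a) y • evv Q y := by
      funext b
      simp only [Pi.smul_apply, smul_eq_mul, evv]
      rw [mul_comm, hp y b a]
    have := congrArg (fun v => lz v (evv Q' z')) e
    simp only [lz_smul_left, ho y z', mul_zero] at this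
    exact (mul_eq_zero.1 this).resolve_left hy

end Pool.Agent.MP_66cee2_co.D
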