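import Pool.Agent.MP_66cee2_co.D.SpecA
import Pool.Agent.MP_66cee2_co.XI.Hol
import Pool.Agent.MP_66cee2_co.XI.Rem
import Pool.Agent.MP_66cee2_co.XI.Null
import Pool.Agent.MP_66cee2_co.XI.Coef

/-
The estimate on a piece.
-/

namespace Pool.Agent.MP_66cee2_co.D

open MeasureTheory Set Filter Metric Topology Polynomial Pool.Agent.MP_66cee2_co.X
  Pool.Agent.MP_66cee2_co.XI

namespace PvHx

theorem eval_le {q : ℝ[X]} {N : ℕ} (hq : q.natDegree ≤ N) {B t : ℝ} (ht : 0 ≤ t)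
    (hB : ∀ k, |q.coeff k| ≤ B) : |q.eval t| ≤ B * ∑ k ∈ Finset.range (N + 1), t ^ k := by
  rw [eval_eq_sum_range' (Nat.lt_succ_of_le hq), Finset.mul_sum]
  refine (Finset.abs_sum_le_sum_abs _ _).trans (Finset.sum_le_sum fun k _ => ?_)
  rw [abs_mul, abs_of_nonneg (pow_nonneg ht k)]
  exact mul_le_mul_of_nonneg_right (hB k) (pow_nonneg ht k)

theorem minor {d n : ℕ} {u : E d → Ix n → ℝ} (hu : UF u) (D p j : ℕ) (hp : 1 ≤ p) (hj : 1 ≤ j) :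
    ∃ r : ℝ, 0 < r ∧ ∀ z : E d, ∃ C : ℝ, 0 ≤ C ∧
      ∀ K, 2 * D + p ≤ K → ∀ x y Q Q', Adm u D K j x Q → Adm u D K j y Q' → ‖x‖ ≤ j →
        ‖x - y‖ ≤ r → ∀ a b,
        |ev (Q a) z * ev (Q' b) z - ev (Q b) z * ev (Q' a) z| ≤ C * ‖x - y‖ ^ p := by
  obtain ⟨C, r, hr, h⟩ := sHol (sRem sNull) sCoef d n u hu D p j hp hj
  refine ⟨r, hr, fun z => ?_⟩
  have ht : 0 < ‖z‖ + 1 := by positivity
  have hS : 0 ≤ ∑ k ∈ Finset.range (D + D + 1), (‖z‖ + 1) ^ k :=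
    Finset.sum_nonneg fun k _ => pow_nonneg ht.le k
  refine ⟨|C| * ∑ k ∈ Finset.range (D + D + 1), (‖z‖ + 1) ^ k, mul_nonneg (abs_nonneg _) hS,
    fun K hK x y Q Q' hQ hQ' hx hxy a b => ?_⟩
  have hw : ‖(‖z‖ + 1)⁻¹ • z‖ ≤ 1 := by
    rw [norm_smul, Real.norm_eq_abs, abs_of_pos (inv_pos.2 ht), inv_mul_le_iff₀ ht]
    linarith
  have hz : (‖z‖ + 1) • ((‖z‖ + 1)⁻¹ • z) = z := by
    rw [smul_smul, mul_inv_cancel₀ ht.ne', one_smul]
  have hdeg : ∀ a b, (ln (Q a) 0 ((‖z‖ + 1)⁻¹ • z) * ln (Q' b) 0 ((‖z‖ + 1)⁻¹ • z)).natDegree ≤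
      D + D := fun a b =>
    natDegree_mul_le.trans (add_le_add (natDegree_ln (hQ.deg a) _ _) (natDegree_ln (hQ'.deg b) _ _))
  have h1 := eval_le (N := D + D) ((natDegree_sub_le _ _).trans (max_le (hdeg a b) (hdeg b a)))
    ht.le (B := |C| * ‖x - y‖ ^ p) fun k =>
      (h K hK x y Q Q' hQ hQ' hx hxy _ hw a b k).trans
        (mul_le_mul_of_nonneg_right (le_abs_self C) (pow_nonneg (norm_nonneg _) p))
  simp only [eval_sub, eval_mul, eval_ln_zero, hz] at h1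
  refine h1.trans (le_of_eq ?_)
  ring

theorem quot {j s s' t t' B : ℝ} (hj : 0 < j) (hs : 1 ≤ j * s ^ 2) (hs' : 1 ≤ j * s' ^ 2)
    (h : |t * s' - s * t'| ≤ B) : |s⁻¹ * t - s'⁻¹ * t'| ≤ j * B := by
  have h0 : s ≠ 0 := by
    rintro rfl
    norm_num at hs
  have h0' : s' ≠ 0 := by
    rintro rfl
    norm_num at hs'
  have hB : 0 ≤ B := (abs_nonneg _).trans h
  have h1 : 1 ≤ j * |s * s'| := by
    have h2 : 1 ≤ (j * |s * s'|) ^ 2 := by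
      rw [mul_pow, sq_abs]
      calc (1 : ℝ) = 1 * 1 := by ring
        _ ≤ (j * s ^ 2) * (j * s' ^ 2) := mul_le_mul hs hs' zero_le_one (by positivity)
        _ = j ^ 2 * (s * s') ^ 2 := by ring
    exact (one_le_sq_iff₀ (by positivity)).1 h2
  have hpos : 0 < |s * s'| := abs_pos.2 (mul_ne_zero h0 h0')
  have h3 : s⁻¹ * t - s'⁻¹ * t' = (t * s' - s * t') / (s * s') := by
    field_simp
  rw [h3, abs_div, div_le_iff₀ hpos]
  calc |t * s' - s * t'| ≤ B * 1 := by rw [mul_one]; exact h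
    _ ≤ B * (j * |s * s'|) := mul_le_mul_of_nonneg_left h1 hB
    _ = j * B * |s * s'| := by ring

end PvHx

theorem sPvH : SPvH := by
  intro d n u hu
  refine ⟨fun D p j z a hp hj => ?_, fun D K j x Q Q' hK hj hx hQ hQ' z a b => ?_⟩
  · obtain ⟨r, hr, h⟩ := PvHx.minor hu D p j hp hj
    obtain ⟨C, hC, h⟩ := h z
    have hj' : (0 : ℝ) < j := Nat.cast_pos.2 hj
    refine ⟨j * C, r, mul_nonneg hj'.le hC, hr,
      fun K hK x y Q Q' hQ hQ' hx hxy hP hP' => ?_⟩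
    refine (pi_norm_le_iff_of_nonneg (by positivity)).2 fun b => ?_
    have h1 := PvHx.quot hj' hP.2 hP'.2 (h K hK x y Q Q' hQ hQ' hx hxy b a)
    rw [mul_assoc]
    simpa [nv, evv, Real.norm_eq_abs] using h1
  · obtain ⟨r, hr, h⟩ := PvHx.minor hu D 1 j le_rfl hj
    obtain ⟨C, -, h⟩ := h z
    have h1 := h K hK x x Q Q' hQ hQ' hx (by simpa using hr.le) a b
    rw [sub_self, norm_zero, pow_one, mul_zero] at h1
    exact sub_eq_zero.1 (abs_nonpos_iff.1 h1)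

end Pool.Agent.MP_66cee2_co.D
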