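import Pool.Agent.MP_66cee2_co.D.SpecA

/-
Regular simplices with unit edges and a given edge.
-/

namespace Pool.Agent.MP_66cee2_co.D

open Pool.Agent.MP_66cee2_co.X

namespace Simpx

/-- a root of the quadratic equation. -/
theorem exists_root (d : ℕ) (hd : 1 ≤ d) (a : ℝ) (ha : a ^ 2 = 1 / 2) :
    ∃ b : ℝ, a ^ 2 + 2 * a * b + d * b ^ 2 = 1 := by
  have hd' : (0 : ℝ) < d := by exact_mod_cast hd
  have hs : Real.sqrt ((1 + d) / 2) ^ 2 = (1 + d) / 2 := Real.sq_sqrt (by positivity)
  refine ⟨(Real.sqrt ((1 + d) / 2) - a) / d, ?_⟩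
  set s := Real.sqrt ((1 + d) / 2)
  have h : (d : ℝ) * (a ^ 2 + 2 * a * ((s - a) / d) + d * ((s - a) / d) ^ 2) =
      d * a ^ 2 + s ^ 2 - a ^ 2 := by
    field_simp
    ring
  have h2 : (d : ℝ) * (a ^ 2 + 2 * a * ((s - a) / d) + d * ((s - a) / d) ^ 2) = d * 1 := by
    rw [h, hs, ha]
    ring
  exact mul_left_cancel₀ hd'.ne' h2

/-- the vertices other than the origin. -/
noncomputable def pt (d : ℕ) (a b : ℝ) (i : Fin d) : E d :=
  WithLp.toLp 2 fun j => (if j = i then a else 0) + b

theorem norm_pt (d : ℕ) (a b : ℝ) (h : a ^ 2 + 2 * a * b + d * b ^ 2 = 1) (i : Fin d) :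
    ‖pt d a b i‖ = 1 := by
  have h1 : ‖pt d a b i‖ ^ 2 = 1 := by
    rw [EuclideanSpace.norm_sq_eq, ← h]
    have h2 : ∀ j : Fin d, ‖(pt d a b i) j‖ ^ 2 =
        (if j = i then a ^ 2 + 2 * a * b else 0) + b ^ 2 := by
      intro j
      rw [Real.norm_eq_abs, sq_abs]
      by_cases hj : j = i
      · simp only [pt, hj, if_true]
        ring
      · simp only [pt, hj, if_false]
        ring
    rw [Finset.sum_congr rfl fun j _ => h2 j, Finset.sum_add_distrib]
    simp
  exact (pow_eq_one_iff_of_nonneg (norm_nonneg _) two_ne_zero).1 h1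

theorem norm_pt_sub (d : ℕ) (a b : ℝ) (ha : a ^ 2 = 1 / 2) (i k : Fin d) (hik : i ≠ k) :
    ‖pt d a b i - pt d a b k‖ = 1 := by
  have h1 : ‖pt d a b i - pt d a b k‖ ^ 2 = 1 := by
    rw [EuclideanSpace.norm_sq_eq]
    have h2 : ∀ j : Fin d, ‖(pt d a b i - pt d a b k) j‖ ^ 2 =
        (if j = i then a ^ 2 else 0) + if j = k then a ^ 2 else 0 := by
      intro j
      rw [Real.norm_eq_abs, sq_abs, PiLp.sub_apply]
      by_cases hj : j = i
      · have hk : ¬ i = k := hik
        simp only [pt, hj, hk, if_true, if_false]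
        ring
      · by_cases hk : j = k
        · have hk' : ¬ k = i := fun h => hik h.symm
          simp only [pt, hk, hk', if_true, if_false]
          ring
        · simp only [pt, hj, hk, if_false]
          ring
    rw [Finset.sum_congr rfl fun j _ => h2 j, Finset.sum_add_distrib]
    simp only [Finset.sum_ite_eq', Finset.mem_univ, if_true, ha]
    norm_num
  exact (pow_eq_one_iff_of_nonneg (norm_nonneg _) two_ne_zero).1 h1

/-- a regular simplex with one vertex at the origin. -/
theorem exists_simplex (d : ℕ) (hd : 1 ≤ d) :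
    ∃ u : Fin (d + 1) → E d, u 0 = 0 ∧ ∀ k l, k ≠ l → ‖u k - u l‖ = 1 := by
  have ha : Real.sqrt (1 / 2) ^ 2 = 1 / 2 := Real.sq_sqrt (by norm_num)
  obtain ⟨b, hb⟩ := exists_root d hd _ ha
  refine ⟨Fin.cons 0 (pt d (Real.sqrt (1 / 2)) b), rfl, fun k l hkl => ?_⟩
  induction k using Fin.cases with
  | zero =>
    induction l using Fin.cases with
    | zero => exact absurd rfl hkl
    | succ l =>
      rw [Fin.cons_zero, Fin.cons_succ, zero_sub, norm_neg]
      exact norm_pt d _ b hb l
  | succ k =>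
    induction l using Fin.cases with
    | zero =>
      rw [Fin.cons_zero, Fin.cons_succ, sub_zero]
      exact norm_pt d _ b hb k
    | succ l =>
      rw [Fin.cons_succ, Fin.cons_succ]
      exact norm_pt_sub d _ b ha k l fun h => hkl (by rw [h])

end Simpx

theorem sSimp : SSimp := by
  intro d w hw
  have hd : 1 ≤ d := by
    rcases Nat.eq_zero_or_pos d with h | h
    · subst h
      rw [Subsingleton.elim w 0, norm_zero] at hw
      exact absurd hw zero_ne_one
    · exact h
  obtain ⟨u, hu0, hu⟩ := Simpx.exists_simplex d hd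
  have hne : Fin.last d ≠ 0 := by
    intro h
    have := congrArg Fin.val h
    simp only [Fin.val_last, Fin.val_zero] at this
    omega
  have hl : ‖u (Fin.last d)‖ = ‖w‖ := by
    have := hu _ _ hne
    rw [hu0, sub_zero] at this
    rw [this, hw]
  refine ⟨fun k => (ℝ ∙ (u (Fin.last d) - w))ᗮ.reflection (u k), ?_, ?_, fun k l hkl => ?_⟩
  · simp only [hu0, map_zero]
  · exact Submodule.reflection_sub hl
  · rw [← map_sub, LinearIsometryEquiv.norm_map]
    exact hu k l hkl

end Pool.Agent.MP_66cee2_co.D
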