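import Pool.Agent.MP_66cee2_co.D.SpecA

/-
The slope at infinity of the members of a clique has length zero or one.
-/

namespace Pool.Agent.MP_66cee2_co.D

open Set Filter Metric Topology Pool.Agent.MP_66cee2_co.X Pool.Agent.MP_66cee2_co.XI
open scoped RealInnerProductSpace

namespace Slopex

variable {d n : ℕ}

/-- the point that belongs to a vector of the general type. -/
noncomputable def fQ (Q : Ix n → MP d) (x : E d) : E n := (ev (Q sI) x)⁻¹ • pQ Q x

theorem lz_pq (Q Q' : Ix n → MP d) (x y : E d) :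
    lz (evv Q x) (evv Q' y) = 2 * ⟪pQ Q x, pQ Q' y⟫ + ev (Q sI) x * ev (Q' (Sum.inr false)) y +
      ev (Q (Sum.inr false)) x * ev (Q' sI) y := by
  rw [lz_eq]
  simp only [evv, pQ, PiLp.inner_apply, RCLike.inner_apply, conj_trivial]
  rw [Finset.sum_congr rfl fun i _ => mul_comm (ev (Q' (Sum.inl i)) y) (ev (Q (Sum.inl i)) x)]

theorem unit_gg {Q Q' : Ix n → MP d} (hQ : GC Q) (hQ' : GC Q') {x y : E d}
    (h : lz (evv Q x) (evv Q' y) = 0) (hx : ev (Q sI) x ≠ 0) (hy : ev (Q' sI) y ≠ 0) :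
    ‖fQ Q x - fQ Q' y‖ = 1 := by
  have h1 := lz_gc (hQ x) (hQ' y)
  rw [h, mul_zero] at h1
  simp only [evv] at h1
  have h2 : ‖fQ Q x - fQ Q' y‖ ^ 2 = 1 := by
    rw [EuclideanSpace.norm_sq_eq]
    have e : ∀ i, ‖(fQ Q x - fQ Q' y) i‖ ^ 2 =
        (ev (Q (Sum.inl i)) x * ev (Q' sI) y - ev (Q' (Sum.inl i)) y * ev (Q sI) x) ^ 2 /
          (ev (Q sI) x * ev (Q' sI) y) ^ 2 := by
      intro i
      rw [Real.norm_eq_abs, sq_abs]
      simp only [fQ, pQ, PiLp.sub_apply, PiLp.smul_apply, smul_eq_mul]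
      field_simp
    rw [Finset.sum_congr rfl fun i _ => e i, ← Finset.sum_div, div_eq_one_iff_eq
      (pow_ne_zero 2 (mul_ne_zero hx hy))]
    linarith
  exact (pow_eq_one_iff_of_nonneg (norm_nonneg _) two_ne_zero).1 h2

theorem lim_unit {F F' : ℝ → E n} {L L' A A' : E n}
    (h : Tendsto (fun s : ℝ => F s - s • L) atTop (𝓝 A))
    (h' : Tendsto (fun s : ℝ => F' s - s • L') atTop (𝓝 A'))
    (hu : ∀ᶠ s : ℝ in atTop, ‖F s - F' s‖ = 1) : L = L' ∧ ‖A - A'‖ = 1 := by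
  have hg := h.sub h'
  have h1 : Tendsto (fun s : ℝ => s⁻¹ • (F s - s • L - (F' s - s • L'))) atTop (𝓝 0) := by
    have := tendsto_inv_atTop_zero.smul hg
    rwa [zero_smul] at this
  have h2 : Tendsto (fun s : ℝ => s⁻¹ • (F s - F' s)) atTop (𝓝 0) := by
    rw [tendsto_zero_iff_norm_tendsto_zero]
    refine (tendsto_inv_atTop_zero (𝕜 := ℝ)).congr' ?_
    filter_upwards [hu, eventually_gt_atTop (0 : ℝ)] with s hs h0
    rw [norm_smul, hs, mul_one, Real.norm_of_nonneg (inv_pos.2 h0).le]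
  have h3 : Tendsto (fun _ : ℝ => L - L') atTop (𝓝 (0 - 0)) := by
    refine (h2.sub h1).congr' ?_
    filter_upwards [eventually_gt_atTop (0 : ℝ)] with s h0
    rw [← smul_sub, show F s - F' s - (F s - s • L - (F' s - s • L')) = s • (L - L') by
      rw [smul_sub]; abel, smul_smul, inv_mul_cancel₀ h0.ne', one_smul]
  have hL : L = L' := by
    have := tendsto_nhds_unique h3 tendsto_const_nhds
    rw [sub_zero] at this
    exact sub_eq_zero.1 this.symm
  refine ⟨hL, ?_⟩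
  subst hL
  refine tendsto_nhds_unique hg.norm (tendsto_const_nhds.congr' ?_)
  filter_upwards [hu] with s hs
  rw [← hs]
  exact congrArg norm (by abel)

theorem lim_inner {p g : ℝ → E n} {ν A : E n} {m : ℕ}
    (h : Tendsto (fun s : ℝ => (s ^ m)⁻¹ • p s) atTop (𝓝 ν)) (h' : Tendsto g atTop (𝓝 A))
    (h0 : ∀ᶠ s : ℝ in atTop, ⟪p s, g s⟫ = 0) : ⟪ν, A⟫ = 0 := by
  refine tendsto_nhds_unique (h.inner (𝕜 := ℝ) h') (tendsto_const_nhds.congr' ?_)
  filter_upwards [h0] with s hs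
  rw [real_inner_smul_left, hs, mul_zero]

theorem eg {Q Q' : Ix n → MP d} (hQ : Q sI = 0) {x y : E d}
    (h : lz (evv Q x) (evv Q' y) = 0) (hy : ev (Q' sI) y ≠ 0) :
    2 * ⟪pQ Q x, fQ Q' y⟫ + ev (Q (Sum.inr false)) x = 0 := by
  rw [lz_pq, hQ, XI.ev_zero, zero_mul, add_zero] at h
  rw [fQ, real_inner_smul_right]
  field_simp
  linarith

theorem all_of_unit {T : E d →ₗ[ℝ] E n} {ν : E n} (h : ∀ v : E d, ‖v‖ = 1 → ⟪ν, T v⟫ = 0)
    (v : E d) : ⟪ν, T v⟫ = 0 := by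
  by_cases hv : v = 0
  · simp [hv]
  · have hn : ‖v‖ ≠ 0 := norm_ne_zero_iff.2 hv
    have h1 := h (‖v‖⁻¹ • v) (by rw [norm_smul, norm_inv, norm_norm, inv_mul_cancel₀ hn])
    rw [map_smul, real_inner_smul_right] at h1
    exact (mul_eq_zero.1 h1).resolve_left (inv_ne_zero hn)

end Slopex

open Slopex in
theorem sSlope : SLin → SAffP → SConf → SSlope := by
  intro hL hA hC d n Q m w k l hd hn hq hw hkl hk hl hG hE
  have gc : ∀ j, Q j sI ≠ 0 → GC (Q j) := fun j hj =>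
    ((hq.ty j).resolve_left fun h => hj h.1).2
  have ex : ∀ j, ∃ (T : E d →ₗ[ℝ] E n) (c : E n), Q j sI ≠ 0 →
      (T w = (co (Q j sI) w (m j))⁻¹ • cQ (Q j) w (m j + 1) ∧ ∀ z,
        (∀ᶠ s : ℝ in atTop, ev (Q j sI) (z + s • w) ≠ 0) ∧
        Tendsto (fun s : ℝ => fQ (Q j) (z + s • w) - s • T w) atTop (𝓝 (T z + c))) := by
    intro j
    by_cases hj : Q j sI = 0
    · exact ⟨0, 0, fun h => absurd hj h⟩
    · obtain ⟨h1, h2, h3⟩ := hG j hj
      obtain ⟨T, c, h⟩ := (hL d n (Q j) w (m j)).2 h1 h3 h2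
      exact ⟨T, c, fun _ => h⟩
  choose T c hT using ex
  have sh : ∀ (z v : E d) (s : ℝ), z + s • w + v = z + v + s • w := fun z v s => by abel
  have gg : ∀ j j', Q j sI ≠ 0 → Q j' sI ≠ 0 → j ≠ j' → T j = T j' ∧
      (∀ v, ⟪c j - c j', T j v⟫ = 0) ∧ ∀ v, ‖T j v‖ ^ 2 = (1 - ‖c j - c j'‖ ^ 2) * ‖v‖ ^ 2 := by
    intro j j' hj hj' hne
    refine hA d n _ _ _ _ hd fun z v hv => ?_
    refine (lim_unit ((hT j hj).2 z).2 ((hT j' hj').2 (z + v)).2 ?_).2
    filter_upwards [((hT j hj).2 z).1, ((hT j' hj').2 (z + v)).1] with s h1 h2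
    refine unit_gg (gc j hj) (gc j' hj') ?_ h1 h2
    rw [← sh]
    exact hq.edge j j' hne _ v hv
  have tk : ∀ j, Q j sI ≠ 0 → T j = T k := by
    intro j hj
    by_cases h : j = k
    · rw [h]
    · exact (gg j k hj hk h).1
  have hτ : ∀ j j', Q j sI ≠ 0 → Q j' sI ≠ 0 → j ≠ j' →
      ‖c j - c j'‖ ^ 2 = 1 - ‖T k w‖ ^ 2 := by
    intro j j' hj hj' hne
    have := (gg j j' hj hj' hne).2.2 w
    rw [tk j hj, hw] at this
    linarith
  have hco := (hG k hk).2.1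
  by_cases h0 : T k w = 0
  · left
    rw [(hT k hk).1] at h0
    exact (smul_eq_zero.1 h0).resolve_left (inv_ne_zero hco)
  by_cases h1 : ‖T k w‖ ^ 2 = 1
  · right
    rw [(hT k hk).1, norm_smul, mul_pow, norm_inv, Real.norm_eq_abs, inv_pow, sq_abs] at h1
    field_simp at h1
    linarith
  exfalso
  have nu : ∀ j, Q j sI = 0 → ∀ z, Tendsto (fun s : ℝ => (s ^ m j)⁻¹ • pQ (Q j) (z + s • w)) atTop
      (𝓝 (cQ (Q j) w (m j))) := fun j hj => (hL d n (Q j) w (m j)).1 (hE j hj).2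
  have ge : ∀ j a b, Q j sI = 0 → Q a sI ≠ 0 → Q b sI ≠ 0 → ∀ v v' : E d, ‖v‖ = 1 → ‖v'‖ = 1 →
      ⟪cQ (Q j) w (m j), T k v + c a - (T k v' + c b)⟫ = 0 := by
    intro j a b hj ha hb v v' hv hv'
    have t1 := ((hT a ha).2 v).2
    have t2 := ((hT b hb).2 v').2
    rw [tk a ha] at t1
    rw [tk b hb] at t2
    refine lim_inner (nu j hj 0) (t1.sub t2) ?_
    filter_upwards [((hT a ha).2 v).1, ((hT b hb).2 v').1] with s s1 s2
    have e1 := hq.edge j a (fun h => ha (h ▸ hj)) (0 + s • w) v hv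
    have e2 := hq.edge j b (fun h => hb (h ▸ hj)) (0 + s • w) v' hv'
    rw [sh, zero_add v] at e1
    rw [sh, zero_add v'] at e2
    have f1 := eg hj e1 s1
    have f2 := eg hj e2 s2
    rw [sub_sub_sub_cancel_right, inner_sub_right]
    linarith
  have hle : ‖T k w‖ ^ 2 ≤ 1 := by
    have := hτ k l hk hl hkl
    nlinarith [sq_nonneg ‖c k - c l‖]
  refine hC d n (fun j => Q j sI ≠ 0) (T k) c (fun j => cQ (Q j) w (m j)) (‖T k w‖ ^ 2) k hn
    (pow_pos (norm_pos_iff.2 h0) 2) (lt_of_le_of_ne hle h1) hk (fun v => ?_)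
    (fun a b ha hb v => ?_) hτ (fun j hj => ?_) fun a b ha hb hab => ?_
  · rw [(gg k l hk hl hkl).2.2 v, hτ k l hk hl hkl]
    ring
  · by_cases h : a = b
    · simp [h]
    · rw [← tk a ha]
      exact (gg a b ha hb h).2.1 v
  · have hj' : Q j sI = 0 := not_not.1 hj
    refine ⟨(hE j hj').1, all_of_unit fun v hv => ?_, fun a b ha hb => ?_⟩
    · have := ge j k k hj' hk hk v (-v) hv (by rwa [norm_neg])
      rw [map_neg, show T k v + c k - (-T k v + c k) = (2 : ℝ) • T k v by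
        rw [two_smul]; abel, real_inner_smul_right] at this
      linarith
    · have := ge j a b hj' ha hb w w hw hw
      rwa [add_sub_add_left_eq_sub] at this
  · have ha' : Q a sI = 0 := not_not.1 ha
    have hb' : Q b sI = 0 := not_not.1 hb
    refine lim_inner (nu a ha' 0) (nu b hb' w) (Eventually.of_forall fun s => ?_)
    have e1 := hq.edge a b hab (0 + s • w) w hw
    rw [sh, zero_add w, lz_pq, ha', hb', XI.ev_zero, XI.ev_zero, zero_mul, mul_zero] at e1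
    rw [real_inner_smul_right, show ⟪pQ (Q a) (0 + s • w), pQ (Q b) (w + s • w)⟫ = 0 by linarith,
      mul_zero]

end Pool.Agent.MP_66cee2_co.D
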