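import Pool.Agent.MP_66cee2_co.D.A2
import Pool.Agent.MP_66cee2_co.D.A3
import Pool.Agent.MP_66cee2_co.D.A4
import Pool.Agent.MP_66cee2_co.D.AffP
import Pool.Agent.MP_66cee2_co.D.BI
import Pool.Agent.MP_66cee2_co.D.CaseB
import Pool.Agent.MP_66cee2_co.D.Clq
import Pool.Agent.MP_66cee2_co.D.Clq1
import Pool.Agent.MP_66cee2_co.D.Conf
import Pool.Agent.MP_66cee2_co.D.DegG
import Pool.Agent.MP_66cee2_co.D.DegT
import Pool.Agent.MP_66cee2_co.D.Dich
import Pool.Agent.MP_66cee2_co.D.Div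
import Pool.Agent.MP_66cee2_co.D.Jt
import Pool.Agent.MP_66cee2_co.D.Lin
import Pool.Agent.MP_66cee2_co.D.OrtJ
import Pool.Agent.MP_66cee2_co.D.PvC
import Pool.Agent.MP_66cee2_co.D.PvE
import Pool.Agent.MP_66cee2_co.D.PvH
import Pool.Agent.MP_66cee2_co.D.Simp
import Pool.Agent.MP_66cee2_co.D.Slope
import Pool.Agent.MP_66cee2_co.D.Vf
import Pool.Agent.MP_66cee2_co.D.Vone

/-
Maps into spaces of dimension at most `2 d - 2`: the clique lemma and the dichotomy, assembled.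
-/

namespace Pool.Agent.MP_66cee2_co.D

theorem sA4All : SA4 := sA4' sA3

theorem sClqAll : SClq :=
  sClq (sClq1 sA4All (sA2 sDiv)) (sBI sDegG (sSlope sLin sAffP sConf)) sDegG sDegT sA4All

theorem sDichAll : SDich :=
  sDich (sCaseB sJt) (sOrtJ sJt sClqAll sSimp)
    (sVf sJt sPvC sPvH (sPvE sJt) (sVone sPvC sPvH)) (sPvE sJt)

end Pool.Agent.MP_66cee2_co.D
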