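import Pool.Agent.MP_66cee2_co.D.SpecA

/-
Components of given bidegree.
-/

namespace Pool.Agent.MP_66cee2_co.D

open MvPolynomial Pool.Agent.MP_66cee2_co.X Pool.Agent.MP_66cee2_co.XI

namespace Bix

variable {d : ℕ}

/-- the weights. -/
def wt (d : ℕ) : Fin d ⊕ Fin d → ℤ × ℤ := Sum.elim (fun _ => (1, 0)) fun _ => (0, 1)

theorem weight_eq (α : Fin d ⊕ Fin d →₀ ℕ) :
    Finsupp.weight (wt d) α = (((∑ i, α (Sum.inl i) : ℕ) : ℤ), ((∑ i, α (Sum.inr i) : ℕ) : ℤ)) := by
  rw [Finsupp.weight_apply, Finsupp.sum_fintype _ _ (by simp), Fintype.sum_sum_type]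
  ext <;> simp [wt, Prod.fst_sum, Prod.snd_sum]

theorem shift {g : BP d} {k : ℤ × ℤ} (hg : IsWeightedHomogeneous (wt d) g k) (m : ℤ × ℤ)
    (L : BP d) : weightedHomogeneousComponent (wt d) m (g * L) =
      g * weightedHomogeneousComponent (wt d) (m - k) L := by
  induction L using MvPolynomial.induction_on' with
  | monomial α c =>
    have h := isWeightedHomogeneous_monomial (wt d) α c rfl
    rw [weightedHomogeneousComponent_of_mem (hg.mul h), weightedHomogeneousComponent_of_mem h]
    simp only [sub_eq_iff_eq_add']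
    split_ifs <;> simp
  | add p q hp hq => rw [mul_add, map_add, map_add, mul_add, hp, hq]

theorem hom_inl (α : Fin d →₀ ℕ) (c : ℝ) : IsWeightedHomogeneous (wt d)
    (rename Sum.inl (monomial α c) : BP d) ((α.degree : ℤ), 0) := by
  rw [rename_monomial]
  refine isWeightedHomogeneous_monomial _ _ _ ?_
  rw [weight_eq, Finsupp.degree_eq_sum]
  simp [Finsupp.mapDomain_apply Sum.inl_injective, Finsupp.mapDomain_of_notMem_range]

theorem hom_inr (α : Fin d →₀ ℕ) (c : ℝ) : IsWeightedHomogeneous (wt d)
    (rename Sum.inr (monomial α c) : BP d) (0, (α.degree : ℤ)) := by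
  rw [rename_monomial]
  refine isWeightedHomogeneous_monomial _ _ _ ?_
  rw [weight_eq, Finsupp.degree_eq_sum]
  simp [Finsupp.mapDomain_apply Sum.inr_injective, Finsupp.mapDomain_of_notMem_range]

theorem prod_comp (a b : ℕ) (p q : MP d) :
    weightedHomogeneousComponent (wt d) ((a : ℤ), (b : ℤ)) (rename Sum.inl p * rename Sum.inr q) =
      rename Sum.inl (homogeneousComponent a p) * rename Sum.inr (homogeneousComponent b q) := by
  induction p using MvPolynomial.induction_on' with
  | monomial α c =>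
    induction q using MvPolynomial.induction_on' with
    | monomial β e =>
      rw [weightedHomogeneousComponent_of_mem ((hom_inl α c).mul (hom_inr β e)),
        homogeneousComponent_of_mem (isHomogeneous_monomial c rfl),
        homogeneousComponent_of_mem (isHomogeneous_monomial e rfl)]
      by_cases h1 : a = α.degree <;> by_cases h2 : b = β.degree <;> simp [h1, h2]
    | add p q hp hq => simp only [map_add, mul_add, hp, hq]
  | add p q hp hq => simp only [map_add, add_mul, hp, hq]

theorem hom_two : IsWeightedHomogeneous (wt d) (2 : BP d) 0 :=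
  isWeightedHomogeneous_C (wt d) (2 : ℝ)

theorem hom_nx : IsWeightedHomogeneous (wt d) (nx d) (2, 0) :=
  IsWeightedHomogeneous.sum _ _ _ fun i _ => (isWeightedHomogeneous_X ℝ (wt d) (Sum.inl i)).pow 2

theorem hom_ny : IsWeightedHomogeneous (wt d) (ny d) (0, 2) :=
  IsWeightedHomogeneous.sum _ _ _ fun i _ => (isWeightedHomogeneous_X ℝ (wt d) (Sum.inr i)).pow 2

theorem hom_xy : IsWeightedHomogeneous (wt d) (2 * xy d) (1, 1) :=
  hom_two.mul (IsWeightedHomogeneous.sum _ _ (1, 1) fun i _ =>
    (isWeightedHomogeneous_X ℝ (wt d) (Sum.inl i)).mul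
      (isWeightedHomogeneous_X ℝ (wt d) (Sum.inr i)))

theorem comp_Kp {n : ℕ} (a b : ℕ) (Q Q' : Ix n → MP d) :
    weightedHomogeneousComponent (wt d) ((a : ℤ), (b : ℤ)) (Kp Q Q') =
      Kp (hc a Q) (hc b Q') := by
  simp only [Kp, hc, map_add, shift hom_two, sub_zero, map_sum, prod_comp]

end Bix

open Bix

theorem sBi : SBi := by
  intro d n Q Q' L h
  refine ⟨fun a b => weightedHomogeneousComponent (wt d) (a, b) L,
    weightedHomogeneousComponent_finsupp L, fun a b k => ?_, fun k => ?_, fun a b => ?_⟩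
  · refine weightedHomogeneousComponent_eq_zero' _ _ fun α _ e => ?_
    rw [weight_eq, Prod.mk.injEq] at e
    omega
  · rw [← finsum_weightedHomogeneousComponent (wt d) L]
    exact finsum_eq_zero_of_forall_eq_zero fun m => k m.1 m.2
  · rw [← comp_Kp, h, sP, sub_mul, add_mul, sub_mul, one_mul, map_sub, map_add, map_sub,
      shift hom_nx, shift hom_ny, shift hom_xy]
    simp only [Prod.mk_sub_mk, sub_zero]

end Pool.Agent.MP_66cee2_co.D
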