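import Pool.Agent.MP_66cee2_co.X.BasicJ
import Pool.Agent.MP_66cee2_co.XJ.Sig

/-
Upper bounds for the measure of caps and bands on the sphere.
-/

namespace Pool.Agent.MP_66cee2_co.D

open MeasureTheory Set Filter Metric Topology Pool.Agent.MP_66cee2_co.X
open scoped ENNReal RealInnerProductSpace Pointwise

namespace H3

theorem cone_vol {d : ℕ} {S : Set (E d)} (hS : MeasurableSet S) {R : ℝ} (hR : 0 < R) :
    volume ((fun z : E d => ‖z‖⁻¹ • z) ⁻¹' S ∩ ball 0 R) = ENNReal.ofReal (R ^ d) * sig d S := by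
  have e : (fun z : E d => ‖z‖⁻¹ • z) ⁻¹' S ∩ ball 0 R =
      R • ((fun z : E d => ‖z‖⁻¹ • z) ⁻¹' S ∩ ball 0 1) := by
    ext z
    rw [mem_smul_set_iff_inv_smul_mem₀ hR.ne']
    have h1 : ‖R⁻¹ • z‖ = R⁻¹ * ‖z‖ := by rw [norm_smul, norm_inv, Real.norm_of_nonneg hR.le]
    have h2 : ‖R⁻¹ • z‖⁻¹ • R⁻¹ • z = ‖z‖⁻¹ • z := by
      rw [h1, smul_smul, mul_inv, inv_inv, mul_right_comm, mul_inv_cancel₀ hR.ne', one_mul]
    simp only [mem_inter_iff, mem_preimage, mem_ball_zero_iff, h2]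
    rw [h1, inv_mul_lt_iff₀ hR, mul_one]
  rw [e, Measure.addHaar_smul, finrank_euclideanSpace_fin, abs_of_pos (pow_pos hR d), sig_apply hS]

theorem sig_fin {d : ℕ} (S : Set (E d)) : sig d S ≠ ⊤ := by
  refine ne_top_of_le_ne_top ?_ (measure_mono (subset_univ S))
  rw [sig_apply MeasurableSet.univ]
  exact ne_top_of_le_ne_top vol_ball_ne_top (measure_mono inter_subset_right)

theorem shell_le {d : ℕ} (hd : 1 ≤ d) {S T : Set (E d)} (hS : MeasurableSet S) {ρ : ℝ}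
    (hρ : 0 < ρ) (h : ∀ z : E d, ‖z‖⁻¹ • z ∈ S → 1 ≤ ‖z‖ → ‖z‖ < 1 + ρ → z ∈ T) :
    ENNReal.ofReal ρ * sig d S ≤ volume T := by
  have h1 : (fun z : E d => ‖z‖⁻¹ • z) ⁻¹' S ∩ ball 0 (1 + ρ) ⊆
      ((fun z : E d => ‖z‖⁻¹ • z) ⁻¹' S ∩ ball 0 1) ∪ T := by
    intro z hz
    by_cases h2 : ‖z‖ < 1
    · exact Or.inl ⟨hz.1, mem_ball_zero_iff.2 h2⟩
    · exact Or.inr (h z hz.1 (not_lt.1 h2) (mem_ball_zero_iff.1 hz.2))
  have h2 := (measure_mono (μ := volume) h1).trans (measure_union_le _ _)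
  rw [cone_vol hS (by linarith), ← sig_apply hS] at h2
  refine ENNReal.le_of_add_le_add_left (sig_fin S) (le_trans ?_ h2)
  have h3 : 1 + ρ ≤ (1 + ρ) ^ d := le_self_pow₀ (by linarith) (by omega)
  refine le_trans (le_of_eq ?_) (mul_le_mul_left (ENNReal.ofReal_le_ofReal h3) _)
  rw [ENNReal.ofReal_add zero_le_one hρ.le, add_mul, ENNReal.ofReal_one, one_mul]

theorem cancel {ρ K : ℝ} (hρ : 0 < ρ) {s : ℝ≥0∞}
    (h : ENNReal.ofReal ρ * s ≤ ENNReal.ofReal (ρ * K)) : s ≤ ENNReal.ofReal K := by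
  rw [ENNReal.ofReal_mul hρ.le] at h
  exact (ENNReal.mul_le_mul_iff_right (by simpa using hρ) ENNReal.ofReal_ne_top).1 h

theorem near {d : ℕ} {z : E d} (h : 1 ≤ ‖z‖) : ‖z - ‖z‖⁻¹ • z‖ = ‖z‖ - 1 := by
  have h0 : 0 < ‖z‖ := by linarith
  have e : z - ‖z‖⁻¹ • z = (1 - ‖z‖⁻¹) • z := by rw [sub_smul, one_smul]
  rw [e, norm_smul, Real.norm_of_nonneg (sub_nonneg.2 (inv_le_one_of_one_le₀ h)), sub_mul,
    inv_mul_cancel₀ h0.ne', one_mul]

theorem pow_sub {u v : ℝ} (hv : 0 ≤ v) (hvu : v ≤ u) (hu : u ≤ 2) (k : ℕ) :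
    u ^ (k + 2) - v ^ (k + 2) ≤ 4 ^ k * (u ^ 2 - v ^ 2) := by
  have h0 : 0 ≤ u ^ 2 - v ^ 2 := by nlinarith
  induction k with
  | zero => simp
  | succ k ih =>
    have h1 : v ^ (k + 1) ≤ 2 * 4 ^ k := by
      rw [pow_succ']
      exact mul_le_mul (by linarith) (pow_le_pow_left₀ hv (by linarith) k) (by positivity)
        (by norm_num)
    have h2 : 0 ≤ u ^ (k + 2) - v ^ (k + 2) := sub_nonneg.2 (pow_le_pow_left₀ hv hvu _)
    have h3 : u ^ (k + 1 + 2) - v ^ (k + 1 + 2) =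
        u * (u ^ (k + 2) - v ^ (k + 2)) + v ^ (k + 1) * (v * (u - v)) := by ring
    have h4 : v * (u - v) ≤ u ^ 2 - v ^ 2 := by nlinarith
    have h5 : v ^ (k + 1) * (v * (u - v)) ≤ 2 * 4 ^ k * (u ^ 2 - v ^ 2) :=
      mul_le_mul h1 h4 (mul_nonneg hv (by linarith)) (by positivity)
    have h6 : u * (u ^ (k + 2) - v ^ (k + 2)) ≤ 2 * (4 ^ k * (u ^ 2 - v ^ 2)) :=
      mul_le_mul hu ih h2 (by norm_num)
    rw [h3, pow_succ (4 : ℝ) k]
    linarith

theorem annulus (k : ℕ) {a ε : ℝ} (ha : a ≤ 1) (hε : 0 < ε) (hε1 : ε ≤ 1) :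
    volume {y : E (k + 2) | a ≤ ‖y‖ ^ 2 ∧ ‖y‖ ^ 2 ≤ a + 3 * ε} ≤
      ENNReal.ofReal (4 ^ k * (3 * ε)) * volume (ball (0 : E (k + 2)) 1) := by
  set v := √(max a 0) with hv
  set u := √(max a 0 + 3 * ε) with hu
  have m0 : 0 ≤ max a 0 := le_max_right _ _
  have m1 : max a 0 ≤ 1 := max_le ha zero_le_one
  have v0 : 0 ≤ v := Real.sqrt_nonneg _
  have u0 : 0 ≤ u := Real.sqrt_nonneg _
  have v2 : v ^ 2 = max a 0 := Real.sq_sqrt m0
  have u2 : u ^ 2 = max a 0 + 3 * ε := Real.sq_sqrt (by linarith)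
  have hvu : v ≤ u := Real.sqrt_le_sqrt (by linarith)
  have hu2 : u ≤ 2 := by nlinarith
  have h1 := pow_sub v0 hvu hu2 k
  have hsub : {y : E (k + 2) | a ≤ ‖y‖ ^ 2 ∧ ‖y‖ ^ 2 ≤ a + 3 * ε} ⊆ closedBall 0 u \ ball 0 v := by
    intro y hy
    refine ⟨mem_closedBall_zero_iff.2 (Real.le_sqrt_of_sq_le ?_), fun h => ?_⟩
    · linarith [hy.2, le_max_left a 0]
    · have h2 := mem_ball_zero_iff.1 h
      have h3 : max a 0 ≤ ‖y‖ ^ 2 := max_le hy.1 (sq_nonneg _)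
      nlinarith [norm_nonneg y]
  refine (measure_mono hsub).trans ?_
  rw [measure_sdiff (ball_subset_closedBall.trans (closedBall_subset_closedBall hvu))
    measurableSet_ball.nullMeasurableSet vol_ball_ne_top, Measure.addHaar_closedBall _ _ u0,
    Measure.addHaar_ball _ _ v0, finrank_euclideanSpace_fin, tsub_le_iff_right, ← add_mul,
    ← ENNReal.ofReal_add (by positivity) (by positivity)]
  refine mul_le_mul_left (ENNReal.ofReal_le_ofReal ?_) _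
  rw [u2, v2, add_sub_cancel_left] at h1
  linarith

/-- the first coordinate and the others. -/
noncomputable def spl (m : ℕ) (z : E (m + 1)) : ℝ × E m :=
  (z 0, WithLp.toLp 2 fun i => z i.succ)

theorem spl_mp (m : ℕ) : MeasurePreserving (spl m) volume (volume.prod volume) := by
  have h := ((MeasurePreserving.id (volume : Measure ℝ)).prod
    (PiLp.volume_preserving_toLp (Fin m))).comp
    ((volume_preserving_piFinSuccAbove (fun _ : Fin (m + 1) => ℝ) 0).comp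
      (PiLp.volume_preserving_ofLp (Fin (m + 1))))
  exact h

theorem spl_norm (m : ℕ) (z : E (m + 1)) : ‖z‖ ^ 2 = (spl m z).1 ^ 2 + ‖(spl m z).2‖ ^ 2 := by
  rw [EuclideanSpace.real_norm_sq_eq, EuclideanSpace.real_norm_sq_eq, Fin.sum_univ_succ]
  rfl

theorem slab (k : ℕ) (t : ℝ) {ε : ℝ} (hε : 0 < ε) (hε1 : ε ≤ 1) :
    volume {z : E (k + 2 + 1) | |z 0 - t| ≤ 2 * ε ∧ 1 ≤ ‖z‖ ^ 2 ∧ ‖z‖ ^ 2 ≤ 1 + 3 * ε} ≤
      ENNReal.ofReal (4 ^ k * (3 * ε)) * volume (ball (0 : E (k + 2)) 1) *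
        ENNReal.ofReal (4 * ε) := by
  set T : Set (ℝ × E (k + 2)) := {p | |p.1 - t| ≤ 2 * ε ∧ 1 ≤ p.1 ^ 2 + ‖p.2‖ ^ 2 ∧
    p.1 ^ 2 + ‖p.2‖ ^ 2 ≤ 1 + 3 * ε} with hT
  have hm : MeasurableSet T := by
    have c1 : Continuous fun p : ℝ × E (k + 2) => |p.1 - t| := by fun_prop
    have c2 : Continuous fun p : ℝ × E (k + 2) => p.1 ^ 2 + ‖p.2‖ ^ 2 := by fun_prop
    exact ((isClosed_le c1 continuous_const).inter ((isClosed_le continuous_const c2).inter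
      (isClosed_le c2 continuous_const))).measurableSet
  have e : {z : E (k + 2 + 1) | |z 0 - t| ≤ 2 * ε ∧ 1 ≤ ‖z‖ ^ 2 ∧ ‖z‖ ^ 2 ≤ 1 + 3 * ε} =
      spl (k + 2) ⁻¹' T := by
    ext z
    simp only [hT, mem_preimage, mem_ofPred_eq, ← spl_norm]
    rfl
  have e2 : volume (closedBall t (2 * ε)) = ENNReal.ofReal (4 * ε) := by
    rw [Real.volume_closedBall, ← mul_assoc]
    norm_num
  rw [e, (spl_mp _).measure_preimage hm.nullMeasurableSet, Measure.prod_apply hm, ← e2,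
    ← lintegral_indicator_const measurableSet_closedBall]
  refine lintegral_mono fun x => ?_
  by_cases hx : x ∈ closedBall t (2 * ε)
  · rw [indicator_of_mem hx]
    refine le_trans (measure_mono fun y hy => ?_)
      (annulus k (a := 1 - x ^ 2) (by nlinarith) hε hε1)
    exact ⟨by linarith [hy.2.1], by linarith [hy.2.2]⟩
  · rw [indicator_of_notMem hx, eq_empty_of_forall_notMem (s := Prod.mk x ⁻¹' T), measure_empty]
    exact fun y hy => hx (by rw [mem_closedBall, Real.dist_eq]; exact hy.1)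

end H3

open H3

theorem capU {d : ℕ} (hd : 1 ≤ d) : ∃ C : ℝ, 0 < C ∧ ∀ (a : E d) (ρ : ℝ), 0 < ρ →
    sig d (closedBall a ρ) ≤ ENNReal.ofReal (C * ρ ^ (d - 1)) := by
  set V := volume (ball (0 : E d) 1) with hV
  have hV0 : 0 < V.toReal := ENNReal.toReal_pos (vol_ball_ne_zero one_pos) vol_ball_ne_top
  refine ⟨2 ^ d * V.toReal, by positivity, fun a ρ hρ => cancel hρ ?_⟩
  refine (shell_le hd (T := closedBall a (2 * ρ)) measurableSet_closedBall hρ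
    fun z h1 h2 h3 => ?_).trans (le_of_eq ?_)
  · rw [mem_closedBall_iff_norm] at h1 ⊢
    have h4 := norm_add_le (z - ‖z‖⁻¹ • z) (‖z‖⁻¹ • z - a)
    rw [sub_add_sub_cancel, near h2] at h4
    linarith
  · rw [Measure.addHaar_closedBall _ _ (by positivity), finrank_euclideanSpace_fin, ← hV,
      ← ENNReal.ofReal_toReal (a := V) vol_ball_ne_top, ← ENNReal.ofReal_mul (by positivity),
      ENNReal.toReal_ofReal hV0.le]
    obtain ⟨k, rfl⟩ : ∃ k, d = k + 1 := ⟨d - 1, by omega⟩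
    rw [Nat.add_sub_cancel]
    congr 1
    ring

theorem band {d : ℕ} (hd : 3 ≤ d) : ∃ C : ℝ, 0 < C ∧ ∀ (e : E d) (t ε : ℝ), ‖e‖ = 1 → 0 < ε →
    ε ≤ 1 → sig d {n | |⟪n, e⟫ - t| ≤ ε} ≤ ENNReal.ofReal (C * ε) := by
  obtain ⟨k, rfl⟩ : ∃ k, d = k + 2 + 1 := ⟨d - 3, by omega⟩
  set V := volume (ball (0 : E (k + 2)) 1) with hV
  have hV0 : 0 < V.toReal := ENNReal.toReal_pos (vol_ball_ne_zero one_pos) vol_ball_ne_top
  refine ⟨4 ^ k * 12 * V.toReal, by positivity, fun e t ε he hε hε1 => cancel hε ?_⟩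
  obtain ⟨A, hA⟩ : ∃ A : E (k + 2 + 1) ≃ₗᵢ[ℝ] E (k + 2 + 1), A (EuclideanSpace.single 0 1) = e :=
    ⟨_, Submodule.reflection_sub (by rw [he]; simp)⟩
  have hm : MeasurableSet {n : E (k + 2 + 1) | |⟪n, e⟫ - t| ≤ ε} :=
    (isClosed_le (by fun_prop) continuous_const).measurableSet
  have hm' : MeasurableSet {n : E (k + 2 + 1) | |n 0 - t| ≤ ε} :=
    (isClosed_le (by fun_prop) continuous_const).measurableSet
  have e1 : A ⁻¹' {n : E (k + 2 + 1) | |⟪n, e⟫ - t| ≤ ε} = {n | |n 0 - t| ≤ ε} := by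
    ext n
    simp only [mem_preimage, mem_ofPred_eq, ← hA, A.inner_map_map,
      EuclideanSpace.inner_single_right]
    simp
  rw [← sig_inv _ A, Measure.map_apply A.continuous.measurable hm, e1]
  refine (shell_le (by omega) hm' hε fun z h1 h2 h3 => ?_).trans ((slab k t hε hε1).trans
    (le_of_eq ?_))
  · have h4 := PiLp.norm_apply_le (z - ‖z‖⁻¹ • z) 0
    rw [near h2, Real.norm_eq_abs, PiLp.sub_apply] at h4
    have h5 : |(‖z‖⁻¹ • z) 0 - t| ≤ ε := h1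
    have h6 := abs_sub_le (z 0) ((‖z‖⁻¹ • z) 0) t
    exact ⟨by linarith, by nlinarith, by nlinarith⟩
  · rw [← hV, ← ENNReal.ofReal_toReal (a := V) vol_ball_ne_top,
      ← ENNReal.ofReal_mul (by positivity), ← ENNReal.ofReal_mul (by positivity),
      ENNReal.toReal_ofReal hV0.le]
    congr 1
    ring

end Pool.Agent.MP_66cee2_co.D
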