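import Pool.Agent.MP_66cee2_co.D.SpecC
import Pool.Agent.MP_66cee2_co.D.H3Band

/-
The measure of a band in a cap, away from the poles.
-/

namespace Pool.Agent.MP_66cee2_co.D.C

open MeasureTheory Set Filter Metric Topology Pool.Agent.MP_66cee2_co.X
open Pool.Agent.MP_66cee2_co.D.H3
open scoped ENNReal RealInnerProductSpace

namespace Band

theorem spl_inner (m : ℕ) (z w : E (m + 1)) :
    ⟪z, w⟫ = z 0 * w 0 + ⟪(spl m z).2, (spl m w).2⟫ := by
  simp only [PiLp.inner_apply, RCLike.inner_apply, conj_trivial, Fin.sum_univ_succ, spl]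
  ring

theorem spl_dist (m : ℕ) (z a : E (m + 1)) : ‖(spl m z).2 - (spl m a).2‖ ≤ ‖z - a‖ := by
  have h := spl_norm m (z - a)
  have e : (spl m (z - a)).2 = (spl m z).2 - (spl m a).2 := by
    ext i
    simp [spl]
  rw [e] at h
  exact abs_le_of_sq_le_sq' (by nlinarith [sq_nonneg (spl m (z - a)).1]) (norm_nonneg _) |>.2

theorem refl (m : ℕ) {e : E (m + 1)} (he : ‖e‖ = 1) :
    ∃ A : E (m + 1) ≃ₗᵢ[ℝ] E (m + 1), ∀ z, ⟪z, e⟫ = A z 0 := by
  obtain ⟨A, hA⟩ : ∃ A : E (m + 1) ≃ₗᵢ[ℝ] E (m + 1), A (EuclideanSpace.single 0 1) = e :=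
    ⟨_, Submodule.reflection_sub (by rw [he]; simp)⟩
  refine ⟨A.symm, fun z => ?_⟩
  rw [← A.symm.inner_map_map, ← hA, A.symm_apply_apply, EuclideanSpace.inner_single_right]
  simp

theorem tube (m : ℕ) (e a : E (m + 1)) (he : ‖e‖ = 1) (t s : ℝ) {r : ℝ} (hr : 0 ≤ r) :
    volume {y : E (m + 1) | ‖y - a‖ ≤ r ∧ |⟪y, e⟫ - t| ≤ s} ≤
      ENNReal.ofReal (2 * s) * (ENNReal.ofReal (r ^ m) * volume (ball (0 : E m) 1)) := by
  obtain ⟨A, hA⟩ := refl m he
  have hm : MeasurableSet (closedBall t s ×ˢ closedBall (spl m (A a)).2 r) :=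
    measurableSet_closedBall.prod measurableSet_closedBall
  have mp := (spl_mp m).comp A.measurePreserving
  have h1 := mp.measure_preimage hm.nullMeasurableSet
  rw [Measure.prod_prod, Real.volume_closedBall, Measure.addHaar_closedBall _ _ hr,
    finrank_euclideanSpace_fin] at h1
  rw [← h1]
  refine measure_mono fun y hy => ⟨?_, ?_⟩
  · rw [mem_closedBall, Real.dist_eq]
    have h2 := hy.2
    rw [hA] at h2
    exact h2
  · rw [mem_closedBall_iff_norm]
    refine (spl_dist m (A y) (A a)).trans ?_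
    rw [← map_sub, A.norm_map]
    exact hy.1

theorem fibre {θ α w : ℝ} (hθ : 0 < θ) :
    volume {x : ℝ | θ ≤ x ∧ α ≤ x ^ 2 ∧ x ^ 2 ≤ α + w} ≤ ENNReal.ofReal (2 * (w / θ)) := by
  rcases eq_empty_or_nonempty {x : ℝ | θ ≤ x ∧ α ≤ x ^ 2 ∧ x ^ 2 ≤ α + w} with h | ⟨x₀, h⟩
  · rw [h, measure_empty]
    exact zero_le
  rw [← Real.volume_closedBall x₀]
  refine measure_mono fun x hx => ?_
  obtain ⟨h1, h2, h3⟩ := h
  obtain ⟨h4, h5, h6⟩ := hx
  rw [mem_closedBall, Real.dist_eq, le_div_iff₀ hθ]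
  rcases le_total x x₀ with h | h
  · rw [abs_of_nonpos (by linarith)]
    nlinarith [mul_nonneg (sub_nonneg.2 h) (sub_nonneg.2 h1)]
  · rw [abs_of_nonneg (by linarith)]
    nlinarith [mul_nonneg (sub_nonneg.2 h) (sub_nonneg.2 h4)]

theorem box (m : ℕ) (e u a : E (m + 1 + 1)) (he : ‖e‖ = 1) (hu : ‖u‖ = 1) (h : ⟪e, u⟫ = 0)
    {θ : ℝ} (hθ : 0 < θ) (t s w : ℝ) {r : ℝ} (hr : 0 ≤ r) :
    volume {z : E (m + 1 + 1) | (‖z - a‖ ≤ r ∧ |⟪z, e⟫ - t| ≤ s) ∧ θ ≤ ⟪z, u⟫ ∧ 1 ≤ ‖z‖ ^ 2 ∧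
      ‖z‖ ^ 2 ≤ 1 + w} ≤ ENNReal.ofReal (2 * (w / θ)) * (ENNReal.ofReal (2 * s) *
        (ENNReal.ofReal (r ^ m) * volume (ball (0 : E m) 1))) := by
  obtain ⟨A, hA⟩ := refl (m + 1) hu
  set e' := (spl (m + 1) (A e)).2 with he'
  set a' := (spl (m + 1) (A a)).2 with ha'
  have e0 : A e 0 = 0 := by rw [← hA, h]
  have e1 : ‖e'‖ = 1 := by
    have h1 := spl_norm (m + 1) (A e)
    have h2 : (spl (m + 1) (A e)).1 = 0 := e0
    rw [A.norm_map, he, h2, ← he'] at h1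
    nlinarith [norm_nonneg e']
  set U : Set (E (m + 1)) := {y | ‖y - a'‖ ≤ r ∧ |⟪y, e'⟫ - t| ≤ s} with hU
  have hUm : MeasurableSet U := by
    have c1 : Continuous fun y : E (m + 1) => ‖y - a'‖ := by fun_prop
    have c2 : Continuous fun y : E (m + 1) => |⟪y, e'⟫ - t| := by fun_prop
    exact ((isClosed_le c1 continuous_const).inter
      (isClosed_le c2 continuous_const)).measurableSet
  set T : Set (ℝ × E (m + 1)) := {p | p.2 ∈ U ∧ θ ≤ p.1 ∧ 1 ≤ p.1 ^ 2 + ‖p.2‖ ^ 2 ∧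
    p.1 ^ 2 + ‖p.2‖ ^ 2 ≤ 1 + w} with hT
  have hm : MeasurableSet T := by
    have c2 : Continuous fun p : ℝ × E (m + 1) => p.1 ^ 2 + ‖p.2‖ ^ 2 := by fun_prop
    exact (measurable_snd hUm).inter ((isClosed_le continuous_const continuous_fst).inter
      ((isClosed_le continuous_const c2).inter (isClosed_le c2 continuous_const))).measurableSet
  have mp := (spl_mp (m + 1)).comp A.measurePreserving
  refine le_trans (measure_mono (t := (spl (m + 1) ∘ A) ⁻¹' T) fun z hz => ?_) ?_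
  · obtain ⟨⟨h1, h2⟩, h3, h4, h5⟩ := hz
    have h6 := spl_norm (m + 1) (A z)
    rw [A.norm_map] at h6
    refine ⟨⟨?_, ?_⟩, ?_, h6 ▸ h4, h6 ▸ h5⟩
    · refine (spl_dist (m + 1) (A z) (A a)).trans ?_
      rw [← map_sub, A.norm_map]
      exact h1
    · rw [← A.inner_map_map, spl_inner, e0, mul_zero, zero_add] at h2
      exact h2
    · rw [hA] at h3
      exact h3
  rw [mp.measure_preimage hm.nullMeasurableSet, Measure.prod_apply_symm hm]
  refine le_trans ?_ (mul_le_mul_right (tube m e' a' e1 t s hr) _)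
  rw [← hU, ← lintegral_indicator_const hUm]
  refine lintegral_mono fun y => ?_
  by_cases hy : y ∈ U
  · rw [indicator_of_mem hy]
    refine le_trans (measure_mono fun x hx => ?_) (fibre (α := 1 - ‖y‖ ^ 2) (w := w) hθ)
    obtain ⟨-, h1, h2, h3⟩ := hx
    exact ⟨h1, by linarith, by linarith⟩
  · rw [indicator_of_notMem hy, eq_empty_of_forall_notMem (s := (fun x => (x, y)) ⁻¹' T),
      measure_empty]
    exact fun x hx => hy hx.1

end Band

open Band

theorem sBandL {d : ℕ} (hd : 3 ≤ d) : SBandL d := by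
  obtain ⟨m, rfl⟩ : ∃ m, d = m + 1 + 1 := ⟨d - 2, by omega⟩
  intro θ hθ
  set V := volume (ball (0 : E m) 1) with hV
  have hV0 : 0 ≤ V.toReal := ENNReal.toReal_nonneg
  have hW0 : 0 ≤ (sig (m + 1 + 1) univ).toReal := ENNReal.toReal_nonneg
  have hK : 0 ≤ 24 / θ * 2 ^ m * V.toReal := by positivity
  refine ⟨24 / θ * 2 ^ m * V.toReal + (sig (m + 1 + 1) univ).toReal, by positivity,
    fun e u a t s r he hu h hs hsr => ?_⟩
  have hr : 0 < r := by linarith
  have em : m + 1 + 1 - 2 = m := by omega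
  rw [em]
  have hp : 0 ≤ s * r ^ m := by positivity
  rcases le_total 1 s with h1 | h1
  · refine (measure_mono (subset_univ _)).trans ?_
    rw [← ENNReal.ofReal_toReal (sig_fin (univ : Set (E (m + 1 + 1))))]
    refine ENNReal.ofReal_le_ofReal ?_
    have h2 : 1 ≤ s * r ^ m := one_le_mul_of_one_le_of_one_le h1 (one_le_pow₀ (h1.trans hsr))
    rw [ENNReal.toReal_ofReal hW0, mul_assoc]
    nlinarith [mul_nonneg hK hp, mul_le_mul_of_nonneg_left h2 hW0]
  have c1 : Continuous fun y : E (m + 1 + 1) => |⟪y, e⟫ - t| := by fun_prop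
  have c2 : Continuous fun y : E (m + 1 + 1) => ⟪y, u⟫ := by fun_prop
  have hm : MeasurableSet {n : E (m + 1 + 1) | n ∈ ball a r ∧ |⟪n, e⟫ - t| ≤ s ∧ θ ≤ ⟪n, u⟫} :=
    measurableSet_ball.inter ((isClosed_le c1 continuous_const).inter
      (isClosed_le continuous_const c2)).measurableSet
  refine cancel hs ((shell_le (by omega) hm hs fun z hz h2 h3 => ?_).trans
    ((box m e u a he hu h hθ t (2 * s) (3 * s) (r := 2 * r) (by positivity)).trans ?_))
  · obtain ⟨h4, h5, h6⟩ := hz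
    rw [mem_ball_iff_norm] at h4
    have h7 := norm_add_le (z - ‖z‖⁻¹ • z) (‖z‖⁻¹ • z - a)
    rw [sub_add_sub_cancel, near h2] at h7
    have h8 := abs_real_inner_le_norm (z - ‖z‖⁻¹ • z) e
    rw [near h2, he, inner_sub_left] at h8
    have h9 := abs_sub_le ⟪z, e⟫ ⟪‖z‖⁻¹ • z, e⟫ t
    refine ⟨⟨by linarith, by linarith⟩, ?_, by nlinarith, by nlinarith⟩
    rw [real_inner_smul_left, le_inv_mul_iff₀ (by linarith)] at h6
    nlinarith
  · rw [← hV, ← ENNReal.ofReal_toReal (a := V) vol_ball_ne_top,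
      ← ENNReal.ofReal_mul (by positivity), ← ENNReal.ofReal_mul (by positivity),
      ← ENNReal.ofReal_mul (by positivity), ENNReal.toReal_ofReal hV0]
    refine ENNReal.ofReal_le_ofReal ?_
    have e2 : 2 * (3 * s / θ) * (2 * (2 * s) * ((2 * r) ^ m * V.toReal)) =
        s * (24 / θ * 2 ^ m * V.toReal * s * r ^ m) := by
      rw [mul_pow]
      ring
    rw [e2]
    refine mul_le_mul_of_nonneg_left ?_ hs.le
    nlinarith [mul_nonneg hW0 hp]

end Pool.Agent.MP_66cee2_co.D.C
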