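import Pool.Agent.MP_66cee2_co.D.SpecC

/-
Upper bound for the measure of caps.
-/

namespace Pool.Agent.MP_66cee2_co.D.C

open MeasureTheory Set Filter Metric Topology Matrix Pool.Agent.MP_66cee2_co.X
open scoped ENNReal RealInnerProductSpace

lemma capU_box {m : ℕ} (b : OrthonormalBasis (Fin (m + 1)) ℝ (E (m + 1))) (c : Fin (m + 1) → ℝ) :
    volume {w : E (m + 1) | ∀ i, |⟪b i, w⟫| ≤ c i} = ∏ i, ENNReal.ofReal (2 * c i) := by
  have h1 := (PiLp.volume_preserving_ofLp (Fin (m + 1))).comp b.measurePreserving_repr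
  have h2 : {w : E (m + 1) | ∀ i, |⟪b i, w⟫| ≤ c i} =
      (WithLp.ofLp ∘ b.repr) ⁻¹' (Icc (-c) c) := by
    ext w
    simp only [mem_ofPred_eq, mem_preimage, Function.comp, mem_Icc, Pi.le_def, Pi.neg_apply,
      OrthonormalBasis.repr_apply_apply, abs_le]
    exact ⟨fun h => ⟨fun i => (h i).1, fun i => (h i).2⟩, fun h i => ⟨h.1 i, h.2 i⟩⟩
  rw [h2, h1.measure_preimage measurableSet_Icc.nullMeasurableSet, Real.volume_Icc_pi]
  refine Finset.prod_congr rfl fun i _ => ?_
  congr 1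
  simp only [Pi.neg_apply]
  ring

lemma capU_basis {m : ℕ} (a : E (m + 1)) (ha : ‖a‖ = 1) :
    ∃ b : OrthonormalBasis (Fin (m + 1)) ℝ (E (m + 1)), b 0 = a := by
  have h : Orthonormal ℝ (({0} : Set (Fin (m + 1))).domRestrict fun _ => a) := by
    constructor
    · intro i
      exact ha
    · intro i j hij
      exact absurd (Subsingleton.elim i j) hij
  obtain ⟨b, hb⟩ := h.exists_orthonormalBasis_extension_of_card_eq (by simp)
  exact ⟨b, hb 0 rfl⟩

theorem sCapU {d : ℕ} (hd : 3 ≤ d) : SCapU d := by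
  obtain ⟨m, rfl⟩ : ∃ m, d = m + 1 := ⟨d - 1, by omega⟩
  refine ⟨2 * 4 ^ m, by positivity, fun a r hr => ?_⟩
  have hm : Measurable fun z : E (m + 1) => ‖z‖⁻¹ • z := by fun_prop
  rw [sig, Measure.map_apply hm measurableSet_closedBall,
    Measure.restrict_apply (hm measurableSet_closedBall)]
  by_cases hT : ∃ z : E (m + 1), z ≠ 0 ∧ ‖z‖⁻¹ • z ∈ closedBall a r
  · obtain ⟨z, hz0, hz⟩ := hT
    have hz1 : ‖‖z‖⁻¹ • z‖ = 1 := norm_smul_inv_norm hz0
    obtain ⟨b, hb⟩ := capU_basis _ hz1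
    have hsub : (fun z : E (m + 1) => ‖z‖⁻¹ • z) ⁻¹' closedBall a r ∩ ball 0 1 ⊆
        {w : E (m + 1) | ∀ i, |⟪b i, w⟫| ≤ (Fin.cons 1 (fun _ => 2 * r) : Fin (m + 1) → ℝ) i} := by
      rintro w ⟨hw, hw1⟩ i
      have hw1' : ‖w‖ < 1 := by simpa using hw1
      have hbi : ‖b i‖ = 1 := b.orthonormal.1 i
      refine Fin.cases ?_ (fun j => ?_) i
      · simp only [Fin.cons_zero]
        have := abs_real_inner_le_norm (b 0) w
        rw [b.orthonormal.1 0] at this
        linarith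
      · simp only [Fin.cons_succ]
        by_cases hw0 : w = 0
        · simp only [hw0, inner_zero_right, abs_zero]
          positivity
        have hn : 0 < ‖w‖ := norm_pos_iff.2 hw0
        have ho : ⟪b j.succ, b 0⟫ = 0 := b.orthonormal.2 (Fin.succ_ne_zero j)
        have h3 : ‖‖w‖⁻¹ • w - b 0‖ ≤ 2 * r := by
          rw [hb]
          have h4 : dist (‖w‖⁻¹ • w) a ≤ r := hw
          have h5 : dist (‖z‖⁻¹ • z) a ≤ r := hz
          have := dist_triangle_right (‖w‖⁻¹ • w) (‖z‖⁻¹ • z) a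
          rw [dist_eq_norm] at this
          linarith
        have h6 : ⟪b j.succ, w⟫ = ‖w‖ * ⟪b j.succ, ‖w‖⁻¹ • w - b 0⟫ := by
          rw [inner_sub_right, ho, real_inner_smul_right, sub_zero, ← mul_assoc,
            mul_inv_cancel₀ hn.ne', one_mul]
        have h7 := abs_real_inner_le_norm (b j.succ) (‖w‖⁻¹ • w - b 0)
        rw [b.orthonormal.1 j.succ, one_mul] at h7
        rw [h6, abs_mul, abs_of_pos hn]
        have h8 := abs_nonneg ⟪b j.succ, ‖w‖⁻¹ • w - b 0⟫
        nlinarith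
    refine (measure_mono hsub).trans (le_of_eq ?_)
    rw [capU_box, Fin.prod_univ_succ]
    simp only [Fin.cons_zero, Fin.cons_succ, Finset.prod_const, Finset.card_univ, Fintype.card_fin,
      Nat.add_sub_cancel]
    rw [← ENNReal.ofReal_pow (by positivity), ← ENNReal.ofReal_mul (by positivity)]
    congr 1
    rw [show 2 * (2 * r) = 4 * r by ring, mul_pow]
    ring
  · push Not at hT
    have hsub : (fun z : E (m + 1) => ‖z‖⁻¹ • z) ⁻¹' closedBall a r ∩ ball 0 1 ⊆ {0} := by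
      rintro w ⟨hw, -⟩
      by_contra h
      exact hT w h hw
    refine (measure_mono hsub).trans ?_
    simp

end Pool.Agent.MP_66cee2_co.D.C
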