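import Pool.Agent.MP_66cee2_co.D.SpecC

/-
A cap of a unit sphere inside a small ball.
-/

namespace Pool.Agent.MP_66cee2_co.D.C

open Pool.Agent.MP_66cee2_co.X
open scoped RealInnerProductSpace

namespace Chord

variable {d : ℕ}

theorem comb_sq {n v : E d} (hn : ‖n‖ = 1) (hv : ‖v‖ = 1) (h : ⟪n, v⟫ = 0) (x y : ℝ) :
    ‖x • n + y • v‖ ^ 2 = x ^ 2 + y ^ 2 := by
  rw [norm_add_sq_real, real_inner_smul_left, real_inner_smul_right, h, norm_smul, norm_smul, hn,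
    hv, mul_one, mul_one, Real.norm_eq_abs, Real.norm_eq_abs, sq_abs, sq_abs]
  ring

theorem comb_le {n v : E d} (hn : ‖n‖ = 1) (hv : ‖v‖ = 1) (x y : ℝ) :
    ‖x • n + y • v‖ ≤ |x| + |y| := by
  refine (norm_add_le _ _).trans (le_of_eq ?_)
  rw [norm_smul, norm_smul, hn, hv, mul_one, mul_one, Real.norm_eq_abs, Real.norm_eq_abs]

theorem exists_perp (hd : 3 ≤ d) (n : E d) : ∃ v : E d, ‖v‖ = 1 ∧ ⟪n, v⟫ = 0 := by
  have h1 : Module.finrank ℝ (Submodule.span ℝ ({n} : Set (E d))) ≤ 1 := by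
    have := finrank_span_le_card (R := ℝ) ({n} : Set (E d))
    simpa using this
  have h2 := Submodule.finrank_add_finrank_orthogonal (Submodule.span ℝ ({n} : Set (E d)))
  rw [finrank_euclideanSpace_fin] at h2
  have h3 : (Submodule.span ℝ ({n} : Set (E d)))ᗮ ≠ ⊥ := by
    intro h
    rw [h, finrank_bot] at h2
    omega
  obtain ⟨w, hw, hw0⟩ := Submodule.exists_mem_ne_zero_of_ne_bot h3
  have h4 : ⟪n, w⟫ = 0 := Submodule.mem_orthogonal_singleton_iff_inner_right.1 hw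
  refine ⟨‖w‖⁻¹ • w, norm_smul_inv_norm hw0, ?_⟩
  rw [real_inner_smul_right, h4, mul_zero]

theorem decomp (hd : 3 ≤ d) {n : E d} (hn : ‖n‖ = 1) (η : E d) :
    ∃ (v : E d) (r : ℝ), ‖v‖ = 1 ∧ ⟪n, v⟫ = 0 ∧ |r| ≤ ‖η‖ ∧ η = ⟪n, η⟫ • n + r • v := by
  have key : ∃ (v : E d) (r : ℝ), ‖v‖ = 1 ∧ ⟪n, v⟫ = 0 ∧ η = ⟪n, η⟫ • n + r • v := by
    by_cases h : η - ⟪n, η⟫ • n = 0
    · obtain ⟨v, hv, hv'⟩ := exists_perp hd n
      exact ⟨v, 0, hv, hv', by rw [zero_smul, add_zero]; exact sub_eq_zero.1 h⟩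
    · refine ⟨‖η - ⟪n, η⟫ • n‖⁻¹ • (η - ⟪n, η⟫ • n), ‖η - ⟪n, η⟫ • n‖,
        norm_smul_inv_norm h, ?_, ?_⟩
      · rw [real_inner_smul_right, inner_sub_right, real_inner_smul_right,
          real_inner_self_eq_norm_sq, hn]
        ring
      · rw [smul_smul, mul_inv_cancel₀ (norm_ne_zero_iff.2 h), one_smul, add_sub_cancel]
  obtain ⟨v, r, hv, hv', h⟩ := key
  refine ⟨v, r, hv, hv', ?_, h⟩
  refine abs_le_of_sq_le_sq ?_ (norm_nonneg _)
  have h2 := comb_sq hn hv hv' ⟪n, η⟫ r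
  rw [← h] at h2
  nlinarith [sq_nonneg ⟪n, η⟫]

theorem pick {r e l : ℝ} (he : 0 ≤ e) (hel : e ≤ l) (hr : |r| ≤ l) :
    ∃ s : ℝ, e ≤ |s| ∧ |s| ≤ l ∧ |r + s| ≤ 2 * e := by
  by_cases h : e ≤ |r|
  · refine ⟨-r, by rwa [abs_neg], by rwa [abs_neg], ?_⟩
    rw [add_neg_cancel, abs_zero]
    linarith
  · refine ⟨e, le_abs_self e, by rwa [abs_of_nonneg he], ?_⟩
    have h1 := abs_add_le r e
    rw [abs_of_nonneg he] at h1
    linarith [not_le.1 h]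

theorem root_le {s : ℝ} (hs : s ^ 2 ≤ 1) : |1 - √(1 - s ^ 2)| ≤ s ^ 2 := by
  have h0 : 0 ≤ 1 - s ^ 2 := by linarith
  have h1 := Real.sqrt_nonneg (1 - s ^ 2)
  have h2 := Real.sq_sqrt h0
  have h3 : √(1 - s ^ 2) ≤ 1 := by nlinarith [sq_nonneg s]
  rw [abs_of_nonneg (by linarith)]
  nlinarith

end Chord

open Chord in
theorem sChord {d : ℕ} (hd : 3 ≤ d) : SChord d := by
  intro β hβ hβ1
  set lam : ℝ := (1 + β) / (2 * β) with hlam
  set g : ℝ := (1 - β) / 2 with hg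
  have hl : 1 < lam := by rw [hlam, lt_div_iff₀ (by positivity)]; linarith
  have hbl : β * lam = 1 - g := by rw [hlam, hg]; field_simp; ring
  have hg0 : 0 < g := by rw [hg]; linarith
  have hg1 : g < 1 := by rw [hg]; linarith
  have hl2 : 1 < lam ^ 2 := by nlinarith
  have ht1 : g / (2 * lam ^ 2) ≤ 1 := by rw [div_le_one (by positivity)]; linarith
  refine ⟨lam, g / 10, g / (2 * lam ^ 2), hl, by positivity, by positivity, by nlinarith, ?_⟩
  intro τ η n hτ hτ0 hη hn hin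
  have h1 : lam ^ 2 * τ ≤ g / 2 := by
    rw [le_div_iff₀ (by positivity)] at hτ0
    linarith
  obtain ⟨v, r, hv, hnv, hr0, hdec⟩ := decomp hd hn η
  have hr : |r| ≤ lam * τ := hr0.trans hη.le
  obtain ⟨s, hs1, hs2, hs3⟩ := pick (e := g / 5 * τ) (by positivity) (by nlinarith) hr
  have hs4 : s ^ 2 ≤ g / 2 * τ := by
    have h2 : s ^ 2 ≤ (lam * τ) ^ 2 := by
      rw [← sq_abs s]
      exact pow_le_pow_left₀ (abs_nonneg s) hs2 2
    nlinarith
  have hτ1 : τ ≤ 1 := hτ0.trans ht1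
  have hs5 : s ^ 2 ≤ 1 := by nlinarith
  refine ⟨(-√(1 - s ^ 2)) • n + s • v, ?_, fun n' _ hb => ⟨?_, ?_⟩⟩
  · refine (sq_eq_sq₀ (norm_nonneg _) zero_le_one).1 ?_
    rw [comb_sq hn hv hnv, neg_sq, Real.sq_sqrt (by linarith)]
    ring
  · have h2 : η + n + n' = ((⟪n, η⟫ + (1 - √(1 - s ^ 2))) • n + (r + s) • v) +
        (n' - ((-√(1 - s ^ 2)) • n + s • v)) := by
      conv_lhs => rw [hdec]
      module
    have h3 := comb_le hn hv (⟪n, η⟫ + (1 - √(1 - s ^ 2))) (r + s)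
    have h4 := abs_add_le ⟪n, η⟫ (1 - √(1 - s ^ 2))
    have h5 := root_le hs5
    have h6 : β * ‖η‖ ≤ (1 - g) * τ := by
      rw [← hbl, mul_assoc]
      exact mul_le_mul_of_nonneg_left hη.le hβ.le
    rw [h2]
    refine (norm_add_le _ _).trans_lt ?_
    linarith
  · have h2 : (1 - √(1 - s ^ 2)) • n + s • v =
        (n + n') - (n' - ((-√(1 - s ^ 2)) • n + s • v)) := by module
    have h3 := comb_sq hn hv hnv (1 - √(1 - s ^ 2)) s
    have h4 : |s| ≤ ‖(1 - √(1 - s ^ 2)) • n + s • v‖ := by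
      refine abs_le_of_sq_le_sq ?_ (norm_nonneg _)
      rw [h3]
      nlinarith [sq_nonneg (1 - √(1 - s ^ 2))]
    have h5 := norm_sub_le (n + n') (n' - ((-√(1 - s ^ 2)) • n + s • v))
    rw [← h2] at h5
    linarith

end Pool.Agent.MP_66cee2_co.D.C
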