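import Pool.Agent.MP_66cee2_co.D.SpecC
import Pool.Agent.MP_66cee2_co.XJ.Sig
import Pool.Agent.MP_66cee2_co.XJ.App
import Pool.Agent.MP_66cee2_co.XJ.Jet
import Pool.Agent.MP_66cee2_co.XJ.Pick

/-
The rows are flat, and flat rows that satisfy the doubling inequality are constant.
-/

namespace Pool.Agent.MP_66cee2_co.D.C

open MeasureTheory Set Filter Metric Topology Matrix Pool.Agent.MP_66cee2_co.X
open scoped ENNReal

namespace Cnt

theorem dot_le {ι : Type} [Fintype ι] (u v : ι → ℝ) :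
    |u ⬝ᵥ v| ≤ Fintype.card ι * (‖u‖ * ‖v‖) := by
  refine (Finset.abs_sum_le_sum_abs _ _).trans ?_
  rw [← nsmul_eq_mul, ← Finset.card_univ, ← Finset.sum_const]
  refine Finset.sum_le_sum fun a _ => ?_
  rw [abs_mul]
  exact mul_le_mul (norm_le_pi_norm u a) (norm_le_pi_norm v a) (abs_nonneg _) (norm_nonneg _)

theorem far_anti {d : ℕ} {ι : Type} [Fintype ι] {J : E d → Finset ι} {ξ : E d → ι → ℝ}
    {x : E d} {s t : ℝ}
    (h : s ≤ t) : Far J ξ x t ⊆ Far J ξ x s := fun _ a => a.imp id fun b => h.trans_lt b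

end Cnt

open Cnt

theorem sCntF {d : ℕ} (hd : 3 ≤ d) : SCntF d := by
  intro ι _ c J ξ hD hc
  have hm : ∀ a, Measurable fun x => c x a := hD.mb ()
  have h1 : ∀ᵐ x : E d, ∀ S : Finset ι, x ∈ {y | J y = S} →
      Small fun _ => {η | x + η ∉ {y | J y = S}} :=
    ae_all_iff.2 fun S => app_dens d _ (hD.mJ S)
  have h2 := Measure.ae_ae_of_ae_prod (allPair_prod (measurableSet_orth hD.mξ hm) (hD.orth ())
    (sig d) (s := fun _ => 0) (w := id) measurable_const measurable_id)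
  filter_upwards [h1, h2, hD.uniq, sig_right d _ hc] with x a1 a2 a3 a4 K
  obtain ⟨r, n, e, hn, he⟩ := pick_one (fun ω (_ : Unit) => c (x + ω)) (J x) _
    ((sig_unit d (by omega)).and (a2.and a4)) a3
  choose C hC using fun i : Fin r × Unit => (hn i.1).2.2 (K + 1)
  set A : ℝ := ∑ i, (∑ a, |e a i|) * (Fintype.card ι * |C i|) with hA
  have A0 : 0 ≤ A := by positivity
  have b1 : ∀ᶠ z in jet_L d, J (x + z.2) = J x := jet_ev.2 (a1 _ rfl)
  have b2 : ∀ᶠ z in jet_L d, ∀ i : Fin r × Unit,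
      ‖c (x + n i.1 + z.2) - c (x + n i.1)‖ ≤ C i * z.1 ^ (K + 1) :=
    eventually_all.2 fun i => jet_ev.2 (by simpa only [not_le] using hC i)
  have b3 : ∀ᶠ z in jet_L d, ∀ i : Fin r × Unit, ξ (x + z.2) ⬝ᵥ c (x + z.2 + n i.1) = 0 :=
    eventually_all.2 fun i => jet_ev.2 (small_iff.2 (smR_of_ae
      ((measurePreserving_add_left volume x).quasiMeasurePreserving.ae
        (hD.orth () _ (hn i.1).1))))
  have b4 : ∀ᶠ z in jet_L d, z.2 ∉ Far J ξ x (2 * A * ‖ξ x‖ * z.1 ^ K) := by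
    filter_upwards [b1, b2, b3, jet_fst.eventually ev_pos, jet_fst.eventually (ev_lt one_pos),
      jet_fst.eventually (ev_lt (show 0 < 1 / (2 * (A + 1)) by positivity))]
      with z c1 c2 c3 t0 t1 t2
    rintro (hz | hz)
    · exact hz c1
    set ζ := ξ (x + z.2) - ξ x with hζ
    have p0 : 0 < z.1 ^ K := pow_pos t0 K
    have p1 : z.1 ^ K ≤ 1 := pow_le_one₀ t0.le t1.le
    have hn' : ‖ξ (x + z.2)‖ ≤ ‖ξ x‖ + ‖ζ‖ := norm_le_insert' _ _
    have d1 : ∀ i : Fin r × Unit, |ζ ⬝ᵥ c (x + n i.1)| ≤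
        Fintype.card ι * |C i| * ((‖ξ x‖ + ‖ζ‖) * z.1 ^ (K + 1)) := fun i => by
      have e1 : ξ x ⬝ᵥ c (x + n i.1) = 0 := by simpa using (hn i.1).2.1 (hn i.1).1
      have e2 : ζ ⬝ᵥ c (x + n i.1) = -(ξ (x + z.2) ⬝ᵥ (c (x + n i.1 + z.2) - c (x + n i.1))) := by
        rw [hζ, sub_dotProduct, dotProduct_sub, e1, add_right_comm, c3 i]
        ring
      have e3 : ‖c (x + n i.1 + z.2) - c (x + n i.1)‖ ≤ |C i| * z.1 ^ (K + 1) :=
        (c2 i).trans (mul_le_mul_of_nonneg_right (le_abs_self _) (by positivity))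
      rw [e2, abs_neg, mul_assoc]
      refine (dot_le _ _).trans (mul_le_mul_of_nonneg_left ?_ (by positivity))
      calc _ ≤ (‖ξ x‖ + ‖ζ‖) * (|C i| * z.1 ^ (K + 1)) :=
            mul_le_mul hn' e3 (norm_nonneg _) (by positivity)
        _ = _ := by ring
    have d2 : ‖ζ‖ ≤ A * ((‖ξ x‖ + ‖ζ‖) * z.1 ^ (K + 1)) := by
      refine (pi_norm_le_iff_of_nonneg (by positivity)).2 fun a => ?_
      rw [Real.norm_eq_abs, he ζ (fun a ha => sub_eq_zero.2 (hD.nrm _ _ c1 a (c1 ▸ ha))) a, hA,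
        Finset.sum_mul]
      refine (Finset.abs_sum_le_sum_abs _ _).trans (Finset.sum_le_sum fun i _ => ?_)
      rw [abs_mul, mul_assoc]
      exact mul_le_mul (Finset.single_le_sum (f := fun a => |e a i|) (fun _ _ => abs_nonneg _)
        (Finset.mem_univ a)) (d1 i) (abs_nonneg _) (by positivity)
    have d3 : A * z.1 ≤ 1 / 2 := by
      rw [lt_div_iff₀ (by positivity)] at t2
      nlinarith
    have d4 : A * z.1 ^ (K + 1) ≤ 1 / 2 := by
      rw [pow_succ]
      nlinarith [mul_nonneg A0 t0.le]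
    have d5 : A * z.1 ^ (K + 1) ≤ A * z.1 ^ K := by
      rw [pow_succ]
      nlinarith [mul_nonneg A0 p0.le]
    nlinarith [norm_nonneg ζ, norm_nonneg (ξ x)]
  exact ⟨2 * A * ‖ξ x‖, by simpa only [not_not, ofPred_mem_eq] using jet_ev.1 b4⟩

theorem sCnt {d : ℕ} (h1 : SCntF d) (h2 : SCntD d) : SCnt d := by
  intro ι _ c J ξ hD hc
  filter_upwards [h1 ι c J ξ hD hc, h2 ι c J ξ hD] with x a1 ⟨κ₀, C, lam, k0, C0, l1, a2⟩
  have l0 : 0 < lam := by linarith
  obtain ⟨K, hK⟩ := pow_unbounded_of_one_lt C l1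
  obtain ⟨B, hB⟩ := a1 K
  refine small_iff.2 (smR_of_eventually_le fun κ hκ => ?_)
  obtain ⟨τ₀, t0, a3⟩ := a2 (min κ κ₀) (lt_min hκ k0) (min_le_right _ _)
  have b1 := (small_iff.1 hB).eventually_le one_pos (lt_min hκ k0)
  filter_upwards [ev_pos, ev_lt t0] with τ p0 p1
  simp only [one_mul] at b1 ⊢
  have s1 : Tendsto (fun j : ℕ => τ * lam⁻¹ ^ j) atTop (𝓝[>] 0) := by
    refine tendsto_nhdsWithin_iff.2 ⟨?_, Eventually.of_forall fun j => ?_⟩
    · simpa using (tendsto_pow_atTop_nhds_zero_of_lt_one (inv_pos.2 l0).le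
        (inv_lt_one_of_one_lt₀ l1)).const_mul τ
    · exact mem_Ioi.2 (by positivity)
  have s2 : Tendsto (fun j : ℕ => |B| * τ ^ K * (C / lam ^ K) ^ j) atTop (𝓝 0) := by
    simpa using (tendsto_pow_atTop_nhds_zero_of_lt_one (by positivity)
      ((div_lt_one (by positivity)).2 hK)).const_mul (|B| * τ ^ K)
  have key : ∀ ε : ℝ, 0 < ε → volume (Far J ξ x ε ∩ ball 0 τ) ≤
      ENNReal.ofReal (min κ κ₀) * volume (ball (0 : E d) τ) := fun ε hε => by
    obtain ⟨j, j1, j2⟩ := ((s1.eventually b1).and (s2.eventually (Iio_mem_nhds hε))).exists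
    set σ := τ * lam⁻¹ ^ j with hσ
    have σ0 : 0 < σ := by positivity
    have e1 : lam ^ j * σ = τ := by
      rw [hσ, inv_pow]
      field_simp
    have it : ∀ m ≤ j, volume (Far J ξ x (C ^ m * (|B| * σ ^ K)) ∩ ball 0 (lam ^ m * σ)) ≤
        ENNReal.ofReal (min κ κ₀) * volume (ball (0 : E d) (lam ^ m * σ)) := by
      intro m
      induction m with
      | zero =>
        intro _
        simp only [pow_zero, one_mul]
        exact (measure_mono (inter_subset_inter_left _ (far_anti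
          (mul_le_mul_of_nonneg_right (le_abs_self B) (by positivity))))).trans j1
      | succ m ih =>
        intro hm
        have := a3 _ _ (by positivity) (by
          refine le_trans ?_ p1.le
          rw [← e1]
          exact mul_le_mul_of_nonneg_right (pow_le_pow_right₀ l1.le (by omega)) σ0.le)
          (by positivity) (ih (by omega))
        rwa [← mul_assoc C, ← mul_assoc lam, ← pow_succ', ← pow_succ'] at this
    have := it j le_rfl
    rw [e1] at this
    refine (measure_mono (inter_subset_inter_left _ (far_anti (le_trans (le_of_eq ?_) j2.le)))).trans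
      this
    rw [hσ, mul_pow, div_pow, inv_pow, inv_pow, ← pow_mul, ← pow_mul, mul_comm j K]
    field_simp
  have e : Far J ξ x 0 ∩ ball 0 τ = ⋃ n : ℕ, Far J ξ x (1 / (n + 1)) ∩ ball 0 τ := by
    rw [← iUnion_inter]
    congr 1
    refine Subset.antisymm (fun η hη => mem_iUnion.2 ?_)
      (iUnion_subset fun n => far_anti (by positivity))
    rcases hη with a | a
    · exact ⟨0, Or.inl a⟩
    · exact (exists_nat_one_div_lt a).imp fun n b => Or.inr b
  rw [e, Monotone.measure_iUnion fun m n h => inter_subset_inter_left _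
    (far_anti (Nat.one_div_le_one_div h))]
  refine iSup_le fun n => (key _ (by positivity)).trans ?_
  exact mul_le_mul_left (ENNReal.ofReal_le_ofReal (min_le_left _ _)) _

end Pool.Agent.MP_66cee2_co.D.C
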