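import Mathlib

/-
A kernel of small rank on the isotropic cone that vanishes on orthogonal pairs is zero.
-/

namespace Pool.Agent.MP_66cee2_co.D.H58

open Matrix

theorem diff_det {m : Type} [Fintype m] [DecidableEq m] (M : ℂ → Matrix m m ℂ)
    (h : ∀ a b, Differentiable ℂ fun s => M s a b) : Differentiable ℂ fun s => (M s).det := by
  simp only [Matrix.det_apply']
  refine Differentiable.fun_sum fun π _ => Differentiable.const_mul ?_ _
  exact Differentiable.fun_finsetProd fun i _ => h _ _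

theorem diff_adj {m : Type} [Fintype m] [DecidableEq m] (M : ℂ → Matrix m m ℂ)
    (h : ∀ a b, Differentiable ℂ fun s => M s a b) (a b : m) :
    Differentiable ℂ fun s => (M s).adjugate a b := by
  simp only [Matrix.adjugate_apply]
  refine diff_det _ fun i j => ?_
  by_cases hi : i = b
  · subst hi
    simp only [Matrix.updateRow_self]
    exact differentiable_const _
  · simp only [Matrix.updateRow_ne hi]
    exact h _ _

theorem entire_mul {f g : ℂ → ℂ} (hf : Differentiable ℂ f) (hg : Differentiable ℂ g)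
    (h : ∀ s, f s * g s = 0) (h0 : f 0 ≠ 0) : g 1 = 0 := by
  have hf' : AnalyticOnNhd ℂ f Set.univ := fun s _ => hf.analyticAt s
  have hg' : AnalyticOnNhd ℂ g Set.univ := fun s _ => hg.analyticAt s
  rcases AnalyticOnNhd.eq_zero_or_eq_zero_of_mul_eq_zero hf' hg' (fun s _ => h s)
    isPreconnected_univ with h1 | h1
  · exact absurd (h1 0 (Set.mem_univ _)) h0
  · exact h1 1 (Set.mem_univ _)

/-- two points of the cone are joined by a conic inside the cone. -/
theorem cone_curve {d : ℕ} (hd : 3 ≤ d) (x0 x1 : Fin d → ℂ) (h0 : x0 ⬝ᵥ x0 = 0)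
    (h1 : x1 ⬝ᵥ x1 = 0) :
    ∃ c : ℂ → Fin d → ℂ, (∀ i, Differentiable ℂ fun s => c s i) ∧ c 0 = x0 ∧ c 1 = x1 ∧
      ∀ s, c s ⬝ᵥ c s = 0 := by
  have hv : ∃ v : Fin d → ℂ, x0 ⬝ᵥ v = 0 ∧ x1 ⬝ᵥ v = 0 ∧ v ⬝ᵥ v = -2 * (x0 ⬝ᵥ x1) := by
    by_cases hc : x0 ⬝ᵥ x1 = 0
    · exact ⟨0, by simp, by simp, by simp [hc]⟩
    have hk : ∃ k, x0 ⬝ᵥ x1 - 2 * (x0 k * x1 k) ≠ 0 := by
      by_contra hn
      push Not at hn
      have : ∑ k, (x0 ⬝ᵥ x1 - 2 * (x0 k * x1 k)) = 0 := Finset.sum_eq_zero fun k _ => hn k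
      rw [Finset.sum_sub_distrib, ← Finset.mul_sum, Finset.sum_const, Finset.card_univ,
        Fintype.card_fin, nsmul_eq_mul] at this
      have e : ((d : ℂ) - 2) * (x0 ⬝ᵥ x1) = 0 := by
        have : (d : ℂ) * (x0 ⬝ᵥ x1) - 2 * (x0 ⬝ᵥ x1) = 0 := this
        linear_combination this
      rcases mul_eq_zero.1 e with e | e
      · have : (d : ℂ) = ((2 : ℕ) : ℂ) := by push_cast; linear_combination e
        have := Nat.cast_injective this
        omega
      · exact hc e
    obtain ⟨k, hk⟩ := hk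
    set c := x0 ⬝ᵥ x1 with hcdef
    have h10 : x1 ⬝ᵥ x0 = c := dotProduct_comm _ _
    obtain ⟨r, hr⟩ := IsAlgClosed.exists_pow_nat_eq (-2 / (c - 2 * (x0 k * x1 k))) two_pos
    refine ⟨r • (c • Pi.single k 1 - x1 k • x0 - x0 k • x1), ?_, ?_, ?_⟩
    · simp only [dotProduct_smul, dotProduct_sub, dotProduct_single, h0, ← hcdef, smul_eq_mul]
      ring
    · simp only [dotProduct_smul, dotProduct_sub, dotProduct_single, h1, h10, smul_eq_mul]
      ring
    · simp only [dotProduct_smul, dotProduct_sub, dotProduct_single, smul_dotProduct,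
        sub_dotProduct, single_dotProduct, h0, h1, h10, ← hcdef, smul_eq_mul, Pi.sub_apply,
        Pi.smul_apply, Pi.single_eq_same]
      have : r ^ 2 * (c - 2 * (x0 k * x1 k)) = -2 := by rw [hr, div_mul_cancel₀ _ hk]
      linear_combination c * this
  obtain ⟨v, a0, a1, a2⟩ := hv
  refine ⟨fun s => (1 - s) ^ 2 • x0 + s ^ 2 • x1 + (s * (1 - s)) • v, fun i => ?_, by simp,
    by simp, fun s => ?_⟩
  · simp only [Pi.add_apply, Pi.smul_apply, smul_eq_mul]
    fun_prop
  · have b0 : v ⬝ᵥ x0 = 0 := by rw [dotProduct_comm, a0]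
    have b1 : v ⬝ᵥ x1 = 0 := by rw [dotProduct_comm, a1]
    have b2 : x1 ⬝ᵥ x0 = x0 ⬝ᵥ x1 := dotProduct_comm _ _
    simp only [add_dotProduct, dotProduct_add, smul_dotProduct, dotProduct_smul, h0, h1, a0, a1,
      a2, b0, b1, b2, smul_eq_mul]
    ring

/-- the orthogonal complement of a real vector is spanned by isotropic vectors. -/
theorem cone_frame {n : ℕ} (hn : 2 ≤ n) (y : Fin (n + 1) → ℝ) (hy : y ≠ 0) :
    ∃ (z : Fin (n + 1) → ℂ) (X : Fin n → Fin (n + 1) → ℂ), (∀ a, X a ⬝ᵥ X a = 0) ∧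
      (∀ a, X a ⬝ᵥ (fun i => (y i : ℂ)) = 0) ∧
      (Matrix.of (Fin.cons z X : Fin (n + 1) → Fin (n + 1) → ℂ)).det ≠ 0 := by
  classical
  let Y : EuclideanSpace ℝ (Fin (n + 1)) := WithLp.toLp 2 y
  have hY : Y ≠ 0 := fun e => hy (by simpa [Y] using congrArg WithLp.ofLp e)
  have hN : ‖Y‖ ≠ 0 := norm_ne_zero_iff.2 hY
  have ho : Orthonormal ℝ
      (({0} : Set (Fin (n + 1))).domRestrict fun _ : Fin (n + 1) => ‖Y‖⁻¹ • Y) := by
    refine ⟨fun i => ?_, fun i j hij => absurd (Subsingleton.elim i j) hij⟩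
    show ‖‖Y‖⁻¹ • Y‖ = 1
    rw [norm_smul, norm_inv, norm_norm, inv_mul_cancel₀ hN]
  obtain ⟨b, hb⟩ := ho.exists_orthonormalBasis_extension_of_card_eq (by simp)
  have hb0 : b 0 = ‖Y‖⁻¹ • Y := hb 0 rfl
  let B : Matrix (Fin (n + 1)) (Fin (n + 1)) ℂ := Matrix.of fun i k => ((b i k : ℝ) : ℂ)
  have hB : ∀ i j, B i ⬝ᵥ B j = if i = j then 1 else 0 := by
    intro i j
    have := orthonormal_iff_ite.1 b.orthonormal i j
    rw [EuclideanSpace.inner_eq_star_dotProduct, dotProduct_comm] at this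
    have e : B i ⬝ᵥ B j = ((star (b i).ofLp ⬝ᵥ (b j).ofLp : ℝ) : ℂ) := by
      simp [B, dotProduct]
    rw [e, this]
    split_ifs <;> simp
  have hBB : B * Bᵀ = 1 := by
    ext i j
    rw [Matrix.mul_apply, Matrix.one_apply, ← hB i j]
    rfl
  have hyB : (fun i => (y i : ℂ)) = ((‖Y‖ : ℝ) : ℂ) • B 0 := by
    funext i
    have : b 0 i = ‖Y‖⁻¹ * y i := by rw [hb0]; simp [Y]
    simp only [B, Pi.smul_apply, Matrix.of_apply, this, smul_eq_mul]
    have hN' : ((‖Y‖ : ℝ) : ℂ) ≠ 0 := by exact_mod_cast hN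
    push_cast
    field_simp
  let a0 : Fin n := ⟨0, by omega⟩
  let a1 : Fin n := ⟨1, by omega⟩
  have h01 : a0 ≠ a1 := by simp [a0, a1]
  let X : Fin n → Fin (n + 1) → ℂ := fun a =>
    if a = a0 then B a0.succ - Complex.I • B a1.succ else B a0.succ + Complex.I • B a.succ
  refine ⟨B 0, X, fun a => ?_, fun a => ?_, ?_⟩
  · by_cases ha : a = a0
    · simp [X, ha, sub_dotProduct, dotProduct_sub, hB, h01, h01.symm]
    · have ha' : a0 ≠ a := fun e => ha e.symm
      simp [X, ha, ha', add_dotProduct, dotProduct_add, hB]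
  · rw [hyB]
    by_cases ha : a = a0
    · simp [X, ha, sub_dotProduct, hB, Fin.succ_ne_zero]
    · simp [X, ha, add_dotProduct, hB, Fin.succ_ne_zero]
  · intro hdet
    obtain ⟨w, hw, hw0⟩ := Matrix.exists_mulVec_eq_zero_iff.2 hdet
    have r0 : B 0 ⬝ᵥ w = 0 := congrFun hw0 0
    have rs : ∀ a, X a ⬝ᵥ w = 0 := fun a => congrFun hw0 a.succ
    have e0 := rs a0
    have e1 := rs a1
    simp only [X, if_true, if_neg h01.symm, sub_dotProduct, add_dotProduct, smul_dotProduct,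
      smul_eq_mul] at e0 e1
    have f0 : B a0.succ ⬝ᵥ w = 0 := by linear_combination (e0 + e1) / 2
    have all : B *ᵥ w = 0 := by
      funext i
      refine Fin.cases r0 (fun a => ?_) i
      by_cases ha : a = a0
      · rw [ha]; exact f0
      · have e := rs a
        simp only [X, if_neg ha, add_dotProduct, smul_dotProduct, smul_eq_mul, f0,
          zero_add] at e
        exact (mul_eq_zero.1 e).resolve_left Complex.I_ne_zero
    apply hw
    have h2 : Bᵀ * B = 1 := mul_eq_one_comm.1 hBB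
    rw [← Matrix.one_mulVec w, ← h2, ← Matrix.mulVec_mulVec, all, Matrix.mulVec_zero]

/-- the core of the rank argument. -/
theorem core {n : ℕ} (hn : 2 ≤ n) (F : (Fin (n + 1) → ℂ) → (Fin (n + 1) → ℂ) → ℂ)
    (hF : ∀ x y : ℂ → Fin (n + 1) → ℂ, (∀ i, Differentiable ℂ fun s => x s i) →
      (∀ i, Differentiable ℂ fun s => y s i) → Differentiable ℂ fun s => F (x s) (y s))
    (hm : ∀ x y : Fin (n + 1) → Fin (n + 1) → ℂ, (Matrix.of fun a b => F (x a) (y b)).det = 0)
    (ho : ∀ x y, x ⬝ᵥ x = 0 → x ⬝ᵥ y = 0 → F x y = 0)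
    (x : Fin (n + 1) → ℂ) (hx : x ⬝ᵥ x = 0) (y : Fin (n + 1) → ℝ) :
    F x (fun i => (y i : ℂ)) = 0 := by
  classical
  by_cases hy : y = 0
  · exact ho _ _ hx (by simp [hy, dotProduct])
  let Bad : ℕ → Prop := fun r => ∀ x y : Fin r → Fin (n + 1) → ℂ, (∀ a, x a ⬝ᵥ x a = 0) →
    (Matrix.of fun a b => F (x a) (y b)).det = 0
  have hex : ∃ r, Bad r := ⟨n + 1, fun x y _ => hm x y⟩
  have hle : Nat.find hex ≤ n + 1 := Nat.find_min' hex fun x y _ => hm x y
  have hne : Nat.find hex ≠ 0 := fun e => by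
    have := Nat.find_spec hex
    rw [e] at this
    simpa using this (fun _ => 0) (fun _ => 0) (fun a => a.elim0)
  obtain ⟨r, hr⟩ := Nat.exists_eq_succ_of_ne_zero hne
  have hbad : Bad (r + 1) := by have := Nat.find_spec hex; rwa [hr] at this
  have hgood : ¬ Bad r := Nat.find_min hex (by omega)
  have hrn : r ≤ n := by omega
  simp only [Bad, not_forall] at hgood
  obtain ⟨x0, y0, hx0, hdet⟩ := hgood
  obtain ⟨z, X, hX, hXy, hz⟩ := cone_frame hn y hy
  let X0 : Fin n → Fin (n + 1) → ℂ := fun a => if h : a.val < r then x0 ⟨a, h⟩ else 0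
  have hX0 : ∀ a, X0 a ⬝ᵥ X0 a = 0 := fun a => by
    simp only [X0]
    split_ifs
    · exact hx0 _
    · simp
  choose c hc1 hc2 hc3 hc4 using fun a => cone_curve (by omega) (X0 a) (X a) (hX0 a) (hX a)
  let M : ℂ → Matrix (Fin (n + 1)) (Fin (n + 1)) ℂ := fun s =>
    Matrix.of (Fin.cons z (fun a => c a s) : Fin (n + 1) → Fin (n + 1) → ℂ)
  have hM : ∀ a b, Differentiable ℂ fun s => M s a b := fun a b => by
    refine Fin.cases ?_ (fun a => ?_) a
    · exact differentiable_const _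
    · exact hc1 a b
  have hM1 : M 1 = Matrix.of (Fin.cons z X : Fin (n + 1) → Fin (n + 1) → ℂ) := by
    simp only [M, hc3]
  let μ : ℂ := (z ⬝ᵥ fun i => (y i : ℂ)) / (M 1).det
  let w : ℂ → Fin (n + 1) → ℂ := fun s => μ • ((M s).adjugate *ᵥ Pi.single 0 1)
  have hw : ∀ i, Differentiable ℂ fun s => w s i := fun i => by
    simp only [w, Pi.smul_apply, smul_eq_mul, Matrix.mulVec_single_one, Matrix.col_apply]
    exact (diff_adj M hM i 0).const_mul _
  have hcw : ∀ a s, c a s ⬝ᵥ w s = 0 := fun a s => by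
    have : (M s *ᵥ w s) a.succ = 0 := by
      simp only [w]
      rw [Matrix.mulVec_smul, Matrix.mulVec_mulVec, Matrix.mul_adjugate]
      simp [Fin.succ_ne_zero]
    exact this
  have hw1 : w 1 = fun i => (y i : ℂ) := by
    have e : M 1 *ᵥ (fun i => (y i : ℂ)) = (z ⬝ᵥ fun i => (y i : ℂ)) • Pi.single 0 1 := by
      rw [hM1]
      funext i
      refine Fin.cases ?_ (fun a => ?_) i
      · simp [Matrix.mulVec]
      · simpa [Matrix.mulVec, Fin.succ_ne_zero] using hXy a
    have e2 := congrArg (fun v => (M 1).adjugate *ᵥ v) e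
    simp only [Matrix.mulVec_mulVec, Matrix.adjugate_mul, Matrix.mulVec_smul,
      Matrix.smul_mulVec, Matrix.one_mulVec] at e2
    have hd : (M 1).det ≠ 0 := by rw [hM1]; exact hz
    simp only [w, μ]
    rw [div_eq_inv_mul, mul_smul, ← e2, smul_smul, inv_mul_cancel₀ hd, one_smul]
  rw [← hw1]
  refine entire_mul (f := fun s =>
      (Matrix.of fun (a b : Fin r) => F (c (Fin.castLE hrn a) s) (y0 b)).det)
    (g := fun s => F x (w s)) (diff_det _ fun a b => ?_) ?_ (fun s => ?_) ?_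
  · exact hF _ (fun _ => y0 b) (hc1 _) fun i => differentiable_const _
  · exact hF (fun _ => x) _ (fun i => differentiable_const _) hw
  · have := hbad (Fin.cons x fun a => c (Fin.castLE hrn a) s) (Fin.cons (w s) y0) fun a => by
      refine Fin.cases hx (fun a => hc4 _ _) a
    rw [Matrix.det_succ_column_zero, Fin.sum_univ_succ] at this
    have z0 : ∀ a : Fin r, F (c (Fin.castLE hrn a) s) (w s) = 0 := fun a =>
      ho _ _ (hc4 _ _) (hcw _ _)
    simp only [Matrix.of_apply, Fin.cons_zero, Fin.cons_succ, z0, mul_zero, zero_mul,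
      Finset.sum_const_zero, add_zero, Fin.val_zero, pow_zero, one_mul] at this
    rw [mul_comm]
    exact this
  · simp only [hc2, X0, Fin.val_castLE, Fin.is_lt, dif_pos]
    exact hdet

end Pool.Agent.MP_66cee2_co.D.H58
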