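import Pool.Agent.MP_66cee2_co.D.SpecA
import Pool.Agent.MP_66cee2_co.D.H58Div
import Pool.Agent.MP_66cee2_co.D.H58Core

/-
Division by the sum of squares.
-/

namespace Pool.Agent.MP_66cee2_co.D

open Matrix

namespace H58

theorem diff_evc {d : ℕ} (F : BP d) (x y : ℂ → Fin d → ℂ)
    (hx : ∀ i, Differentiable ℂ fun s => x s i) (hy : ∀ i, Differentiable ℂ fun s => y s i) :
    Differentiable ℂ fun s => evc F (x s) (y s) := by
  unfold evc
  induction F using MvPolynomial.induction_on with
  | C a => simp
  | add p q hp hq => simp only [map_add]; exact hp.add hq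
  | mul_X p j hp =>
    simp only [map_mul, MvPolynomial.aeval_X]
    refine hp.mul ?_
    cases j with
    | inl i => exact hx i
    | inr i => exact hy i

end H58

theorem sCDiv : SCDiv := by
  intro d F hd h
  refine H58.cone_dvd hd F fun x y hx => ?_
  have hx' : x ⬝ᵥ x = 0 := by simpa [dotProduct, sq] using hx
  by_cases h0 : x = 0
  swap
  · exact h x _ hx' h0
  let i0 : Fin d := ⟨0, by omega⟩
  let i1 : Fin d := ⟨1, by omega⟩
  have h01 : i0 ≠ i1 := by simp [i0, i1]
  let v : Fin d → ℂ := Pi.single i0 1 + Pi.single i1 Complex.I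
  have hv : v ⬝ᵥ v = 0 := by
    simp [v, dotProduct_add, h01, h01.symm]
  have hv0 : v i0 = 1 := by simp [v, h01]
  have := H58.entire_mul (f := fun s => 1 - s)
    (g := fun s => evc F ((1 - s) • v) fun i => (y i : ℂ)) (by fun_prop)
    (H58.diff_evc F _ _ (fun i => by simp only [Pi.smul_apply, smul_eq_mul]; fun_prop)
      fun i => differentiable_const _) (fun s => ?_) (by simp)
  · rw [h0]
    simpa [evc] using this
  · by_cases hs : 1 - s = 0
    · rw [hs, zero_mul]
    · rw [h _ _ (by rw [smul_dotProduct, dotProduct_smul, hv]; simp) fun e => hs (by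
        simpa [hv0] using congrFun e i0), mul_zero]

end Pool.Agent.MP_66cee2_co.D
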