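import Pool.Agent.MP_66cee2_co.D.SpecC
import Pool.Agent.MP_66cee2_co.XJ.Sig

/-
The density of the sum of two unit vectors from two small transversal caps.
-/

namespace Pool.Agent.MP_66cee2_co.D.C

open MeasureTheory Set Filter Metric Topology Pool.Agent.MP_66cee2_co.X
open scoped ENNReal RealInnerProductSpace

namespace JacL

variable {d : ℕ}

/-- the component orthogonal to `h`. -/
noncomputable def W (v h : E d) : E d := v - (⟪v, h⟫ / ‖h‖ ^ 2) • h

theorem W_perp (v : E d) {h : E d} (h0 : h ≠ 0) : ⟪h, W v h⟫ = 0 := by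
  have : ‖h‖ ≠ 0 := norm_ne_zero_iff.2 h0
  rw [W, inner_sub_right, real_inner_smul_right, real_inner_self_eq_norm_sq, real_inner_comm]
  field_simp
  ring

theorem near {a b : E d} (ha : ‖a‖ = 1) (hb : ‖b‖ = 1) (h1 : b ≠ a) (h2 : b ≠ -a) :
    ∃ δ : ℝ, 0 < δ ∧ ∀ h ∈ ball (a + b) δ, ∀ m ∈ ball a δ,
      ‖a + b‖ / 2 < ‖h‖ ∧ 0 < ‖W (a - b) h‖ ∧
        ‖a - b‖ / 4 * ‖W (a - b) h‖ < ⟪m, W (a - b) h⟫ := by
  have g0 : 0 < ‖a + b‖ := norm_pos_iff.2 fun e => h2 (eq_neg_of_add_eq_zero_right e)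
  have v0 : 0 < ‖a - b‖ := norm_pos_iff.2 fun e => h1 (sub_eq_zero.1 e).symm
  have o : ⟪a - b, a + b⟫ = 0 := by
    rw [inner_sub_left, inner_add_right, inner_add_right, real_inner_self_eq_norm_sq,
      real_inner_self_eq_norm_sq, ha, hb, real_inner_comm]
    ring
  have w0 : W (a - b) (a + b) = a - b := by rw [W, o]; simp
  have i0 : ⟪a, a - b⟫ = ‖a - b‖ ^ 2 / 2 := by
    rw [norm_sub_sq_real, inner_sub_right, real_inner_self_eq_norm_sq, ha, hb]
    ring
  have cW : ContinuousAt (fun z : E d × E d => W (a - b) z.1) (a + b, a) := by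
    have c1 : ContinuousAt (fun z : E d × E d => ⟪a - b, z.1⟫) (a + b, a) :=
      continuousAt_const.inner continuousAt_fst
    have c2 : ContinuousAt (fun z : E d × E d => ‖z.1‖ ^ 2) (a + b, a) :=
      continuousAt_fst.norm.pow 2
    have c3 : ContinuousAt (fun z : E d × E d => ⟪a - b, z.1⟫ / ‖z.1‖ ^ 2) (a + b, a) :=
      c1.div c2 (pow_ne_zero 2 g0.ne')
    have c4 : ContinuousAt (fun z : E d × E d => (⟪a - b, z.1⟫ / ‖z.1‖ ^ 2) • z.1) (a + b, a) :=
      c3.smul continuousAt_fst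
    exact continuousAt_const.sub c4
  have e1 : ∀ᶠ z : E d × E d in 𝓝 (a + b, a), ‖a + b‖ / 2 < ‖z.1‖ :=
    continuousAt_fst.norm.eventually (lt_mem_nhds (by simpa using g0))
  have e2 : ∀ᶠ z : E d × E d in 𝓝 (a + b, a), 0 < ‖W (a - b) z.1‖ :=
    cW.norm.eventually (lt_mem_nhds (by simpa [w0] using v0))
  have e3 : ∀ᶠ z : E d × E d in 𝓝 (a + b, a),
      ‖a - b‖ / 4 * ‖W (a - b) z.1‖ < ⟪z.2, W (a - b) z.1⟫ := by
    refine (continuousAt_const.mul cW.norm).eventually_lt (continuousAt_snd.inner cW) ?_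
    show ‖a - b‖ / 4 * ‖W (a - b) (a + b)‖ < ⟪a, W (a - b) (a + b)⟫
    rw [w0, i0]
    nlinarith
  obtain ⟨δ, hδ, h⟩ := Metric.eventually_nhds_iff_ball.1 (e1.and (e2.and e3))
  refine ⟨δ, hδ, fun x hx m hm => h (x, m) ?_⟩
  rw [← ball_prod_same]
  exact ⟨hx, hm⟩

theorem band {h m m' : E d} {s G : ℝ} (hG : 0 < G) (hh : G / 2 < ‖h‖) (hm : ‖m‖ = 1)
    (hm' : ‖m'‖ = 1) (hs : s ≤ 1) (hx : ‖m + m' - h‖ ≤ s) :
    |⟪m, ‖h‖⁻¹ • h⟫ - ‖h‖ / 2| ≤ 3 / G * s := by
  have h0 : 0 < ‖h‖ := by linarith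
  have s0 : 0 ≤ s := (norm_nonneg _).trans hx
  have e : h - m = m' - (m + m' - h) := by abel
  have a1 : ‖h - m‖ ≤ 1 + s := by
    rw [e]
    linarith [norm_sub_le m' (m + m' - h)]
  have a2 : 1 - s ≤ ‖h - m‖ := by
    rw [e]
    linarith [norm_sub_norm_le m' (m + m' - h)]
  have a3 : ‖h - m‖ ^ 2 = ‖h‖ ^ 2 - 2 * ⟪m, h⟫ + 1 := by
    rw [norm_sub_sq_real, hm, real_inner_comm]
    ring
  have a4 : |2 * ⟪m, h⟫ - ‖h‖ ^ 2| ≤ 3 * s := by
    rw [abs_le]
    constructor <;> nlinarith [norm_nonneg (h - m)]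
  have a5 : ⟪m, ‖h‖⁻¹ • h⟫ - ‖h‖ / 2 = (2 * ⟪m, h⟫ - ‖h‖ ^ 2) / (2 * ‖h‖) := by
    rw [real_inner_smul_right]
    field_simp
  rw [a5, abs_div, abs_of_pos (by positivity : 0 < 2 * ‖h‖), div_le_iff₀ (by positivity)]
  refine a4.trans ?_
  have a6 : 3 / G * s * (2 * ‖h‖) = 3 * s * (2 * ‖h‖ / G) := by field_simp
  have a7 : 1 ≤ 2 * ‖h‖ / G := by
    rw [le_div_iff₀ hG]
    linarith
  rw [a6]
  nlinarith

end JacL

open JacL in
theorem sJacL {d : ℕ} (hd : 3 ≤ d) (h1 : SBandL d) (h2 : SCapU d) (h3 : SVit d) : SJacL d := by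
  intro a b ha hb hba hba'
  obtain ⟨δ, hδ, hn⟩ := near ha hb hba hba'
  have g0 : 0 < ‖a + b‖ := norm_pos_iff.2 fun e => hba' (eq_neg_of_add_eq_zero_right e)
  have v0 : 0 < ‖a - b‖ := norm_pos_iff.2 fun e => hba (sub_eq_zero.1 e).symm
  obtain ⟨C₁, hC₁, hB⟩ := h1 (‖a - b‖ / 4) (by positivity)
  obtain ⟨C₂, hC₂, hU⟩ := h2
  set G := ‖a + b‖ with hG
  set V := volume (ball (0 : E d) 1) with hV
  have hVt : V ≠ ⊤ := vol_ball_ne_top
  have hV0 : 0 < V.toReal := ENNReal.toReal_pos (vol_ball_ne_zero one_pos) hVt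
  refine ⟨C₁ * C₂ * (3 / G) / V.toReal, δ / 3, by positivity, by positivity,
    fun r hr hrδ N hN => ?_⟩
  have madd : Measurable fun z : E d × E d => z.1 + z.2 := measurable_fst.add measurable_snd
  have mbox : MeasurableSet (ball a r ×ˢ ball b r) := measurableSet_ball.prod measurableSet_ball
  set ρ : Measure (E d) :=
    (((sig d).prod (sig d)).restrict (ball a r ×ˢ ball b r)).map fun z => z.1 + z.2 with hρ
  have hρa : ∀ A : Set (E d), MeasurableSet A → ρ A =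
      (sig d).prod (sig d) {z | z.1 ∈ ball a r ∧ z.2 ∈ ball b r ∧ z.1 + z.2 ∈ A} := by
    intro A hA
    rw [hρ, Measure.map_apply madd hA, Measure.restrict_apply (madd hA)]
    congr 1
    ext z
    exact ⟨fun h => ⟨h.2.1, h.2.2, h.1⟩, fun h => ⟨h.2.2, h.1, h.2.1⟩⟩
  rw [← hρa N hN]
  refine h3 ρ _ ENNReal.ofReal_ne_top (fun h => ?_) N
  refine ⟨min (min r 1) (G / 3 * r), by positivity, fun s hs hs' => ?_⟩
  have s1 : s ≤ r := hs'.trans ((min_le_left _ _).trans (min_le_left _ _))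
  have s2 : s ≤ 1 := hs'.trans ((min_le_left _ _).trans (min_le_right _ _))
  have s3 : 3 / G * s ≤ r := by
    have := mul_le_mul_of_nonneg_left (hs'.trans (min_le_right _ _)) (by positivity : 0 ≤ 3 / G)
    refine this.trans_eq ?_
    field_simp
  rw [hρa _ measurableSet_closedBall]
  by_cases hh : h ∈ ball (a + b) δ
  swap
  · have : {z : E d × E d | z.1 ∈ ball a r ∧ z.2 ∈ ball b r ∧ z.1 + z.2 ∈ closedBall h s} = ∅ := by
      refine eq_empty_of_forall_notMem fun z hz => hh ?_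
      have a1 := mem_ball_iff_norm.1 hz.1
      have a2 := mem_ball_iff_norm.1 hz.2.1
      have a3 := mem_closedBall_iff_norm'.1 hz.2.2
      have e : h - (a + b) = (h - (z.1 + z.2)) + (z.1 - a) + (z.2 - b) := by abel
      have a4 := norm_add₃_le (a := h - (z.1 + z.2)) (b := z.1 - a) (c := z.2 - b)
      rw [mem_ball_iff_norm, e]
      linarith
    rw [this, measure_empty]
    exact zero_le
  obtain ⟨n1, n2, -⟩ := hn h hh a (mem_ball_self hδ)
  have h0 : 0 < ‖h‖ := by linarith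
  set w := W (a - b) h with hw
  set T : Set (E d) := {n | n ∈ ball a r ∧ |⟪n, ‖h‖⁻¹ • h⟫ - ‖h‖ / 2| ≤ 3 / G * s ∧
    ‖a - b‖ / 4 ≤ ⟪n, ‖w‖⁻¹ • w⟫} with hT
  have hTm : MeasurableSet T := by
    have c1 : Continuous fun n : E d => |⟪n, ‖h‖⁻¹ • h⟫ - ‖h‖ / 2| := by fun_prop
    have c2 : Continuous fun n : E d => ⟪n, ‖w‖⁻¹ • w⟫ := by fun_prop
    exact measurableSet_ball.inter ((measurableSet_le c1.measurable measurable_const).inter
      (measurableSet_le measurable_const c2.measurable))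
  have hTv : sig d T ≤ ENNReal.ofReal (C₁ * (3 / G * s) * r ^ (d - 2)) := by
    refine hB _ _ a _ _ r ?_ ?_ ?_ (by positivity) s3
    · rw [norm_smul, norm_inv, norm_norm, inv_mul_cancel₀ h0.ne']
    · rw [norm_smul, norm_inv, norm_norm, inv_mul_cancel₀ n2.ne']
    · rw [real_inner_smul_left, real_inner_smul_right, hw, W_perp _ (norm_pos_iff.1 h0)]
      simp
  have hSm : MeasurableSet
      {z : E d × E d | z.1 ∈ ball a r ∧ z.2 ∈ ball b r ∧ z.1 + z.2 ∈ closedBall h s} :=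
    (measurable_fst measurableSet_ball).inter ((measurable_snd measurableSet_ball).inter
      (madd measurableSet_closedBall))
  have hup : (sig d).prod (sig d)
      {z : E d × E d | z.1 ∈ ball a r ∧ z.2 ∈ ball b r ∧ z.1 + z.2 ∈ closedBall h s} ≤
      ENNReal.ofReal (C₂ * s ^ (d - 1)) * sig d T := by
    rw [Measure.prod_apply hSm, ← lintegral_indicator_const hTm]
    refine lintegral_mono_ae ?_
    filter_upwards [sSig.unit d (by omega)] with m hm
    by_cases hmT : m ∈ T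
    · rw [indicator_of_mem hmT]
      refine le_trans (measure_mono fun m' hm' => ?_) (hU (h - m) s hs)
      have a3 := mem_closedBall_iff_norm.1 hm'.2.2
      rw [mem_closedBall_iff_norm, show m' - (h - m) = m + m' - h by abel]
      exact a3
    · rw [indicator_of_notMem hmT, nonpos_iff_eq_zero, measure_eq_zero_iff_ae_notMem]
      filter_upwards [sSig.unit d (by omega)] with m' hm' hz
      refine hmT ⟨hz.1, band g0 n1 hm hm' s2 (mem_closedBall_iff_norm.1 hz.2.2), ?_⟩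
      have := (hn h hh m (ball_subset_ball (by linarith) hz.1)).2.2
      rw [real_inner_smul_right, ← div_eq_inv_mul, le_div_iff₀ n2]
      exact this.le
  refine hup.trans ((mul_le_mul_right hTv _).trans (le_of_eq ?_))
  rw [Measure.addHaar_closedBall volume h hs.le, finrank_euclideanSpace_fin, ← hV,
    ← ENNReal.ofReal_toReal hVt, ENNReal.toReal_ofReal hV0.le,
    ← ENNReal.ofReal_mul (by positivity), ← ENNReal.ofReal_mul (by positivity),
    ← ENNReal.ofReal_mul (by positivity)]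
  congr 1
  have e : s ^ d = s ^ (d - 1) * s := by
    rw [← pow_succ]
    congr 1
    omega
  rw [e]
  field_simp

end Pool.Agent.MP_66cee2_co.D.C
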