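import Pool.Agent.MP_66cee2_co.D.SpecC

/-
A set near a point of the sphere has many neighbours that see all the frame.
-/

namespace Pool.Agent.MP_66cee2_co.D.C

open MeasureTheory Set Filter Metric Topology Pool.Agent.MP_66cee2_co.X
open scoped ENNReal

namespace K

/-- few directions near `-n₀` miss the neighbours of `Z`. -/
theorem key {d : ℕ} (hd : 3 ≤ d) (hJ : SJacL d) (hC : SCap d) (hK : SKit d) {Z : Set (E d)}
    {n y n₀ : E d} (hZ : MeasurableSet Z)
    (h0 : ‖n₀‖ = 1) (hn : ‖n‖ = 1) (h1 : n ≠ n₀) (h2 : n ≠ -n₀)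
    (hS : Small fun _ => {η | y + n + η ∉ Z}) {ε : ℝ} (hε : 0 < ε) :
    ∀ᶠ r in 𝓝[>] (0 : ℝ), ∀ x ∈ ball (y + n₀) r,
      sig d {m | m ∈ ball (-n₀) r ∧ x + m ∉ Nb Z} ≤ ENNReal.ofReal (ε * r ^ (d - 1)) := by
  obtain ⟨C, δ, hC0, hδ, hJ⟩ := hJ (-n₀) n (by simpa using h0) hn h2 (by simpa using h1)
  obtain ⟨c, hc, hC⟩ := hC
  obtain ⟨k, rfl⟩ : ∃ k, d = k + 2 := ⟨d - 2, by omega⟩
  simp only [Nat.add_sub_cancel, show k + 2 - 1 = k + 1 from rfl] at hJ hC ⊢
  have : IsFiniteMeasure (sig (k + 2)) := by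
    unfold sig
    have : IsFiniteMeasure (volume.restrict (ball (0 : E (k + 2)) 1)) :=
      isFiniteMeasure_restrict.2 measure_ball_lt_top.ne
    infer_instance
  set V := volume (ball (0 : E (k + 2)) 1) with hV
  have hVt : V ≠ ⊤ := measure_ball_lt_top.ne
  have hCV : 0 < C * V.toReal + 1 := by positivity
  set κ := ε * c / (C * V.toReal + 1) with hκ
  have hκ0 : 0 < κ := by positivity
  have hs := ((small_iff.1 hS).scale (a := 3) (by norm_num)).eventually_le (c' := 1) one_pos hκ0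
  filter_upwards [hs, ev_pos, ev_lt hδ, ev_lt one_pos] with r hr hr0 hrδ hr1 x hx
  set M : Set (E (k + 2)) := {m | m ∈ ball (-n₀) r ∧ x + m ∉ Nb Z} with hM
  have hMm : MeasurableSet M :=
    measurableSet_ball.inter ((hK.nb_meas Z hZ).compl.preimage (by fun_prop))
  set N : Set (E (k + 2)) :=
    (fun w => w + (x - y - n)) ⁻¹' ({η | y + n + η ∉ Z} ∩ ball 0 (1 * 3 * r)) with hN
  have hNm : MeasurableSet N :=
    ((hZ.compl.preimage (f := fun η : E (k + 2) => y + n + η) (by fun_prop)).inter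
      measurableSet_ball).preimage (by fun_prop)
  have hNv : volume N ≤ ENNReal.ofReal κ * volume (ball (0 : E (k + 2)) (1 * r)) := by
    rw [hN, measure_preimage_add_right]
    exact hr
  set S : Set (E (k + 2) × E (k + 2)) :=
    {z | z.1 ∈ M ∧ z.2 ∈ ball n r ∧ x + z.1 + z.2 ∉ Z} with hSd
  have hSm : MeasurableSet S :=
    (hMm.preimage measurable_fst).inter ((measurableSet_ball.preimage measurable_snd).inter
      (hZ.compl.preimage (f := fun z : E (k + 2) × E (k + 2) => x + z.1 + z.2) (by fun_prop)))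
  have hlow : sig (k + 2) (ball n r) * sig (k + 2) M ≤ (sig (k + 2)).prod (sig (k + 2)) S := by
    rw [Measure.prod_apply hSm, ← lintegral_indicator_const hMm]
    refine lintegral_mono fun m => ?_
    by_cases hm : m ∈ M
    · rw [indicator_of_mem hm]
      have hz : sig (k + 2) {m' | x + m + m' ∈ Z} = 0 := by
        have := hm.2
        simpa [Nb] using this
      rw [← measure_sdiff_null (s := ball n r) hz]
      exact measure_mono fun m' hm' => ⟨hm, hm'.1, hm'.2⟩
    · rw [indicator_of_notMem hm]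
      exact zero_le
  have hup : (sig (k + 2)).prod (sig (k + 2)) S ≤ ENNReal.ofReal (C * r ^ k) * volume N := by
    refine le_trans (measure_mono fun z hz => ?_) (hJ r hr0 hrδ.le N hNm)
    refine ⟨hz.1.1, hz.2.1, ?_, ?_⟩
    · have e : y + n + (z.1 + z.2 + (x - y - n)) = x + z.1 + z.2 := by abel
      show y + n + (z.1 + z.2 + (x - y - n)) ∉ Z
      rw [e]
      exact hz.2.2
    · have e : z.1 + z.2 + (x - y - n) = (x - (y + n₀)) + (z.1 - -n₀) + (z.2 - n) := by abel
      have a1 := mem_ball_iff_norm.1 hx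
      have a2 := mem_ball_iff_norm.1 hz.1.1
      have a3 := mem_ball_iff_norm.1 hz.2.1
      have a4 := norm_add₃_le (a := x - (y + n₀)) (b := z.1 - -n₀) (c := z.2 - n)
      show z.1 + z.2 + (x - y - n) ∈ ball (0 : E (k + 2)) (1 * 3 * r)
      rw [mem_ball_zero_iff, e]
      linarith
  have hball : volume (ball (0 : E (k + 2)) (1 * r)) = ENNReal.ofReal (r ^ (k + 2)) * V := by
    have := Measure.addHaar_ball_of_pos (volume : Measure (E (k + 2))) 0 hr0
    rw [finrank_euclideanSpace_fin] at this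
    rw [one_mul, this]
  have hfin : ENNReal.ofReal (C * r ^ k) * (ENNReal.ofReal κ * (ENNReal.ofReal (r ^ (k + 2)) * V))
      ≤ ENNReal.ofReal (c * r ^ (k + 1)) * ENNReal.ofReal (ε * r ^ (k + 1)) := by
    rw [← ENNReal.ofReal_toReal hVt,
      ← ENNReal.ofReal_mul (by positivity), ← ENNReal.ofReal_mul hκ0.le,
      ← ENNReal.ofReal_mul (by positivity), ← ENNReal.ofReal_mul (by positivity)]
    refine ENNReal.ofReal_le_ofReal ?_
    have e : κ * (C * V.toReal + 1) = ε * c := by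
      rw [hκ]
      field_simp
    have h3 : 0 ≤ κ * (r ^ k * r) ^ 2 := by positivity
    have e1 : C * r ^ k * (κ * (r ^ (k + 2) * V.toReal)) =
        κ * (C * V.toReal) * (r ^ k * r) ^ 2 := by ring
    have e2 : c * r ^ (k + 1) * (ε * r ^ (k + 1)) =
        κ * (C * V.toReal + 1) * (r ^ k * r) ^ 2 := by
      rw [e]
      ring
    rw [e1, e2]
    nlinarith
  have hall : ENNReal.ofReal (c * r ^ (k + 1)) * sig (k + 2) M ≤
      ENNReal.ofReal (c * r ^ (k + 1)) * ENNReal.ofReal (ε * r ^ (k + 1)) := by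
    refine le_trans ?_ hfin
    rw [← hball]
    refine le_trans ?_ (hup.trans (by gcongr))
    refine le_trans ?_ hlow
    gcongr
    exact hC n r hn hr0 hr1.le
  have hp : 0 < c * r ^ (k + 1) := by positivity
  exact (ENNReal.mul_le_mul_iff_right (by simpa using hp) ENNReal.ofReal_ne_top).1 hall

end K

theorem sK {d : ℕ} (hd : 3 ≤ d) (hJ : SJacL d) (hC : SCap d) (hK : SKit d) : SK d := by
  intro I F Z n y n₀ hZ h0 hF
  obtain ⟨c, hc, hC'⟩ := id hC
  have hF1 : (0 : ℝ) < F.card + 1 := by positivity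
  have hε : 0 < c / (F.card + 1) := by positivity
  have hev : ∀ᶠ r in 𝓝[>] (0 : ℝ), r < 1 ∧ ∀ i ∈ F, ∀ x ∈ ball (y + n₀) r,
      sig d {m | m ∈ ball (-n₀) r ∧ x + m ∉ Nb (Z i)} ≤
        ENNReal.ofReal (c / (F.card + 1) * r ^ (d - 1)) :=
    (ev_lt one_pos).and ((Finset.eventually_all F).2 fun i hi =>
      K.key hd hJ hC hK (hZ i) h0 (hF i hi).1 (hF i hi).2.1 (hF i hi).2.2.1 (hF i hi).2.2.2 hε)
  obtain ⟨r₀, hr₀, hsub⟩ := mem_nhdsGT_iff_exists_Ioc_subset.1 hev
  refine ⟨r₀, hr₀, fun r hr hrr A hA hAb hAv hnull => ?_⟩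
  obtain ⟨hr1, hkey⟩ := hsub ⟨hr, hrr⟩
  set G : Set (E d) := ball y (2 * r) ∩ ⋂ i ∈ F, Nb (Z i) with hG
  have hGm : MeasurableSet G :=
    measurableSet_ball.inter (F.measurableSet_biInter fun i _ => hK.nb_meas _ (hZ i))
  have h1 : volume (A ∩ Nb G) = 0 := by
    refine hK.nb_swap G A hGm hA (measure_mono_null (fun w hw => ?_) hnull)
    exact ⟨hw.1.1, hw.2, fun i hi => mem_iInter₂.1 hw.1.2 i hi⟩
  obtain ⟨x, hxA, hx⟩ : ∃ x ∈ A, x ∉ Nb G := by
    by_contra h
    push Not at h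
    exact hAv (measure_mono_null (fun w hw => mem_inter hw (h w hw)) h1)
  have hx0 : sig d {m | x + m ∈ G} = 0 := by simpa [Nb] using hx
  have hcov : ball (-n₀) r \ {m | x + m ∈ G} ⊆
      ⋃ i ∈ F, {m | m ∈ ball (-n₀) r ∧ x + m ∉ Nb (Z i)} := by
    intro m hm
    by_contra h
    refine hm.2 ⟨?_, mem_iInter₂.2 fun i hi => ?_⟩
    · have e : x + m - y = (x - (y + n₀)) + (m - -n₀) := by abel
      have a1 := mem_ball_iff_norm.1 (hAb hxA)
      have a2 := mem_ball_iff_norm.1 hm.1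
      have a3 := norm_add_le (x - (y + n₀)) (m - -n₀)
      rw [mem_ball_iff_norm, e]
      linarith
    · by_contra h'
      exact h (mem_iUnion₂.2 ⟨i, hi, hm.1, h'⟩)
  have hp : 0 < r ^ (d - 1) := by positivity
  have hle : ENNReal.ofReal (c * r ^ (d - 1)) ≤
      ENNReal.ofReal (F.card * (c / (F.card + 1) * r ^ (d - 1))) := by
    refine (hC' (-n₀) r (by simpa using h0) hr hr1.le).trans ?_
    rw [← measure_sdiff_null (s := ball (-n₀) r) hx0]
    refine (measure_mono hcov).trans ((measure_biUnion_finset_le F _).trans ?_)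
    refine (Finset.sum_le_sum fun i hi => hkey i hi x (hAb hxA)).trans ?_
    rw [Finset.sum_const, nsmul_eq_mul, ENNReal.ofReal_mul (Nat.cast_nonneg _),
      ENNReal.ofReal_natCast]
  have h2 := (ENNReal.ofReal_le_ofReal_iff (by positivity)).1 hle
  have e : (F.card + 1) * (c / (F.card + 1) * r ^ (d - 1)) = c * r ^ (d - 1) := by field_simp
  have h3 : 0 < c / (F.card + 1) * r ^ (d - 1) := by positivity
  nlinarith

end Pool.Agent.MP_66cee2_co.D.C
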