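import Pool.Agent.MP_66cee2_co.D.SpecC
import Pool.Agent.MP_66cee2_co.XJ.Sig

/-
Elementary facts on the sets `Nb Z` in dimension `d`.
-/

namespace Pool.Agent.MP_66cee2_co.D.C

open MeasureTheory Set Filter Metric Topology Matrix Pool.Agent.MP_66cee2_co.X
open scoped ENNReal RealInnerProductSpace

namespace CKit

variable {d : ℕ}

theorem not_nb {Z : Set (E d)} {y : E d} : y ∉ Nb Z ↔ ∀ᵐ n ∂sig d, y + n ∉ Z := by
  rw [ae_iff]
  simp [Nb]

theorem meas_ae {α : Type} [MeasurableSpace α] {p : α → E d → Prop}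
    (hp : MeasurableSet {z : α × E d | p z.1 z.2}) : MeasurableSet {x | ∀ᵐ n ∂sig d, p x n} := by
  have h := measurable_measure_prodMk_left (ν := sig d) hp.compl
  have e : {x | ∀ᵐ n ∂sig d, p x n} =
      (fun x => sig d (Prod.mk x ⁻¹' {z : α × E d | p z.1 z.2}ᶜ)) ⁻¹' {0} := by
    ext x
    exact ae_iff
  rw [e]
  exact h (measurableSet_singleton 0)

theorem nb_meas (Z : Set (E d)) (hZ : MeasurableSet Z) : MeasurableSet (Nb Z) := by
  have e : Nb Z = {y | ∀ᵐ n ∂sig d, y + n ∉ Z}ᶜ := by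
    ext y
    rw [mem_compl_iff, mem_ofPred_eq, ← not_nb, not_not]
  rw [e]
  exact (meas_ae (p := fun y n : E d => y + n ∉ Z)
    ((measurable_fst.add measurable_snd) hZ.compl)).compl

theorem nb_null (Z : Set (E d)) (hZ : volume Z = 0) : volume (Nb Z) = 0 := by
  rw [measure_eq_zero_iff_ae_notMem] at hZ ⊢
  filter_upwards [sSig.right d (fun y => y ∉ Z) hZ] with x hx using not_nb.2 hx

theorem nb_swap (A B : Set (E d)) (hA : MeasurableSet A) (hB : MeasurableSet B)
    (h : volume (A ∩ Nb B) = 0) : volume (B ∩ Nb A) = 0 := by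
  rw [measure_eq_zero_iff_ae_notMem] at h ⊢
  have m : MeasurableSet {z : E d × E d | z.1 ∉ A ∨ z.2 ∉ B} :=
    (measurable_fst hA.compl).union (measurable_snd hB.compl)
  have h1 : AePair fun x y : E d => x ∉ A ∨ y ∉ B := by
    filter_upwards [h] with x hx
    by_cases hxA : x ∈ A
    · exact (not_nb.1 fun hn => hx ⟨hxA, hn⟩).mono fun n hn => Or.inr hn
    · exact Eventually.of_forall fun n => Or.inl hxA
  filter_upwards [sSig.swap d _ m h1] with x hx hx'
  exact not_nb.2 (hx.mono fun n hn => hn.resolve_right fun hb => hb hx'.1) hx'.2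

end CKit

theorem sKit {d : ℕ} (hd : 3 ≤ d) : SKit d where
  nb_meas := CKit.nb_meas
  nb_null := fun Z hZ => (fun _ => CKit.nb_null Z hZ) hd
  nb_swap := CKit.nb_swap

end Pool.Agent.MP_66cee2_co.D.C
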