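import Pool.Agent.MP_66cee2_co.D.SpecC
import Pool.Agent.MP_66cee2_co.XJ.Sig
import Pool.Agent.MP_66cee2_co.XJ.App

/-
Points where the sum of the visible subspaces is locally maximal.
-/

namespace Pool.Agent.MP_66cee2_co.D.C

open MeasureTheory Set Filter Metric Topology Pool.Agent.MP_66cee2_co.X

namespace Open

variable {d : ℕ} {I ι : Type} {Z : I → Set (E d)} {W : I → Submodule ℝ (ι → ℝ)}

theorem le_sg {y : E d} {i : I} (h : y ∈ Nb (Z i)) : W i ≤ Sg Z W y :=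
  le_iSup₂ (f := fun j (_ : j ∈ {j | y ∈ Nb (Z j)}) => W j) i h

theorem nb_mono {A B : Set (E d)} (h : A ⊆ B) : Nb A ⊆ Nb B :=
  fun y hy h0 => hy (measure_mono_null (fun n (hn : y + n ∈ A) => (h hn : y + n ∈ B)) h0)

/-- the sum is a finite sum. -/
theorem fin_sg [Fintype ι] (y : E d) : ∃ F : Finset I, (∀ i ∈ F, y ∈ Nb (Z i)) ∧
    ∀ y', (∀ i ∈ F, y' ∈ Nb (Z i)) → Sg Z W y ≤ Sg Z W y' := by
  classical
  have hc : IsCompactElement (Sg Z W y) :=
    (Submodule.fg_iff_compact _).1 (IsNoetherian.noetherian _)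
  obtain ⟨s, hs⟩ := CompleteLattice.IsCompactElement.exists_finset_of_le_iSup _ hc
    (fun i => ⨆ _ : i ∈ {i | y ∈ Nb (Z i)}, W i) le_rfl
  refine ⟨s.filter fun i => y ∈ Nb (Z i), fun i hi => (Finset.mem_filter.1 hi).2, fun y' h => ?_⟩
  exact hs.trans (iSup₂_le fun i hi => iSup_le fun hy =>
    le_sg (h i (Finset.mem_filter.2 ⟨hi, hy⟩)))

/-- a maximal dimension on a set that is not null. -/
theorem exists_max {S : Set (E d)} (hS : volume S ≠ 0) (f : E d → ℕ) (N : ℕ) (hd : ∀ y, f y ≤ N) :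
    ∃ D : ℕ, volume {y | y ∈ S ∧ D ≤ f y} ≠ 0 ∧ volume {y | y ∈ S ∧ D + 1 ≤ f y} = 0 := by
  by_contra hn
  push Not at hn
  have h : ∀ D : ℕ, volume {y | y ∈ S ∧ D ≤ f y} ≠ 0 := by
    intro D
    induction D with
    | zero => simpa using hS
    | succ D ih => exact hn D ih
  refine h (N + 1) ?_
  have : {y | y ∈ S ∧ N + 1 ≤ f y} = ∅ :=
    eq_empty_of_forall_notMem fun y hy => by have := hd y; have := hy.2; omega
  rw [this, measure_empty]

end Open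

open Open in
theorem sOpen {d : ℕ} (hd : 3 ≤ d) (hK : SKit d) (h : SK d) : SOpen d := by
  have d1 : 1 ≤ d := by omega
  have d2 : 2 ≤ d := by omega
  intro I ι _ _ Z W G x₀ ρ hZ hG hρ
  obtain ⟨D, hD, hD'⟩ := exists_max (measure_ball_pos volume x₀ hρ).ne'
    (fun y => Module.finrank ℝ (Sg Z W y)) (Module.finrank ℝ (ι → ℝ))
    fun y => Submodule.finrank_le _
  have hdens : ∀ᵐ y : E d, ∀ᵐ n ∂sig d, ∀ i, y + n ∈ Z i → Small fun _ => {η | y + n + η ∉ Z i} :=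
    sSig.right d (fun x => ∀ i, x ∈ Z i → Small fun _ => {η | x + η ∉ Z i})
      (ae_all_iff.2 fun i => sApp.dens d (Z i) (hZ i))
  obtain ⟨y, ⟨hy, hyD⟩, hyG, hyd⟩ := Measure.exists_mem_of_measure_ne_zero_of_ae hD
    (ae_restrict_of_ae (hG.and hdens))
  obtain ⟨F, hF, hF'⟩ := fin_sg (Z := Z) (W := W) y
  obtain ⟨ρ', hρ', hb⟩ := Metric.isOpen_iff.1 isOpen_ball y hy
  set B : Set (E d) := ⋃ i ∈ {i | ¬ W i ≤ Sg Z W y}, Z i with hB
  set N : Set (E d) := {x | ∃ ε : ℝ, 0 < ε ∧ volume (B ∩ ball x ε) = 0} with hN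
  have hNo : IsOpen N := by
    refine Metric.isOpen_iff.2 fun x ⟨ε, hε, h0⟩ => ⟨ε, hε, fun x' hx' => ?_⟩
    obtain ⟨ε', hε', hs⟩ := Metric.isOpen_iff.1 isOpen_ball x' hx'
    exact ⟨ε', hε', measure_mono_null (inter_subset_inter_right _ hs) h0⟩
  have hN0 : volume (B ∩ N) = 0 := by
    refine measure_null_of_locally_null _ fun x ⟨_, ε, hε, h0⟩ => ⟨B ∩ ball x ε, ?_, h0⟩
    exact mem_of_superset (inter_mem_nhdsWithin _ (ball_mem_nhds x hε))
      fun z hz => ⟨hz.1.1, hz.2⟩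
  have hsph : sphere y 1 ⊆ N := by
    intro x hx
    obtain ⟨n₀, rfl⟩ : ∃ n₀, x = y + n₀ := ⟨x - y, by abel⟩
    have hn₀ : ‖n₀‖ = 1 := by simpa using hx
    have hp : ∀ i, ∃ n : E d, i ∈ F → ‖n‖ = 1 ∧ n ≠ n₀ ∧ n ≠ -n₀ ∧
        Small fun _ => {η | y + n + η ∉ Z i} := by
      intro i
      by_cases hi : i ∈ F
      · have h1 : ∀ m : E d, ∀ᵐ n ∂sig d, n ≠ m := fun m =>
          (measure_eq_zero_iff_ae_notMem.1 (sSig.point d d2 m)).mono fun n hn => hn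
        obtain ⟨n, hn, ⟨⟨hu, ha⟩, hb⟩, hq⟩ := Measure.exists_mem_of_measure_ne_zero_of_ae (hF i hi)
          (ae_restrict_of_ae ((((sSig.unit d d1).and (h1 n₀)).and (h1 (-n₀))).and hyd))
        exact ⟨n, fun _ => ⟨hu, ha, hb, hq i hn⟩⟩
      · exact ⟨0, fun h => absurd h hi⟩
    choose n hn using hp
    obtain ⟨r₀, hr₀, hr⟩ := h I F Z n y n₀ hZ hn₀ hn
    have hr1 : 0 < min r₀ (ρ' / 2) := lt_min hr₀ (half_pos hρ')
    refine ⟨min r₀ (ρ' / 2), hr1, ?_⟩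
    rw [hB, iUnion₂_inter, measure_biUnion_null_iff (to_countable _)]
    intro i hi
    by_contra h0
    refine hr _ hr1 (min_le_left _ _) _ ((hZ i).inter measurableSet_ball) inter_subset_right h0
      (measure_mono_null ?_ hD')
    rintro y' ⟨h1, h2, h3⟩
    refine ⟨hb (ball_subset_ball ?_ h1), ?_⟩
    · have := min_le_right r₀ (ρ' / 2)
      linarith
    · have hlt : Sg Z W y < Sg Z W y' := lt_of_le_of_ne (hF' y' h3) fun he =>
        hi (he ▸ le_sg (nb_mono inter_subset_left h2))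
      exact lt_of_le_of_lt hyD (Submodule.finrank_lt_finrank_of_lt hlt)
  obtain ⟨δ, hδ, hth⟩ := (isCompact_sphere y 1).exists_thickening_subset_open hNo hsph
  refine ⟨y, hy, hyG, δ, hδ, ?_⟩
  filter_upwards [measure_eq_zero_iff_ae_notMem.1 (hK.nb_null _ hN0)] with y' hy' hyb
  refine iSup₂_le fun i hi => by_contra fun hbad => hi ?_
  have h0 : sig d {n | y' + n ∈ B ∩ N} = 0 := not_not.1 hy'
  refine measure_mono_null_ae ?_ h0
  filter_upwards [sSig.unit d d1] with n hn hz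
  refine ⟨mem_biUnion hbad hz, hth (mem_thickening_iff.2 ⟨y + n, by simpa using hn, ?_⟩)⟩
  simpa using hyb

end Pool.Agent.MP_66cee2_co.D.C
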