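import Pool.Agent.MP_66cee2_co.D.SpecC
import Pool.Agent.MP_66cee2_co.XJ.Sig
import Pool.Agent.MP_66cee2_co.XJ.App

/-
Bands of the unit sphere that determine a row, in dimension `d`.
-/

namespace Pool.Agent.MP_66cee2_co.D.C

open MeasureTheory Set Filter Metric Topology Matrix Pool.Agent.MP_66cee2_co.X
open scoped ENNReal RealInnerProductSpace

namespace Quad

variable {d : ℕ}

theorem inner_le {n e e' : E d} (hn : ‖n‖ = 1) : |⟪n, e'⟫| ≤ |⟪n, e⟫| + ‖e' - e‖ := by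
  have h1 : ⟪n, e'⟫ = ⟪n, e⟫ + ⟪n, e' - e⟫ := by rw [inner_sub_right]; ring
  have h2 := abs_real_inner_le_norm n (e' - e)
  rw [hn, one_mul] at h2
  rw [h1]
  exact (abs_add_le _ _).trans (by linarith)

theorem ae_lt (hd : 3 ≤ d) {e : E d} (he : ‖e‖ = 1) : ∀ᵐ n ∂sig d, |⟪n, e⟫| < 1 := by
  have h1 : ∀ᵐ n ∂sig d, n ≠ e := by
    rw [ae_iff]; simpa using sSig.point d (by omega) e
  have h2 : ∀ᵐ n ∂sig d, n ≠ -e := by
    rw [ae_iff]; simpa using sSig.point d (by omega) (-e)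
  filter_upwards [h1, h2, sSig.unit d (by omega)] with n a b hn
  rw [abs_lt]
  constructor
  · have := (inner_lt_one_iff_real_of_norm_eq_one hn (by rw [norm_neg, he] : ‖-e‖ = 1)).2 b
    rw [inner_neg_right] at this
    linarith
  · exact (inner_lt_one_iff_real_of_norm_eq_one hn he).2 a

/-- the rows that vanish on an arc. -/
def V {ι : Type} [Fintype ι] (c : E d → ι → ℝ) (J : Finset ι) (e : E d) (β : ℝ) :
    Submodule ℝ (ι → ℝ) where
  carrier := {ζ | (∀ᵐ n ∂sig d, |⟪n, e⟫| ≤ β → ζ ⬝ᵥ c n = 0) ∧ ∀ a ∈ J, ζ a = 0}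
  add_mem' := by
    rintro a b ⟨ha, ha'⟩ ⟨hb, hb'⟩
    refine ⟨?_, fun i hi => by simp [ha' i hi, hb' i hi]⟩
    filter_upwards [ha, hb] with n h1 h2 h
    rw [add_dotProduct, h1 h, h2 h, add_zero]
  zero_mem' := ⟨Eventually.of_forall fun n _ => zero_dotProduct _, fun _ _ => rfl⟩
  smul_mem' := by
    rintro r a ⟨ha, ha'⟩
    refine ⟨?_, fun i hi => by simp [ha' i hi]⟩
    filter_upwards [ha] with n h1 h
    rw [smul_dotProduct, h1 h, smul_zero]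

theorem V_anti {ι : Type} [Fintype ι] (c : E d → ι → ℝ) (J : Finset ι) (e : E d) {β β' : ℝ}
    (h : β ≤ β') : V c J e β' ≤ V c J e β := by
  rintro ζ ⟨h1, h2⟩
  exact ⟨h1.mono fun n hn hb => hn (hb.trans h), h2⟩

theorem one_dir (hd : 3 ≤ d) {ι : Type} [Fintype ι] (c : E d → ι → ℝ) (J : Finset ι)
    (h : ∀ ζ : ι → ℝ, (∀ᵐ n ∂sig d, ζ ⬝ᵥ c n = 0) → (∀ a ∈ J, ζ a = 0) → ζ = 0)
    {e : E d} (he : ‖e‖ = 1) : ∃ β : ℝ, 0 < β ∧ β < 1 ∧ ∀ ζ ∈ V c J e β, ζ = 0 := by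
  let b : ℕ → ℝ := fun k => 1 - 1 / ((k : ℝ) + 2)
  have hb : Monotone b := fun k l hkl => by
    have h1 : (k : ℝ) ≤ l := by exact_mod_cast hkl
    have : 1 / ((l : ℝ) + 2) ≤ 1 / ((k : ℝ) + 2) :=
      one_div_le_one_div_of_le (by positivity) (by linarith)
    simp only [b]; linarith
  let f : ℕ →o (Submodule ℝ (ι → ℝ))ᵒᵈ :=
    ⟨fun k => OrderDual.toDual (V c J e (b k)), fun k l hkl => V_anti c J e (hb hkl)⟩
  obtain ⟨K, hK⟩ := IsArtinian.monotone_stabilizes f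
  refine ⟨b K, ?_, ?_, fun ζ hζ => ?_⟩
  · have : 1 / ((K : ℝ) + 2) < 1 := by
      rw [div_lt_one (by positivity)]
      have : (0 : ℝ) ≤ K := by positivity
      linarith
    simp only [b]; linarith
  · have : 0 < 1 / ((K : ℝ) + 2) := by positivity
    simp only [b]; linarith
  have hall : ∀ k, ζ ∈ V c J e (b k) := fun k => by
    have h1 : V c J e (b K) = V c J e (b (max K k)) := hK (max K k) (le_max_left _ _)
    exact V_anti c J e (hb (le_max_right K k)) (h1 ▸ hζ)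
  refine h ζ ?_ hζ.2
  filter_upwards [ae_all_iff.2 fun k => (hall k).1, ae_lt hd he] with n hn hlt
  obtain ⟨k, hk⟩ := exists_nat_one_div_lt (sub_pos.2 hlt)
  refine hn k ?_
  have : 1 / ((k : ℝ) + 2) ≤ 1 / ((k : ℝ) + 1) :=
    one_div_le_one_div_of_le (by positivity) (by linarith)
  simp only [b]; linarith

/-- the quadratic form of a matrix. -/
def qq {ι : Type} [Fintype ι] (G : ι → ι → ℝ) (ζ : ι → ℝ) : ℝ := ∑ a, ∑ b, ζ a * ζ b * G a b

theorem qq_smul {ι : Type} [Fintype ι] (G : ι → ι → ℝ) (r : ℝ) (ζ : ι → ℝ) :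
    qq G (r • ζ) = r ^ 2 * qq G ζ := by
  simp only [qq, Finset.mul_sum, Pi.smul_apply, smul_eq_mul]
  exact Finset.sum_congr rfl fun a _ => Finset.sum_congr rfl fun b _ => by ring

theorem qq_low {ι : Type} [Fintype ι] (G : ι → ι → ℝ) (J : Finset ι)
    (h : ∀ ζ : ι → ℝ, (∀ a ∈ J, ζ a = 0) → ζ ≠ 0 → 0 < qq G ζ) :
    ∃ μ : ℝ, 0 < μ ∧ ∀ ζ : ι → ℝ, (∀ a ∈ J, ζ a = 0) → μ * ‖ζ‖ ^ 2 ≤ qq G ζ := by
  have hc : IsClosed {ζ : ι → ℝ | ∀ a ∈ J, ζ a = 0} := by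
    simp only [ofPred_forall]
    exact isClosed_iInter fun a => isClosed_iInter fun _ =>
      isClosed_eq (continuous_apply a) continuous_const
  have hK := (isCompact_sphere (0 : ι → ℝ) 1).inter_right hc
  have hq : Continuous (qq G) := by unfold qq; fun_prop
  obtain ⟨μ, hμ, hle⟩ := hK.exists_forall_le' hq.continuousOn (a := 0) (fun ζ hζ =>
    h ζ hζ.2 (by
      rintro rfl
      have := hζ.1
      simp at this))
  refine ⟨μ, hμ, fun ζ hζ => ?_⟩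
  by_cases h0 : ζ = 0
  · simp [h0, qq]
  have hn : 0 < ‖ζ‖ := norm_pos_iff.2 h0
  have := hle (‖ζ‖⁻¹ • ζ) ⟨by simp [norm_smul, hn.ne'], fun a ha => by simp [hζ a ha]⟩
  rw [qq_smul, inv_pow, ← div_eq_inv_mul, le_div_iff₀ (by positivity)] at this
  exact this

theorem qq_near {ι : Type} [Fintype ι] (G G' : ι → ι → ℝ) {ε : ℝ}
    (h : ∀ a b, |G' a b - G a b| ≤ ε) (ζ : ι → ℝ) :
    qq G ζ - (Fintype.card ι : ℝ) ^ 2 * ε * ‖ζ‖ ^ 2 ≤ qq G' ζ := by
  have h1 : ∀ a b, ζ a * ζ b * G a b - ε * ‖ζ‖ ^ 2 ≤ ζ a * ζ b * G' a b := fun a b => by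
    have ha : |ζ a| ≤ ‖ζ‖ := norm_le_pi_norm ζ a
    have hb : |ζ b| ≤ ‖ζ‖ := norm_le_pi_norm ζ b
    have h2 : |ζ a * ζ b * (G' a b - G a b)| ≤ ‖ζ‖ * ‖ζ‖ * ε := by
      rw [abs_mul, abs_mul]
      exact mul_le_mul (mul_le_mul ha hb (abs_nonneg _) (norm_nonneg _)) (h a b) (abs_nonneg _)
        (by positivity)
    have := neg_abs_le (ζ a * ζ b * (G' a b - G a b))
    nlinarith
  have h2 : ∑ a, ∑ b, (ζ a * ζ b * G a b - ε * ‖ζ‖ ^ 2) ≤ qq G' ζ :=
    Finset.sum_le_sum fun a _ => Finset.sum_le_sum fun b _ => h1 a b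
  simp only [Finset.sum_sub_distrib, Finset.sum_const, Finset.card_univ, nsmul_eq_mul] at h2
  unfold qq at h2 ⊢
  linarith

/-- the Gram matrix over an arc. -/
noncomputable def gram {ι : Type} (c : E d → ι → ℝ) (S : Set (E d)) (y : E d) (a b : ι) : ℝ :=
  ∫ n in S, c (y + n) a * c (y + n) b ∂sig d

theorem gram_meas {ι : Type} (c : E d → ι → ℝ) (hc : ∀ a, Measurable fun x => c x a)
    (S : Set (E d)) (a b : ι) : Measurable fun y => gram c S y a b := by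
  have h1 : Measurable fun z : E d × E d => c (z.1 + z.2) a * c (z.1 + z.2) b :=
    ((hc a).comp measurable_add).mul ((hc b).comp measurable_add)
  exact (h1.stronglyMeasurable.integral_prod_right' (ν := (sig d).restrict S)).measurable

theorem prod_int {ι : Type} [Fintype ι] (c : E d → ι → ℝ) (hc : ∀ a, Measurable fun x => c x a)
    (hb : ∀ x, ‖c x‖ ≤ 1) (y : E d) (a b : ι) :
    Integrable (fun n => c (y + n) a * c (y + n) b) (sig d) := by
  have h1 : Measurable fun n : E d => c (y + n) a * c (y + n) b :=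
    ((hc a).comp (measurable_const_add y)).mul ((hc b).comp (measurable_const_add y))
  refine Integrable.of_bound h1.aestronglyMeasurable 1 (Eventually.of_forall fun n => ?_)
  rw [norm_mul]
  exact mul_le_one₀ ((norm_le_pi_norm _ a).trans (hb _)) (norm_nonneg _)
    ((norm_le_pi_norm _ b).trans (hb _))

theorem sq_eq {ι : Type} [Fintype ι] (ζ v : ι → ℝ) :
    (ζ ⬝ᵥ v) ^ 2 = ∑ a, ∑ b, ζ a * ζ b * (v a * v b) := by
  rw [sq, dotProduct, Finset.sum_mul_sum]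
  exact Finset.sum_congr rfl fun a _ => Finset.sum_congr rfl fun b _ => by ring

theorem sq_int {ι : Type} [Fintype ι] (c : E d → ι → ℝ) (hc : ∀ a, Measurable fun x => c x a)
    (hb : ∀ x, ‖c x‖ ≤ 1) (y : E d) (ζ : ι → ℝ) :
    Integrable (fun n => (ζ ⬝ᵥ c (y + n)) ^ 2) (sig d) := by
  simp only [sq_eq]
  exact integrable_finsetSum _ fun a _ => integrable_finsetSum _ fun b _ =>
    (prod_int c hc hb y a b).const_mul _

theorem qq_gram {ι : Type} [Fintype ι] (c : E d → ι → ℝ) (hc : ∀ a, Measurable fun x => c x a)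
    (hb : ∀ x, ‖c x‖ ≤ 1) (S : Set (E d)) (y : E d) (ζ : ι → ℝ) :
    qq (gram c S y) ζ = ∫ n in S, (ζ ⬝ᵥ c (y + n)) ^ 2 ∂sig d := by
  simp only [sq_eq, qq, gram]
  rw [integral_finsetSum _ fun a _ => integrable_finsetSum _ fun b _ =>
    ((prod_int c hc hb y a b).const_mul _).integrableOn]
  refine Finset.sum_congr rfl fun a _ => ?_
  rw [integral_finsetSum _ fun b _ => ((prod_int c hc hb y a b).const_mul _).integrableOn]
  exact Finset.sum_congr rfl fun b _ => (integral_const_mul _ _).symm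

/-- the arc far from an axis. -/
def arc (e : E d) (β : ℝ) : Set (E d) := {n | |⟪n, e⟫| ≤ β}

theorem arc_meas (e : E d) (β : ℝ) : MeasurableSet (arc e β) :=
  (isClosed_le (by fun_prop) continuous_const).measurableSet

/-- the lower bound for all axes in a set. -/
def Good {ι : Type} [Fintype ι] (c : E d → ι → ℝ) (J : Finset ι) (β μ : ℝ) (S : Set (E d))
    (y : E d) : Prop :=
  ∀ e ∈ S, ∀ ζ : ι → ℝ, (∀ a ∈ J, ζ a = 0) →
    μ * ‖ζ‖ ^ 2 ≤ ∫ n in arc e β, (ζ ⬝ᵥ c (y + n)) ^ 2 ∂sig d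

theorem gram_pos (hd : 3 ≤ d) {ι : Type} [Fintype ι] (c : E d → ι → ℝ) (hc : ∀ a, Measurable fun x => c x a)
    (hb : ∀ x, ‖c x‖ ≤ 1) (J : Finset ι) (x e e' : E d) {β₀ q : ℝ} (hk : ‖e' - e‖ < q - β₀)
    (hβ : ∀ ζ : ι → ℝ, (∀ᵐ n ∂sig d, |⟪n, e⟫| ≤ β₀ → ζ ⬝ᵥ c (x + n) = 0) →
      (∀ a ∈ J, ζ a = 0) → ζ = 0) (ζ : ι → ℝ) (hζ : ∀ a ∈ J, ζ a = 0) (h0 : ζ ≠ 0) :
    0 < qq (gram c (arc e' q) x) ζ := by
  rw [qq_gram c hc hb]
  refine lt_of_le_of_ne (integral_nonneg fun n => sq_nonneg _) fun hz => h0 ?_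
  have h1 := (setIntegral_eq_zero_iff_of_nonneg_ae
    (Eventually.of_forall fun n => sq_nonneg _)
    (sq_int c hc hb x ζ).integrableOn).1 hz.symm
  have h2 := (ae_restrict_iff' (arc_meas e' q)).1 h1
  refine hβ ζ ?_ hζ
  filter_upwards [h2, sSig.unit d (by omega)] with n hn hu hle
  have h3 := inner_le (e := e) (e' := e') hu
  have h4 : n ∈ arc e' q := show |⟪n, e'⟫| ≤ q by linarith
  exact (pow_eq_zero_iff two_ne_zero).1 (hn h4)

theorem gram_le (hd : 3 ≤ d) {ι : Type} [Fintype ι] (c : E d → ι → ℝ) (hc : ∀ a, Measurable fun x => c x a)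
    (hb : ∀ x, ‖c x‖ ≤ 1) (y e e' : E d) {q β : ℝ} (h : ‖e' - e‖ ≤ β - q) (ζ : ι → ℝ) :
    qq (gram c (arc e q) y) ζ ≤ ∫ n in arc e' β, (ζ ⬝ᵥ c (y + n)) ^ 2 ∂sig d := by
  rw [qq_gram c hc hb]
  refine setIntegral_mono_set (sq_int c hc hb y ζ).integrableOn
    (Eventually.of_forall fun n => sq_nonneg _) ?_
  filter_upwards [sSig.unit d (by omega)] with n hu hle
  have h7 := inner_le (e := e) (e' := e') hu
  have h10 : |⟪n, e⟫| ≤ q := hle
  change |⟪n, e'⟫| ≤ β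
  linarith

theorem loc (hd : 3 ≤ d) {ι : Type} [Fintype ι] (c : E d → ι → ℝ) (hc : ∀ a, Measurable fun x => c x a)
    (hb : ∀ x, ‖c x‖ ≤ 1) (J : Finset ι) (x e e₁ : E d) {β₀ q : ℝ} (hk1 : ‖e₁ - e‖ < q - β₀)
    (hk2 : ‖e₁ - e‖ < (1 - q) / 4)
    (hβ : ∀ ζ : ι → ℝ, (∀ᵐ n ∂sig d, |⟪n, e⟫| ≤ β₀ → ζ ⬝ᵥ c (x + n) = 0) →
      (∀ a ∈ J, ζ a = 0) → ζ = 0)
    (hA : ∀ a b, ApC (fun η => gram c (arc e₁ q) (x + η) a b) (gram c (arc e₁ q) x a b)) :
    ∃ μ : ℝ, 0 < μ ∧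
      SmR 1 fun _ => {η : E d | ¬ Good c J ((1 + q) / 2) μ (ball e ((1 - q) / 4)) (x + η)} := by
  obtain ⟨μ, hμ, hle⟩ := qq_low (gram c (arc e₁ q) x) J (gram_pos hd c hc hb J x e e₁ hk1 hβ)
  obtain ⟨N, hN⟩ : ∃ N : ℝ, N = (Fintype.card ι : ℝ) ^ 2 := ⟨_, rfl⟩
  have hN0 : 0 ≤ N := by rw [hN]; positivity
  have hε : 0 < μ / (2 * (N + 1)) := by positivity
  have hs := smR_exists (c := 1) (I := ι × ι) fun z => small_iff.1 (hA z.1 z.2 _ hε)
  refine ⟨μ / 2, by positivity, hs.mono' fun _ η hη => ?_⟩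
  by_contra hn
  refine hη fun e' he' ζ hζ => ?_
  have h1 : ∀ a b, |gram c (arc e₁ q) (x + η) a b - gram c (arc e₁ q) x a b| ≤
      μ / (2 * (N + 1)) := fun a b => not_lt.1 fun hlt => hn ⟨(a, b), hlt⟩
  have h2 := qq_near _ _ h1 ζ
  have h3 := hle ζ hζ
  have h4 : N * (μ / (2 * (N + 1))) ≤ μ / 2 := by
    rw [mul_div_assoc', div_le_div_iff₀ (by positivity) (by positivity)]
    nlinarith
  have h5 := mul_le_mul_of_nonneg_right h4 (sq_nonneg ‖ζ‖)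
  have h8 := mem_ball_iff_norm.1 he'
  have h9 : ‖e' - e₁‖ ≤ ‖e' - e‖ + ‖e₁ - e‖ := by
    have := norm_sub_le (e' - e) (e₁ - e)
    rwa [sub_sub_sub_cancel_right] at this
  have h6 := gram_le hd c hc hb (x + η) e₁ e' (q := q) (β := (1 + q) / 2) (by linarith) ζ
  rw [← hN] at h2
  linarith

end Quad

open Quad

theorem sArc {d : ℕ} (hd : 3 ≤ d) : SArc d := by
  intro ι _ c J h
  have key : ∃ β : ℝ, 0 < β ∧ β < 1 ∧ ∀ e ∈ sphere (0 : E d) 1, ∀ ζ ∈ V c J e β, ζ = 0 := by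
    refine (isCompact_sphere (0 : E d) 1).induction_on
      (p := fun S => ∃ β : ℝ, 0 < β ∧ β < 1 ∧ ∀ e ∈ S, ∀ ζ ∈ V c J e β, ζ = 0)
      ⟨1 / 2, by norm_num, by norm_num, fun e he => he.elim⟩ ?_ ?_ ?_
    · rintro S T hST ⟨β, h0, h1, h2⟩
      exact ⟨β, h0, h1, fun e he => h2 e (hST he)⟩
    · rintro S T ⟨β, h0, h1, h2⟩ ⟨β', _, h1', h2'⟩
      refine ⟨max β β', lt_max_of_lt_left h0, max_lt h1 h1', fun e he ζ hζ => ?_⟩
      rcases he with he | he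
      · exact h2 e he ζ (V_anti c J e (le_max_left _ _) hζ)
      · exact h2' e he ζ (V_anti c J e (le_max_right _ _) hζ)
    · intro e he
      obtain ⟨β, h0, h1, h2⟩ := one_dir hd c J h (mem_sphere_zero_iff_norm.1 he)
      refine ⟨ball e ((1 - β) / 2), mem_nhdsWithin_of_mem_nhds (ball_mem_nhds _ (by linarith)),
        (1 + β) / 2, by linarith, by linarith, fun e' he' ζ hζ => h2 ζ ⟨?_, hζ.2⟩⟩
      filter_upwards [hζ.1, sSig.unit d (by omega)] with n hn hu hle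
      have h3 := inner_le (e := e) (e' := e') hu
      have h4 := mem_ball_iff_norm.1 he'
      exact hn (by linarith)
  obtain ⟨β, h0, h1, h2⟩ := key
  exact ⟨β, h0, h1, fun e he ζ a b => h2 e (mem_sphere_zero_iff_norm.2 he) ζ ⟨a, b⟩⟩

theorem sQuad {d : ℕ} (hd : 3 ≤ d) (h : SArc d) : SQuad d := by
  intro ι _ c J hc hb hy
  obtain ⟨u, hu⟩ : ∃ u : ℕ → E d, DenseRange u := ⟨_, TopologicalSpace.denseRange_denseSeq (E d)⟩
  have hap : ∀ᵐ x : E d, ∀ (k : ℕ) (q : ℚ) (a b : ι),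
      ApC (fun η => gram c (arc (u k) q) (x + η) a b) (gram c (arc (u k) q) x a b) :=
    ae_all_iff.2 fun k => ae_all_iff.2 fun q => ae_all_iff.2 fun a => ae_all_iff.2 fun b =>
      sApp.apc d (fun y => gram c (arc (u k) q) y a b) (gram_meas c hc (arc (u k) q) a b)
  filter_upwards [hy, hap] with x hx hA
  obtain ⟨β₀, hβ0, hβ1, hβ⟩ := h ι (fun n => c (x + n)) (J x) hx
  obtain ⟨q, hq0, hq1⟩ := exists_rat_btwn hβ1
  have key : ∃ μ : ℝ, 0 < μ ∧
      SmR 1 fun _ => {η : E d | ¬ Good c (J x) ((1 + q) / 2) μ (sphere 0 1) (x + η)} := by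
    refine (isCompact_sphere (0 : E d) 1).induction_on
      (p := fun S => ∃ μ : ℝ, 0 < μ ∧
        SmR 1 fun _ => {η : E d | ¬ Good c (J x) ((1 + q) / 2) μ S (x + η)})
      ⟨1, one_pos, smR_empty.mono' fun _ η hη => hη fun e he => he.elim⟩ ?_ ?_ ?_
    · rintro S T hST ⟨μ, h0, h1⟩
      exact ⟨μ, h0, h1.mono' fun _ η hη hT => hη fun e he => hT e (hST he)⟩
    · rintro S T ⟨μ, h0, h1⟩ ⟨μ', h0', h1'⟩
      refine ⟨min μ μ', lt_min h0 h0', (h1.union h1').mono' fun _ η hη => ?_⟩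
      by_contra hn
      rw [mem_union, not_or] at hn
      have a1 : Good c (J x) ((1 + q) / 2) μ S (x + η) := not_not.1 hn.1
      have a2 : Good c (J x) ((1 + q) / 2) μ' T (x + η) := not_not.1 hn.2
      refine hη fun e he ζ hζ => ?_
      rcases he with he | he
      · exact (mul_le_mul_of_nonneg_right (min_le_left _ _) (sq_nonneg _)).trans (a1 e he ζ hζ)
      · exact (mul_le_mul_of_nonneg_right (min_le_right _ _) (sq_nonneg _)).trans (a2 e he ζ hζ)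
    · intro e he
      have hδ : 0 < min (q - β₀) ((1 - q) / 4) := lt_min (by linarith) (by linarith)
      obtain ⟨k, hk⟩ := hu.exists_dist_lt e hδ
      have hk' : ‖u k - e‖ < min (q - β₀) ((1 - q) / 4) := by
        rw [← dist_eq_norm, dist_comm]; exact hk
      exact ⟨ball e ((1 - q) / 4), mem_nhdsWithin_of_mem_nhds (ball_mem_nhds _ (by linarith)),
        loc hd c hc hb (J x) x e (u k) (hk'.trans_le (min_le_left _ _))
          (hk'.trans_le (min_le_right _ _)) (hβ e (mem_sphere_zero_iff_norm.1 he)) (hA k q)⟩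
  obtain ⟨μ, hμ, hs⟩ := key
  refine ⟨(1 + q) / 2, μ, by linarith, by linarith, hμ, small_iff.2 (hs.mono' fun _ η hη hn => ?_)⟩
  exact hη fun e he => hn e (mem_sphere_zero_iff_norm.2 he)

end Pool.Agent.MP_66cee2_co.D.C
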