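import Pool.Agent.MP_66cee2_co.D.SpecC

/-
From small balls to all sets.
-/

namespace Pool.Agent.MP_66cee2_co.D.C

open MeasureTheory Set Filter Metric Topology Pool.Agent.MP_66cee2_co.X
open scoped ENNReal NNReal

theorem sVit (d : ℕ) : SVit d := by
  intro ρ _ C hC h N
  lift C to ℝ≥0 using hC
  have key : ρ N ≤ (C • (volume : Measure (E d))) N := by
    refine (Besicovitch.vitaliFamily ρ).measure_le_of_frequently_le (C • volume)
      Measure.AbsolutelyContinuous.rfl N fun x _ => ?_
    obtain ⟨s₀, hs₀, hs⟩ := h x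
    refine (Besicovitch.tendsto_filterAt ρ x).frequently (Eventually.frequently ?_)
    filter_upwards [Ioc_mem_nhdsGT hs₀] with s hs'
    rw [Measure.coe_nnreal_smul_apply]
    exact hs s hs'.1 hs'.2
  rwa [Measure.coe_nnreal_smul_apply] at key

end Pool.Agent.MP_66cee2_co.D.C
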