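import Pool.Agent.MP_66cee2_co.D.SpecA

/-
Kernels of small rank on the cone.
-/

namespace Pool.Agent.MP_66cee2_co.D

open Set Filter Topology Matrix

namespace Conex

theorem entire_zero {h : ℂ → ℂ} (hd : Differentiable ℂ h) (h0 : ∀ t : ℝ, h t = 0) (z : ℂ) :
    h z = 0 := by
  have ha : AnalyticOnNhd ℂ h univ := fun w _ => hd.analyticAt w
  have ht : Tendsto (fun t : ℝ => (t : ℂ)) (𝓝[≠] 0) (𝓝[≠] 0) := by
    refine tendsto_nhdsWithin_iff.2 ⟨?_, ?_⟩
    · have := Complex.continuous_ofReal.tendsto (0 : ℝ)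
      rw [Complex.ofReal_zero] at this
      exact this.mono_left nhdsWithin_le_nhds
    · filter_upwards [self_mem_nhdsWithin] with t ht
      simpa using ht
  have hf : ∃ᶠ w in 𝓝[≠] (0 : ℂ), h w = 0 :=
    ht.frequently (Eventually.frequently (Eventually.of_forall h0))
  exact ha.eqOn_zero_of_preconnected_of_frequently_eq_zero isPreconnected_univ (mem_univ 0) hf
    (mem_univ z)

theorem diff_det {r : ℕ} {G : Type} [NormedAddCommGroup G] [NormedSpace ℂ G]
    {M : Fin r → Fin r → G → ℂ} (hM : ∀ a b, Differentiable ℂ (M a b)) :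
    Differentiable ℂ fun X => (Matrix.of fun a b => M a b X).det := by
  simp only [Matrix.det_apply', Matrix.of_apply]
  refine Differentiable.fun_sum fun σ _ => Differentiable.const_mul ?_ _
  exact fun X => (HasFDerivAt.finsetProd fun i _ => (hM (σ i) i X).hasFDerivAt).differentiableAt

theorem diff_dot {d : ℕ} {G : Type} [NormedAddCommGroup G] [NormedSpace ℂ G]
    {u v : G → Fin d → ℂ} (hu : Differentiable ℂ u) (hv : Differentiable ℂ v) :
    Differentiable ℂ fun X => u X ⬝ᵥ v X := by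
  simp only [dotProduct]
  exact Differentiable.fun_sum fun i _ =>
    (differentiable_pi.1 hu i).mul (differentiable_pi.1 hv i)

end Conex

open Conex

theorem sCone : SMin → SIrr → SCr → SCone := by
  intro hMin hIrr hCr d B hd hB h0 x y hx hx0
  obtain ⟨e, rfl⟩ : ∃ e, d = e + 1 := ⟨d - 1, by omega⟩
  obtain ⟨cr, hcd, hco, hcs⟩ := hCr e (by omega)
  have hC : ∀ {G : Type} [NormedAddCommGroup G] [NormedSpace ℂ G] {u v : G → Fin (e + 1) → ℂ},
      Differentiable ℂ u → Differentiable ℂ v →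
      Differentiable ℂ fun X => (u X ⬝ᵥ v X) * B (u X) (v X) := fun hu hv =>
    (diff_dot hu hv).mul (hB.comp (hu.prodMk hv))
  obtain ⟨r, hr, xs₀, ys, hne, hk⟩ := hMin ℂ {x : Fin (e + 1) → ℂ // x ⬝ᵥ x = 0}
    (Fin (e + 1) → ℂ) (fun x y => (x.1 ⬝ᵥ y) * B x.1 y) e
    fun xs ys => h0 (fun a => (xs a).1) ys fun a => (xs a).2
  have s1 : ∀ (μ : ℂ) (X : Fin e → Fin (e + 1) → ℂ), (∀ a, X a ⬝ᵥ X a = 0) →
      (x ⬝ᵥ μ • cr X) * B x (μ • cr X) = 0 := by
    intro μ
    have hf : Differentiable ℂ fun X : Fin e → Fin (e + 1) → ℂ =>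
        (Matrix.of fun a b =>
          (X (Fin.castLE hr a) ⬝ᵥ ys b) * B (X (Fin.castLE hr a)) (ys b)).det :=
      diff_det (M := fun a b (X : Fin e → Fin (e + 1) → ℂ) =>
          (X (Fin.castLE hr a) ⬝ᵥ ys b) * B (X (Fin.castLE hr a)) (ys b)) fun a b =>
        hC (differentiable_apply _) (differentiable_const _)
    have hg : Differentiable ℂ fun X : Fin e → Fin (e + 1) → ℂ =>
        (x ⬝ᵥ μ • cr X) * B x (μ • cr X) :=
      hC (differentiable_const _) (hcd.const_smul μ)
    rcases hIrr (e + 1) e _ _ hd hf hg (fun X hX =>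
      hk (fun a => ⟨X (Fin.castLE hr a), hX _⟩) ⟨x, hx⟩ (μ • cr X) fun a => by
        simp only [dotProduct_smul, hco, smul_zero, zero_mul]) with h | h
    · refine absurd (h (fun k => if hk : (k : ℕ) < r then (xs₀ ⟨k, hk⟩).1 else 0) fun a => ?_) ?_
      · split_ifs with ha
        · exact (xs₀ ⟨a, ha⟩).2
        · simp
      · simpa using hne
    · exact h
  have s2 : ∀ y : Fin (e + 1) → ℝ, (x ⬝ᵥ fun k => (y k : ℂ)) * B x (fun k => (y k : ℂ)) = 0 := by
    intro y
    obtain ⟨X, μ, hX, hy⟩ := hcs y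
    rw [hy]
    exact s1 μ X hX
  have s3 : ∀ y : Fin (e + 1) → ℂ, (x ⬝ᵥ y) * B x y = 0 := by
    intro y
    have hl : Differentiable ℂ fun t : ℂ => fun k => ((y k).re : ℂ) + ((y k).im : ℂ) * t :=
      differentiable_pi.2 fun k => by fun_prop
    have := entire_zero (hC (differentiable_const x) hl) (fun t => by
      have h := s2 fun k => (y k).re + (y k).im * t
      push_cast at h
      exact h) Complex.I
    simpa only [Complex.re_add_im] using this
  by_cases hxy : x ⬝ᵥ y = 0
  · obtain ⟨k, hk0⟩ : ∃ k, x k ≠ 0 := Function.ne_iff.1 hx0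
    have hl : Continuous fun t : ℂ => B x (y + t • Pi.single k 1) :=
      hB.continuous.comp (f := fun t : ℂ => (x, y + t • (Pi.single k 1 : Fin (e + 1) → ℂ)))
        (by fun_prop)
    have h1 : Tendsto (fun t : ℂ => B x (y + t • Pi.single k 1)) (𝓝[≠] 0) (𝓝 (B x y)) := by
      have := hl.tendsto 0
      simp only [zero_smul, add_zero] at this
      exact this.mono_left nhdsWithin_le_nhds
    have h2 : Tendsto (fun t : ℂ => B x (y + t • Pi.single k 1)) (𝓝[≠] 0) (𝓝 0) := by
      refine tendsto_const_nhds.congr' ?_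
      filter_upwards [self_mem_nhdsWithin] with t ht
      have h := s3 (y + t • Pi.single k 1)
      rw [dotProduct_add, hxy, zero_add, dotProduct_smul, dotProduct_single, mul_one,
        smul_eq_mul] at h
      exact ((mul_eq_zero.1 h).resolve_left (mul_ne_zero ht hk0)).symm
    exact tendsto_nhds_unique h1 h2
  · exact (mul_eq_zero.1 (s3 y)).resolve_left hxy

end Pool.Agent.MP_66cee2_co.D
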