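import Pool.Agent.MP_66cee2_co.D.SpecA

/-
The vector of cofactors: every real vector is a multiple of the cofactor vector of a family of
isotropic complex vectors.
-/

namespace Pool.Agent.MP_66cee2_co.D

open Matrix Pool.Agent.MP_66cee2_co.X

namespace Crx

/-- the vector of cofactors. -/
noncomputable def cr {e : ℕ} (X : Fin e → Fin (e + 1) → ℂ) (k : Fin (e + 1)) : ℂ :=
  (-1) ^ (k : ℕ) * (Matrix.of fun a b : Fin e => X a (k.succAbove b)).det

theorem dot_cr {e : ℕ} (X : Fin e → Fin (e + 1) → ℂ) (v : Fin (e + 1) → ℂ) :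
    v ⬝ᵥ cr X = (Matrix.of (Fin.cons v X : Fin (e + 1) → Fin (e + 1) → ℂ)).det := by
  rw [Matrix.det_succ_row_zero, dotProduct]
  refine Finset.sum_congr rfl fun k _ => ?_
  have h : (Matrix.of (Fin.cons v X : Fin (e + 1) → Fin (e + 1) → ℂ)).submatrix Fin.succ
      k.succAbove = Matrix.of fun a b : Fin e => X a (k.succAbove b) := by
    ext a b
    simp
  rw [h, cr]
  simp only [Matrix.of_apply, Fin.cons_zero]
  ring

theorem cr_orth {e : ℕ} (X : Fin e → Fin (e + 1) → ℂ) (a : Fin e) : X a ⬝ᵥ cr X = 0 := by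
  rw [dot_cr]
  refine Matrix.det_zero_of_row_eq (i := 0) (j := a.succ) (Fin.succ_ne_zero a).symm ?_
  ext k
  simp

theorem cr_diff {e : ℕ} : Differentiable ℂ (cr (e := e)) := by
  refine differentiable_pi.2 fun k => ?_
  have h : (fun X : Fin e → Fin (e + 1) → ℂ => cr X k) = fun X =>
      (-1) ^ (k : ℕ) * ∑ σ : Equiv.Perm (Fin e),
        ((Equiv.Perm.sign σ : ℤ) : ℂ) * ∏ i, X (σ i) (k.succAbove i) := by
    funext X
    rw [cr, Matrix.det_apply']
    simp
  rw [h]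
  fun_prop

/-- an orthogonal matrix whose first row is a given unit vector. -/
theorem exists_orth {N : ℕ} (u : E (N + 1)) (hu : ‖u‖ = 1) :
    ∃ B : Matrix (Fin (N + 1)) (Fin (N + 1)) ℂ, B * Bᵀ = 1 ∧ ∀ i, B 0 i = (u i : ℂ) := by
  have ho : Orthonormal ℝ (({0} : Set (Fin (N + 1))).domRestrict fun _ => u) := by
    refine ⟨fun _ => hu, fun i j hij => absurd (Subsingleton.elim i j) hij⟩
  obtain ⟨b, hb⟩ := ho.exists_orthonormalBasis_extension_of_card_eq (by simp)
  refine ⟨Matrix.of fun k i => (b k i : ℂ), ?_, fun i => by simp [hb 0 rfl]⟩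
  ext k l
  have h := orthonormal_iff_ite.1 b.orthonormal k l
  simp only [PiLp.inner_apply, RCLike.inner_apply, conj_trivial] at h
  simp only [Matrix.mul_apply, Matrix.transpose_apply, Matrix.of_apply, Matrix.one_apply]
  have h2 : ∑ i, (b k i : ℂ) * (b l i : ℂ) = ((∑ i, b l i * b k i : ℝ) : ℂ) := by
    push_cast
    exact Finset.sum_congr rfl fun i _ => mul_comm _ _
  rw [h2, h]
  split_ifs <;> simp

/-- the isotropic vectors. -/
noncomputable def iso {e : ℕ} (B : Matrix (Fin (e + 3)) (Fin (e + 3)) ℂ) (a : Fin (e + 2)) :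
    Fin (e + 3) → ℂ :=
  if a = 0 then B 1 - Complex.I • B 2 else B 1 + Complex.I • B a.succ

theorem row_dot {N : ℕ} {B : Matrix (Fin N) (Fin N) ℂ} (hB : B * Bᵀ = 1) (k l : Fin N) :
    B k ⬝ᵥ B l = if k = l then 1 else 0 := by
  have h := congrFun (congrFun hB k) l
  rw [Matrix.mul_apply, Matrix.one_apply] at h
  exact h

theorem iso_self {e : ℕ} {B : Matrix (Fin (e + 3)) (Fin (e + 3)) ℂ} (hB : B * Bᵀ = 1)
    (a : Fin (e + 2)) : iso B a ⬝ᵥ iso B a = 0 := by
  have key : ∀ (l : Fin (e + 3)) (s : ℂ), l ≠ 1 → s * s = -1 →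
      (B 1 + s • B l) ⬝ᵥ (B 1 + s • B l) = 0 := by
    intro l s hl hs
    simp only [add_dotProduct, dotProduct_add, smul_dotProduct, dotProduct_smul, row_dot hB,
      if_true, if_neg hl, if_neg hl.symm, smul_eq_mul]
    linear_combination hs
  unfold iso
  split_ifs with ha
  · have h := key 2 (-Complex.I) (by
      intro h
      have h2 : (1 : Fin (e + 2)).succ = (0 : Fin (e + 2)).succ := by simpa using h
      exact absurd (Fin.succ_injective _ h2) (by simp)) (by simp)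
    rwa [neg_smul, ← sub_eq_add_neg] at h
  · refine key a.succ Complex.I (fun h => ha ?_) Complex.I_mul_I
    exact Fin.succ_injective _ (by simpa using h)

theorem eq_smul_of_iso {e : ℕ} {B : Matrix (Fin (e + 3)) (Fin (e + 3)) ℂ} (hB : B * Bᵀ = 1)
    (v : Fin (e + 3) → ℂ) (hv : ∀ a, iso B a ⬝ᵥ v = 0) : v = (B 0 ⬝ᵥ v) • B 0 := by
  have h0 := hv 0
  have h1 := hv 1
  have n1 : (1 : Fin (e + 2)) ≠ 0 := by simp
  simp only [iso, if_true, if_neg n1, sub_dotProduct, add_dotProduct, smul_dotProduct,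
    smul_eq_mul, Fin.succ_one_eq_two] at h0 h1
  have e1 : B 1 ⬝ᵥ v = 0 := by linear_combination (h0 + h1) / 2
  have es : ∀ a : Fin (e + 2), B a.succ ⬝ᵥ v = 0 := by
    intro a
    by_cases ha : a = 0
    · subst ha
      simpa using e1
    · have h := hv a
      simp only [iso, if_neg ha, add_dotProduct, smul_dotProduct, smul_eq_mul, e1,
        zero_add] at h
      exact (mul_eq_zero.1 h).resolve_left Complex.I_ne_zero
  have hB' : Bᵀ * B = 1 := mul_eq_one_comm.1 hB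
  have h : v = Bᵀ *ᵥ (B *ᵥ v) := by rw [Matrix.mulVec_mulVec, hB', Matrix.one_mulVec]
  funext i
  have hi := congrFun h i
  rw [Matrix.mulVec, dotProduct, Fin.sum_univ_succ] at hi
  rw [hi, Finset.sum_eq_zero fun a _ => by
    rw [show (B *ᵥ v) a.succ = B a.succ ⬝ᵥ v from rfl, es a, mul_zero]]
  simp only [Matrix.transpose_apply, add_zero, Pi.smul_apply, smul_eq_mul]
  exact mul_comm _ _

theorem det_ne {e : ℕ} {B : Matrix (Fin (e + 3)) (Fin (e + 3)) ℂ} (hB : B * Bᵀ = 1) :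
    B 0 ⬝ᵥ cr (iso B) ≠ 0 := by
  rw [dot_cr]
  intro h
  obtain ⟨v, hv0, hv⟩ := Matrix.exists_mulVec_eq_zero_iff.2 h
  have h0 : B 0 ⬝ᵥ v = 0 := by simpa [Matrix.mulVec] using congrFun hv 0
  have hs : ∀ a, iso B a ⬝ᵥ v = 0 := fun a => by
    simpa [Matrix.mulVec] using congrFun hv a.succ
  have h1 := eq_smul_of_iso hB v hs
  rw [h0, zero_smul] at h1
  exact hv0 h1

end Crx

open Crx in
theorem sCr : SCr := by
  intro e he
  obtain ⟨e, rfl⟩ : ∃ e', e = e' + 2 := ⟨e - 2, by omega⟩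
  refine ⟨cr, cr_diff, cr_orth, fun y => ?_⟩
  by_cases hy : y = 0
  · exact ⟨0, 0, fun a => by simp, by funext k; simp [hy]⟩
  set Y : E (e + 2 + 1) := WithLp.toLp 2 y with hY
  have hY0 : ‖Y‖ ≠ 0 := by
    rw [norm_ne_zero_iff]
    intro h
    exact hy (by simpa [hY] using congrArg WithLp.ofLp h)
  obtain ⟨B, hB, hB0⟩ := exists_orth (‖Y‖⁻¹ • Y) (by
    rw [norm_smul, norm_inv, norm_norm, inv_mul_cancel₀ hY0])
  have hd := det_ne hB
  have hc := eq_smul_of_iso hB (cr (iso B)) (cr_orth _)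
  refine ⟨iso B, (‖Y‖ : ℂ) / (B 0 ⬝ᵥ cr (iso B)), iso_self hB, ?_⟩
  funext k
  have hk := congrFun hc k
  have hn : (‖Y‖ : ℂ) ≠ 0 := by exact_mod_cast hY0
  rw [Pi.smul_apply, hk, Pi.smul_apply, hB0 k]
  have hYk : Y k = y k := rfl
  simp only [smul_eq_mul, PiLp.smul_apply, hYk]
  push_cast
  field_simp

end Pool.Agent.MP_66cee2_co.D
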