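import Pool.Agent.MP_66cee2_co.D.SpecA
import Pool.Agent.MP_66cee2_co.D.H58Div

/-
Division by the quadric of unit pairs.
-/

namespace Pool.Agent.MP_66cee2_co.D

open Pool.Agent.MP_66cee2_co.X

theorem sDiv : SDiv := by
  intro d F hd h
  have e : sP d = 1 - ∑ i, (MvPolynomial.X (Sum.inl i) - MvPolynomial.X (Sum.inr i)) ^ 2 := by
    have : ∀ i : Fin d, ((MvPolynomial.X (Sum.inl i) - MvPolynomial.X (Sum.inr i)) ^ 2 : BP d) =
        MvPolynomial.X (Sum.inl i) ^ 2 -
          2 * (MvPolynomial.X (Sum.inl i) * MvPolynomial.X (Sum.inr i)) +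
          MvPolynomial.X (Sum.inr i) ^ 2 := fun i => by ring
    simp only [this, Finset.sum_add_distrib, Finset.sum_sub_distrib, ← Finset.mul_sum, sP, nx,
      ny, xy]
    ring
  rw [e]
  refine H58.sphere_dvd hd F fun x y hxy => ?_
  have hw : ‖(WithLp.toLp 2 fun i => y i - x i : E d)‖ = 1 := by
    rw [EuclideanSpace.norm_eq, Real.sqrt_eq_one, ← hxy]
    refine Finset.sum_congr rfl fun i _ => ?_
    rw [Real.norm_eq_abs, sq_abs]
    show (y i - x i) ^ 2 = _
    ring
  have := h (WithLp.toLp 2 x) _ hw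
  rw [ev2] at this
  simpa using this

end Pool.Agent.MP_66cee2_co.D
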