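import Pool.Agent.MP_66cee2_co.D.SpecA

/-
The top part of the kernel of an edge.
-/

namespace Pool.Agent.MP_66cee2_co.D

open Pool.Agent.MP_66cee2_co.X Pool.Agent.MP_66cee2_co.XI

namespace Dropx

variable {d n : ℕ}

theorem ort_of {Q Q' : Ix n → MP d} (h : Kp Q Q' = 0) : Ort Q Q' := fun z z' => by
  rw [← ev2_Kp, h, ev2_zero]

theorem nx_ne (hd : 1 ≤ d) : nx d ≠ 0 := fun h => by
  have := ev2_nx (EuclideanSpace.single (⟨0, hd⟩ : Fin d) (1 : ℝ)) 0
  rw [h] at this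
  simp at this

theorem ny_ne (hd : 1 ≤ d) : ny d ≠ 0 := fun h => by
  have := ev2_ny 0 (EuclideanSpace.single (⟨0, hd⟩ : Fin d) (1 : ℝ))
  rw [h] at this
  simp at this

theorem hc_zero {Q : Ix n → MP d} {D a : ℕ} (h : ∀ i, (Q i).totalDegree ≤ D) (ha : D < a)
    (i : Ix n) : hc a Q i = 0 :=
  MvPolynomial.homogeneousComponent_eq_zero _ _ ((h i).trans_lt ha)

theorem Kp_left {Q Q' : Ix n → MP d} (h : ∀ i, Q i = 0) : Kp Q Q' = 0 := by simp [Kp, h]

theorem Kp_right {Q Q' : Ix n → MP d} (h : ∀ i, Q' i = 0) : Kp Q Q' = 0 := by simp [Kp, h]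

end Dropx

open Dropx in
theorem sDrop : SDiv → SBi → SDrop := by
  intro hDiv hBi d n Q Q' D D' hd hE hD hD'
  obtain ⟨L, hL⟩ := hDiv d (Kp Q Q') hd fun x w hw => by rw [ev2_Kp]; exact hE x w hw
  obtain ⟨l, hfin, hneg, hzero, hk⟩ := hBi d n Q Q' L hL
  by_cases h0 : ∀ a b, l a b = 0
  · refine Or.inl ⟨ort_of (by rw [hL, hzero h0, mul_zero]), fun a b => ort_of ?_⟩
    rw [hk]
    simp [h0]
  right
  have hne : {p : ℤ × ℤ | l p.1 p.2 ≠ 0}.Nonempty := by
    by_contra hc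
    exact h0 fun a b => by_contra fun h => hc ⟨(a, b), h⟩
  obtain ⟨p, hp, hmax⟩ := Set.exists_max_image _ (fun p : ℤ × ℤ => p.1 + p.2) hfin hne
  obtain ⟨N, hN⟩ : ∃ N, N = p.1 + p.2 := ⟨_, rfl⟩
  have htop : ∀ a b, N < a + b → l a b = 0 := fun a b h => by_contra fun h' => by
    have : a + b ≤ p.1 + p.2 := hmax (a, b) h'
    omega
  obtain ⟨A, hA⟩ : ∃ A : ℤ → BP d, ∀ j, A j = l j (N - j) := ⟨_, fun _ => rfl⟩
  have hrange : ∀ j, A j ≠ 0 → 0 ≤ j ∧ j ≤ N := fun j hj => by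
    by_contra hc
    exact hj (by rw [hA]; exact hneg _ _ (by omega))
  have hAp : A p.1 ≠ 0 := by
    rw [hA, show N - p.1 = p.2 by omega]
    exact hp
  have hN0 : 0 ≤ N := by have := hrange _ hAp; omega
  have hAfin : (Function.support A).Finite :=
    (Set.finite_Icc 0 N).subset fun j hj => hrange j hj
  have hC : ∀ (j : ℤ) (a b : ℕ), (a : ℤ) = j + 1 → (b : ℤ) = N - j + 1 →
      Kp (hc a Q) (hc b Q') = -Cc A j := fun j a b ha hb => by
    rw [hk, ha, hb, htop _ _ (by omega), Cc, hA, hA, hA,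
      show j + 1 - 2 = j - 1 by ring, show j + 1 - 1 = j by ring,
      show N - j + 1 - 1 = N - j by ring, show N - j + 1 - 2 = N - (j + 1) by ring,
      show N - (j - 1) = N - j + 1 by ring]
    ring
  obtain ⟨j₁, hj₁, hmax₁⟩ := Set.exists_max_image _ (fun j : ℤ => j) hAfin ⟨_, hAp⟩
  obtain ⟨j₀, hj₀, hmin₀⟩ := Set.exists_min_image _ (fun j : ℤ => j) hAfin ⟨_, hAp⟩
  have hbig : ∀ j, j₁ < j → A j = 0 := fun j h => by_contra fun h' => by
    have : j ≤ j₁ := hmax₁ j h'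
    omega
  have hsmall : ∀ j, j < j₀ → A j = 0 := fun j h => by_contra fun h' => by
    have : j₀ ≤ j := hmin₀ j h'
    omega
  have r₁ := hrange j₁ hj₁
  have r₀ := hrange j₀ hj₀
  have hD₁ : j₁ + 2 ≤ D := by
    by_contra hc'
    have h1 := hC (j₁ + 1) (j₁ + 2).toNat (N - j₁).toNat (by omega) (by omega)
    rw [Kp_left (hc_zero hD (by omega)), Cc, hbig (j₁ + 1) (by omega),
      hbig (j₁ + 1 + 1) (by omega), show j₁ + 1 - 1 = j₁ by ring] at h1
    have h2 : nx d * A j₁ = 0 := by linear_combination h1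
    exact mul_ne_zero (nx_ne hd) hj₁ h2
  have hD₀ : N - j₀ + 2 ≤ D' := by
    by_contra hc'
    have h1 := hC (j₀ - 1) j₀.toNat (N - j₀ + 2).toNat (by omega) (by omega)
    rw [Kp_right (hc_zero hD' (by omega)), Cc, hsmall (j₀ - 1) (by omega),
      hsmall (j₀ - 1 - 1) (by omega), show j₀ - 1 + 1 = j₀ by ring] at h1
    have h2 : ny d * A j₀ = 0 := by linear_combination h1
    exact mul_ne_zero (ny_ne hd) hj₀ h2
  refine ⟨(N + 2).toNat, A, hAfin, fun h => hAp (by rw [h]; rfl), fun a b hab => ort_of ?_,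
    fun j hj => ?_⟩
  · rw [hk, htop _ _ (by omega), htop _ _ (by omega), htop _ _ (by omega), htop _ _ (by omega)]
    simp
  · have r := hrange j hj
    have u₁ : j ≤ j₁ := hmax₁ j hj
    have u₀ : j₀ ≤ j := hmin₀ j hj
    refine ⟨(j + 1).toNat, (N - j + 1).toNat, by omega, by omega, by omega, fun x y => ?_⟩
    rw [← ev2_Kp, hC j _ _ (by omega) (by omega), ev2_neg]

end Pool.Agent.MP_66cee2_co.D
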