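import Pool.Agent.MP_66cee2_co.D.Defs
import Pool.Agent.MP_66cee2_co.XT.Main
import Pool.Agent.MP_66cee2_co.XR.All

/-
Maps into spaces of dimension at most `2 d - 2`: the matrix form of the measurable theorem, the
transfer in even dimension, and the bound that needs only this transfer.
-/

namespace Pool.Agent.MP_66cee2_co.D

open MeasureTheory Filter Topology Matrix Pool.Agent.MP_66cee2_co.XT.BRA

/-- the measurable theorem in matrix form. -/
theorem ms_of_smd {d n : ℕ} (h : SMd d n) : XT.MS d (JM n) (Pi.single X.sI 1) := by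
  intro P hm hp ho
  have hF : X.Field P := by
    refine ⟨hm, ?_, ?_⟩
    · filter_upwards [hp] with x hx
      rw [quad, trace_eq] at hx
      exact ⟨hx.1, hx.2.2, hx.2.1⟩
    · filter_upwards [ho] with x hx
      filter_upwards [hx] with z hz a b
      rw [← entry, hz]
      rfl
  obtain ⟨g, hg, hP⟩ := h P hF
  refine ⟨_, hP, fun x hx y hy => ?_⟩
  have e : ∀ z, (∀ a b, P z a b = P z X.sI X.sI * X.lift (g z) a * X.lift (g z) b) →
      P z *ᵥ Pi.single X.sI 1 = P z X.sI X.sI • X.lift (g z) := fun z hz => by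
    funext a
    have := hz a X.sI
    simpa [X.lift] using this
  rw [quad, quad, e x hx, e y hy, mulVec_smul, smul_dotProduct, dotProduct_smul, lift_JM.ip, hg]
  simp only [smul_eq_mul]
  ring

/-- the transfer in even dimension. -/
theorem tr_even (m n : ℕ) (hm : 1 ≤ m) (h : SMd (2 * m) n) : XT.AllIso (2 * m) n :=
  XT.rowT X.KK m n _ (JM n) (Pi.single X.sI 1) _ X.kk_le_KK hm
    (fun φ h1 h2 => (X.sRPDAll m φ h1 h2).imp fun _ hψ => ⟨hψ.1, fun z hz => hψ.2 z hz.1 hz.2⟩)
    lift_JM (ms_of_smd h)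

theorem smd_of (h2 : SJ3) (h3 : SDich) (h4 : SFam) (h5 : STT) (d n : ℕ) (hd : 3 ≤ d)
    (hn : n + 2 ≤ 2 * d) : SMd d n := by
  intro P hP
  obtain ⟨u, hu⟩ := h2 d n hd P hP
  rcases h3 d n P u hd hn hP hu with h | ⟨V, hV⟩
  · exact h
  · obtain ⟨O, hO⟩ := h4 d n V hd hV
    exact absurd hO (h5 d n O hd hn)

/-- the bound without the transfer in odd dimension. -/
theorem allIso_even (h2 : SJ3) (h3 : SDich) (h4 : SFam) (h5 : STT) (d n : ℕ) (hd : 4 ≤ d)
    (hn : n + 2 ≤ 4 * (d / 2)) : XT.AllIso d n := by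
  obtain ⟨m, rfl | rfl⟩ := Nat.even_or_odd' d
  · exact tr_even m n (by omega) (smd_of h2 h3 h4 h5 _ n (by omega) (by omega))
  · exact XT.rowODD _ n (by omega)
      (tr_even m n (by omega) (smd_of h2 h3 h4 h5 _ n (by omega) (by omega)))

end Pool.Agent.MP_66cee2_co.D
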