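import Pool.Agent.MP_66cee2_co.D.SpecC
import Pool.Agent.MP_66cee2_co.D.H3Band

/-
The density of the sum of two unit vectors, and the lower bound for caps.
-/

namespace Pool.Agent.MP_66cee2_co.D.C

open MeasureTheory Set Filter Metric Topology Pool.Agent.MP_66cee2_co.X
open scoped ENNReal RealInnerProductSpace

namespace H3J

open H3

theorem pow_le {ρ : ℝ} (h0 : 0 ≤ ρ) (h1 : ρ ≤ 1) (k : ℕ) : (1 + ρ) ^ k ≤ 1 + (2 ^ k - 1) * ρ := by
  induction k with
  | zero => simp
  | succ k ih =>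
    have h2 : (1 : ℝ) ≤ 2 ^ k := one_le_pow₀ one_le_two
    have h3 : (1 + ρ) ^ k * (1 + ρ) ≤ (1 + (2 ^ k - 1) * ρ) * (1 + ρ) :=
      mul_le_mul_of_nonneg_right ih (by linarith)
    have h4 : (2 ^ k - 1) * ρ * ρ ≤ (2 ^ k - 1) * ρ * 1 :=
      mul_le_mul_of_nonneg_left h1 (mul_nonneg (by linarith) h0)
    rw [pow_succ, pow_succ]
    nlinarith

theorem shell_ge {d : ℕ} {S T : Set (E d)} (hS : MeasurableSet S) (hT : MeasurableSet T) {ρ : ℝ}
    (hρ : 0 < ρ) (hρ1 : ρ ≤ 1) (h : ∀ z ∈ T, ‖z‖⁻¹ • z ∈ S ∧ 1 ≤ ‖z‖ ∧ ‖z‖ < 1 + ρ) :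
    volume T ≤ ENNReal.ofReal (2 ^ d * ρ) * sig d S := by
  have h1 : ((fun z : E d => ‖z‖⁻¹ • z) ⁻¹' S ∩ ball 0 1) ∪ T ⊆
      (fun z : E d => ‖z‖⁻¹ • z) ⁻¹' S ∩ ball 0 (1 + ρ) :=
    union_subset (inter_subset_inter_right _ (ball_subset_ball (by linarith)))
      fun z hz => ⟨(h z hz).1, mem_ball_zero_iff.2 (h z hz).2.2⟩
  have hd : Disjoint ((fun z : E d => ‖z‖⁻¹ • z) ⁻¹' S ∩ ball 0 1) T :=
    disjoint_left.2 fun z hz hz' => absurd (mem_ball_zero_iff.1 hz.2) (not_lt.2 (h z hz').2.1)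
  have h2 := measure_mono (μ := volume) h1
  rw [measure_union hd hT, cone_vol hS (R := 1 + ρ) (by linarith), ← sig_apply hS] at h2
  refine ENNReal.le_of_add_le_add_left (sig_fin S) (h2.trans ?_)
  have h3 : (1 + ρ) ^ d ≤ 1 + 2 ^ d * ρ := by linarith [pow_le hρ.le hρ1 d]
  refine (mul_le_mul_left (ENNReal.ofReal_le_ofReal h3) _).trans (le_of_eq ?_)
  rw [ENNReal.ofReal_add zero_le_one (by positivity), add_mul, ENNReal.ofReal_one, one_mul]

theorem in_band {d : ℕ} {n n' h : E d} {r : ℝ} (hn : ‖n‖ = 1) (hn' : ‖n'‖ = 1) (hh : 0 < ‖h‖)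
    (hr1 : r ≤ 1) (hb : ‖n + n' - h‖ ≤ r) : |⟪n, ‖h‖⁻¹ • h⟫ - ‖h‖ / 2| ≤ 2 * r / ‖h‖ := by
  have hr : 0 ≤ r := (norm_nonneg _).trans hb
  have h1 := abs_norm_sub_norm_le n' (h - n)
  have e : n' - (h - n) = n + n' - h := by abel
  rw [e, hn'] at h1
  have h2 := abs_le.1 (h1.trans hb)
  have h3 := norm_sub_sq_real h n
  rw [hn, real_inner_comm] at h3
  have h4 := norm_nonneg (h - n)
  have e2 : ⟪n, ‖h‖⁻¹ • h⟫ - ‖h‖ / 2 = (⟪n, h⟫ - ‖h‖ ^ 2 / 2) / ‖h‖ := by
    rw [real_inner_smul_right]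
    field_simp
  rw [e2, abs_div, abs_of_pos hh]
  refine div_le_div_of_nonneg_right (abs_le.2 ⟨?_, ?_⟩) hh.le <;> nlinarith

theorem ball_le {d : ℕ} (hd : 3 ≤ d) : ∃ C : ℝ, 0 < C ∧ ∀ (h : E d) (r : ℝ), 0 < r → r ≤ 1 →
    2 * r ≤ ‖h‖ → (sig d).prod (sig d) ((fun z : E d × E d => z.1 + z.2) ⁻¹' closedBall h r) ≤
      ENNReal.ofReal (C * r ^ d / ‖h‖) := by
  obtain ⟨C₁, p1, h1⟩ := capU (d := d) (by omega)
  obtain ⟨C₂, p2, h2⟩ := band hd
  refine ⟨2 * C₁ * C₂, by positivity, fun h r hr hr1 hrh => ?_⟩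
  have hh : 0 < ‖h‖ := by linarith
  have hu := sig_unit d (by omega)
  set B : Set (E d) := {n | |⟪n, ‖h‖⁻¹ • h⟫ - ‖h‖ / 2| ≤ 2 * r / ‖h‖} with hB
  have hBm : MeasurableSet B := (isClosed_le (by fun_prop) continuous_const).measurableSet
  have h3 := h2 (‖h‖⁻¹ • h) (‖h‖ / 2) (2 * r / ‖h‖)
    (by rw [norm_smul, norm_inv, norm_norm, inv_mul_cancel₀ hh.ne']) (by positivity)
    ((div_le_one hh).2 hrh)
  rw [Measure.prod_apply (measurable_add measurableSet_closedBall)]
  have h4 : ∫⁻ n, sig d (Prod.mk n ⁻¹' ((fun z : E d × E d => z.1 + z.2) ⁻¹' closedBall h r))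
      ∂sig d ≤ ENNReal.ofReal (C₁ * r ^ (d - 1)) * sig d B := by
    rw [← lintegral_indicator_const hBm]
    refine lintegral_mono_ae (hu.mono fun n hn => ?_)
    by_cases hb : n ∈ B
    · rw [indicator_of_mem hb]
      refine le_trans (measure_mono fun n' hn' => ?_) (h1 (h - n) r hr)
      have e : n' - (h - n) = n + n' - h := by abel
      rw [mem_closedBall_iff_norm, e]
      exact mem_closedBall_iff_norm.1 hn'
    · rw [indicator_of_notMem hb]
      refine le_of_eq (measure_eq_zero_iff_ae_notMem.2 (hu.mono fun n' hn' hm => hb ?_))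
      exact in_band hn hn' hh hr1 (mem_closedBall_iff_norm.1 hm)
  refine h4.trans ((mul_le_mul_right h3 _).trans (le_of_eq ?_))
  rw [← ENNReal.ofReal_mul (by positivity)]
  obtain ⟨k, rfl⟩ : ∃ k, d = k + 1 := ⟨d - 1, by omega⟩
  rw [Nat.add_sub_cancel]
  congr 1
  ring

end H3J

open H3 H3J

theorem sCap {d : ℕ} (hd : 3 ≤ d) : SCap d := by
  set V := volume (ball (0 : E d) 1) with hV
  have hV0 : 0 < V.toReal := ENNReal.toReal_pos (vol_ball_ne_zero one_pos) vol_ball_ne_top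
  refine ⟨V.toReal / 8 ^ d, by positivity, fun a r ha hr hr1 => ?_⟩
  have h := shell_ge (S := ball a r) (T := ball ((1 + r / 4) • a) (r / 4)) measurableSet_ball
    measurableSet_ball hr hr1 fun z hz => by
      rw [mem_ball_iff_norm] at hz
      have h1 : ‖(1 + r / 4) • a‖ = 1 + r / 4 := by
        rw [norm_smul, ha, mul_one, Real.norm_of_nonneg (by positivity)]
      have h2 := abs_le.1 (abs_norm_sub_norm_le z ((1 + r / 4) • a))
      rw [h1] at h2
      have h3 : 1 ≤ ‖z‖ := by linarith [h2.1]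
      refine ⟨?_, h3, by linarith [h2.2]⟩
      have e : ‖z‖⁻¹ • z - a = (z - (1 + r / 4) • a) + (r / 4) • a - (z - ‖z‖⁻¹ • z) := by
        module
      have h4 : ‖(r / 4) • a‖ = r / 4 := by
        rw [norm_smul, ha, mul_one, Real.norm_of_nonneg (by positivity)]
      have h5 := norm_sub_le ((z - (1 + r / 4) • a) + (r / 4) • a) (z - ‖z‖⁻¹ • z)
      have h6 := norm_add_le (z - (1 + r / 4) • a) ((r / 4) • a)
      rw [near h3] at h5
      rw [mem_ball_iff_norm, e]
      linarith [h2.2]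
  rw [Measure.addHaar_ball_of_pos _ _ (by positivity), finrank_euclideanSpace_fin, ← hV,
    ← ENNReal.ofReal_toReal (a := V) vol_ball_ne_top, ← ENNReal.ofReal_mul (by positivity)] at h
  refine (ENNReal.mul_le_mul_iff_right (a := ENNReal.ofReal (2 ^ d * r))
    (by simpa using by positivity) ENNReal.ofReal_ne_top).1 (le_trans (le_of_eq ?_) h)
  rw [← ENNReal.ofReal_mul (by positivity)]
  obtain ⟨k, rfl⟩ : ∃ k, d = k + 1 := ⟨d - 1, by omega⟩
  rw [Nat.add_sub_cancel, show (8 : ℝ) = 2 * 4 by norm_num, mul_pow, div_pow]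
  congr 1
  field_simp
  ring

theorem sJac {d : ℕ} (hd : 3 ≤ d) : SJac d := by
  obtain ⟨C, hC, hb⟩ := ball_le hd
  set V := volume (ball (0 : E d) 1) with hV
  have hV0 : 0 < V.toReal := ENNReal.toReal_pos (vol_ball_ne_zero one_pos) vol_ball_ne_top
  have : IsFiniteMeasure (sig d) := ⟨(sig_fin univ).lt_top⟩
  set ν : Measure (E d) := ((sig d).prod (sig d)).map fun z : E d × E d => z.1 + z.2 with hν
  have hw : Measurable fun h : E d => ENNReal.ofReal ‖h‖ := by fun_prop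
  set ρ : Measure (E d) := ν.withDensity fun h => ENNReal.ofReal ‖h‖ with hρ
  set K : ℝ≥0∞ := ENNReal.ofReal (2 * C / V.toReal) with hK
  have : IsLocallyFiniteMeasure (K • (volume : Measure (E d))) := by
    have := isLocallyFiniteMeasureSMulNNReal (volume : Measure (E d))
      (Real.toNNReal (2 * C / V.toReal))
    exact this
  refine ⟨K, ENNReal.ofReal_ne_top, fun N hN => ?_⟩
  have h1 : ρ (N \ {0}) ≤ (K • (volume : Measure (E d))) (N \ {0}) := by
    refine (Besicovitch.vitaliFamily ρ).measure_le_of_frequently_le _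
      Measure.AbsolutelyContinuous.rfl _ fun h hh => ?_
    have hp : 0 < ‖h‖ := norm_pos_iff.2 hh.2
    refine (Besicovitch.tendsto_filterAt ρ h).frequently (Eventually.frequently ?_)
    filter_upwards [ev_pos, ev_lt one_pos, ev_lt (half_pos hp)] with r r0 r1 r2
    have h2 : ρ (closedBall h r) ≤ ENNReal.ofReal (2 * ‖h‖) * ν (closedBall h r) := by
      rw [hρ, withDensity_apply _ measurableSet_closedBall, ← setLIntegral_const]
      refine setLIntegral_mono measurable_const fun x hx => ENNReal.ofReal_le_ofReal ?_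
      have := norm_le_insert' x h
      linarith [mem_closedBall_iff_norm.1 hx]
    rw [hν, Measure.map_apply measurable_add measurableSet_closedBall] at h2
    refine h2.trans ((mul_le_mul_right (hb h r r0 r1.le (by linarith)) _).trans (le_of_eq ?_))
    rw [Measure.smul_apply, smul_eq_mul, Measure.addHaar_closedBall _ _ r0.le,
      finrank_euclideanSpace_fin, ← hV, ← ENNReal.ofReal_toReal (a := V) vol_ball_ne_top, hK,
      ← ENNReal.ofReal_mul (by positivity), ← ENNReal.ofReal_mul (by positivity),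
      ← ENNReal.ofReal_mul (by positivity)]
    congr 1
    field_simp
  have hN' : MeasurableSet (N \ {0}) := hN.diff (measurableSet_singleton 0)
  rw [Measure.smul_apply, smul_eq_mul, hρ, withDensity_apply _ hN', ← lintegral_indicator hN', hν,
    lintegral_map (hw.indicator hN') measurable_add] at h1
  refine le_trans (lintegral_mono fun z => ?_)
    (h1.trans (mul_le_mul_right (measure_mono sdiff_subset) _))
  by_cases h0 : z.1 + z.2 = 0
  · simp [h0]
  · by_cases hz : z.1 + z.2 ∈ N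
    · rw [indicator_of_mem hz, indicator_of_mem (show z.1 + z.2 ∈ N \ {0} from ⟨hz, h0⟩),
        Pi.one_apply, one_mul]
    · rw [indicator_of_notMem hz, zero_mul]
      exact zero_le

end Pool.Agent.MP_66cee2_co.D.C
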