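import Pool.Agent.MP_66cee2_co.D.Defs

/-
Flat fields give a family of open sets: definitions and statements in dimension `d`.
-/

namespace Pool.Agent.MP_66cee2_co.D.C

open MeasureTheory Set Filter Metric Topology Matrix Pool.Agent.MP_66cee2_co.X
open scoped ENNReal RealInnerProductSpace

/-- the points whose unit sphere meets `Z` in positive measure. -/
def Nb {d : ℕ} (Z : Set (E d)) : Set (E d) := {y | sig d {n | y + n ∈ Z} ≠ 0}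

/-- the density of the sum of two unit vectors. -/
def SJac (d : ℕ) : Prop :=
  ∃ C : ℝ≥0∞, C ≠ ⊤ ∧ ∀ N : Set (E d), MeasurableSet N →
    ∫⁻ z : E d × E d, N.indicator 1 (z.1 + z.2) * ENNReal.ofReal ‖z.1 + z.2‖
      ∂(sig d).prod (sig d) ≤ C * volume N

/-- small caps, lower bound. -/
def SCap (d : ℕ) : Prop :=
  ∃ c : ℝ, 0 < c ∧ ∀ (a : E d) (r : ℝ), ‖a‖ = 1 → 0 < r → r ≤ 1 →
    ENNReal.ofReal (c * r ^ (d - 1)) ≤ sig d (ball a r)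

/-- caps, upper bound. -/
def SCapU (d : ℕ) : Prop :=
  ∃ C : ℝ, 0 ≤ C ∧ ∀ (a : E d) (r : ℝ), 0 < r →
    sig d (closedBall a r) ≤ ENNReal.ofReal (C * r ^ (d - 1))

/-- a band in a cap, away from the poles. -/
def SBandL (d : ℕ) : Prop :=
  ∀ θ : ℝ, 0 < θ → ∃ C : ℝ, 0 ≤ C ∧ ∀ (e u a : E d) (t s r : ℝ), ‖e‖ = 1 → ‖u‖ = 1 →
    ⟪e, u⟫ = 0 → 0 < s → s ≤ r →
    sig d {n | n ∈ ball a r ∧ |⟪n, e⟫ - t| ≤ s ∧ θ ≤ ⟪n, u⟫} ≤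
      ENNReal.ofReal (C * s * r ^ (d - 2))

/-- from small balls to all sets. -/
def SVit (d : ℕ) : Prop :=
  ∀ (ρ : Measure (E d)) [IsFiniteMeasure ρ] (C : ℝ≥0∞), C ≠ ⊤ →
    (∀ h : E d, ∃ s₀ : ℝ, 0 < s₀ ∧ ∀ s, 0 < s → s ≤ s₀ →
      ρ (closedBall h s) ≤ C * volume (closedBall h s)) →
    ∀ N : Set (E d), ρ N ≤ C * volume N

/-- the density of the sum of two unit vectors from two small transversal caps. -/
def SJacL (d : ℕ) : Prop :=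
  ∀ a b : E d, ‖a‖ = 1 → ‖b‖ = 1 → b ≠ a → b ≠ -a → ∃ C δ : ℝ, 0 ≤ C ∧ 0 < δ ∧
    ∀ r : ℝ, 0 < r → r ≤ δ → ∀ N : Set (E d), MeasurableSet N →
      (sig d).prod (sig d) {z | z.1 ∈ ball a r ∧ z.2 ∈ ball b r ∧ z.1 + z.2 ∈ N} ≤
        ENNReal.ofReal (C * r ^ (d - 2)) * volume N

/-- elementary facts. -/
structure SKit (d : ℕ) : Prop where
  nb_meas : ∀ Z : Set (E d), MeasurableSet Z → MeasurableSet (Nb Z)
  nb_null : ∀ Z : Set (E d), volume Z = 0 → volume (Nb Z) = 0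
  nb_swap : ∀ A B : Set (E d), MeasurableSet A → MeasurableSet B → volume (A ∩ Nb B) = 0 →
    volume (B ∩ Nb A) = 0

/-- the points where the row is not within `t` of its value at `x`. -/
def Far {d : ℕ} {ι : Type} [Fintype ι] (J : E d → Finset ι) (ξ : E d → ι → ℝ) (x : E d)
    (t : ℝ) : Set (E d) :=
  {η | J (x + η) ≠ J x ∨ t < ‖ξ (x + η) - ξ x‖}

/-- the rows are flat. -/
def SCntF (d : ℕ) : Prop :=
  ∀ (ι : Type) [Fintype ι] (c : E d → ι → ℝ) (J : E d → Finset ι) (ξ : E d → ι → ℝ),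
    Dual (fun x (_ : Unit) => c x) J ξ →
    (∀ᵐ y : E d, ∀ K : ℕ, ∃ C : ℝ, Small fun τ => {η | C * τ ^ K < ‖c (y + η) - c y‖}) →
    ∀ᵐ x : E d, ∀ K : ℕ, ∃ C : ℝ, Small fun τ => Far J ξ x (C * τ ^ K)

/-- the directions far from any given axis still determine the row. -/
def SArc (d : ℕ) : Prop :=
  ∀ (ι : Type) [Fintype ι] (c : E d → ι → ℝ) (J : Finset ι),
    (∀ ζ : ι → ℝ, (∀ᵐ n ∂sig d, ζ ⬝ᵥ c n = 0) → (∀ a ∈ J, ζ a = 0) → ζ = 0) →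
    ∃ β : ℝ, 0 < β ∧ β < 1 ∧ ∀ e : E d, ‖e‖ = 1 → ∀ ζ : ι → ℝ,
      (∀ᵐ n ∂sig d, |⟪n, e⟫| ≤ β → ζ ⬝ᵥ c n = 0) → (∀ a ∈ J, ζ a = 0) → ζ = 0

/-- a quantitative form that holds at most points near almost every point. -/
def SQuad (d : ℕ) : Prop :=
  ∀ (ι : Type) [Fintype ι] (c : E d → ι → ℝ) (J : E d → Finset ι),
    (∀ a, Measurable fun x => c x a) → (∀ x, ‖c x‖ ≤ 1) →
    (∀ᵐ y : E d, ∀ ζ : ι → ℝ, (∀ᵐ n ∂sig d, ζ ⬝ᵥ c (y + n) = 0) → (∀ a ∈ J y, ζ a = 0) →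
      ζ = 0) →
    ∀ᵐ x : E d, ∃ β μ : ℝ, 0 < β ∧ β < 1 ∧ 0 < μ ∧ Small fun _ => {η | ¬ ∀ e : E d, ‖e‖ = 1 →
      ∀ ζ : ι → ℝ, (∀ a ∈ J x, ζ a = 0) →
        μ * ‖ζ‖ ^ 2 ≤ ∫ n in {n | |⟪n, e⟫| ≤ β}, (ζ ⬝ᵥ c (x + η + n)) ^ 2 ∂sig d}

/-- a cap of a unit sphere through a point near a small ball that lies in the ball. -/
def SChord (d : ℕ) : Prop :=
  ∀ β : ℝ, 0 < β → β < 1 → ∃ lam c τ₀ : ℝ, 1 < lam ∧ 0 < c ∧ 0 < τ₀ ∧ c * τ₀ ≤ 1 ∧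
    ∀ (τ : ℝ) (η n : E d), 0 < τ → τ ≤ τ₀ → ‖η‖ < lam * τ → ‖n‖ = 1 → |⟪n, η⟫| ≤ β * ‖η‖ →
      ∃ b : E d, ‖b‖ = 1 ∧ ∀ n' : E d, ‖n'‖ = 1 → ‖n' - b‖ < c * τ →
        ‖η + n + n'‖ < τ ∧ c * τ ≤ ‖n + n'‖

/-- the doubling inequality. -/
def SCntD (d : ℕ) : Prop :=
  ∀ (ι : Type) [Fintype ι] (c : E d → ι → ℝ) (J : E d → Finset ι) (ξ : E d → ι → ℝ),
    Dual (fun x (_ : Unit) => c x) J ξ →
    ∀ᵐ x : E d, ∃ κ₀ C lam : ℝ, 0 < κ₀ ∧ 0 < C ∧ 1 < lam ∧ ∀ κ, 0 < κ → κ ≤ κ₀ →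
      ∃ τ₀, 0 < τ₀ ∧ ∀ τ t : ℝ, 0 < τ → τ ≤ τ₀ → 0 ≤ t →
        volume (Far J ξ x t ∩ ball 0 τ) ≤ ENNReal.ofReal κ * volume (ball (0 : E d) τ) →
        volume (Far J ξ x (C * t) ∩ ball 0 (lam * τ)) ≤
          ENNReal.ofReal κ * volume (ball (0 : E d) (lam * τ))

/-- the rows are constant on a set of density one. -/
def SCnt (d : ℕ) : Prop :=
  ∀ (ι : Type) [Fintype ι] (c : E d → ι → ℝ) (J : E d → Finset ι) (ξ : E d → ι → ℝ),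
    Dual (fun x (_ : Unit) => c x) J ξ →
    (∀ᵐ y : E d, ∀ K : ℕ, ∃ C : ℝ, Small fun τ => {η | C * τ ^ K < ‖c (y + η) - c y‖}) →
    ∀ᵐ x : E d, Small fun _ => Far J ξ x 0

/-- a set near a point of the sphere has many neighbours that see all the frame. -/
def SK (d : ℕ) : Prop :=
  ∀ (I : Type) (F : Finset I) (Z : I → Set (E d)) (n : I → E d) (y n₀ : E d),
    (∀ i, MeasurableSet (Z i)) → ‖n₀‖ = 1 →
    (∀ i ∈ F, ‖n i‖ = 1 ∧ n i ≠ n₀ ∧ n i ≠ -n₀ ∧ Small fun _ => {η | y + n i + η ∉ Z i}) →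
    ∃ r₀ : ℝ, 0 < r₀ ∧ ∀ r, 0 < r → r ≤ r₀ → ∀ A : Set (E d), MeasurableSet A →
      A ⊆ ball (y + n₀) r → volume A ≠ 0 →
      volume {y' | y' ∈ ball y (2 * r) ∧ y' ∈ Nb A ∧ ∀ i ∈ F, y' ∈ Nb (Z i)} ≠ 0

/-- the sum of the subspaces that are seen from a point. -/
noncomputable def Sg {d : ℕ} {I ι : Type} (Z : I → Set (E d)) (W : I → Submodule ℝ (ι → ℝ))
    (y : E d) : Submodule ℝ (ι → ℝ) := ⨆ i ∈ {i | y ∈ Nb (Z i)}, W i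

/-- points where the sum is locally maximal. -/
def SOpen (d : ℕ) : Prop :=
  ∀ (I ι : Type) [Countable I] [Fintype ι] (Z : I → Set (E d)) (W : I → Submodule ℝ (ι → ℝ))
    (G : E d → Prop) (x₀ : E d) (ρ : ℝ), (∀ i, MeasurableSet (Z i)) → (∀ᵐ x, G x) → 0 < ρ →
    ∃ y ∈ ball x₀ ρ, G y ∧ ∃ r : ℝ, 0 < r ∧ ∀ᵐ y', y' ∈ ball y r → Sg Z W y' ≤ Sg Z W y

/-- flat fields give a family, in dimension `d`. -/
def SFamD (d : ℕ) : Prop :=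
  ∀ (n : ℕ) (V : E d → Ix n → ℝ), FlatF V → ∃ O : (Ix n → ℝ) → Set (E d), Fam O

end Pool.Agent.MP_66cee2_co.D.C
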