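import Pool.Agent.MP_66cee2_co.XJ.Sig
import Pool.Agent.MP_66cee2_co.D.SpecC

/-
The local Jacobian bound for the sum of two unit vectors in two small caps.
-/

namespace Pool.Agent.MP_66cee2_co.D

open MeasureTheory Set Filter Metric Topology Pool.Agent.MP_66cee2_co.X
open scoped ENNReal RealInnerProductSpace

namespace JacL

theorem vol_ball {d : ℕ} (x : E d) {r : ℝ} (hr : 0 < r) :
    volume (ball x r) = ENNReal.ofReal (r ^ d) * volume (ball (0 : E d) 1) := by
  have := Measure.addHaar_ball_of_pos (volume : Measure (E d)) x hr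
  rwa [finrank_euclideanSpace_fin] at this

/-- upper bound for caps. -/
theorem cap_up {d : ℕ} (hd : 1 ≤ d) : ∃ C : ℝ, 0 < C ∧ ∀ (a : E d) (ε : ℝ), 0 < ε → ε ≤ 1 →
    sig d (ball a ε) ≤ ENNReal.ofReal (C * ε ^ (d - 1)) := by
  set V := volume (ball (0 : E d) 1) with hV
  have hVt : V ≠ ⊤ := measure_ball_lt_top.ne
  refine ⟨2 * 3 ^ d * (V.toReal + 1), by positivity, fun a ε hε hε1 => ?_⟩
  by_cases hex : ∃ a' ∈ ball a ε, ‖a'‖ = 1
  swap
  · push Not at hex
    have h0 : sig d (ball a ε) = 0 :=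
      measure_mono_null (fun w hw => hex w hw) (ae_iff.1 (sig_unit d hd))
    rw [h0]
    exact zero_le
  obtain ⟨a', ha', hu⟩ := hex
  rw [sig_apply measurableSet_ball]
  have hcov : (fun z : E d => ‖z‖⁻¹ • z) ⁻¹' ball a ε ∩ ball 0 1 ⊆
      ⋃ k ∈ Finset.range (⌊1 / ε⌋₊ + 1), ball (((k : ℝ) * ε) • a') (3 * ε) := by
    intro z hz
    have h1 : ‖z‖ < 1 := mem_ball_zero_iff.1 hz.2
    have h2 : ‖‖z‖⁻¹ • z - a'‖ ≤ 2 * ε := by
      have e : ‖z‖⁻¹ • z - a' = (‖z‖⁻¹ • z - a) - (a' - a) := by abel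
      have b1 : ‖‖z‖⁻¹ • z - a‖ < ε := mem_ball_iff_norm.1 hz.1
      have b2 := mem_ball_iff_norm.1 ha'
      have b3 := norm_sub_le (‖z‖⁻¹ • z - a) (a' - a)
      rw [e]
      linarith
    have h3 : ‖z - ‖z‖ • a'‖ ≤ 2 * ε := by
      have e : z - ‖z‖ • a' = ‖z‖ • (‖z‖⁻¹ • z - a') := by
        by_cases h0 : z = 0
        · simp [h0]
        · rw [smul_sub, smul_inv_smul₀ (norm_ne_zero_iff.2 h0)]
      rw [e, norm_smul, norm_norm]
      have := norm_nonneg z
      have := norm_nonneg (‖z‖⁻¹ • z - a')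
      nlinarith
    have hq : 0 ≤ ‖z‖ / ε := by positivity
    have f1 := Nat.floor_le hq
    have f2 := Nat.lt_floor_add_one (‖z‖ / ε)
    rw [le_div_iff₀ hε] at f1
    rw [div_lt_iff₀ hε] at f2
    refine mem_iUnion₂.2 ⟨⌊‖z‖ / ε⌋₊, ?_, ?_⟩
    · rw [Finset.mem_range, Nat.lt_succ_iff]
      exact Nat.floor_le_floor (by gcongr)
    · have e : z - ((⌊‖z‖ / ε⌋₊ : ℝ) * ε) • a' =
          (z - ‖z‖ • a') + (‖z‖ - (⌊‖z‖ / ε⌋₊ : ℝ) * ε) • a' := by
        rw [sub_smul]
        abel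
      have b1 := norm_add_le (z - ‖z‖ • a') ((‖z‖ - (⌊‖z‖ / ε⌋₊ : ℝ) * ε) • a')
      rw [norm_smul, hu, mul_one, Real.norm_eq_abs, abs_of_nonneg (by linarith)] at b1
      rw [mem_ball_iff_norm, e]
      linarith
  refine (measure_mono hcov).trans ((measure_biUnion_finset_le _ _).trans ?_)
  have h3 : 0 < 3 * ε := by positivity
  simp only [vol_ball _ h3]
  rw [Finset.sum_const, Finset.card_range, nsmul_eq_mul, ← hV, ← ENNReal.ofReal_toReal hVt,
    ← ENNReal.ofReal_natCast, ← ENNReal.ofReal_mul (by positivity),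
    ← ENNReal.ofReal_mul (by positivity), ENNReal.toReal_ofReal ENNReal.toReal_nonneg]
  refine ENNReal.ofReal_le_ofReal ?_
  have f1 : ((⌊1 / ε⌋₊ + 1 : ℕ) : ℝ) * ε ≤ 2 := by
    have := Nat.floor_le (show 0 ≤ 1 / ε by positivity)
    rw [le_div_iff₀ hε] at this
    push_cast
    nlinarith
  have e : (3 * ε) ^ d = 3 ^ d * (ε * ε ^ (d - 1)) := by
    rw [mul_pow, ← pow_succ', Nat.sub_add_cancel hd]
  have hW : 0 ≤ V.toReal := ENNReal.toReal_nonneg
  have hp : 0 ≤ (3 : ℝ) ^ d * ε ^ (d - 1) := by positivity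
  rw [e]
  calc ((⌊1 / ε⌋₊ + 1 : ℕ) : ℝ) * (3 ^ d * (ε * ε ^ (d - 1)) * V.toReal)
      = (((⌊1 / ε⌋₊ + 1 : ℕ) : ℝ) * ε) * (3 ^ d * ε ^ (d - 1) * V.toReal) := by ring
    _ ≤ 2 * (3 ^ d * ε ^ (d - 1) * (V.toReal + 1)) := by gcongr; linarith
    _ = _ := by ring

/-- a bound on small balls gives a bound on all sets. -/
theorem ball_test {d : ℕ} (μ : Measure (E d)) [IsFiniteMeasure μ] {C : ℝ≥0∞} (hC0 : C ≠ 0)
    (hCt : C ≠ ⊤) {ε₀ : ℝ} (hε₀ : 0 < ε₀)
    (h : ∀ ε, 0 < ε → ε ≤ ε₀ → ∀ x : E d, μ (ball x ε) ≤ C * volume (ball (0 : E d) ε))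
    (N : Set (E d)) : μ N ≤ C * volume N := by
  rw [N.measure_eq_iInf_isOpen volume]
  simp_rw [ENNReal.mul_iInf_of_ne hC0 hCt]
  refine le_iInf fun U => le_iInf fun hNU => le_iInf fun hU => (measure_mono hNU).trans ?_
  rw [hU.measure_eq_iSup_isCompact μ]
  refine iSup_le fun K => iSup_le fun hKU => iSup_le fun hK => ?_
  obtain ⟨δ, hδ, hth⟩ := hK.exists_thickening_subset_open hU hKU
  set ε := min δ ε₀ with hε
  have hε0 : 0 < ε := lt_min hδ hε₀
  set T : Set (E d × E d) := {z | z.2 ∈ U ∧ dist z.1 z.2 < ε} with hT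
  have hTm : MeasurableSet T :=
    (hU.measurableSet.preimage measurable_snd).inter
      (isOpen_lt continuous_dist continuous_const).measurableSet
  have hB0 : volume (ball (0 : E d) ε) ≠ 0 := (measure_ball_pos _ _ hε0).ne'
  have hBt : volume (ball (0 : E d) ε) ≠ ⊤ := measure_ball_lt_top.ne
  have h1 : volume (ball (0 : E d) ε) * μ K ≤ μ.prod volume T := by
    rw [Measure.prod_apply hTm, ← lintegral_indicator_const hK.measurableSet]
    refine lintegral_mono fun x => ?_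
    by_cases hx : x ∈ K
    · rw [indicator_of_mem hx, ← Measure.addHaar_ball_center volume x]
      refine measure_mono fun y hy => ⟨hth ?_, ?_⟩
      · exact mem_thickening_iff.2 ⟨x, hx, lt_of_lt_of_le hy (min_le_left _ _)⟩
      · exact mem_ball'.1 hy
    · rw [indicator_of_notMem hx]
      exact zero_le
  have h2 : μ.prod volume T ≤ C * volume (ball (0 : E d) ε) * volume U := by
    rw [Measure.prod_apply_symm hTm, ← lintegral_indicator_const hU.measurableSet]
    refine lintegral_mono fun y => ?_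
    by_cases hy : y ∈ U
    · rw [indicator_of_mem hy]
      exact (measure_mono fun x hx => hx.2).trans (h ε hε0 (min_le_right _ _) y)
    · rw [indicator_of_notMem hy]
      have : (fun x : E d => (x, y)) ⁻¹' T = ∅ := eq_empty_of_forall_notMem fun x hx => hy hx.1
      rw [this, measure_empty]
  have h3 := h1.trans h2
  rw [mul_comm C, mul_assoc] at h3
  exact (ENNReal.mul_le_mul_iff_right hB0 hBt).1 h3

theorem alg {s r x y p q t t' ε : ℝ} (hs : 0 < s) (hs1 : s ≤ 1) (hr : r ≤ s / 100)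
    (hx : |x| ≤ 3 * r) (hy : |y - 1| ≤ 3 * r) (hp : |p - s| ≤ 3 * r) (hq : |q| ≤ 3)
    (ht : 0 ≤ t) (htr : t ≤ r) (ht' : 0 ≤ t') (htr' : t' ≤ r) (hε : 0 < ε)
    (hd : 4 * ε / s ≤ t - t') :
    2 * ε < (x + t * y) * (p + t * q) / (1 + t ^ 2) -
      (x + t' * y) * (p + t' * q) / (1 + t' ^ 2) := by
  have e : (x + t * y) * (p + t * q) / (1 + t ^ 2) - (x + t' * y) * (p + t' * q) / (1 + t' ^ 2) =
      (t - t') * ((p * y + q * x) * (1 - t * t') + (q * y - p * x) * (t + t')) /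
        ((1 + t ^ 2) * (1 + t' ^ 2)) := by
    field_simp
    ring
  obtain ⟨x1, x2⟩ := abs_le.1 hx
  obtain ⟨y1, y2⟩ := abs_le.1 hy
  obtain ⟨p1, p2⟩ := abs_le.1 hp
  obtain ⟨q1, q2⟩ := abs_le.1 hq
  have hr0 : 0 ≤ r := ht.trans htr
  have a1 : 0.94 * s ≤ p * y := by
    have : (0.97 * s) * 0.97 ≤ p * y :=
      mul_le_mul (by linarith) (by linarith) (by norm_num) (by linarith)
    linarith
  have a2 : |q * x| ≤ 3 * (3 * r) := by
    rw [abs_mul]
    exact mul_le_mul hq hx (abs_nonneg _) (by norm_num)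
  have a3 : |q * y| ≤ 3 * 1.03 := by
    rw [abs_mul]
    exact mul_le_mul hq (abs_le.2 ⟨by linarith, by linarith⟩) (abs_nonneg _) (by norm_num)
  have a4 : |p * x| ≤ 1.03 * 0.03 := by
    rw [abs_mul]
    exact mul_le_mul (abs_le.2 ⟨by linarith, by linarith⟩) (by linarith) (abs_nonneg _)
      (by norm_num)
  obtain ⟨b1, b2⟩ := abs_le.1 a2
  obtain ⟨c1, c2⟩ := abs_le.1 a3
  obtain ⟨d1, d2⟩ := abs_le.1 a4
  have t1 : t * t' ≤ 0.01 * 0.01 := mul_le_mul (by linarith) (by linarith) ht' (by norm_num)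
  have t2 : t * t ≤ 0.01 * 0.01 := mul_le_mul (by linarith) (by linarith) ht (by norm_num)
  have t3 : t' * t' ≤ 0.01 * 0.01 := mul_le_mul (by linarith) (by linarith) ht' (by norm_num)
  have g1 : (0.85 * s) * 0.99 ≤ (p * y + q * x) * (1 - t * t') :=
    mul_le_mul (by linarith) (by linarith) (by norm_num) (by linarith)
  have g2 : -(3.2 * (0.02 * s)) ≤ (q * y - p * x) * (t + t') := by
    have : (p * x - q * y) * (t + t') ≤ 3.2 * (0.02 * s) :=
      mul_le_mul (by linarith) (by linarith) (by linarith) (by norm_num)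
    linarith
  have g3 : (1 + t ^ 2) * (1 + t' ^ 2) ≤ 1.001 * 1.001 :=
    mul_le_mul (by nlinarith) (by nlinarith) (by positivity) (by norm_num)
  have g4 : 4 * ε / s * (0.75 * s) ≤
      (t - t') * ((p * y + q * x) * (1 - t * t') + (q * y - p * x) * (t + t')) :=
    mul_le_mul hd (by linarith) (by positivity) (le_trans (by positivity) hd)
  have g5 : 4 * ε / s * (0.75 * s) = 3 * ε := by
    field_simp
    ring
  rw [e, lt_div_iff₀ (by positivity)]
  nlinarith

theorem refl_apply {d : ℕ} (v m : E d) :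
    (ℝ ∙ v)ᗮ.reflection m = m - (2 * (⟪v, m⟫ / ‖v‖ ^ 2)) • v := by
  rw [Submodule.reflection_orthogonal_apply, Submodule.reflection_singleton_apply, two_smul,
    two_mul, add_smul]
  simp

theorem abs_inner_le {d : ℕ} {u w : E d} {ρ : ℝ} (hu : ‖u‖ = 1) (hw : ‖w‖ ≤ ρ) : |⟪u, w⟫| ≤ ρ := by
  have := abs_real_inner_le_norm u w
  rw [hu, one_mul] at this
  linarith

/-- a thin slab inside a cap. -/
theorem slab {d : ℕ} (hd : 2 ≤ d) {a b : E d} (ha : ‖a‖ = 1) (hb : ‖b‖ = 1) (h1 : b ≠ a)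
    (h2 : b ≠ -a) : ∃ C δ : ℝ, 0 < C ∧ 0 < δ ∧ δ ≤ 1 ∧ ∀ r ε : ℝ, 0 < r → r ≤ δ → 0 < ε →
      ∀ (h : E d) (c : ℝ), ‖h - (a + b)‖ ≤ 3 * r →
      sig d {m | m ∈ ball a r ∧ |⟪m, h⟫ - c| ≤ 2 * ε} ≤ ENNReal.ofReal (C * r ^ (d - 2) * ε) := by
  obtain ⟨C, hC, hcap⟩ := cap_up (d := d) (by omega)
  have haa : ⟪a, a⟫ = 1 := by rw [real_inner_self_eq_norm_sq, ha]; norm_num
  have hbb : ⟪b, b⟫ = 1 := by rw [real_inner_self_eq_norm_sq, hb]; norm_num
  set w : E d := b - ⟪a, b⟫ • a with hw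
  have hw0 : w ≠ 0 := by
    intro h0
    have e : b = ⟪a, b⟫ • a := sub_eq_zero.1 h0
    have n : |⟪a, b⟫| = 1 := by
      have := congrArg norm e
      rw [norm_smul, ha, hb, mul_one, Real.norm_eq_abs] at this
      exact this.symm
    rcases (abs_eq zero_le_one).1 n with n | n
    · exact h1 (by rw [e, n, one_smul])
    · exact h2 (by rw [e, n, neg_one_smul])
  have hwn : 0 < ‖w‖ := norm_pos_iff.2 hw0
  have hwa : ⟪w, a⟫ = 0 := by
    rw [hw, inner_sub_left, real_inner_smul_left, haa, real_inner_comm]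
    ring
  obtain ⟨u, s, hu, hua, hub, hs⟩ : ∃ (u : E d) (s : ℝ), ‖u‖ = 1 ∧ ⟪u, a⟫ = 0 ∧ ⟪u, b⟫ = s ∧
      0 < s := by
    refine ⟨‖w‖⁻¹ • w, _, ?_, ?_, rfl, ?_⟩
    · rw [norm_smul, norm_inv, norm_norm, inv_mul_cancel₀ hwn.ne']
    · rw [real_inner_smul_left, hwa, mul_zero]
    · have e : b = w + ⟪a, b⟫ • a := by rw [hw]; abel
      have e2 : ⟪w, b⟫ = ‖w‖ ^ 2 := by
        calc ⟪w, b⟫ = ⟪w, w + ⟪a, b⟫ • a⟫ := by rw [← e]
          _ = _ := by
            rw [inner_add_right, real_inner_smul_right, hwa, real_inner_self_eq_norm_sq]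
            ring
      rw [real_inner_smul_left, e2]
      positivity
  have hs1 : s ≤ 1 := by
    have := abs_inner_le hu hb.le
    rw [hub] at this
    exact (le_abs_self s).trans this
  have huu : ⟪u, u⟫ = 1 := by rw [real_inner_self_eq_norm_sq, hu]; norm_num
  refine ⟨C * 3 ^ (d - 1) * 4 / s, s / 100, by positivity, by positivity, by linarith,
    fun r ε hr hrδ hε h c hh => ?_⟩
  set S : Set (E d) := {m | m ∈ ball a r ∧ |⟪m, h⟫ - c| ≤ 2 * ε} with hS
  have hSm : MeasurableSet S :=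
    measurableSet_ball.inter (isClosed_le (f := fun m : E d => |⟪m, h⟫ - c|) (by fun_prop)
      continuous_const).measurableSet
  set η : ℝ := 4 * ε / s with hη
  have hη0 : 0 < η := by positivity
  set v : ℕ → E d := fun k => u + ((k : ℝ) * η) • a with hv
  have hvn : ∀ k, ‖v k‖ ^ 2 = 1 + ((k : ℝ) * η) ^ 2 := by
    intro k
    rw [← real_inner_self_eq_norm_sq, hv]
    simp only [inner_add_left, inner_add_right, real_inner_smul_left, real_inner_smul_right,
      huu, hua, haa, real_inner_comm u a]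
    ring
  have hvi : ∀ k (m : E d), ⟪v k, m⟫ = ⟪u, m⟫ + ((k : ℝ) * η) * ⟪a, m⟫ := by
    intro k m
    rw [hv]
    simp only [inner_add_left, real_inner_smul_left]
  set A : ℕ → E d ≃ₗᵢ[ℝ] E d := fun k => (ℝ ∙ v k)ᗮ.reflection with hA
  have hAm : ∀ k, Measurable (A k) := fun k => (A k).continuous.measurable
  set F := Finset.range (⌊r / η⌋₊ + 1) with hF
  have hk : ∀ k ∈ F, (k : ℝ) * η ≤ r := by
    intro k hk
    rw [hF, Finset.mem_range, Nat.lt_succ_iff, Nat.le_floor_iff (by positivity),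
      le_div_iff₀ hη0] at hk
    exact hk
  have hsub : ∀ k ∈ F, ∀ m ∈ A k ⁻¹' S, ‖m - a‖ < 3 * r := by
    intro k hkF m hm
    have b1 : ‖A k m - a‖ < r := mem_ball_iff_norm.1 hm.1
    have b2 : ‖A k m - A k a‖ = ‖m - a‖ := by rw [← map_sub, LinearIsometryEquiv.norm_map]
    have ht0 : 0 ≤ (k : ℝ) * η := by positivity
    have b3 : ‖a - A k a‖ ≤ 2 * r := by
      have e : a - A k a = (2 * (⟪v k, a⟫ / ‖v k‖ ^ 2)) • v k := by
        rw [hA]
        simp only [refl_apply]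
        abel
      have n1 : 1 ≤ ‖v k‖ := by
        have := hvn k
        have := norm_nonneg (v k)
        nlinarith [sq_nonneg ((k : ℝ) * η)]
      rw [e, norm_smul, hvi, hua, haa, zero_add, mul_one, Real.norm_eq_abs,
        abs_of_nonneg (by positivity)]
      have e2 : 2 * ((k : ℝ) * η / ‖v k‖ ^ 2) * ‖v k‖ = 2 * ((k : ℝ) * η / ‖v k‖) := by
        field_simp
      rw [e2]
      have := div_le_self ht0 n1
      have := hk k hkF
      linarith
    have b4 := norm_add_le (A k m - a) (a - A k a)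
    rw [sub_add_sub_cancel, b2] at b4
    linarith
  have hval : ∀ k (m : E d), ⟪A k m, h⟫ = ⟪m, h⟫ - 2 * ((⟪u, m⟫ + ((k : ℝ) * η) * ⟪a, m⟫) *
      (⟪u, h⟫ + ((k : ℝ) * η) * ⟪a, h⟫) / (1 + ((k : ℝ) * η) ^ 2)) := by
    intro k m
    rw [hA]
    simp only [refl_apply]
    rw [inner_sub_left, real_inner_smul_left, hvi, hvi, hvn]
    ring
  have hdis : ∀ k ∈ F, ∀ l ∈ F, l < k → Disjoint (A k ⁻¹' S) (A l ⁻¹' S) := by
    intro k hkF l hlF hlk
    refine Set.disjoint_left.2 fun m hm hm' => ?_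
    have b0 := (hsub k hkF m hm).le
    have x1 : |⟪u, m⟫| ≤ 3 * r := by
      have := abs_inner_le hu b0
      rwa [inner_sub_right, hua, sub_zero] at this
    have x2 : |⟪a, m⟫ - 1| ≤ 3 * r := by
      have := abs_inner_le ha b0
      rwa [inner_sub_right, haa] at this
    have x3 : |⟪u, h⟫ - s| ≤ 3 * r := by
      have := abs_inner_le hu hh
      rwa [inner_sub_right, inner_add_right, hua, hub, zero_add] at this
    have x4 : |⟪a, h⟫| ≤ 3 := by
      refine abs_inner_le ha ?_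
      have c1 := norm_add_le (h - (a + b)) (a + b)
      have c2 := norm_add_le a b
      rw [sub_add_cancel] at c1
      linarith
    have x5 : 4 * ε / s ≤ (k : ℝ) * η - (l : ℝ) * η := by
      have : (l : ℝ) + 1 ≤ k := by exact_mod_cast hlk
      rw [← hη]
      nlinarith
    have := alg hs hs1 hrδ x1 x2 x3 x4 (by positivity) (hk k hkF) (by positivity) (hk l hlF) hε x5
    have m1 : |⟪A k m, h⟫ - c| ≤ 2 * ε := hm.2
    have m2 : |⟪A l m, h⟫ - c| ≤ 2 * ε := hm'.2
    rw [hval] at m1 m2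
    obtain ⟨m3, m4⟩ := abs_le.1 m1
    obtain ⟨m5, m6⟩ := abs_le.1 m2
    linarith
  have heq : ∀ k, sig d (A k ⁻¹' S) = sig d S := by
    intro k
    rw [← Measure.map_apply (hAm k) hSm, sig_inv]
  have hsum : (F.card : ℝ≥0∞) * sig d S ≤ ENNReal.ofReal (C * (3 * r) ^ (d - 1)) := by
    have hpd : PairwiseDisjoint (F : Set ℕ) fun k => A k ⁻¹' S := by
      intro k hkF l hlF hne
      rcases lt_or_gt_of_ne hne with hlt | hlt
      · exact (hdis l hlF k hkF hlt).symm
      · exact hdis k hkF l hlF hlt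
    have := measure_biUnion_finset (μ := sig d) hpd fun k _ => hAm k hSm
    simp only [heq] at this
    rw [Finset.sum_const, nsmul_eq_mul] at this
    rw [← this]
    refine le_trans (measure_mono ?_) (hcap a (3 * r) (by positivity) (by linarith))
    exact iUnion₂_subset fun k hkF m hm => mem_ball_iff_norm.2 (hsub k hkF m hm)
  have hcard : ENNReal.ofReal (r / η) ≤ (F.card : ℝ≥0∞) := by
    rw [← ENNReal.ofReal_natCast, hF, Finset.card_range]
    refine ENNReal.ofReal_le_ofReal ?_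
    push_cast
    exact (Nat.lt_floor_add_one _).le
  have hq : 0 < r / η := by positivity
  have hfin : ENNReal.ofReal (r / η) * sig d S ≤
      ENNReal.ofReal (r / η) * ENNReal.ofReal (C * 3 ^ (d - 1) * 4 / s * r ^ (d - 2) * ε) := by
    refine le_trans (by gcongr) (hsum.trans (le_of_eq ?_))
    rw [← ENNReal.ofReal_mul hq.le]
    congr 1
    have e : r ^ (d - 1) = r * r ^ (d - 2) := by
      rw [← pow_succ']
      congr 1
      omega
    rw [mul_pow, e, hη]
    field_simp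
  exact (ENNReal.mul_le_mul_iff_right (by simpa using hq) ENNReal.ofReal_ne_top).1 hfin

end JacL

/-- the local Jacobian bound. -/
theorem jacL {d : ℕ} (hd : 2 ≤ d) (a b : E d) (ha : ‖a‖ = 1) (hb : ‖b‖ = 1) (h1 : b ≠ a)
    (h2 : b ≠ -a) : ∃ C : ℝ≥0∞, C ≠ ⊤ ∧ ∃ δ : ℝ, 0 < δ ∧ ∀ r : ℝ, 0 < r → r ≤ δ →
      ∀ N : Set (E d), MeasurableSet N →
      (sig d).prod (sig d) {z | z.1 ∈ ball a r ∧ z.2 ∈ ball b r ∧ z.1 + z.2 ∈ N} ≤
        C * ENNReal.ofReal (r ^ (d - 2)) * volume N := by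
  obtain ⟨C, hC, hcap⟩ := JacL.cap_up (d := d) (by omega)
  obtain ⟨C', δ, hC', hδ, hδ1, hslab⟩ := JacL.slab hd ha hb h1 h2
  set V := volume (ball (0 : E d) 1) with hV
  have hVt : V ≠ ⊤ := measure_ball_lt_top.ne
  have hV0 : V ≠ 0 := (measure_ball_pos _ _ one_pos).ne'
  have hCt : ENNReal.ofReal (C * C') * V⁻¹ ≠ ⊤ :=
    ENNReal.mul_ne_top ENNReal.ofReal_ne_top (ENNReal.inv_ne_top.2 hV0)
  refine ⟨ENNReal.ofReal (C * C') * V⁻¹, hCt, δ, hδ, fun r hr hrδ N hN => ?_⟩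
  have hadd : Measurable fun z : E d × E d => z.1 + z.2 := by fun_prop
  set μ : Measure (E d) :=
    (((sig d).prod (sig d)).restrict (ball a r ×ˢ ball b r)).map fun z => z.1 + z.2 with hμ
  have hμa : ∀ M : Set (E d), MeasurableSet M → μ M =
      (sig d).prod (sig d) {z | z.1 ∈ ball a r ∧ z.2 ∈ ball b r ∧ z.1 + z.2 ∈ M} := by
    intro M hM
    rw [hμ, Measure.map_apply hadd hM, Measure.restrict_apply (hadd hM)]
    congr 1
    ext z
    simp only [mem_inter_iff, mem_preimage, mem_prod, mem_ofPred_eq]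
    tauto
  rw [← hμa N hN]
  refine JacL.ball_test μ ?_ (ENNReal.mul_ne_top hCt ENNReal.ofReal_ne_top) hr ?_ N
  · refine mul_ne_zero (mul_ne_zero ?_ (ENNReal.inv_ne_zero.2 hVt)) ?_
    · simpa using mul_pos hC hC'
    · simpa using pow_pos hr _
  intro ε hε hεr h
  have hε1 : ε ≤ 1 := hεr.trans (hrδ.trans hδ1)
  have hTm : MeasurableSet
      {z : E d × E d | z.1 ∈ ball a r ∧ z.2 ∈ ball b r ∧ z.1 + z.2 ∈ ball h ε} :=
    (measurableSet_ball.preimage measurable_fst).inter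
      ((measurableSet_ball.preimage measurable_snd).inter (hadd measurableSet_ball))
  rw [hμa _ measurableSet_ball]
  by_cases hh : ‖h - (a + b)‖ ≤ 3 * r
  swap
  · have : {z : E d × E d | z.1 ∈ ball a r ∧ z.2 ∈ ball b r ∧ z.1 + z.2 ∈ ball h ε} = ∅ := by
      refine eq_empty_of_forall_notMem fun z hz => hh ?_
      have b1 := mem_ball_iff_norm.1 hz.1
      have b2 := mem_ball_iff_norm.1 hz.2.1
      have b3 := mem_ball_iff_norm'.1 hz.2.2
      have b4 := norm_add₃_le (a := h - (z.1 + z.2)) (b := z.1 - a) (c := z.2 - b)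
      have e : h - (z.1 + z.2) + (z.1 - a) + (z.2 - b) = h - (a + b) := by abel
      rw [e] at b4
      linarith
    rw [this, measure_empty]
    exact zero_le
  set S : Set (E d) := {m | m ∈ ball a r ∧ |⟪m, h⟫ - ‖h‖ ^ 2 / 2| ≤ 2 * ε} with hS
  have hSm : MeasurableSet S :=
    measurableSet_ball.inter (isClosed_le (f := fun m : E d => |⟪m, h⟫ - ‖h‖ ^ 2 / 2|)
      (g := fun _ => 2 * ε) (by fun_prop) continuous_const).measurableSet
  have h3 : (sig d).prod (sig d)
      {z : E d × E d | z.1 ∈ ball a r ∧ z.2 ∈ ball b r ∧ z.1 + z.2 ∈ ball h ε} ≤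
      ENNReal.ofReal (C * ε ^ (d - 1)) * sig d S := by
    rw [Measure.prod_apply hTm, ← lintegral_indicator_const hSm]
    refine lintegral_mono_ae ?_
    filter_upwards [sig_unit d (by omega)] with m hm
    by_cases hmS : m ∈ S
    · rw [indicator_of_mem hmS]
      refine le_trans (measure_mono fun n hn => ?_) (hcap (h - m) ε hε hε1)
      have b3 : ‖m + n - h‖ < ε := mem_ball_iff_norm.1 hn.2.2
      have e : n - (h - m) = m + n - h := by abel
      rw [mem_ball_iff_norm, e]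
      exact b3
    · rw [indicator_of_notMem hmS]
      have hnull : sig d {n : E d | ¬ ‖n‖ = 1} = 0 := ae_iff.1 (sig_unit d (by omega))
      refine le_of_eq (measure_mono_null ?_ hnull)
      intro n hn (hu : ‖n‖ = 1)
      refine hmS ⟨hn.1, ?_⟩
      have b3 : ‖m + n - h‖ < ε := mem_ball_iff_norm.1 hn.2.2
      have b4 := abs_norm_sub_norm_le n (h - m)
      have e : n - (h - m) = m + n - h := by abel
      rw [e, hu] at b4
      obtain ⟨b5, b6⟩ := abs_le.1 b4
      have b7 := norm_sub_sq_real h m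
      rw [hm, real_inner_comm] at b7
      have b8 := norm_nonneg (h - m)
      refine abs_le.2 ⟨?_, ?_⟩ <;> nlinarith
  refine h3.trans ?_
  refine le_trans (mul_le_mul_right (hslab r ε hr hrδ hε h _ hh) _) (le_of_eq ?_)
  rw [JacL.vol_ball _ hε, ← hV, ← ENNReal.ofReal_mul (by positivity)]
  have e : C * ε ^ (d - 1) * (C' * r ^ (d - 2) * ε) = C * C' * (r ^ (d - 2) * ε ^ d) := by
    have : ε ^ d = ε ^ (d - 1) * ε := by
      rw [← pow_succ]
      congr 1
      omega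
    rw [this]
    ring
  rw [e, ENNReal.ofReal_mul (by positivity), ENNReal.ofReal_mul (p := r ^ (d - 2)) (by positivity)]
  calc ENNReal.ofReal (C * C') * (ENNReal.ofReal (r ^ (d - 2)) * ENNReal.ofReal (ε ^ d))
      = ENNReal.ofReal (C * C') * (ENNReal.ofReal (r ^ (d - 2)) * ENNReal.ofReal (ε ^ d)) *
        (V⁻¹ * V) := by rw [ENNReal.inv_mul_cancel hV0 hVt, mul_one]
    _ = _ := by ring

/-- the local Jacobian bound in the form of the statement file. -/
theorem C.sJacL77 {d : ℕ} (hd : 2 ≤ d) : C.SJacL d := by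
  intro a b ha hb h1 h2
  obtain ⟨C, hC, δ, hδ, h⟩ := jacL hd a b ha hb h1 h2
  refine ⟨C.toReal, δ, ENNReal.toReal_nonneg, hδ, fun r hr hrδ N hN => ?_⟩
  rw [ENNReal.ofReal_mul ENNReal.toReal_nonneg, ENNReal.ofReal_toReal hC]
  exact h r hr hrδ N hN

end Pool.Agent.MP_66cee2_co.D
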