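import Pool.Agent.MP_66cee2_co.D.CFam
import Pool.Agent.MP_66cee2_co.D.H3Jac
import Pool.Agent.MP_66cee2_co.D.JacL
import Pool.Agent.MP_66cee2_co.D.CKit
import Pool.Agent.MP_66cee2_co.D.CCnt
import Pool.Agent.MP_66cee2_co.D.CQuad
import Pool.Agent.MP_66cee2_co.D.CChord
import Pool.Agent.MP_66cee2_co.D.CCntD
import Pool.Agent.MP_66cee2_co.D.CK
import Pool.Agent.MP_66cee2_co.D.COpen

/-
Flat fields give a family: assembly.
-/

namespace Pool.Agent.MP_66cee2_co.D

open C

theorem sFam : SFam := by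
  intro d n V hd hV
  have hK := sKit hd
  have hC := sCap hd
  exact sFamD hK (sCnt (sCntF hd) (sCntD hd (sJac hd) hC (sQuad hd (sArc hd)) (sChord hd)))
    (sOpen hd hK (sK hd (sJacL77 (by omega)) hC hK)) n V hV

end Pool.Agent.MP_66cee2_co.D
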