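import Pool.Agent.MP_66cee2_co.XI.Spec
import Pool.Agent.MP_66cee2_co.D.H58Div

/-
A vector of polynomials with values in a subspace of dimension at most `d` that is orthogonal
to another one on all unit pairs is orthogonal to it on all pairs.
-/

namespace Pool.Agent.MP_66cee2_co.D.H16

open MvPolynomial Pool.Agent.MP_66cee2_co.X Pool.Agent.MP_66cee2_co.XI

variable {d n : ℕ}

/-- the pairing as a polynomial in both points. -/
noncomputable def KP (Q Q' : Ix n → MP d) : MvPolynomial (Fin d ⊕ Fin d) ℝ :=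
  C 2 * ∑ i, rename Sum.inl (Q (Sum.inl i)) * rename Sum.inr (Q' (Sum.inl i)) +
    rename Sum.inl (Q (Sum.inr true)) * rename Sum.inr (Q' (Sum.inr false)) +
    rename Sum.inl (Q (Sum.inr false)) * rename Sum.inr (Q' (Sum.inr true))

theorem eval_KP (Q Q' : Ix n → MP d) (x y : Fin d → ℝ) :
    eval (Sum.elim x y) (KP Q Q') = lz (fun a => eval x (Q a)) fun a => eval y (Q' a) := by
  rw [lz_eq]
  simp only [KP, map_add, map_mul, map_sum, eval_C, eval_rename, Sum.elim_comp_inl,
    Sum.elim_comp_inr]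

theorem pd_inl (k : Fin d) (p : MP d) :
    pderiv (Sum.inr k : Fin d ⊕ Fin d) (rename Sum.inl p) = 0 := by
  induction p using MvPolynomial.induction_on with
  | C a => simp
  | add p q hp hq => rw [map_add, map_add, hp, hq, add_zero]
  | mul_X p j hp =>
    rw [map_mul, Derivation.leibniz, hp, rename_X, pderiv_X_of_ne (by simp)]
    simp

theorem pd_KP (Q Q' : Ix n → MP d) (k : Fin d) :
    pderiv (Sum.inr k) (KP Q Q') = KP Q fun a => pderiv k (Q' a) := by
  have h : ∀ p q : MP d, pderiv (Sum.inr k : Fin d ⊕ Fin d) (rename Sum.inl p * rename Sum.inr q) =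
      rename Sum.inl p * rename Sum.inr (pderiv k q) := fun p q => by
    rw [Derivation.leibniz, pd_inl, pderiv_rename Sum.inr_injective]
    simp
  simp only [KP, map_add, pderiv_C_mul, map_sum, h]

/-- the quadric of the unit pairs. -/
noncomputable def sq (d : ℕ) : MvPolynomial (Fin d ⊕ Fin d) ℝ :=
  1 - ∑ i, (X (Sum.inl i) - X (Sum.inr i)) ^ 2

theorem eval_sq (x y : Fin d → ℝ) : eval (Sum.elim x y) (sq d) = 1 - ∑ i, (x i - y i) ^ 2 := by
  simp [sq]

theorem eval_pd_sq (x y : Fin d → ℝ) (k : Fin d) :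
    eval (Sum.elim x y) (pderiv (Sum.inr k) (sq d)) = 2 * (x k - y k) := by
  have h : ∀ i : Fin d, eval (Sum.elim x y) (pderiv (Sum.inr k : Fin d ⊕ Fin d)
      ((X (Sum.inl i) - X (Sum.inr i)) ^ 2 : MvPolynomial (Fin d ⊕ Fin d) ℝ)) =
      if i = k then -(2 * (x k - y k)) else 0 := fun i => by
    rw [pow_two, Derivation.leibniz, map_sub, pderiv_X_of_ne (by simp)]
    split_ifs with e
    · subst e
      rw [pderiv_X_self]
      simp
      ring
    · rw [pderiv_X_of_ne (by simpa using e)]
      simp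
  rw [sq, map_sub, map_sum, map_sub, map_sum]
  simp only [h]
  simp

theorem dep (W : Submodule ℝ (Ix n → ℝ)) (hW : Module.finrank ℝ W ≤ d)
    (v : Option (Fin d) → Ix n → ℝ) :
    ∃ g : Option (Fin d) → ℝ, (∃ i, g i ≠ 0) ∧ ∀ w ∈ W, ∑ i, g i * lz w (v i) = 0 := by
  let φ : Option (Fin d) → Module.Dual ℝ W := fun i =>
    { toFun := fun w => lz w.1 (v i)
      map_add' := fun a b => by simp [lz, add_dotProduct]
      map_smul' := fun c a => by simp [lz, smul_dotProduct] }
  have h : ¬ LinearIndependent ℝ φ := fun h => by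
    have := h.fintype_card_le_finrank
    rw [Subspace.dual_finrank_eq] at this
    simp at this
    omega
  obtain ⟨g, hg, hi⟩ := Fintype.not_linearIndependent_iff.1 h
  refine ⟨g, hi, fun w hw => ?_⟩
  have := congrArg (fun f : Module.Dual ℝ W => f ⟨w, hw⟩) hg
  simpa [φ, LinearMap.sum_apply] using this

theorem cancel (y : Fin d → ℝ) (m : ℕ) (B : MvPolynomial (Fin d ⊕ Fin d) ℝ)
    (h : ∀ x, eval (Sum.elim x y) (sq d ^ m * B) = 0) (x : Fin d → ℝ) :
    eval (Sum.elim x y) B = 0 := by
  let φ : MvPolynomial (Fin d ⊕ Fin d) ℝ →ₐ[ℝ] MP d := aeval (Sum.elim X fun i => C (y i))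
  have e : ∀ (p : MvPolynomial (Fin d ⊕ Fin d) ℝ) (x : Fin d → ℝ),
      eval x (φ p) = eval (Sum.elim x y) p := fun p x => by
    induction p using MvPolynomial.induction_on with
    | C a => simp [φ]
    | add p q hp hq => rw [map_add, map_add, map_add, hp, hq]
    | mul_X p j hp =>
      rw [map_mul, map_mul, map_mul, hp]
      cases j <;> simp [φ]
  have h0 : φ (sq d) ≠ 0 := fun z => by
    have := e (sq d) y
    rw [z, eval_sq] at this
    simp at this
  have h1 : φ (sq d ^ m * B) = 0 := MvPolynomial.funext fun x => by rw [e, h, map_zero]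
  rw [map_mul, map_pow] at h1
  rw [← e, (mul_eq_zero.1 h1).resolve_left (pow_ne_zero _ h0), map_zero]

theorem dens (y c : Fin d → ℝ) (hc : ∃ k, c k ≠ 0) (L : MvPolynomial (Fin d ⊕ Fin d) ℝ)
    (h : ∀ x, ∑ i, (x i - y i) ^ 2 = 1 → ∑ i, c i * (x i - y i) ≠ 0 → eval (Sum.elim x y) L = 0)
    (x : Fin d → ℝ) (hx : ∑ i, (x i - y i) ^ 2 = 1) : eval (Sum.elim x y) L = 0 := by
  by_cases h0 : ∑ i, c i * (x i - y i) = 0
  swap
  · exact h x hx h0
  obtain ⟨k, hk⟩ := hc
  have hp : 0 < ∑ i, c i ^ 2 :=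
    Finset.sum_pos' (fun i _ => sq_nonneg _) ⟨k, Finset.mem_univ _, by positivity⟩
  set N := ∑ i, c i ^ 2 with hN
  have hr : ∀ t : ℝ, 0 < √(1 + t ^ 2 * N) := fun t => Real.sqrt_pos.2 (by positivity)
  let γ : ℝ → Fin d → ℝ := fun t i => y i + (x i - y i + t * c i) / √(1 + t ^ 2 * N)
  have hγ : Continuous fun t => eval (Sum.elim (γ t) y) L := by
    refine (MvPolynomial.continuous_eval L).comp (continuous_pi fun j => ?_)
    cases j with
    | inl i =>
      exact continuous_const.add (Continuous.div (by fun_prop) (by fun_prop) fun t => (hr t).ne')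
    | inr i => exact continuous_const
  have hz : ∀ t ∈ ({0}ᶜ : Set ℝ), eval (Sum.elim (γ t) y) L = 0 := fun t ht => by
    have e1 : ∑ i, (x i - y i + t * c i) ^ 2 = 1 + t ^ 2 * N := by
      have : ∀ i, (x i - y i + t * c i) ^ 2 =
          (x i - y i) ^ 2 + 2 * t * (c i * (x i - y i)) + t ^ 2 * c i ^ 2 := fun i => by ring
      simp only [this, Finset.sum_add_distrib, ← Finset.mul_sum, hx, h0, ← hN]
      ring
    have e2 : ∑ i, c i * (x i - y i + t * c i) = t * N := by
      have : ∀ i, c i * (x i - y i + t * c i) = c i * (x i - y i) + t * c i ^ 2 := fun i => by ring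
      simp only [this, Finset.sum_add_distrib, ← Finset.mul_sum, h0, ← hN]
      ring
    refine h _ ?_ ?_
    · simp only [γ, add_sub_cancel_left, div_pow, ← Finset.sum_div, e1]
      rw [Real.sq_sqrt (by positivity), div_self (by positivity)]
    · simp only [γ, add_sub_cancel_left, ← mul_div_assoc, ← Finset.sum_div, e2]
      exact div_ne_zero (mul_ne_zero ht hp.ne') (hr t).ne'
  have := congrFun (Continuous.ext_on (dense_compl_singleton (0 : ℝ)) hγ continuous_const hz) 0
  have e : γ 0 = x := by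
    funext i
    simp [γ]
  rwa [e] at this

theorem kp_zero (hd : 1 ≤ d) (Q Q' : Ix n → MP d) (W : Submodule ℝ (Ix n → ℝ))
    (hW : Module.finrank ℝ W ≤ d) (hQ : ∀ x : Fin d → ℝ, (fun a => eval x (Q a)) ∈ W)
    (hE : ∀ x y : Fin d → ℝ, ∑ i, (x i - y i) ^ 2 = 1 → eval (Sum.elim x y) (KP Q Q') = 0) :
    KP Q Q' = 0 := by
  by_contra hK
  have hu : ¬ IsUnit (sq d) := fun h => by
    have := (h.map (eval (Sum.elim (Pi.single (⟨0, hd⟩ : Fin d) (1 : ℝ)) 0))).ne_zero
    rw [eval_sq] at this
    refine this ?_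
    rw [Finset.sum_eq_single (⟨0, hd⟩ : Fin d) (fun b _ hb => by simp [Pi.single_eq_of_ne hb])
      (by simp)]
    simp
  obtain ⟨M, L, hL, e⟩ := WfDvdMonoid.max_power_factor' hK hu
  refine hL (H58.sphere_dvd hd L fun x y hxy => ?_)
  cases M with
  | zero => simpa [e] using hE x y hxy
  | succ m =>
    obtain ⟨g, hg, h⟩ := dep W hW fun i => i.elim (fun a => eval y (Q' a))
      fun k a => eval y (pderiv k (Q' a))
    have hB := cancel y m (C (g none) * (sq d * L) + ∑ k, C (g (some k)) *
      (C (m + 1 : ℝ) * pderiv (Sum.inr k) (sq d) * L + sq d * pderiv (Sum.inr k) L)) fun x => by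
      have h1 := h _ (hQ x)
      rw [Fintype.sum_option] at h1
      simp only [Option.elim, ← eval_KP, ← pd_KP, e] at h1
      rw [← h1]
      simp only [Derivation.leibniz, Derivation.leibniz_pow, smul_eq_mul, nsmul_eq_mul, map_add,
        map_mul, map_sum, map_pow, eval_C, map_natCast, mul_add, Finset.mul_sum,
        Nat.add_sub_cancel]
      congr 1
      · ring
      · refine Finset.sum_congr rfl fun k _ => ?_
        push_cast
        ring
    by_cases hc : ∃ k, g (some k) ≠ 0
    · refine dens y (fun k => g (some k)) hc L (fun x hx h0 => ?_) x hxy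
      have h1 := hB x
      simp only [map_add, map_mul, map_sum, eval_C, eval_pd_sq, eval_sq, hx, sub_self, zero_mul,
        mul_zero, add_zero, zero_add] at h1
      have h2 : (2 * (m + 1 : ℝ) * ∑ k, g (some k) * (x k - y k)) * eval (Sum.elim x y) L = 0 := by
        rw [← h1, Finset.mul_sum, Finset.sum_mul]
        exact Finset.sum_congr rfl fun k _ => by ring
      exact (mul_eq_zero.1 h2).resolve_left (mul_ne_zero (by positivity) h0)
    · push Not at hc
      have g0 : g none ≠ 0 := by
        obtain ⟨i, hi⟩ := hg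
        cases i with
        | none => exact hi
        | some k => exact absurd (hc k) hi
      refine cancel y 1 L (fun x => ?_) x
      have h1 := hB x
      simp only [hc, map_zero, zero_mul, Finset.sum_const_zero, add_zero, map_mul, eval_C] at h1
      rw [pow_one, map_mul]
      exact (mul_eq_zero.1 h1).resolve_left g0

theorem a2 (hd : 1 ≤ d) (Q Q' : Ix n → MP d) (W : Submodule ℝ (Ix n → ℝ))
    (hW : Module.finrank ℝ W ≤ d) (hQ : ∀ z, evv Q z ∈ W) (hE : EdgeId Q Q') :
    ∀ z z', lz (evv Q z) (evv Q' z') = 0 := by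
  intro z z'
  have h := kp_zero hd Q Q' W hW (fun x => hQ (WithLp.toLp 2 x)) fun x y hxy => by
    rw [eval_KP]
    have h1 := hE (WithLp.toLp 2 x) (WithLp.toLp 2 y - WithLp.toLp 2 x) (by
      rw [norm_sub_rev, EuclideanSpace.norm_eq, Real.sqrt_eq_one, ← hxy]
      exact Finset.sum_congr rfl fun i _ => by simp)
    rw [add_sub_cancel] at h1
    exact h1
  have h1 := eval_KP Q Q' (fun i => z i) fun i => z' i
  rw [h, map_zero] at h1
  exact h1.symm

end Pool.Agent.MP_66cee2_co.D.H16
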