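import Pool.Agent.MP_66cee2_co.D.SpecC
import Pool.Agent.MP_66cee2_co.D.H3Band

/-
The lower bound for caps and the density of the sum of two unit vectors.
-/

namespace Pool.Agent.MP_66cee2_co.D.C

open MeasureTheory Set Filter Metric Topology Pool.Agent.MP_66cee2_co.X
open scoped ENNReal RealInnerProductSpace

namespace H19

variable {k : ℕ}

/-- the map that scales the first coordinate by `α` and the others by `β`. -/
noncomputable def Dg (k : ℕ) (α β : ℝ) : E (k + 1) →ₗ[ℝ] E (k + 1) :=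
  Matrix.toLpLin 2 2 (Matrix.diagonal (Fin.cons α fun _ : Fin k => β : Fin (k + 1) → ℝ))

/-- the sum of the squares of the other coordinates. -/
def Q (z : E (k + 1)) : ℝ := ∑ i : Fin k, z i.succ ^ 2

/-- the first basis vector. -/
noncomputable def e0 (k : ℕ) : E (k + 1) := EuclideanSpace.single 0 1

theorem Dg_zero (α β : ℝ) (z : E (k + 1)) : Dg k α β z 0 = α * z 0 := by
  simp [Dg, Matrix.toLpLin_apply, Matrix.mulVec_diagonal]

theorem Dg_succ (α β : ℝ) (z : E (k + 1)) (i : Fin k) : Dg k α β z i.succ = β * z i.succ := by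
  simp [Dg, Matrix.toLpLin_apply, Matrix.mulVec_diagonal]

theorem Q_Dg (α β : ℝ) (z : E (k + 1)) : Q (Dg k α β z) = β ^ 2 * Q z := by
  simp only [Q, Dg_succ, Finset.mul_sum, mul_pow]

theorem Q_nonneg (z : E (k + 1)) : 0 ≤ Q z := Finset.sum_nonneg fun _ _ => sq_nonneg _

theorem nsq (z : E (k + 1)) : ‖z‖ ^ 2 = z 0 ^ 2 + Q z := by
  rw [EuclideanSpace.real_norm_sq_eq, Fin.sum_univ_succ, Q]

theorem Q_smul (c : ℝ) (z : E (k + 1)) : Q (c • z) = c ^ 2 * Q z := by
  simp only [Q, PiLp.smul_apply, smul_eq_mul, Finset.mul_sum, mul_pow]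

theorem Q_sub (c : ℝ) (z : E (k + 1)) : Q (z - c • e0 k) = Q z := by
  simp [Q, e0]

theorem e0_norm : ‖e0 k‖ = 1 := by simp [e0]

theorem e0_zero : e0 k 0 = 1 := by simp [e0]

theorem inner_e0 (z : E (k + 1)) : ⟪z, e0 k⟫ = z 0 := by
  simp [e0, EuclideanSpace.inner_single_right]

theorem vol_Dg {α β : ℝ} (hα : 0 < α) (hβ : 0 < β) (s : Set (E (k + 1))) :
    volume (Dg k α⁻¹ β⁻¹ ⁻¹' s) = ENNReal.ofReal (α * β ^ k) * volume s := by
  have hd : LinearMap.det (Dg k α⁻¹ β⁻¹) = (α * β ^ k)⁻¹ := by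
    rw [Dg, LinearMap.det_toLpLin, Matrix.det_diagonal, Fin.prod_univ_succ]
    simp [mul_comm]
  have hp : 0 < α * β ^ k := by positivity
  rw [Measure.addHaar_preimage_linearMap _ (by rw [hd]; positivity), hd, inv_inv, abs_of_pos hp]

theorem rot (a : E (k + 1)) (ha : ‖a‖ = 1) :
    ∃ A : E (k + 1) ≃ₗᵢ[ℝ] E (k + 1), A (e0 k) = a :=
  ⟨_, Submodule.reflection_sub (by rw [e0_norm, ha])⟩

theorem sig_pre (A : E (k + 1) ≃ₗᵢ[ℝ] E (k + 1)) {s : Set (E (k + 1))} (hs : MeasurableSet s) :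
    sig (k + 1) s = sig (k + 1) (A ⁻¹' s) := by
  rw [← Measure.map_apply A.continuous.measurable hs, sig_inv]

theorem cap_ge0 {r : ℝ} (hr : 0 < r) (hr1 : r ≤ 1) :
    ENNReal.ofReal (r ^ k) * volume (ball ((1 / 2 : ℝ) • e0 k) (1 / 8)) ≤
      sig (k + 1) (ball (e0 k) r) := by
  rw [sig_apply measurableSet_ball, ← one_mul (r ^ k), ← vol_Dg one_pos hr]
  refine measure_mono fun z hz => ?_
  rw [mem_preimage, mem_ball, dist_eq_norm] at hz
  have h1 := nsq (Dg k 1⁻¹ r⁻¹ z - (1 / 2 : ℝ) • e0 k)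
  rw [Q_sub, Q_Dg, PiLp.sub_apply, Dg_zero, PiLp.smul_apply, e0_zero] at h1
  have h2 : ‖Dg k 1⁻¹ r⁻¹ z - (1 / 2 : ℝ) • e0 k‖ ^ 2 < (1 / 8) ^ 2 := by gcongr
  rw [h1, inv_one, one_mul, smul_eq_mul, mul_one] at h2
  have h3 := Q_nonneg z
  have h4 : 0 ≤ r⁻¹ ^ 2 * Q z := by positivity
  have h5 : Q z < r ^ 2 / 64 := by
    have : r⁻¹ ^ 2 * Q z < 1 / 64 := by nlinarith [sq_nonneg (z 0 - 1 / 2)]
    rw [inv_pow, inv_mul_lt_iff₀ (by positivity)] at this
    linarith
  have h6 : 3 / 8 < z 0 := by nlinarith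
  have h7 : z 0 < 5 / 8 := by nlinarith
  have h8 := nsq z
  have hz0 := norm_nonneg z
  have h9 : z 0 ≤ ‖z‖ := by nlinarith
  have hp : 0 < ‖z‖ := by linarith
  refine ⟨?_, ?_⟩
  · rw [mem_preimage, mem_ball, dist_eq_norm]
    refine lt_of_pow_lt_pow_left₀ 2 hr.le ?_
    rw [norm_sub_sq_real, inner_e0, e0_norm, norm_smul, norm_inv, norm_norm,
      inv_mul_cancel₀ hp.ne', PiLp.smul_apply, smul_eq_mul]
    have h10 : ‖z‖ - z 0 < r ^ 2 / 2 * ‖z‖ := by
      have h11 : (‖z‖ - z 0) * (3 / 4) ≤ Q z := by nlinarith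
      have : 0 < r ^ 2 := by positivity
      nlinarith
    have h12 : 1 - ‖z‖⁻¹ * z 0 < r ^ 2 / 2 := by
      rw [← mul_lt_mul_iff_left₀ hp]
      calc (1 - ‖z‖⁻¹ * z 0) * ‖z‖ = ‖z‖ - z 0 := by field_simp
        _ < _ := h10
    linarith
  · rw [mem_ball_zero_iff]
    refine lt_of_pow_lt_pow_left₀ 2 zero_le_one ?_
    nlinarith

/-- the lower bound for caps. -/
theorem cap (d : ℕ) (hd : 1 ≤ d) : ∃ c : ℝ, 0 < c ∧ ∀ (a : E d) (r : ℝ), ‖a‖ = 1 → 0 < r → r ≤ 1 →
    ENNReal.ofReal (c * r ^ (d - 1)) ≤ sig d (ball a r) := by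
  obtain ⟨k, rfl⟩ : ∃ k, d = k + 1 := ⟨d - 1, by omega⟩
  have h0 := measure_ball_pos (volume : Measure (E (k + 1))) ((1 / 2 : ℝ) • e0 k)
    (by norm_num : (0 : ℝ) < 1 / 8)
  have h1 : volume (ball ((1 / 2 : ℝ) • e0 k) (1 / 8)) ≠ ⊤ := measure_ball_lt_top.ne
  refine ⟨_, ENNReal.toReal_pos h0.ne' h1, fun a r ha hr hr1 => ?_⟩
  obtain ⟨A, rfl⟩ := rot a ha
  rw [sig_pre A measurableSet_ball, ENNReal.ofReal_mul ENNReal.toReal_nonneg,
    ENNReal.ofReal_toReal h1, mul_comm, Nat.add_sub_cancel]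
  refine (cap_ge0 hr hr1).trans (measure_mono fun z hz => ?_)
  rwa [mem_preimage, mem_ball, A.dist_map]

theorem near {d : ℕ} {n n' h : E d} {r : ℝ} (hn : ‖n‖ = 1) (hn' : ‖n'‖ = 1) (hh : 0 < ‖h‖)
    (hr1 : r ≤ 1) (hb : n + n' ∈ closedBall h r) :
    |⟪n, ‖h‖⁻¹ • h⟫ - ‖h‖ / 2| ≤ 2 * r / ‖h‖ := by
  rw [mem_closedBall, dist_eq_norm] at hb
  have hr : 0 ≤ r := (norm_nonneg _).trans hb
  have h1 : |‖n'‖ - ‖h - n‖| ≤ r := (abs_norm_sub_norm_le _ _).trans (by
    rwa [show n' - (h - n) = n + n' - h by abel])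
  rw [hn', abs_le] at h1
  have h2 := norm_sub_sq_real h n
  rw [hn, real_inner_comm] at h2
  have h3 := norm_nonneg (h - n)
  have e : ⟪n, ‖h‖⁻¹ • h⟫ - ‖h‖ / 2 = (⟪n, h⟫ - ‖h‖ ^ 2 / 2) / ‖h‖ := by
    rw [real_inner_smul_right]
    field_simp
  rw [e, abs_div, abs_of_pos hh]
  refine div_le_div_of_nonneg_right (abs_le.2 ⟨?_, ?_⟩) hh.le <;> nlinarith

theorem pairs {d : ℕ} (hd : 3 ≤ d) : ∃ C : ℝ, 0 < C ∧ ∀ (h : E d) (r : ℝ), 0 < ‖h‖ → 0 < r →
    r ≤ 1 → 2 * r ≤ ‖h‖ → (sig d).prod (sig d) {z | z.1 + z.2 ∈ closedBall h r} ≤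
      ENNReal.ofReal (C * r ^ d / ‖h‖) := by
  obtain ⟨C1, hC1, h1⟩ := band hd
  obtain ⟨C2, hC2, h2⟩ := capU (d := d) (by omega)
  have : IsFiniteMeasure (sig d) := ⟨(H3.sig_fin _).lt_top⟩
  refine ⟨C1 * C2 * 2, by positivity, fun h r hh hr hr1 hrh => ?_⟩
  have hm : MeasurableSet {z : E d × E d | z.1 + z.2 ∈ closedBall h r} :=
    (measurable_fst.add measurable_snd) measurableSet_closedBall
  have hB : MeasurableSet {n : E d | |⟪n, ‖h‖⁻¹ • h⟫ - ‖h‖ / 2| ≤ 2 * r / ‖h‖} :=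
    measurableSet_le (by fun_prop) measurable_const
  have hu : ‖‖h‖⁻¹ • h‖ = 1 := by rw [norm_smul, norm_inv, norm_norm, inv_mul_cancel₀ hh.ne']
  rw [Measure.prod_apply hm]
  calc _ ≤ ∫⁻ n, {n : E d | |⟪n, ‖h‖⁻¹ • h⟫ - ‖h‖ / 2| ≤ 2 * r / ‖h‖}.indicator
        (fun _ => ENNReal.ofReal (C2 * r ^ (d - 1))) n ∂sig d := by
        refine lintegral_mono_ae ?_
        filter_upwards [sig_unit d (by omega)] with n hn
        by_cases hb : n ∈ {n : E d | |⟪n, ‖h‖⁻¹ • h⟫ - ‖h‖ / 2| ≤ 2 * r / ‖h‖}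
        · rw [indicator_of_mem hb]
          have hsub : Prod.mk n ⁻¹' {z : E d × E d | z.1 + z.2 ∈ closedBall h r} ⊆
              closedBall (h - n) r := fun n' hn' => by
            have hn'' : n + n' ∈ closedBall h r := hn'
            rw [mem_closedBall, dist_eq_norm] at hn'' ⊢
            rwa [show n' - (h - n) = n + n' - h by abel]
          exact (measure_mono hsub).trans (h2 (h - n) r hr)
        · rw [indicator_of_notMem hb]
          have hsub : Prod.mk n ⁻¹' {z : E d × E d | z.1 + z.2 ∈ closedBall h r} ⊆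
              {ω : E d | ¬ ‖ω‖ = 1} := fun n' hn' h1 => hb (near hn h1 hh hr1 hn')
          exact (measure_mono_null hsub (ae_iff.1 (sig_unit d (by omega)))).le
    _ = ENNReal.ofReal (C2 * r ^ (d - 1)) *
        sig d {n : E d | |⟪n, ‖h‖⁻¹ • h⟫ - ‖h‖ / 2| ≤ 2 * r / ‖h‖} := by
        rw [lintegral_indicator_const hB]
    _ ≤ ENNReal.ofReal (C2 * r ^ (d - 1)) * ENNReal.ofReal (C1 * (2 * r / ‖h‖)) :=
        mul_le_mul_right (h1 _ _ _ hu (by positivity) ((div_le_one hh).2 hrh)) _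
    _ = _ := by
        rw [← ENNReal.ofReal_mul (by positivity)]
        congr 1
        obtain ⟨k, rfl⟩ : ∃ k, d = k + 1 := ⟨d - 1, by omega⟩
        rw [Nat.add_sub_cancel]
        ring

end H19

open H19

theorem sCap {d : ℕ} (hd : 3 ≤ d) : SCap d := cap d (by omega)

theorem sJac {d : ℕ} (hd : 3 ≤ d) : SJac d := by
  obtain ⟨C, hC, h1⟩ := pairs hd
  have : IsFiniteMeasure (sig d) := ⟨(H3.sig_fin _).lt_top⟩
  have hs : Measurable fun z : E d × E d => z.1 + z.2 := measurable_fst.add measurable_snd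
  have hw : Measurable fun z : E d × E d => ENNReal.ofReal ‖z.1 + z.2‖ :=
    ENNReal.measurable_ofReal.comp hs.norm
  set μ : Measure (E d) := (((sig d).prod (sig d)).withDensity
    fun z => ENNReal.ofReal ‖z.1 + z.2‖).map fun z => z.1 + z.2 with hμ
  have hap : ∀ N : Set (E d), MeasurableSet N → μ N = ∫⁻ z : E d × E d,
      N.indicator 1 (z.1 + z.2) * ENNReal.ofReal ‖z.1 + z.2‖ ∂(sig d).prod (sig d) := by
    intro N hN
    rw [hμ, Measure.map_apply hs hN, withDensity_apply _ (hs hN), ← lintegral_indicator (hs hN)]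
    refine lintegral_congr fun z => ?_
    by_cases hz : z.1 + z.2 ∈ N
    · rw [indicator_of_mem (by exact hz), indicator_of_mem hz, Pi.one_apply, one_mul]
    · rw [indicator_of_notMem (by exact hz), indicator_of_notMem hz, zero_mul]
  have hV0 := (measure_ball_pos (volume : Measure (E d)) 0 one_pos).ne'
  have hV1 : volume (ball (0 : E d) 1) ≠ ⊤ := measure_ball_lt_top.ne
  have hK : ENNReal.ofReal (2 * C) * (volume (ball (0 : E d) 1))⁻¹ ≠ ⊤ :=
    ENNReal.mul_ne_top ENNReal.ofReal_ne_top (ENNReal.inv_ne_top.2 hV0)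
  refine ⟨_, hK, fun N hN => ?_⟩
  lift ENNReal.ofReal (2 * C) * (volume (ball (0 : E d) 1))⁻¹ to NNReal using hK with K hK'
  have hN' : MeasurableSet (N \ {0}) := hN.diff (measurableSet_singleton 0)
  have h2 := (Besicovitch.vitaliFamily μ).measure_le_of_frequently_le (K • volume)
    (Measure.AbsolutelyContinuous.refl μ) (N \ {0}) fun h hh => by
      have hh0 : 0 < ‖h‖ := norm_pos_iff.2 hh.2
      refine (Besicovitch.tendsto_filterAt μ h).frequently (Eventually.frequently ?_)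
      filter_upwards [Ioo_mem_nhdsGT (lt_min one_pos (half_pos hh0))] with r hr
      have hr1 : r ≤ 1 := (hr.2.trans_le (min_le_left _ _)).le
      have hr2 : 2 * r ≤ ‖h‖ := by linarith [hr.2.trans_le (min_le_right _ _)]
      have hm : MeasurableSet {z : E d × E d | z.1 + z.2 ∈ closedBall h r} :=
        hs measurableSet_closedBall
      rw [hap _ measurableSet_closedBall, Measure.smul_apply,
        Measure.addHaar_closedBall _ _ hr.1.le, finrank_euclideanSpace_fin]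
      calc _ ≤ ∫⁻ z, {z : E d × E d | z.1 + z.2 ∈ closedBall h r}.indicator
            (fun _ => ENNReal.ofReal (2 * ‖h‖)) z ∂(sig d).prod (sig d) := by
            refine lintegral_mono fun z => ?_
            by_cases hz : z.1 + z.2 ∈ closedBall h r
            · rw [indicator_of_mem hz, indicator_of_mem (by exact hz), Pi.one_apply, one_mul]
              rw [mem_closedBall, dist_eq_norm] at hz
              refine ENNReal.ofReal_le_ofReal ?_
              linarith [norm_sub_norm_le (z.1 + z.2) h, hr.1]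
            · rw [indicator_of_notMem hz, zero_mul]
              exact zero_le
        _ ≤ ENNReal.ofReal (2 * ‖h‖) * ENNReal.ofReal (C * r ^ d / ‖h‖) := by
            rw [lintegral_indicator_const hm]
            exact mul_le_mul_right (h1 h r hh0 hr.1 hr1 hr2) _
        _ = _ := by
            rw [ENNReal.smul_def, smul_eq_mul, hK', mul_comm (ENNReal.ofReal (r ^ d)), mul_assoc,
              ← mul_assoc _ (volume _), ENNReal.inv_mul_cancel hV0 hV1, one_mul,
              ← ENNReal.ofReal_mul (by positivity), ← ENNReal.ofReal_mul (by positivity)]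
            congr 1
            field_simp
  rw [hap _ hN', Measure.smul_apply, ENNReal.smul_def, smul_eq_mul] at h2
  refine le_trans (le_of_eq (lintegral_congr fun z => ?_))
    (h2.trans (mul_le_mul_right (measure_mono sdiff_subset) _))
  by_cases hz : z.1 + z.2 = 0
  · simp [hz]
  · by_cases hz' : z.1 + z.2 ∈ N
    · rw [indicator_of_mem hz', indicator_of_mem (show z.1 + z.2 ∈ N \ {0} from ⟨hz', hz⟩)]
    · rw [indicator_of_notMem hz', indicator_of_notMem fun h => hz' h.1]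

end Pool.Agent.MP_66cee2_co.D.C
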