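import Pool.Agent.MP_66cee2_co.D.SpecX

/-! The chain of means of a positive definite function is continuous at generic points. -/

namespace Pool.Agent.MP_66cee2_co.D.TX

open Pool.Agent.MP_66cee2_co.XT (Eu Bd Mean)

namespace H65Rpdx

variable {d : ℕ}

theorem rt_other (i j k : Fin d) (c : U1) (v : Fin d → KR) (hi : k ≠ i) (hj : k ≠ j) :
    Rt i j c v k = v k := by
  simp only [Rt, if_neg hi, if_neg hj]

theorem rt_fix (i j : Fin d) (c : U1) (v : Fin d → KR) (hi : v i = 0) (hj : v j = 0) :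
    Rt i j c v = v := by
  funext k
  unfold Rt
  by_cases h1 : k = i
  · rw [if_pos h1, hi, hj, h1, hi]; ring
  · rw [if_neg h1]
    by_cases h2 : k = j
    · rw [if_pos h2, hi, hj, h2, hj]; ring
    · rw [if_neg h2]

theorem mod_of {g h : (Fin d → KR) → ℝ} {i : Fin d} (hle : ∀ s, g 0 - g s ≤ h 0 - h s)
    (hm : Mod h i) : Mod g i := by
  intro ε hε
  obtain ⟨δ, hδ, H⟩ := hm ε hε
  exact ⟨δ, hδ, fun q hq => (hle _).trans (H q hq)⟩

theorem ind (h1 : RowSTEP) (h2 : RowMPD) (M : (U1 → ℝ) → ℝ) (φ : (Fin d → KR) → ℝ) (hM : Mean M)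
    (hφ : PDr φ) : ∀ (j : ℕ) (hj : j + 1 < d), ∃ h : (Fin d → KR) → ℝ, PDr h ∧
      (∀ c v, h (Rt ⟨j, by omega⟩ ⟨j + 1, hj⟩ c v) = h v) ∧
      (∀ i : Fin d, i.val < j → Mod h i) ∧
      ∀ v : Fin d → KR, (∀ i : Fin d, i.val < j → IsQ (v i) ∧ v i ≠ 0) →
        Ch M (j + 1) (fun A => φ (A v)) = h v := by
  obtain ⟨m1, m2, m3⟩ := h2 M hM
  intro j
  induction j with
  | zero =>
    intro hj
    have hne : (⟨0, by omega⟩ : Fin d) ≠ ⟨0 + 1, hj⟩ := by
      intro e; exact absurd (congrArg Fin.val e) (by simp)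
    obtain ⟨-, a2, a3⟩ := m1 d _ _ φ hne hφ
    refine ⟨_, a2, a3, fun i hi => absurd hi (by omega), fun v _ => ?_⟩
    simp only [Ch, Function.comp, id, Rj, dif_pos hj]
  | succ j ih =>
    intro hj
    have hj' : j + 1 < d := by omega
    obtain ⟨h, b1, b2, b3, b4⟩ := ih hj'
    have hne : (⟨j, by omega⟩ : Fin d) ≠ ⟨j + 1, hj'⟩ := by
      intro e; exact absurd (congrArg Fin.val e) (by simp)
    have hne' : (⟨j + 1, hj'⟩ : Fin d) ≠ ⟨j + 1 + 1, hj⟩ := by
      intro e; exact absurd (congrArg Fin.val e) (by simp)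
    have hne'' : (⟨j + 1 + 1, hj⟩ : Fin d) ≠ ⟨j, by omega⟩ := by
      intro e
      have := congrArg Fin.val e
      simp only at this
      omega
    obtain ⟨g, g1, g2, g3, -, -, g6⟩ := h1 d _ _ h hne b1 b2
    obtain ⟨a1, a2, a3⟩ := m1 d _ _ g hne' g1
    obtain ⟨a0, -, -⟩ := m1 d _ _ h hne' b1
    refine ⟨_, a2, a3, fun i hi => ?_, fun v hv => ?_⟩
    · have hg : Mod g i := by
        rcases Nat.lt_succ_iff_lt_or_eq.1 hi with hi' | hi'
        · exact mod_of g2 (b3 i hi')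
        · have : i = ⟨j, by omega⟩ := Fin.ext hi'
          rw [this]; exact g3
      intro ε hε
      obtain ⟨δ, hδ, H⟩ := hg ε hε
      refine ⟨δ, hδ, fun q hq => ?_⟩
      have n1 : (⟨j + 1, hj'⟩ : Fin d) ≠ i := by
        intro e
        have := congrArg Fin.val e
        simp only at this
        omega
      have n2 : (⟨j + 1 + 1, hj⟩ : Fin d) ≠ i := by
        intro e
        have := congrArg Fin.val e
        simp only at this
        omega
      have e1 : ∀ c, Rt (⟨j + 1, hj'⟩ : Fin d) ⟨j + 1 + 1, hj⟩ c 0 = 0 := fun c =>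
        rt_fix _ _ c _ rfl rfl
      have e2 : ∀ c, Rt (⟨j + 1, hj'⟩ : Fin d) ⟨j + 1 + 1, hj⟩ c (Pi.single i (q : KR)) =
          Pi.single i (q : KR) := fun c =>
        rt_fix _ _ c _ (Pi.single_eq_of_ne n1 _) (Pi.single_eq_of_ne n2 _)
      simp only [e1, e2, hM.const]
      exact H q hq
    · have key : ∀ (c : U1) (i : Fin d), i.val < j + 1 →
          Rt (⟨j + 1, hj'⟩ : Fin d) ⟨j + 1 + 1, hj⟩ c v i = v i := fun c i hi =>
        rt_other _ _ _ c v
          (fun e => by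
            have := congrArg Fin.val e
            simp only at this
            omega)
          (fun e => by
            have := congrArg Fin.val e
            simp only at this
            omega)
      have e0 : Ch M (j + 1 + 1) (fun A => φ (A v)) =
          M fun c => h (Rt ⟨j + 1, hj'⟩ ⟨j + 1 + 1, hj⟩ c v) := by
        rw [Ch]
        refine congrArg M (funext fun c => ?_)
        rw [← b4 _ fun i hi => by
          rw [key c i (by omega)]; exact hv i (by omega)]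
        simp only [Function.comp, Rj, dif_pos hj]
      have bw : Bd fun c => h (Rt ⟨j + 1, hj'⟩ ⟨j + 1 + 1, hj⟩ c v) -
          g (Rt ⟨j + 1, hj'⟩ ⟨j + 1 + 1, hj⟩ c v) :=
        ⟨h 0 + g 0, fun c => (abs_sub _ _).trans (add_le_add (a0 _) (a1 _))⟩
      have e1 := m3 _ (2 * h 0) bw fun c₀ S hS => by
        simp only [m2 d _ _ _ c₀ v hne']
        have hk := key c₀ ⟨j, by omega⟩ (Nat.lt_succ_self j)
        have hq := hv ⟨j, by omega⟩ (Nat.lt_succ_self j)
        exact g6 _ hne'' hne'.symm _ (by rw [hk]; exact hq.1) (by rw [hk]; exact hq.2) S hS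
      have e2 := hM.add _ _ (⟨g 0, fun c => a1 (Rt ⟨j + 1, hj'⟩ ⟨j + 1 + 1, hj⟩ c v)⟩ :
        Bd fun c => g (Rt ⟨j + 1, hj'⟩ ⟨j + 1 + 1, hj⟩ c v)) bw
      rw [e1, add_zero] at e2
      rw [e0, ← e2]
      exact congrArg M (funext fun c => by ring)

end H65Rpdx

theorem rowRPD65 (h1 : RowSTEP) (h2 : RowMPD) (h3 : RowEXT) : RowRPD := by
  intro d M φ hd hM hφ
  obtain ⟨j, rfl⟩ : ∃ j, d = j + 2 := ⟨d - 2, by omega⟩
  have hj : j + 1 < j + 2 := by omega
  obtain ⟨h, b1, b2, b3, b4⟩ := H65Rpdx.ind h1 h2 M φ hM hφ j hj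
  have hne : (⟨j, by omega⟩ : Fin (j + 2)) ≠ ⟨j + 1, hj⟩ := by
    intro e; exact absurd (congrArg Fin.val e) (by simp)
  obtain ⟨g, g1, g2, g3, g4, g5, -⟩ := h1 _ _ _ h hne b1 b2
  obtain ⟨ψ, hψ, H⟩ := h3 _ g g1 fun i => by
    rcases Nat.lt_trichotomy i.val j with hi | hi | hi
    · exact H65Rpdx.mod_of g2 (b3 i hi)
    · have : i = ⟨j, by omega⟩ := Fin.ext hi
      rw [this]; exact g3
    · have : i = ⟨j + 1, hj⟩ := Fin.ext (by have := i.isLt; simp only; omega)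
      rw [this]; exact g4
  refine ⟨ψ, hψ, fun z hz => ?_⟩
  have hq : ∀ i, IsQ (qK z i) ∧ qK z i ≠ 0 := fun i =>
    ⟨⟨z i, rfl⟩, by simpa [qK] using hz i⟩
  rw [← H z, g5 _ (hq _).1 (hq _).1 (hq _).2]
  exact b4 _ fun i _ => hq i

end Pool.Agent.MP_66cee2_co.D.TX
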