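import Pool.Agent.MP_66cee2_co.D.SpecA

/-
Powers of the isotropic cone are irreducible.
-/

namespace Pool.Agent.MP_66cee2_co.D

open Set Matrix

namespace Irrx

variable {d : ℕ}

/-- a multiple of the reflection in `a`. -/
def rho (a v : Fin d → ℂ) : Fin d → ℂ := (a ⬝ᵥ a) • v - (2 * (a ⬝ᵥ v)) • a

theorem rho_iso (a : Fin d → ℂ) {v : Fin d → ℂ} (h : v ⬝ᵥ v = 0) : rho a v ⬝ᵥ rho a v = 0 := by
  simp only [rho, sub_dotProduct, dotProduct_sub, smul_dotProduct, dotProduct_smul, smul_eq_mul,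
    h, dotProduct_comm v a]
  ring

theorem rho_sub {x v : Fin d → ℂ} (hx : x ⬝ᵥ x = 0) (h : v ⬝ᵥ v = 0) :
    rho (x - v) v = (-2 * (v ⬝ᵥ x)) • x := by
  simp only [rho, sub_dotProduct, dotProduct_sub, hx, h, dotProduct_comm x v]
  module

theorem rho_dot (a v x : Fin d → ℂ) :
    rho a v ⬝ᵥ x = (a ⬝ᵥ a) * (v ⬝ᵥ x) - 2 * (a ⬝ᵥ v) * (a ⬝ᵥ x) := by
  simp only [rho, sub_dotProduct, smul_dotProduct, smul_eq_mul]

/-- an isotropic vector whose reflections are not all orthogonal to a nonzero vector. -/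
theorem base (hd : 3 ≤ d) : ∃ c : Fin d → ℂ, c ⬝ᵥ c = 0 ∧
    ∀ x : Fin d → ℂ, (∀ a, rho a c ⬝ᵥ x = 0) → x = 0 := by
  obtain ⟨e, rfl⟩ : ∃ e, d = e + 3 := ⟨d - 3, by omega⟩
  have n1 : (1 : Fin (e + 3)) ≠ 0 := by simp
  have m2 : 2 % (e + 3) = 2 := Nat.mod_eq_of_lt (by omega)
  have n2 : (2 : Fin (e + 3)) ≠ 0 := fun h => by simpa [m2] using congrArg Fin.val h
  have n3 : (2 : Fin (e + 3)) ≠ 1 := fun h => by simpa [m2] using congrArg Fin.val h
  obtain ⟨c, hc⟩ : ∃ c : Fin (e + 3) → ℂ, c = Pi.single 0 1 + Pi.single 1 Complex.I := ⟨_, rfl⟩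
  have c0 : c 0 = 1 := by simp [hc, n1.symm]
  have c1 : c 1 = Complex.I := by simp [hc, n1]
  have c2 : ∀ j, j ≠ 0 → j ≠ 1 → c j = 0 := fun j h h' => by simp [hc, h, h']
  refine ⟨c, ?_, fun x h => ?_⟩
  · conv_lhs => rw [hc, add_dotProduct, single_dotProduct, single_dotProduct, ← hc]
    simp [c0, c1]
  have k : c ⬝ᵥ x = 0 := by
    simpa [rho_dot, c2 2 n2 n3] using h (Pi.single 2 1)
  have k0 : x 0 = 0 := by simpa [rho_dot, k, c0] using h (Pi.single 0 1)
  funext j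
  have k1 := h (Pi.single 0 1 + Pi.single j 1)
  rw [rho_dot, k, mul_zero, zero_sub, neg_eq_zero] at k1
  simp only [add_dotProduct, single_dotProduct, one_mul, c0, k0, zero_add] at k1
  refine (mul_eq_zero.1 k1).resolve_left (mul_ne_zero two_ne_zero fun q => ?_)
  by_cases h0 : j = 0
  · rw [h0, c0] at q
    norm_num at q
  by_cases h1 : j = 1
  · rw [h1, c1] at q
    simpa using congrArg Complex.re q
  · simp [c2 j h0 h1] at q

/-- the parametrisation of the cone. -/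
def par (c : Fin d → ℂ) (p : ℂ × (Fin d → ℂ) × (Fin d → ℂ)) : Fin d → ℂ :=
  p.1 • rho p.2.1 (rho p.2.2 c)

theorem par_iso {c : Fin d → ℂ} (h : c ⬝ᵥ c = 0) (p) : par c p ⬝ᵥ par c p = 0 := by
  simp only [par, smul_dotProduct, dotProduct_smul, rho_iso _ (rho_iso _ h), smul_zero]

theorem par_onto {c : Fin d → ℂ} (h : c ⬝ᵥ c = 0)
    (hc : ∀ x : Fin d → ℂ, (∀ a, rho a c ⬝ᵥ x = 0) → x = 0) {x : Fin d → ℂ} (hx : x ⬝ᵥ x = 0) :
    ∃ p, par c p = x := by
  by_cases k : ∀ a, rho a c ⬝ᵥ x = 0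
  · exact ⟨0, by simp [par, hc x k]⟩
  push Not at k
  obtain ⟨a, ha⟩ := k
  refine ⟨((-2 * (rho a c ⬝ᵥ x))⁻¹, x - rho a c, a), ?_⟩
  simp only [par, rho_sub hx (rho_iso a h)]
  exact inv_smul_smul₀ (mul_ne_zero (by norm_num) ha) x

theorem par_diff (c : Fin d → ℂ) : Differentiable ℂ (par c) := by
  unfold par rho dotProduct
  fun_prop

theorem line {E : Type} [NormedAddCommGroup E] [NormedSpace ℂ E] {F G : E → ℂ}
    (hF : Differentiable ℂ F) (hG : Differentiable ℂ G) (h : ∀ p, F p * G p = 0) (p q : E) :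
    F p = 0 ∨ G q = 0 := by
  have l : Differentiable ℂ fun t : ℂ => p + t • (q - p) := by fun_prop
  rcases AnalyticOnNhd.eq_zero_or_eq_zero_of_mul_eq_zero
    ((hF.comp l).differentiableOn.analyticOnNhd isOpen_univ)
    ((hG.comp l).differentiableOn.analyticOnNhd isOpen_univ) (fun t _ => h _)
    isPreconnected_univ with k | k
  · exact Or.inl (by simpa using k 0 trivial)
  · exact Or.inr (by simpa using k 1 trivial)

end Irrx

open Irrx in
theorem sIrr : SIrr := by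
  intro d r f g hd hf hg h
  obtain ⟨c, c0, hc⟩ := base hd
  have dP : Differentiable ℂ fun (p : Fin r → ℂ × (Fin d → ℂ) × (Fin d → ℂ)) a => par c (p a) :=
    differentiable_pi.2 fun a => (par_diff c).comp (differentiable_apply a)
  rw [or_iff_not_imp_left]
  intro k Y hY
  push Not at k
  obtain ⟨X, hX, k⟩ := k
  choose p hp using fun a => par_onto c0 hc (hX a)
  choose q hq using fun a => par_onto c0 hc (hY a)
  have := line (hf.comp dP) (hg.comp dP) (fun p => h _ fun a => par_iso c0 _) p q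
  simp only [Function.comp, hp, hq] at this
  exact this.resolve_left k

end Pool.Agent.MP_66cee2_co.D
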