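import Pool.Agent.MP_66cee2_co.D.SpecT

/-
The arc opposite to the small ball.
-/

namespace Pool.Agent.MP_66cee2_co.D

open Set Metric Module Pool.Agent.MP_66cee2_co.X
open scoped RealInnerProductSpace

namespace TArcx

variable {d : ℕ}

theorem exists_perp (V : Submodule ℝ (E d)) (hV : 2 ≤ finrank ℝ V) (a : E d) :
    ∃ b ∈ V, ‖b‖ = 1 ∧ ⟪a, b⟫ = 0 := by
  let f : V →ₗ[ℝ] ℝ := (innerₗ (E d) a).comp V.subtype
  have hk : LinearMap.ker f ≠ ⊥ := LinearMap.ker_ne_bot_of_finrank_lt (by simp; omega)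
  obtain ⟨v, hv, hv0⟩ := Submodule.exists_mem_ne_zero_of_ne_bot hk
  have h0 : (v : E d) ≠ 0 := fun h => hv0 (Subtype.ext h)
  have hn : ‖(v : E d)‖ ≠ 0 := norm_ne_zero_iff.2 h0
  have hf : ⟪a, (v : E d)⟫ = 0 := hv
  refine ⟨‖(v : E d)‖⁻¹ • (v : E d), V.smul_mem _ v.2, ?_, ?_⟩
  · rw [norm_smul, norm_inv, norm_norm, inv_mul_cancel₀ hn]
  · rw [inner_smul_right, hf, mul_zero]

theorem norm_two {a b : E d} (ha : ‖a‖ = 1) (hb : ‖b‖ = 1) (hab : ⟪a, b⟫ = 0) (x y : ℝ) :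
    ‖x • b - y • a‖ ^ 2 = x ^ 2 + y ^ 2 := by
  rw [norm_sub_sq_real, norm_smul, norm_smul, ha, hb, inner_smul_left, inner_smul_right,
    real_inner_comm, hab]
  simp

theorem pole {B : Set (E d)} {o y₀ : E d} {V : Submodule ℝ (E d)} {ρ : ℝ}
    (hV : 2 ≤ finrank ℝ V) (hρ : 0 < ρ) (hB : ∀ y ∈ Sph o V ρ, 1 / 8 ≤ ‖y - y₀‖ → y ∈ B) :
    ∃ a ∈ V, ‖a‖ = 1 ∧ ∀ y ∈ Sph o V ρ, 1 / 4 ≤ ‖y - (o + ρ • a)‖ → y ∈ B := by
  by_cases h : ∃ y₁ ∈ Sph o V ρ, ‖y₁ - y₀‖ < 1 / 8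
  · obtain ⟨y₁, ⟨h1, h2⟩, h3⟩ := h
    refine ⟨ρ⁻¹ • (y₁ - o), V.smul_mem _ h1, ?_, fun y hy hy1 => hB y hy ?_⟩
    · rw [norm_smul, h2, Real.norm_eq_abs, abs_of_pos (inv_pos.2 hρ), inv_mul_cancel₀ hρ.ne']
    · rw [smul_smul, mul_inv_cancel₀ hρ.ne', one_smul, add_sub_cancel] at hy1
      have h4 := norm_sub_le_norm_sub_add_norm_sub y y₀ y₁
      rw [norm_sub_rev y₀ y₁] at h4
      linarith
  · obtain ⟨a, ha, ha1, -⟩ := exists_perp V hV 0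
    exact ⟨a, ha, ha1, fun y hy _ => hB y hy (not_lt.1 fun h' => h ⟨y, hy, h'⟩)⟩

theorem closed_sph (o : E d) (V : Submodule ℝ (E d)) (ρ : ℝ) : IsClosed (Sph o V ρ) := by
  have h1 : IsClosed {y : E d | y - o ∈ V} :=
    V.closed_of_finiteDimensional.preimage (f := fun y : E d => y - o) (by fun_prop)
  have h2 : IsClosed {y : E d | ‖y - o‖ = ρ} := isClosed_eq (by fun_prop) continuous_const
  exact h1.inter h2

end TArcx

open TArcx in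
theorem sTArc (h : STSlice) : STArc := by
  rintro d m B hm ⟨o, V, ρ, y₀, hV, hρ, h1, h2, hB⟩
  have hV2 : 2 ≤ finrank ℝ V := by omega
  obtain ⟨a, haV, ha, hK⟩ := pole hV2 hρ hB
  obtain ⟨b, hbV, hb, hab⟩ := exists_perp V hV2 a
  let p : ℝ → E d := fun s => o + (s • b - √(ρ ^ 2 - s ^ 2) • a)
  have hp : ∀ s ∈ Icc (-1 / 2 : ℝ) (1 / 2), p s ∈ Sph o V ρ ∧ 5 / 4 ≤ ‖p s - (o + ρ • a)‖ := by
    intro s hs
    have hs2 : s ^ 2 ≤ 1 / 4 := by nlinarith [hs.1, hs.2]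
    have h0 : 0 ≤ ρ ^ 2 - s ^ 2 := by linarith
    have hq := Real.sq_sqrt h0
    have hq0 := Real.sqrt_nonneg (ρ ^ 2 - s ^ 2)
    have e1 : p s - o = s • b - √(ρ ^ 2 - s ^ 2) • a := add_sub_cancel_left _ _
    have e2 : p s - (o + ρ • a) = s • b - (√(ρ ^ 2 - s ^ 2) + ρ) • a := by
      simp only [p, add_smul]; abel
    refine ⟨⟨?_, ?_⟩, ?_⟩
    · rw [e1]; exact V.sub_mem (V.smul_mem _ hbV) (V.smul_mem _ haV)
    · rw [e1]
      refine (pow_left_inj₀ (norm_nonneg _) hρ.le two_ne_zero).1 ?_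
      rw [norm_two ha hb hab, hq]; ring
    · rw [e2]
      refine (pow_le_pow_iff_left₀ (by norm_num) (norm_nonneg _) two_ne_zero).1 ?_
      rw [norm_two ha hb hab]
      have g1 : 7 / 10 ≤ ρ := by nlinarith
      have g2 : 1 / 2 ≤ √(ρ ^ 2 - s ^ 2) := by nlinarith
      nlinarith [mul_le_mul g1 g2 (by norm_num) hρ.le]
  refine ⟨Sph o V ρ ∩ {y | 1 / 4 ≤ ‖y - (o + ρ • a)‖}, p '' Icc (-1 / 2) (1 / 2), ?_,
    fun y hy => hK y hy.1 hy.2, ?_, ?_, ?_, ?_⟩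
  · refine (isCompact_closedBall o ρ).of_isClosed_subset
      ((closed_sph o V ρ).inter (isClosed_le continuous_const (by fun_prop))) fun y hy => ?_
    rw [mem_closedBall, dist_eq_norm]
    exact hy.1.2.le
  · rintro _ ⟨s, hs, rfl⟩
    exact ⟨(hp s hs).1, le_trans (by norm_num) (hp s hs).2⟩
  · exact isPreconnected_Icc.image _ (Continuous.continuousOn (by fun_prop))
  · refine ⟨p (1 / 2), ⟨_, ⟨by norm_num, le_rfl⟩, rfl⟩, p (-1 / 2), ⟨_, ⟨le_rfl, by norm_num⟩, rfl⟩,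
      ?_⟩
    have e : p (1 / 2) - p (-1 / 2) = b := by
      simp only [p, show (-1 / 2 : ℝ) ^ 2 = (1 / 2) ^ 2 by norm_num]
      module
    rw [e, hb]
  · rintro _ ⟨s, hs, rfl⟩
    obtain ⟨o', V', ρ', c1, c2, c3, -, c5⟩ := h d m o V ρ (p s) hV hρ h1 (hp s hs).1
    have h4 : 0 < 4 * ρ ^ 2 := by positivity
    have g1 : 1 / (4 * ρ ^ 2) < 1 / 2 := one_div_lt_one_div_of_lt (by norm_num) (by linarith)
    have g2 : 1 / 5 ≤ 1 / (4 * ρ ^ 2) := one_div_le_one_div_of_le h4 (by linarith)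
    refine ⟨o', V', ρ', c1, c2, by linarith, by linarith, fun y hy => ⟨⟨(c5 y hy).1, ?_⟩,
      (c5 y hy).2⟩⟩
    have h5 := norm_sub_le_norm_sub_add_norm_sub (p s) y (o + ρ • a)
    rw [norm_sub_rev (p s) y, (c5 y hy).2] at h5
    have h6 := (hp s hs).2
    show 1 / 4 ≤ ‖y - (o + ρ • a)‖
    linarith

end Pool.Agent.MP_66cee2_co.D
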