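import Pool.Agent.MP_66cee2_co.D.SpecT

/-
Thickening of the arc, and the caps.
-/

namespace Pool.Agent.MP_66cee2_co.D

open Set Metric Module Pool.Agent.MP_66cee2_co.X
open scoped RealInnerProductSpace

namespace TCapx

theorem pre {d : ℕ} {A : Set (E d)} (hA : IsPreconnected A) (δ : ℝ) :
    IsPreconnected (thickening δ A) := by
  have e : thickening δ A = (fun p : E d × E d => p.1 + p.2) '' (A ×ˢ ball 0 δ) := by
    ext x
    rw [mem_thickening_iff]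
    constructor
    · rintro ⟨z, hz, h⟩
      refine ⟨(z, x - z), ⟨hz, ?_⟩, by simp⟩
      rw [mem_ball_zero_iff, ← dist_eq_norm]
      exact h
    · rintro ⟨⟨z, η⟩, ⟨hz, h⟩, rfl⟩
      refine ⟨z, hz, ?_⟩
      rw [dist_eq_norm, add_sub_cancel_left]
      exact mem_ball_zero_iff.1 h
  rw [e]
  exact (hA.prod (convex_ball (0 : E d) δ).isPreconnected).image _
    (continuous_fst.add continuous_snd).continuousOn

theorem up {d : ℕ} {v e : E d} (hv : ‖v‖ = 1) (he : ‖e‖ = 1) (h : 1 / 8 ≤ ‖v - e‖) :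
    ⟪v, e⟫ ≤ 127 / 128 := by
  have h1 := norm_sub_sq_real v e
  rw [hv, he] at h1
  nlinarith

theorem both {d : ℕ} {v w e : E d} {ρ : ℝ} (he : ‖e‖ = 1) (hρ : ρ ^ 2 ≤ 4 / 5)
    (h : ‖w - v‖ ≤ 2 * ρ) (hw : 127 / 128 < ⟪w, e⟫) : -(127 / 128) ≤ ⟪v, e⟫ := by
  have h1 : ⟪w - v, e⟫ ≤ ‖w - v‖ * ‖e‖ := real_inner_le_norm _ _
  rw [he, inner_sub_left] at h1
  have h2 : ρ ≤ 9 / 10 := by nlinarith
  linarith

end TCapx

theorem sTCap : STCap := by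
  intro d m B hB hA
  obtain ⟨K, A, hK, hKB, hAK, hpre, ⟨y, hy, z, hz, hyz⟩, hs⟩ := hA
  obtain ⟨δ, hδ, hth⟩ := hK.exists_thickening_subset_open hB hKB
  refine ⟨thickening δ A, isOpen_thickening, TCapx.pre hpre δ,
    (thickening_subset_of_subset δ hAK).trans hth,
    ⟨y, self_subset_thickening hδ A hy, z, self_subset_thickening hδ A hz, hyz⟩, ?_⟩
  intro ζ hζ e B' he hb
  obtain ⟨z₀, hz₀, hd⟩ := mem_thickening_iff.1 hζ
  obtain ⟨o, V, ρ, h1, h2, h3, h4, h5⟩ := hs z₀ hz₀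
  have key : ∀ x ∈ Sph (o + (ζ - z₀)) V ρ, x ∈ B ∧ ‖x - ζ‖ = 1 := by
    intro x hx
    have e1 : x - (ζ - z₀) - o = x - (o + (ζ - z₀)) := by abel
    obtain ⟨a1, a2⟩ := h5 (x - (ζ - z₀)) ⟨e1 ▸ hx.1, e1 ▸ hx.2⟩
    refine ⟨hth (mem_thickening_iff.2 ⟨_, a1, ?_⟩), ?_⟩
    · rw [dist_eq_norm, sub_sub_cancel, ← dist_eq_norm]
      exact hd
    · rw [← a2]
      congr 1
      abel
  have fin : ∀ x ∈ Sph (o + (ζ - z₀)) V ρ, |⟪x - ζ, e⟫| ≤ 127 / 128 → x ∈ B' := by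
    intro x hx h
    have := hb (x - ζ) (key x hx).2 h (by rw [add_sub_cancel]; exact (key x hx).1)
    rwa [add_sub_cancel] at this
  by_cases hc : ∃ x₁ ∈ Sph (o + (ζ - z₀)) V ρ, 127 / 128 < ⟪x₁ - ζ, e⟫
  · obtain ⟨x₁, hx₁, hc⟩ := hc
    refine ⟨o + (ζ - z₀), V, ρ, ζ + e, h1, h2, h3, h4, fun x hx hf => fin x hx (abs_le.2 ⟨?_, ?_⟩)⟩
    · refine TCapx.both he h4 ?_ hc
      have e1 : x₁ - ζ - (x - ζ) = (x₁ - (o + (ζ - z₀))) - (x - (o + (ζ - z₀))) := by abel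
      rw [e1]
      refine (norm_sub_le _ _).trans ?_
      rw [hx.2, hx₁.2]
      linarith
    · refine TCapx.up (key x hx).2 he ?_
      rwa [sub_sub]
  · refine ⟨o + (ζ - z₀), V, ρ, ζ - e, h1, h2, h3, h4, fun x hx hf => fin x hx (abs_le.2 ⟨?_, ?_⟩)⟩
    · have e1 : x - (ζ - e) = x - ζ - -e := by abel
      have := TCapx.up (key x hx).2 ((norm_neg e).trans he) (e1 ▸ hf)
      rw [inner_neg_right] at this
      linarith
    · exact not_lt.1 fun h => hc ⟨x, hx, h⟩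

end Pool.Agent.MP_66cee2_co.D
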