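import Pool.Agent.MP_66cee2_co.D.SpecT

/-
The unit neighbours on a sphere of a point of the sphere.
-/

namespace Pool.Agent.MP_66cee2_co.D

open Set Metric Module Pool.Agent.MP_66cee2_co.X
open scoped RealInnerProductSpace

namespace TSlicex

theorem rank {d : ℕ} (V : Submodule ℝ (E d)) (p : E d) (hp : p ≠ 0) :
    finrank ℝ V ≤ finrank ℝ (V ⊓ (ℝ ∙ p)ᗮ : Submodule ℝ (E d)) + 1 := by
  have h1 := Submodule.finrank_sup_add_finrank_inf_eq V (ℝ ∙ p)ᗮ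
  have h2 := Submodule.finrank_add_finrank_orthogonal (ℝ ∙ p)
  have h3 := Submodule.finrank_le (V ⊔ (ℝ ∙ p)ᗮ)
  rw [finrank_span_singleton hp] at h2
  omega

theorem nsq {d : ℕ} (p w : E d) (s : ℝ) (h : ⟪p, w⟫ = 0) :
    ‖s • p + w‖ ^ 2 = s ^ 2 * ‖p‖ ^ 2 + ‖w‖ ^ 2 := by
  rw [norm_add_sq_real, inner_smul_left, h, norm_smul, mul_pow, Real.norm_eq_abs, sq_abs]
  simp

end TSlicex

theorem sTSlice : STSlice := by
  intro d m o V ρ ζ hm hρ hρ2 hζ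
  obtain ⟨hV, hn⟩ := hζ
  have hp : ζ - o ≠ 0 := by
    intro h
    rw [h, norm_zero] at hn
    exact hρ.ne hn
  have hρ0 : ρ ≠ 0 := hρ.ne'
  have hpos : 0 < 1 - 1 / (4 * ρ ^ 2) := by
    rw [sub_pos, div_lt_one (by positivity)]
    linarith
  have hsq : √(1 - 1 / (4 * ρ ^ 2)) ^ 2 = 1 - 1 / (4 * ρ ^ 2) := Real.sq_sqrt hpos.le
  refine ⟨o + ((ρ ^ 2 - 1 / 2) / ρ ^ 2) • (ζ - o), V ⊓ (ℝ ∙ (ζ - o))ᗮ,
    √(1 - 1 / (4 * ρ ^ 2)), ?_, Real.sqrt_pos.2 hpos, hsq, add_sub_cancel_left _ _, ?_⟩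
  · have := TSlicex.rank V (ζ - o) hp
    omega
  · rintro y ⟨⟨hy1, hy2⟩, hy3⟩
    set t : ℝ := (ρ ^ 2 - 1 / 2) / ρ ^ 2 with ht
    set w : E d := y - (o + t • (ζ - o)) with hw
    have ho : ⟪ζ - o, w⟫ = 0 := Submodule.mem_orthogonal_singleton_iff_inner_right.1 hy2
    have e1 : y - o = t • (ζ - o) + w := by rw [hw]; abel
    have e2 : y - ζ = (t - 1) • (ζ - o) + w := by rw [hw, sub_smul, one_smul]; abel
    refine ⟨⟨?_, ?_⟩, ?_⟩
    · rw [e1]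
      exact V.add_mem (V.smul_mem _ hV) hy1
    · refine (pow_left_inj₀ (norm_nonneg _) hρ.le two_ne_zero).1 ?_
      rw [e1, TSlicex.nsq _ _ _ ho, hn, hy3, hsq, ht]
      field_simp
      ring
    · refine (pow_left_inj₀ (norm_nonneg _) zero_le_one two_ne_zero).1 ?_
      rw [e2, TSlicex.nsq _ _ _ ho, hn, hy3, hsq, ht]
      field_simp
      ring

end Pool.Agent.MP_66cee2_co.D
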