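import Pool.Agent.MP_66cee2_co.D.SpecT

/-
The arc on the equator of the first band; the last sphere has a good point.
-/

namespace Pool.Agent.MP_66cee2_co.D

open Set Metric Module Pool.Agent.MP_66cee2_co.X
open scoped RealInnerProductSpace

namespace TStartx

theorem frame {d : ℕ} (hd : 3 ≤ d) {e : E d} (he : ‖e‖ = 1) :
    ∃ a b : E d, ‖a‖ = 1 ∧ ‖b‖ = 1 ∧ ⟪b, a⟫ = 0 ∧ ⟪a, e⟫ = 0 ∧ ⟪b, e⟫ = 0 := by
  have e0 : e ≠ 0 := by
    rintro rfl
    simp at he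
  have h1 := Submodule.finrank_add_finrank_orthogonal (ℝ ∙ e)
  rw [finrank_span_singleton e0, finrank_euclideanSpace_fin] at h1
  let u := stdOrthonormalBasis ℝ (ℝ ∙ e)ᗮ
  let i : Fin (finrank ℝ (ℝ ∙ e)ᗮ) := ⟨0, by omega⟩
  let j : Fin (finrank ℝ (ℝ ∙ e)ᗮ) := ⟨1, by omega⟩
  have ij : j ≠ i := fun h => by simp [i, j] at h
  refine ⟨u i, u j, u.orthonormal.1 i, u.orthonormal.1 j, u.orthonormal.2 ij, ?_, ?_⟩
  · exact Submodule.mem_orthogonal_singleton_iff_inner_left.1 (u i).2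
  · exact Submodule.mem_orthogonal_singleton_iff_inner_left.1 (u j).2

theorem arc_norm {d : ℕ} {a b : E d} (ha : ‖a‖ = 1) (hb : ‖b‖ = 1) (hab : ⟪b, a⟫ = 0) {s : ℝ}
    (hs : s ∈ Icc (-1 / 2 : ℝ) (1 / 2)) : ‖s • b + √(1 - s ^ 2) • a‖ = 1 := by
  have h0 : 0 ≤ 1 - s ^ 2 := by nlinarith [hs.1, hs.2]
  have : ‖s • b + √(1 - s ^ 2) • a‖ ^ 2 = 1 := by
    rw [norm_add_sq_real, norm_smul, norm_smul, inner_smul_left, inner_smul_right, ha, hb, hab]
    simp only [Real.norm_eq_abs, mul_one, sq_abs, mul_zero, add_zero, Real.sq_sqrt h0]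
    ring
  nlinarith [norm_nonneg (s • b + √(1 - s ^ 2) • a)]

theorem first (h : STSlice) (d : ℕ) (B : Set (E d)) (ζ e : E d) (hd : 3 ≤ d) (he : ‖e‖ = 1)
    (hB : Band univ B ζ e) : Arcs B (d - 1) := by
  obtain ⟨a, b, ha, hb, hab, hae, hbe⟩ := frame hd he
  let γ : ℝ → E d := fun s => ζ + (s • b + √(1 - s ^ 2) • a)
  have γc : Continuous γ := by fun_prop
  have γe : ∀ s, ⟪γ s - ζ, e⟫ = 0 := fun s => by
    simp [γ, inner_add_left, inner_smul_left, hae, hbe]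
  have γn : ∀ s ∈ Icc (-1 / 2 : ℝ) (1 / 2), ‖γ s - ζ‖ = 1 := fun s hs => by
    simpa [γ] using arc_norm ha hb hab hs
  refine ⟨{y | ‖y - ζ‖ = 1 ∧ |⟪y - ζ, e⟫| ≤ 127 / 128}, γ '' Icc (-1 / 2) (1 / 2), ?_, ?_, ?_,
    isPreconnected_Icc.image _ γc.continuousOn, ?_, ?_⟩
  · refine (isCompact_sphere ζ 1).of_isClosed_subset ?_ fun y hy => mem_sphere_iff_norm.2 hy.1
    have c1 : Continuous fun y : E d => ‖y - ζ‖ := by fun_prop
    have c2 : Continuous fun y : E d => |⟪y - ζ, e⟫| := by fun_prop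
    exact (isClosed_eq c1 continuous_const).inter (isClosed_le c2 continuous_const)
  · intro y hy
    simpa using hB (y - ζ) hy.1 hy.2 (mem_univ _)
  · rintro _ ⟨s, hs, rfl⟩
    refine ⟨γn s hs, ?_⟩
    rw [γe]
    norm_num
  · refine ⟨_, ⟨1 / 2, by norm_num, rfl⟩, _, ⟨-1 / 2, by norm_num, rfl⟩, ?_⟩
    have : γ (1 / 2) - γ (-1 / 2) = b := by
      have e1 : ((-1 / 2 : ℝ)) ^ 2 = (1 / 2) ^ 2 := by norm_num
      simp only [γ, e1]
      module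
    rw [this, hb]
  · rintro _ ⟨s, hs, rfl⟩
    obtain ⟨o, V, ρ, h1, h2, h3, h4, h5⟩ := h d (d - 1) ζ ⊤ 1 (γ s)
      (by rw [finrank_top, finrank_euclideanSpace_fin]; omega) one_pos (by norm_num)
      ⟨Submodule.mem_top, γn s hs⟩
    have h6 : ρ ^ 2 = 3 / 4 := by rw [h3]; norm_num
    refine ⟨o, V, ρ, h1, h2, by linarith, by linarith, fun y hy => ⟨⟨(h5 y hy).1.2, ?_⟩,
      (h5 y hy).2⟩⟩
    have e1 : y - ζ = (y - o) + (o - ζ) := by abel
    rw [e1, inner_add_left, h4, inner_smul_left, γe, mul_zero, add_zero]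
    refine (abs_real_inner_le_norm _ _).trans ?_
    rw [hy.2, he]
    nlinarith

theorem last (d : ℕ) (B : Set (E d)) (h : Inv B 1) : B.Nonempty := by
  obtain ⟨o, V, ρ, y₀, h1, h2, h3, -, h5⟩ := h
  let u := stdOrthonormalBasis ℝ V
  let i : Fin (finrank ℝ V) := ⟨0, by omega⟩
  have ha : ‖(u i : E d)‖ = 1 := u.orthonormal.1 i
  have hm : ∀ t : ℝ, |t| = ρ → o + t • (u i : E d) ∈ Sph o V ρ := fun t ht =>
    ⟨by simpa using V.smul_mem t (u i).2, by simp [norm_smul, ha, ht]⟩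
  by_contra hB
  have hl : ∀ t : ℝ, |t| = ρ → ‖o + t • (u i : E d) - y₀‖ < 1 / 8 := fun t ht =>
    lt_of_not_ge fun g => hB ⟨_, h5 _ (hm t ht) g⟩
  have p1 := hl ρ (abs_of_pos h2)
  have p2 := hl (-ρ) (by rw [abs_neg, abs_of_pos h2])
  have p3 := norm_sub_le (o + ρ • (u i : E d) - y₀) (o + (-ρ) • (u i : E d) - y₀)
  have e1 : o + ρ • (u i : E d) - y₀ - (o + (-ρ) • (u i : E d) - y₀) = (2 * ρ) • (u i : E d) := by
    module
  rw [e1, norm_smul, ha, Real.norm_eq_abs, abs_of_pos (by linarith)] at p3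
  nlinarith

end TStartx

theorem sTStart (h : STSlice) : STStart := ⟨TStartx.first h, TStartx.last⟩

end Pool.Agent.MP_66cee2_co.D
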