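import Pool.Agent.MP_66cee2_co.D.SpecT

/-
The contact step of the topological theorem.
-/

namespace Pool.Agent.MP_66cee2_co.D

open Set Metric Pool.Agent.MP_66cee2_co.X
open scoped RealInnerProductSpace

namespace TStepx

variable {d n : ℕ}

/-- the points at distance one from some point of `S`. -/
def No (S : Set (E d)) : Set (E d) := {y | ∃ w ∈ S, ‖y - w‖ = 1}

theorem no_open (S : Set (E d)) (hS : IsOpen S) : IsOpen (No S) := by
  refine isOpen_iff_forall_mem_open.2 fun y hy => ?_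
  obtain ⟨w, hw, hyw⟩ := hy
  refine ⟨{u : E d | w + (u - y) ∈ S}, fun u hu => ⟨_, hu, ?_⟩, hS.preimage (by fun_prop),
    by simpa using hw⟩
  rw [← hyw]
  exact congrArg norm (by abel)

theorem mem_no (c p v : E d) (ρ : ℝ) (hn : ‖v‖ = 1) (h1 : 1 - ρ < ‖p - c‖)
    (h2 : ‖p - c‖ < 1 + ρ) : p ∈ No (ball c ρ) := by
  by_cases hp : p - c = 0
  · have e : p = c := sub_eq_zero.1 hp
    rw [hp, norm_zero] at h1
    refine ⟨c - v, ?_, ?_⟩
    · rw [mem_ball, dist_eq_norm, sub_sub_cancel_left, norm_neg, hn]; linarith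
    · rw [e, sub_sub_cancel, hn]
  · have ht : 0 < ‖p - c‖ := norm_pos_iff.2 hp
    set t := ‖p - c‖ with htd
    refine ⟨p - t⁻¹ • (p - c), ?_, ?_⟩
    · have e : p - t⁻¹ • (p - c) - c = (1 - t⁻¹) • (p - c) := by
        rw [sub_smul, one_smul]; abel
      rw [mem_ball, dist_eq_norm, e, norm_smul, ← htd, Real.norm_eq_abs, ← abs_of_pos ht,
        ← abs_mul, abs_of_pos ht, sub_mul, inv_mul_cancel₀ ht.ne', one_mul, abs_lt]
      constructor <;> linarith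
    · rw [sub_sub_cancel, norm_smul, norm_inv, Real.norm_of_nonneg ht.le, ← htd,
        inv_mul_cancel₀ ht.ne']

theorem band (c e : E d) (ρ β : ℝ) (hρ : 0 < ρ) (he : ‖e‖ = 1) (hβ : β < 1) :
    ∃ δ : ℝ, 0 < δ ∧ ∀ ζ v : E d, ‖ζ - (c + ρ • e)‖ < δ → ‖v‖ = 1 → |⟪v, e⟫| ≤ β →
      ζ + v ∈ No (ball c ρ) := by
  have h1 : 0 < 1 - β := by linarith
  set m := ρ * (1 - β) / (1 + ρ) with hm
  have hm0 : 0 < m := by positivity
  have hmm : m * (1 + ρ) = ρ * (1 - β) := div_mul_cancel₀ _ (by positivity)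
  refine ⟨m, hm0, fun ζ v hζ hn hne => ?_⟩
  have hβ0 : 0 ≤ β := (abs_nonneg _).trans hne
  have hmρ : m ≤ ρ := by nlinarith
  have hsq : ‖v + ρ • e‖ ^ 2 = 1 + 2 * (ρ * ⟪v, e⟫) + ρ ^ 2 := by
    rw [norm_add_sq_real, hn, real_inner_smul_right, norm_smul, he, Real.norm_of_nonneg hρ.le]
    ring
  obtain ⟨l1, l2⟩ := abs_le.1 hne
  have u1 := mul_le_mul_of_nonneg_left l1 hρ.le
  have u2 := mul_le_mul_of_nonneg_left l2 hρ.le
  have hup : ‖v + ρ • e‖ ≤ 1 + ρ - m :=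
    abs_le_of_sq_le_sq' (by nlinarith) (by linarith) |>.2
  have hlo : 1 - ρ + m ≤ ‖v + ρ • e‖ :=
    abs_le_of_sq_le_sq' (by nlinarith) (norm_nonneg _) |>.2
  have e1 : ζ + v - c = (v + ρ • e) + (ζ - (c + ρ • e)) := by abel
  have t1 := norm_add_le (v + ρ • e) (ζ - (c + ρ • e))
  have t2 := norm_sub_le (ζ + v - c) (ζ - (c + ρ • e))
  have e2 : ζ + v - c - (ζ - (c + ρ • e)) = v + ρ • e := by abel
  rw [← e1] at t1
  rw [e2] at t2
  exact mem_no c _ v ρ hn (by linarith) (by linarith)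

/-- a ball inside the closure of `A` touches the outside of that closure at a point of `G`. -/
theorem contact (A G : Set (E d)) (hA : IsOpen A) (hG : IsOpen G) (hc : IsPreconnected G)
    (h1 : (G ∩ A).Nonempty) (h2 : ¬ G ⊆ closure A) :
    ∃ (c e : E d) (ρ : ℝ), 0 < ρ ∧ ‖e‖ = 1 ∧ ball c ρ ⊆ closure A ∧
      ∀ δ : ℝ, 0 < δ → ∃ b ∈ G, b ∉ closure A ∧ ‖b - (c + ρ • e)‖ < δ := by
  obtain ⟨x, hxG, hxA⟩ := h1
  set U := interior (closure A) with hU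
  have hUo : IsOpen U := isOpen_interior
  have hn : ¬ G ⊆ U := fun hs => h2 (hs.trans interior_subset)
  obtain ⟨a, haG, ha1, ha2⟩ : ∃ a ∈ G, a ∈ closure U ∧ a ∉ U := by
    by_contra hh
    push Not at hh
    refine hn (hc.subset_left_of_subset_union hUo isClosed_closure.isOpen_compl
      (disjoint_compl_right.mono_left subset_closure) (fun a ha => ?_)
      ⟨x, hxG, hA.subset_interior_closure hxA⟩)
    by_cases h1 : a ∈ closure U
    · exact Or.inl (hh a ha h1)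
    · exact Or.inr h1
  obtain ⟨ε, hε, hb⟩ := Metric.isOpen_iff.1 hG a haG
  obtain ⟨c, hcO, hca⟩ := Metric.mem_closure_iff.1 ha1 (ε / 3) (by positivity)
  have hcl : IsClosed Uᶜ := hUo.isClosed_compl
  have hne : (Uᶜ).Nonempty := ⟨a, ha2⟩
  obtain ⟨p, hpO, hpd⟩ := hcl.exists_infDist_eq_dist hne c
  have hρ : 0 < infDist c Uᶜ := (hcl.notMem_iff_infDist_pos hne).1 (fun hh => hh hcO)
  have hle : infDist c Uᶜ ≤ dist c a := infDist_le_dist_of_mem ha2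
  set ρ := infDist c Uᶜ with hρd
  have hn' : ‖p - c‖ = ρ := by rw [hpd, dist_comm, dist_eq_norm]
  have hpe : c + ρ • (ρ⁻¹ • (p - c)) = p := by
    rw [smul_smul, mul_inv_cancel₀ hρ.ne', one_smul]; abel
  have hca' : dist c a < ε / 3 := by rwa [dist_comm]
  have hpG : p ∈ G := by
    refine hb ?_
    have := dist_triangle p c a
    rw [dist_comm p c, ← hpd] at this
    rw [mem_ball]; linarith
  refine ⟨c, ρ⁻¹ • (p - c), ρ, hρ, ?_, ?_, ?_⟩
  · rw [norm_smul, hn', norm_inv, Real.norm_of_nonneg hρ.le, inv_mul_cancel₀ hρ.ne']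
  · refine Subset.trans ?_ (interior_subset : U ⊆ closure A)
    simpa using ball_infDist_subset_compl (x := c) (s := Uᶜ)
  · intro δ hδ
    rw [hpe]
    have h3 : ¬ ball p δ ∩ G ⊆ closure A := fun hs =>
      hpO (interior_maximal hs (isOpen_ball.inter hG) ⟨mem_ball_self hδ, hpG⟩)
    obtain ⟨b, hb1, hb2⟩ := not_subset.1 h3
    exact ⟨b, hb1.2, hb2, by simpa [dist_eq_norm] using hb1.1⟩

/-- a unit pair with one end in an open set and the other in a closure can be moved. -/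
theorem move {A S : Set (E d)} (hS : IsOpen S) {y a : E d} (hy : y ∈ S) (ha : a ∈ closure A)
    (h : ‖y - a‖ = 1) : ∃ y' ∈ S, ∃ a' ∈ A, ‖y' - a'‖ = 1 := by
  have o1 : IsOpen {u : E d | y + (u - a) ∈ S} := hS.preimage (by fun_prop)
  obtain ⟨u, hu1, hu2⟩ := _root_.mem_closure_iff.1 ha _ o1 (by simpa using hy)
  refine ⟨_, hu1, u, hu2, ?_⟩
  rw [← h]
  exact congrArg norm (by abel)

end TStepx

open TStepx in
theorem sTStep : STStep := by
  intro d n O B G W hO hB hL hG hc hGB hp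
  obtain ⟨y, hy, z, hz, hyz⟩ := hp
  obtain ⟨x, hxG, hx⟩ := hO.dense.inter_open_nonempty G hG ⟨y, hy⟩
  obtain ⟨q, hq⟩ := mem_iUnion.1 hx
  have hqW : q ∈ W := hL q x hq (hGB hxG)
  have hqp : 0 < lz q q := hO.pos q ⟨x, hq⟩
  set A : Set (E d) := {u | ∃ v, Eqv W v q ∧ u ∈ O v} with hA
  have hAo : IsOpen A := isOpen_iff_forall_mem_open.2 fun u hu => by
    obtain ⟨v, h1, h2⟩ := hu
    exact ⟨O v, fun u' hu' => ⟨v, h1, hu'⟩, hO.opn v, h2⟩
  have hxA : x ∈ A := ⟨q, ⟨1, one_ne_zero, fun w _ => (one_mul _).symm⟩, hq⟩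
  have hn : ¬ G ⊆ closure A := fun hs => by
    obtain ⟨y1, hy1, z1, hz1, e1⟩ := move hG hy (hs hz) hyz
    obtain ⟨v, ⟨c, hc0, hv⟩, hv1⟩ := hz1
    have hy2 : y1 ∈ closure (G ∩ A) := hG.inter_closure ⟨hy1, hs hy1⟩
    obtain ⟨z2, hz2, y2, ⟨hy3, v', ⟨c', hc0', hv'⟩, hv2⟩, e2⟩ :=
      move (hO.opn v) hv1 hy2 (by rw [norm_sub_rev]; exact e1)
    have hW : v' ∈ W := hL v' y2 hv2 (hGB hy3)
    have o1 : lz v v' = 0 := hO.orth v v' z2 y2 hz2 hv2 e2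
    have o2 := hv v' hW
    have o3 := hv' q hqW
    rw [lz_comm v' v, o1, lz_comm v' q, o3] at o2
    exact mul_ne_zero hc0 (mul_ne_zero hc0' hqp.ne') o2.symm
  obtain ⟨c, e, ρ, hρ, he, hball, hb⟩ := contact A G hAo hG hc ⟨x, hxG, hxA⟩ hn
  obtain ⟨δ, hδ, hband⟩ := band c e ρ (127 / 128) hρ he (by norm_num)
  obtain ⟨b, hb1, hb2, hb3⟩ := hb δ hδ
  obtain ⟨ζ, ⟨⟨hζ1, hζ2⟩, hζ3⟩, hζ⟩ := hO.dense.inter_open_nonempty
    (G ∩ (closure A)ᶜ ∩ ball (c + ρ • e) δ)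
    ((hG.inter isClosed_closure.isOpen_compl).inter isOpen_ball)
    ⟨b, ⟨hb1, hb2⟩, by rwa [mem_ball, dist_eq_norm]⟩
  obtain ⟨q', hq'⟩ := mem_iUnion.1 hζ
  rw [mem_ball, dist_eq_norm] at hζ3
  refine ⟨q, q', ζ, e, B ∩ No (ball c ρ) ∩ No (O q'), hqW, hL q' ζ hq' (hGB hζ1), hqp,
    hO.pos q' ⟨ζ, hq'⟩, fun hE => hζ2 (subset_closure ⟨q', hE, hq'⟩), hζ1, he,
    (hB.inter (no_open _ isOpen_ball)).inter (no_open _ (hO.opn q')), ?_, ?_⟩
  · rintro w u hu ⟨⟨h1, a, ha, h2⟩, a', ha', h3⟩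
    have hw : w ∈ W := hL w u hu h1
    refine ⟨hw, ?_, hO.orth w q' u a' hu ha' h3⟩
    obtain ⟨u1, hu1, a1, ⟨v, ⟨k, hk, hv⟩, hv1⟩, e1⟩ := move (hO.opn w) hu (hball ha) h2
    have o1 := hv w hw
    rw [hO.orth w v u1 a1 hu1 hv1 e1] at o1
    exact (mul_eq_zero.1 o1.symm).resolve_left hk
  · intro v hv1 hv2 hv3
    exact ⟨⟨hv3, hband ζ v hζ3 hv1 hv2⟩, ζ, hq', by rw [add_sub_cancel_left, hv1]⟩

end Pool.Agent.MP_66cee2_co.D
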