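import Pool.Agent.MP_66cee2_co.D.TAlg
import Pool.Agent.MP_66cee2_co.D.TCnt
import Pool.Agent.MP_66cee2_co.D.TSlice
import Pool.Agent.MP_66cee2_co.D.TArc
import Pool.Agent.MP_66cee2_co.D.TStart
import Pool.Agent.MP_66cee2_co.D.TCap
import Pool.Agent.MP_66cee2_co.D.TStep

/-
The topological theorem in every dimension.
-/

namespace Pool.Agent.MP_66cee2_co.D

theorem sTT : STT :=
  sTT_of sTAlg sTCnt (sTArc sTSlice) (sTStart sTSlice) sTCap sTStep

end Pool.Agent.MP_66cee2_co.D
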