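import Pool.Agent.MP_66cee2_co.D.AllA
import Pool.Agent.MP_66cee2_co.D.TT
import Pool.Agent.MP_66cee2_co.D.AllX
import Pool.Agent.MP_66cee2_co.D.Fam
import Pool.Agent.MP_66cee2_co.D.SJ3

/-
Maps into spaces of dimension at most `2 d - 2`: the theorem.
-/

namespace Pool.Agent.MP_66cee2_co.D

theorem allIso (d n : ℕ) (hd : 3 ≤ d) (hn : n + 2 ≤ 2 * d) : XT.AllIso d n :=
  allIso_of sTrAll sJ3 sDichAll sFam sTT d n hd hn

end Pool.Agent.MP_66cee2_co.D
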