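import Pool.Agent.MP_66cee2_co.D.SpecA

/-
Maximal nonzero minors.
-/

namespace Pool.Agent.MP_66cee2_co.D

namespace Minx

theorem expand {F : Type} [CommRing F] {α β : Type} (C : α → β → F) {r : ℕ} (xs : Fin r → α)
    (ys : Fin r → β) (x : α) (y : β) (h : ∀ a, C (xs a) y = 0) :
    (Matrix.of fun a b : Fin (r + 1) => C ((Fin.cons x xs : Fin (r + 1) → α) a)
      ((Fin.cons y ys : Fin (r + 1) → β) b)).det =
      (Matrix.of fun a b => C (xs a) (ys b)).det * C x y := by
  rw [Matrix.det_succ_column_zero, Fin.sum_univ_succ, Finset.sum_eq_zero, add_zero]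
  · have e : (Matrix.of fun a b : Fin (r + 1) => C ((Fin.cons x xs : Fin (r + 1) → α) a)
        ((Fin.cons y ys : Fin (r + 1) → β) b)).submatrix (Fin.succAbove 0) Fin.succ =
        Matrix.of fun a b => C (xs a) (ys b) := by
      ext a b
      simp
    rw [e]
    simp [mul_comm]
  · intro a _
    simp [h a]

end Minx

theorem sMin : SMin := by
  classical
  intro F _ α β C N hN
  let P : ℕ → Prop := fun r => ∃ (xs : Fin r → α) (ys : Fin r → β),
    (Matrix.of fun a b => C (xs a) (ys b)).det ≠ 0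
  have h0 : P 0 := ⟨Fin.elim0, Fin.elim0, by simp⟩
  have h1 : P (Nat.findGreatest P N) := Nat.findGreatest_spec (Nat.zero_le N) h0
  have h2 : Nat.findGreatest P N ≤ N := Nat.findGreatest_le N
  have h3 : ¬ P (Nat.findGreatest P N + 1) := by
    rcases h2.eq_or_lt with e | e
    · rw [e]
      rintro ⟨xs, ys, h⟩
      exact h (hN xs ys)
    · exact Nat.findGreatest_is_greatest (Nat.lt_succ_self _) e
  obtain ⟨xs₀, ys, h⟩ := h1
  refine ⟨_, h2, xs₀, ys, h, fun xs x y hy => ?_⟩
  rw [← Minx.expand C xs ys x y hy]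
  by_contra hc
  exact h3 ⟨_, _, hc⟩

end Pool.Agent.MP_66cee2_co.D
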