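import Pool.Agent.MP_66cee2_co.P.Main

/-
Smaller targets, and the plane.
-/

namespace Pool.Agent.MP_66cee2_co.D

theorem allIso_pred {d n : ℕ} (H : XT.AllIso d (n + 1)) : XT.AllIso d n := by
  intro f hf
  let ι : XT.Eu n → XT.Eu (n + 1) := fun v => WithLp.toLp 2 (Fin.cons 0 fun i => v i)
  have hι : ∀ u v, ‖ι u - ι v‖ = ‖u - v‖ := fun u v => by
    simp [ι, EuclideanSpace.norm_eq, Fin.sum_univ_succ]
  intro x y
  rw [← hι]
  exact H (fun z => ι (f z)) (fun a b hab => by rw [hι]; exact hf a b hab) x y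

theorem allIso_mono {d m n : ℕ} (h : m ≤ n) (H : XT.AllIso d n) : XT.AllIso d m := by
  induction h with
  | refl => exact H
  | step _ ih => exact ih (allIso_pred H)

theorem allIso_two (n : ℕ) (hn : n ≤ 3) : XT.AllIso 2 n := allIso_mono hn P.allIso

end Pool.Agent.MP_66cee2_co.D
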