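import Pool.Agent.MP_66cee2_co.D.SpecA

/-
Common unit neighbours of points near the vertices of an orthonormal frame.
-/

namespace Pool.Agent.MP_66cee2_co.D

open Set Filter Metric Topology Pool.Agent.MP_66cee2_co.X
open scoped RealInnerProductSpace

namespace Nbrx

variable {d : ℕ}

/-- the difference of the `a`-th point and the centre. -/
noncomputable def dif (d : ℕ) (a : Fin d) : (E d × (Fin d → E d)) →L[ℝ] E d :=
  (ContinuousLinearMap.proj a).comp (ContinuousLinearMap.snd ℝ (E d) (Fin d → E d)) -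
    ContinuousLinearMap.fst ℝ (E d) (Fin d → E d)

theorem dif_apply (a : Fin d) (p : E d × (Fin d → E d)) : dif d a p = p.2 a - p.1 := rfl

/-- squared distances and the points. -/
noncomputable def G (p : E d × (Fin d → E d)) : (Fin d → ℝ) × (Fin d → E d) :=
  (fun a => ‖dif d a p‖ ^ 2, p.2)

/-- the derivative. -/
noncomputable def G' (p : E d × (Fin d → E d)) :
    (E d × (Fin d → E d)) →L[ℝ] (Fin d → ℝ) × (Fin d → E d) :=
  (ContinuousLinearMap.pi fun a => 2 • (innerSL ℝ (dif d a p)).comp (dif d a)).prod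
    (ContinuousLinearMap.snd ℝ (E d) (Fin d → E d))

theorem strict (p : E d × (Fin d → E d)) : HasStrictFDerivAt G (G' p) p := by
  refine HasStrictFDerivAt.prodMk ?_ (ContinuousLinearMap.snd ℝ (E d) (Fin d → E d)).hasStrictFDerivAt
  refine hasStrictFDerivAt_pi.2 fun a => ?_
  exact (hasStrictFDerivAt_norm_sq (dif d a p)).comp p (dif d a).hasStrictFDerivAt

theorem surj (p : E d × (Fin d → E d)) (hp : ∀ a, dif d a p = EuclideanSpace.single a 1) :
    (G' p).range = ⊤ := by
  rw [eq_top_iff]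
  rintro ⟨t, k⟩ -
  refine ⟨(WithLp.toLp 2 fun a => k a a - t a / 2, k), ?_⟩
  refine Prod.ext (funext fun a => ?_) rfl
  simp [G', hp, dif_apply, EuclideanSpace.inner_single_left]
  ring

end Nbrx

open Nbrx in
theorem sNbr : SNbr := by
  intro d y₀ ε hε
  set p : E d × (Fin d → E d) := (y₀, fun a => y₀ + EuclideanSpace.single a 1) with hpd
  have hp : ∀ a, dif d a p = EuclideanSpace.single a 1 := fun a => by
    simp [dif_apply, hpd]
  have hmap := (strict p).map_nhds_eq_of_surj (surj p hp)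
  have hU : {q : E d × (Fin d → E d) | q.1 ∈ ball y₀ ε} ∈ 𝓝 p :=
    continuous_fst.continuousAt.preimage_mem_nhds (ball_mem_nhds y₀ hε)
  have hI : G '' {q : E d × (Fin d → E d) | q.1 ∈ ball y₀ ε} ∈ 𝓝 (G p) := by
    rw [← hmap]; exact image_mem_map hU
  obtain ⟨δ, hδ, hsub⟩ := Metric.mem_nhds_iff.1 hI
  refine ⟨δ, hδ, fun xs hxs => ?_⟩
  have h1 : (G p).1 = fun _ => 1 := funext fun a => by simp [G, hp]
  have hm : ((fun _ => 1, xs) : (Fin d → ℝ) × (Fin d → E d)) ∈ ball (G p) δ := by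
    rw [mem_ball, Prod.dist_eq, h1, dist_self]
    refine max_lt hδ ((dist_pi_lt_iff hδ).2 fun a => ?_)
    rw [dist_eq_norm]; exact hxs a
  obtain ⟨q, hq, hG⟩ := hsub hm
  have h2 : q.2 = xs := congrArg Prod.snd hG
  refine ⟨q.1, by simpa [dist_eq_norm] using hq, fun a => ?_⟩
  have h3 : ‖dif d a q‖ ^ 2 = 1 := congrFun (congrArg Prod.fst hG) a
  rw [dif_apply, h2] at h3
  have h4 := norm_nonneg (xs a - q.1)
  nlinarith

end Pool.Agent.MP_66cee2_co.D
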