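import Pool.Agent.MP_66cee2_co.D.SpecA

/-
From real to complex minors, and cancellation of the factor `nx`.
-/

namespace Pool.Agent.MP_66cee2_co.D

open Pool.Agent.MP_66cee2_co.X

namespace RCx

variable {d N : ℕ}

/-- the variables of a minor. -/
abbrev Vr (d N : ℕ) : Type := (Fin N × Fin d) ⊕ (Fin N × Fin d)

/-- one entry of the generic matrix. -/
noncomputable def ent (F : BP d) (a b : Fin N) : MvPolynomial (Vr d N) ℝ :=
  MvPolynomial.rename (Sum.map (fun i => (a, i)) fun i => (b, i)) F

/-- the generic minor. -/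
noncomputable def mnr (N : ℕ) (F : BP d) : MvPolynomial (Vr d N) ℝ :=
  (Matrix.of fun a b : Fin N => ent F a b).det

theorem aeval_mnr {S : Type} [CommRing S] [Algebra ℝ S] (F : BP d) (v : Vr d N → S) :
    MvPolynomial.aeval v (mnr N F) = (Matrix.of fun a b : Fin N => MvPolynomial.aeval
      (Sum.elim (fun i => v (Sum.inl (a, i))) fun i => v (Sum.inr (b, i))) F).det := by
  rw [mnr, AlgHom.map_det]
  congr 1
  ext a b
  simp only [AlgHom.mapMatrix_apply, Matrix.map_apply, Matrix.of_apply, ent,
    MvPolynomial.aeval_rename]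
  congr 2
  funext x
  cases x <;> rfl

theorem eval_mnr (F : BP d) (v : Vr d N → ℝ) :
    MvPolynomial.eval v (mnr N F) = (Matrix.of fun a b : Fin N =>
      ev2 F (WithLp.toLp 2 fun i => v (Sum.inl (a, i)))
        (WithLp.toLp 2 fun i => v (Sum.inr (b, i)))).det := by
  have := aeval_mnr (N := N) F v
  simpa only [MvPolynomial.aeval_eq_eval, ev2] using this

theorem mnr_zero {F : BP d}
    (h : ∀ xs ys : Fin N → E d, (Matrix.of fun a b => ev2 F (xs a) (ys b)).det = 0) :
    mnr N F = 0 :=
  MvPolynomial.funext fun v => by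
    rw [eval_mnr, map_zero]
    exact h _ _

theorem ent_nx_ne (hd : 1 ≤ d) (a : Fin N) : ent (nx d) a a ≠ 0 := by
  intro h
  have := congrArg (MvPolynomial.eval fun _ => (1 : ℝ)) h
  simp [ent, nx] at this
  omega

theorem mnr_mul (F : BP d) : mnr N (nx d * F) = (∏ a : Fin N, ent (nx d) a a) * mnr N F := by
  rw [mnr, mnr, ← Matrix.det_mul_column]
  congr 1
  ext1 a b
  simp [ent, nx]

theorem diff (F : BP d) :
    Differentiable ℂ fun p : (Fin d → ℂ) × (Fin d → ℂ) => evc F p.1 p.2 := by
  induction F using MvPolynomial.induction_on with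
  | C a => simp [evc]
  | add p q hp hq =>
    simp only [evc, map_add] at *
    exact hp.add hq
  | mul_X p i hp =>
    have : Differentiable ℂ fun q : (Fin d → ℂ) × (Fin d → ℂ) => Sum.elim q.1 q.2 i := by
      cases i <;> simp only [Sum.elim_inl, Sum.elim_inr] <;> fun_prop
    simp only [evc, map_mul, MvPolynomial.aeval_X] at *
    exact hp.mul this

end RCx

theorem sRC : SRC := by
  intro d N F
  refine ⟨fun h xs ys => ?_, fun hd h xs ys => ?_, RCx.diff F⟩
  · have := RCx.aeval_mnr (N := N) F
      (Sum.elim (fun p => xs p.1 p.2) fun p => ys p.1 p.2 : RCx.Vr d N → ℂ)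
    rw [RCx.mnr_zero h, map_zero] at this
    exact this.symm
  · have h0 := RCx.mnr_zero h
    rw [RCx.mnr_mul, mul_eq_zero] at h0
    rcases h0 with h0 | h0
    · exact absurd h0 (Finset.prod_ne_zero_iff.2 fun a _ => RCx.ent_nx_ne hd a)
    · have := RCx.eval_mnr (N := N) F
        (Sum.elim (fun p => xs p.1 p.2) fun p => ys p.1 p.2 : RCx.Vr d N → ℝ)
      rw [h0, map_zero] at this
      exact this.symm

end Pool.Agent.MP_66cee2_co.D
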