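import Pool.Agent.MP_66cee2_co.X.BasicJ

/-
A set near a point of the sphere has many neighbours that see all the frame.
-/

namespace Pool.Agent.MP_66cee2_co.D

open MeasureTheory Set Filter Metric Topology Pool.Agent.MP_66cee2_co.X
open scoped ENNReal

namespace RK

/-- the points whose unit sphere meets `Z` in positive measure. -/
def Nb' {d : ℕ} (Z : Set (E d)) : Set (E d) := {y | sig d {n | y + n ∈ Z} ≠ 0}

/-- the local Jacobian bound. -/
def HJ (d : ℕ) : Prop :=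
  ∀ a b : E d, ‖a‖ = 1 → ‖b‖ = 1 → b ≠ a → b ≠ -a → ∃ (C : ℝ≥0∞) (δ : ℝ), C ≠ ⊤ ∧ 0 < δ ∧
    ∀ r : ℝ, 0 < r → r ≤ δ → ∀ N : Set (E d), MeasurableSet N →
      ((sig d).prod (sig d)) {z | z.1 ∈ ball a r ∧ z.2 ∈ ball b r ∧ z.1 + z.2 ∈ N} ≤
        C * ENNReal.ofReal (r ^ (d - 2)) * volume N

/-- the measure of small caps. -/
def HC (d : ℕ) (c : ℝ) : Prop :=
  ∀ (a : E d) (r : ℝ), ‖a‖ = 1 → 0 < r → r ≤ 1 →
    ENNReal.ofReal (c * r ^ (d - 1)) ≤ sig d (ball a r)

/-- few directions near `-n₀` miss the neighbours of `Z`. -/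
theorem key {d : ℕ} (hd : 2 ≤ d) (hJ : HJ d) {c : ℝ} (hc : 0 < c) (hC : HC d c)
    {Z : Set (E d)} {n y n₀ : E d} (hZ : MeasurableSet Z) (hZ' : MeasurableSet (Nb' Z))
    (h0 : ‖n₀‖ = 1) (hn : ‖n‖ = 1) (h1 : n ≠ n₀) (h2 : n ≠ -n₀)
    (hS : Small fun _ => {η | y + n + η ∉ Z}) {ε : ℝ} (hε : 0 < ε) :
    ∀ᶠ r in 𝓝[>] (0 : ℝ), ∀ x ∈ ball (y + n₀) r,
      sig d {m | m ∈ ball (-n₀) r ∧ x + m ∉ Nb' Z} ≤ ENNReal.ofReal (ε * r ^ (d - 1)) := by
  have : IsFiniteMeasure (sig d) := by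
    unfold sig
    have : IsFiniteMeasure (volume.restrict (ball (0 : E d) 1)) :=
      isFiniteMeasure_restrict.2 vol_ball_ne_top
    infer_instance
  obtain ⟨C, δ, hCt, hδ, hJ⟩ := hJ (-n₀) n (by simpa using h0) hn h2 (by simpa using h1)
  set V := volume (ball (0 : E d) 1) with hV
  have hVt : V ≠ ⊤ := vol_ball_ne_top
  have hCV : 0 < C.toReal * V.toReal + 1 := by positivity
  set κ := ε * c / (C.toReal * V.toReal + 1) with hκ
  have hκ0 : 0 < κ := by positivity
  have hs := ((small_iff.1 hS).scale (a := 3) (by norm_num)).eventually_le (c' := 1) one_pos hκ0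
  filter_upwards [hs, ev_pos, ev_lt hδ, ev_lt one_pos] with r hr hr0 hrδ hr1 x hx
  set M : Set (E d) := {m | m ∈ ball (-n₀) r ∧ x + m ∉ Nb' Z} with hM
  have hMm : MeasurableSet M := measurableSet_ball.inter (hZ'.compl.preimage (by fun_prop))
  set N : Set (E d) :=
    (fun w => w + (x - y - n)) ⁻¹' ({η | y + n + η ∉ Z} ∩ ball 0 (1 * 3 * r)) with hN
  have hNm : MeasurableSet N :=
    ((hZ.compl.preimage (f := fun η : E d => y + n + η) (by fun_prop)).inter
      measurableSet_ball).preimage (by fun_prop)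
  have hNv : volume N ≤ ENNReal.ofReal κ * volume (ball (0 : E d) (1 * r)) := by
    rw [hN, measure_preimage_add_right]
    exact hr
  set S : Set (E d × E d) := {z | z.1 ∈ M ∧ z.2 ∈ ball n r ∧ x + z.1 + z.2 ∉ Z} with hSd
  have hSm : MeasurableSet S :=
    (hMm.preimage measurable_fst).inter ((measurableSet_ball.preimage measurable_snd).inter
      (hZ.compl.preimage (f := fun z : E d × E d => x + z.1 + z.2) (by fun_prop)))
  have hlow : sig d (ball n r) * sig d M ≤ (sig d).prod (sig d) S := by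
    rw [Measure.prod_apply hSm, ← lintegral_indicator_const hMm]
    refine lintegral_mono fun m => ?_
    by_cases hm : m ∈ M
    · rw [indicator_of_mem hm]
      have hz : sig d {m' | x + m + m' ∈ Z} = 0 := by
        have := hm.2
        simpa [Nb'] using this
      rw [← measure_sdiff_null (s := ball n r) hz]
      exact measure_mono fun m' hm' => ⟨hm, hm'.1, hm'.2⟩
    · rw [indicator_of_notMem hm]
      exact zero_le
  have hup : (sig d).prod (sig d) S ≤ C * ENNReal.ofReal (r ^ (d - 2)) * volume N := by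
    refine le_trans (measure_mono fun z hz => ?_) (hJ r hr0 hrδ.le N hNm)
    refine ⟨hz.1.1, hz.2.1, ?_, ?_⟩
    · have e : y + n + (z.1 + z.2 + (x - y - n)) = x + z.1 + z.2 := by abel
      show y + n + (z.1 + z.2 + (x - y - n)) ∉ Z
      rw [e]
      exact hz.2.2
    · have e : z.1 + z.2 + (x - y - n) = (x - (y + n₀)) + (z.1 - -n₀) + (z.2 - n) := by abel
      have a1 := mem_ball_iff_norm.1 hx
      have a2 := mem_ball_iff_norm.1 hz.1.1
      have a3 := mem_ball_iff_norm.1 hz.2.1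
      have a4 := norm_add₃_le (a := x - (y + n₀)) (b := z.1 - -n₀) (c := z.2 - n)
      show z.1 + z.2 + (x - y - n) ∈ ball (0 : E d) (1 * 3 * r)
      rw [mem_ball_zero_iff, e]
      linarith
  have hball : volume (ball (0 : E d) (1 * r)) = ENNReal.ofReal (r ^ d) * V := by
    have := vol_ball_mul (X := E d) (c := r) (τ := 1) hr0
    rw [finrank_euclideanSpace_fin, mul_one] at this
    rw [one_mul, this]
  have hpow : r ^ (d - 2) * r ^ d = r ^ (d - 1) * r ^ (d - 1) := by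
    rw [← pow_add, ← pow_add]
    congr 1
    omega
  have hfin : C * ENNReal.ofReal (r ^ (d - 2)) *
      (ENNReal.ofReal κ * (ENNReal.ofReal (r ^ d) * V)) ≤
      ENNReal.ofReal (c * r ^ (d - 1)) * ENNReal.ofReal (ε * r ^ (d - 1)) := by
    rw [← ENNReal.ofReal_toReal hCt, ← ENNReal.ofReal_toReal hVt,
      ← ENNReal.ofReal_mul (by positivity), ← ENNReal.ofReal_mul (by positivity),
      ← ENNReal.ofReal_mul hκ0.le, ← ENNReal.ofReal_mul (by positivity),
      ← ENNReal.ofReal_mul (by positivity)]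
    refine ENNReal.ofReal_le_ofReal ?_
    have e : κ * (C.toReal * V.toReal + 1) = ε * c := by
      rw [hκ]
      field_simp
    have h3 : 0 ≤ κ * (r ^ (d - 1) * r ^ (d - 1)) := by positivity
    calc C.toReal * r ^ (d - 2) * (κ * (r ^ d * V.toReal))
        = κ * (C.toReal * V.toReal) * (r ^ (d - 2) * r ^ d) := by ring
      _ = κ * (C.toReal * V.toReal) * (r ^ (d - 1) * r ^ (d - 1)) := by rw [hpow]
      _ ≤ κ * (C.toReal * V.toReal + 1) * (r ^ (d - 1) * r ^ (d - 1)) := by nlinarith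
      _ = _ := by rw [e]; ring
  have hall : ENNReal.ofReal (c * r ^ (d - 1)) * sig d M ≤
      ENNReal.ofReal (c * r ^ (d - 1)) * ENNReal.ofReal (ε * r ^ (d - 1)) := by
    refine le_trans ?_ hfin
    rw [← hball]
    refine le_trans ?_ (hup.trans (by gcongr))
    refine le_trans ?_ hlow
    gcongr
    exact hC n r hn hr0 hr1.le
  have hp : 0 < c * r ^ (d - 1) := by positivity
  exact (ENNReal.mul_le_mul_iff_right (by simpa using hp) ENNReal.ofReal_ne_top).1 hall

theorem main {d : ℕ} (hd : 2 ≤ d) (hJ : HJ d) {c : ℝ} (hc : 0 < c) (hC : HC d c)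
    (hm : ∀ Z : Set (E d), MeasurableSet Z → MeasurableSet (Nb' Z))
    (hsw : ∀ A B : Set (E d), MeasurableSet A → MeasurableSet B → volume (A ∩ Nb' B) = 0 →
      volume (B ∩ Nb' A) = 0)
    (I : Type) (F : Finset I) (Z : I → Set (E d)) (n : I → E d) (y n₀ : E d)
    (hZ : ∀ i, MeasurableSet (Z i)) (h0 : ‖n₀‖ = 1)
    (hF : ∀ i ∈ F, ‖n i‖ = 1 ∧ n i ≠ n₀ ∧ n i ≠ -n₀ ∧
      Small fun _ => {η | y + n i + η ∉ Z i}) :
    ∃ r₀ : ℝ, 0 < r₀ ∧ ∀ r, 0 < r → r ≤ r₀ → ∀ A : Set (E d), MeasurableSet A →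
      A ⊆ ball (y + n₀) r → volume A ≠ 0 →
      volume {y' | y' ∈ ball y (2 * r) ∧ y' ∈ Nb' A ∧ ∀ i ∈ F, y' ∈ Nb' (Z i)} ≠ 0 := by
  have hF1 : (0 : ℝ) < F.card + 1 := by positivity
  have hε : 0 < c / (F.card + 1) := by positivity
  have hev : ∀ᶠ r in 𝓝[>] (0 : ℝ), r < 1 ∧ ∀ i ∈ F, ∀ x ∈ ball (y + n₀) r,
      sig d {m | m ∈ ball (-n₀) r ∧ x + m ∉ Nb' (Z i)} ≤
        ENNReal.ofReal (c / (F.card + 1) * r ^ (d - 1)) :=
    (ev_lt one_pos).and ((Finset.eventually_all F).2 fun i hi =>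
      key hd hJ hc hC (hZ i) (hm _ (hZ i)) h0 (hF i hi).1 (hF i hi).2.1 (hF i hi).2.2.1
        (hF i hi).2.2.2 hε)
  obtain ⟨r₀, hr₀, hsub⟩ := mem_nhdsGT_iff_exists_Ioc_subset.1 hev
  refine ⟨r₀, hr₀, fun r hr hrr A hA hAb hAv hnull => ?_⟩
  obtain ⟨hr1, hkey⟩ := hsub ⟨hr, hrr⟩
  set G : Set (E d) := ball y (2 * r) ∩ ⋂ i ∈ F, Nb' (Z i) with hG
  have hGm : MeasurableSet G :=
    measurableSet_ball.inter (F.measurableSet_biInter fun i _ => hm _ (hZ i))
  have h1 : volume (A ∩ Nb' G) = 0 := by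
    refine hsw G A hGm hA (measure_mono_null (fun w hw => ?_) hnull)
    exact ⟨hw.1.1, hw.2, fun i hi => mem_iInter₂.1 hw.1.2 i hi⟩
  obtain ⟨x, hxA, hx⟩ : ∃ x ∈ A, x ∉ Nb' G := by
    by_contra h
    push Not at h
    exact hAv (measure_mono_null (fun w hw => mem_inter hw (h w hw)) h1)
  have hx0 : sig d {m | x + m ∈ G} = 0 := by simpa [Nb'] using hx
  have hcov : ball (-n₀) r \ {m | x + m ∈ G} ⊆
      ⋃ i ∈ F, {m | m ∈ ball (-n₀) r ∧ x + m ∉ Nb' (Z i)} := by
    intro m hm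
    by_contra h
    refine hm.2 ⟨?_, mem_iInter₂.2 fun i hi => ?_⟩
    · have e : x + m - y = (x - (y + n₀)) + (m - -n₀) := by abel
      have a1 := mem_ball_iff_norm.1 (hAb hxA)
      have a2 := mem_ball_iff_norm.1 hm.1
      have a3 := norm_add_le (x - (y + n₀)) (m - -n₀)
      rw [mem_ball_iff_norm, e]
      linarith
    · by_contra h'
      exact h (mem_iUnion₂.2 ⟨i, hi, hm.1, h'⟩)
  have hle : ENNReal.ofReal (c * r ^ (d - 1)) ≤
      ENNReal.ofReal (F.card * (c / (F.card + 1) * r ^ (d - 1))) := by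
    refine (hC (-n₀) r (by simpa using h0) hr hr1.le).trans ?_
    rw [← measure_sdiff_null (s := ball (-n₀) r) hx0]
    refine (measure_mono hcov).trans ((measure_biUnion_finset_le F _).trans ?_)
    refine (Finset.sum_le_sum fun i hi => hkey i hi x (hAb hxA)).trans ?_
    rw [Finset.sum_const, nsmul_eq_mul, ENNReal.ofReal_mul (Nat.cast_nonneg _),
      ENNReal.ofReal_natCast]
  have h2 := (ENNReal.ofReal_le_ofReal_iff (by positivity)).1 hle
  have e : (F.card + 1) * (c / (F.card + 1) * r ^ (d - 1)) = c * r ^ (d - 1) := by field_simp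
  have h3 : 0 < c / (F.card + 1) * r ^ (d - 1) := by positivity
  nlinarith

end RK

end Pool.Agent.MP_66cee2_co.D
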