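import Pool.Agent.MP_66cee2_co.D.SpecC
import Pool.Agent.MP_66cee2_co.D.RK0

/-
A set near a point of the sphere has many neighbours that see all the frame.
-/

namespace Pool.Agent.MP_66cee2_co.D.C

open MeasureTheory Set Pool.Agent.MP_66cee2_co.X

theorem sK92 {d : ℕ} (hd : 3 ≤ d) (hJ : SJacL d) (hC : SCap d) (hK : SKit d) : SK d := by
  obtain ⟨c, hc, hC⟩ := hC
  refine fun I F Z n y n₀ hZ h0 hF =>
    RK.main (by omega) (fun a b ha hb h1 h2 => ?_) hc hC hK.nb_meas hK.nb_swap I F Z n y n₀ hZ h0 hF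
  obtain ⟨C, δ, hC0, hδ, h⟩ := hJ a b ha hb h1 h2
  refine ⟨ENNReal.ofReal C, δ, ENNReal.ofReal_ne_top, hδ, fun r hr hr' N hN => ?_⟩
  rw [← ENNReal.ofReal_mul hC0]
  exact h r hr hr' N hN

end Pool.Agent.MP_66cee2_co.D.C
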