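import Pool.Agent.MP_66cee2_co.D.SpecA

/-
The rank of the pairing inside the complement of positive orthogonal vectors.
-/

namespace Pool.Agent.MP_66cee2_co.D

open Matrix Pool.Agent.MP_66cee2_co.X Pool.Agent.MP_66cee2_co.XI

namespace Rankx

theorem lz_sum {n : ℕ} {ι : Type} [Fintype ι] (g : ι → ℝ) (v : ι → Ix n → ℝ) (y : Ix n → ℝ) :
    lz (∑ i, g i • v i) y = ∑ i, g i * lz (v i) y := by
  simp only [lz, sum_dotProduct, smul_dotProduct, smul_eq_mul]

theorem dep {d n : ℕ} (h : n + 2 ≤ 2 * d) (v : Fin d ⊕ Fin (d + 1) → Ix n → ℝ) :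
    ∃ g : Fin d ⊕ Fin (d + 1) → ℝ, ∑ i, g i • v i = 0 ∧ ∃ i, g i ≠ 0 := by
  rw [← Fintype.not_linearIndependent_iff]
  intro hv
  have := hv.fintype_card_le_finrank
  simp only [Fintype.card_sum, Fintype.card_fin, Module.finrank_fintype_fun_eq_card,
    Fintype.card_bool] at this
  omega

end Rankx

theorem sRank : SRank := by
  intro d n F hn hpos horth i j hij xs ys hx hy
  obtain ⟨g, hg, hne⟩ := Rankx.dep hn (Sum.elim xs F)
  have key : ∀ y : Ix n → ℝ, ∑ a, g (Sum.inl a) * lz (xs a) y +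
      ∑ k, g (Sum.inr k) * lz (F k) y = 0 := fun y => by
    have h := Rankx.lz_sum g (Sum.elim xs F) y
    rw [hg, Fintype.sum_sum_type] at h
    simp only [Sum.elim_inl, Sum.elim_inr] at h
    rw [← h]
    simp [lz]
  have hF : ∀ l, ∑ k, g (Sum.inr k) * lz (F k) (F l) = g (Sum.inr l) * lz (F l) (F l) :=
    fun l => Finset.sum_eq_single l (fun k _ hk => by rw [horth k l hk, mul_zero]) (by simp)
  have he : ∀ l, (∑ a, g (Sum.inl a) * lz (xs a) (F l) = 0) → g (Sum.inr l) = 0 := fun l h => by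
    have h2 := key (F l)
    rw [h, zero_add, hF] at h2
    exact (mul_eq_zero.1 h2).resolve_right (hpos l).ne'
  have hc : (fun a => g (Sum.inl a)) ≠ 0 := by
    intro h0
    have h1 : ∀ a, g (Sum.inl a) = 0 := fun a => congrFun h0 a
    obtain ⟨s, hs⟩ := hne
    cases s with
    | inl a => exact hs (h1 a)
    | inr l => exact hs (he l (Finset.sum_eq_zero fun a _ => by rw [h1 a, zero_mul]))
  refine Matrix.exists_vecMul_eq_zero_iff.1 ⟨fun a => g (Sum.inl a), hc, ?_⟩
  funext b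
  have h2 := key (ys b)
  have h3 : ∑ k, g (Sum.inr k) * lz (F k) (ys b) = 0 := by
    refine Finset.sum_eq_zero fun k _ => ?_
    by_cases hk : k = i
    · rw [lz_comm, hy b k (hk ▸ hij), mul_zero]
    · rw [he k (Finset.sum_eq_zero fun a _ => by rw [hx a k hk, mul_zero]), zero_mul]
  rw [h3, add_zero] at h2
  simpa [Matrix.vecMul, dotProduct] using h2

end Pool.Agent.MP_66cee2_co.D
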