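import Pool.Agent.MP_66cee2_co.D.Defs
import Pool.Agent.MP_66cee2_co.XI.Kit

/-
Maps into spaces of dimension at most `2 d - 2`: the clique lemma and the dichotomy.
-/

namespace Pool.Agent.MP_66cee2_co.D

open MeasureTheory Set Filter Metric Topology Matrix Pool.Agent.MP_66cee2_co.X
  Pool.Agent.MP_66cee2_co.XI
open scoped ENNReal RealInnerProductSpace

/-- polynomials in two points. -/
abbrev BP (d : ℕ) : Type := MvPolynomial (Fin d ⊕ Fin d) ℝ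

section defs

variable {d n : ℕ}

/-- real evaluation. -/
noncomputable def ev2 (F : BP d) (x y : E d) : ℝ :=
  MvPolynomial.eval (Sum.elim (fun i => x i) fun i => y i) F

/-- complex evaluation. -/
noncomputable def evc (F : BP d) (x y : Fin d → ℂ) : ℂ := MvPolynomial.aeval (Sum.elim x y) F

noncomputable def nx (d : ℕ) : BP d := ∑ i, MvPolynomial.X (Sum.inl i) ^ 2

noncomputable def ny (d : ℕ) : BP d := ∑ i, MvPolynomial.X (Sum.inr i) ^ 2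

noncomputable def xy (d : ℕ) : BP d := ∑ i, MvPolynomial.X (Sum.inl i) * MvPolynomial.X (Sum.inr i)

/-- `1 - ‖x - y‖ ^ 2`. -/
noncomputable def sP (d : ℕ) : BP d := 1 - nx d + 2 * xy d - ny d

/-- the kernel of two vectors of polynomials. -/
noncomputable def Kp (Q Q' : Ix n → MP d) : BP d :=
  2 * ∑ i, MvPolynomial.rename Sum.inl (Q (Sum.inl i)) *
      MvPolynomial.rename Sum.inr (Q' (Sum.inl i)) +
    MvPolynomial.rename Sum.inl (Q (Sum.inr true)) *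
      MvPolynomial.rename Sum.inr (Q' (Sum.inr false)) +
    MvPolynomial.rename Sum.inl (Q (Sum.inr false)) *
      MvPolynomial.rename Sum.inr (Q' (Sum.inr true))

/-- homogeneous components of a vector. -/
noncomputable def hc (k : ℕ) (Q : Ix n → MP d) : Ix n → MP d :=
  fun a => MvPolynomial.homogeneousComponent k (Q a)

/-- the three term combination. -/
noncomputable def Cc (A : ℤ → BP d) (j : ℤ) : BP d :=
  nx d * A (j - 1) - 2 * xy d * A j + ny d * A (j + 1)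

/-- all values are orthogonal. -/
def Ort (Q Q' : Ix n → MP d) : Prop := ∀ z z' : E d, lz (evv Q z) (evv Q' z') = 0

/-- the two types. -/
def TyQ (Q : Ix n → MP d) : Prop := (Q sI = 0 ∧ ∃ i, Q (Sum.inl i) ≠ 0) ∨ (Q sI ≠ 0 ∧ GC Q)

/-- the isometric type. -/
def IsoQ (Q : Ix n → MP d) : Prop := Q sI ≠ 0 ∧ Iso2 Q (Q sI).totalDegree

/-- the Euclidean part of the value. -/
noncomputable def pQ (Q : Ix n → MP d) (z : E d) : E n :=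
  WithLp.toLp 2 fun i => ev (Q (Sum.inl i)) z

/-- the coefficient of `t ^ k` of the Euclidean part along `t w`. -/
noncomputable def cQ (Q : Ix n → MP d) (w : E d) (k : ℕ) : E n :=
  WithLp.toLp 2 fun i => co (Q (Sum.inl i)) w k

/-- a clique. -/
structure Clq (Q : Fin (d + 1) → Ix n → MP d) : Prop where
  ty : ∀ k, TyQ (Q k)
  edge : ∀ k l, k ≠ l → EdgeId (Q k) (Q l)

/-- jets with a type. -/
def Jt (u : E d → Ix n → ℝ) (x : E d) (Q : Ix n → MP d) : Prop := JetAt u x Q ∧ TyQ Q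

/-- points with a jet of isometric type. -/
def IsoX (u : E d → Ix n → ℝ) (x : E d) : Prop := ∃ Q, Jt u x Q ∧ IsoQ Q

/-- the condition that defines the pieces of the flat field. -/
def Ph (j : ℕ) (z : E d) (a : Ix n) (Q : Ix n → MP d) : Prop :=
  1 ≤ (j : ℝ) * lz (evv Q z) (evv Q z) ∧ 1 ≤ (j : ℝ) * ev (Q a) z ^ 2

/-- the vector with `a`-th coordinate one. -/
noncomputable def nv (a : Ix n) (v : Ix n → ℝ) : Ix n → ℝ := (v a)⁻¹ • v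

/-- parallel vectors of polynomials. -/
def ParP (R Q : Ix n → MP d) : Prop :=
  ∀ (z : E d) a b, ev (R a) z * ev (Q b) z = ev (R b) z * ev (Q a) z

/-- rational points. -/
noncomputable def qp (z : Fin d → ℚ) : E d := WithLp.toLp 2 fun i => (z i : ℝ)

end defs

/-! ### Algebra -/

/-- division by a monic quadratic polynomial in one variable. -/
def SQuo : Prop :=
  ∀ (σ : Type) (i : σ) (b c F : MvPolynomial σ ℝ), i ∉ b.vars → i ∉ c.vars →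
    ∃ G r₀ r₁ : MvPolynomial σ ℝ, i ∉ r₀.vars ∧ i ∉ r₁.vars ∧
      F = (MvPolynomial.X i ^ 2 + b * MvPolynomial.X i + c) * G + r₀ + r₁ * MvPolynomial.X i

def SDiv : Prop :=
  ∀ (d : ℕ) (F : BP d), 1 ≤ d → (∀ x w : E d, ‖w‖ = 1 → ev2 F x (x + w) = 0) → sP d ∣ F

def SCDiv : Prop :=
  ∀ (d : ℕ) (F : BP d), 2 ≤ d →
    (∀ x y : Fin d → ℂ, x ⬝ᵥ x = 0 → x ≠ 0 → evc F x y = 0) → nx d ∣ F

/-- components of given bidegree. -/
def SBi : Prop :=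
  ∀ (d n : ℕ) (Q Q' : Ix n → MP d) (L : BP d), Kp Q Q' = sP d * L →
    ∃ l : ℤ → ℤ → BP d, {p : ℤ × ℤ | l p.1 p.2 ≠ 0}.Finite ∧
      (∀ a b, a < 0 ∨ b < 0 → l a b = 0) ∧ ((∀ a b, l a b = 0) → L = 0) ∧
      ∀ a b : ℕ, Kp (hc a Q) (hc b Q') = l a b - nx d * l (a - 2) b +
        2 * xy d * l (a - 1) (b - 1) - ny d * l a (b - 2)

/-- the top part of the kernel of an edge. -/
def SDrop : Prop :=
  ∀ (d n : ℕ) (Q Q' : Ix n → MP d) (D D' : ℕ), 1 ≤ d → EdgeId Q Q' →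
    (∀ a, (Q a).totalDegree ≤ D) → (∀ a, (Q' a).totalDegree ≤ D') →
    (Ort Q Q' ∧ ∀ a b, Ort (hc a Q) (hc b Q')) ∨
    ∃ (M : ℕ) (A : ℤ → BP d), (Function.support A).Finite ∧ A ≠ 0 ∧
      (∀ a b, M < a + b → Ort (hc a Q) (hc b Q')) ∧
      ∀ j, A j ≠ 0 → ∃ a b : ℕ, a + b = M ∧ a < D ∧ b < D' ∧
        ∀ x y, lz (evv (hc a Q) x) (evv (hc b Q') y) = -ev2 (Cc A j) x y

/-- maximal minors. -/
def SMin : Prop :=
  ∀ (F : Type) [Field F] (α β : Type) (C : α → β → F) (N : ℕ),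
    (∀ (xs : Fin (N + 1) → α) (ys : Fin (N + 1) → β),
      (Matrix.of fun a b => C (xs a) (ys b)).det = 0) →
    ∃ r, r ≤ N ∧ ∃ (xs₀ : Fin r → α) (ys : Fin r → β),
      (Matrix.of fun a b => C (xs₀ a) (ys b)).det ≠ 0 ∧
      ∀ (xs : Fin r → α) (x : α) (y : β), (∀ a, C (xs a) y = 0) →
        (Matrix.of fun a b => C (xs a) (ys b)).det * C x y = 0

/-- powers of the cone are irreducible. -/
def SIrr : Prop :=
  ∀ (d r : ℕ) (f g : (Fin r → Fin d → ℂ) → ℂ), 3 ≤ d → Differentiable ℂ f → Differentiable ℂ g →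
    (∀ X, (∀ a, X a ⬝ᵥ X a = 0) → f X * g X = 0) →
    (∀ X, (∀ a, X a ⬝ᵥ X a = 0) → f X = 0) ∨ ∀ X, (∀ a, X a ⬝ᵥ X a = 0) → g X = 0

/-- the vector of cofactors. -/
def SCr : Prop :=
  ∀ e : ℕ, 2 ≤ e → ∃ cr : (Fin e → Fin (e + 1) → ℂ) → Fin (e + 1) → ℂ, Differentiable ℂ cr ∧
    (∀ X a, X a ⬝ᵥ cr X = 0) ∧ ∀ y : Fin (e + 1) → ℝ, ∃ (X : Fin e → Fin (e + 1) → ℂ) (μ : ℂ),
      (∀ a, X a ⬝ᵥ X a = 0) ∧ (fun k => (y k : ℂ)) = μ • cr X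

/-- kernels of small rank on the cone. -/
def SCone : Prop :=
  ∀ (d : ℕ) (B : (Fin d → ℂ) → (Fin d → ℂ) → ℂ), 3 ≤ d →
    (Differentiable ℂ fun p : (Fin d → ℂ) × (Fin d → ℂ) => B p.1 p.2) →
    (∀ xs ys : Fin d → Fin d → ℂ, (∀ a, xs a ⬝ᵥ xs a = 0) →
      (Matrix.of fun a b => (xs a ⬝ᵥ ys b) * B (xs a) (ys b)).det = 0) →
    ∀ x y, x ⬝ᵥ x = 0 → x ≠ 0 → B x y = 0

/-- from real to complex minors, and cancellation of the factor `nx`. -/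
def SRC : Prop :=
  ∀ (d N : ℕ) (F : BP d),
    ((∀ xs ys : Fin N → E d, (Matrix.of fun a b => ev2 F (xs a) (ys b)).det = 0) →
      ∀ xs ys : Fin N → Fin d → ℂ, (Matrix.of fun a b => evc F (xs a) (ys b)).det = 0) ∧
    (1 ≤ d →
      (∀ xs ys : Fin N → E d, (Matrix.of fun a b => ev2 (nx d * F) (xs a) (ys b)).det = 0) →
      ∀ xs ys : Fin N → E d, (Matrix.of fun a b => ev2 F (xs a) (ys b)).det = 0) ∧
    Differentiable ℂ fun p : (Fin d → ℂ) × (Fin d → ℂ) => evc F p.1 p.2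

def SA3 : Prop :=
  ∀ (d : ℕ) (A : ℤ → BP d), 3 ≤ d → (Function.support A).Finite →
    (∀ j, A j ≠ 0 → ∀ xs ys : Fin d → E d,
      (Matrix.of fun a b => ev2 (Cc A j) (xs a) (ys b)).det = 0) → A = 0

/-- the rank of the pairing. -/
def SRank : Prop :=
  ∀ (d n : ℕ) (F : Fin (d + 1) → Ix n → ℝ), n + 2 ≤ 2 * d → (∀ k, 0 < lz (F k) (F k)) →
    (∀ k l, k ≠ l → lz (F k) (F l) = 0) → ∀ i j, i ≠ j → ∀ xs ys : Fin d → Ix n → ℝ,
    (∀ a k, k ≠ i → lz (xs a) (F k) = 0) → (∀ b k, k ≠ j → lz (ys b) (F k) = 0) →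
    (Matrix.of fun a b => lz (xs a) (ys b)).det = 0

def SA4 : Prop :=
  ∀ (d n : ℕ) (Q : Fin (d + 1) → Ix n → MP d) (D : Fin (d + 1) → ℕ) (w : Fin (d + 1) → E d),
    3 ≤ d → n + 2 ≤ 2 * d → (∀ k a, (Q k a).totalDegree ≤ D k) →
    (∀ k, 0 < lz (evv (hc (D k) (Q k)) (w k)) (evv (hc (D k) (Q k)) (w k))) →
    (∀ k l, k ≠ l → EdgeId (Q k) (Q l)) → ∀ k l, k ≠ l → Ort (Q k) (Q l)

/-- common unit neighbours. -/
def SNbr : Prop :=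
  ∀ (d : ℕ) (y₀ : E d) (ε : ℝ), 0 < ε → ∃ δ : ℝ, 0 < δ ∧ ∀ xs : Fin d → E d,
    (∀ a, ‖xs a - (y₀ + EuclideanSpace.single a 1)‖ < δ) →
      ∃ y, ‖y - y₀‖ < ε ∧ ∀ a, ‖xs a - y‖ = 1

def SA2 : Prop :=
  ∀ (d n : ℕ) (Q Q' : Ix n → MP d) (W : Submodule ℝ (Ix n → ℝ)), Module.finrank ℝ W ≤ d →
    (∀ z, evv Q z ∈ W) → EdgeId Q Q' → Ort Q Q'

/-- at most one member of the general type. -/
def SClq1 : Prop :=
  ∀ (d n : ℕ) (Q : Fin (d + 1) → Ix n → MP d), 3 ≤ d → n + 2 ≤ 2 * d → Clq Q →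
    (∀ k l, Q k sI ≠ 0 → Q l sI ≠ 0 → k = l) → ∀ k l, k ≠ l → Ort (Q k) (Q l)

/-- degrees on an edge between two members of the general type. -/
def SDegG : Prop :=
  ∀ (d n : ℕ) (Q Q' : Ix n → MP d), 1 ≤ d → Q sI ≠ 0 → Q' sI ≠ 0 → GC Q → GC Q' → EdgeId Q Q' →
    (∀ i, (Q (Sum.inl i)).totalDegree ≤ (Q sI).totalDegree + 1) ∧
    ((∀ i, (Q (Sum.inl i)).totalDegree ≤ (Q sI).totalDegree) →
      ∀ i, (Q' (Sum.inl i)).totalDegree ≤ (Q' sI).totalDegree)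

/-- degrees and tops in the bounded case. -/
def SDegT : Prop :=
  ∀ (d n : ℕ) (Q : Ix n → MP d), 1 ≤ d → Q sI ≠ 0 → GC Q →
    (∀ i, (Q (Sum.inl i)).totalDegree ≤ (Q sI).totalDegree) →
    ((∀ a, (Q a).totalDegree ≤ (Q sI).totalDegree) ∧ ∃ w : E d,
      0 < lz (evv (hc (Q sI).totalDegree Q) w) (evv (hc (Q sI).totalDegree Q) w)) ∧
    ∀ Q' : Ix n → MP d, Q' sI = 0 → (∃ i, Q' (Sum.inl i) ≠ 0) → EdgeId Q' Q →
      ∃ (e : ℕ) (w : E d), (∀ a, (Q' a).totalDegree ≤ e) ∧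
        0 < lz (evv (hc e Q') w) (evv (hc e Q') w)

/-- behaviour along parallel lines. -/
def SLin : Prop :=
  ∀ (d n : ℕ) (Q : Ix n → MP d) (w : E d) (m : ℕ),
    ((∀ i, (Q (Sum.inl i)).totalDegree ≤ m) → ∀ z,
      Tendsto (fun s : ℝ => (s ^ m)⁻¹ • pQ Q (z + s • w)) atTop (𝓝 (cQ Q w m))) ∧
    ((Q sI).totalDegree ≤ m → (∀ i, (Q (Sum.inl i)).totalDegree ≤ m + 1) → co (Q sI) w m ≠ 0 →
      ∃ (T : E d →ₗ[ℝ] E n) (c : E n), T w = (co (Q sI) w m)⁻¹ • cQ Q w (m + 1) ∧ ∀ z,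
        (∀ᶠ s : ℝ in atTop, ev (Q sI) (z + s • w) ≠ 0) ∧
        Tendsto (fun s : ℝ => (ev (Q sI) (z + s • w))⁻¹ • pQ Q (z + s • w) - s • T w) atTop
          (𝓝 (T z + c)))

/-- two affine maps that send unit pairs to unit pairs. -/
def SAffP : Prop :=
  ∀ (d n : ℕ) (T T' : E d →ₗ[ℝ] E n) (c c' : E n), 1 ≤ d →
    (∀ z v : E d, ‖v‖ = 1 → ‖T z + c - (T' (z + v) + c')‖ = 1) →
    T = T' ∧ (∀ v, ⟪c - c', T v⟫ = 0) ∧ ∀ v, ‖T v‖ ^ 2 = (1 - ‖c - c'‖ ^ 2) * ‖v‖ ^ 2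

/-- the count of dimensions in the conformal case. -/
def SConf : Prop :=
  ∀ (d n : ℕ) (G : Fin (d + 1) → Prop) (T : E d →ₗ[ℝ] E n) (c ν : Fin (d + 1) → E n) (τ : ℝ)
    (k₀ : Fin (d + 1)), n + 1 ≤ 2 * d → 0 < τ → τ < 1 → G k₀ →
    (∀ v, ‖T v‖ ^ 2 = τ * ‖v‖ ^ 2) → (∀ k l, G k → G l → ∀ v, ⟪c k - c l, T v⟫ = 0) →
    (∀ k l, G k → G l → k ≠ l → ‖c k - c l‖ ^ 2 = 1 - τ) →
    (∀ k, ¬ G k → ν k ≠ 0 ∧ (∀ v, ⟪ν k, T v⟫ = 0) ∧ ∀ l l', G l → G l' → ⟪ν k, c l - c l'⟫ = 0) →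
    (∀ k l, ¬ G k → ¬ G l → k ≠ l → ⟪ν k, ν l⟫ = 0) → False

/-- the slope has length zero or one. -/
def SSlope : Prop :=
  ∀ (d n : ℕ) (Q : Fin (d + 1) → Ix n → MP d) (m : Fin (d + 1) → ℕ) (w : E d) (k l : Fin (d + 1)),
    1 ≤ d → n + 1 ≤ 2 * d → Clq Q → ‖w‖ = 1 → k ≠ l → Q k sI ≠ 0 → Q l sI ≠ 0 →
    (∀ j, Q j sI ≠ 0 → (Q j sI).totalDegree ≤ m j ∧ co (Q j sI) w (m j) ≠ 0 ∧
      ∀ i, (Q j (Sum.inl i)).totalDegree ≤ m j + 1) →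
    (∀ j, Q j sI = 0 → cQ (Q j) w (m j) ≠ 0 ∧ ∀ i, (Q j (Sum.inl i)).totalDegree ≤ m j) →
    cQ (Q k) w (m k + 1) = 0 ∨ ‖cQ (Q k) w (m k + 1)‖ ^ 2 = co (Q k sI) w (m k) ^ 2

/-- bounded or isometric. -/
def SBI : Prop :=
  ∀ (d n : ℕ) (Q : Fin (d + 1) → Ix n → MP d) (k l : Fin (d + 1)), 1 ≤ d → n + 1 ≤ 2 * d →
    Clq Q → k ≠ l → Q k sI ≠ 0 → Q l sI ≠ 0 →
    (∀ i, (Q k (Sum.inl i)).totalDegree ≤ (Q k sI).totalDegree) ∨ IsoQ (Q k)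

/-- the clique lemma. -/
def SClq : Prop :=
  ∀ (d n : ℕ) (Q : Fin (d + 1) → Ix n → MP d), 3 ≤ d → n + 2 ≤ 2 * d → Clq Q →
    (∃ k l, k ≠ l ∧ IsoQ (Q k) ∧ IsoQ (Q l)) ∨ ∀ k l, k ≠ l → Ort (Q k) (Q l)

/-! ### Measure theory -/

/-- jets are admissible after scaling; unit pairs; the isometric pieces. -/
def SJt : Prop :=
  ∀ (d n : ℕ) (u : E d → Ix n → ℝ), 2 ≤ d → UF u →
    (∀ x Q, JetAt u x Q → ∃ c : ℝ, 0 < c ∧ ∀ D, (∀ a, (Q a).totalDegree ≤ D) → ∀ K,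
      ∀ᶠ j : ℕ in atTop, Adm u D K j x fun a => c • Q a) ∧
    (∀ x y Q Q', JetAt u x Q → JetAt u y Q' → ‖x - y‖ = 1 → EdgeId Q Q') ∧
    ∀ x, IsoX u x → ∀ᶠ D : ℕ in atTop, ∀ K, ∀ᶠ j : ℕ in atTop, x ∈ Pc u D K j (Cl2 j)

def SCaseB : Prop :=
  ∀ (d n : ℕ) (P : E d → Matrix (Ix n) (Ix n) ℝ) (u : E d → Ix n → ℝ), 2 ≤ d → Field P →
    JetField P u →
    (∃ g : E d → E n, Iso g ∧ ∀ᵐ x, ∀ a b, P x a b = P x sI sI * lift (g x) a * lift (g x) b) ∨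
      AllPair fun x y => ¬ (IsoX u x ∧ IsoX u y)

/-- regular simplices with a given edge. -/
def SSimp : Prop :=
  ∀ (d : ℕ) (w : E d), ‖w‖ = 1 → ∃ v : Fin (d + 1) → E d, v 0 = 0 ∧ v (Fin.last d) = w ∧
    ∀ k l, k ≠ l → ‖v k - v l‖ = 1

def SOrtJ : Prop :=
  ∀ (d n : ℕ) (P : E d → Matrix (Ix n) (Ix n) ℝ) (u : E d → Ix n → ℝ), 3 ≤ d → n + 2 ≤ 2 * d →
    JetField P u → (AllPair fun x y => ¬ (IsoX u x ∧ IsoX u y)) →
    AllPair fun x y => ∀ Q Q', Jt u x Q → Jt u y Q' → Ort Q Q'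

/-- the pieces are closed and monotone. -/
def SPvC : Prop :=
  ∀ (d n : ℕ) (u : E d → Ix n → ℝ),
    (∀ (D K j : ℕ) (z : E d) (a : Ix n), IsClosed (Pc u D K j (Ph j z a))) ∧
    (∀ (D D' K K' j j' : ℕ) (x : E d) (Q : Ix n → MP d), D ≤ D' → K' ≤ K → 1 ≤ j → j ≤ j' →
      Adm u D K j x Q → Adm u D' K' j' x Q) ∧
    ∀ (j j' : ℕ) (z : E d) (a : Ix n) (Q : Ix n → MP d), j ≤ j' → Ph j z a Q → Ph j' z a Q

/-- the estimate on a piece. -/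
def SPvH : Prop :=
  ∀ (d n : ℕ) (u : E d → Ix n → ℝ), UF u →
    (∀ (D p j : ℕ) (z : E d) (a : Ix n), 1 ≤ p → 1 ≤ j → ∃ C r : ℝ, 0 ≤ C ∧ 0 < r ∧
      ∀ K, 2 * D + p ≤ K → ∀ x y Q Q', Adm u D K j x Q → Adm u D K j y Q' → ‖x‖ ≤ j →
        ‖x - y‖ ≤ r → Ph j z a Q → Ph j z a Q' →
        ‖nv a (evv Q z) - nv a (evv Q' z)‖ ≤ C * ‖x - y‖ ^ p) ∧
    ∀ (D K j : ℕ) x Q Q', 2 * D + 1 ≤ K → 1 ≤ j → ‖x‖ ≤ j → Adm u D K j x Q → Adm u D K j x Q' →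
      ParP Q Q'

/-- exhaustion by pieces, and orthogonality of parallel vectors. -/
def SPvE : Prop :=
  ∀ (d n : ℕ), (∀ (u : E d → Ix n → ℝ) (x : E d) (Q : Ix n → MP d), 2 ≤ d → UF u → Jt u x Q →
    ∃ (D : ℕ) (z : Fin d → ℚ) (a : Ix n), ∀ K, ∃ j, 1 ≤ j ∧ x ∈ Pc u D K j (Ph j (qp z) a)) ∧
    ∀ R Q Q' : Ix n → MP d, ParP R Q → Q ≠ 0 → Ort Q Q' → Ort R Q'

/-- the field on one family of pieces. -/
def SVone : Prop :=
  ∀ (d n : ℕ) (u : E d → Ix n → ℝ) (D : ℕ) (z : E d) (a : Ix n), UF u →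
    ∃ V : E d → Ix n → ℝ, Measurable V ∧ ∀ (K j : ℕ) x Q, 2 * D + 1 ≤ K → 1 ≤ j → ‖x‖ ≤ j →
      Adm u D K j x Q → Ph j z a Q → V x = nv a (evv Q z)

/-- the flat field. -/
def SVf : Prop :=
  ∀ (d n : ℕ) (P : E d → Matrix (Ix n) (Ix n) ℝ) (u : E d → Ix n → ℝ), 2 ≤ d → JetField P u →
    ∃ V : E d → Ix n → ℝ, Measurable V ∧
      (∀ᵐ x, 0 < lz (V x) (V x) ∧ ∃ (Q R : Ix n → MP d) (z : E d) (c : ℝ), Jt u x Q ∧ ParP R Q ∧
        V x = c • evv R z) ∧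
      ∀ᵐ x : E d, ∀ K : ℕ, ∃ C : ℝ, Small fun τ => {η | C * τ ^ K < ‖V (x + η) - V x‖}

/-! ### Basic facts -/

section kit

variable {d n : ℕ}

@[simp] theorem ev2_add (F G : BP d) (x y : E d) : ev2 (F + G) x y = ev2 F x y + ev2 G x y := by
  simp [ev2]
@[simp] theorem ev2_sub (F G : BP d) (x y : E d) : ev2 (F - G) x y = ev2 F x y - ev2 G x y := by
  simp [ev2]
@[simp] theorem ev2_mul (F G : BP d) (x y : E d) : ev2 (F * G) x y = ev2 F x y * ev2 G x y := by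
  simp [ev2]
@[simp] theorem ev2_neg (F : BP d) (x y : E d) : ev2 (-F) x y = -ev2 F x y := by simp [ev2]
@[simp] theorem ev2_zero (x y : E d) : ev2 (0 : BP d) x y = 0 := by simp [ev2]
@[simp] theorem ev2_one (x y : E d) : ev2 (1 : BP d) x y = 1 := by simp [ev2]
@[simp] theorem ev2_two (x y : E d) : ev2 (2 : BP d) x y = 2 := map_ofNat _ 2
@[simp] theorem ev2_sum {ι : Type} (s : Finset ι) (F : ι → BP d) (x y : E d) :
    ev2 (∑ i ∈ s, F i) x y = ∑ i ∈ s, ev2 (F i) x y := by simp [ev2]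
@[simp] theorem ev2_inl (q : MP d) (x y : E d) :
    ev2 (MvPolynomial.rename Sum.inl q) x y = ev q x := by
  rw [ev2, MvPolynomial.eval_rename]; rfl
@[simp] theorem ev2_inr (q : MP d) (x y : E d) :
    ev2 (MvPolynomial.rename Sum.inr q) x y = ev q y := by
  rw [ev2, MvPolynomial.eval_rename]; rfl

theorem ev2_Kp (Q Q' : Ix n → MP d) (x y : E d) :
    ev2 (Kp Q Q') x y = lz (evv Q x) (evv Q' y) := by
  rw [lz_eq]; simp [Kp, evv]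

theorem ev2_nx (x y : E d) : ev2 (nx d) x y = ‖x‖ ^ 2 := by
  simp [nx, ev2, EuclideanSpace.norm_sq_eq]

theorem ev2_ny (x y : E d) : ev2 (ny d) x y = ‖y‖ ^ 2 := by
  simp [ny, ev2, EuclideanSpace.norm_sq_eq]

theorem ev2_xy (x y : E d) : ev2 (xy d) x y = ⟪x, y⟫ := by
  simp [xy, ev2, PiLp.inner_apply, mul_comm]

theorem ev2_sP (x y : E d) : ev2 (sP d) x y = 1 - ‖x - y‖ ^ 2 := by
  simp only [sP, ev2_sub, ev2_add, ev2_mul, ev2_one, ev2_two, ev2_nx, ev2_ny, ev2_xy,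
    norm_sub_sq_real]
  ring

theorem eq_zero_of_ev2 {F : BP d} (h : ∀ x y, ev2 F x y = 0) : F = 0 :=
  MvPolynomial.funext fun v => by
    have := h (WithLp.toLp 2 fun i => v (Sum.inl i)) (WithLp.toLp 2 fun i => v (Sum.inr i))
    rw [ev2, show (Sum.elim (fun i => (WithLp.toLp 2 fun i => v (Sum.inl i) : E d) i)
      fun i => (WithLp.toLp 2 fun i => v (Sum.inr i) : E d) i) = v from
        funext fun a => by cases a <;> rfl] at this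
    simpa using this

theorem evc_nx (x y : Fin d → ℂ) : evc (nx d) x y = x ⬝ᵥ x := by
  simp [evc, nx, dotProduct, sq]

theorem evc_ny (x y : Fin d → ℂ) : evc (ny d) x y = y ⬝ᵥ y := by
  simp [evc, ny, dotProduct, sq]

theorem evc_xy (x y : Fin d → ℂ) : evc (xy d) x y = x ⬝ᵥ y := by
  simp [evc, xy, dotProduct]

theorem Ort.symm {Q Q' : Ix n → MP d} (h : Ort Q Q') : Ort Q' Q := fun z z' => by
  rw [lz_comm]; exact h z' z

end kit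

end Pool.Agent.MP_66cee2_co.D
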