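import Pool.Agent.MP_66cee2_co.D.Defs

/-
The topological theorem in every dimension: definitions, rows, and the induction.
-/

namespace Pool.Agent.MP_66cee2_co.D

open Set Metric Module Pool.Agent.MP_66cee2_co.X
open scoped RealInnerProductSpace

/-! ### Algebra -/

/-- the vectors of `W` orthogonal to `q` and `q'`. -/
def nxt {n : ℕ} (W : Submodule ℝ (Ix n → ℝ)) (q q' : Ix n → ℝ) : Submodule ℝ (Ix n → ℝ) where
  carrier := {w | w ∈ W ∧ lz w q = 0 ∧ lz w q' = 0}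
  add_mem' := fun {a b} ha hb => ⟨W.add_mem ha.1 hb.1,
    (add_dotProduct a b _).trans ((congrArg₂ _ ha.2.1 hb.2.1).trans (add_zero 0)),
    (add_dotProduct a b _).trans ((congrArg₂ _ ha.2.2 hb.2.2).trans (add_zero 0))⟩
  zero_mem' := ⟨W.zero_mem, zero_dotProduct _, zero_dotProduct _⟩
  smul_mem' := fun c a ha => ⟨W.smul_mem c ha.1,
    (smul_dotProduct c a _).trans ((congrArg _ ha.2.1).trans (smul_zero c)),
    (smul_dotProduct c a _).trans ((congrArg _ ha.2.2).trans (smul_zero c))⟩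

/-- two vectors define proportional functionals on `W`. -/
def Eqv {n : ℕ} (W : Submodule ℝ (Ix n → ℝ)) (v q : Ix n → ℝ) : Prop :=
  ∃ c : ℝ, c ≠ 0 ∧ ∀ w ∈ W, lz w v = c * lz w q

/-- after `k` steps `W` is orthogonal to about `2 k` orthogonal positive vectors. -/
def St {n : ℕ} (k : ℕ) (W : Submodule ℝ (Ix n → ℝ)) : Prop :=
  ∃ (N : ℕ) (u : Fin N → Ix n → ℝ), (∀ i, 0 < lz (u i) (u i)) ∧
    (∀ i j, i ≠ j → lz (u i) (u j) = 0) ∧ (∀ w ∈ W, ∀ i, lz w (u i) = 0) ∧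
    (2 * k ≤ N ∨ (2 * k ≤ N + 1 ∧ ∀ w ∈ W, 0 ≤ lz w w))

/-- row TAlg: one step of the count. -/
def STAlg : Prop :=
  ∀ (n k : ℕ) (W : Submodule ℝ (Ix n → ℝ)) (q q' : Ix n → ℝ), St k W → q ∈ W → q' ∈ W →
    0 < lz q q → 0 < lz q' q' → ¬ Eqv W q' q → St (k + 1) (nxt W q q')

/-- row TCnt: at most `n + 1` orthogonal positive vectors. -/
def STCnt : Prop :=
  ∀ (n k : ℕ) (W : Submodule ℝ (Ix n → ℝ)) (w : Ix n → ℝ), St k W → w ∈ W → 0 < lz w w →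
    2 * k ≤ n + 1

/-! ### Geometry -/

/-- the sphere of centre `o` and radius `ρ` with directions in `V`. -/
def Sph {d : ℕ} (o : E d) (V : Submodule ℝ (E d)) (ρ : ℝ) : Set (E d) :=
  {y | y - o ∈ V ∧ ‖y - o‖ = ρ}

/-- `B` contains a sphere up to a small ball. -/
def Inv {d : ℕ} (B : Set (E d)) (m : ℕ) : Prop :=
  ∃ (o : E d) (V : Submodule ℝ (E d)) (ρ : ℝ) (y₀ : E d), m ≤ finrank ℝ V ∧ 0 < ρ ∧
    1 / 2 < ρ ^ 2 ∧ ρ ^ 2 ≤ 4 / 5 ∧ ∀ y ∈ Sph o V ρ, 1 / 8 ≤ ‖y - y₀‖ → y ∈ B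

/-- `B` contains an arc with a unit pair, and a sphere of neighbours of each of its points. -/
def Arcs {d : ℕ} (B : Set (E d)) (m : ℕ) : Prop :=
  ∃ K A : Set (E d), IsCompact K ∧ K ⊆ B ∧ A ⊆ K ∧ IsPreconnected A ∧
    (∃ y ∈ A, ∃ z ∈ A, ‖y - z‖ = 1) ∧
    ∀ ζ ∈ A, ∃ (o : E d) (V : Submodule ℝ (E d)) (ρ : ℝ), m ≤ finrank ℝ V ∧ 0 < ρ ∧
      1 / 2 < ρ ^ 2 ∧ ρ ^ 2 ≤ 4 / 5 ∧ ∀ y ∈ Sph o V ρ, y ∈ K ∧ ‖y - ζ‖ = 1

/-- the part of `B` in the band around `ζ` lies in `B'`. -/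
def Band {d : ℕ} (B B' : Set (E d)) (ζ e : E d) : Prop :=
  ∀ v : E d, ‖v‖ = 1 → |⟪v, e⟫| ≤ 127 / 128 → ζ + v ∈ B → ζ + v ∈ B'

/-- row TSlice: the unit neighbours on a sphere of a point of the sphere. -/
def STSlice : Prop :=
  ∀ (d m : ℕ) (o : E d) (V : Submodule ℝ (E d)) (ρ : ℝ) (ζ : E d), m + 1 ≤ finrank ℝ V → 0 < ρ →
    1 / 2 < ρ ^ 2 → ζ ∈ Sph o V ρ →
    ∃ (o' : E d) (V' : Submodule ℝ (E d)) (ρ' : ℝ), m ≤ finrank ℝ V' ∧ 0 < ρ' ∧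
      ρ' ^ 2 = 1 - 1 / (4 * ρ ^ 2) ∧
      o' - o = ((ρ ^ 2 - 1 / 2) / ρ ^ 2) • (ζ - o) ∧
      ∀ y ∈ Sph o' V' ρ', y ∈ Sph o V ρ ∧ ‖y - ζ‖ = 1

/-- row TArc: the arc opposite to the small ball. -/
def STArc : Prop :=
  ∀ (d m : ℕ) (B : Set (E d)), 1 ≤ m → Inv B (m + 1) → Arcs B m

/-- row TStart: the arc on the equator of the first band; the last sphere has a good point. -/
def STStart : Prop :=
  (∀ (d : ℕ) (B : Set (E d)) (ζ e : E d), 3 ≤ d → ‖e‖ = 1 → Band univ B ζ e → Arcs B (d - 1)) ∧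
  ∀ (d : ℕ) (B : Set (E d)), Inv B 1 → B.Nonempty

/-- row TCap: thickening of the arc, and the caps. -/
def STCap : Prop :=
  ∀ (d m : ℕ) (B : Set (E d)), IsOpen B → Arcs B m →
    ∃ G : Set (E d), IsOpen G ∧ IsPreconnected G ∧ G ⊆ B ∧ (∃ y ∈ G, ∃ z ∈ G, ‖y - z‖ = 1) ∧
      ∀ ζ ∈ G, ∀ (e : E d) (B' : Set (E d)), ‖e‖ = 1 → Band B B' ζ e → Inv B' m

/-! ### The contact step -/

/-- all labels of points of `B` lie in `W`. -/
def Lab {d n : ℕ} (O : (Ix n → ℝ) → Set (E d)) (B : Set (E d)) (W : Submodule ℝ (Ix n → ℝ)) :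
    Prop := ∀ v, ∀ y ∈ O v, y ∈ B → v ∈ W

/-- row TStep: a contact point gives two inequivalent labels and a band. -/
def STStep : Prop :=
  ∀ (d n : ℕ) (O : (Ix n → ℝ) → Set (E d)) (B G : Set (E d)) (W : Submodule ℝ (Ix n → ℝ)),
    Fam O → IsOpen B → Lab O B W → IsOpen G → IsPreconnected G → G ⊆ B →
    (∃ y ∈ G, ∃ z ∈ G, ‖y - z‖ = 1) →
    ∃ (q q' : Ix n → ℝ) (ζ e : E d) (B' : Set (E d)), q ∈ W ∧ q' ∈ W ∧ 0 < lz q q ∧
      0 < lz q' q' ∧ ¬ Eqv W q' q ∧ ζ ∈ G ∧ ‖e‖ = 1 ∧ IsOpen B' ∧ Lab O B' (nxt W q q') ∧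
      Band B B' ζ e

theorem sTT_of (h1 : STAlg) (h2 : STCnt) (h3 : STArc) (h4 : STStart) (h5 : STCap)
    (h6 : STStep) : STT := by
  intro d n O hd hn hO
  have step : ∀ (k m : ℕ) (B : Set (E d)) (W : Submodule ℝ (Ix n → ℝ)), IsOpen B → Lab O B W →
      St k W → Arcs B m → ∃ (B' : Set (E d)) (W' : Submodule ℝ (Ix n → ℝ)), IsOpen B' ∧
        Lab O B' W' ∧ St (k + 1) W' ∧ Inv B' m := by
    intro k m B W hB hL hS hA
    obtain ⟨G, g1, g2, g3, g4, g5⟩ := h5 d m B hB hA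
    obtain ⟨q, q', ζ, e, B', a1, a2, a3, a4, a5, a6, a7, a8, a9, a10⟩ :=
      h6 d n O B G W hO hB hL g1 g2 g3 g4
    exact ⟨B', _, a8, a9, h1 n k W q q' hS a1 a2 a3 a4 a5, g5 ζ a6 e B' a7 a10⟩
  have main : ∀ j : ℕ, j + 2 ≤ d → ∃ (B : Set (E d)) (W : Submodule ℝ (Ix n → ℝ)), IsOpen B ∧
      Lab O B W ∧ St (j + 2) W ∧ Inv B (d - 1 - j) := by
    intro j
    induction j with
    | zero =>
      intro _
      have s0 : St 0 (⊤ : Submodule ℝ (Ix n → ℝ)) :=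
        ⟨0, fun i => i.elim0, fun i => i.elim0, fun i => i.elim0, fun _ _ i => i.elim0,
          Or.inl le_rfl⟩
      have hu : ∃ y ∈ (univ : Set (E d)), ∃ z ∈ (univ : Set (E d)), ‖y - z‖ = 1 :=
        ⟨EuclideanSpace.single ⟨0, by omega⟩ 1, mem_univ _, 0, mem_univ _, by simp⟩
      obtain ⟨q, q', ζ, e, B', a1, a2, a3, a4, a5, -, a7, a8, a9, a10⟩ :=
        h6 d n O univ univ ⊤ hO isOpen_univ (fun _ _ _ _ => Submodule.mem_top) isOpen_univ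
          isPreconnected_univ subset_rfl hu
      exact step 1 (d - 1) B' _ a8 a9 (h1 n 0 ⊤ q q' s0 a1 a2 a3 a4 a5) (h4.1 d B' ζ e hd a7 a10)
    | succ j ih =>
      intro hj
      obtain ⟨B, W, b1, b2, b3, b4⟩ := ih (by omega)
      have e1 : d - 1 - j = d - 1 - (j + 1) + 1 := by omega
      rw [e1] at b4
      exact step (j + 2) _ B W b1 b2 b3 (h3 d _ B (by omega) b4)
  obtain ⟨B, W, b1, b2, b3, b4⟩ := main (d - 2) (by omega)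
  have e1 : d - 1 - (d - 2) = 1 := by omega
  have e2 : d - 2 + 2 = d := by omega
  rw [e1] at b4
  rw [e2] at b3
  obtain ⟨x, hxB, hx⟩ := hO.dense.inter_open_nonempty B b1 (h4.2 d B b4)
  obtain ⟨w, hw⟩ := mem_iUnion.1 hx
  have := h2 n d W w b3 (b2 w x hw hxB) (hO.pos w ⟨x, hw⟩)
  omega

end Pool.Agent.MP_66cee2_co.D
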