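import Pool.Agent.MP_66cee2_co.D.Defs

/-! Transfer from arbitrary maps to measurable fields in every dimension: definitions and rows. -/

namespace Pool.Agent.MP_66cee2_co.D.TX

open MeasureTheory Filter Topology Matrix
open Pool.Agent.MP_66cee2_co.XT (Eu Lift MS AllIso Bd Mean av RowMEAN RowDEF RowLIM RowTR)

noncomputable section

/-! ### Rotations with algebraic entries -/

/-- The real algebraic numbers. -/
def KR : Subfield ℝ := (algebraicClosure ℚ ℝ).toSubfield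

instance countableKR : Countable KR :=
  ((Algebraic.countable ℚ ℝ).mono fun _ h => mem_algebraicClosure_iff.1 h).to_subtype

/-- The algebraic points of the unit circle. -/
@[ext] structure U1 where
  a : KR
  b : KR
  h : a ^ 2 + b ^ 2 = 1

instance : Countable U1 :=
  Function.Injective.countable (f := fun c : U1 => (c.a, c.b)) fun _ _ h =>
    U1.ext (congrArg Prod.fst h) (congrArg Prod.snd h)

instance : Zero U1 := ⟨⟨1, 0, by simp⟩⟩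

instance : Add U1 := ⟨fun c e => ⟨c.a * e.a - c.b * e.b, c.a * e.b + c.b * e.a, by
  linear_combination (e.a ^ 2 + e.b ^ 2) * c.h + e.h⟩⟩

instance : Neg U1 := ⟨fun c => ⟨c.a, -c.b, by linear_combination c.h⟩⟩

@[simp] theorem zero_a : (0 : U1).a = 1 := rfl
@[simp] theorem zero_b : (0 : U1).b = 0 := rfl
@[simp] theorem add_a (c e : U1) : (c + e).a = c.a * e.a - c.b * e.b := rfl
@[simp] theorem add_b (c e : U1) : (c + e).b = c.a * e.b + c.b * e.a := rfl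
@[simp] theorem neg_a (c : U1) : (-c).a = c.a := rfl
@[simp] theorem neg_b (c : U1) : (-c).b = -c.b := rfl

instance : AddCommGroup U1 :=
  { AddGroup.ofLeftAxioms (fun c e f => U1.ext (by simp only [add_a, add_b]; ring)
      (by simp only [add_a, add_b]; ring)) (fun c => U1.ext (by simp) (by simp))
      (fun c => U1.ext (by simp only [add_a, neg_a, neg_b, zero_a]; linear_combination c.h)
        (by simp only [add_b, neg_a, neg_b, zero_b]; ring)) with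
    add_comm := fun c e => U1.ext (by simp only [add_a]; ring) (by simp only [add_b]; ring) }

/-- Rational elements. -/
def IsQ (t : KR) : Prop := ∃ q : ℚ, t = q

section rot

variable {d : ℕ}

/-- The rotation by `c` in the plane of the coordinates `i`, `j`. -/
def Rt (i j : Fin d) (c : U1) (v : Fin d → KR) : Fin d → KR := fun k =>
  if k = i then c.a * v i - c.b * v j else if k = j then c.b * v i + c.a * v j else v k

/-- The rotation in the plane of the coordinates `j`, `j + 1`. -/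
def Rj (j : ℕ) (c : U1) (v : Fin d → KR) : Fin d → KR :=
  if h : j + 1 < d then Rt ⟨j, by omega⟩ ⟨j + 1, h⟩ c v else v

/-- Frames. -/
abbrev Fr (d : ℕ) : Type := (Fin d → KR) → Fin d → KR

/-- The chain of means over the frames `R₀ (c₀) ⋯ R_{j-1} (c_{j-1})`. -/
def Ch (M : (U1 → ℝ) → ℝ) : ℕ → (Fr d → ℝ) → ℝ
  | 0, F => F id
  | j + 1, F => M fun c => Ch M j fun A => F (A ∘ Rj j c)

/-- A point with algebraic coordinates. -/
def eK (v : Fin d → KR) : Eu d := WithLp.toLp 2 fun k => (v k : ℝ)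

/-- A rational point as an algebraic point. -/
def qK (z : Fin d → ℚ) : Fin d → KR := fun k => (z k : KR)

/-- A rational point as a point of the space. -/
def em (z : Fin d → ℚ) : Eu d := WithLp.toLp 2 fun k => (z k : ℝ)

/-- All coordinates are nonzero. -/
def Gen (z : Fin d → ℚ) : Prop := ∀ k, z k ≠ 0

/-- The action of a matrix. -/
def rot (A : Fin d → Fin d → ℝ) (v : Eu d) : Eu d := WithLp.toLp 2 fun i => ∑ j, A i j * v j

/-- The matrix of a frame. -/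
def mat (A : Fr d) : Fin d → Fin d → ℝ := fun i j => (A (Pi.single j 1) i : ℝ)

/-- Linear isometric frames. -/
structure Lin (A : Fr d) : Prop where
  add : ∀ v v', A (v + v') = A v + A v'
  eq : ∀ v, eK (A v) = rot (mat A) (eK v)
  iso : ∀ x : Eu d, ‖rot (mat A) x‖ = ‖x‖

/-- Real positive definite functions. -/
def PDr {G : Type} [AddCommGroup G] (φ : G → ℝ) : Prop := X.PD fun v => (φ v : ℂ)

/-- Continuity at the origin along the rational points of an axis. -/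
def Mod (g : (Fin d → KR) → ℝ) (i : Fin d) : Prop :=
  ∀ ε : ℝ, 0 < ε → ∃ δ : ℝ, 0 < δ ∧ ∀ q : ℚ, |(q : ℝ)| < δ → g 0 - g (Pi.single i (q : KR)) ≤ ε

end rot

/-- One step. -/
def RowSTEP : Prop :=
  ∀ (d : ℕ) (i j : Fin d) (φ : (Fin d → KR) → ℝ), i ≠ j → PDr φ → (∀ c v, φ (Rt i j c v) = φ v) →
    ∃ g : (Fin d → KR) → ℝ, PDr g ∧ (∀ s, g 0 - g s ≤ φ 0 - φ s) ∧ Mod g i ∧ Mod g j ∧
      (∀ v, IsQ (v i) → IsQ (v j) → v i ≠ 0 → g v = φ v) ∧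
      ∀ k, k ≠ i → k ≠ j → ∀ v, IsQ (v i) → v i ≠ 0 → ∀ S : Finset U1,
        (∀ c ∈ S, IsQ c.a ∧ IsQ c.b) → ∑ c ∈ S, |φ (Rt j k c v) - g (Rt j k c v)| ≤ 2 * φ 0

/-- Means of positive definite functions; means of functions with small sums. -/
def RowMPD : Prop :=
  ∀ M : (U1 → ℝ) → ℝ, Mean M →
    (∀ (d : ℕ) (i j : Fin d) (g : (Fin d → KR) → ℝ), i ≠ j → PDr g → (∀ v, |g v| ≤ g 0) ∧
      PDr (fun v => M fun c => g (Rt i j c v)) ∧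
      ∀ c' v, (M fun c => g (Rt i j c (Rt i j c' v))) = M fun c => g (Rt i j c v)) ∧
    (∀ (d : ℕ) (i j : Fin d) (c c' : U1) (v : Fin d → KR), i ≠ j →
      Rt i j (c + c') v = Rt i j c (Rt i j c' v)) ∧
    ∀ (w : U1 → ℝ) (B : ℝ), Bd w → (∀ (c₀ : U1) (S : Finset U1), (∀ c ∈ S, IsQ c.a ∧ IsQ c.b) →
      ∑ c ∈ S, |w (c + c₀)| ≤ B) → M w = 0

/-- Extension by uniform continuity. -/
def RowEXT : Prop :=
  ∀ (d : ℕ) (g : (Fin d → KR) → ℝ), PDr g → (∀ i, Mod g i) →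
    ∃ ψ : Eu d → ℝ, Continuous ψ ∧ ∀ z, g (qK z) = ψ (em z)

/-- The chain of means of a positive definite function is continuous at generic points. -/
def RowRPD : Prop :=
  ∀ (d : ℕ) (M : (U1 → ℝ) → ℝ) (φ : (Fin d → KR) → ℝ), 2 ≤ d → Mean M → PDr φ →
    ∃ ψ : Eu d → ℝ, Continuous ψ ∧ ∀ z, Gen z → Ch M (d - 1) (fun A => φ (A (qK z))) = ψ (em z)

/-- The chain of means is a positive functional that lives on the linear isometric frames. -/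
def RowCH : Prop :=
  ∀ (d : ℕ) (M : (U1 → ℝ) → ℝ), Mean M → ∀ j : ℕ,
    (∀ F G : Fr d → ℝ, (∀ A, Lin A → F A = G A) → Ch M j F = Ch M j G) ∧
    (∀ F G : Fr d → ℝ, Bd F → Bd G → Ch M j (fun A => F A + G A) = Ch M j F + Ch M j G) ∧
    (∀ (c : ℝ) (F : Fr d → ℝ), Bd F → Ch M j (fun A => c * F A) = c * Ch M j F) ∧
    ∀ (c : ℝ) (F : Fr d → ℝ), Bd F → (∀ A, Lin A → c ≤ F A) → c ≤ Ch M j F

/-! ### The space of configurations -/

/-- Position, frame and the values of the map. -/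
abbrev Om (d n : ℕ) : Type := Eu d × (Fin d → Fin d → ℝ) × ((Fin d → ℚ) → Eu n)

section space

variable {d n : ℕ}

/-- The position of the point `v` of the moving frame. -/
def ps (w : Om d n) (v : Eu d) : Eu d := w.1 + rot w.2.1 v

/-- Signs. -/
def Un (l : ℚ) : Prop := l = 1 ∨ l = -1

/-- Change of the frame by `z ↦ a + l z`. -/
def mv (a : Fin d → ℚ) (l : ℚ) (w : Om d n) : Om d n :=
  (ps w (em a), fun i j => w.2.1 i j * (l : ℝ), fun z => w.2.2 (a + l • z))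

def XS (C ε : ℝ) (O₁ O₂ : Set (Eu d)) : Set (Om d n) :=
  {w | (∀ v, ‖rot w.2.1 v‖ = ‖v‖) ∧ (∀ z, ‖w.2.2 z‖ ≤ C + 2 * ‖ps w (em z)‖) ∧
    (∀ z z', ‖em z - em z'‖ = 1 → ‖w.2.2 z - w.2.2 z'‖ = 1) ∧
    ∀ z z', ps w (em z) ∈ O₁ → ps w (em z') ∈ O₂ → ‖w.2.2 z - w.2.2 z'‖ ≤ ‖em z - em z'‖ - ε}

/-- A function of the position and of the value at `z`. -/
def ev (ξ : Eu d × Eu n → ℝ) (z : Fin d → ℚ) (w : Om d n) : ℝ := ξ (ps w (em z), w.2.2 z)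

/-- An invariant measure on the configurations. -/
structure Sy (C ε : ℝ) (O₁ O₂ : Set (Eu d)) (ν : Measure (Om d n)) : Prop where
  ae : ∀ᵐ w ∂ν, w ∈ XS C ε O₁ O₂
  ne : ν ≠ 0
  fin : ∀ R : ℝ, ν {w | ‖w.1‖ ≤ R} ≠ ⊤
  inv : ∀ a l, Un l → MeasurePreserving (mv a l) ν ν
  cor : ∀ ξ : Eu d × Eu n → ℝ, Continuous ξ → HasCompactSupport ξ → ∃ ψ : Eu d → ℝ,
    Continuous ψ ∧ ∀ z, Gen z → ∫ w, ev ξ 0 w * ev ξ z w ∂ν = ψ (em z)

/-- Bounded functions that vanish for far positions. -/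
def Cl (φ : Om d n → ℝ) : Prop := ∃ B R : ℝ, ∀ w, |φ w| ≤ B ∧ (R < ‖w.1‖ → φ w = 0)

/-- An invariant positive functional that lives on `S`. -/
structure Fn (S : Set (Om d n)) (Λ : (Om d n → ℝ) → ℝ) : Prop where
  add : ∀ φ ψ, Cl φ → Cl ψ → Λ (fun w => φ w + ψ w) = Λ φ + Λ ψ
  smul : ∀ (c : ℝ) φ, Cl φ → Λ (fun w => c * φ w) = c * Λ φ
  pos : ∀ φ, Cl φ → (∀ w, 0 ≤ φ w) → 0 ≤ Λ φ
  congr : ∀ φ ψ, (∀ w ∈ S, φ w = ψ w) → Λ φ = Λ ψ
  ne : ∃ R : ℝ, ∀ φ, Cl φ → (∀ w, 0 ≤ φ w) → (∀ w ∈ S, ‖w.1‖ ≤ R → 1 ≤ φ w) → 1 ≤ Λ φ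
  cor : ∀ ξ : Eu d × Eu n → ℝ, Bd ξ → (∃ R : ℝ, ∀ p, R < ‖p.1‖ → ξ p = 0) → ∃ ψ : Eu d → ℝ,
    Continuous ψ ∧ ∀ z, Gen z → Λ (fun w => ev ξ 0 w * ev ξ z w) = ψ (em z)

/-- Invariance of a functional. -/
def FI (U : ℚ → Prop) (Λ : (Om d n → ℝ) → ℝ) : Prop :=
  ∀ φ a l, Cl φ → U l → Λ (fun w => φ (mv a l w)) = Λ φ

/-- The configuration of a map at a position and in a frame. -/
def W (f : Eu d → Eu n) (a : Fin d → KR) (A : Fr d) : Om d n :=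
  (eK a, mat A, fun z => f (eK (a + A (qK z))))

/-- The sum over the lattice. -/
def Ph (f : Eu d → Eu n) (φ : Om d n → ℝ) (a : Fin d → KR) (A : Fr d) : ℝ :=
  ∑ᶠ r : Fin d → ℤ, φ (W f ((fun k => (r k : KR)) + a) A)

/-- Families of rational points near a given point, in general position. -/
structure Pts (pt : ℕ → ℕ → Eu d → Fin d → ℚ) : Prop where
  near : ∀ ε : ℝ, 0 < ε → ∃ N, ∀ j, N ≤ j → ∀ i, i ≤ j → ∀ v, ‖em (pt j i v) - v‖ ≤ ε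
  meas : ∀ j i z, MeasurableSet {v | pt j i v = z}
  gen : ∀ j i j' v v', {i' | i' ≤ j' ∧ ¬Gen (pt j' i' v' - pt j i v)}.ncard ≤ d

/-- The weighted entries of the rank one matrix. -/
def xi {ι : Type} (χ : Eu d → ℝ) (F : Eu n → ι → ℝ) (a b : ι) (p : Eu d × Eu n) : ℝ :=
  χ p.1 * (F p.2 a * F p.2 b)

/-- The averaged field of matrices. -/
def PJ {ι : Type} (χ : Eu d → ℝ) (F : Eu n → ι → ℝ) (pt : ℕ → ℕ → Eu d → Fin d → ℚ) (j : ℕ)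
    (v : Eu d) (w : Om d n) : Matrix ι ι ℝ :=
  Matrix.of fun a b => av j fun i => ev (xi χ F a b) (pt j i v) w

/-- The weight. -/
structure Wt {ι : Type} (ν : Measure (Om d n)) (F : Eu n → ι → ℝ) (χ : Eu d → ℝ) : Prop where
  meas : Measurable χ
  low : ∀ R : ℝ, ∃ κ : ℝ, 0 < κ ∧ ∀ a, ‖a‖ ≤ R → κ ≤ χ a
  mem : ∀ a b, MemLp (ev (xi χ F a b) (0 : Fin d → ℚ)) 2 ν

end space

/-! ### Rows -/

def RowXS : Prop :=
  ∀ (d n : ℕ) (C ε : ℝ) (O₁ O₂ : Set (Eu d)), IsOpen O₁ → IsOpen O₂ →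
    IsClosed (XS C ε O₁ O₂ : Set (Om d n)) ∧
    (∀ R : ℝ, IsCompact {w : Om d n | w ∈ XS C ε O₁ O₂ ∧ ‖w.1‖ ≤ R}) ∧
    ∀ (a : Fin d → ℚ) (l : ℚ), Un l → Continuous (mv a l : Om d n → Om d n) ∧
      ∀ w : Om d n, w ∈ XS C ε O₁ O₂ →
        mv a l w ∈ XS C ε O₁ O₂ ∧ ‖w.1‖ ≤ ‖(mv a l w).1‖ + ‖em a‖

/-- The lattice sums. -/
def RowPH : Prop :=
  ∀ (d n : ℕ) (f : Eu d → Eu n),
    (∀ φ : Om d n → ℝ, Cl φ → ∃ D : ℝ, ∀ a A,
      (Function.support fun r : Fin d → ℤ => φ (W f ((fun k => (r k : KR)) + a) A)).Finite ∧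
        |Ph f φ a A| ≤ D) ∧
    (∃ R : ℝ, ∀ a : Fin d → KR, ∃ r : Fin d → ℤ, ‖eK ((fun k => (r k : KR)) + a)‖ ≤ R) ∧
    (∀ a A z, Lin A → ps (W f a A) (em z) = eK (a + A (qK z))) ∧
    (∀ a A b, Lin A → mv b 1 (W f a A) = W f (a + A (qK b)) A) ∧
    ∀ (C ε : ℝ) (O₁ O₂ : Set (Eu d)), (∀ x y, ‖x - y‖ = 1 → ‖f x - f y‖ = 1) →
      (∀ x, ‖f x‖ ≤ C + 2 * ‖x‖) → (∀ p ∈ O₁, ∀ q ∈ O₂, ‖f p - f q‖ ≤ ‖p - q‖ - ε) →
      ∀ a A, Lin A → W f a A ∈ XS C ε O₁ O₂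

/-- The correlation over the translations is positive definite. -/
def RowPDC : Prop :=
  ∀ (d : ℕ) (M : ((Fin d → KR) → ℝ) → ℝ) (η : (Fin d → KR) → ℝ), Mean M → Bd η →
    (∃ R : ℝ, ∀ a, R < ‖eK a‖ → η a = 0) →
    PDr fun v => M fun a => ∑ᶠ r : Fin d → ℤ,
      η ((fun k => (r k : KR)) + a) * η ((fun k => (r k : KR)) + a + v)

/-- A functional that is invariant under the translations. -/
def RowFUN1 : Prop :=
  ∀ (d n : ℕ) (f : Eu d → Eu n) (C ε : ℝ) (O₁ O₂ : Set (Eu d)), 2 ≤ d →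
    (∀ x y, ‖x - y‖ = 1 → ‖f x - f y‖ = 1) →
    (∀ x, ‖f x‖ ≤ C + 2 * ‖x‖) → (∀ p ∈ O₁, ∀ q ∈ O₂, ‖f p - f q‖ ≤ ‖p - q‖ - ε) →
    ∃ Λ : (Om d n → ℝ) → ℝ, Fn (XS C ε O₁ O₂) Λ ∧ FI (fun l => l = 1) Λ

/-- The average over the two signs. -/
def RowSGN : Prop :=
  ∀ (d n : ℕ) (C ε : ℝ) (O₁ O₂ : Set (Eu d)) (Λ : (Om d n → ℝ) → ℝ), IsOpen O₁ → IsOpen O₂ →
    Fn (XS C ε O₁ O₂) Λ → FI (fun l => l = 1) Λ →
    ∃ Λ' : (Om d n → ℝ) → ℝ, Fn (XS C ε O₁ O₂) Λ' ∧ FI Un Λ'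

def RowMEAS : Prop :=
  ∀ (d n : ℕ) (C ε : ℝ) (O₁ O₂ : Set (Eu d)) (Λ : (Om d n → ℝ) → ℝ), IsOpen O₁ → IsOpen O₂ →
    Fn (XS C ε O₁ O₂) Λ → FI Un Λ → ∃ ν : Measure (Om d n), Sy C ε O₁ O₂ ν

/-- The correlation of a square integrable function with itself. -/
def RowCOR1 : Prop :=
  ∀ (d n : ℕ) (C ε : ℝ) (O₁ O₂ : Set (Eu d)) (ν : Measure (Om d n)), Sy C ε O₁ O₂ ν →
    ∀ ξ : Eu d × Eu n → ℝ, Measurable ξ → MemLp (ev ξ (0 : Fin d → ℚ)) 2 ν →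
    ∃ ψ : Eu d → ℝ, Continuous ψ ∧ ∀ z, Gen z → ∫ w, ev ξ 0 w * ev ξ z w ∂ν = ψ (em z)

def RowCORR : Prop :=
  ∀ (d n : ℕ) (C ε : ℝ) (O₁ O₂ : Set (Eu d)) (ν : Measure (Om d n)),
    Sy C ε O₁ O₂ ν → ∀ ξ ξ' : Eu d × Eu n → ℝ, Measurable ξ → Measurable ξ' →
    MemLp (ev ξ (0 : Fin d → ℚ)) 2 ν → MemLp (ev ξ' (0 : Fin d → ℚ)) 2 ν →
    (∀ z : Fin d → ℚ, MemLp (ev ξ z) 2 ν) ∧
    ∃ (φ : (Fin d → ℚ) → ℝ) (ψ : Eu d → ℝ), Continuous ψ ∧ Bd φ ∧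
      (∀ z, Gen z → φ z = ψ (em z)) ∧
      ∀ y y' : Fin d → ℚ, ∫ w, ev ξ y w * ev ξ' y' w ∂ν = φ (y' - y)

def RowPTS : Prop := ∀ d : ℕ, ∃ pt : ℕ → ℕ → Eu d → Fin d → ℚ, Pts pt

def RowSPH : Prop :=
  ∀ d : ℕ, 2 ≤ d → ∀ δ : ℝ, 0 < δ → ∀ u : Eu d, ‖u‖ = 1 →
    ∃ z : Fin d → ℚ, Gen z ∧ ‖em z‖ = 1 ∧ ‖em z - u‖ ≤ δ

def RowAVG : Prop :=
  ∀ (d : ℕ) (pt : ℕ → ℕ → Eu d → Fin d → ℚ), Pts pt →
    ∀ (φ : (Fin d → ℚ) → ℝ) (ψ : Eu d → ℝ) (u : Eu d) (ε : ℝ), Continuous ψ → Bd φ →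
    (∀ z, Gen z → φ z = ψ (em z)) → 0 < ε →
    ∃ N, ∀ j j', N ≤ j → N ≤ j' → ∀ v,
      |av j (fun i => av j' fun i' => φ (pt j' i' (v + u) - pt j i v)) - ψ u| ≤ ε

def RowCHI : Prop :=
  ∀ (d n : ℕ) (C ε : ℝ) (O₁ O₂ : Set (Eu d)) (ν : Measure (Om d n))
    (ι : Type) [Fintype ι] (F : Eu n → ι → ℝ), Sy C ε O₁ O₂ ν → Continuous F → ∃ χ, Wt ν F χ

/-- The averaged fields are Cauchy, and asymptotically orthogonal at unit distance. -/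
def RowCAU : Prop :=
  ∀ (d n : ℕ) (C ε : ℝ) (O₁ O₂ : Set (Eu d))
    (ν : Measure (Om d n)) (ι : Type) [Fintype ι] (J : Matrix ι ι ℝ) (g : ι → ℝ)
    (F : Eu n → ι → ℝ) (χ : Eu d → ℝ) (pt : ℕ → ℕ → Eu d → Fin d → ℚ),
    2 ≤ d → Sy C ε O₁ O₂ ν → Lift J g F → Wt ν F χ → Pts pt →
    (∀ a b j v, MemLp (fun w => PJ χ F pt j v w a b) 2 ν) ∧
    (∀ a b, ∀ η : ℝ, 0 < η → ∃ N, ∀ j j', N ≤ j → N ≤ j' → ∀ v,
      ∫ w, (PJ χ F pt j v w a b - PJ χ F pt j' v w a b) ^ 2 ∂ν ≤ η) ∧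
    ∀ v u : Eu d, ‖u‖ = 1 →
      Tendsto (fun j => ∫ w, (PJ χ F pt j v w * J * PJ χ F pt j (v + u) w * J).trace ∂ν)
        atTop (𝓝 0)

/-- Pointwise facts about limits of the averaged fields. -/
def RowPW : Prop :=
  ∀ (d n : ℕ) (C ε : ℝ) (O₁ O₂ : Set (Eu d)) (ν : Measure (Om d n))
    (ι : Type) [Fintype ι] (J : Matrix ι ι ℝ) (g : ι → ℝ) (F : Eu n → ι → ℝ) (χ : Eu d → ℝ)
    (pt : ℕ → ℕ → Eu d → Fin d → ℚ) (σ : ℕ → ℕ), Lift J g F → Wt ν F χ → Pts pt →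
    Tendsto σ atTop atTop → IsOpen O₁ → IsOpen O₂ →
    (∀ (j : ℕ) (v : Eu d) (w : Om d n), (PJ χ F pt j v w).PosSemidef) ∧
    ∀ w : Om d n, w ∈ XS C ε O₁ O₂ → ∀ (v : Eu d) (P : Matrix ι ι ℝ),
      (∀ a b, Tendsto (fun k => PJ χ F pt (σ k) v w a b) atTop (𝓝 (P a b))) →
      (P.PosSemidef ∧ (P * J).trace = g ⬝ᵥ P *ᵥ g ∧ 0 < g ⬝ᵥ P *ᵥ g) ∧
      ∀ (v' : Eu d) (P' : Matrix ι ι ℝ),
        (∀ a b, Tendsto (fun k => PJ χ F pt (σ k) v' w a b) atTop (𝓝 (P' a b))) →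
        ps w v ∈ O₁ → ps w v' ∈ O₂ → ε ≤ ‖v - v'‖ ∧
          (g ⬝ᵥ P *ᵥ g) * (g ⬝ᵥ P' *ᵥ g) * (1 - (‖v - v'‖ - ε) ^ 2) ≤ (P *ᵥ g) ⬝ᵥ J *ᵥ (P' *ᵥ g)

/-- The result in every dimension. -/
def RowT : Prop :=
  ∀ (d n : ℕ) (ι : Type) [Fintype ι] (J : Matrix ι ι ℝ) (g : ι → ℝ) (F : Eu n → ι → ℝ),
    2 ≤ d → Lift J g F → MS d J g → AllIso d n

/-! ### Basic facts -/

section kit

variable {d n : ℕ}

@[simp] theorem em_apply (z : Fin d → ℚ) (j : Fin d) : em z j = (z j : ℝ) := rfl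

@[simp] theorem eK_apply (z : Fin d → KR) (j : Fin d) : eK z j = (z j : ℝ) := rfl

@[simp] theorem rot_apply (A : Fin d → Fin d → ℝ) (v : Eu d) (i : Fin d) :
    rot A v i = ∑ j, A i j * v j := rfl

theorem eK_qK (z : Fin d → ℚ) : eK (qK z) = em z := by ext j; simp [qK]

theorem eK_add (z z' : Fin d → KR) : eK (z + z') = eK z + eK z' := by ext j; simp

theorem em_zero : em (0 : Fin d → ℚ) = 0 := by ext j; simp

theorem em_add (z z' : Fin d → ℚ) : em (z + z') = em z + em z' := by ext j; simp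

theorem em_sub (z z' : Fin d → ℚ) : em (z - z') = em z - em z' := by ext j; simp

theorem em_smul (l : ℚ) (z : Fin d → ℚ) : em (l • z) = (l : ℝ) • em z := by ext j; simp

theorem rot_add (A : Fin d → Fin d → ℝ) (v v' : Eu d) : rot A (v + v') = rot A v + rot A v' := by
  ext j; simp [mul_add, Finset.sum_add_distrib]

theorem rot_sub (A : Fin d → Fin d → ℝ) (v v' : Eu d) : rot A (v - v') = rot A v - rot A v' := by
  ext j; simp [mul_sub, Finset.sum_sub_distrib]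

theorem rot_smul (A : Fin d → Fin d → ℝ) (c : ℝ) (v : Eu d) : rot A (c • v) = c • rot A v := by
  ext j; simp [Finset.mul_sum, mul_left_comm]

theorem rot_mul (A : Fin d → Fin d → ℝ) (c : ℝ) (v : Eu d) :
    rot (fun i j => A i j * c) v = rot A (c • v) := by
  ext j; simp [mul_assoc]

theorem ps_sub (w : Om d n) (v v' : Eu d) : ps w v - ps w v' = rot w.2.1 (v - v') := by
  rw [ps, ps, rot_sub]; abel

theorem ps_zero (w : Om d n) : ps w 0 = w.1 := by ext j; simp [ps]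

theorem ps_mv (a z : Fin d → ℚ) (l : ℚ) (w : Om d n) :
    ps (mv a l w) (em z) = ps w (em (a + l • z)) := by
  rw [em_add, em_smul]
  simp only [ps, mv, rot_mul, rot_add, add_assoc]

theorem ev_mv (ξ : Eu d × Eu n → ℝ) (a z : Fin d → ℚ) (l : ℚ) (w : Om d n) :
    ev ξ z (mv a l w) = ev ξ (a + l • z) w := by
  rw [ev, ev, ps_mv]; rfl

theorem un_one : Un 1 := Or.inl rfl

theorem un_neg_one : Un (-1) := Or.inr rfl

theorem continuous_ps : Continuous fun p : Om d n × Eu d => ps p.1 p.2 := by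
  unfold ps rot
  fun_prop

theorem measurable_ev {ξ : Eu d × Eu n → ℝ} (hξ : Measurable ξ) (z : Fin d → ℚ) :
    Measurable (ev ξ z : Om d n → ℝ) := by
  refine hξ.comp (Measurable.prodMk ?_ (by fun_prop))
  unfold ps rot
  fun_prop

theorem measurable_xi {ι : Type} {χ : Eu d → ℝ} {F : Eu n → ι → ℝ} (hχ : Measurable χ)
    (hF : Continuous F) (a b : ι) : Measurable (xi χ F a b) := by
  have h : ∀ c, Measurable fun p : Eu d × Eu n => F p.2 c := fun c =>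
    ((continuous_apply c).comp hF).measurable.comp measurable_snd
  exact (hχ.comp measurable_fst).mul ((h a).mul (h b))

end kit

end

end Pool.Agent.MP_66cee2_co.D.TX
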