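import Pool.Agent.MP_66cee2_co.D.SpecX

/-! The lattice sums and the configurations of a map. -/

namespace Pool.Agent.MP_66cee2_co.D.TX

open MeasureTheory Filter Topology Matrix
open Pool.Agent.MP_66cee2_co.XT (Eu Lift MS AllIso Bd Mean av RowMEAN RowDEF RowLIM RowTR)

noncomputable section

namespace XPhx

variable {d n : ℕ}

/-- The box of lattice points near `-a`. -/
def box (N : ℕ) (a : Fin d → KR) : Finset (Fin d → ℤ) :=
  Fintype.piFinset fun k => Finset.Icc (-⌊(a k : ℝ)⌋ - N) (-⌊(a k : ℝ)⌋ + N)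

theorem card_box (N : ℕ) (a : Fin d → KR) : (box N a).card = (2 * N + 1) ^ d := by
  rw [box, Fintype.card_piFinset, Finset.prod_congr rfl (g := fun _ => 2 * N + 1)]
  · simp
  · intro k _
    rw [Int.card_Icc]
    omega

theorem coord (r : Fin d → ℤ) (a : Fin d → KR) (k : Fin d) :
    eK ((fun k => (r k : KR)) + a) k = (r k : ℝ) + (a k : ℝ) := by simp

theorem mem_box {R : ℝ} {r : Fin d → ℤ} {a : Fin d → KR}
    (h : ‖eK ((fun k => (r k : KR)) + a)‖ ≤ R) : r ∈ box (⌈R⌉₊ + 1) a := by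
  refine Fintype.mem_piFinset.2 fun k => ?_
  have h1 := (PiLp.norm_apply_le (eK ((fun k => (r k : KR)) + a)) k).trans h
  rw [coord, Real.norm_eq_abs, abs_le] at h1
  have h2 := Int.floor_le (a k : ℝ)
  have h3 := Int.lt_floor_add_one (a k : ℝ)
  have h4 := Nat.le_ceil R
  rw [Finset.mem_Icc]
  constructor
  · have : ((-⌊(a k : ℝ)⌋ - ((⌈R⌉₊ + 1 : ℕ) : ℤ) : ℤ) : ℝ) ≤ (r k : ℝ) := by
      push_cast; linarith [h1.1]
    exact_mod_cast this
  · have : (r k : ℝ) ≤ ((-⌊(a k : ℝ)⌋ + ((⌈R⌉₊ + 1 : ℕ) : ℤ) : ℤ) : ℝ) := by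
      push_cast; linarith [h1.2]
    exact_mod_cast this

theorem qK_add (b z : Fin d → ℚ) : qK (b + z) = qK b + qK z := by
  ext k; simp [qK]

theorem ps_W (f : Eu d → Eu n) (a : Fin d → KR) {A : Fr d} (z : Fin d → ℚ) (hA : Lin A) :
    ps (W f a A) (em z) = eK (a + A (qK z)) := by
  rw [eK_add, hA.eq, eK_qK]; rfl

theorem dist_W (a : Fin d → KR) {A : Fr d} (z z' : Fin d → ℚ) (hA : Lin A) :
    ‖eK (a + A (qK z)) - eK (a + A (qK z'))‖ = ‖em z - em z'‖ := by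
  rw [eK_add, eK_add, hA.eq, hA.eq, eK_qK, eK_qK, add_sub_add_left_eq_sub, ← rot_sub, hA.iso]

end XPhx

theorem rowPH : RowPH := by
  intro d n f
  refine ⟨fun φ hφ => ?_, ⟨√d, fun a => ⟨fun k => -⌊(a k : ℝ)⌋, ?_⟩⟩,
    fun a A z hA => XPhx.ps_W f a z hA, fun a A b hA => ?_, ?_⟩
  · obtain ⟨B, R, h⟩ := hφ
    refine ⟨((2 * (⌈R⌉₊ + 1) + 1) ^ d : ℕ) * B, fun a A => ?_⟩
    have hs : (Function.support fun r : Fin d → ℤ =>
        φ (W f ((fun k => (r k : KR)) + a) A)) ⊆ XPhx.box (⌈R⌉₊ + 1) a := fun r hr =>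
      XPhx.mem_box (not_lt.1 fun hlt => hr ((h _).2 hlt))
    refine ⟨(Finset.finite_toSet _).subset hs, ?_⟩
    rw [Ph, finsum_eq_sum_of_support_subset _ hs]
    refine (Finset.abs_sum_le_sum_abs _ _).trans ?_
    refine (Finset.sum_le_card_nsmul _ _ B fun r _ => (h _).1).trans ?_
    rw [XPhx.card_box, nsmul_eq_mul]
  · rw [EuclideanSpace.norm_eq]
    refine Real.sqrt_le_sqrt ?_
    refine (Finset.sum_le_card_nsmul _ _ 1 fun k _ => ?_).trans (by simp)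
    rw [XPhx.coord, Real.norm_eq_abs, sq_abs]
    have h2 := Int.floor_le (a k : ℝ)
    have h3 := Int.lt_floor_add_one (a k : ℝ)
    push_cast
    nlinarith
  · refine Prod.ext (XPhx.ps_W f a b hA) (Prod.ext ?_ ?_)
    · funext i j
      simp [mv, W]
    · funext z
      simp only [mv, W, one_smul, XPhx.qK_add, hA.add, add_assoc]
  · intro C ε O₁ O₂ h1 h2 h3 a A hA
    refine ⟨hA.iso, fun z => ?_, fun z z' hz => ?_, fun z z' a1 a2 => ?_⟩
    · rw [XPhx.ps_W f a z hA]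
      exact h2 _
    · exact h1 _ _ ((XPhx.dist_W a z z' hA).trans hz)
    · rw [XPhx.ps_W f a _ hA] at a1 a2
      rw [← XPhx.dist_W a z z' hA]
      exact h3 _ a1 _ a2

end

end Pool.Agent.MP_66cee2_co.D.TX
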